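import Pool.Agent.W401.WC.Upper
set_option autoImplicit false
namespace Pool.Agent.W401.WC
open Finset

/-- the extremal function over the members bounded above on `[0,1]` -/
noncomputable def Ext (m : ℕ) (x : ℝ) : ℝ :=
  sSup {y : ℝ | ∃ f : ℝ → ℝ, Cls m f ∧ BddAbove (f '' Set.Icc 0 1) ∧ f x = y}

/-- the proposed function -/
noncomputable def Tk (m : ℕ) (x : ℝ) : ℝ :=
  (m : ℝ) ^ 2 * ∑' k : ℕ, 1 / (m : ℝ) ^ (k + 1) *
    min |(m : ℝ) ^ k * x - round ((m : ℝ) ^ k * x)| (1 / m)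

theorem Tk_eq {m : ℕ} (hm2 : 2 ≤ m) (x : ℝ) : Tk m x = phi m x := by
  have hm0 : (0 : ℝ) < m := by exact_mod_cast (by omega : 0 < m)
  unfold Tk phi
  rw [← tsum_mul_left]
  refine tsum_congr fun k => ?_
  unfold hm
  have e : min ((m : ℝ) * |(m : ℝ) ^ k * x - round ((m : ℝ) ^ k * x)|) 1 =
      m * min |(m : ℝ) ^ k * x - round ((m : ℝ) ^ k * x)| (1 / m) := by
    rw [mul_min_of_nonneg _ _ hm0.le]
    congr 1
    field_simp
  rw [e]
  field_simp
  ring

theorem cls_zero (m : ℕ) (hm2 : 2 ≤ m) : Cls m (fun _ => 0) := by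
  refine ⟨le_rfl, le_rfl, fun x hx => ?_⟩
  have : x 0 ≤ x (m - 1) := by
    have h : ∀ k, k < m → x 0 ≤ x k := by
      intro k
      induction k with
      | zero => intro _; exact le_rfl
      | succ k ih => intro hk; exact (ih (by omega)).trans (hx.2.1 k hk)
    exact h _ (by omega)
  simp only [sum_const_zero, zero_div, zero_add]
  linarith

theorem Ext_le {m : ℕ} (hm2 : 2 ≤ m) {x B : ℝ}
    (h : ∀ f : ℝ → ℝ, Cls m f → BddAbove (f '' Set.Icc 0 1) → f x ≤ B) : Ext m x ≤ B := by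
  refine csSup_le ⟨0, fun _ => 0, cls_zero m hm2, ⟨0, ?_⟩, rfl⟩ ?_
  · rintro y ⟨_, _, rfl⟩; exact le_rfl
  · rintro y ⟨f, hf, hb, rfl⟩
    exact h f hf hb

/-- values at `j/m` -/
theorem val_grid {m : ℕ} (hm2 : 2 ≤ m) {f : ℝ → ℝ} (hf : Cls m f) (j : ℕ) (hj : j < m) :
    f (j / m) ≤ 1 := by
  have hm0 : (0 : ℝ) < m := by exact_mod_cast (by omega : 0 < m)
  have e : (m : ℝ) * (j / m) - j = 0 := by field_simp; ring
  have h1 := upper_step hm2 hf (x := j / m) j hj (by rw [e]) (by rw [e]; norm_num)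
  rw [e] at h1
  have h2 := hm_le_one m (j / m)
  have h3 : f 0 / m ≤ 0 := div_nonpos_of_nonpos_of_nonneg hf.1 hm0.le
  linarith

theorem hm_inv {m : ℕ} (hm2 : 2 ≤ m) : hm m (1 / m) = 1 := by
  have hm1 : (2 : ℝ) ≤ m := by exact_mod_cast hm2
  have hm0 : (0 : ℝ) < m := by linarith
  have h0 : (0 : ℝ) ≤ 1 / m := by positivity
  have h1 : (1 : ℝ) / m ≤ 1 / 2 := one_div_le_one_div_of_le (by norm_num) hm1
  unfold hm
  rw [dist_eq_fract (1 / m) 0 (by push_cast; exact h0) (by push_cast; linarith)]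
  push_cast
  rw [min_eq_left (a := (1 : ℝ) / m - 0) (by linarith), sub_zero, mul_one_div_cancel hm0.ne', min_self]

theorem phi_inv {m : ℕ} (hm2 : 2 ≤ m) : phi m (1 / m) = 1 := by
  have hm0 : (0 : ℝ) < m := by exact_mod_cast (by omega : 0 < m)
  rw [phi_rec hm2, hm_inv hm2, mul_one_div_cancel hm0.ne']
  have := phi_int m 1
  push_cast at this
  rw [this]; norm_num

/-- `m ≥ 6`: the value at `1/m` is below one -/
theorem val_six {m : ℕ} (h6 : 6 ≤ m) {f : ℝ → ℝ} (hf : Cls m f) :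
    f (1 / m) ≤ 1 / 2 + 5 / (2 * m) := by
  have hm2 : 2 ≤ m := by omega
  have hm6 : (6 : ℝ) ≤ m := by exact_mod_cast h6
  have hm0 : (0 : ℝ) < m := by linarith
  have v1 := val_grid hm2 hf 1 (by omega)
  have v2 := val_grid hm2 hf 2 (by omega)
  push_cast at v1 v2
  have f0 := hf.1
  have q0 : (0 : ℝ) ≤ 2 / m := by positivity
  have q0' : (0 : ℝ) ≤ 1 / m := by positivity
  have q1 : (2 : ℝ) / m ≤ 1 := by rw [div_le_one hm0]; linarith
  have q2 : (1 : ℝ) / m ≤ 2 / m := div_le_div_of_nonneg_right (by norm_num) hm0.le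
  rcases Nat.even_or_odd' m with ⟨h, hh | hh⟩
  · have hR : (m : ℝ) = 2 * h := by exact_mod_cast hh
    have hh3 : (3 : ℝ) ≤ h := by linarith
    obtain ⟨b, hb⟩ : ∃ b, h = b + 1 := ⟨h - 1, by omega⟩
    have hbR : (h : ℝ) = b + 1 := by exact_mod_cast hb
    have key := three hf h b (by omega) (p := 0) (q := 2 / m) (r := 2 / m) le_rfl q0 le_rfl q1
    rw [if_neg (show ¬ b = 0 by omega), if_neg (show ¬ h = 0 by omega)] at key
    have e : ((h : ℝ) * 0 + 2 / m + b * (2 / m)) / m = 1 / m := by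
      rw [hR, hbR]; field_simp; ring
    rw [e] at key
    have b1 : ((h : ℝ) * f 0 + f (2 / m) + b * f (2 / m)) / m ≤ h / m := by
      apply div_le_div_of_nonneg_right _ hm0.le
      have hb0 : (0 : ℝ) ≤ b := by positivity
      nlinarith [mul_le_mul_of_nonneg_left v2 hb0]
    have e2 : (h : ℝ) / m = 1 / 2 := by rw [hR]; field_simp
    rw [e2] at b1
    have e3 : (2 : ℝ) / m - 0 ≤ 5 / (2 * m) := by
      rw [sub_zero, div_le_div_iff₀ hm0 (by positivity)]; nlinarith
    linarith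
  · have hR : (m : ℝ) = 2 * h + 1 := by exact_mod_cast hh
    have hh3 : (5 : ℝ) / 2 ≤ h := by linarith
    have key := three hf h h (by omega) (p := 0) (q := 1 / m) (r := 2 / m) le_rfl q0' q2 q1
    rw [if_neg (show ¬ h = 0 by omega), if_neg (show ¬ h = 0 by omega)] at key
    have e : ((h : ℝ) * 0 + 1 / m + h * (2 / m)) / m = 1 / m := by
      rw [hR]; field_simp; ring
    rw [e] at key
    have b1 : ((h : ℝ) * f 0 + f (1 / m) + h * f (2 / m)) / m ≤ (h + 1) / m := by
      apply div_le_div_of_nonneg_right _ hm0.le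
      have hb0 : (0 : ℝ) ≤ h := by positivity
      nlinarith [mul_le_mul_of_nonneg_left v2 hb0]
    have e2 : ((h : ℝ) + 1) / m + (2 / m - 0) = 1 / 2 + 5 / (2 * m) := by
      rw [hR]; field_simp; ring
    linarith

/-- `m = 5`: the value at `4/25` is below one -/
theorem val_five {f : ℝ → ℝ} (hf : Cls 5 f) : f (4 / 25) ≤ 4 / 5 := by
  have v2 := val_grid (by norm_num) hf 2 (by omega)
  push_cast at v2
  have f0 := hf.1
  have key := three hf 3 1 (by norm_num) (p := 0) (q := 2 / 5) (r := 2 / 5) le_rfl (by norm_num)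
    le_rfl (by norm_num)
  norm_num at key v2
  linarith

theorem phi_five : phi 5 (4 / 25) = 1 := by
  rw [phi_rec (by norm_num), phi_rec (by norm_num)]
  have h1 : hm 5 (4 / 25) = 4 / 5 := by
    unfold hm
    rw [dist_eq_fract (4 / 25) 0 (by norm_num) (by norm_num)]
    norm_num
  have h2 : hm 5 (((5 : ℕ) : ℝ) * (4 / 25)) = 1 := by
    unfold hm
    rw [dist_eq_fract (((5 : ℕ) : ℝ) * (4 / 25)) 0 (by norm_num) (by norm_num)]
    norm_num
  have h3 : phi 5 (((5 : ℕ) : ℝ) * (((5 : ℕ) : ℝ) * (4 / 25))) = 0 := by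
    have := phi_int 5 4
    push_cast at this ⊢
    norm_num
    exact this
  rw [h1, h2, h3]; norm_num

/-- without a regularity hypothesis the supremum is infinite at irrational points -/
theorem hamel (m : ℕ) (hm2 : 2 ≤ m) (x : ℝ) (hx : Irrational x) (C : ℝ) :
    ∃ f : ℝ → ℝ, Cls m f ∧ C < f x := by
  have hnot : x ∉ Submodule.span ℚ {(1 : ℝ)} := by
    rw [Submodule.mem_span_singleton]
    rintro ⟨q, hq⟩
    apply hx
    exact ⟨q, by rw [← hq, Rat.smul_def, mul_one]⟩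
  obtain ⟨g, hg, hg2⟩ := Submodule.exists_le_ker_of_notMem hnot
  have g1 : g 1 = 0 := by
    have := hg2 (Submodule.mem_span_singleton_self (1 : ℝ))
    simpa using this
  have hmon : ∀ y : ℕ → ℝ, Pts m y → y 0 ≤ y (m - 1) := by
    intro y hy
    have h : ∀ k, k < m → y 0 ≤ y k := by
      intro k
      induction k with
      | zero => intro _; exact le_rfl
      | succ k ih => intro hk; exact (ih (by omega)).trans (hy.2.1 k hk)
    exact h _ (by omega)
  refine ⟨fun y => (C + 1) / ((g x : ℚ) : ℝ) * ((g y : ℚ) : ℝ), ⟨?_, ?_, ?_⟩, ?_⟩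
  · simp
  · simp [g1]
  · intro y hy
    have h1 := hmon y hy
    have e1 : g ((∑ i ∈ range m, y i) / m) = (∑ i ∈ range m, g (y i)) / m := by
      have : (∑ i ∈ range m, y i) / m = ((1 : ℚ) / m) • (∑ i ∈ range m, y i) := by
        rw [Rat.smul_def]; push_cast; ring
      rw [this, map_smul, map_sum, smul_eq_mul]; ring
    simp only
    rw [e1]
    push_cast
    rw [← mul_sum, mul_div_assoc]
    linarith
  · have : ((g x : ℚ) : ℝ) ≠ 0 := by exact_mod_cast hg
    simp only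
    rw [div_mul_cancel₀ _ this]; linarith

end Pool.Agent.W401.WC
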