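import Mathlib
set_option autoImplicit false
namespace Pool.Agent.W401.WC

/-- min (m * dist(x, Z), 1) -/
noncomputable def hm (m : ℕ) (x : ℝ) : ℝ := min (m * |x - round x|) 1

/-- the profile for m = 4 in the variable u = 4x -/
noncomputable def H (u : ℝ) : ℝ := hm 4 (u / 4)

theorem hm_nonneg (m : ℕ) (x : ℝ) : 0 ≤ hm m x := by
  unfold hm; positivity

theorem hm_le_one (m : ℕ) (x : ℝ) : hm m x ≤ 1 := min_le_right _ _

theorem hm_add_int (m : ℕ) (x : ℝ) (n : ℤ) : hm m (x + n) = hm m x := by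
  unfold hm
  rw [round_add_intCast]
  push_cast
  congr 2; congr 1; ring_nf

theorem hm_neg (m : ℕ) (x : ℝ) : hm m (-x) = hm m x := by
  unfold hm
  have h : ∀ y : ℝ, |(-y) - round (-y)| ≤ |y - round y| := by
    intro y
    have := round_le (-y) (-(round y))
    push_cast at this
    calc |(-y) - round (-y)| ≤ |(-y) - -(round y : ℝ)| := this
      _ = |y - round y| := by rw [← abs_neg]; congr 1; ring
  have h1 := h x
  have h2 := h (-x)
  rw [neg_neg] at h2
  rw [le_antisymm h1 h2]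

theorem dist_eq_fract (x : ℝ) (q : ℤ) (h1 : (q : ℝ) ≤ x) (h2 : x ≤ q + 1) :
    |x - round x| = min (x - q) (q + 1 - x) := by
  rcases eq_or_lt_of_le h2 with h | h
  · have : round x = q + 1 := by rw [h]; exact_mod_cast round_intCast (q + 1)
    rw [this, h]; push_cast; simp
  · have hf : ⌊x⌋ = q := Int.floor_eq_iff.2 ⟨h1, h⟩
    have hfr : Int.fract x = x - q := by rw [Int.fract, hf]
    rw [abs_sub_round_eq_min, hfr]
    congr 1; ring

theorem H_nonneg (u : ℝ) : 0 ≤ H u := hm_nonneg _ _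
theorem H_le_one (u : ℝ) : H u ≤ 1 := hm_le_one _ _

theorem Hv0 {u : ℝ} (q : ℤ) {b : ℝ} (hb : b = 4 * q) (h1 : b ≤ u) (h2 : u ≤ b + 1) :
    H u = u - b := by
  unfold H hm
  rw [dist_eq_fract (u / 4) q (by linarith) (by linarith)]
  push_cast
  rw [min_eq_left (a := u / 4 - q) (by linarith), min_eq_left (by linarith)]
  linarith

theorem Hv1 {u : ℝ} (q : ℤ) {b : ℝ} (hb : b = 4 * q) (h1 : b + 1 ≤ u) (h2 : u ≤ b + 3) :
    H u = 1 := by
  unfold H hm
  rw [dist_eq_fract (u / 4) q (by linarith) (by linarith)]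
  push_cast
  apply min_eq_right
  have : (1 : ℝ) / 4 ≤ min (u / 4 - q) (q + 1 - u / 4) := le_min (by linarith) (by linarith)
  linarith

theorem Hv3 {u : ℝ} (q : ℤ) {b : ℝ} (hb : b = 4 * q) (h1 : b + 3 ≤ u) (h2 : u ≤ b + 4) :
    H u = b + 4 - u := by
  unfold H hm
  rw [dist_eq_fract (u / 4) q (by linarith) (by linarith)]
  push_cast
  rw [min_eq_right (a := u / 4 - q) (by linarith), min_eq_left (by linarith)]
  linarith

theorem H_add (u : ℝ) (n : ℤ) : H (u + 4 * n) = H u := by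
  unfold H
  have : (u + 4 * n) / 4 = u / 4 + n := by ring
  rw [this, hm_add_int]

theorem H_neg (u : ℝ) : H (-u) = H u := by
  unfold H
  have : (-u) / 4 = -(u / 4) := by ring
  rw [this, hm_neg]

/-- the limit function, general m -/
noncomputable def phi (m : ℕ) (x : ℝ) : ℝ := ∑' k : ℕ, hm m ((m : ℝ) ^ k * x) / (m : ℝ) ^ k

theorem phi_summable {m : ℕ} (hm' : 2 ≤ m) (x : ℝ) :
    Summable fun k : ℕ => hm m ((m : ℝ) ^ k * x) / (m : ℝ) ^ k := by
  have h1 : (1 : ℝ) < m := by exact_mod_cast (by omega : 1 < m)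
  have hs : Summable fun k : ℕ => ((m : ℝ)⁻¹) ^ k :=
    summable_geometric_of_lt_one (by positivity) (inv_lt_one_of_one_lt₀ h1)
  refine Summable.of_nonneg_of_le (fun k => div_nonneg (hm_nonneg _ _) (by positivity)) (fun k => ?_) hs
  rw [inv_pow, div_eq_mul_inv]
  exact mul_le_of_le_one_left (by positivity) (hm_le_one _ _)

theorem phi_nonneg (m : ℕ) (x : ℝ) : 0 ≤ phi m x :=
  tsum_nonneg fun k => div_nonneg (hm_nonneg _ _) (by positivity)

theorem phi_le {m : ℕ} (hm' : 2 ≤ m) (x : ℝ) : phi m x ≤ m / (m - 1) := by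
  have h1 : (1 : ℝ) < m := by exact_mod_cast (by omega : 1 < m)
  have hs : HasSum (fun k : ℕ => ((m : ℝ)⁻¹) ^ k) ((1 - (m : ℝ)⁻¹)⁻¹) :=
    hasSum_geometric_of_lt_one (by positivity) (inv_lt_one_of_one_lt₀ h1)
  have h2 : phi m x ≤ (1 - (m : ℝ)⁻¹)⁻¹ := by
    rw [← hs.tsum_eq]
    refine (phi_summable hm' x).tsum_le_tsum (fun k => ?_) hs.summable
    rw [inv_pow, div_eq_mul_inv]
    exact mul_le_of_le_one_left (by positivity) (hm_le_one _ _)
  refine h2.trans (le_of_eq ?_)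
  have : (m : ℝ) - 1 ≠ 0 := by linarith
  field_simp

theorem phi_rec {m : ℕ} (hm' : 2 ≤ m) (x : ℝ) : phi m x = hm m x + phi m (m * x) / m := by
  unfold phi
  rw [(phi_summable hm' x).tsum_eq_zero_add, ← tsum_div_const]
  simp only [pow_zero, one_mul, div_one]
  congr 1
  refine tsum_congr fun k => ?_
  rw [pow_succ, div_div, mul_assoc]

theorem phi_add_int (m : ℕ) (x : ℝ) (n : ℤ) : phi m (x + n) = phi m x := by
  unfold phi
  refine tsum_congr fun k => ?_
  have : (m : ℝ) ^ k * (x + n) = (m : ℝ) ^ k * x + ((m ^ k * n : ℤ) : ℝ) := by push_cast; ring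
  rw [this, hm_add_int]

/-- the function for m = 4 -/
noncomputable def ph (x : ℝ) : ℝ := phi 4 x

theorem ph_nonneg (x : ℝ) : 0 ≤ ph x := phi_nonneg _ _
theorem ph_le (x : ℝ) : ph x ≤ 4 / 3 := by
  have := phi_le (m := 4) (by norm_num) x
  unfold ph; norm_num at this ⊢; linarith
theorem ph_add_int (x : ℝ) (n : ℤ) : ph (x + n) = ph x := phi_add_int _ _ _
theorem ph_sub_int (x : ℝ) (n : ℤ) : ph (x - n) = ph x := by
  have := ph_add_int x (-n)
  push_cast at this
  rwa [← sub_eq_add_neg] at this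
/-- recursion in the variable u = 4 x -/
theorem ph_rec (u : ℝ) : ph (u / 4) = H u + ph u / 4 := by
  have := phi_rec (m := 4) (by norm_num) (u / 4)
  have h2 : ((4 : ℕ) : ℝ) * (u / 4) = u := by push_cast; ring
  rw [h2] at this
  unfold ph H
  rw [this]; norm_num

end Pool.Agent.W401.WC
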