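import Pool.Agent.W401.WC.Hk
set_option autoImplicit false
set_option linter.all false
namespace Pool.Agent.W401.WC

theorem g_2_3_4_4 (u1 u2 u3 u4 : ℝ) (a1 : 2 ≤ u1) (b1 : u1 ≤ 2 + 1) (a2 : 3 ≤ u2) (b2 : u2 ≤ 3 + 1) (a3 : 4 ≤ u3) (b3 : u3 ≤ 4 + 1) (a4 : 4 ≤ u4) (b4 : u4 ≤ 4 + 1) (o1 : u1 ≤ u2) (o2 : u2 ≤ u3) (o3 : u3 ≤ u4) : Good u1 u2 u3 u4 ∨ Good2 u1 u2 u3 u4 := by
  obtain ⟨T, hT⟩ : ∃ T, T = u1 + u2 + u3 + u4 := ⟨_, rfl⟩
  have e1 : H u1 = 1 := hk_2 a1 b1
  have e2 : H u2 = 4 - u2 := hk_3 a2 b2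
  have e3 : H u3 = u3 - 4 := hk_4 a3 b3
  have e4 : H u4 = u4 - 4 := hk_4 a4 b4
  have kN : (2 : ℝ) + 3 + 4 + 4 = 13 := by norm_num
  have t0 : 13 ≤ T := by linarith only [hT, a1, a2, a3, a4]
  have t4 : T ≤ 17 := by linarith only [hT, b1, b2, b3, b4]
  rcases le_total T 14 with x1 | x1
  · skip
    have hX : H (T / 4) = 4 - (T / 4) := hk_3 (by linarith only [t0]) (by linarith only [x1])
    have hS : H T = 1 := hk_13 t0 (by linarith only [x1])
    have hN : H (T - 13) = (T - 13) - 0 := hk_0 (by linarith only [t0]) (by linarith only [x1])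
    exact good_T hT zk_2 zk_3 zk_4 zk_4 kN e1 e2 e3 e4 hX hS hN (R := (u1 + u2 + 3 * u3 + 4 * u4 + (-33))) ⟨(by linarith only [hT, a2, a3, a4]), (by linarith only [hT, a2, a3, a4]), (by linarith only [hT, a2, a3, a4]), (by linarith only [hT, a1, a3, a4]), (by linarith only [hT, a1, a3, a4]), (by linarith only [hT, a1, a3, a4]), (by linarith only [hT, a1, a2, a3, a4]), (by linarith only [hT, a1, a2, a3, a4]), (by linarith only [hT, a3, a4, t0]), (by linarith only [hT, a1, a2, a3, a4]), (by linarith only [hT, a1, a2, a3, a4]), (by linarith only [hT, a3, a4, t0])⟩ (by linarith only [hT])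
  rcases le_total T 15 with x2 | x2
  · skip
    have hX : H (T / 4) = 4 - (T / 4) := hk_3 (by linarith only [x1]) (by linarith only [x2])
    have hS : H T = 1 := hk_14 x1 (by linarith only [x2])
    have hN : H (T - 13) = 1 := hk_1 (by linarith only [x1]) (by linarith only [x2])
    exact good_T hT zk_2 zk_3 zk_4 zk_4 kN e1 e2 e3 e4 hX hS hN (R := 1) (spread_one a1 b1 a2 b2 a3 b3 a4 b4) (by linarith only [hT, a3, a4])
  rcases le_total T 16 with x3 | x3
  · skip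
    have hX : H (T / 4) = 4 - (T / 4) := hk_3 (by linarith only [x2]) (by linarith only [x3])
    have hS : H T = 16 - T := hk_15 x2 (by linarith only [x3])
    have hN : H (T - 13) = 1 := hk_2 (by linarith only [x2]) (by linarith only [x3])
    exact good_T hT zk_2 zk_3 zk_4 zk_4 kN e1 e2 e3 e4 hX hS hN (R := 1) (spread_one a1 b1 a2 b2 a3 b3 a4 b4) (by linarith only [hT, a3, a4, x2])
  have hX : H (T / 4) = (T / 4) - 4 := hk_4 (by linarith only [x3]) (by linarith only [t4])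
  have hS : H T = T - 16 := hk_16 x3 (by linarith only [t4])
  have hN : H (T - 13) = 4 - (T - 13) := hk_3 (by linarith only [x3]) (by linarith only [t4])
  exact good_T hT zk_2 zk_3 zk_4 zk_4 kN e1 e2 e3 e4 hX hS hN (R := 1) (spread_one a1 b1 a2 b2 a3 b3 a4 b4) (by linarith only [hT, b1, b2, b3, b4])

theorem g_2_3_4_5 (u1 u2 u3 u4 : ℝ) (a1 : 2 ≤ u1) (b1 : u1 ≤ 2 + 1) (a2 : 3 ≤ u2) (b2 : u2 ≤ 3 + 1) (a3 : 4 ≤ u3) (b3 : u3 ≤ 4 + 1) (a4 : 5 ≤ u4) (b4 : u4 ≤ 5 + 1) (o1 : u1 ≤ u2) (o2 : u2 ≤ u3) (o3 : u3 ≤ u4) : Good u1 u2 u3 u4 ∨ Good2 u1 u2 u3 u4 := by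
  obtain ⟨T, hT⟩ : ∃ T, T = u1 + u2 + u3 + u4 := ⟨_, rfl⟩
  have e1 : H u1 = 1 := hk_2 a1 b1
  have e2 : H u2 = 4 - u2 := hk_3 a2 b2
  have e3 : H u3 = u3 - 4 := hk_4 a3 b3
  have e4 : H u4 = 1 := hk_5 a4 b4
  have kN : (2 : ℝ) + 3 + 4 + 5 = 14 := by norm_num
  have t0 : 14 ≤ T := by linarith only [hT, a1, a2, a3, a4]
  have t4 : T ≤ 18 := by linarith only [hT, b1, b2, b3, b4]
  rcases le_total T 15 with x1 | x1
  · skip
    have hX : H (T / 4) = 4 - (T / 4) := hk_3 (by linarith only [t0]) (by linarith only [x1])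
    have hS : H T = 1 := hk_14 t0 (by linarith only [x1])
    have hN : H (T - 14) = (T - 14) - 0 := hk_0 (by linarith only [t0]) (by linarith only [x1])
    exact good_T hT zk_2 zk_3 zk_4 zk_5 kN e1 e2 e3 e4 hX hS hN (R := 1) (spread_one a1 b1 a2 b2 a3 b3 a4 b4) (by linarith only [hT, a3, a4, t0])
  rcases le_total T 16 with x2 | x2
  · skip
    have hX : H (T / 4) = 4 - (T / 4) := hk_3 (by linarith only [x1]) (by linarith only [x2])
    have hS : H T = 16 - T := hk_15 x1 (by linarith only [x2])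
    have hN : H (T - 14) = 1 := hk_1 (by linarith only [x1]) (by linarith only [x2])
    exact good_T hT zk_2 zk_3 zk_4 zk_5 kN e1 e2 e3 e4 hX hS hN (R := 1) (spread_one a1 b1 a2 b2 a3 b3 a4 b4) (by linarith only [hT, a3, a4, x1])
  rcases le_total T 17 with x3 | x3
  · skip
    have hX : H (T / 4) = (T / 4) - 4 := hk_4 (by linarith only [x2]) (by linarith only [x3])
    have hS : H T = T - 16 := hk_16 x2 (by linarith only [x3])
    have hN : H (T - 14) = 1 := hk_2 (by linarith only [x2]) (by linarith only [x3])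
    exact good_T hT zk_2 zk_3 zk_4 zk_5 kN e1 e2 e3 e4 hX hS hN (R := 1) (spread_one a1 b1 a2 b2 a3 b3 a4 b4) (by linarith only [hT, b1, b2, x3])
  have hX : H (T / 4) = (T / 4) - 4 := hk_4 (by linarith only [x3]) (by linarith only [t4])
  have hS : H T = 1 := hk_17 x3 (by linarith only [t4])
  have hN : H (T - 14) = 4 - (T - 14) := hk_3 (by linarith only [x3]) (by linarith only [t4])
  exact good_T hT zk_2 zk_3 zk_4 zk_5 kN e1 e2 e3 e4 hX hS hN (R := 1) (spread_one a1 b1 a2 b2 a3 b3 a4 b4) (by linarith only [hT, b1, b2, t4])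

theorem g_2_3_4_6 (u1 u2 u3 u4 : ℝ) (a1 : 2 ≤ u1) (b1 : u1 ≤ 2 + 1) (a2 : 3 ≤ u2) (b2 : u2 ≤ 3 + 1) (a3 : 4 ≤ u3) (b3 : u3 ≤ 4 + 1) (a4 : 6 ≤ u4) (b4 : u4 ≤ 6 + 1) (o1 : u1 ≤ u2) (o2 : u2 ≤ u3) (o3 : u3 ≤ u4) : Good u1 u2 u3 u4 ∨ Good2 u1 u2 u3 u4 := by
  obtain ⟨T, hT⟩ : ∃ T, T = u1 + u2 + u3 + u4 := ⟨_, rfl⟩
  have e1 : H u1 = 1 := hk_2 a1 b1
  have e2 : H u2 = 4 - u2 := hk_3 a2 b2
  have e3 : H u3 = u3 - 4 := hk_4 a3 b3
  have e4 : H u4 = 1 := hk_6 a4 b4
  have kN : (2 : ℝ) + 3 + 4 + 6 = 15 := by norm_num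
  have t0 : 15 ≤ T := by linarith only [hT, a1, a2, a3, a4]
  have t4 : T ≤ 19 := by linarith only [hT, b1, b2, b3, b4]
  rcases le_total T 16 with x1 | x1
  · skip
    have hX : H (T / 4) = 4 - (T / 4) := hk_3 (by linarith only [t0]) (by linarith only [x1])
    have hS : H T = 16 - T := hk_15 t0 (by linarith only [x1])
    have hN : H (T - 15) = (T - 15) - 0 := hk_0 (by linarith only [t0]) (by linarith only [x1])
    exact good_T hT zk_2 zk_3 zk_4 zk_6 kN e1 e2 e3 e4 hX hS hN (R := 1) (spread_one a1 b1 a2 b2 a3 b3 a4 b4) (by linarith only [hT, a3, a4, t0])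
  rcases le_total T 17 with x2 | x2
  · skip
    have hX : H (T / 4) = (T / 4) - 4 := hk_4 (by linarith only [x1]) (by linarith only [x2])
    have hS : H T = T - 16 := hk_16 x1 (by linarith only [x2])
    have hN : H (T - 15) = 1 := hk_1 (by linarith only [x1]) (by linarith only [x2])
    exact good_T hT zk_2 zk_3 zk_4 zk_6 kN e1 e2 e3 e4 hX hS hN (R := 1) (spread_one a1 b1 a2 b2 a3 b3 a4 b4) (by linarith only [hT, b1, b2, x2])
  rcases le_total T 18 with x3 | x3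
  · skip
    have hX : H (T / 4) = (T / 4) - 4 := hk_4 (by linarith only [x2]) (by linarith only [x3])
    have hS : H T = 1 := hk_17 x2 (by linarith only [x3])
    have hN : H (T - 15) = 1 := hk_2 (by linarith only [x2]) (by linarith only [x3])
    exact good_T hT zk_2 zk_3 zk_4 zk_6 kN e1 e2 e3 e4 hX hS hN (R := 1) (spread_one a1 b1 a2 b2 a3 b3 a4 b4) (by linarith only [hT, b1, b2])
  have hX : H (T / 4) = (T / 4) - 4 := hk_4 (by linarith only [x3]) (by linarith only [t4])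
  have hS : H T = 1 := hk_18 x3 (by linarith only [t4])
  have hN : H (T - 15) = 4 - (T - 15) := hk_3 (by linarith only [x3]) (by linarith only [t4])
  exact good_T hT zk_2 zk_3 zk_4 zk_6 kN e1 e2 e3 e4 hX hS hN (R := 1) (spread_one a1 b1 a2 b2 a3 b3 a4 b4) (by linarith only [hT, b1, b2, t4])

theorem g_2_3_5_5 (u1 u2 u3 u4 : ℝ) (a1 : 2 ≤ u1) (b1 : u1 ≤ 2 + 1) (a2 : 3 ≤ u2) (b2 : u2 ≤ 3 + 1) (a3 : 5 ≤ u3) (b3 : u3 ≤ 5 + 1) (a4 : 5 ≤ u4) (b4 : u4 ≤ 5 + 1) (o1 : u1 ≤ u2) (o2 : u2 ≤ u3) (o3 : u3 ≤ u4) : Good u1 u2 u3 u4 ∨ Good2 u1 u2 u3 u4 := by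
  obtain ⟨T, hT⟩ : ∃ T, T = u1 + u2 + u3 + u4 := ⟨_, rfl⟩
  have e1 : H u1 = 1 := hk_2 a1 b1
  have e2 : H u2 = 4 - u2 := hk_3 a2 b2
  have e3 : H u3 = 1 := hk_5 a3 b3
  have e4 : H u4 = 1 := hk_5 a4 b4
  have kN : (2 : ℝ) + 3 + 5 + 5 = 15 := by norm_num
  have t0 : 15 ≤ T := by linarith only [hT, a1, a2, a3, a4]
  have t4 : T ≤ 19 := by linarith only [hT, b1, b2, b3, b4]
  rcases le_total T 16 with x1 | x1
  · skip
    have hX : H (T / 4) = 4 - (T / 4) := hk_3 (by linarith only [t0]) (by linarith only [x1])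
    have hS : H T = 16 - T := hk_15 t0 (by linarith only [x1])
    have hN : H (T - 15) = (T - 15) - 0 := hk_0 (by linarith only [t0]) (by linarith only [x1])
    exact good_T hT zk_2 zk_3 zk_5 zk_5 kN e1 e2 e3 e4 hX hS hN (R := 1) (spread_one a1 b1 a2 b2 a3 b3 a4 b4) (by linarith only [hT, a3, a4, t0])
  rcases le_total T 17 with x2 | x2
  · skip
    have hX : H (T / 4) = (T / 4) - 4 := hk_4 (by linarith only [x1]) (by linarith only [x2])
    have hS : H T = T - 16 := hk_16 x1 (by linarith only [x2])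
    have hN : H (T - 15) = 1 := hk_1 (by linarith only [x1]) (by linarith only [x2])
    exact good_T hT zk_2 zk_3 zk_5 zk_5 kN e1 e2 e3 e4 hX hS hN (R := 1) (spread_one a1 b1 a2 b2 a3 b3 a4 b4) (by linarith only [hT, a3, a4, x2])
  rcases le_total T 18 with x3 | x3
  · skip
    have hX : H (T / 4) = (T / 4) - 4 := hk_4 (by linarith only [x2]) (by linarith only [x3])
    have hS : H T = 1 := hk_17 x2 (by linarith only [x3])
    have hN : H (T - 15) = 1 := hk_2 (by linarith only [x2]) (by linarith only [x3])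
    exact good_T hT zk_2 zk_3 zk_5 zk_5 kN e1 e2 e3 e4 hX hS hN (R := 1) (spread_one a1 b1 a2 b2 a3 b3 a4 b4) (by linarith only [hT, b1, b2, o3, x3])
  have hX : H (T / 4) = (T / 4) - 4 := hk_4 (by linarith only [x3]) (by linarith only [t4])
  have hS : H T = 1 := hk_18 x3 (by linarith only [t4])
  have hN : H (T - 15) = 4 - (T - 15) := hk_3 (by linarith only [x3]) (by linarith only [t4])
  exact good_T hT zk_2 zk_3 zk_5 zk_5 kN e1 e2 e3 e4 hX hS hN (R := 1) (spread_one a1 b1 a2 b2 a3 b3 a4 b4) (by linarith only [hT, b1, b2, b3, b4])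

theorem g_2_4_4_4 (u1 u2 u3 u4 : ℝ) (a1 : 2 ≤ u1) (b1 : u1 ≤ 2 + 1) (a2 : 4 ≤ u2) (b2 : u2 ≤ 4 + 1) (a3 : 4 ≤ u3) (b3 : u3 ≤ 4 + 1) (a4 : 4 ≤ u4) (b4 : u4 ≤ 4 + 1) (o1 : u1 ≤ u2) (o2 : u2 ≤ u3) (o3 : u3 ≤ u4) : Good u1 u2 u3 u4 ∨ Good2 u1 u2 u3 u4 := by
  obtain ⟨T, hT⟩ : ∃ T, T = u1 + u2 + u3 + u4 := ⟨_, rfl⟩
  have e1 : H u1 = 1 := hk_2 a1 b1
  have e2 : H u2 = u2 - 4 := hk_4 a2 b2
  have e3 : H u3 = u3 - 4 := hk_4 a3 b3
  have e4 : H u4 = u4 - 4 := hk_4 a4 b4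
  have kN : (2 : ℝ) + 4 + 4 + 4 = 14 := by norm_num
  have t0 : 14 ≤ T := by linarith only [hT, a1, a2, a3, a4]
  have t4 : T ≤ 18 := by linarith only [hT, b1, b2, b3, b4]
  rcases le_total T 15 with x1 | x1
  · skip
    have hX : H (T / 4) = 4 - (T / 4) := hk_3 (by linarith only [t0]) (by linarith only [x1])
    have hS : H T = 1 := hk_14 t0 (by linarith only [x1])
    have hN : H (T - 14) = (T - 14) - 0 := hk_0 (by linarith only [t0]) (by linarith only [x1])
    exact good_T hT zk_2 zk_4 zk_4 zk_4 kN e1 e2 e3 e4 hX hS hN (R := (u1 + 3 * u2 + 3 * u3 + 4 * u4 + (-42))) ⟨(by linarith only [hT, a2, a3, a4]), (by linarith only [hT, a2, a3, a4]), (by linarith only [hT, a2, a3, a4]), (by linarith only [hT, a3, a4, t0]), (by linarith only [hT, a1, a2, a3, a4]), (by linarith only [hT, a1, a2, a3, a4]), (by linarith only [hT, a2, a4, t0]), (by linarith only [hT, a1, a2, a3, a4]), (by linarith only [hT, a1, a2, a3, a4]), (by linarith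 only [hT, a1, a2, a3, a4]), (by linarith only [hT, a1, a2, a3, a4]), (by linarith only [hT, a1, a2, a3, a4])⟩ (by linarith only [hT])
  rcases le_total T 16 with x2 | x2
  · skip
    have hX : H (T / 4) = 4 - (T / 4) := hk_3 (by linarith only [x1]) (by linarith only [x2])
    have hS : H T = 16 - T := hk_15 x1 (by linarith only [x2])
    have hN : H (T - 14) = 1 := hk_1 (by linarith only [x1]) (by linarith only [x2])
    exact good_T hT zk_2 zk_4 zk_4 zk_4 kN e1 e2 e3 e4 hX hS hN (R := 1) (spread_one a1 b1 a2 b2 a3 b3 a4 b4) (by linarith only [hT, b1, a4, x1])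
  rcases le_total T 17 with x3 | x3
  · skip
    have hX : H (T / 4) = (T / 4) - 4 := hk_4 (by linarith only [x2]) (by linarith only [x3])
    have hS : H T = T - 16 := hk_16 x2 (by linarith only [x3])
    have hN : H (T - 14) = 1 := hk_2 (by linarith only [x2]) (by linarith only [x3])
    exact good_T hT zk_2 zk_4 zk_4 zk_4 kN e1 e2 e3 e4 hX hS hN (R := 1) (spread_one a1 b1 a2 b2 a3 b3 a4 b4) (by linarith only [hT, b1, o2, o3, x3])
  have hX : H (T / 4) = (T / 4) - 4 := hk_4 (by linarith only [x3]) (by linarith only [t4])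
  have hS : H T = 1 := hk_17 x3 (by linarith only [t4])
  have hN : H (T - 14) = 4 - (T - 14) := hk_3 (by linarith only [x3]) (by linarith only [t4])
  exact good_T hT zk_2 zk_4 zk_4 zk_4 kN e1 e2 e3 e4 hX hS hN (R := 1) (spread_one a1 b1 a2 b2 a3 b3 a4 b4) (by linarith only [hT, b1, b2, b3])

theorem g_2_4_4_5 (u1 u2 u3 u4 : ℝ) (a1 : 2 ≤ u1) (b1 : u1 ≤ 2 + 1) (a2 : 4 ≤ u2) (b2 : u2 ≤ 4 + 1) (a3 : 4 ≤ u3) (b3 : u3 ≤ 4 + 1) (a4 : 5 ≤ u4) (b4 : u4 ≤ 5 + 1) (o1 : u1 ≤ u2) (o2 : u2 ≤ u3) (o3 : u3 ≤ u4) : Good u1 u2 u3 u4 ∨ Good2 u1 u2 u3 u4 := by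
  obtain ⟨T, hT⟩ : ∃ T, T = u1 + u2 + u3 + u4 := ⟨_, rfl⟩
  have e1 : H u1 = 1 := hk_2 a1 b1
  have e2 : H u2 = u2 - 4 := hk_4 a2 b2
  have e3 : H u3 = u3 - 4 := hk_4 a3 b3
  have e4 : H u4 = 1 := hk_5 a4 b4
  have kN : (2 : ℝ) + 4 + 4 + 5 = 15 := by norm_num
  have t0 : 15 ≤ T := by linarith only [hT, a1, a2, a3, a4]
  have t4 : T ≤ 19 := by linarith only [hT, b1, b2, b3, b4]
  rcases le_total T 16 with x1 | x1
  · skip
    have hX : H (T / 4) = 4 - (T / 4) := hk_3 (by linarith only [t0]) (by linarith only [x1])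
    have hS : H T = 16 - T := hk_15 t0 (by linarith only [x1])
    have hN : H (T - 15) = (T - 15) - 0 := hk_0 (by linarith only [t0]) (by linarith only [x1])
    exact good_T hT zk_2 zk_4 zk_4 zk_5 kN e1 e2 e3 e4 hX hS hN (R := 1) (spread_one a1 b1 a2 b2 a3 b3 a4 b4) (by linarith only [hT, a1, a2, a3, a4])
  rcases le_total T 17 with x2 | x2
  · skip
    have hX : H (T / 4) = (T / 4) - 4 := hk_4 (by linarith only [x1]) (by linarith only [x2])
    have hS : H T = T - 16 := hk_16 x1 (by linarith only [x2])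
    have hN : H (T - 15) = 1 := hk_1 (by linarith only [x1]) (by linarith only [x2])
    exact good_T hT zk_2 zk_4 zk_4 zk_5 kN e1 e2 e3 e4 hX hS hN (R := 1) (spread_one a1 b1 a2 b2 a3 b3 a4 b4) (by linarith only [hT, b1, x2])
  rcases le_total T 18 with x3 | x3
  · skip
    have hX : H (T / 4) = (T / 4) - 4 := hk_4 (by linarith only [x2]) (by linarith only [x3])
    have hS : H T = 1 := hk_17 x2 (by linarith only [x3])
    have hN : H (T - 15) = 1 := hk_2 (by linarith only [x2]) (by linarith only [x3])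
    exact good_T hT zk_2 zk_4 zk_4 zk_5 kN e1 e2 e3 e4 hX hS hN (R := 1) (spread_one a1 b1 a2 b2 a3 b3 a4 b4) (by linarith only [hT, b1])
  have hX : H (T / 4) = (T / 4) - 4 := hk_4 (by linarith only [x3]) (by linarith only [t4])
  have hS : H T = 1 := hk_18 x3 (by linarith only [t4])
  have hN : H (T - 15) = 4 - (T - 15) := hk_3 (by linarith only [x3]) (by linarith only [t4])
  exact good_T hT zk_2 zk_4 zk_4 zk_5 kN e1 e2 e3 e4 hX hS hN (R := 1) (spread_one a1 b1 a2 b2 a3 b3 a4 b4) (by linarith only [hT, b1, t4])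

theorem g_2_4_4_6 (u1 u2 u3 u4 : ℝ) (a1 : 2 ≤ u1) (b1 : u1 ≤ 2 + 1) (a2 : 4 ≤ u2) (b2 : u2 ≤ 4 + 1) (a3 : 4 ≤ u3) (b3 : u3 ≤ 4 + 1) (a4 : 6 ≤ u4) (b4 : u4 ≤ 6 + 1) (o1 : u1 ≤ u2) (o2 : u2 ≤ u3) (o3 : u3 ≤ u4) : Good u1 u2 u3 u4 ∨ Good2 u1 u2 u3 u4 := by
  obtain ⟨T, hT⟩ : ∃ T, T = u1 + u2 + u3 + u4 := ⟨_, rfl⟩
  have e1 : H u1 = 1 := hk_2 a1 b1
  have e2 : H u2 = u2 - 4 := hk_4 a2 b2
  have e3 : H u3 = u3 - 4 := hk_4 a3 b3
  have e4 : H u4 = 1 := hk_6 a4 b4
  have kN : (2 : ℝ) + 4 + 4 + 6 = 16 := by norm_num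
  have t0 : 16 ≤ T := by linarith only [hT, a1, a2, a3, a4]
  have t4 : T ≤ 20 := by linarith only [hT, b1, b2, b3, b4]
  rcases le_total T 17 with x1 | x1
  · skip
    have hX : H (T / 4) = (T / 4) - 4 := hk_4 (by linarith only [t0]) (by linarith only [x1])
    have hS : H T = T - 16 := hk_16 t0 (by linarith only [x1])
    have hN : H (T - 16) = (T - 16) - 0 := hk_0 (by linarith only [t0]) (by linarith only [x1])
    exact good_T hT zk_2 zk_4 zk_4 zk_6 kN e1 e2 e3 e4 hX hS hN (R := 1) (spread_one a1 b1 a2 b2 a3 b3 a4 b4) (by linarith only [hT, b1])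
  rcases le_total T 18 with x2 | x2
  · skip
    have hX : H (T / 4) = (T / 4) - 4 := hk_4 (by linarith only [x1]) (by linarith only [x2])
    have hS : H T = 1 := hk_17 x1 (by linarith only [x2])
    have hN : H (T - 16) = 1 := hk_1 (by linarith only [x1]) (by linarith only [x2])
    exact good_T hT zk_2 zk_4 zk_4 zk_6 kN e1 e2 e3 e4 hX hS hN (R := 1) (spread_one a1 b1 a2 b2 a3 b3 a4 b4) (by linarith only [hT, b1])
  rcases le_total T 19 with x3 | x3
  · skip
    have hX : H (T / 4) = (T / 4) - 4 := hk_4 (by linarith only [x2]) (by linarith only [x3])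
    have hS : H T = 1 := hk_18 x2 (by linarith only [x3])
    have hN : H (T - 16) = 1 := hk_2 (by linarith only [x2]) (by linarith only [x3])
    exact good_T hT zk_2 zk_4 zk_4 zk_6 kN e1 e2 e3 e4 hX hS hN (R := 1) (spread_one a1 b1 a2 b2 a3 b3 a4 b4) (by linarith only [hT, b1])
  have hX : H (T / 4) = (T / 4) - 4 := hk_4 (by linarith only [x3]) (by linarith only [t4])
  have hS : H T = 20 - T := hk_19 x3 (by linarith only [t4])
  have hN : H (T - 16) = 4 - (T - 16) := hk_3 (by linarith only [x3]) (by linarith only [t4])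
  exact good_T hT zk_2 zk_4 zk_4 zk_6 kN e1 e2 e3 e4 hX hS hN (R := 1) (spread_one a1 b1 a2 b2 a3 b3 a4 b4) (by linarith only [hT, b1])

theorem g_2_4_5_5 (u1 u2 u3 u4 : ℝ) (a1 : 2 ≤ u1) (b1 : u1 ≤ 2 + 1) (a2 : 4 ≤ u2) (b2 : u2 ≤ 4 + 1) (a3 : 5 ≤ u3) (b3 : u3 ≤ 5 + 1) (a4 : 5 ≤ u4) (b4 : u4 ≤ 5 + 1) (o1 : u1 ≤ u2) (o2 : u2 ≤ u3) (o3 : u3 ≤ u4) : Good u1 u2 u3 u4 ∨ Good2 u1 u2 u3 u4 := by
  obtain ⟨T, hT⟩ : ∃ T, T = u1 + u2 + u3 + u4 := ⟨_, rfl⟩
  have e1 : H u1 = 1 := hk_2 a1 b1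
  have e2 : H u2 = u2 - 4 := hk_4 a2 b2
  have e3 : H u3 = 1 := hk_5 a3 b3
  have e4 : H u4 = 1 := hk_5 a4 b4
  have kN : (2 : ℝ) + 4 + 5 + 5 = 16 := by norm_num
  have t0 : 16 ≤ T := by linarith only [hT, a1, a2, a3, a4]
  have t4 : T ≤ 20 := by linarith only [hT, b1, b2, b3, b4]
  rcases le_total T 17 with x1 | x1
  · skip
    have hX : H (T / 4) = (T / 4) - 4 := hk_4 (by linarith only [t0]) (by linarith only [x1])
    have hS : H T = T - 16 := hk_16 t0 (by linarith only [x1])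
    have hN : H (T - 16) = (T - 16) - 0 := hk_0 (by linarith only [t0]) (by linarith only [x1])
    exact good_T hT zk_2 zk_4 zk_5 zk_5 kN e1 e2 e3 e4 hX hS hN (R := 1) (spread_one a1 b1 a2 b2 a3 b3 a4 b4) (by linarith only [hT, b1, a2, a4, x1])
  rcases le_total T 18 with x2 | x2
  · skip
    have hX : H (T / 4) = (T / 4) - 4 := hk_4 (by linarith only [x1]) (by linarith only [x2])
    have hS : H T = 1 := hk_17 x1 (by linarith only [x2])
    have hN : H (T - 16) = 1 := hk_1 (by linarith only [x1]) (by linarith only [x2])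
    exact good_T hT zk_2 zk_4 zk_5 zk_5 kN e1 e2 e3 e4 hX hS hN (R := 1) (spread_one a1 b1 a2 b2 a3 b3 a4 b4) (by linarith only [hT, b1, a2, o3, x2])
  rcases le_total T 19 with x3 | x3
  · skip
    have hX : H (T / 4) = (T / 4) - 4 := hk_4 (by linarith only [x2]) (by linarith only [x3])
    have hS : H T = 1 := hk_18 x2 (by linarith only [x3])
    have hN : H (T - 16) = 1 := hk_2 (by linarith only [x2]) (by linarith only [x3])
    exact good_T hT zk_2 zk_4 zk_5 zk_5 kN e1 e2 e3 e4 hX hS hN (R := 1) (spread_one a1 b1 a2 b2 a3 b3 a4 b4) (by linarith only [hT, b1, b3])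
  have hX : H (T / 4) = (T / 4) - 4 := hk_4 (by linarith only [x3]) (by linarith only [t4])
  have hS : H T = 20 - T := hk_19 x3 (by linarith only [t4])
  have hN : H (T - 16) = 4 - (T - 16) := hk_3 (by linarith only [x3]) (by linarith only [t4])
  exact good_T hT zk_2 zk_4 zk_5 zk_5 kN e1 e2 e3 e4 hX hS hN (R := 1) (spread_one a1 b1 a2 b2 a3 b3 a4 b4) (by linarith only [hT, b1, b3])

theorem g_3_3_3_3 (u1 u2 u3 u4 : ℝ) (a1 : 3 ≤ u1) (b1 : u1 ≤ 3 + 1) (a2 : 3 ≤ u2) (b2 : u2 ≤ 3 + 1) (a3 : 3 ≤ u3) (b3 : u3 ≤ 3 + 1) (a4 : 3 ≤ u4) (b4 : u4 ≤ 3 + 1) (o1 : u1 ≤ u2) (o2 : u2 ≤ u3) (o3 : u3 ≤ u4) : Good u1 u2 u3 u4 ∨ Good2 u1 u2 u3 u4 := by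
  obtain ⟨T, hT⟩ : ∃ T, T = u1 + u2 + u3 + u4 := ⟨_, rfl⟩
  have e1 : H u1 = 4 - u1 := hk_3 a1 b1
  have e2 : H u2 = 4 - u2 := hk_3 a2 b2
  have e3 : H u3 = 4 - u3 := hk_3 a3 b3
  have e4 : H u4 = 4 - u4 := hk_3 a4 b4
  have kN : (3 : ℝ) + 3 + 3 + 3 = 12 := by norm_num
  have t0 : 12 ≤ T := by linarith only [hT, a1, a2, a3, a4]
  have t4 : T ≤ 16 := by linarith only [hT, b1, b2, b3, b4]
  rcases le_total T 13 with x1 | x1
  · skip
    have hX : H (T / 4) = 4 - (T / 4) := hk_3 (by linarith only [t0]) (by linarith only [x1])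
    have hS : H T = T - 12 := hk_12 t0 (by linarith only [x1])
    have hN : H (T - 12) = (T - 12) - 0 := hk_0 (by linarith only [t0]) (by linarith only [x1])
    exact good_T hT zk_3 zk_3 zk_3 zk_3 kN e1 e2 e3 e4 hX hS hN (R := (- u1 + u4)) ⟨(by linarith only [hT, o1, o2, o3]), (by linarith only [hT, o1, o2, o3]), (by linarith only [hT, o1, o2, o3]), (by linarith only [hT, o2, o3]), (by linarith only [hT, o1, o2, o3]), (by linarith only [hT, o1, o2, o3]), (by linarith only [hT, o3]), (by linarith only [hT, o1, o3]), (by linarith only [hT, o1, o2, o3]), (by linarith only [hT]), (by linarith only [hT, o1]), (by linarith only [hT, o1, o2])⟩ (by linarith only [hT])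
  rcases le_total T 14 with x2 | x2
  · skip
    have hX : H (T / 4) = 4 - (T / 4) := hk_3 (by linarith only [x1]) (by linarith only [x2])
    have hS : H T = 1 := hk_13 x1 (by linarith only [x2])
    have hN : H (T - 12) = 1 := hk_1 (by linarith only [x1]) (by linarith only [x2])
    exact good_T hT zk_3 zk_3 zk_3 zk_3 kN e1 e2 e3 e4 hX hS hN (R := (- u1 + u4)) ⟨(by linarith only [hT, o1, o2, o3]), (by linarith only [hT, o1, o2, o3]), (by linarith only [hT, o1, o2, o3]), (by linarith only [hT, o2, o3]), (by linarith only [hT, o1, o2, o3]), (by linarith only [hT, o1, o2, o3]), (by linarith only [hT, o3]), (by linarith only [hT, o1, o3]), (by linarith only [hT, o1, o2, o3]), (by linarith only [hT]), (by linarith only [hT, o1]), (by linarith only [hT, o1, o2])⟩ (by linarith only [hT])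
  rcases le_total T 15 with x3 | x3
  · skip
    have hX : H (T / 4) = 4 - (T / 4) := hk_3 (by linarith only [x2]) (by linarith only [x3])
    have hS : H T = 1 := hk_14 x2 (by linarith only [x3])
    have hN : H (T - 12) = 1 := hk_2 (by linarith only [x2]) (by linarith only [x3])
    exact good_T hT zk_3 zk_3 zk_3 zk_3 kN e1 e2 e3 e4 hX hS hN (R := (- u1 + u4)) ⟨(by linarith only [hT, o1, o2, o3]), (by linarith only [hT, o1, o2, o3]), (by linarith only [hT, o1, o2, o3]), (by linarith only [hT, o2, o3]), (by linarith only [hT, o1, o2, o3]), (by linarith only [hT, o1, o2, o3]), (by linarith only [hT, o3]), (by linarith only [hT, o1, o3]), (by linarith only [hT, o1, o2, o3]), (by linarith only [hT]), (by linarith only [hT, o1]), (by linarith only [hT, o1, o2])⟩ (by linarith only [hT])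
  have hX : H (T / 4) = 4 - (T / 4) := hk_3 (by linarith only [x3]) (by linarith only [t4])
  have hS : H T = 16 - T := hk_15 x3 (by linarith only [t4])
  have hN : H (T - 12) = 4 - (T - 12) := hk_3 (by linarith only [x3]) (by linarith only [t4])
  exact good_T hT zk_3 zk_3 zk_3 zk_3 kN e1 e2 e3 e4 hX hS hN (R := (- u1 + u4)) ⟨(by linarith only [hT, o1, o2, o3]), (by linarith only [hT, o1, o2, o3]), (by linarith only [hT, o1, o2, o3]), (by linarith only [hT, o2, o3]), (by linarith only [hT, o1, o2, o3]), (by linarith only [hT, o1, o2, o3]), (by linarith only [hT, o3]), (by linarith only [hT, o1, o3]), (by linarith only [hT, o1, o2, o3]), (by linarith only [hT]), (by linarith only [hT, o1]), (by linarith only [hT, o1, o2])⟩ (by linarith only [hT])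

theorem g_3_3_3_4 (u1 u2 u3 u4 : ℝ) (a1 : 3 ≤ u1) (b1 : u1 ≤ 3 + 1) (a2 : 3 ≤ u2) (b2 : u2 ≤ 3 + 1) (a3 : 3 ≤ u3) (b3 : u3 ≤ 3 + 1) (a4 : 4 ≤ u4) (b4 : u4 ≤ 4 + 1) (o1 : u1 ≤ u2) (o2 : u2 ≤ u3) (o3 : u3 ≤ u4) : Good u1 u2 u3 u4 ∨ Good2 u1 u2 u3 u4 := by
  obtain ⟨T, hT⟩ : ∃ T, T = u1 + u2 + u3 + u4 := ⟨_, rfl⟩
  have e1 : H u1 = 4 - u1 := hk_3 a1 b1
  have e2 : H u2 = 4 - u2 := hk_3 a2 b2
  have e3 : H u3 = 4 - u3 := hk_3 a3 b3
  have e4 : H u4 = u4 - 4 := hk_4 a4 b4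
  have kN : (3 : ℝ) + 3 + 3 + 4 = 13 := by norm_num
  have t0 : 13 ≤ T := by linarith only [hT, a1, a2, a3, a4]
  have t4 : T ≤ 17 := by linarith only [hT, b1, b2, b3, b4]
  rcases le_total T 14 with x1 | x1
  · skip
    have hX : H (T / 4) = 4 - (T / 4) := hk_3 (by linarith only [t0]) (by linarith only [x1])
    have hS : H T = 1 := hk_13 t0 (by linarith only [x1])
    have hN : H (T - 13) = (T - 13) - 0 := hk_0 (by linarith only [t0]) (by linarith only [x1])
    exact good_T hT zk_3 zk_3 zk_3 zk_4 kN e1 e2 e3 e4 hX hS hN (R := (u2 + u3 + 4 * u4 + (-22))) ⟨(by linarith only [hT, a1, a3, a4, o1]), (by linarith only [hT, a3, a4, o1]), (by linarith only [hT, a3, a4, o1]), (by linarith only [hT, a1, a3, a4]), (by linarith only [hT, a3, a4]), (by linarith only [hT, a3, a4]), (by linarith only [hT, a1, a2, a4]), (by linarith only [hT, a2, a4]), (by linarith only [hT, a2, a4]), (by linarith only [hT, a4, t0]), (by linarith only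 [hT, a2, a3, a4]), (by linarith only [hT, a2, a3, a4])⟩ (by linarith only [hT])
  rcases le_total T 15 with x2 | x2
  · skip
    have hX : H (T / 4) = 4 - (T / 4) := hk_3 (by linarith only [x1]) (by linarith only [x2])
    have hS : H T = 1 := hk_14 x1 (by linarith only [x2])
    have hN : H (T - 12) = 1 := hk_2 (by linarith only [x1]) (by linarith only [x2])
    exact good_T hT zk_3 zk_3 zk_3 zk_3 (by norm_num) e1 e2 e3 e4 hX hS hN (R := (- u1 + 3 * u4 + (-8))) ⟨(by linarith only [hT, a4, o1, o2, x2]), (by linarith only [hT, a4, o1, o2, x2]), (by linarith only [hT, a4, o1, o2, x2]), (by linarith only [hT, b2, a4]), (by linarith only [hT, a4, o1, o2, x2]), (by linarith only [hT, a4, o1, o2, x2]), (by linarith only [hT, b3, a4]), (by linarith only [hT, b3, a4, o1]), (by linarith only [hT, b3, a4, o1, x2]), (by linarith only [hT, a4]), (by linarith only [hT, a4, o1]), (by linarith only [hT, a4, o1, o2])⟩ (by linarith only [hT])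
  rcases le_total T 16 with x3 | x3
  · skip
    have hX : H (T / 4) = 4 - (T / 4) := hk_3 (by linarith only [x2]) (by linarith only [x3])
    have hS : H T = 16 - T := hk_15 x2 (by linarith only [x3])
    have hN : H (T - 12) = 4 - (T - 12) := hk_3 (by linarith only [x2]) (by linarith only [x3])
    exact good_T hT zk_3 zk_3 zk_3 zk_3 (by norm_num) e1 e2 e3 e4 hX hS hN (R := (- u1 + 3 * u4 + (-8))) ⟨(by linarith only [hT, b1, a4, o1]), (by linarith only [hT, b1, a4, o1, o2]), (by linarith only [hT, b1, a4]), (by linarith only [hT, b2, a4]), (by linarith only [hT, b1, a4, o2]), (by linarith only [hT, b1, b2, a4]), (by linarith only [hT, b3, a4]), (by linarith only [hT, b3, a4, o1]), (by linarith only [hT, b1, b3, a4]), (by linarith only [hT, a4]), (by linarith only [hT, a4, o1]), (by linarith only [hT, a4, o1, o2])⟩ (by linarith only [hT])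
  have hX : H (T / 4) = (T / 4) - 4 := hk_4 (by linarith only [x3]) (by linarith only [t4])
  have hS : H T = T - 16 := hk_16 x3 (by linarith only [t4])
  have hN : H (T - 13) = 4 - (T - 13) := hk_3 (by linarith only [x3]) (by linarith only [t4])
  exact good_T hT zk_3 zk_3 zk_3 zk_4 kN e1 e2 e3 e4 hX hS hN (R := ((-5) * u1 + (-4) * u2 + (-4) * u3 - u4 + 57)) ⟨(by linarith only [hT, b1, b2, b3, b4]), (by linarith only [hT, b1, b2, b3, b4]), (by linarith only [hT, b1, b2, b3]), (by linarith only [hT, b1, b2, b3, b4]), (by linarith only [hT, b1, b2, b3, b4]), (by linarith only [hT, b1, b2, b3]), (by linarith only [hT, b1, b2, b3, b4]), (by linarith only [hT, b1, b2, b3, b4]), (by linarith only [hT, b1, b2, b3]), (by linarith only [hT, b1, b2, b3, b4]), (by linarith only [hT, b1, b2, b3, b4]), (by linarith only [hT, b1, b2, b3, b4])⟩ (by linarith only [hT])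

theorem g_3_3_3_5 (u1 u2 u3 u4 : ℝ) (a1 : 3 ≤ u1) (b1 : u1 ≤ 3 + 1) (a2 : 3 ≤ u2) (b2 : u2 ≤ 3 + 1) (a3 : 3 ≤ u3) (b3 : u3 ≤ 3 + 1) (a4 : 5 ≤ u4) (b4 : u4 ≤ 5 + 1) (o1 : u1 ≤ u2) (o2 : u2 ≤ u3) (o3 : u3 ≤ u4) : Good u1 u2 u3 u4 ∨ Good2 u1 u2 u3 u4 := by
  obtain ⟨T, hT⟩ : ∃ T, T = u1 + u2 + u3 + u4 := ⟨_, rfl⟩
  have e1 : H u1 = 4 - u1 := hk_3 a1 b1
  have e2 : H u2 = 4 - u2 := hk_3 a2 b2
  have e3 : H u3 = 4 - u3 := hk_3 a3 b3
  have e4 : H u4 = 1 := hk_5 a4 b4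
  have kN : (3 : ℝ) + 3 + 3 + 5 = 14 := by norm_num
  have t0 : 14 ≤ T := by linarith only [hT, a1, a2, a3, a4]
  have t4 : T ≤ 18 := by linarith only [hT, b1, b2, b3, b4]
  rcases le_total T 15 with x1 | x1
  · skip
    have hX : H (T / 4) = 4 - (T / 4) := hk_3 (by linarith only [t0]) (by linarith only [x1])
    have hS : H T = 1 := hk_14 t0 (by linarith only [x1])
    have hN : H (T - 14) = (T - 14) - 0 := hk_0 (by linarith only [t0]) (by linarith only [x1])
    exact good_T hT zk_3 zk_3 zk_3 zk_5 kN e1 e2 e3 e4 hX hS hN (R := 1) (spread_one a1 b1 a2 b2 a3 b3 a4 b4) (by linarith only [hT, a2, a3, a4])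
  rcases le_total T 16 with x2 | x2
  · skip
    have hX : H (T / 4) = 4 - (T / 4) := hk_3 (by linarith only [x1]) (by linarith only [x2])
    have hS : H T = 16 - T := hk_15 x1 (by linarith only [x2])
    have hN : H (T - 14) = 1 := hk_1 (by linarith only [x1]) (by linarith only [x2])
    exact good_T hT zk_3 zk_3 zk_3 zk_5 kN e1 e2 e3 e4 hX hS hN (R := 1) (spread_one a1 b1 a2 b2 a3 b3 a4 b4) (by linarith only [hT, a4, o1, o2, x1])
  rcases le_total T 17 with x3 | x3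
  · skip
    have hX : H (T / 4) = (T / 4) - 4 := hk_4 (by linarith only [x2]) (by linarith only [x3])
    have hS : H T = T - 16 := hk_16 x2 (by linarith only [x3])
    have hN : H (T - 14) = 1 := hk_2 (by linarith only [x2]) (by linarith only [x3])
    exact good_T hT zk_3 zk_3 zk_3 zk_5 kN e1 e2 e3 e4 hX hS hN (R := 1) (spread_one a1 b1 a2 b2 a3 b3 a4 b4) (by linarith only [hT, b1, a4, x3])
  have hX : H (T / 4) = (T / 4) - 4 := hk_4 (by linarith only [x3]) (by linarith only [t4])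
  have hS : H T = 1 := hk_17 x3 (by linarith only [t4])
  have hN : H (T - 14) = 4 - (T - 14) := hk_3 (by linarith only [x3]) (by linarith only [t4])
  exact good_T hT zk_3 zk_3 zk_3 zk_5 kN e1 e2 e3 e4 hX hS hN (R := ((-4) * u1 + (-3) * u2 + (-3) * u3 - u4 + 46)) ⟨(by linarith only [hT, b1, b2, b3, b4]), (by linarith only [hT, b1, b2, b3, b4]), (by linarith only [hT, b1, b2, b3]), (by linarith only [hT, b1, b2, b3, b4]), (by linarith only [hT, b1, b2, b3, b4]), (by linarith only [hT, b1, b2, b3]), (by linarith only [hT, b1, b2, b3, b4]), (by linarith only [hT, b1, b2, b3, b4]), (by linarith only [hT, b1, b2, b3]), (by linarith only [hT, b1, b2, b3, b4]), (by linarith only [hT, b1, b3, t4]), (by linarith only [hT, b1, b2, t4])⟩ (by linarith only [hT])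

theorem g_3_3_3_6 (u1 u2 u3 u4 : ℝ) (a1 : 3 ≤ u1) (b1 : u1 ≤ 3 + 1) (a2 : 3 ≤ u2) (b2 : u2 ≤ 3 + 1) (a3 : 3 ≤ u3) (b3 : u3 ≤ 3 + 1) (a4 : 6 ≤ u4) (b4 : u4 ≤ 6 + 1) (o1 : u1 ≤ u2) (o2 : u2 ≤ u3) (o3 : u3 ≤ u4) : Good u1 u2 u3 u4 ∨ Good2 u1 u2 u3 u4 := by
  obtain ⟨T, hT⟩ : ∃ T, T = u1 + u2 + u3 + u4 := ⟨_, rfl⟩
  have e1 : H u1 = 4 - u1 := hk_3 a1 b1
  have e2 : H u2 = 4 - u2 := hk_3 a2 b2
  have e3 : H u3 = 4 - u3 := hk_3 a3 b3
  have e4 : H u4 = 1 := hk_6 a4 b4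
  have kN : (3 : ℝ) + 3 + 3 + 6 = 15 := by norm_num
  have t0 : 15 ≤ T := by linarith only [hT, a1, a2, a3, a4]
  have t4 : T ≤ 19 := by linarith only [hT, b1, b2, b3, b4]
  rcases le_total T 16 with x1 | x1
  · skip
    have hX : H (T / 4) = 4 - (T / 4) := hk_3 (by linarith only [t0]) (by linarith only [x1])
    have hS : H T = 16 - T := hk_15 t0 (by linarith only [x1])
    have hN : H (T - 15) = (T - 15) - 0 := hk_0 (by linarith only [t0]) (by linarith only [x1])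
    exact good_T hT zk_3 zk_3 zk_3 zk_6 kN e1 e2 e3 e4 hX hS hN (R := 1) (spread_one a1 b1 a2 b2 a3 b3 a4 b4) (by linarith only [hT, a1, a2, a3, a4])
  rcases le_total T 17 with x2 | x2
  · skip
    have hX : H (T / 4) = (T / 4) - 4 := hk_4 (by linarith only [x1]) (by linarith only [x2])
    have hS : H T = T - 16 := hk_16 x1 (by linarith only [x2])
    have hN : H (T - 15) = 1 := hk_1 (by linarith only [x1]) (by linarith only [x2])
    exact good_T hT zk_3 zk_3 zk_3 zk_6 kN e1 e2 e3 e4 hX hS hN (R := 1) (spread_one a1 b1 a2 b2 a3 b3 a4 b4) (by linarith only [hT, a4, o1, o2, x2])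
  rcases le_total T 18 with x3 | x3
  · skip
    have hX : H (T / 4) = (T / 4) - 4 := hk_4 (by linarith only [x2]) (by linarith only [x3])
    have hS : H T = 1 := hk_17 x2 (by linarith only [x3])
    have hN : H (T - 15) = 1 := hk_2 (by linarith only [x2]) (by linarith only [x3])
    exact good_T hT zk_3 zk_3 zk_3 zk_6 kN e1 e2 e3 e4 hX hS hN (R := 1) (spread_one a1 b1 a2 b2 a3 b3 a4 b4) (by linarith only [hT, b1, b2, b3])
  have hX : H (T / 4) = (T / 4) - 4 := hk_4 (by linarith only [x3]) (by linarith only [t4])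
  have hS : H T = 1 := hk_18 x3 (by linarith only [t4])
  have hN : H (T - 15) = 4 - (T - 15) := hk_3 (by linarith only [x3]) (by linarith only [t4])
  exact good_T hT zk_3 zk_3 zk_3 zk_6 kN e1 e2 e3 e4 hX hS hN (R := ((-4) * u1 + (-3) * u2 + (-3) * u3 - u4 + 47)) ⟨(by linarith only [hT, b1, b2, b3, b4]), (by linarith only [hT, b1, b2, b3, b4]), (by linarith only [hT, b1, b2, b3]), (by linarith only [hT, b1, b2, b3, b4]), (by linarith only [hT, b1, b2, b3, b4]), (by linarith only [hT, b1, b2, b3]), (by linarith only [hT, b1, b2, b3, b4]), (by linarith only [hT, b1, b2, b3, b4]), (by linarith only [hT, b1, b2, b3]), (by linarith only [hT, b1, b2, b3, b4]), (by linarith only [hT, b1, b3, t4]), (by linarith only [hT, b1, b2, t4])⟩ (by linarith only [hT])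

theorem g_3_3_3_7 (u1 u2 u3 u4 : ℝ) (a1 : 3 ≤ u1) (b1 : u1 ≤ 3 + 1) (a2 : 3 ≤ u2) (b2 : u2 ≤ 3 + 1) (a3 : 3 ≤ u3) (b3 : u3 ≤ 3 + 1) (a4 : 7 ≤ u4) (b4 : u4 ≤ 7 + 1) (o1 : u1 ≤ u2) (o2 : u2 ≤ u3) (o3 : u3 ≤ u4) : Good u1 u2 u3 u4 ∨ Good2 u1 u2 u3 u4 := by
  obtain ⟨T, hT⟩ : ∃ T, T = u1 + u2 + u3 + u4 := ⟨_, rfl⟩
  have e1 : H u1 = 4 - u1 := hk_3 a1 b1
  have e2 : H u2 = 4 - u2 := hk_3 a2 b2
  have e3 : H u3 = 4 - u3 := hk_3 a3 b3
  have e4 : H u4 = 8 - u4 := hk_7 a4 b4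
  have kN : (3 : ℝ) + 3 + 3 + 7 = 16 := by norm_num
  have t0 : 16 ≤ T := by linarith only [hT, a1, a2, a3, a4]
  have t4 : T ≤ 20 := by linarith only [hT, b1, b2, b3, b4]
  rcases le_total T 17 with x1 | x1
  · skip
    have hX : H (T / 4) = (T / 4) - 4 := hk_4 (by linarith only [t0]) (by linarith only [x1])
    have hS : H T = T - 16 := hk_16 t0 (by linarith only [x1])
    have hN : H (T - 16) = (T - 16) - 0 := hk_0 (by linarith only [t0]) (by linarith only [x1])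
    exact good_T hT zk_3 zk_3 zk_3 zk_7 kN e1 e2 e3 e4 hX hS hN (R := 1) (spread_one a1 b1 a2 b2 a3 b3 a4 b4) (by linarith only [hT, a4, o1, o2, x1])
  rcases le_total T 18 with x2 | x2
  · skip
    have hX : H (T / 4) = (T / 4) - 4 := hk_4 (by linarith only [x1]) (by linarith only [x2])
    have hS : H T = 1 := hk_17 x1 (by linarith only [x2])
    have hN : H (T - 16) = 1 := hk_1 (by linarith only [x1]) (by linarith only [x2])
    exact good_T hT zk_3 zk_3 zk_3 zk_7 kN e1 e2 e3 e4 hX hS hN (R := 1) (spread_one a1 b1 a2 b2 a3 b3 a4 b4) (by linarith only [hT, a4, o1, o2, x2])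
  rcases le_total T 19 with x3 | x3
  · skip
    have hX : H (T / 4) = (T / 4) - 4 := hk_4 (by linarith only [x2]) (by linarith only [x3])
    have hS : H T = 1 := hk_18 x2 (by linarith only [x3])
    have hN : H (T - 16) = 1 := hk_2 (by linarith only [x2]) (by linarith only [x3])
    exact good_T hT zk_3 zk_3 zk_3 zk_7 kN e1 e2 e3 e4 hX hS hN (R := 1) (spread_one a1 b1 a2 b2 a3 b3 a4 b4) (by linarith only [hT, b1, a4, x3])
  have hX : H (T / 4) = (T / 4) - 4 := hk_4 (by linarith only [x3]) (by linarith only [t4])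
  have hS : H T = 20 - T := hk_19 x3 (by linarith only [t4])
  have hN : H (T - 16) = 4 - (T - 16) := hk_3 (by linarith only [x3]) (by linarith only [t4])
  exact good_T hT zk_3 zk_3 zk_3 zk_7 kN e1 e2 e3 e4 hX hS hN (R := ((-3) * u1 + (-2) * u2 + (-2) * u3 - u4 + 36)) ⟨(by linarith only [hT, b1, b3, t4]), (by linarith only [hT, b1, b2, t4]), (by linarith only [hT, b1, b2, b3]), (by linarith only [hT, b1, b2, b3, b4]), (by linarith only [hT, b1, b2, t4]), (by linarith only [hT, b1, b2, b3]), (by linarith only [hT, b1, b2, b3, b4]), (by linarith only [hT, b1, b3, t4]), (by linarith only [hT, b1, b2, b3]), (by linarith only [hT, t4]), (by linarith only [hT, o1, t4]), (by linarith only [hT, o1, o2, t4])⟩ (by linarith only [hT])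

theorem g_3_3_3_8 (u1 u2 u3 u4 : ℝ) (a1 : 3 ≤ u1) (b1 : u1 ≤ 3 + 1) (a2 : 3 ≤ u2) (b2 : u2 ≤ 3 + 1) (a3 : 3 ≤ u3) (b3 : u3 ≤ 3 + 1) (a4 : 8 ≤ u4) (b4 : u4 ≤ 8 + 1) (o1 : u1 ≤ u2) (o2 : u2 ≤ u3) (o3 : u3 ≤ u4) : Good u1 u2 u3 u4 ∨ Good2 u1 u2 u3 u4 := by
  obtain ⟨T, hT⟩ : ∃ T, T = u1 + u2 + u3 + u4 := ⟨_, rfl⟩
  have e1 : H u1 = 4 - u1 := hk_3 a1 b1
  have e2 : H u2 = 4 - u2 := hk_3 a2 b2
  have e3 : H u3 = 4 - u3 := hk_3 a3 b3
  have e4 : H u4 = u4 - 8 := hk_8 a4 b4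
  have kN : (3 : ℝ) + 3 + 3 + 8 = 17 := by norm_num
  have t0 : 17 ≤ T := by linarith only [hT, a1, a2, a3, a4]
  have t4 : T ≤ 21 := by linarith only [hT, b1, b2, b3, b4]
  rcases le_total T 18 with x1 | x1
  · skip
    have hX : H (T / 4) = (T / 4) - 4 := hk_4 (by linarith only [t0]) (by linarith only [x1])
    have hS : H T = 1 := hk_17 t0 (by linarith only [x1])
    have hN : H (T - 17) = (T - 17) - 0 := hk_0 (by linarith only [t0]) (by linarith only [x1])
    exact good_T hT zk_3 zk_3 zk_3 zk_8 kN e1 e2 e3 e4 hX hS hN (R := 1) (spread_one a1 b1 a2 b2 a3 b3 a4 b4) (by linarith only [hT, a4, o1, o2, x1])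
  rcases le_total T 19 with x2 | x2
  · skip
    have hX : H (T / 4) = (T / 4) - 4 := hk_4 (by linarith only [x1]) (by linarith only [x2])
    have hS : H T = 1 := hk_18 x1 (by linarith only [x2])
    have hN : H (T - 17) = 1 := hk_1 (by linarith only [x1]) (by linarith only [x2])
    exact good_T hT zk_3 zk_3 zk_3 zk_8 kN e1 e2 e3 e4 hX hS hN (R := 1) (spread_one a1 b1 a2 b2 a3 b3 a4 b4) (by linarith only [hT, a4, o1, o2, x2])
  rcases le_total T 20 with x3 | x3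
  · skip
    have hX : H (T / 4) = (T / 4) - 4 := hk_4 (by linarith only [x2]) (by linarith only [x3])
    have hS : H T = 20 - T := hk_19 x2 (by linarith only [x3])
    have hN : H (T - 17) = 1 := hk_2 (by linarith only [x2]) (by linarith only [x3])
    exact good_T hT zk_3 zk_3 zk_3 zk_8 kN e1 e2 e3 e4 hX hS hN (R := 1) (spread_one a1 b1 a2 b2 a3 b3 a4 b4) (by linarith only [hT, b1, a4, x3])
  have hX : H (T / 4) = 1 := hk_5 (by linarith only [x3]) (by linarith only [t4])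
  have hS : H T = T - 20 := hk_20 x3 (by linarith only [t4])
  have hN : H (T - 17) = 4 - (T - 17) := hk_3 (by linarith only [x3]) (by linarith only [t4])
  exact good_T hT zk_3 zk_3 zk_3 zk_8 kN e1 e2 e3 e4 hX hS hN (R := 1) (spread_one a1 b1 a2 b2 a3 b3 a4 b4) (by linarith only [hT, b1, b2, b3])

theorem g_3_3_4_4 (u1 u2 u3 u4 : ℝ) (a1 : 3 ≤ u1) (b1 : u1 ≤ 3 + 1) (a2 : 3 ≤ u2) (b2 : u2 ≤ 3 + 1) (a3 : 4 ≤ u3) (b3 : u3 ≤ 4 + 1) (a4 : 4 ≤ u4) (b4 : u4 ≤ 4 + 1) (o1 : u1 ≤ u2) (o2 : u2 ≤ u3) (o3 : u3 ≤ u4) : Good u1 u2 u3 u4 ∨ Good2 u1 u2 u3 u4 := by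
  obtain ⟨T, hT⟩ : ∃ T, T = u1 + u2 + u3 + u4 := ⟨_, rfl⟩
  have e1 : H u1 = 4 - u1 := hk_3 a1 b1
  have e2 : H u2 = 4 - u2 := hk_3 a2 b2
  have e3 : H u3 = u3 - 4 := hk_4 a3 b3
  have e4 : H u4 = u4 - 4 := hk_4 a4 b4
  have kN : (3 : ℝ) + 3 + 4 + 4 = 14 := by norm_num
  have t0 : 14 ≤ T := by linarith only [hT, a1, a2, a3, a4]
  have t4 : T ≤ 18 := by linarith only [hT, b1, b2, b3, b4]
  rcases le_total T 15 with x1 | x1
  · skip
    have hX : H (T / 4) = 4 - (T / 4) := hk_3 (by linarith only [t0]) (by linarith only [x1])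
    have hS : H T = 1 := hk_14 t0 (by linarith only [x1])
    have hN : H (T - 14) = (T - 14) - 0 := hk_0 (by linarith only [t0]) (by linarith only [x1])
    exact good_T hT zk_3 zk_3 zk_4 zk_4 kN e1 e2 e3 e4 hX hS hN (R := (u2 + 3 * u3 + 4 * u4 + (-31))) ⟨(by linarith only [hT, a1, a3, a4, o1]), (by linarith only [hT, a3, a4, o1]), (by linarith only [hT, a3, a4, o1]), (by linarith only [hT, a1, a3, a4]), (by linarith only [hT, a3, a4]), (by linarith only [hT, a3, a4]), (by linarith only [hT, a3, a4, t0]), (by linarith only [hT, a2, a3, a4]), (by linarith only [hT, a2, a3, a4]), (by linarith only [hT, a3, a4, t0]), (by linarith only [hT, a2, a3, a4]), (by linarith only [hT, a2, a3, a4])⟩ (by linarith only [hT])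
  rcases le_total T 16 with x2 | x2
  · skip
    have hX : H (T / 4) = 4 - (T / 4) := hk_3 (by linarith only [x1]) (by linarith only [x2])
    have hS : H T = 16 - T := hk_15 x1 (by linarith only [x2])
    have hN : H (T - 14) = 1 := hk_1 (by linarith only [x1]) (by linarith only [x2])
    exact good_T hT zk_3 zk_3 zk_4 zk_4 kN e1 e2 e3 e4 hX hS hN (R := (u2 + 3 * u3 + 4 * u4 + (-31))) ⟨(by linarith only [hT, a3, a4, o1, x1]), (by linarith only [hT, a3, a4, o1]), (by linarith only [hT, a3, a4, o1]), (by linarith only [hT, a1, a3, a4]), (by linarith only [hT, a3, a4]), (by linarith only [hT, a3, a4]), (by linarith only [hT, a3, a4, x1]), (by linarith only [hT, a3, a4, o1, x1]), (by linarith only [hT, a3, a4, o1, x1]), (by linarith only [hT, a3, a4, x1]), (by linarith only [hT, a3, a4, o1, x1]), (by linarith only [hT, a3, a4, o1, x1])⟩ (by linarith only [hT])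
  rcases le_total T 17 with x3 | x3
  · skip
    have hX : H (T / 4) = (T / 4) - 4 := hk_4 (by linarith only [x2]) (by linarith only [x3])
    have hS : H T = T - 16 := hk_16 x2 (by linarith only [x3])
    have hN : H (T - 14) = 1 := hk_2 (by linarith only [x2]) (by linarith only [x3])
    exact good_T hT zk_3 zk_3 zk_4 zk_4 kN e1 e2 e3 e4 hX hS hN (R := ((-4) * u1 + (-3) * u2 - u3 + 33)) ⟨(by linarith only [hT, b1, b2, o3, x3]), (by linarith only [hT, b1, b2]), (by linarith only [hT, b1, b2, o3]), (by linarith only [hT, b1, b2, o3, x3]), (by linarith only [hT, b1, b2]), (by linarith only [hT, b1, b2, o3]), (by linarith only [hT, b1, b2, o3, x3]), (by linarith only [hT, b1, b2, o3, x3]), (by linarith only [hT, b1, b2, o3, x3]), (by linarith only [hT, b1, b2, x3]), (by linarith only [hT, b1, b2, x3]), (by linarith only [hT, b1, b2, b4])⟩ (by linarith only [hT])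
  have hX : H (T / 4) = (T / 4) - 4 := hk_4 (by linarith only [x3]) (by linarith only [t4])
  have hS : H T = 1 := hk_17 x3 (by linarith only [t4])
  have hN : H (T - 14) = 4 - (T - 14) := hk_3 (by linarith only [x3]) (by linarith only [t4])
  exact good_T hT zk_3 zk_3 zk_4 zk_4 kN e1 e2 e3 e4 hX hS hN (R := ((-4) * u1 + (-3) * u2 - u3 + 33)) ⟨(by linarith only [hT, b1, b2, b3]), (by linarith only [hT, b1, b2]), (by linarith only [hT, b1, b2, o3]), (by linarith only [hT, b1, b2, b3]), (by linarith only [hT, b1, b2]), (by linarith only [hT, b1, b2, o3]), (by linarith only [hT, b1, b2, b3]), (by linarith only [hT, b1, b2, b3]), (by linarith only [hT, b1, b2, b3, o3]), (by linarith only [hT, b1, b2, t4]), (by linarith only [hT, b1, b2, t4]), (by linarith only [hT, b1, b2, b4])⟩ (by linarith only [hT])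

theorem g_3_3_4_5 (u1 u2 u3 u4 : ℝ) (a1 : 3 ≤ u1) (b1 : u1 ≤ 3 + 1) (a2 : 3 ≤ u2) (b2 : u2 ≤ 3 + 1) (a3 : 4 ≤ u3) (b3 : u3 ≤ 4 + 1) (a4 : 5 ≤ u4) (b4 : u4 ≤ 5 + 1) (o1 : u1 ≤ u2) (o2 : u2 ≤ u3) (o3 : u3 ≤ u4) : Good u1 u2 u3 u4 ∨ Good2 u1 u2 u3 u4 := by
  obtain ⟨T, hT⟩ : ∃ T, T = u1 + u2 + u3 + u4 := ⟨_, rfl⟩
  have e1 : H u1 = 4 - u1 := hk_3 a1 b1
  have e2 : H u2 = 4 - u2 := hk_3 a2 b2
  have e3 : H u3 = u3 - 4 := hk_4 a3 b3
  have e4 : H u4 = 1 := hk_5 a4 b4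
  have kN : (3 : ℝ) + 3 + 4 + 5 = 15 := by norm_num
  have t0 : 15 ≤ T := by linarith only [hT, a1, a2, a3, a4]
  have t4 : T ≤ 19 := by linarith only [hT, b1, b2, b3, b4]
  rcases le_total T 16 with x1 | x1
  · skip
    have hX : H (T / 4) = 4 - (T / 4) := hk_3 (by linarith only [t0]) (by linarith only [x1])
    have hS : H T = 16 - T := hk_15 t0 (by linarith only [x1])
    have hN : H (T - 15) = (T - 15) - 0 := hk_0 (by linarith only [t0]) (by linarith only [x1])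
    exact good_T hT zk_3 zk_3 zk_4 zk_5 kN e1 e2 e3 e4 hX hS hN (R := 1) (spread_one a1 b1 a2 b2 a3 b3 a4 b4) (by linarith only [hT, a1, a2, a3, a4])
  rcases le_total T 17 with x2 | x2
  · skip
    have hX : H (T / 4) = (T / 4) - 4 := hk_4 (by linarith only [x1]) (by linarith only [x2])
    have hS : H T = T - 16 := hk_16 x1 (by linarith only [x2])
    have hN : H (T - 15) = 1 := hk_1 (by linarith only [x1]) (by linarith only [x2])
    exact good_T hT zk_3 zk_3 zk_4 zk_5 kN e1 e2 e3 e4 hX hS hN (R := 1) (spread_one a1 b1 a2 b2 a3 b3 a4 b4) (by linarith only [hT, b1, b2, x2])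
  rcases le_total T 18 with x3 | x3
  · skip
    have hX : H (T / 4) = (T / 4) - 4 := hk_4 (by linarith only [x2]) (by linarith only [x3])
    have hS : H T = 1 := hk_17 x2 (by linarith only [x3])
    have hN : H (T - 15) = 1 := hk_2 (by linarith only [x2]) (by linarith only [x3])
    exact good_T hT zk_3 zk_3 zk_4 zk_5 kN e1 e2 e3 e4 hX hS hN (R := 1) (spread_one a1 b1 a2 b2 a3 b3 a4 b4) (by linarith only [hT, b1, b2])
  have hX : H (T / 4) = (T / 4) - 4 := hk_4 (by linarith only [x3]) (by linarith only [t4])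
  have hS : H T = 1 := hk_18 x3 (by linarith only [t4])
  have hN : H (T - 15) = 4 - (T - 15) := hk_3 (by linarith only [x3]) (by linarith only [t4])
  exact good_T hT zk_3 zk_3 zk_4 zk_5 kN e1 e2 e3 e4 hX hS hN (R := ((-4) * u1 + (-3) * u2 - u3 - u4 + 39)) ⟨(by linarith only [hT, b1, b2, t4]), (by linarith only [hT, b1, b2, b4]), (by linarith only [hT, b1, b2, b3]), (by linarith only [hT, b1, b2, t4]), (by linarith only [hT, b1, b2, b4]), (by linarith only [hT, b1, b2, b3]), (by linarith only [hT, b1, b2, b3, b4]), (by linarith only [hT, b1, b2, b3, b4]), (by linarith only [hT, b1, b2, b3]), (by linarith only [hT, b1, b2, b3, b4]), (by linarith only [hT, b1, b2, b3, b4]), (by linarith only [hT, b1, b2, b4])⟩ (by linarith only [hT])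

theorem g_3_3_4_6 (u1 u2 u3 u4 : ℝ) (a1 : 3 ≤ u1) (b1 : u1 ≤ 3 + 1) (a2 : 3 ≤ u2) (b2 : u2 ≤ 3 + 1) (a3 : 4 ≤ u3) (b3 : u3 ≤ 4 + 1) (a4 : 6 ≤ u4) (b4 : u4 ≤ 6 + 1) (o1 : u1 ≤ u2) (o2 : u2 ≤ u3) (o3 : u3 ≤ u4) : Good u1 u2 u3 u4 ∨ Good2 u1 u2 u3 u4 := by
  obtain ⟨T, hT⟩ : ∃ T, T = u1 + u2 + u3 + u4 := ⟨_, rfl⟩
  have e1 : H u1 = 4 - u1 := hk_3 a1 b1
  have e2 : H u2 = 4 - u2 := hk_3 a2 b2
  have e3 : H u3 = u3 - 4 := hk_4 a3 b3
  have e4 : H u4 = 1 := hk_6 a4 b4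
  have kN : (3 : ℝ) + 3 + 4 + 6 = 16 := by norm_num
  have t0 : 16 ≤ T := by linarith only [hT, a1, a2, a3, a4]
  have t4 : T ≤ 20 := by linarith only [hT, b1, b2, b3, b4]
  rcases le_total T 17 with x1 | x1
  · skip
    have hX : H (T / 4) = (T / 4) - 4 := hk_4 (by linarith only [t0]) (by linarith only [x1])
    have hS : H T = T - 16 := hk_16 t0 (by linarith only [x1])
    have hN : H (T - 16) = (T - 16) - 0 := hk_0 (by linarith only [t0]) (by linarith only [x1])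
    exact good_T hT zk_3 zk_3 zk_4 zk_6 kN e1 e2 e3 e4 hX hS hN (R := 1) (spread_one a1 b1 a2 b2 a3 b3 a4 b4) (by linarith only [hT, a3, a4, o1, x1])
  rcases le_total T 18 with x2 | x2
  · skip
    have hX : H (T / 4) = (T / 4) - 4 := hk_4 (by linarith only [x1]) (by linarith only [x2])
    have hS : H T = 1 := hk_17 x1 (by linarith only [x2])
    have hN : H (T - 16) = 1 := hk_1 (by linarith only [x1]) (by linarith only [x2])
    exact good_T hT zk_3 zk_3 zk_4 zk_6 kN e1 e2 e3 e4 hX hS hN (R := 1) (spread_one a1 b1 a2 b2 a3 b3 a4 b4) (by linarith only [hT, b1, b2])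
  rcases le_total T 19 with x3 | x3
  · skip
    have hX : H (T / 4) = (T / 4) - 4 := hk_4 (by linarith only [x2]) (by linarith only [x3])
    have hS : H T = 1 := hk_18 x2 (by linarith only [x3])
    have hN : H (T - 16) = 1 := hk_2 (by linarith only [x2]) (by linarith only [x3])
    exact good_T hT zk_3 zk_3 zk_4 zk_6 kN e1 e2 e3 e4 hX hS hN (R := 1) (spread_one a1 b1 a2 b2 a3 b3 a4 b4) (by linarith only [hT, b1, b2])
  have hX : H (T / 4) = (T / 4) - 4 := hk_4 (by linarith only [x3]) (by linarith only [t4])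
  have hS : H T = 20 - T := hk_19 x3 (by linarith only [t4])
  have hN : H (T - 16) = 4 - (T - 16) := hk_3 (by linarith only [x3]) (by linarith only [t4])
  exact good_T hT zk_3 zk_3 zk_4 zk_6 kN e1 e2 e3 e4 hX hS hN (R := 1) (spread_one a1 b1 a2 b2 a3 b3 a4 b4) (by linarith only [hT, b1, b2])

theorem g_3_3_4_7 (u1 u2 u3 u4 : ℝ) (a1 : 3 ≤ u1) (b1 : u1 ≤ 3 + 1) (a2 : 3 ≤ u2) (b2 : u2 ≤ 3 + 1) (a3 : 4 ≤ u3) (b3 : u3 ≤ 4 + 1) (a4 : 7 ≤ u4) (b4 : u4 ≤ 7 + 1) (o1 : u1 ≤ u2) (o2 : u2 ≤ u3) (o3 : u3 ≤ u4) : Good u1 u2 u3 u4 ∨ Good2 u1 u2 u3 u4 := by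
  obtain ⟨T, hT⟩ : ∃ T, T = u1 + u2 + u3 + u4 := ⟨_, rfl⟩
  have e1 : H u1 = 4 - u1 := hk_3 a1 b1
  have e2 : H u2 = 4 - u2 := hk_3 a2 b2
  have e3 : H u3 = u3 - 4 := hk_4 a3 b3
  have e4 : H u4 = 8 - u4 := hk_7 a4 b4
  have kN : (3 : ℝ) + 3 + 4 + 7 = 17 := by norm_num
  have t0 : 17 ≤ T := by linarith only [hT, a1, a2, a3, a4]
  have t4 : T ≤ 21 := by linarith only [hT, b1, b2, b3, b4]
  rcases le_total T 18 with x1 | x1
  · skip
    have hX : H (T / 4) = (T / 4) - 4 := hk_4 (by linarith only [t0]) (by linarith only [x1])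
    have hS : H T = 1 := hk_17 t0 (by linarith only [x1])
    have hN : H (T - 17) = (T - 17) - 0 := hk_0 (by linarith only [t0]) (by linarith only [x1])
    exact good_T hT zk_3 zk_3 zk_4 zk_7 kN e1 e2 e3 e4 hX hS hN (R := 1) (spread_one a1 b1 a2 b2 a3 b3 a4 b4) (by linarith only [hT, a3, a4, o1, x1])
  rcases le_total T 19 with x2 | x2
  · skip
    have hX : H (T / 4) = (T / 4) - 4 := hk_4 (by linarith only [x1]) (by linarith only [x2])
    have hS : H T = 1 := hk_18 x1 (by linarith only [x2])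
    have hN : H (T - 17) = 1 := hk_1 (by linarith only [x1]) (by linarith only [x2])
    exact good_T hT zk_3 zk_3 zk_4 zk_7 kN e1 e2 e3 e4 hX hS hN (R := 1) (spread_one a1 b1 a2 b2 a3 b3 a4 b4) (by linarith only [hT, b1, o2, x2])
  rcases le_total T 20 with x3 | x3
  · skip
    have hX : H (T / 4) = (T / 4) - 4 := hk_4 (by linarith only [x2]) (by linarith only [x3])
    have hS : H T = 20 - T := hk_19 x2 (by linarith only [x3])
    have hN : H (T - 17) = 1 := hk_2 (by linarith only [x2]) (by linarith only [x3])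
    exact good_T hT zk_3 zk_3 zk_4 zk_7 kN e1 e2 e3 e4 hX hS hN (R := 1) (spread_one a1 b1 a2 b2 a3 b3 a4 b4) (by linarith only [hT, b1, o2])
  have hX : H (T / 4) = 1 := hk_5 (by linarith only [x3]) (by linarith only [t4])
  have hS : H T = T - 20 := hk_20 x3 (by linarith only [t4])
  have hN : H (T - 17) = 4 - (T - 17) := hk_3 (by linarith only [x3]) (by linarith only [t4])
  exact good_T hT zk_3 zk_3 zk_4 zk_7 kN e1 e2 e3 e4 hX hS hN (R := ((-4) * u1 + (-3) * u2 - u3 + (-2) * u4 + 49)) ⟨(by linarith only [hT, b1, b2, b3, b4]), (by linarith only [hT, b1, b2, b4]), (by linarith only [hT, b1, b2, t4]), (by linarith only [hT, b1, b2, b3, b4]), (by linarith only [hT, b1, b2, b4]), (by linarith only [hT, b1, b2, t4]), (by linarith only [hT, b1, b2, t4]), (by linarith only [hT, b1, t4]), (by linarith only [hT, b1, b2, b3, b4]), (by linarith only [hT, b1, b2, b3, b4]), (by linarith only [hT, b1, b2, b3, b4]), (by linarith only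 [hT, b1, b2, b4])⟩ (by linarith only [hT])

theorem g_3_3_4_8 (u1 u2 u3 u4 : ℝ) (a1 : 3 ≤ u1) (b1 : u1 ≤ 3 + 1) (a2 : 3 ≤ u2) (b2 : u2 ≤ 3 + 1) (a3 : 4 ≤ u3) (b3 : u3 ≤ 4 + 1) (a4 : 8 ≤ u4) (b4 : u4 ≤ 8 + 1) (o1 : u1 ≤ u2) (o2 : u2 ≤ u3) (o3 : u3 ≤ u4) : Good u1 u2 u3 u4 ∨ Good2 u1 u2 u3 u4 := by
  obtain ⟨T, hT⟩ : ∃ T, T = u1 + u2 + u3 + u4 := ⟨_, rfl⟩
  have e1 : H u1 = 4 - u1 := hk_3 a1 b1
  have e2 : H u2 = 4 - u2 := hk_3 a2 b2
  have e3 : H u3 = u3 - 4 := hk_4 a3 b3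
  have e4 : H u4 = u4 - 8 := hk_8 a4 b4
  have kN : (3 : ℝ) + 3 + 4 + 8 = 18 := by norm_num
  have t0 : 18 ≤ T := by linarith only [hT, a1, a2, a3, a4]
  have t4 : T ≤ 22 := by linarith only [hT, b1, b2, b3, b4]
  rcases le_total T 19 with x1 | x1
  · skip
    have hX : H (T / 4) = (T / 4) - 4 := hk_4 (by linarith only [t0]) (by linarith only [x1])
    have hS : H T = 1 := hk_18 t0 (by linarith only [x1])
    have hN : H (T - 18) = (T - 18) - 0 := hk_0 (by linarith only [t0]) (by linarith only [x1])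
    exact good_T hT zk_3 zk_3 zk_4 zk_8 kN e1 e2 e3 e4 hX hS hN (R := 1) (spread_one a1 b1 a2 b2 a3 b3 a4 b4) (by linarith only [hT, a3, a4, o1, x1])
  rcases le_total T 20 with x2 | x2
  · skip
    have hX : H (T / 4) = (T / 4) - 4 := hk_4 (by linarith only [x1]) (by linarith only [x2])
    have hS : H T = 20 - T := hk_19 x1 (by linarith only [x2])
    have hN : H (T - 18) = 1 := hk_1 (by linarith only [x1]) (by linarith only [x2])
    exact good_T hT zk_3 zk_3 zk_4 zk_8 kN e1 e2 e3 e4 hX hS hN (R := 1) (spread_one a1 b1 a2 b2 a3 b3 a4 b4) (by linarith only [hT, b1, a4, o2])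
  rcases le_total T 21 with x3 | x3
  · skip
    have hX : H (T / 4) = 1 := hk_5 (by linarith only [x2]) (by linarith only [x3])
    have hS : H T = T - 20 := hk_20 x2 (by linarith only [x3])
    have hN : H (T - 18) = 1 := hk_2 (by linarith only [x2]) (by linarith only [x3])
    exact good_T hT zk_3 zk_3 zk_4 zk_8 kN e1 e2 e3 e4 hX hS hN (R := 1) (spread_one a1 b1 a2 b2 a3 b3 a4 b4) (by linarith only [hT, b1, b2, a4])
  have hX : H (T / 4) = 1 := hk_5 (by linarith only [x3]) (by linarith only [t4])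
  have hS : H T = 1 := hk_21 x3 (by linarith only [t4])
  have hN : H (T - 18) = 4 - (T - 18) := hk_3 (by linarith only [x3]) (by linarith only [t4])
  exact good_T hT zk_3 zk_3 zk_4 zk_8 kN e1 e2 e3 e4 hX hS hN (R := 1) (spread_one a1 b1 a2 b2 a3 b3 a4 b4) (by linarith only [hT, b1, b2, a4])

theorem g_3_3_5_5 (u1 u2 u3 u4 : ℝ) (a1 : 3 ≤ u1) (b1 : u1 ≤ 3 + 1) (a2 : 3 ≤ u2) (b2 : u2 ≤ 3 + 1) (a3 : 5 ≤ u3) (b3 : u3 ≤ 5 + 1) (a4 : 5 ≤ u4) (b4 : u4 ≤ 5 + 1) (o1 : u1 ≤ u2) (o2 : u2 ≤ u3) (o3 : u3 ≤ u4) : Good u1 u2 u3 u4 ∨ Good2 u1 u2 u3 u4 := by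
  obtain ⟨T, hT⟩ : ∃ T, T = u1 + u2 + u3 + u4 := ⟨_, rfl⟩
  have e1 : H u1 = 4 - u1 := hk_3 a1 b1
  have e2 : H u2 = 4 - u2 := hk_3 a2 b2
  have e3 : H u3 = 1 := hk_5 a3 b3
  have e4 : H u4 = 1 := hk_5 a4 b4
  have kN : (3 : ℝ) + 3 + 5 + 5 = 16 := by norm_num
  have t0 : 16 ≤ T := by linarith only [hT, a1, a2, a3, a4]
  have t4 : T ≤ 20 := by linarith only [hT, b1, b2, b3, b4]
  rcases le_total T 17 with x1 | x1
  · skip
    have hX : H (T / 4) = (T / 4) - 4 := hk_4 (by linarith only [t0]) (by linarith only [x1])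
    have hS : H T = T - 16 := hk_16 t0 (by linarith only [x1])
    have hN : H (T - 16) = (T - 16) - 0 := hk_0 (by linarith only [t0]) (by linarith only [x1])
    exact good_T hT zk_3 zk_3 zk_5 zk_5 kN e1 e2 e3 e4 hX hS hN (R := 1) (spread_one a1 b1 a2 b2 a3 b3 a4 b4) (by linarith only [hT, a3, a4, o1, x1])
  rcases le_total T 18 with x2 | x2
  · skip
    have hX : H (T / 4) = (T / 4) - 4 := hk_4 (by linarith only [x1]) (by linarith only [x2])
    have hS : H T = 1 := hk_17 x1 (by linarith only [x2])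
    have hN : H (T - 16) = 1 := hk_1 (by linarith only [x1]) (by linarith only [x2])
    exact good_T hT zk_3 zk_3 zk_5 zk_5 kN e1 e2 e3 e4 hX hS hN (R := 1) (spread_one a1 b1 a2 b2 a3 b3 a4 b4) (by linarith only [hT, b1, b2, a4, x2])
  rcases le_total T 19 with x3 | x3
  · skip
    have hX : H (T / 4) = (T / 4) - 4 := hk_4 (by linarith only [x2]) (by linarith only [x3])
    have hS : H T = 1 := hk_18 x2 (by linarith only [x3])
    have hN : H (T - 16) = 1 := hk_2 (by linarith only [x2]) (by linarith only [x3])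
    exact good_T hT zk_3 zk_3 zk_5 zk_5 kN e1 e2 e3 e4 hX hS hN (R := ((-3) * u1 + (-2) * u2 - u3 + 26)) ⟨(by linarith only [hT, b1, b2, o3, x3]), (by linarith only [hT, b1, b2]), (by linarith only [hT, b1, b2, o3]), (by linarith only [hT, b1, b2, o3, x3]), (by linarith only [hT, b1, b2]), (by linarith only [hT, b1, b2, o3]), (by linarith only [hT, b1, b2, o3, x3]), (by linarith only [hT, b1, o3, x3]), (by linarith only [hT, b1, b2, o3, x3]), (by linarith only [hT, b1, b2, x3]), (by linarith only [hT, b1, x3]), (by linarith only [hT, b1, b2, b4])⟩ (by linarith only [hT])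
  have hX : H (T / 4) = (T / 4) - 4 := hk_4 (by linarith only [x3]) (by linarith only [t4])
  have hS : H T = 20 - T := hk_19 x3 (by linarith only [t4])
  have hN : H (T - 16) = 4 - (T - 16) := hk_3 (by linarith only [x3]) (by linarith only [t4])
  exact good_T hT zk_3 zk_3 zk_5 zk_5 kN e1 e2 e3 e4 hX hS hN (R := ((-3) * u1 + (-2) * u2 - u3 + 26)) ⟨(by linarith only [hT, b1, b2, b3]), (by linarith only [hT, b1, b2]), (by linarith only [hT, b1, b2, o3]), (by linarith only [hT, b1, b2, b3]), (by linarith only [hT, b1, b2]), (by linarith only [hT, b1, b2, o3]), (by linarith only [hT, b1, b2, b3]), (by linarith only [hT, b1, b2, b3]), (by linarith only [hT, b1, b2, b3, o3]), (by linarith only [hT, b1, b2, t4]), (by linarith only [hT, b1, t4]), (by linarith only [hT, b1, b2, b4])⟩ (by linarith only [hT])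

theorem g_3_3_5_6 (u1 u2 u3 u4 : ℝ) (a1 : 3 ≤ u1) (b1 : u1 ≤ 3 + 1) (a2 : 3 ≤ u2) (b2 : u2 ≤ 3 + 1) (a3 : 5 ≤ u3) (b3 : u3 ≤ 5 + 1) (a4 : 6 ≤ u4) (b4 : u4 ≤ 6 + 1) (o1 : u1 ≤ u2) (o2 : u2 ≤ u3) (o3 : u3 ≤ u4) : Good u1 u2 u3 u4 ∨ Good2 u1 u2 u3 u4 := by
  obtain ⟨T, hT⟩ : ∃ T, T = u1 + u2 + u3 + u4 := ⟨_, rfl⟩
  have e1 : H u1 = 4 - u1 := hk_3 a1 b1
  have e2 : H u2 = 4 - u2 := hk_3 a2 b2
  have e3 : H u3 = 1 := hk_5 a3 b3
  have e4 : H u4 = 1 := hk_6 a4 b4
  have kN : (3 : ℝ) + 3 + 5 + 6 = 17 := by norm_num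
  have t0 : 17 ≤ T := by linarith only [hT, a1, a2, a3, a4]
  have t4 : T ≤ 21 := by linarith only [hT, b1, b2, b3, b4]
  rcases le_total T 18 with x1 | x1
  · skip
    have hX : H (T / 4) = (T / 4) - 4 := hk_4 (by linarith only [t0]) (by linarith only [x1])
    have hS : H T = 1 := hk_17 t0 (by linarith only [x1])
    have hN : H (T - 17) = (T - 17) - 0 := hk_0 (by linarith only [t0]) (by linarith only [x1])
    exact good_T hT zk_3 zk_3 zk_5 zk_6 kN e1 e2 e3 e4 hX hS hN (R := 1) (spread_one a1 b1 a2 b2 a3 b3 a4 b4) (by linarith only [hT, a3, a4, o1, x1])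
  rcases le_total T 19 with x2 | x2
  · skip
    have hX : H (T / 4) = (T / 4) - 4 := hk_4 (by linarith only [x1]) (by linarith only [x2])
    have hS : H T = 1 := hk_18 x1 (by linarith only [x2])
    have hN : H (T - 17) = 1 := hk_1 (by linarith only [x1]) (by linarith only [x2])
    exact good_T hT zk_3 zk_3 zk_5 zk_6 kN e1 e2 e3 e4 hX hS hN (R := 1) (spread_one a1 b1 a2 b2 a3 b3 a4 b4) (by linarith only [hT, b1, b2, a4, x2])
  rcases le_total T 20 with x3 | x3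
  · skip
    have hX : H (T / 4) = (T / 4) - 4 := hk_4 (by linarith only [x2]) (by linarith only [x3])
    have hS : H T = 20 - T := hk_19 x2 (by linarith only [x3])
    have hN : H (T - 17) = 1 := hk_2 (by linarith only [x2]) (by linarith only [x3])
    exact good_T hT zk_3 zk_3 zk_5 zk_6 kN e1 e2 e3 e4 hX hS hN (R := 1) (spread_one a1 b1 a2 b2 a3 b3 a4 b4) (by linarith only [hT, b1, b2, a4])
  have hX : H (T / 4) = 1 := hk_5 (by linarith only [x3]) (by linarith only [t4])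
  have hS : H T = T - 20 := hk_20 x3 (by linarith only [t4])
  have hN : H (T - 17) = 4 - (T - 17) := hk_3 (by linarith only [x3]) (by linarith only [t4])
  exact good_T hT zk_3 zk_3 zk_5 zk_6 kN e1 e2 e3 e4 hX hS hN (R := ((-4) * u1 + (-3) * u2 + (-2) * u3 - u4 + 47)) ⟨(by linarith only [hT, b1, b2, b3, b4]), (by linarith only [hT, b1, b2, t4]), (by linarith only [hT, b1, b2, b3]), (by linarith only [hT, b1, b2, b3, b4]), (by linarith only [hT, b1, b2, t4]), (by linarith only [hT, b1, b2, b3]), (by linarith only [hT, b1, b2, b3, b4]), (by linarith only [hT, b1, b2, b3, b4]), (by linarith only [hT, b1, b2, b3]), (by linarith only [hT, b1, b2, t4]), (by linarith only [hT, b1, t4]), (by linarith only [hT, b1, b2, b3, b4])⟩ (by linarith only [hT])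

theorem g_3_3_5_7 (u1 u2 u3 u4 : ℝ) (a1 : 3 ≤ u1) (b1 : u1 ≤ 3 + 1) (a2 : 3 ≤ u2) (b2 : u2 ≤ 3 + 1) (a3 : 5 ≤ u3) (b3 : u3 ≤ 5 + 1) (a4 : 7 ≤ u4) (b4 : u4 ≤ 7 + 1) (o1 : u1 ≤ u2) (o2 : u2 ≤ u3) (o3 : u3 ≤ u4) : Good u1 u2 u3 u4 ∨ Good2 u1 u2 u3 u4 := by
  obtain ⟨T, hT⟩ : ∃ T, T = u1 + u2 + u3 + u4 := ⟨_, rfl⟩
  have e1 : H u1 = 4 - u1 := hk_3 a1 b1
  have e2 : H u2 = 4 - u2 := hk_3 a2 b2
  have e3 : H u3 = 1 := hk_5 a3 b3
  have e4 : H u4 = 8 - u4 := hk_7 a4 b4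
  have kN : (3 : ℝ) + 3 + 5 + 7 = 18 := by norm_num
  have t0 : 18 ≤ T := by linarith only [hT, a1, a2, a3, a4]
  have t4 : T ≤ 22 := by linarith only [hT, b1, b2, b3, b4]
  rcases le_total T 19 with x1 | x1
  · skip
    have hX : H (T / 4) = (T / 4) - 4 := hk_4 (by linarith only [t0]) (by linarith only [x1])
    have hS : H T = 1 := hk_18 t0 (by linarith only [x1])
    have hN : H (T - 18) = (T - 18) - 0 := hk_0 (by linarith only [t0]) (by linarith only [x1])
    exact good_T hT zk_3 zk_3 zk_5 zk_7 kN e1 e2 e3 e4 hX hS hN (R := 1) (spread_one a1 b1 a2 b2 a3 b3 a4 b4) (by linarith only [hT, a3, a4, o1, x1])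
  rcases le_total T 20 with x2 | x2
  · skip
    have hX : H (T / 4) = (T / 4) - 4 := hk_4 (by linarith only [x1]) (by linarith only [x2])
    have hS : H T = 20 - T := hk_19 x1 (by linarith only [x2])
    have hN : H (T - 18) = 1 := hk_1 (by linarith only [x1]) (by linarith only [x2])
    exact good_T hT zk_3 zk_3 zk_5 zk_7 kN e1 e2 e3 e4 hX hS hN (R := 1) (spread_one a1 b1 a2 b2 a3 b3 a4 b4) (by linarith only [hT, b1, b2])
  rcases le_total T 21 with x3 | x3
  · skip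
    have hX : H (T / 4) = 1 := hk_5 (by linarith only [x2]) (by linarith only [x3])
    have hS : H T = T - 20 := hk_20 x2 (by linarith only [x3])
    have hN : H (T - 18) = 1 := hk_2 (by linarith only [x2]) (by linarith only [x3])
    exact good_T hT zk_3 zk_3 zk_5 zk_7 kN e1 e2 e3 e4 hX hS hN (R := 1) (spread_one a1 b1 a2 b2 a3 b3 a4 b4) (by linarith only [hT, b1, b2, x3])
  have hX : H (T / 4) = 1 := hk_5 (by linarith only [x3]) (by linarith only [t4])
  have hS : H T = 1 := hk_21 x3 (by linarith only [t4])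
  have hN : H (T - 18) = 4 - (T - 18) := hk_3 (by linarith only [x3]) (by linarith only [t4])
  exact good_T hT zk_3 zk_3 zk_5 zk_7 kN e1 e2 e3 e4 hX hS hN (R := ((-3) * u1 + (-2) * u2 - u3 - u4 + 34)) ⟨(by linarith only [hT, b1, t4]), (by linarith only [hT, b1, b2, b4]), (by linarith only [hT, b1, b2, b3]), (by linarith only [hT, b1, b2, t4]), (by linarith only [hT, b1, b2, b4]), (by linarith only [hT, b1, b2, b3]), (by linarith only [hT, b1, b2, b3, b4]), (by linarith only [hT, b1, b3, t4]), (by linarith only [hT, b1, b2, b3]), (by linarith only [hT, b1, b2, b3, b4]), (by linarith only [hT, b1, b4, t4]), (by linarith only [hT, b1, b2, b4])⟩ (by linarith only [hT])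

theorem g_3_3_5_8 (u1 u2 u3 u4 : ℝ) (a1 : 3 ≤ u1) (b1 : u1 ≤ 3 + 1) (a2 : 3 ≤ u2) (b2 : u2 ≤ 3 + 1) (a3 : 5 ≤ u3) (b3 : u3 ≤ 5 + 1) (a4 : 8 ≤ u4) (b4 : u4 ≤ 8 + 1) (o1 : u1 ≤ u2) (o2 : u2 ≤ u3) (o3 : u3 ≤ u4) : Good u1 u2 u3 u4 ∨ Good2 u1 u2 u3 u4 := by
  obtain ⟨T, hT⟩ : ∃ T, T = u1 + u2 + u3 + u4 := ⟨_, rfl⟩
  have e1 : H u1 = 4 - u1 := hk_3 a1 b1
  have e2 : H u2 = 4 - u2 := hk_3 a2 b2
  have e3 : H u3 = 1 := hk_5 a3 b3
  have e4 : H u4 = u4 - 8 := hk_8 a4 b4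
  have kN : (3 : ℝ) + 3 + 5 + 8 = 19 := by norm_num
  have t0 : 19 ≤ T := by linarith only [hT, a1, a2, a3, a4]
  have t4 : T ≤ 23 := by linarith only [hT, b1, b2, b3, b4]
  rcases le_total T 20 with x1 | x1
  · skip
    have hX : H (T / 4) = (T / 4) - 4 := hk_4 (by linarith only [t0]) (by linarith only [x1])
    have hS : H T = 20 - T := hk_19 t0 (by linarith only [x1])
    have hN : H (T - 19) = (T - 19) - 0 := hk_0 (by linarith only [t0]) (by linarith only [x1])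
    exact good_T hT zk_3 zk_3 zk_5 zk_8 kN e1 e2 e3 e4 hX hS hN (R := 1) (spread_one a1 b1 a2 b2 a3 b3 a4 b4) (by linarith only [hT, a3, a4, o1, x1])
  rcases le_total T 21 with x2 | x2
  · skip
    have hX : H (T / 4) = 1 := hk_5 (by linarith only [x1]) (by linarith only [x2])
    have hS : H T = T - 20 := hk_20 x1 (by linarith only [x2])
    have hN : H (T - 19) = 1 := hk_1 (by linarith only [x1]) (by linarith only [x2])
    exact good_T hT zk_3 zk_3 zk_5 zk_8 kN e1 e2 e3 e4 hX hS hN (R := 1) (spread_one a1 b1 a2 b2 a3 b3 a4 b4) (by linarith only [hT, b1, b2, a4, x2])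
  rcases le_total T 22 with x3 | x3
  · skip
    have hX : H (T / 4) = 1 := hk_5 (by linarith only [x2]) (by linarith only [x3])
    have hS : H T = 1 := hk_21 x2 (by linarith only [x3])
    have hN : H (T - 19) = 1 := hk_2 (by linarith only [x2]) (by linarith only [x3])
    exact good_T hT zk_3 zk_3 zk_5 zk_8 kN e1 e2 e3 e4 hX hS hN (R := 1) (spread_one a1 b1 a2 b2 a3 b3 a4 b4) (by linarith only [hT, b1, b2, a4])
  have hX : H (T / 4) = 1 := hk_5 (by linarith only [x3]) (by linarith only [t4])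
  have hS : H T = 1 := hk_22 x3 (by linarith only [t4])
  have hN : H (T - 19) = 4 - (T - 19) := hk_3 (by linarith only [x3]) (by linarith only [t4])
  exact good_T hT zk_3 zk_3 zk_5 zk_8 kN e1 e2 e3 e4 hX hS hN (R := 1) (spread_one a1 b1 a2 b2 a3 b3 a4 b4) (by linarith only [hT, b1, b2, b3, a4])

theorem g_3_3_6_6 (u1 u2 u3 u4 : ℝ) (a1 : 3 ≤ u1) (b1 : u1 ≤ 3 + 1) (a2 : 3 ≤ u2) (b2 : u2 ≤ 3 + 1) (a3 : 6 ≤ u3) (b3 : u3 ≤ 6 + 1) (a4 : 6 ≤ u4) (b4 : u4 ≤ 6 + 1) (o1 : u1 ≤ u2) (o2 : u2 ≤ u3) (o3 : u3 ≤ u4) : Good u1 u2 u3 u4 ∨ Good2 u1 u2 u3 u4 := by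
  obtain ⟨T, hT⟩ : ∃ T, T = u1 + u2 + u3 + u4 := ⟨_, rfl⟩
  have e1 : H u1 = 4 - u1 := hk_3 a1 b1
  have e2 : H u2 = 4 - u2 := hk_3 a2 b2
  have e3 : H u3 = 1 := hk_6 a3 b3
  have e4 : H u4 = 1 := hk_6 a4 b4
  have kN : (3 : ℝ) + 3 + 6 + 6 = 18 := by norm_num
  have t0 : 18 ≤ T := by linarith only [hT, a1, a2, a3, a4]
  have t4 : T ≤ 22 := by linarith only [hT, b1, b2, b3, b4]
  rcases le_total T 19 with x1 | x1
  · skip
    have hX : H (T / 4) = (T / 4) - 4 := hk_4 (by linarith only [t0]) (by linarith only [x1])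
    have hS : H T = 1 := hk_18 t0 (by linarith only [x1])
    have hN : H (T - 18) = (T - 18) - 0 := hk_0 (by linarith only [t0]) (by linarith only [x1])
    exact good_T hT zk_3 zk_3 zk_6 zk_6 kN e1 e2 e3 e4 hX hS hN (R := 1) (spread_one a1 b1 a2 b2 a3 b3 a4 b4) (by linarith only [hT, a3, a4, o1, x1])
  rcases le_total T 20 with x2 | x2
  · skip
    have hX : H (T / 4) = (T / 4) - 4 := hk_4 (by linarith only [x1]) (by linarith only [x2])
    have hS : H T = 20 - T := hk_19 x1 (by linarith only [x2])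
    have hN : H (T - 18) = 1 := hk_1 (by linarith only [x1]) (by linarith only [x2])
    exact good_T hT zk_3 zk_3 zk_6 zk_6 kN e1 e2 e3 e4 hX hS hN (R := 1) (spread_one a1 b1 a2 b2 a3 b3 a4 b4) (by linarith only [hT, b1, b2, a4])
  rcases le_total T 21 with x3 | x3
  · skip
    have hX : H (T / 4) = 1 := hk_5 (by linarith only [x2]) (by linarith only [x3])
    have hS : H T = T - 20 := hk_20 x2 (by linarith only [x3])
    have hN : H (T - 18) = 1 := hk_2 (by linarith only [x2]) (by linarith only [x3])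
    exact good_T hT zk_3 zk_3 zk_6 zk_6 kN e1 e2 e3 e4 hX hS hN (R := ((-3) * u1 + (-2) * u2 - u3 + 27)) ⟨(by linarith only [hT, b1, b2, o3, x3]), (by linarith only [hT, b1, b2]), (by linarith only [hT, b1, b2, o3]), (by linarith only [hT, b1, b2, o3, x3]), (by linarith only [hT, b1, b2]), (by linarith only [hT, b1, b2, o3]), (by linarith only [hT, b1, b2, o3, x3]), (by linarith only [hT, b1, o3, x3]), (by linarith only [hT, b1, b2, o3, x3]), (by linarith only [hT, b1, b2, x3]), (by linarith only [hT, b1, x3]), (by linarith only [hT, b1, b2, b4])⟩ (by linarith only [hT])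
  have hX : H (T / 4) = 1 := hk_5 (by linarith only [x3]) (by linarith only [t4])
  have hS : H T = 1 := hk_21 x3 (by linarith only [t4])
  have hN : H (T - 18) = 4 - (T - 18) := hk_3 (by linarith only [x3]) (by linarith only [t4])
  exact good_T hT zk_3 zk_3 zk_6 zk_6 kN e1 e2 e3 e4 hX hS hN (R := ((-3) * u1 + (-2) * u2 - u3 + 27)) ⟨(by linarith only [hT, b1, b2, b3]), (by linarith only [hT, b1, b2]), (by linarith only [hT, b1, b2, o3]), (by linarith only [hT, b1, b2, b3]), (by linarith only [hT, b1, b2]), (by linarith only [hT, b1, b2, o3]), (by linarith only [hT, b1, b2, b3]), (by linarith only [hT, b1, b2, b3]), (by linarith only [hT, b1, b2, b3, o3]), (by linarith only [hT, b1, b2, t4]), (by linarith only [hT, b1, t4]), (by linarith only [hT, b1, b2, b4])⟩ (by linarith only [hT])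

theorem g_3_3_6_7 (u1 u2 u3 u4 : ℝ) (a1 : 3 ≤ u1) (b1 : u1 ≤ 3 + 1) (a2 : 3 ≤ u2) (b2 : u2 ≤ 3 + 1) (a3 : 6 ≤ u3) (b3 : u3 ≤ 6 + 1) (a4 : 7 ≤ u4) (b4 : u4 ≤ 7 + 1) (o1 : u1 ≤ u2) (o2 : u2 ≤ u3) (o3 : u3 ≤ u4) : Good u1 u2 u3 u4 ∨ Good2 u1 u2 u3 u4 := by
  obtain ⟨T, hT⟩ : ∃ T, T = u1 + u2 + u3 + u4 := ⟨_, rfl⟩
  have e1 : H u1 = 4 - u1 := hk_3 a1 b1
  have e2 : H u2 = 4 - u2 := hk_3 a2 b2
  have e3 : H u3 = 1 := hk_6 a3 b3
  have e4 : H u4 = 8 - u4 := hk_7 a4 b4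
  have kN : (3 : ℝ) + 3 + 6 + 7 = 19 := by norm_num
  have t0 : 19 ≤ T := by linarith only [hT, a1, a2, a3, a4]
  have t4 : T ≤ 23 := by linarith only [hT, b1, b2, b3, b4]
  rcases le_total T 20 with x1 | x1
  · skip
    have hX : H (T / 4) = (T / 4) - 4 := hk_4 (by linarith only [t0]) (by linarith only [x1])
    have hS : H T = 20 - T := hk_19 t0 (by linarith only [x1])
    have hN : H (T - 19) = (T - 19) - 0 := hk_0 (by linarith only [t0]) (by linarith only [x1])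
    exact good_T hT zk_3 zk_3 zk_6 zk_7 kN e1 e2 e3 e4 hX hS hN (R := 1) (spread_one a1 b1 a2 b2 a3 b3 a4 b4) (by linarith only [hT, a3, a4, o1, x1])
  rcases le_total T 21 with x2 | x2
  · skip
    have hX : H (T / 4) = 1 := hk_5 (by linarith only [x1]) (by linarith only [x2])
    have hS : H T = T - 20 := hk_20 x1 (by linarith only [x2])
    have hN : H (T - 19) = 1 := hk_1 (by linarith only [x1]) (by linarith only [x2])
    exact good_T hT zk_3 zk_3 zk_6 zk_7 kN e1 e2 e3 e4 hX hS hN (R := 1) (spread_one a1 b1 a2 b2 a3 b3 a4 b4) (by linarith only [hT, b1, b2, x2])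
  rcases le_total T 22 with x3 | x3
  · skip
    have hX : H (T / 4) = 1 := hk_5 (by linarith only [x2]) (by linarith only [x3])
    have hS : H T = 1 := hk_21 x2 (by linarith only [x3])
    have hN : H (T - 19) = 1 := hk_2 (by linarith only [x2]) (by linarith only [x3])
    exact good_T hT zk_3 zk_3 zk_6 zk_7 kN e1 e2 e3 e4 hX hS hN (R := 1) (spread_one a1 b1 a2 b2 a3 b3 a4 b4) (by linarith only [hT, b1, b2])
  have hX : H (T / 4) = 1 := hk_5 (by linarith only [x3]) (by linarith only [t4])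
  have hS : H T = 1 := hk_22 x3 (by linarith only [t4])
  have hN : H (T - 19) = 4 - (T - 19) := hk_3 (by linarith only [x3]) (by linarith only [t4])
  exact good_T hT zk_3 zk_3 zk_6 zk_7 kN e1 e2 e3 e4 hX hS hN (R := ((-3) * u1 + (-2) * u2 - u3 - u4 + 35)) ⟨(by linarith only [hT, b1, t4]), (by linarith only [hT, b1, b2, b4]), (by linarith only [hT, b1, b2, b3]), (by linarith only [hT, b1, b2, t4]), (by linarith only [hT, b1, b2, b4]), (by linarith only [hT, b1, b2, b3]), (by linarith only [hT, b1, b2, b3, b4]), (by linarith only [hT, b1, b3, t4]), (by linarith only [hT, b1, b2, b3]), (by linarith only [hT, b1, b2, b3, b4]), (by linarith only [hT, b1, b4, t4]), (by linarith only [hT, b1, b2, b4])⟩ (by linarith only [hT])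

theorem g_3_3_6_8 (u1 u2 u3 u4 : ℝ) (a1 : 3 ≤ u1) (b1 : u1 ≤ 3 + 1) (a2 : 3 ≤ u2) (b2 : u2 ≤ 3 + 1) (a3 : 6 ≤ u3) (b3 : u3 ≤ 6 + 1) (a4 : 8 ≤ u4) (b4 : u4 ≤ 8 + 1) (o1 : u1 ≤ u2) (o2 : u2 ≤ u3) (o3 : u3 ≤ u4) : Good u1 u2 u3 u4 ∨ Good2 u1 u2 u3 u4 := by
  obtain ⟨T, hT⟩ : ∃ T, T = u1 + u2 + u3 + u4 := ⟨_, rfl⟩
  have e1 : H u1 = 4 - u1 := hk_3 a1 b1
  have e2 : H u2 = 4 - u2 := hk_3 a2 b2
  have e3 : H u3 = 1 := hk_6 a3 b3
  have e4 : H u4 = u4 - 8 := hk_8 a4 b4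
  have kN : (3 : ℝ) + 3 + 6 + 8 = 20 := by norm_num
  have t0 : 20 ≤ T := by linarith only [hT, a1, a2, a3, a4]
  have t4 : T ≤ 24 := by linarith only [hT, b1, b2, b3, b4]
  rcases le_total T 21 with x1 | x1
  · skip
    have hX : H (T / 4) = 1 := hk_5 (by linarith only [t0]) (by linarith only [x1])
    have hS : H T = T - 20 := hk_20 t0 (by linarith only [x1])
    have hN : H (T - 20) = (T - 20) - 0 := hk_0 (by linarith only [t0]) (by linarith only [x1])
    exact good_T hT zk_3 zk_3 zk_6 zk_8 kN e1 e2 e3 e4 hX hS hN (R := 1) (spread_one a1 b1 a2 b2 a3 b3 a4 b4) (by linarith only [hT, a3, a4, o1, x1])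
  rcases le_total T 22 with x2 | x2
  · skip
    have hX : H (T / 4) = 1 := hk_5 (by linarith only [x1]) (by linarith only [x2])
    have hS : H T = 1 := hk_21 x1 (by linarith only [x2])
    have hN : H (T - 20) = 1 := hk_1 (by linarith only [x1]) (by linarith only [x2])
    exact good_T hT zk_3 zk_3 zk_6 zk_8 kN e1 e2 e3 e4 hX hS hN (R := 1) (spread_one a1 b1 a2 b2 a3 b3 a4 b4) (by linarith only [hT, b1, b2, a4])
  rcases le_total T 23 with x3 | x3
  · skip
    have hX : H (T / 4) = 1 := hk_5 (by linarith only [x2]) (by linarith only [x3])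
    have hS : H T = 1 := hk_22 x2 (by linarith only [x3])
    have hN : H (T - 20) = 1 := hk_2 (by linarith only [x2]) (by linarith only [x3])
    exact good_T hT zk_3 zk_3 zk_6 zk_8 kN e1 e2 e3 e4 hX hS hN (R := 1) (spread_one a1 b1 a2 b2 a3 b3 a4 b4) (by linarith only [hT, b1, b2, a4])
  have hX : H (T / 4) = 1 := hk_5 (by linarith only [x3]) (by linarith only [t4])
  have hS : H T = 24 - T := hk_23 x3 (by linarith only [t4])
  have hN : H (T - 20) = 4 - (T - 20) := hk_3 (by linarith only [x3]) (by linarith only [t4])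
  exact good_T hT zk_3 zk_3 zk_6 zk_8 kN e1 e2 e3 e4 hX hS hN (R := 1) (spread_one a1 b1 a2 b2 a3 b3 a4 b4) (by linarith only [hT, b1, b2, a4])

theorem g_3_3_7_7 (u1 u2 u3 u4 : ℝ) (a1 : 3 ≤ u1) (b1 : u1 ≤ 3 + 1) (a2 : 3 ≤ u2) (b2 : u2 ≤ 3 + 1) (a3 : 7 ≤ u3) (b3 : u3 ≤ 7 + 1) (a4 : 7 ≤ u4) (b4 : u4 ≤ 7 + 1) (o1 : u1 ≤ u2) (o2 : u2 ≤ u3) (o3 : u3 ≤ u4) : Good u1 u2 u3 u4 ∨ Good2 u1 u2 u3 u4 := by
  obtain ⟨T, hT⟩ : ∃ T, T = u1 + u2 + u3 + u4 := ⟨_, rfl⟩
  have e1 : H u1 = 4 - u1 := hk_3 a1 b1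
  have e2 : H u2 = 4 - u2 := hk_3 a2 b2
  have e3 : H u3 = 8 - u3 := hk_7 a3 b3
  have e4 : H u4 = 8 - u4 := hk_7 a4 b4
  have kN : (3 : ℝ) + 3 + 7 + 7 = 20 := by norm_num
  have t0 : 20 ≤ T := by linarith only [hT, a1, a2, a3, a4]
  have t4 : T ≤ 24 := by linarith only [hT, b1, b2, b3, b4]
  rcases le_total T 21 with x1 | x1
  · skip
    have hX : H (T / 4) = 1 := hk_5 (by linarith only [t0]) (by linarith only [x1])
    have hS : H T = T - 20 := hk_20 t0 (by linarith only [x1])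
    have hN : H (T - 20) = (T - 20) - 0 := hk_0 (by linarith only [t0]) (by linarith only [x1])
    exact good_T hT zk_3 zk_3 zk_7 zk_7 kN e1 e2 e3 e4 hX hS hN (R := 1) (spread_one a1 b1 a2 b2 a3 b3 a4 b4) (by linarith only [hT, a3, a4, o1, x1])
  rcases le_total T 22 with x2 | x2
  · skip
    have hX : H (T / 4) = 1 := hk_5 (by linarith only [x1]) (by linarith only [x2])
    have hS : H T = 1 := hk_21 x1 (by linarith only [x2])
    have hN : H (T - 20) = 1 := hk_1 (by linarith only [x1]) (by linarith only [x2])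
    exact good_T hT zk_3 zk_3 zk_7 zk_7 kN e1 e2 e3 e4 hX hS hN (R := 1) (spread_one a1 b1 a2 b2 a3 b3 a4 b4) (by linarith only [hT, b1, a4, x2])
  rcases le_total T 23 with x3 | x3
  · skip
    have hX : H (T / 4) = 1 := hk_5 (by linarith only [x2]) (by linarith only [x3])
    have hS : H T = 1 := hk_22 x2 (by linarith only [x3])
    have hN : H (T - 20) = 1 := hk_2 (by linarith only [x2]) (by linarith only [x3])
    exact good_T hT zk_3 zk_3 zk_7 zk_7 kN e1 e2 e3 e4 hX hS hN (R := ((-2) * u1 - u2 - u3 + 20)) ⟨(by linarith only [hT, b1, o1, o3, x3]), (by linarith only [hT, b1, b2]), (by linarith only [hT, b1, b2, o3]), (by linarith only [hT, b1, b2, o3, x3]), (by linarith only [hT, b1, b2]), (by linarith only [hT, b1, b2, o3]), (by linarith only [hT, o3, x3]), (by linarith only [hT, o1, o3, x3]), (by linarith only [hT, b1, b2, o3, x3]), (by linarith only [hT, x3]), (by linarith only [hT, o1, x3]), (by linarith only [hT,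 b1, b2, b4])⟩ (by linarith only [hT])
  have hX : H (T / 4) = 1 := hk_5 (by linarith only [x3]) (by linarith only [t4])
  have hS : H T = 24 - T := hk_23 x3 (by linarith only [t4])
  have hN : H (T - 20) = 4 - (T - 20) := hk_3 (by linarith only [x3]) (by linarith only [t4])
  exact good_T hT zk_3 zk_3 zk_7 zk_7 kN e1 e2 e3 e4 hX hS hN (R := ((-2) * u1 - u2 - u3 + 20)) ⟨(by linarith only [hT, b1, b3]), (by linarith only [hT, b1, b2]), (by linarith only [hT, b1, b2, o3]), (by linarith only [hT, b1, b2, b3]), (by linarith only [hT, b1, b2]), (by linarith only [hT, b1, b2, o3]), (by linarith only [hT, o3, t4]), (by linarith only [hT, b1, b3]), (by linarith only [hT, b1, b2, b3, o3]), (by linarith only [hT, t4]), (by linarith only [hT, o1, t4]), (by linarith only [hT, b1, b2, b4])⟩ (by linarith only [hT])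

theorem g_3_3_7_8 (u1 u2 u3 u4 : ℝ) (a1 : 3 ≤ u1) (b1 : u1 ≤ 3 + 1) (a2 : 3 ≤ u2) (b2 : u2 ≤ 3 + 1) (a3 : 7 ≤ u3) (b3 : u3 ≤ 7 + 1) (a4 : 8 ≤ u4) (b4 : u4 ≤ 8 + 1) (o1 : u1 ≤ u2) (o2 : u2 ≤ u3) (o3 : u3 ≤ u4) : Good u1 u2 u3 u4 ∨ Good2 u1 u2 u3 u4 := by
  obtain ⟨T, hT⟩ : ∃ T, T = u1 + u2 + u3 + u4 := ⟨_, rfl⟩
  have e1 : H u1 = 4 - u1 := hk_3 a1 b1
  have e2 : H u2 = 4 - u2 := hk_3 a2 b2
  have e3 : H u3 = 8 - u3 := hk_7 a3 b3
  have e4 : H u4 = u4 - 8 := hk_8 a4 b4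
  have kN : (3 : ℝ) + 3 + 7 + 8 = 21 := by norm_num
  have t0 : 21 ≤ T := by linarith only [hT, a1, a2, a3, a4]
  have t4 : T ≤ 25 := by linarith only [hT, b1, b2, b3, b4]
  rcases le_total T 22 with x1 | x1
  · skip
    have hX : H (T / 4) = 1 := hk_5 (by linarith only [t0]) (by linarith only [x1])
    have hS : H T = 1 := hk_21 t0 (by linarith only [x1])
    have hN : H (T - 21) = (T - 21) - 0 := hk_0 (by linarith only [t0]) (by linarith only [x1])
    exact good_T hT zk_3 zk_3 zk_7 zk_8 kN e1 e2 e3 e4 hX hS hN (R := 1) (spread_one a1 b1 a2 b2 a3 b3 a4 b4) (by linarith only [hT, a3, a4, o1, x1])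
  rcases le_total T 23 with x2 | x2
  · skip
    have hX : H (T / 4) = 1 := hk_5 (by linarith only [x1]) (by linarith only [x2])
    have hS : H T = 1 := hk_22 x1 (by linarith only [x2])
    have hN : H (T - 21) = 1 := hk_1 (by linarith only [x1]) (by linarith only [x2])
    exact good_T hT zk_3 zk_3 zk_7 zk_8 kN e1 e2 e3 e4 hX hS hN (R := 1) (spread_one a1 b1 a2 b2 a3 b3 a4 b4) (by linarith only [hT, b1, a4, x2])
  rcases le_total T 24 with x3 | x3
  · skip
    have hX : H (T / 4) = 1 := hk_5 (by linarith only [x2]) (by linarith only [x3])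
    have hS : H T = 24 - T := hk_23 x2 (by linarith only [x3])
    have hN : H (T - 21) = 1 := hk_2 (by linarith only [x2]) (by linarith only [x3])
    exact good_T hT zk_3 zk_3 zk_7 zk_8 kN e1 e2 e3 e4 hX hS hN (R := 1) (spread_one a1 b1 a2 b2 a3 b3 a4 b4) (by linarith only [hT, b1, a4])
  have hX : H (T / 4) = 1 := hk_6 (by linarith only [x3]) (by linarith only [t4])
  have hS : H T = T - 24 := hk_24 x3 (by linarith only [t4])
  have hN : H (T - 21) = 4 - (T - 21) := hk_3 (by linarith only [x3]) (by linarith only [t4])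
  exact good_T hT zk_3 zk_3 zk_7 zk_8 kN e1 e2 e3 e4 hX hS hN (R := 1) (spread_one a1 b1 a2 b2 a3 b3 a4 b4) (by linarith only [hT, b1, b2, b3])

theorem g_3_3_8_8 (u1 u2 u3 u4 : ℝ) (a1 : 3 ≤ u1) (b1 : u1 ≤ 3 + 1) (a2 : 3 ≤ u2) (b2 : u2 ≤ 3 + 1) (a3 : 8 ≤ u3) (b3 : u3 ≤ 8 + 1) (a4 : 8 ≤ u4) (b4 : u4 ≤ 8 + 1) (o1 : u1 ≤ u2) (o2 : u2 ≤ u3) (o3 : u3 ≤ u4) : Good u1 u2 u3 u4 ∨ Good2 u1 u2 u3 u4 := by
  obtain ⟨T, hT⟩ : ∃ T, T = u1 + u2 + u3 + u4 := ⟨_, rfl⟩
  have e1 : H u1 = 4 - u1 := hk_3 a1 b1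
  have e2 : H u2 = 4 - u2 := hk_3 a2 b2
  have e3 : H u3 = u3 - 8 := hk_8 a3 b3
  have e4 : H u4 = u4 - 8 := hk_8 a4 b4
  have kN : (3 : ℝ) + 3 + 8 + 8 = 22 := by norm_num
  have t0 : 22 ≤ T := by linarith only [hT, a1, a2, a3, a4]
  have t4 : T ≤ 26 := by linarith only [hT, b1, b2, b3, b4]
  rcases le_total T 23 with x1 | x1
  · skip
    have hX : H (T / 4) = 1 := hk_5 (by linarith only [t0]) (by linarith only [x1])
    have hS : H T = 1 := hk_22 t0 (by linarith only [x1])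
    have hN : H (T - 22) = (T - 22) - 0 := hk_0 (by linarith only [t0]) (by linarith only [x1])
    exact good_T hT zk_3 zk_3 zk_8 zk_8 kN e1 e2 e3 e4 hX hS hN (R := 1) (spread_one a1 b1 a2 b2 a3 b3 a4 b4) (by linarith only [hT, a3, a4, o1, x1])
  rcases le_total T 24 with x2 | x2
  · skip
    have hX : H (T / 4) = 1 := hk_5 (by linarith only [x1]) (by linarith only [x2])
    have hS : H T = 24 - T := hk_23 x1 (by linarith only [x2])
    have hN : H (T - 22) = 1 := hk_1 (by linarith only [x1]) (by linarith only [x2])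
    exact good_T hT zk_3 zk_3 zk_8 zk_8 kN e1 e2 e3 e4 hX hS hN (R := 1) (spread_one a1 b1 a2 b2 a3 b3 a4 b4) (by linarith only [hT, b1, a3, a4])
  rcases le_total T 25 with x3 | x3
  · skip
    have hX : H (T / 4) = 1 := hk_6 (by linarith only [x2]) (by linarith only [x3])
    have hS : H T = T - 24 := hk_24 x2 (by linarith only [x3])
    have hN : H (T - 22) = 1 := hk_2 (by linarith only [x2]) (by linarith only [x3])
    exact good_T hT zk_3 zk_3 zk_8 zk_8 kN e1 e2 e3 e4 hX hS hN (R := 1) (spread_one a1 b1 a2 b2 a3 b3 a4 b4) (by linarith only [hT, b1, b2, a4])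
  have hX : H (T / 4) = 1 := hk_6 (by linarith only [x3]) (by linarith only [t4])
  have hS : H T = 1 := hk_25 x3 (by linarith only [t4])
  have hN : H (T - 22) = 4 - (T - 22) := hk_3 (by linarith only [x3]) (by linarith only [t4])
  exact good_T hT zk_3 zk_3 zk_8 zk_8 kN e1 e2 e3 e4 hX hS hN (R := 1) (spread_one a1 b1 a2 b2 a3 b3 a4 b4) (by linarith only [hT, b1, b2, o3, x3])

end Pool.Agent.W401.WC
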