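import Pool.Agent.W401.WC.Hk
set_option autoImplicit false
set_option linter.all false
namespace Pool.Agent.W401.WC

theorem g_0_0_0_5 (u1 u2 u3 u4 : ℝ) (a1 : 0 ≤ u1) (b1 : u1 ≤ 0 + 1) (a2 : 0 ≤ u2) (b2 : u2 ≤ 0 + 1) (a3 : 0 ≤ u3) (b3 : u3 ≤ 0 + 1) (a4 : 5 ≤ u4) (b4 : u4 ≤ 5 + 1) (o1 : u1 ≤ u2) (o2 : u2 ≤ u3) (o3 : u3 ≤ u4) : Good u1 u2 u3 u4 ∨ Good2 u1 u2 u3 u4 :=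
  good_crude zk_0 zk_0 zk_0 zk_5 (hk_0 a1 b1) (hk_0 a2 b2) (hk_0 a3 b3) (hk_5 a4 b4) (spread_one a1 b1 a2 b2 a3 b3 a4 b4) (by linarith only [a2, a3, a4])

theorem g_0_0_0_6 (u1 u2 u3 u4 : ℝ) (a1 : 0 ≤ u1) (b1 : u1 ≤ 0 + 1) (a2 : 0 ≤ u2) (b2 : u2 ≤ 0 + 1) (a3 : 0 ≤ u3) (b3 : u3 ≤ 0 + 1) (a4 : 6 ≤ u4) (b4 : u4 ≤ 6 + 1) (o1 : u1 ≤ u2) (o2 : u2 ≤ u3) (o3 : u3 ≤ u4) : Good u1 u2 u3 u4 ∨ Good2 u1 u2 u3 u4 :=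
  good_crude zk_0 zk_0 zk_0 zk_6 (hk_0 a1 b1) (hk_0 a2 b2) (hk_0 a3 b3) (hk_6 a4 b4) (spread_one a1 b1 a2 b2 a3 b3 a4 b4) (by linarith only [a2, a3, a4])

theorem g_0_0_1_5 (u1 u2 u3 u4 : ℝ) (a1 : 0 ≤ u1) (b1 : u1 ≤ 0 + 1) (a2 : 0 ≤ u2) (b2 : u2 ≤ 0 + 1) (a3 : 1 ≤ u3) (b3 : u3 ≤ 1 + 1) (a4 : 5 ≤ u4) (b4 : u4 ≤ 5 + 1) (o1 : u1 ≤ u2) (o2 : u2 ≤ u3) (o3 : u3 ≤ u4) : Good u1 u2 u3 u4 ∨ Good2 u1 u2 u3 u4 :=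
  good_crude zk_0 zk_0 zk_1 zk_5 (hk_0 a1 b1) (hk_0 a2 b2) (hk_1 a3 b3) (hk_5 a4 b4) (spread_one a1 b1 a2 b2 a3 b3 a4 b4) (by linarith only [a2, a4])

theorem g_0_0_1_6 (u1 u2 u3 u4 : ℝ) (a1 : 0 ≤ u1) (b1 : u1 ≤ 0 + 1) (a2 : 0 ≤ u2) (b2 : u2 ≤ 0 + 1) (a3 : 1 ≤ u3) (b3 : u3 ≤ 1 + 1) (a4 : 6 ≤ u4) (b4 : u4 ≤ 6 + 1) (o1 : u1 ≤ u2) (o2 : u2 ≤ u3) (o3 : u3 ≤ u4) : Good u1 u2 u3 u4 ∨ Good2 u1 u2 u3 u4 :=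
  good_crude zk_0 zk_0 zk_1 zk_6 (hk_0 a1 b1) (hk_0 a2 b2) (hk_1 a3 b3) (hk_6 a4 b4) (spread_one a1 b1 a2 b2 a3 b3 a4 b4) (by linarith only [a2, a4])

theorem g_0_0_2_5 (u1 u2 u3 u4 : ℝ) (a1 : 0 ≤ u1) (b1 : u1 ≤ 0 + 1) (a2 : 0 ≤ u2) (b2 : u2 ≤ 0 + 1) (a3 : 2 ≤ u3) (b3 : u3 ≤ 2 + 1) (a4 : 5 ≤ u4) (b4 : u4 ≤ 5 + 1) (o1 : u1 ≤ u2) (o2 : u2 ≤ u3) (o3 : u3 ≤ u4) : Good u1 u2 u3 u4 ∨ Good2 u1 u2 u3 u4 :=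
  good_crude zk_0 zk_0 zk_2 zk_5 (hk_0 a1 b1) (hk_0 a2 b2) (hk_2 a3 b3) (hk_5 a4 b4) (spread_one a1 b1 a2 b2 a3 b3 a4 b4) (by linarith only [a2, a4])

theorem g_0_0_2_6 (u1 u2 u3 u4 : ℝ) (a1 : 0 ≤ u1) (b1 : u1 ≤ 0 + 1) (a2 : 0 ≤ u2) (b2 : u2 ≤ 0 + 1) (a3 : 2 ≤ u3) (b3 : u3 ≤ 2 + 1) (a4 : 6 ≤ u4) (b4 : u4 ≤ 6 + 1) (o1 : u1 ≤ u2) (o2 : u2 ≤ u3) (o3 : u3 ≤ u4) : Good u1 u2 u3 u4 ∨ Good2 u1 u2 u3 u4 :=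
  good_crude zk_0 zk_0 zk_2 zk_6 (hk_0 a1 b1) (hk_0 a2 b2) (hk_2 a3 b3) (hk_6 a4 b4) (spread_one a1 b1 a2 b2 a3 b3 a4 b4) (by linarith only [a2, a4])

theorem g_0_0_3_5 (u1 u2 u3 u4 : ℝ) (a1 : 0 ≤ u1) (b1 : u1 ≤ 0 + 1) (a2 : 0 ≤ u2) (b2 : u2 ≤ 0 + 1) (a3 : 3 ≤ u3) (b3 : u3 ≤ 3 + 1) (a4 : 5 ≤ u4) (b4 : u4 ≤ 5 + 1) (o1 : u1 ≤ u2) (o2 : u2 ≤ u3) (o3 : u3 ≤ u4) : Good u1 u2 u3 u4 ∨ Good2 u1 u2 u3 u4 :=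
  good_crude zk_0 zk_0 zk_3 zk_5 (hk_0 a1 b1) (hk_0 a2 b2) (hk_3 a3 b3) (hk_5 a4 b4) (spread_one a1 b1 a2 b2 a3 b3 a4 b4) (by linarith only [a2, b3, a4])

theorem g_0_0_3_6 (u1 u2 u3 u4 : ℝ) (a1 : 0 ≤ u1) (b1 : u1 ≤ 0 + 1) (a2 : 0 ≤ u2) (b2 : u2 ≤ 0 + 1) (a3 : 3 ≤ u3) (b3 : u3 ≤ 3 + 1) (a4 : 6 ≤ u4) (b4 : u4 ≤ 6 + 1) (o1 : u1 ≤ u2) (o2 : u2 ≤ u3) (o3 : u3 ≤ u4) : Good u1 u2 u3 u4 ∨ Good2 u1 u2 u3 u4 :=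
  good_crude zk_0 zk_0 zk_3 zk_6 (hk_0 a1 b1) (hk_0 a2 b2) (hk_3 a3 b3) (hk_6 a4 b4) (spread_one a1 b1 a2 b2 a3 b3 a4 b4) (by linarith only [a2, b3, a4])

theorem g_0_0_4_5 (u1 u2 u3 u4 : ℝ) (a1 : 0 ≤ u1) (b1 : u1 ≤ 0 + 1) (a2 : 0 ≤ u2) (b2 : u2 ≤ 0 + 1) (a3 : 4 ≤ u3) (b3 : u3 ≤ 4 + 1) (a4 : 5 ≤ u4) (b4 : u4 ≤ 5 + 1) (o1 : u1 ≤ u2) (o2 : u2 ≤ u3) (o3 : u3 ≤ u4) : Good u1 u2 u3 u4 ∨ Good2 u1 u2 u3 u4 :=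
  good_crude zk_0 zk_0 zk_4 zk_5 (hk_0 a1 b1) (hk_0 a2 b2) (hk_4 a3 b3) (hk_5 a4 b4) (spread_one a1 b1 a2 b2 a3 b3 a4 b4) (by linarith only [a2, a3, a4])

theorem g_0_0_4_6 (u1 u2 u3 u4 : ℝ) (a1 : 0 ≤ u1) (b1 : u1 ≤ 0 + 1) (a2 : 0 ≤ u2) (b2 : u2 ≤ 0 + 1) (a3 : 4 ≤ u3) (b3 : u3 ≤ 4 + 1) (a4 : 6 ≤ u4) (b4 : u4 ≤ 6 + 1) (o1 : u1 ≤ u2) (o2 : u2 ≤ u3) (o3 : u3 ≤ u4) : Good u1 u2 u3 u4 ∨ Good2 u1 u2 u3 u4 :=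
  good_crude zk_0 zk_0 zk_4 zk_6 (hk_0 a1 b1) (hk_0 a2 b2) (hk_4 a3 b3) (hk_6 a4 b4) (spread_one a1 b1 a2 b2 a3 b3 a4 b4) (by linarith only [a2, a3, a4])

theorem g_0_0_5_5 (u1 u2 u3 u4 : ℝ) (a1 : 0 ≤ u1) (b1 : u1 ≤ 0 + 1) (a2 : 0 ≤ u2) (b2 : u2 ≤ 0 + 1) (a3 : 5 ≤ u3) (b3 : u3 ≤ 5 + 1) (a4 : 5 ≤ u4) (b4 : u4 ≤ 5 + 1) (o1 : u1 ≤ u2) (o2 : u2 ≤ u3) (o3 : u3 ≤ u4) : Good u1 u2 u3 u4 ∨ Good2 u1 u2 u3 u4 :=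
  good_crude zk_0 zk_0 zk_5 zk_5 (hk_0 a1 b1) (hk_0 a2 b2) (hk_5 a3 b3) (hk_5 a4 b4) (spread_one a1 b1 a2 b2 a3 b3 a4 b4) (by linarith only [a2, a4])

theorem g_0_0_5_6 (u1 u2 u3 u4 : ℝ) (a1 : 0 ≤ u1) (b1 : u1 ≤ 0 + 1) (a2 : 0 ≤ u2) (b2 : u2 ≤ 0 + 1) (a3 : 5 ≤ u3) (b3 : u3 ≤ 5 + 1) (a4 : 6 ≤ u4) (b4 : u4 ≤ 6 + 1) (o1 : u1 ≤ u2) (o2 : u2 ≤ u3) (o3 : u3 ≤ u4) : Good u1 u2 u3 u4 ∨ Good2 u1 u2 u3 u4 :=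
  good_crude zk_0 zk_0 zk_5 zk_6 (hk_0 a1 b1) (hk_0 a2 b2) (hk_5 a3 b3) (hk_6 a4 b4) (spread_one a1 b1 a2 b2 a3 b3 a4 b4) (by linarith only [a2, a4])

theorem g_0_0_6_6 (u1 u2 u3 u4 : ℝ) (a1 : 0 ≤ u1) (b1 : u1 ≤ 0 + 1) (a2 : 0 ≤ u2) (b2 : u2 ≤ 0 + 1) (a3 : 6 ≤ u3) (b3 : u3 ≤ 6 + 1) (a4 : 6 ≤ u4) (b4 : u4 ≤ 6 + 1) (o1 : u1 ≤ u2) (o2 : u2 ≤ u3) (o3 : u3 ≤ u4) : Good u1 u2 u3 u4 ∨ Good2 u1 u2 u3 u4 :=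
  good_crude zk_0 zk_0 zk_6 zk_6 (hk_0 a1 b1) (hk_0 a2 b2) (hk_6 a3 b3) (hk_6 a4 b4) (spread_one a1 b1 a2 b2 a3 b3 a4 b4) (by linarith only [a2, a4])

theorem g_0_1_1_3 (u1 u2 u3 u4 : ℝ) (a1 : 0 ≤ u1) (b1 : u1 ≤ 0 + 1) (a2 : 1 ≤ u2) (b2 : u2 ≤ 1 + 1) (a3 : 1 ≤ u3) (b3 : u3 ≤ 1 + 1) (a4 : 3 ≤ u4) (b4 : u4 ≤ 3 + 1) (o1 : u1 ≤ u2) (o2 : u2 ≤ u3) (o3 : u3 ≤ u4) : Good u1 u2 u3 u4 ∨ Good2 u1 u2 u3 u4 :=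
  good_crude zk_0 zk_1 zk_1 zk_3 (hk_0 a1 b1) (hk_1 a2 b2) (hk_1 a3 b3) (hk_3 a4 b4) (spread_one a1 b1 a2 b2 a3 b3 a4 b4) (by linarith only [a1, b1])

theorem g_0_1_1_4 (u1 u2 u3 u4 : ℝ) (a1 : 0 ≤ u1) (b1 : u1 ≤ 0 + 1) (a2 : 1 ≤ u2) (b2 : u2 ≤ 1 + 1) (a3 : 1 ≤ u3) (b3 : u3 ≤ 1 + 1) (a4 : 4 ≤ u4) (b4 : u4 ≤ 4 + 1) (o1 : u1 ≤ u2) (o2 : u2 ≤ u3) (o3 : u3 ≤ u4) : Good u1 u2 u3 u4 ∨ Good2 u1 u2 u3 u4 :=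
  good_crude zk_0 zk_1 zk_1 zk_4 (hk_0 a1 b1) (hk_1 a2 b2) (hk_1 a3 b3) (hk_4 a4 b4) (spread_one a1 b1 a2 b2 a3 b3 a4 b4) (by linarith only [a4])

theorem g_0_1_1_5 (u1 u2 u3 u4 : ℝ) (a1 : 0 ≤ u1) (b1 : u1 ≤ 0 + 1) (a2 : 1 ≤ u2) (b2 : u2 ≤ 1 + 1) (a3 : 1 ≤ u3) (b3 : u3 ≤ 1 + 1) (a4 : 5 ≤ u4) (b4 : u4 ≤ 5 + 1) (o1 : u1 ≤ u2) (o2 : u2 ≤ u3) (o3 : u3 ≤ u4) : Good u1 u2 u3 u4 ∨ Good2 u1 u2 u3 u4 :=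
  good_crude zk_0 zk_1 zk_1 zk_5 (hk_0 a1 b1) (hk_1 a2 b2) (hk_1 a3 b3) (hk_5 a4 b4) (spread_one a1 b1 a2 b2 a3 b3 a4 b4) (by linarith only [a4])

theorem g_0_1_1_6 (u1 u2 u3 u4 : ℝ) (a1 : 0 ≤ u1) (b1 : u1 ≤ 0 + 1) (a2 : 1 ≤ u2) (b2 : u2 ≤ 1 + 1) (a3 : 1 ≤ u3) (b3 : u3 ≤ 1 + 1) (a4 : 6 ≤ u4) (b4 : u4 ≤ 6 + 1) (o1 : u1 ≤ u2) (o2 : u2 ≤ u3) (o3 : u3 ≤ u4) : Good u1 u2 u3 u4 ∨ Good2 u1 u2 u3 u4 :=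
  good_crude zk_0 zk_1 zk_1 zk_6 (hk_0 a1 b1) (hk_1 a2 b2) (hk_1 a3 b3) (hk_6 a4 b4) (spread_one a1 b1 a2 b2 a3 b3 a4 b4) (by linarith only [a4])

theorem g_0_1_2_3 (u1 u2 u3 u4 : ℝ) (a1 : 0 ≤ u1) (b1 : u1 ≤ 0 + 1) (a2 : 1 ≤ u2) (b2 : u2 ≤ 1 + 1) (a3 : 2 ≤ u3) (b3 : u3 ≤ 2 + 1) (a4 : 3 ≤ u4) (b4 : u4 ≤ 3 + 1) (o1 : u1 ≤ u2) (o2 : u2 ≤ u3) (o3 : u3 ≤ u4) : Good u1 u2 u3 u4 ∨ Good2 u1 u2 u3 u4 :=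
  good_crude zk_0 zk_1 zk_2 zk_3 (hk_0 a1 b1) (hk_1 a2 b2) (hk_2 a3 b3) (hk_3 a4 b4) (spread_one a1 b1 a2 b2 a3 b3 a4 b4) (by linarith only [a1, b1])

theorem g_0_1_2_4 (u1 u2 u3 u4 : ℝ) (a1 : 0 ≤ u1) (b1 : u1 ≤ 0 + 1) (a2 : 1 ≤ u2) (b2 : u2 ≤ 1 + 1) (a3 : 2 ≤ u3) (b3 : u3 ≤ 2 + 1) (a4 : 4 ≤ u4) (b4 : u4 ≤ 4 + 1) (o1 : u1 ≤ u2) (o2 : u2 ≤ u3) (o3 : u3 ≤ u4) : Good u1 u2 u3 u4 ∨ Good2 u1 u2 u3 u4 :=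
  good_crude zk_0 zk_1 zk_2 zk_4 (hk_0 a1 b1) (hk_1 a2 b2) (hk_2 a3 b3) (hk_4 a4 b4) (spread_one a1 b1 a2 b2 a3 b3 a4 b4) (by linarith only [a4])

theorem g_0_1_2_5 (u1 u2 u3 u4 : ℝ) (a1 : 0 ≤ u1) (b1 : u1 ≤ 0 + 1) (a2 : 1 ≤ u2) (b2 : u2 ≤ 1 + 1) (a3 : 2 ≤ u3) (b3 : u3 ≤ 2 + 1) (a4 : 5 ≤ u4) (b4 : u4 ≤ 5 + 1) (o1 : u1 ≤ u2) (o2 : u2 ≤ u3) (o3 : u3 ≤ u4) : Good u1 u2 u3 u4 ∨ Good2 u1 u2 u3 u4 :=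
  good_crude zk_0 zk_1 zk_2 zk_5 (hk_0 a1 b1) (hk_1 a2 b2) (hk_2 a3 b3) (hk_5 a4 b4) (spread_one a1 b1 a2 b2 a3 b3 a4 b4) (by linarith only [a4])

theorem g_0_1_2_6 (u1 u2 u3 u4 : ℝ) (a1 : 0 ≤ u1) (b1 : u1 ≤ 0 + 1) (a2 : 1 ≤ u2) (b2 : u2 ≤ 1 + 1) (a3 : 2 ≤ u3) (b3 : u3 ≤ 2 + 1) (a4 : 6 ≤ u4) (b4 : u4 ≤ 6 + 1) (o1 : u1 ≤ u2) (o2 : u2 ≤ u3) (o3 : u3 ≤ u4) : Good u1 u2 u3 u4 ∨ Good2 u1 u2 u3 u4 :=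
  good_crude zk_0 zk_1 zk_2 zk_6 (hk_0 a1 b1) (hk_1 a2 b2) (hk_2 a3 b3) (hk_6 a4 b4) (spread_one a1 b1 a2 b2 a3 b3 a4 b4) (by linarith only [a4])

theorem g_0_1_3_5 (u1 u2 u3 u4 : ℝ) (a1 : 0 ≤ u1) (b1 : u1 ≤ 0 + 1) (a2 : 1 ≤ u2) (b2 : u2 ≤ 1 + 1) (a3 : 3 ≤ u3) (b3 : u3 ≤ 3 + 1) (a4 : 5 ≤ u4) (b4 : u4 ≤ 5 + 1) (o1 : u1 ≤ u2) (o2 : u2 ≤ u3) (o3 : u3 ≤ u4) : Good u1 u2 u3 u4 ∨ Good2 u1 u2 u3 u4 :=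
  good_crude zk_0 zk_1 zk_3 zk_5 (hk_0 a1 b1) (hk_1 a2 b2) (hk_3 a3 b3) (hk_5 a4 b4) (spread_one a1 b1 a2 b2 a3 b3 a4 b4) (by linarith only [b3, a4])

theorem g_0_1_3_6 (u1 u2 u3 u4 : ℝ) (a1 : 0 ≤ u1) (b1 : u1 ≤ 0 + 1) (a2 : 1 ≤ u2) (b2 : u2 ≤ 1 + 1) (a3 : 3 ≤ u3) (b3 : u3 ≤ 3 + 1) (a4 : 6 ≤ u4) (b4 : u4 ≤ 6 + 1) (o1 : u1 ≤ u2) (o2 : u2 ≤ u3) (o3 : u3 ≤ u4) : Good u1 u2 u3 u4 ∨ Good2 u1 u2 u3 u4 :=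
  good_crude zk_0 zk_1 zk_3 zk_6 (hk_0 a1 b1) (hk_1 a2 b2) (hk_3 a3 b3) (hk_6 a4 b4) (spread_one a1 b1 a2 b2 a3 b3 a4 b4) (by linarith only [b3, a4])

theorem g_0_1_4_5 (u1 u2 u3 u4 : ℝ) (a1 : 0 ≤ u1) (b1 : u1 ≤ 0 + 1) (a2 : 1 ≤ u2) (b2 : u2 ≤ 1 + 1) (a3 : 4 ≤ u3) (b3 : u3 ≤ 4 + 1) (a4 : 5 ≤ u4) (b4 : u4 ≤ 5 + 1) (o1 : u1 ≤ u2) (o2 : u2 ≤ u3) (o3 : u3 ≤ u4) : Good u1 u2 u3 u4 ∨ Good2 u1 u2 u3 u4 :=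
  good_crude zk_0 zk_1 zk_4 zk_5 (hk_0 a1 b1) (hk_1 a2 b2) (hk_4 a3 b3) (hk_5 a4 b4) (spread_one a1 b1 a2 b2 a3 b3 a4 b4) (by linarith only [a3, a4])

theorem g_0_1_4_6 (u1 u2 u3 u4 : ℝ) (a1 : 0 ≤ u1) (b1 : u1 ≤ 0 + 1) (a2 : 1 ≤ u2) (b2 : u2 ≤ 1 + 1) (a3 : 4 ≤ u3) (b3 : u3 ≤ 4 + 1) (a4 : 6 ≤ u4) (b4 : u4 ≤ 6 + 1) (o1 : u1 ≤ u2) (o2 : u2 ≤ u3) (o3 : u3 ≤ u4) : Good u1 u2 u3 u4 ∨ Good2 u1 u2 u3 u4 :=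
  good_crude zk_0 zk_1 zk_4 zk_6 (hk_0 a1 b1) (hk_1 a2 b2) (hk_4 a3 b3) (hk_6 a4 b4) (spread_one a1 b1 a2 b2 a3 b3 a4 b4) (by linarith only [a3, a4])

theorem g_0_1_5_5 (u1 u2 u3 u4 : ℝ) (a1 : 0 ≤ u1) (b1 : u1 ≤ 0 + 1) (a2 : 1 ≤ u2) (b2 : u2 ≤ 1 + 1) (a3 : 5 ≤ u3) (b3 : u3 ≤ 5 + 1) (a4 : 5 ≤ u4) (b4 : u4 ≤ 5 + 1) (o1 : u1 ≤ u2) (o2 : u2 ≤ u3) (o3 : u3 ≤ u4) : Good u1 u2 u3 u4 ∨ Good2 u1 u2 u3 u4 :=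
  good_crude zk_0 zk_1 zk_5 zk_5 (hk_0 a1 b1) (hk_1 a2 b2) (hk_5 a3 b3) (hk_5 a4 b4) (spread_one a1 b1 a2 b2 a3 b3 a4 b4) (by linarith only [a4])

theorem g_0_1_5_6 (u1 u2 u3 u4 : ℝ) (a1 : 0 ≤ u1) (b1 : u1 ≤ 0 + 1) (a2 : 1 ≤ u2) (b2 : u2 ≤ 1 + 1) (a3 : 5 ≤ u3) (b3 : u3 ≤ 5 + 1) (a4 : 6 ≤ u4) (b4 : u4 ≤ 6 + 1) (o1 : u1 ≤ u2) (o2 : u2 ≤ u3) (o3 : u3 ≤ u4) : Good u1 u2 u3 u4 ∨ Good2 u1 u2 u3 u4 :=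
  good_crude zk_0 zk_1 zk_5 zk_6 (hk_0 a1 b1) (hk_1 a2 b2) (hk_5 a3 b3) (hk_6 a4 b4) (spread_one a1 b1 a2 b2 a3 b3 a4 b4) (by linarith only [a4])

theorem g_0_1_6_6 (u1 u2 u3 u4 : ℝ) (a1 : 0 ≤ u1) (b1 : u1 ≤ 0 + 1) (a2 : 1 ≤ u2) (b2 : u2 ≤ 1 + 1) (a3 : 6 ≤ u3) (b3 : u3 ≤ 6 + 1) (a4 : 6 ≤ u4) (b4 : u4 ≤ 6 + 1) (o1 : u1 ≤ u2) (o2 : u2 ≤ u3) (o3 : u3 ≤ u4) : Good u1 u2 u3 u4 ∨ Good2 u1 u2 u3 u4 :=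
  good_crude zk_0 zk_1 zk_6 zk_6 (hk_0 a1 b1) (hk_1 a2 b2) (hk_6 a3 b3) (hk_6 a4 b4) (spread_one a1 b1 a2 b2 a3 b3 a4 b4) (by linarith only [a4])

theorem g_0_2_2_3 (u1 u2 u3 u4 : ℝ) (a1 : 0 ≤ u1) (b1 : u1 ≤ 0 + 1) (a2 : 2 ≤ u2) (b2 : u2 ≤ 2 + 1) (a3 : 2 ≤ u3) (b3 : u3 ≤ 2 + 1) (a4 : 3 ≤ u4) (b4 : u4 ≤ 3 + 1) (o1 : u1 ≤ u2) (o2 : u2 ≤ u3) (o3 : u3 ≤ u4) : Good u1 u2 u3 u4 ∨ Good2 u1 u2 u3 u4 :=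
  good_crude zk_0 zk_2 zk_2 zk_3 (hk_0 a1 b1) (hk_2 a2 b2) (hk_2 a3 b3) (hk_3 a4 b4) (spread_one a1 b1 a2 b2 a3 b3 a4 b4) (by linarith only [a1, b1])

theorem g_0_2_2_4 (u1 u2 u3 u4 : ℝ) (a1 : 0 ≤ u1) (b1 : u1 ≤ 0 + 1) (a2 : 2 ≤ u2) (b2 : u2 ≤ 2 + 1) (a3 : 2 ≤ u3) (b3 : u3 ≤ 2 + 1) (a4 : 4 ≤ u4) (b4 : u4 ≤ 4 + 1) (o1 : u1 ≤ u2) (o2 : u2 ≤ u3) (o3 : u3 ≤ u4) : Good u1 u2 u3 u4 ∨ Good2 u1 u2 u3 u4 :=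
  good_crude zk_0 zk_2 zk_2 zk_4 (hk_0 a1 b1) (hk_2 a2 b2) (hk_2 a3 b3) (hk_4 a4 b4) (spread_one a1 b1 a2 b2 a3 b3 a4 b4) (by linarith only [a4])

theorem g_0_2_2_5 (u1 u2 u3 u4 : ℝ) (a1 : 0 ≤ u1) (b1 : u1 ≤ 0 + 1) (a2 : 2 ≤ u2) (b2 : u2 ≤ 2 + 1) (a3 : 2 ≤ u3) (b3 : u3 ≤ 2 + 1) (a4 : 5 ≤ u4) (b4 : u4 ≤ 5 + 1) (o1 : u1 ≤ u2) (o2 : u2 ≤ u3) (o3 : u3 ≤ u4) : Good u1 u2 u3 u4 ∨ Good2 u1 u2 u3 u4 :=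
  good_crude zk_0 zk_2 zk_2 zk_5 (hk_0 a1 b1) (hk_2 a2 b2) (hk_2 a3 b3) (hk_5 a4 b4) (spread_one a1 b1 a2 b2 a3 b3 a4 b4) (by linarith only [a4])

theorem g_0_2_2_6 (u1 u2 u3 u4 : ℝ) (a1 : 0 ≤ u1) (b1 : u1 ≤ 0 + 1) (a2 : 2 ≤ u2) (b2 : u2 ≤ 2 + 1) (a3 : 2 ≤ u3) (b3 : u3 ≤ 2 + 1) (a4 : 6 ≤ u4) (b4 : u4 ≤ 6 + 1) (o1 : u1 ≤ u2) (o2 : u2 ≤ u3) (o3 : u3 ≤ u4) : Good u1 u2 u3 u4 ∨ Good2 u1 u2 u3 u4 :=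
  good_crude zk_0 zk_2 zk_2 zk_6 (hk_0 a1 b1) (hk_2 a2 b2) (hk_2 a3 b3) (hk_6 a4 b4) (spread_one a1 b1 a2 b2 a3 b3 a4 b4) (by linarith only [a4])

theorem g_0_2_3_5 (u1 u2 u3 u4 : ℝ) (a1 : 0 ≤ u1) (b1 : u1 ≤ 0 + 1) (a2 : 2 ≤ u2) (b2 : u2 ≤ 2 + 1) (a3 : 3 ≤ u3) (b3 : u3 ≤ 3 + 1) (a4 : 5 ≤ u4) (b4 : u4 ≤ 5 + 1) (o1 : u1 ≤ u2) (o2 : u2 ≤ u3) (o3 : u3 ≤ u4) : Good u1 u2 u3 u4 ∨ Good2 u1 u2 u3 u4 :=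
  good_crude zk_0 zk_2 zk_3 zk_5 (hk_0 a1 b1) (hk_2 a2 b2) (hk_3 a3 b3) (hk_5 a4 b4) (spread_one a1 b1 a2 b2 a3 b3 a4 b4) (by linarith only [b3, a4])

theorem g_0_2_3_6 (u1 u2 u3 u4 : ℝ) (a1 : 0 ≤ u1) (b1 : u1 ≤ 0 + 1) (a2 : 2 ≤ u2) (b2 : u2 ≤ 2 + 1) (a3 : 3 ≤ u3) (b3 : u3 ≤ 3 + 1) (a4 : 6 ≤ u4) (b4 : u4 ≤ 6 + 1) (o1 : u1 ≤ u2) (o2 : u2 ≤ u3) (o3 : u3 ≤ u4) : Good u1 u2 u3 u4 ∨ Good2 u1 u2 u3 u4 :=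
  good_crude zk_0 zk_2 zk_3 zk_6 (hk_0 a1 b1) (hk_2 a2 b2) (hk_3 a3 b3) (hk_6 a4 b4) (spread_one a1 b1 a2 b2 a3 b3 a4 b4) (by linarith only [b3, a4])

theorem g_0_2_4_5 (u1 u2 u3 u4 : ℝ) (a1 : 0 ≤ u1) (b1 : u1 ≤ 0 + 1) (a2 : 2 ≤ u2) (b2 : u2 ≤ 2 + 1) (a3 : 4 ≤ u3) (b3 : u3 ≤ 4 + 1) (a4 : 5 ≤ u4) (b4 : u4 ≤ 5 + 1) (o1 : u1 ≤ u2) (o2 : u2 ≤ u3) (o3 : u3 ≤ u4) : Good u1 u2 u3 u4 ∨ Good2 u1 u2 u3 u4 :=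
  good_crude zk_0 zk_2 zk_4 zk_5 (hk_0 a1 b1) (hk_2 a2 b2) (hk_4 a3 b3) (hk_5 a4 b4) (spread_one a1 b1 a2 b2 a3 b3 a4 b4) (by linarith only [a3, a4])

theorem g_0_2_4_6 (u1 u2 u3 u4 : ℝ) (a1 : 0 ≤ u1) (b1 : u1 ≤ 0 + 1) (a2 : 2 ≤ u2) (b2 : u2 ≤ 2 + 1) (a3 : 4 ≤ u3) (b3 : u3 ≤ 4 + 1) (a4 : 6 ≤ u4) (b4 : u4 ≤ 6 + 1) (o1 : u1 ≤ u2) (o2 : u2 ≤ u3) (o3 : u3 ≤ u4) : Good u1 u2 u3 u4 ∨ Good2 u1 u2 u3 u4 :=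
  good_crude zk_0 zk_2 zk_4 zk_6 (hk_0 a1 b1) (hk_2 a2 b2) (hk_4 a3 b3) (hk_6 a4 b4) (spread_one a1 b1 a2 b2 a3 b3 a4 b4) (by linarith only [a3, a4])

theorem g_0_2_5_5 (u1 u2 u3 u4 : ℝ) (a1 : 0 ≤ u1) (b1 : u1 ≤ 0 + 1) (a2 : 2 ≤ u2) (b2 : u2 ≤ 2 + 1) (a3 : 5 ≤ u3) (b3 : u3 ≤ 5 + 1) (a4 : 5 ≤ u4) (b4 : u4 ≤ 5 + 1) (o1 : u1 ≤ u2) (o2 : u2 ≤ u3) (o3 : u3 ≤ u4) : Good u1 u2 u3 u4 ∨ Good2 u1 u2 u3 u4 :=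
  good_crude zk_0 zk_2 zk_5 zk_5 (hk_0 a1 b1) (hk_2 a2 b2) (hk_5 a3 b3) (hk_5 a4 b4) (spread_one a1 b1 a2 b2 a3 b3 a4 b4) (by linarith only [a4])

theorem g_0_2_5_6 (u1 u2 u3 u4 : ℝ) (a1 : 0 ≤ u1) (b1 : u1 ≤ 0 + 1) (a2 : 2 ≤ u2) (b2 : u2 ≤ 2 + 1) (a3 : 5 ≤ u3) (b3 : u3 ≤ 5 + 1) (a4 : 6 ≤ u4) (b4 : u4 ≤ 6 + 1) (o1 : u1 ≤ u2) (o2 : u2 ≤ u3) (o3 : u3 ≤ u4) : Good u1 u2 u3 u4 ∨ Good2 u1 u2 u3 u4 :=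
  good_crude zk_0 zk_2 zk_5 zk_6 (hk_0 a1 b1) (hk_2 a2 b2) (hk_5 a3 b3) (hk_6 a4 b4) (spread_one a1 b1 a2 b2 a3 b3 a4 b4) (by linarith only [a4])

theorem g_0_2_6_6 (u1 u2 u3 u4 : ℝ) (a1 : 0 ≤ u1) (b1 : u1 ≤ 0 + 1) (a2 : 2 ≤ u2) (b2 : u2 ≤ 2 + 1) (a3 : 6 ≤ u3) (b3 : u3 ≤ 6 + 1) (a4 : 6 ≤ u4) (b4 : u4 ≤ 6 + 1) (o1 : u1 ≤ u2) (o2 : u2 ≤ u3) (o3 : u3 ≤ u4) : Good u1 u2 u3 u4 ∨ Good2 u1 u2 u3 u4 :=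
  good_crude zk_0 zk_2 zk_6 zk_6 (hk_0 a1 b1) (hk_2 a2 b2) (hk_6 a3 b3) (hk_6 a4 b4) (spread_one a1 b1 a2 b2 a3 b3 a4 b4) (by linarith only [a4])

theorem g_0_3_3_5 (u1 u2 u3 u4 : ℝ) (a1 : 0 ≤ u1) (b1 : u1 ≤ 0 + 1) (a2 : 3 ≤ u2) (b2 : u2 ≤ 3 + 1) (a3 : 3 ≤ u3) (b3 : u3 ≤ 3 + 1) (a4 : 5 ≤ u4) (b4 : u4 ≤ 5 + 1) (o1 : u1 ≤ u2) (o2 : u2 ≤ u3) (o3 : u3 ≤ u4) : Good u1 u2 u3 u4 ∨ Good2 u1 u2 u3 u4 :=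
  good_crude zk_0 zk_3 zk_3 zk_5 (hk_0 a1 b1) (hk_3 a2 b2) (hk_3 a3 b3) (hk_5 a4 b4) (spread_one a1 b1 a2 b2 a3 b3 a4 b4) (by linarith only [b2, b3, a4])

theorem g_0_3_3_6 (u1 u2 u3 u4 : ℝ) (a1 : 0 ≤ u1) (b1 : u1 ≤ 0 + 1) (a2 : 3 ≤ u2) (b2 : u2 ≤ 3 + 1) (a3 : 3 ≤ u3) (b3 : u3 ≤ 3 + 1) (a4 : 6 ≤ u4) (b4 : u4 ≤ 6 + 1) (o1 : u1 ≤ u2) (o2 : u2 ≤ u3) (o3 : u3 ≤ u4) : Good u1 u2 u3 u4 ∨ Good2 u1 u2 u3 u4 :=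
  good_crude zk_0 zk_3 zk_3 zk_6 (hk_0 a1 b1) (hk_3 a2 b2) (hk_3 a3 b3) (hk_6 a4 b4) (spread_one a1 b1 a2 b2 a3 b3 a4 b4) (by linarith only [b2, b3, a4])

theorem g_0_3_4_5 (u1 u2 u3 u4 : ℝ) (a1 : 0 ≤ u1) (b1 : u1 ≤ 0 + 1) (a2 : 3 ≤ u2) (b2 : u2 ≤ 3 + 1) (a3 : 4 ≤ u3) (b3 : u3 ≤ 4 + 1) (a4 : 5 ≤ u4) (b4 : u4 ≤ 5 + 1) (o1 : u1 ≤ u2) (o2 : u2 ≤ u3) (o3 : u3 ≤ u4) : Good u1 u2 u3 u4 ∨ Good2 u1 u2 u3 u4 :=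
  good_crude zk_0 zk_3 zk_4 zk_5 (hk_0 a1 b1) (hk_3 a2 b2) (hk_4 a3 b3) (hk_5 a4 b4) (spread_one a1 b1 a2 b2 a3 b3 a4 b4) (by linarith only [a4, o2])

theorem g_0_3_4_6 (u1 u2 u3 u4 : ℝ) (a1 : 0 ≤ u1) (b1 : u1 ≤ 0 + 1) (a2 : 3 ≤ u2) (b2 : u2 ≤ 3 + 1) (a3 : 4 ≤ u3) (b3 : u3 ≤ 4 + 1) (a4 : 6 ≤ u4) (b4 : u4 ≤ 6 + 1) (o1 : u1 ≤ u2) (o2 : u2 ≤ u3) (o3 : u3 ≤ u4) : Good u1 u2 u3 u4 ∨ Good2 u1 u2 u3 u4 :=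
  good_crude zk_0 zk_3 zk_4 zk_6 (hk_0 a1 b1) (hk_3 a2 b2) (hk_4 a3 b3) (hk_6 a4 b4) (spread_one a1 b1 a2 b2 a3 b3 a4 b4) (by linarith only [a4, o2])

theorem g_0_3_5_5 (u1 u2 u3 u4 : ℝ) (a1 : 0 ≤ u1) (b1 : u1 ≤ 0 + 1) (a2 : 3 ≤ u2) (b2 : u2 ≤ 3 + 1) (a3 : 5 ≤ u3) (b3 : u3 ≤ 5 + 1) (a4 : 5 ≤ u4) (b4 : u4 ≤ 5 + 1) (o1 : u1 ≤ u2) (o2 : u2 ≤ u3) (o3 : u3 ≤ u4) : Good u1 u2 u3 u4 ∨ Good2 u1 u2 u3 u4 :=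
  good_crude zk_0 zk_3 zk_5 zk_5 (hk_0 a1 b1) (hk_3 a2 b2) (hk_5 a3 b3) (hk_5 a4 b4) (spread_one a1 b1 a2 b2 a3 b3 a4 b4) (by linarith only [b2, a4])

theorem g_0_3_5_6 (u1 u2 u3 u4 : ℝ) (a1 : 0 ≤ u1) (b1 : u1 ≤ 0 + 1) (a2 : 3 ≤ u2) (b2 : u2 ≤ 3 + 1) (a3 : 5 ≤ u3) (b3 : u3 ≤ 5 + 1) (a4 : 6 ≤ u4) (b4 : u4 ≤ 6 + 1) (o1 : u1 ≤ u2) (o2 : u2 ≤ u3) (o3 : u3 ≤ u4) : Good u1 u2 u3 u4 ∨ Good2 u1 u2 u3 u4 :=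
  good_crude zk_0 zk_3 zk_5 zk_6 (hk_0 a1 b1) (hk_3 a2 b2) (hk_5 a3 b3) (hk_6 a4 b4) (spread_one a1 b1 a2 b2 a3 b3 a4 b4) (by linarith only [b2, a4])

theorem g_0_3_6_6 (u1 u2 u3 u4 : ℝ) (a1 : 0 ≤ u1) (b1 : u1 ≤ 0 + 1) (a2 : 3 ≤ u2) (b2 : u2 ≤ 3 + 1) (a3 : 6 ≤ u3) (b3 : u3 ≤ 6 + 1) (a4 : 6 ≤ u4) (b4 : u4 ≤ 6 + 1) (o1 : u1 ≤ u2) (o2 : u2 ≤ u3) (o3 : u3 ≤ u4) : Good u1 u2 u3 u4 ∨ Good2 u1 u2 u3 u4 :=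
  good_crude zk_0 zk_3 zk_6 zk_6 (hk_0 a1 b1) (hk_3 a2 b2) (hk_6 a3 b3) (hk_6 a4 b4) (spread_one a1 b1 a2 b2 a3 b3 a4 b4) (by linarith only [b2, a4])

theorem g_0_4_4_5 (u1 u2 u3 u4 : ℝ) (a1 : 0 ≤ u1) (b1 : u1 ≤ 0 + 1) (a2 : 4 ≤ u2) (b2 : u2 ≤ 4 + 1) (a3 : 4 ≤ u3) (b3 : u3 ≤ 4 + 1) (a4 : 5 ≤ u4) (b4 : u4 ≤ 5 + 1) (o1 : u1 ≤ u2) (o2 : u2 ≤ u3) (o3 : u3 ≤ u4) : Good u1 u2 u3 u4 ∨ Good2 u1 u2 u3 u4 :=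
  good_crude zk_0 zk_4 zk_4 zk_5 (hk_0 a1 b1) (hk_4 a2 b2) (hk_4 a3 b3) (hk_5 a4 b4) (spread_one a1 b1 a2 b2 a3 b3 a4 b4) (by linarith only [a2, a3, a4])

theorem g_0_4_4_6 (u1 u2 u3 u4 : ℝ) (a1 : 0 ≤ u1) (b1 : u1 ≤ 0 + 1) (a2 : 4 ≤ u2) (b2 : u2 ≤ 4 + 1) (a3 : 4 ≤ u3) (b3 : u3 ≤ 4 + 1) (a4 : 6 ≤ u4) (b4 : u4 ≤ 6 + 1) (o1 : u1 ≤ u2) (o2 : u2 ≤ u3) (o3 : u3 ≤ u4) : Good u1 u2 u3 u4 ∨ Good2 u1 u2 u3 u4 :=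
  good_crude zk_0 zk_4 zk_4 zk_6 (hk_0 a1 b1) (hk_4 a2 b2) (hk_4 a3 b3) (hk_6 a4 b4) (spread_one a1 b1 a2 b2 a3 b3 a4 b4) (by linarith only [a2, a3, a4])

theorem g_0_4_5_5 (u1 u2 u3 u4 : ℝ) (a1 : 0 ≤ u1) (b1 : u1 ≤ 0 + 1) (a2 : 4 ≤ u2) (b2 : u2 ≤ 4 + 1) (a3 : 5 ≤ u3) (b3 : u3 ≤ 5 + 1) (a4 : 5 ≤ u4) (b4 : u4 ≤ 5 + 1) (o1 : u1 ≤ u2) (o2 : u2 ≤ u3) (o3 : u3 ≤ u4) : Good u1 u2 u3 u4 ∨ Good2 u1 u2 u3 u4 :=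
  good_crude zk_0 zk_4 zk_5 zk_5 (hk_0 a1 b1) (hk_4 a2 b2) (hk_5 a3 b3) (hk_5 a4 b4) (spread_one a1 b1 a2 b2 a3 b3 a4 b4) (by linarith only [a2, a4])

theorem g_0_4_5_6 (u1 u2 u3 u4 : ℝ) (a1 : 0 ≤ u1) (b1 : u1 ≤ 0 + 1) (a2 : 4 ≤ u2) (b2 : u2 ≤ 4 + 1) (a3 : 5 ≤ u3) (b3 : u3 ≤ 5 + 1) (a4 : 6 ≤ u4) (b4 : u4 ≤ 6 + 1) (o1 : u1 ≤ u2) (o2 : u2 ≤ u3) (o3 : u3 ≤ u4) : Good u1 u2 u3 u4 ∨ Good2 u1 u2 u3 u4 :=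
  good_crude zk_0 zk_4 zk_5 zk_6 (hk_0 a1 b1) (hk_4 a2 b2) (hk_5 a3 b3) (hk_6 a4 b4) (spread_one a1 b1 a2 b2 a3 b3 a4 b4) (by linarith only [a2, a4])

theorem g_0_4_6_6 (u1 u2 u3 u4 : ℝ) (a1 : 0 ≤ u1) (b1 : u1 ≤ 0 + 1) (a2 : 4 ≤ u2) (b2 : u2 ≤ 4 + 1) (a3 : 6 ≤ u3) (b3 : u3 ≤ 6 + 1) (a4 : 6 ≤ u4) (b4 : u4 ≤ 6 + 1) (o1 : u1 ≤ u2) (o2 : u2 ≤ u3) (o3 : u3 ≤ u4) : Good u1 u2 u3 u4 ∨ Good2 u1 u2 u3 u4 :=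
  good_crude zk_0 zk_4 zk_6 zk_6 (hk_0 a1 b1) (hk_4 a2 b2) (hk_6 a3 b3) (hk_6 a4 b4) (spread_one a1 b1 a2 b2 a3 b3 a4 b4) (by linarith only [a2, a4])

theorem g_0_5_5_5 (u1 u2 u3 u4 : ℝ) (a1 : 0 ≤ u1) (b1 : u1 ≤ 0 + 1) (a2 : 5 ≤ u2) (b2 : u2 ≤ 5 + 1) (a3 : 5 ≤ u3) (b3 : u3 ≤ 5 + 1) (a4 : 5 ≤ u4) (b4 : u4 ≤ 5 + 1) (o1 : u1 ≤ u2) (o2 : u2 ≤ u3) (o3 : u3 ≤ u4) : Good u1 u2 u3 u4 ∨ Good2 u1 u2 u3 u4 :=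
  good_crude zk_0 zk_5 zk_5 zk_5 (hk_0 a1 b1) (hk_5 a2 b2) (hk_5 a3 b3) (hk_5 a4 b4) (spread_one a1 b1 a2 b2 a3 b3 a4 b4) (by linarith only [a4])

theorem g_0_5_5_6 (u1 u2 u3 u4 : ℝ) (a1 : 0 ≤ u1) (b1 : u1 ≤ 0 + 1) (a2 : 5 ≤ u2) (b2 : u2 ≤ 5 + 1) (a3 : 5 ≤ u3) (b3 : u3 ≤ 5 + 1) (a4 : 6 ≤ u4) (b4 : u4 ≤ 6 + 1) (o1 : u1 ≤ u2) (o2 : u2 ≤ u3) (o3 : u3 ≤ u4) : Good u1 u2 u3 u4 ∨ Good2 u1 u2 u3 u4 :=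
  good_crude zk_0 zk_5 zk_5 zk_6 (hk_0 a1 b1) (hk_5 a2 b2) (hk_5 a3 b3) (hk_6 a4 b4) (spread_one a1 b1 a2 b2 a3 b3 a4 b4) (by linarith only [a4])

theorem g_0_5_6_6 (u1 u2 u3 u4 : ℝ) (a1 : 0 ≤ u1) (b1 : u1 ≤ 0 + 1) (a2 : 5 ≤ u2) (b2 : u2 ≤ 5 + 1) (a3 : 6 ≤ u3) (b3 : u3 ≤ 6 + 1) (a4 : 6 ≤ u4) (b4 : u4 ≤ 6 + 1) (o1 : u1 ≤ u2) (o2 : u2 ≤ u3) (o3 : u3 ≤ u4) : Good u1 u2 u3 u4 ∨ Good2 u1 u2 u3 u4 :=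
  good_crude zk_0 zk_5 zk_6 zk_6 (hk_0 a1 b1) (hk_5 a2 b2) (hk_6 a3 b3) (hk_6 a4 b4) (spread_one a1 b1 a2 b2 a3 b3 a4 b4) (by linarith only [a4])

theorem g_0_6_6_6 (u1 u2 u3 u4 : ℝ) (a1 : 0 ≤ u1) (b1 : u1 ≤ 0 + 1) (a2 : 6 ≤ u2) (b2 : u2 ≤ 6 + 1) (a3 : 6 ≤ u3) (b3 : u3 ≤ 6 + 1) (a4 : 6 ≤ u4) (b4 : u4 ≤ 6 + 1) (o1 : u1 ≤ u2) (o2 : u2 ≤ u3) (o3 : u3 ≤ u4) : Good u1 u2 u3 u4 ∨ Good2 u1 u2 u3 u4 :=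
  good_crude zk_0 zk_6 zk_6 zk_6 (hk_0 a1 b1) (hk_6 a2 b2) (hk_6 a3 b3) (hk_6 a4 b4) (spread_one a1 b1 a2 b2 a3 b3 a4 b4) (by linarith only [a4])

theorem g_1_1_1_5 (u1 u2 u3 u4 : ℝ) (a1 : 1 ≤ u1) (b1 : u1 ≤ 1 + 1) (a2 : 1 ≤ u2) (b2 : u2 ≤ 1 + 1) (a3 : 1 ≤ u3) (b3 : u3 ≤ 1 + 1) (a4 : 5 ≤ u4) (b4 : u4 ≤ 5 + 1) (o1 : u1 ≤ u2) (o2 : u2 ≤ u3) (o3 : u3 ≤ u4) : Good u1 u2 u3 u4 ∨ Good2 u1 u2 u3 u4 :=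
  good_crude zk_1 zk_1 zk_1 zk_5 (hk_1 a1 b1) (hk_1 a2 b2) (hk_1 a3 b3) (hk_5 a4 b4) (spread_one a1 b1 a2 b2 a3 b3 a4 b4) (by linarith only [b1, a4])

theorem g_1_1_1_6 (u1 u2 u3 u4 : ℝ) (a1 : 1 ≤ u1) (b1 : u1 ≤ 1 + 1) (a2 : 1 ≤ u2) (b2 : u2 ≤ 1 + 1) (a3 : 1 ≤ u3) (b3 : u3 ≤ 1 + 1) (a4 : 6 ≤ u4) (b4 : u4 ≤ 6 + 1) (o1 : u1 ≤ u2) (o2 : u2 ≤ u3) (o3 : u3 ≤ u4) : Good u1 u2 u3 u4 ∨ Good2 u1 u2 u3 u4 :=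
  good_crude zk_1 zk_1 zk_1 zk_6 (hk_1 a1 b1) (hk_1 a2 b2) (hk_1 a3 b3) (hk_6 a4 b4) (spread_one a1 b1 a2 b2 a3 b3 a4 b4) (by linarith only [b1, a4])

theorem g_1_1_1_7 (u1 u2 u3 u4 : ℝ) (a1 : 1 ≤ u1) (b1 : u1 ≤ 1 + 1) (a2 : 1 ≤ u2) (b2 : u2 ≤ 1 + 1) (a3 : 1 ≤ u3) (b3 : u3 ≤ 1 + 1) (a4 : 7 ≤ u4) (b4 : u4 ≤ 7 + 1) (o1 : u1 ≤ u2) (o2 : u2 ≤ u3) (o3 : u3 ≤ u4) : Good u1 u2 u3 u4 ∨ Good2 u1 u2 u3 u4 :=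
  good_crude zk_1 zk_1 zk_1 zk_7 (hk_1 a1 b1) (hk_1 a2 b2) (hk_1 a3 b3) (hk_7 a4 b4) (spread_one a1 b1 a2 b2 a3 b3 a4 b4) (by linarith only [b1])

theorem g_1_1_2_5 (u1 u2 u3 u4 : ℝ) (a1 : 1 ≤ u1) (b1 : u1 ≤ 1 + 1) (a2 : 1 ≤ u2) (b2 : u2 ≤ 1 + 1) (a3 : 2 ≤ u3) (b3 : u3 ≤ 2 + 1) (a4 : 5 ≤ u4) (b4 : u4 ≤ 5 + 1) (o1 : u1 ≤ u2) (o2 : u2 ≤ u3) (o3 : u3 ≤ u4) : Good u1 u2 u3 u4 ∨ Good2 u1 u2 u3 u4 :=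
  good_crude zk_1 zk_1 zk_2 zk_5 (hk_1 a1 b1) (hk_1 a2 b2) (hk_2 a3 b3) (hk_5 a4 b4) (spread_one a1 b1 a2 b2 a3 b3 a4 b4) (by linarith only [b1, a4])

theorem g_1_1_2_6 (u1 u2 u3 u4 : ℝ) (a1 : 1 ≤ u1) (b1 : u1 ≤ 1 + 1) (a2 : 1 ≤ u2) (b2 : u2 ≤ 1 + 1) (a3 : 2 ≤ u3) (b3 : u3 ≤ 2 + 1) (a4 : 6 ≤ u4) (b4 : u4 ≤ 6 + 1) (o1 : u1 ≤ u2) (o2 : u2 ≤ u3) (o3 : u3 ≤ u4) : Good u1 u2 u3 u4 ∨ Good2 u1 u2 u3 u4 :=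
  good_crude zk_1 zk_1 zk_2 zk_6 (hk_1 a1 b1) (hk_1 a2 b2) (hk_2 a3 b3) (hk_6 a4 b4) (spread_one a1 b1 a2 b2 a3 b3 a4 b4) (by linarith only [b1, a4])

theorem g_1_1_2_7 (u1 u2 u3 u4 : ℝ) (a1 : 1 ≤ u1) (b1 : u1 ≤ 1 + 1) (a2 : 1 ≤ u2) (b2 : u2 ≤ 1 + 1) (a3 : 2 ≤ u3) (b3 : u3 ≤ 2 + 1) (a4 : 7 ≤ u4) (b4 : u4 ≤ 7 + 1) (o1 : u1 ≤ u2) (o2 : u2 ≤ u3) (o3 : u3 ≤ u4) : Good u1 u2 u3 u4 ∨ Good2 u1 u2 u3 u4 :=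
  good_crude zk_1 zk_1 zk_2 zk_7 (hk_1 a1 b1) (hk_1 a2 b2) (hk_2 a3 b3) (hk_7 a4 b4) (spread_one a1 b1 a2 b2 a3 b3 a4 b4) (by linarith only [b1])

theorem g_1_1_3_5 (u1 u2 u3 u4 : ℝ) (a1 : 1 ≤ u1) (b1 : u1 ≤ 1 + 1) (a2 : 1 ≤ u2) (b2 : u2 ≤ 1 + 1) (a3 : 3 ≤ u3) (b3 : u3 ≤ 3 + 1) (a4 : 5 ≤ u4) (b4 : u4 ≤ 5 + 1) (o1 : u1 ≤ u2) (o2 : u2 ≤ u3) (o3 : u3 ≤ u4) : Good u1 u2 u3 u4 ∨ Good2 u1 u2 u3 u4 :=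
  good_crude zk_1 zk_1 zk_3 zk_5 (hk_1 a1 b1) (hk_1 a2 b2) (hk_3 a3 b3) (hk_5 a4 b4) (spread_one a1 b1 a2 b2 a3 b3 a4 b4) (by linarith only [b1, b3, a4])

theorem g_1_1_3_6 (u1 u2 u3 u4 : ℝ) (a1 : 1 ≤ u1) (b1 : u1 ≤ 1 + 1) (a2 : 1 ≤ u2) (b2 : u2 ≤ 1 + 1) (a3 : 3 ≤ u3) (b3 : u3 ≤ 3 + 1) (a4 : 6 ≤ u4) (b4 : u4 ≤ 6 + 1) (o1 : u1 ≤ u2) (o2 : u2 ≤ u3) (o3 : u3 ≤ u4) : Good u1 u2 u3 u4 ∨ Good2 u1 u2 u3 u4 :=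
  good_crude zk_1 zk_1 zk_3 zk_6 (hk_1 a1 b1) (hk_1 a2 b2) (hk_3 a3 b3) (hk_6 a4 b4) (spread_one a1 b1 a2 b2 a3 b3 a4 b4) (by linarith only [b1, b3, a4])

theorem g_1_1_3_7 (u1 u2 u3 u4 : ℝ) (a1 : 1 ≤ u1) (b1 : u1 ≤ 1 + 1) (a2 : 1 ≤ u2) (b2 : u2 ≤ 1 + 1) (a3 : 3 ≤ u3) (b3 : u3 ≤ 3 + 1) (a4 : 7 ≤ u4) (b4 : u4 ≤ 7 + 1) (o1 : u1 ≤ u2) (o2 : u2 ≤ u3) (o3 : u3 ≤ u4) : Good u1 u2 u3 u4 ∨ Good2 u1 u2 u3 u4 :=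
  good_crude zk_1 zk_1 zk_3 zk_7 (hk_1 a1 b1) (hk_1 a2 b2) (hk_3 a3 b3) (hk_7 a4 b4) (spread_one a1 b1 a2 b2 a3 b3 a4 b4) (by linarith only [b1, b3])

theorem g_1_1_4_5 (u1 u2 u3 u4 : ℝ) (a1 : 1 ≤ u1) (b1 : u1 ≤ 1 + 1) (a2 : 1 ≤ u2) (b2 : u2 ≤ 1 + 1) (a3 : 4 ≤ u3) (b3 : u3 ≤ 4 + 1) (a4 : 5 ≤ u4) (b4 : u4 ≤ 5 + 1) (o1 : u1 ≤ u2) (o2 : u2 ≤ u3) (o3 : u3 ≤ u4) : Good u1 u2 u3 u4 ∨ Good2 u1 u2 u3 u4 :=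
  good_crude zk_1 zk_1 zk_4 zk_5 (hk_1 a1 b1) (hk_1 a2 b2) (hk_4 a3 b3) (hk_5 a4 b4) (spread_one a1 b1 a2 b2 a3 b3 a4 b4) (by linarith only [b1, a3, a4])

theorem g_1_1_4_6 (u1 u2 u3 u4 : ℝ) (a1 : 1 ≤ u1) (b1 : u1 ≤ 1 + 1) (a2 : 1 ≤ u2) (b2 : u2 ≤ 1 + 1) (a3 : 4 ≤ u3) (b3 : u3 ≤ 4 + 1) (a4 : 6 ≤ u4) (b4 : u4 ≤ 6 + 1) (o1 : u1 ≤ u2) (o2 : u2 ≤ u3) (o3 : u3 ≤ u4) : Good u1 u2 u3 u4 ∨ Good2 u1 u2 u3 u4 :=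
  good_crude zk_1 zk_1 zk_4 zk_6 (hk_1 a1 b1) (hk_1 a2 b2) (hk_4 a3 b3) (hk_6 a4 b4) (spread_one a1 b1 a2 b2 a3 b3 a4 b4) (by linarith only [b1, a3, a4])

theorem g_1_1_4_7 (u1 u2 u3 u4 : ℝ) (a1 : 1 ≤ u1) (b1 : u1 ≤ 1 + 1) (a2 : 1 ≤ u2) (b2 : u2 ≤ 1 + 1) (a3 : 4 ≤ u3) (b3 : u3 ≤ 4 + 1) (a4 : 7 ≤ u4) (b4 : u4 ≤ 7 + 1) (o1 : u1 ≤ u2) (o2 : u2 ≤ u3) (o3 : u3 ≤ u4) : Good u1 u2 u3 u4 ∨ Good2 u1 u2 u3 u4 :=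
  good_crude zk_1 zk_1 zk_4 zk_7 (hk_1 a1 b1) (hk_1 a2 b2) (hk_4 a3 b3) (hk_7 a4 b4) (spread_one a1 b1 a2 b2 a3 b3 a4 b4) (by linarith only [b1, a3])

theorem g_1_1_5_5 (u1 u2 u3 u4 : ℝ) (a1 : 1 ≤ u1) (b1 : u1 ≤ 1 + 1) (a2 : 1 ≤ u2) (b2 : u2 ≤ 1 + 1) (a3 : 5 ≤ u3) (b3 : u3 ≤ 5 + 1) (a4 : 5 ≤ u4) (b4 : u4 ≤ 5 + 1) (o1 : u1 ≤ u2) (o2 : u2 ≤ u3) (o3 : u3 ≤ u4) : Good u1 u2 u3 u4 ∨ Good2 u1 u2 u3 u4 :=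
  good_crude zk_1 zk_1 zk_5 zk_5 (hk_1 a1 b1) (hk_1 a2 b2) (hk_5 a3 b3) (hk_5 a4 b4) (spread_one a1 b1 a2 b2 a3 b3 a4 b4) (by linarith only [b1, a4])

theorem g_1_1_5_6 (u1 u2 u3 u4 : ℝ) (a1 : 1 ≤ u1) (b1 : u1 ≤ 1 + 1) (a2 : 1 ≤ u2) (b2 : u2 ≤ 1 + 1) (a3 : 5 ≤ u3) (b3 : u3 ≤ 5 + 1) (a4 : 6 ≤ u4) (b4 : u4 ≤ 6 + 1) (o1 : u1 ≤ u2) (o2 : u2 ≤ u3) (o3 : u3 ≤ u4) : Good u1 u2 u3 u4 ∨ Good2 u1 u2 u3 u4 :=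
  good_crude zk_1 zk_1 zk_5 zk_6 (hk_1 a1 b1) (hk_1 a2 b2) (hk_5 a3 b3) (hk_6 a4 b4) (spread_one a1 b1 a2 b2 a3 b3 a4 b4) (by linarith only [b1, a4])

theorem g_1_1_5_7 (u1 u2 u3 u4 : ℝ) (a1 : 1 ≤ u1) (b1 : u1 ≤ 1 + 1) (a2 : 1 ≤ u2) (b2 : u2 ≤ 1 + 1) (a3 : 5 ≤ u3) (b3 : u3 ≤ 5 + 1) (a4 : 7 ≤ u4) (b4 : u4 ≤ 7 + 1) (o1 : u1 ≤ u2) (o2 : u2 ≤ u3) (o3 : u3 ≤ u4) : Good u1 u2 u3 u4 ∨ Good2 u1 u2 u3 u4 :=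
  good_crude zk_1 zk_1 zk_5 zk_7 (hk_1 a1 b1) (hk_1 a2 b2) (hk_5 a3 b3) (hk_7 a4 b4) (spread_one a1 b1 a2 b2 a3 b3 a4 b4) (by linarith only [b1])

theorem g_1_1_6_6 (u1 u2 u3 u4 : ℝ) (a1 : 1 ≤ u1) (b1 : u1 ≤ 1 + 1) (a2 : 1 ≤ u2) (b2 : u2 ≤ 1 + 1) (a3 : 6 ≤ u3) (b3 : u3 ≤ 6 + 1) (a4 : 6 ≤ u4) (b4 : u4 ≤ 6 + 1) (o1 : u1 ≤ u2) (o2 : u2 ≤ u3) (o3 : u3 ≤ u4) : Good u1 u2 u3 u4 ∨ Good2 u1 u2 u3 u4 :=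
  good_crude zk_1 zk_1 zk_6 zk_6 (hk_1 a1 b1) (hk_1 a2 b2) (hk_6 a3 b3) (hk_6 a4 b4) (spread_one a1 b1 a2 b2 a3 b3 a4 b4) (by linarith only [b1, a4])

theorem g_1_1_6_7 (u1 u2 u3 u4 : ℝ) (a1 : 1 ≤ u1) (b1 : u1 ≤ 1 + 1) (a2 : 1 ≤ u2) (b2 : u2 ≤ 1 + 1) (a3 : 6 ≤ u3) (b3 : u3 ≤ 6 + 1) (a4 : 7 ≤ u4) (b4 : u4 ≤ 7 + 1) (o1 : u1 ≤ u2) (o2 : u2 ≤ u3) (o3 : u3 ≤ u4) : Good u1 u2 u3 u4 ∨ Good2 u1 u2 u3 u4 :=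
  good_crude zk_1 zk_1 zk_6 zk_7 (hk_1 a1 b1) (hk_1 a2 b2) (hk_6 a3 b3) (hk_7 a4 b4) (spread_one a1 b1 a2 b2 a3 b3 a4 b4) (by linarith only [b1])

theorem g_1_1_7_7 (u1 u2 u3 u4 : ℝ) (a1 : 1 ≤ u1) (b1 : u1 ≤ 1 + 1) (a2 : 1 ≤ u2) (b2 : u2 ≤ 1 + 1) (a3 : 7 ≤ u3) (b3 : u3 ≤ 7 + 1) (a4 : 7 ≤ u4) (b4 : u4 ≤ 7 + 1) (o1 : u1 ≤ u2) (o2 : u2 ≤ u3) (o3 : u3 ≤ u4) : Good u1 u2 u3 u4 ∨ Good2 u1 u2 u3 u4 :=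
  good_crude zk_1 zk_1 zk_7 zk_7 (hk_1 a1 b1) (hk_1 a2 b2) (hk_7 a3 b3) (hk_7 a4 b4) (spread_one a1 b1 a2 b2 a3 b3 a4 b4) (by linarith only [b1, b3])

theorem g_1_2_2_5 (u1 u2 u3 u4 : ℝ) (a1 : 1 ≤ u1) (b1 : u1 ≤ 1 + 1) (a2 : 2 ≤ u2) (b2 : u2 ≤ 2 + 1) (a3 : 2 ≤ u3) (b3 : u3 ≤ 2 + 1) (a4 : 5 ≤ u4) (b4 : u4 ≤ 5 + 1) (o1 : u1 ≤ u2) (o2 : u2 ≤ u3) (o3 : u3 ≤ u4) : Good u1 u2 u3 u4 ∨ Good2 u1 u2 u3 u4 :=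
  good_crude zk_1 zk_2 zk_2 zk_5 (hk_1 a1 b1) (hk_2 a2 b2) (hk_2 a3 b3) (hk_5 a4 b4) (spread_one a1 b1 a2 b2 a3 b3 a4 b4) (by linarith only [b1, a4])

theorem g_1_2_2_6 (u1 u2 u3 u4 : ℝ) (a1 : 1 ≤ u1) (b1 : u1 ≤ 1 + 1) (a2 : 2 ≤ u2) (b2 : u2 ≤ 2 + 1) (a3 : 2 ≤ u3) (b3 : u3 ≤ 2 + 1) (a4 : 6 ≤ u4) (b4 : u4 ≤ 6 + 1) (o1 : u1 ≤ u2) (o2 : u2 ≤ u3) (o3 : u3 ≤ u4) : Good u1 u2 u3 u4 ∨ Good2 u1 u2 u3 u4 :=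
  good_crude zk_1 zk_2 zk_2 zk_6 (hk_1 a1 b1) (hk_2 a2 b2) (hk_2 a3 b3) (hk_6 a4 b4) (spread_one a1 b1 a2 b2 a3 b3 a4 b4) (by linarith only [b1, a4])

theorem g_1_2_2_7 (u1 u2 u3 u4 : ℝ) (a1 : 1 ≤ u1) (b1 : u1 ≤ 1 + 1) (a2 : 2 ≤ u2) (b2 : u2 ≤ 2 + 1) (a3 : 2 ≤ u3) (b3 : u3 ≤ 2 + 1) (a4 : 7 ≤ u4) (b4 : u4 ≤ 7 + 1) (o1 : u1 ≤ u2) (o2 : u2 ≤ u3) (o3 : u3 ≤ u4) : Good u1 u2 u3 u4 ∨ Good2 u1 u2 u3 u4 :=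
  good_crude zk_1 zk_2 zk_2 zk_7 (hk_1 a1 b1) (hk_2 a2 b2) (hk_2 a3 b3) (hk_7 a4 b4) (spread_one a1 b1 a2 b2 a3 b3 a4 b4) (by linarith only [b1])

theorem g_1_2_3_5 (u1 u2 u3 u4 : ℝ) (a1 : 1 ≤ u1) (b1 : u1 ≤ 1 + 1) (a2 : 2 ≤ u2) (b2 : u2 ≤ 2 + 1) (a3 : 3 ≤ u3) (b3 : u3 ≤ 3 + 1) (a4 : 5 ≤ u4) (b4 : u4 ≤ 5 + 1) (o1 : u1 ≤ u2) (o2 : u2 ≤ u3) (o3 : u3 ≤ u4) : Good u1 u2 u3 u4 ∨ Good2 u1 u2 u3 u4 :=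
  good_crude zk_1 zk_2 zk_3 zk_5 (hk_1 a1 b1) (hk_2 a2 b2) (hk_3 a3 b3) (hk_5 a4 b4) (spread_one a1 b1 a2 b2 a3 b3 a4 b4) (by linarith only [b1, b3, a4])

theorem g_1_2_3_6 (u1 u2 u3 u4 : ℝ) (a1 : 1 ≤ u1) (b1 : u1 ≤ 1 + 1) (a2 : 2 ≤ u2) (b2 : u2 ≤ 2 + 1) (a3 : 3 ≤ u3) (b3 : u3 ≤ 3 + 1) (a4 : 6 ≤ u4) (b4 : u4 ≤ 6 + 1) (o1 : u1 ≤ u2) (o2 : u2 ≤ u3) (o3 : u3 ≤ u4) : Good u1 u2 u3 u4 ∨ Good2 u1 u2 u3 u4 :=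
  good_crude zk_1 zk_2 zk_3 zk_6 (hk_1 a1 b1) (hk_2 a2 b2) (hk_3 a3 b3) (hk_6 a4 b4) (spread_one a1 b1 a2 b2 a3 b3 a4 b4) (by linarith only [b1, b3, a4])

theorem g_1_2_3_7 (u1 u2 u3 u4 : ℝ) (a1 : 1 ≤ u1) (b1 : u1 ≤ 1 + 1) (a2 : 2 ≤ u2) (b2 : u2 ≤ 2 + 1) (a3 : 3 ≤ u3) (b3 : u3 ≤ 3 + 1) (a4 : 7 ≤ u4) (b4 : u4 ≤ 7 + 1) (o1 : u1 ≤ u2) (o2 : u2 ≤ u3) (o3 : u3 ≤ u4) : Good u1 u2 u3 u4 ∨ Good2 u1 u2 u3 u4 :=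
  good_crude zk_1 zk_2 zk_3 zk_7 (hk_1 a1 b1) (hk_2 a2 b2) (hk_3 a3 b3) (hk_7 a4 b4) (spread_one a1 b1 a2 b2 a3 b3 a4 b4) (by linarith only [b1, b3])

theorem g_1_2_4_5 (u1 u2 u3 u4 : ℝ) (a1 : 1 ≤ u1) (b1 : u1 ≤ 1 + 1) (a2 : 2 ≤ u2) (b2 : u2 ≤ 2 + 1) (a3 : 4 ≤ u3) (b3 : u3 ≤ 4 + 1) (a4 : 5 ≤ u4) (b4 : u4 ≤ 5 + 1) (o1 : u1 ≤ u2) (o2 : u2 ≤ u3) (o3 : u3 ≤ u4) : Good u1 u2 u3 u4 ∨ Good2 u1 u2 u3 u4 :=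
  good_crude zk_1 zk_2 zk_4 zk_5 (hk_1 a1 b1) (hk_2 a2 b2) (hk_4 a3 b3) (hk_5 a4 b4) (spread_one a1 b1 a2 b2 a3 b3 a4 b4) (by linarith only [b1, a3, a4])

theorem g_1_2_4_6 (u1 u2 u3 u4 : ℝ) (a1 : 1 ≤ u1) (b1 : u1 ≤ 1 + 1) (a2 : 2 ≤ u2) (b2 : u2 ≤ 2 + 1) (a3 : 4 ≤ u3) (b3 : u3 ≤ 4 + 1) (a4 : 6 ≤ u4) (b4 : u4 ≤ 6 + 1) (o1 : u1 ≤ u2) (o2 : u2 ≤ u3) (o3 : u3 ≤ u4) : Good u1 u2 u3 u4 ∨ Good2 u1 u2 u3 u4 :=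
  good_crude zk_1 zk_2 zk_4 zk_6 (hk_1 a1 b1) (hk_2 a2 b2) (hk_4 a3 b3) (hk_6 a4 b4) (spread_one a1 b1 a2 b2 a3 b3 a4 b4) (by linarith only [b1, a3, a4])

theorem g_1_2_4_7 (u1 u2 u3 u4 : ℝ) (a1 : 1 ≤ u1) (b1 : u1 ≤ 1 + 1) (a2 : 2 ≤ u2) (b2 : u2 ≤ 2 + 1) (a3 : 4 ≤ u3) (b3 : u3 ≤ 4 + 1) (a4 : 7 ≤ u4) (b4 : u4 ≤ 7 + 1) (o1 : u1 ≤ u2) (o2 : u2 ≤ u3) (o3 : u3 ≤ u4) : Good u1 u2 u3 u4 ∨ Good2 u1 u2 u3 u4 :=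
  good_crude zk_1 zk_2 zk_4 zk_7 (hk_1 a1 b1) (hk_2 a2 b2) (hk_4 a3 b3) (hk_7 a4 b4) (spread_one a1 b1 a2 b2 a3 b3 a4 b4) (by linarith only [b1, a3])

theorem g_1_2_5_5 (u1 u2 u3 u4 : ℝ) (a1 : 1 ≤ u1) (b1 : u1 ≤ 1 + 1) (a2 : 2 ≤ u2) (b2 : u2 ≤ 2 + 1) (a3 : 5 ≤ u3) (b3 : u3 ≤ 5 + 1) (a4 : 5 ≤ u4) (b4 : u4 ≤ 5 + 1) (o1 : u1 ≤ u2) (o2 : u2 ≤ u3) (o3 : u3 ≤ u4) : Good u1 u2 u3 u4 ∨ Good2 u1 u2 u3 u4 :=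
  good_crude zk_1 zk_2 zk_5 zk_5 (hk_1 a1 b1) (hk_2 a2 b2) (hk_5 a3 b3) (hk_5 a4 b4) (spread_one a1 b1 a2 b2 a3 b3 a4 b4) (by linarith only [b1, a4])

theorem g_1_2_5_6 (u1 u2 u3 u4 : ℝ) (a1 : 1 ≤ u1) (b1 : u1 ≤ 1 + 1) (a2 : 2 ≤ u2) (b2 : u2 ≤ 2 + 1) (a3 : 5 ≤ u3) (b3 : u3 ≤ 5 + 1) (a4 : 6 ≤ u4) (b4 : u4 ≤ 6 + 1) (o1 : u1 ≤ u2) (o2 : u2 ≤ u3) (o3 : u3 ≤ u4) : Good u1 u2 u3 u4 ∨ Good2 u1 u2 u3 u4 :=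
  good_crude zk_1 zk_2 zk_5 zk_6 (hk_1 a1 b1) (hk_2 a2 b2) (hk_5 a3 b3) (hk_6 a4 b4) (spread_one a1 b1 a2 b2 a3 b3 a4 b4) (by linarith only [b1, a4])

theorem g_1_2_5_7 (u1 u2 u3 u4 : ℝ) (a1 : 1 ≤ u1) (b1 : u1 ≤ 1 + 1) (a2 : 2 ≤ u2) (b2 : u2 ≤ 2 + 1) (a3 : 5 ≤ u3) (b3 : u3 ≤ 5 + 1) (a4 : 7 ≤ u4) (b4 : u4 ≤ 7 + 1) (o1 : u1 ≤ u2) (o2 : u2 ≤ u3) (o3 : u3 ≤ u4) : Good u1 u2 u3 u4 ∨ Good2 u1 u2 u3 u4 :=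
  good_crude zk_1 zk_2 zk_5 zk_7 (hk_1 a1 b1) (hk_2 a2 b2) (hk_5 a3 b3) (hk_7 a4 b4) (spread_one a1 b1 a2 b2 a3 b3 a4 b4) (by linarith only [b1])

theorem g_1_2_6_6 (u1 u2 u3 u4 : ℝ) (a1 : 1 ≤ u1) (b1 : u1 ≤ 1 + 1) (a2 : 2 ≤ u2) (b2 : u2 ≤ 2 + 1) (a3 : 6 ≤ u3) (b3 : u3 ≤ 6 + 1) (a4 : 6 ≤ u4) (b4 : u4 ≤ 6 + 1) (o1 : u1 ≤ u2) (o2 : u2 ≤ u3) (o3 : u3 ≤ u4) : Good u1 u2 u3 u4 ∨ Good2 u1 u2 u3 u4 :=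
  good_crude zk_1 zk_2 zk_6 zk_6 (hk_1 a1 b1) (hk_2 a2 b2) (hk_6 a3 b3) (hk_6 a4 b4) (spread_one a1 b1 a2 b2 a3 b3 a4 b4) (by linarith only [b1, a4])

theorem g_1_2_6_7 (u1 u2 u3 u4 : ℝ) (a1 : 1 ≤ u1) (b1 : u1 ≤ 1 + 1) (a2 : 2 ≤ u2) (b2 : u2 ≤ 2 + 1) (a3 : 6 ≤ u3) (b3 : u3 ≤ 6 + 1) (a4 : 7 ≤ u4) (b4 : u4 ≤ 7 + 1) (o1 : u1 ≤ u2) (o2 : u2 ≤ u3) (o3 : u3 ≤ u4) : Good u1 u2 u3 u4 ∨ Good2 u1 u2 u3 u4 :=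
  good_crude zk_1 zk_2 zk_6 zk_7 (hk_1 a1 b1) (hk_2 a2 b2) (hk_6 a3 b3) (hk_7 a4 b4) (spread_one a1 b1 a2 b2 a3 b3 a4 b4) (by linarith only [b1])

theorem g_1_2_7_7 (u1 u2 u3 u4 : ℝ) (a1 : 1 ≤ u1) (b1 : u1 ≤ 1 + 1) (a2 : 2 ≤ u2) (b2 : u2 ≤ 2 + 1) (a3 : 7 ≤ u3) (b3 : u3 ≤ 7 + 1) (a4 : 7 ≤ u4) (b4 : u4 ≤ 7 + 1) (o1 : u1 ≤ u2) (o2 : u2 ≤ u3) (o3 : u3 ≤ u4) : Good u1 u2 u3 u4 ∨ Good2 u1 u2 u3 u4 :=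
  good_crude zk_1 zk_2 zk_7 zk_7 (hk_1 a1 b1) (hk_2 a2 b2) (hk_7 a3 b3) (hk_7 a4 b4) (spread_one a1 b1 a2 b2 a3 b3 a4 b4) (by linarith only [b1, b3])

theorem g_1_3_3_6 (u1 u2 u3 u4 : ℝ) (a1 : 1 ≤ u1) (b1 : u1 ≤ 1 + 1) (a2 : 3 ≤ u2) (b2 : u2 ≤ 3 + 1) (a3 : 3 ≤ u3) (b3 : u3 ≤ 3 + 1) (a4 : 6 ≤ u4) (b4 : u4 ≤ 6 + 1) (o1 : u1 ≤ u2) (o2 : u2 ≤ u3) (o3 : u3 ≤ u4) : Good u1 u2 u3 u4 ∨ Good2 u1 u2 u3 u4 :=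
  good_crude zk_1 zk_3 zk_3 zk_6 (hk_1 a1 b1) (hk_3 a2 b2) (hk_3 a3 b3) (hk_6 a4 b4) (spread_one a1 b1 a2 b2 a3 b3 a4 b4) (by linarith only [b1, b2, b3, a4])

theorem g_1_3_3_7 (u1 u2 u3 u4 : ℝ) (a1 : 1 ≤ u1) (b1 : u1 ≤ 1 + 1) (a2 : 3 ≤ u2) (b2 : u2 ≤ 3 + 1) (a3 : 3 ≤ u3) (b3 : u3 ≤ 3 + 1) (a4 : 7 ≤ u4) (b4 : u4 ≤ 7 + 1) (o1 : u1 ≤ u2) (o2 : u2 ≤ u3) (o3 : u3 ≤ u4) : Good u1 u2 u3 u4 ∨ Good2 u1 u2 u3 u4 :=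
  good_crude zk_1 zk_3 zk_3 zk_7 (hk_1 a1 b1) (hk_3 a2 b2) (hk_3 a3 b3) (hk_7 a4 b4) (spread_one a1 b1 a2 b2 a3 b3 a4 b4) (by linarith only [b1, b2, b3])

theorem g_1_3_4_6 (u1 u2 u3 u4 : ℝ) (a1 : 1 ≤ u1) (b1 : u1 ≤ 1 + 1) (a2 : 3 ≤ u2) (b2 : u2 ≤ 3 + 1) (a3 : 4 ≤ u3) (b3 : u3 ≤ 4 + 1) (a4 : 6 ≤ u4) (b4 : u4 ≤ 6 + 1) (o1 : u1 ≤ u2) (o2 : u2 ≤ u3) (o3 : u3 ≤ u4) : Good u1 u2 u3 u4 ∨ Good2 u1 u2 u3 u4 :=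
  good_crude zk_1 zk_3 zk_4 zk_6 (hk_1 a1 b1) (hk_3 a2 b2) (hk_4 a3 b3) (hk_6 a4 b4) (spread_one a1 b1 a2 b2 a3 b3 a4 b4) (by linarith only [b1, a4, o2])

theorem g_1_3_4_7 (u1 u2 u3 u4 : ℝ) (a1 : 1 ≤ u1) (b1 : u1 ≤ 1 + 1) (a2 : 3 ≤ u2) (b2 : u2 ≤ 3 + 1) (a3 : 4 ≤ u3) (b3 : u3 ≤ 4 + 1) (a4 : 7 ≤ u4) (b4 : u4 ≤ 7 + 1) (o1 : u1 ≤ u2) (o2 : u2 ≤ u3) (o3 : u3 ≤ u4) : Good u1 u2 u3 u4 ∨ Good2 u1 u2 u3 u4 :=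
  good_crude zk_1 zk_3 zk_4 zk_7 (hk_1 a1 b1) (hk_3 a2 b2) (hk_4 a3 b3) (hk_7 a4 b4) (spread_one a1 b1 a2 b2 a3 b3 a4 b4) (by linarith only [b1, o2])

theorem g_1_3_5_5 (u1 u2 u3 u4 : ℝ) (a1 : 1 ≤ u1) (b1 : u1 ≤ 1 + 1) (a2 : 3 ≤ u2) (b2 : u2 ≤ 3 + 1) (a3 : 5 ≤ u3) (b3 : u3 ≤ 5 + 1) (a4 : 5 ≤ u4) (b4 : u4 ≤ 5 + 1) (o1 : u1 ≤ u2) (o2 : u2 ≤ u3) (o3 : u3 ≤ u4) : Good u1 u2 u3 u4 ∨ Good2 u1 u2 u3 u4 :=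
  good_crude zk_1 zk_3 zk_5 zk_5 (hk_1 a1 b1) (hk_3 a2 b2) (hk_5 a3 b3) (hk_5 a4 b4) (spread_one a1 b1 a2 b2 a3 b3 a4 b4) (by linarith only [b1, b2, a4])

theorem g_1_3_5_6 (u1 u2 u3 u4 : ℝ) (a1 : 1 ≤ u1) (b1 : u1 ≤ 1 + 1) (a2 : 3 ≤ u2) (b2 : u2 ≤ 3 + 1) (a3 : 5 ≤ u3) (b3 : u3 ≤ 5 + 1) (a4 : 6 ≤ u4) (b4 : u4 ≤ 6 + 1) (o1 : u1 ≤ u2) (o2 : u2 ≤ u3) (o3 : u3 ≤ u4) : Good u1 u2 u3 u4 ∨ Good2 u1 u2 u3 u4 :=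
  good_crude zk_1 zk_3 zk_5 zk_6 (hk_1 a1 b1) (hk_3 a2 b2) (hk_5 a3 b3) (hk_6 a4 b4) (spread_one a1 b1 a2 b2 a3 b3 a4 b4) (by linarith only [b1, b2, a4])

theorem g_1_3_5_7 (u1 u2 u3 u4 : ℝ) (a1 : 1 ≤ u1) (b1 : u1 ≤ 1 + 1) (a2 : 3 ≤ u2) (b2 : u2 ≤ 3 + 1) (a3 : 5 ≤ u3) (b3 : u3 ≤ 5 + 1) (a4 : 7 ≤ u4) (b4 : u4 ≤ 7 + 1) (o1 : u1 ≤ u2) (o2 : u2 ≤ u3) (o3 : u3 ≤ u4) : Good u1 u2 u3 u4 ∨ Good2 u1 u2 u3 u4 :=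
  good_crude zk_1 zk_3 zk_5 zk_7 (hk_1 a1 b1) (hk_3 a2 b2) (hk_5 a3 b3) (hk_7 a4 b4) (spread_one a1 b1 a2 b2 a3 b3 a4 b4) (by linarith only [b1, b2])

theorem g_1_3_6_6 (u1 u2 u3 u4 : ℝ) (a1 : 1 ≤ u1) (b1 : u1 ≤ 1 + 1) (a2 : 3 ≤ u2) (b2 : u2 ≤ 3 + 1) (a3 : 6 ≤ u3) (b3 : u3 ≤ 6 + 1) (a4 : 6 ≤ u4) (b4 : u4 ≤ 6 + 1) (o1 : u1 ≤ u2) (o2 : u2 ≤ u3) (o3 : u3 ≤ u4) : Good u1 u2 u3 u4 ∨ Good2 u1 u2 u3 u4 :=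
  good_crude zk_1 zk_3 zk_6 zk_6 (hk_1 a1 b1) (hk_3 a2 b2) (hk_6 a3 b3) (hk_6 a4 b4) (spread_one a1 b1 a2 b2 a3 b3 a4 b4) (by linarith only [b1, b2, a4])

theorem g_1_3_6_7 (u1 u2 u3 u4 : ℝ) (a1 : 1 ≤ u1) (b1 : u1 ≤ 1 + 1) (a2 : 3 ≤ u2) (b2 : u2 ≤ 3 + 1) (a3 : 6 ≤ u3) (b3 : u3 ≤ 6 + 1) (a4 : 7 ≤ u4) (b4 : u4 ≤ 7 + 1) (o1 : u1 ≤ u2) (o2 : u2 ≤ u3) (o3 : u3 ≤ u4) : Good u1 u2 u3 u4 ∨ Good2 u1 u2 u3 u4 :=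
  good_crude zk_1 zk_3 zk_6 zk_7 (hk_1 a1 b1) (hk_3 a2 b2) (hk_6 a3 b3) (hk_7 a4 b4) (spread_one a1 b1 a2 b2 a3 b3 a4 b4) (by linarith only [b1, b2])

theorem g_1_3_7_7 (u1 u2 u3 u4 : ℝ) (a1 : 1 ≤ u1) (b1 : u1 ≤ 1 + 1) (a2 : 3 ≤ u2) (b2 : u2 ≤ 3 + 1) (a3 : 7 ≤ u3) (b3 : u3 ≤ 7 + 1) (a4 : 7 ≤ u4) (b4 : u4 ≤ 7 + 1) (o1 : u1 ≤ u2) (o2 : u2 ≤ u3) (o3 : u3 ≤ u4) : Good u1 u2 u3 u4 ∨ Good2 u1 u2 u3 u4 :=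
  good_crude zk_1 zk_3 zk_7 zk_7 (hk_1 a1 b1) (hk_3 a2 b2) (hk_7 a3 b3) (hk_7 a4 b4) (spread_one a1 b1 a2 b2 a3 b3 a4 b4) (by linarith only [b1, b2, b3])

theorem g_1_4_4_6 (u1 u2 u3 u4 : ℝ) (a1 : 1 ≤ u1) (b1 : u1 ≤ 1 + 1) (a2 : 4 ≤ u2) (b2 : u2 ≤ 4 + 1) (a3 : 4 ≤ u3) (b3 : u3 ≤ 4 + 1) (a4 : 6 ≤ u4) (b4 : u4 ≤ 6 + 1) (o1 : u1 ≤ u2) (o2 : u2 ≤ u3) (o3 : u3 ≤ u4) : Good u1 u2 u3 u4 ∨ Good2 u1 u2 u3 u4 :=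
  good_crude zk_1 zk_4 zk_4 zk_6 (hk_1 a1 b1) (hk_4 a2 b2) (hk_4 a3 b3) (hk_6 a4 b4) (spread_one a1 b1 a2 b2 a3 b3 a4 b4) (by linarith only [b1, a2, a3, a4])

theorem g_1_4_4_7 (u1 u2 u3 u4 : ℝ) (a1 : 1 ≤ u1) (b1 : u1 ≤ 1 + 1) (a2 : 4 ≤ u2) (b2 : u2 ≤ 4 + 1) (a3 : 4 ≤ u3) (b3 : u3 ≤ 4 + 1) (a4 : 7 ≤ u4) (b4 : u4 ≤ 7 + 1) (o1 : u1 ≤ u2) (o2 : u2 ≤ u3) (o3 : u3 ≤ u4) : Good u1 u2 u3 u4 ∨ Good2 u1 u2 u3 u4 :=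
  good_crude zk_1 zk_4 zk_4 zk_7 (hk_1 a1 b1) (hk_4 a2 b2) (hk_4 a3 b3) (hk_7 a4 b4) (spread_one a1 b1 a2 b2 a3 b3 a4 b4) (by linarith only [b1, a2, a3])

theorem g_1_4_5_5 (u1 u2 u3 u4 : ℝ) (a1 : 1 ≤ u1) (b1 : u1 ≤ 1 + 1) (a2 : 4 ≤ u2) (b2 : u2 ≤ 4 + 1) (a3 : 5 ≤ u3) (b3 : u3 ≤ 5 + 1) (a4 : 5 ≤ u4) (b4 : u4 ≤ 5 + 1) (o1 : u1 ≤ u2) (o2 : u2 ≤ u3) (o3 : u3 ≤ u4) : Good u1 u2 u3 u4 ∨ Good2 u1 u2 u3 u4 :=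
  good_crude zk_1 zk_4 zk_5 zk_5 (hk_1 a1 b1) (hk_4 a2 b2) (hk_5 a3 b3) (hk_5 a4 b4) (spread_one a1 b1 a2 b2 a3 b3 a4 b4) (by linarith only [b1, a2, a4])

theorem g_1_4_5_6 (u1 u2 u3 u4 : ℝ) (a1 : 1 ≤ u1) (b1 : u1 ≤ 1 + 1) (a2 : 4 ≤ u2) (b2 : u2 ≤ 4 + 1) (a3 : 5 ≤ u3) (b3 : u3 ≤ 5 + 1) (a4 : 6 ≤ u4) (b4 : u4 ≤ 6 + 1) (o1 : u1 ≤ u2) (o2 : u2 ≤ u3) (o3 : u3 ≤ u4) : Good u1 u2 u3 u4 ∨ Good2 u1 u2 u3 u4 :=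
  good_crude zk_1 zk_4 zk_5 zk_6 (hk_1 a1 b1) (hk_4 a2 b2) (hk_5 a3 b3) (hk_6 a4 b4) (spread_one a1 b1 a2 b2 a3 b3 a4 b4) (by linarith only [b1, a2, a4])

theorem g_1_4_5_7 (u1 u2 u3 u4 : ℝ) (a1 : 1 ≤ u1) (b1 : u1 ≤ 1 + 1) (a2 : 4 ≤ u2) (b2 : u2 ≤ 4 + 1) (a3 : 5 ≤ u3) (b3 : u3 ≤ 5 + 1) (a4 : 7 ≤ u4) (b4 : u4 ≤ 7 + 1) (o1 : u1 ≤ u2) (o2 : u2 ≤ u3) (o3 : u3 ≤ u4) : Good u1 u2 u3 u4 ∨ Good2 u1 u2 u3 u4 :=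
  good_crude zk_1 zk_4 zk_5 zk_7 (hk_1 a1 b1) (hk_4 a2 b2) (hk_5 a3 b3) (hk_7 a4 b4) (spread_one a1 b1 a2 b2 a3 b3 a4 b4) (by linarith only [b1, a2])

theorem g_1_4_6_6 (u1 u2 u3 u4 : ℝ) (a1 : 1 ≤ u1) (b1 : u1 ≤ 1 + 1) (a2 : 4 ≤ u2) (b2 : u2 ≤ 4 + 1) (a3 : 6 ≤ u3) (b3 : u3 ≤ 6 + 1) (a4 : 6 ≤ u4) (b4 : u4 ≤ 6 + 1) (o1 : u1 ≤ u2) (o2 : u2 ≤ u3) (o3 : u3 ≤ u4) : Good u1 u2 u3 u4 ∨ Good2 u1 u2 u3 u4 :=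
  good_crude zk_1 zk_4 zk_6 zk_6 (hk_1 a1 b1) (hk_4 a2 b2) (hk_6 a3 b3) (hk_6 a4 b4) (spread_one a1 b1 a2 b2 a3 b3 a4 b4) (by linarith only [b1, a2, a4])

theorem g_1_4_6_7 (u1 u2 u3 u4 : ℝ) (a1 : 1 ≤ u1) (b1 : u1 ≤ 1 + 1) (a2 : 4 ≤ u2) (b2 : u2 ≤ 4 + 1) (a3 : 6 ≤ u3) (b3 : u3 ≤ 6 + 1) (a4 : 7 ≤ u4) (b4 : u4 ≤ 7 + 1) (o1 : u1 ≤ u2) (o2 : u2 ≤ u3) (o3 : u3 ≤ u4) : Good u1 u2 u3 u4 ∨ Good2 u1 u2 u3 u4 :=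
  good_crude zk_1 zk_4 zk_6 zk_7 (hk_1 a1 b1) (hk_4 a2 b2) (hk_6 a3 b3) (hk_7 a4 b4) (spread_one a1 b1 a2 b2 a3 b3 a4 b4) (by linarith only [b1, a2])

theorem g_1_4_7_7 (u1 u2 u3 u4 : ℝ) (a1 : 1 ≤ u1) (b1 : u1 ≤ 1 + 1) (a2 : 4 ≤ u2) (b2 : u2 ≤ 4 + 1) (a3 : 7 ≤ u3) (b3 : u3 ≤ 7 + 1) (a4 : 7 ≤ u4) (b4 : u4 ≤ 7 + 1) (o1 : u1 ≤ u2) (o2 : u2 ≤ u3) (o3 : u3 ≤ u4) : Good u1 u2 u3 u4 ∨ Good2 u1 u2 u3 u4 :=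
  good_crude zk_1 zk_4 zk_7 zk_7 (hk_1 a1 b1) (hk_4 a2 b2) (hk_7 a3 b3) (hk_7 a4 b4) (spread_one a1 b1 a2 b2 a3 b3 a4 b4) (by linarith only [b1, a2, b3])

theorem g_1_5_5_5 (u1 u2 u3 u4 : ℝ) (a1 : 1 ≤ u1) (b1 : u1 ≤ 1 + 1) (a2 : 5 ≤ u2) (b2 : u2 ≤ 5 + 1) (a3 : 5 ≤ u3) (b3 : u3 ≤ 5 + 1) (a4 : 5 ≤ u4) (b4 : u4 ≤ 5 + 1) (o1 : u1 ≤ u2) (o2 : u2 ≤ u3) (o3 : u3 ≤ u4) : Good u1 u2 u3 u4 ∨ Good2 u1 u2 u3 u4 :=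
  good_crude zk_1 zk_5 zk_5 zk_5 (hk_1 a1 b1) (hk_5 a2 b2) (hk_5 a3 b3) (hk_5 a4 b4) (spread_one a1 b1 a2 b2 a3 b3 a4 b4) (by linarith only [b1, a4])

theorem g_1_5_5_6 (u1 u2 u3 u4 : ℝ) (a1 : 1 ≤ u1) (b1 : u1 ≤ 1 + 1) (a2 : 5 ≤ u2) (b2 : u2 ≤ 5 + 1) (a3 : 5 ≤ u3) (b3 : u3 ≤ 5 + 1) (a4 : 6 ≤ u4) (b4 : u4 ≤ 6 + 1) (o1 : u1 ≤ u2) (o2 : u2 ≤ u3) (o3 : u3 ≤ u4) : Good u1 u2 u3 u4 ∨ Good2 u1 u2 u3 u4 :=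
  good_crude zk_1 zk_5 zk_5 zk_6 (hk_1 a1 b1) (hk_5 a2 b2) (hk_5 a3 b3) (hk_6 a4 b4) (spread_one a1 b1 a2 b2 a3 b3 a4 b4) (by linarith only [b1, a4])

theorem g_1_5_5_7 (u1 u2 u3 u4 : ℝ) (a1 : 1 ≤ u1) (b1 : u1 ≤ 1 + 1) (a2 : 5 ≤ u2) (b2 : u2 ≤ 5 + 1) (a3 : 5 ≤ u3) (b3 : u3 ≤ 5 + 1) (a4 : 7 ≤ u4) (b4 : u4 ≤ 7 + 1) (o1 : u1 ≤ u2) (o2 : u2 ≤ u3) (o3 : u3 ≤ u4) : Good u1 u2 u3 u4 ∨ Good2 u1 u2 u3 u4 :=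
  good_crude zk_1 zk_5 zk_5 zk_7 (hk_1 a1 b1) (hk_5 a2 b2) (hk_5 a3 b3) (hk_7 a4 b4) (spread_one a1 b1 a2 b2 a3 b3 a4 b4) (by linarith only [b1])

theorem g_1_5_6_6 (u1 u2 u3 u4 : ℝ) (a1 : 1 ≤ u1) (b1 : u1 ≤ 1 + 1) (a2 : 5 ≤ u2) (b2 : u2 ≤ 5 + 1) (a3 : 6 ≤ u3) (b3 : u3 ≤ 6 + 1) (a4 : 6 ≤ u4) (b4 : u4 ≤ 6 + 1) (o1 : u1 ≤ u2) (o2 : u2 ≤ u3) (o3 : u3 ≤ u4) : Good u1 u2 u3 u4 ∨ Good2 u1 u2 u3 u4 :=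
  good_crude zk_1 zk_5 zk_6 zk_6 (hk_1 a1 b1) (hk_5 a2 b2) (hk_6 a3 b3) (hk_6 a4 b4) (spread_one a1 b1 a2 b2 a3 b3 a4 b4) (by linarith only [b1, a4])

theorem g_1_5_6_7 (u1 u2 u3 u4 : ℝ) (a1 : 1 ≤ u1) (b1 : u1 ≤ 1 + 1) (a2 : 5 ≤ u2) (b2 : u2 ≤ 5 + 1) (a3 : 6 ≤ u3) (b3 : u3 ≤ 6 + 1) (a4 : 7 ≤ u4) (b4 : u4 ≤ 7 + 1) (o1 : u1 ≤ u2) (o2 : u2 ≤ u3) (o3 : u3 ≤ u4) : Good u1 u2 u3 u4 ∨ Good2 u1 u2 u3 u4 :=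
  good_crude zk_1 zk_5 zk_6 zk_7 (hk_1 a1 b1) (hk_5 a2 b2) (hk_6 a3 b3) (hk_7 a4 b4) (spread_one a1 b1 a2 b2 a3 b3 a4 b4) (by linarith only [b1])

theorem g_1_5_7_7 (u1 u2 u3 u4 : ℝ) (a1 : 1 ≤ u1) (b1 : u1 ≤ 1 + 1) (a2 : 5 ≤ u2) (b2 : u2 ≤ 5 + 1) (a3 : 7 ≤ u3) (b3 : u3 ≤ 7 + 1) (a4 : 7 ≤ u4) (b4 : u4 ≤ 7 + 1) (o1 : u1 ≤ u2) (o2 : u2 ≤ u3) (o3 : u3 ≤ u4) : Good u1 u2 u3 u4 ∨ Good2 u1 u2 u3 u4 :=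
  good_crude zk_1 zk_5 zk_7 zk_7 (hk_1 a1 b1) (hk_5 a2 b2) (hk_7 a3 b3) (hk_7 a4 b4) (spread_one a1 b1 a2 b2 a3 b3 a4 b4) (by linarith only [b1, b3])

theorem g_1_6_6_6 (u1 u2 u3 u4 : ℝ) (a1 : 1 ≤ u1) (b1 : u1 ≤ 1 + 1) (a2 : 6 ≤ u2) (b2 : u2 ≤ 6 + 1) (a3 : 6 ≤ u3) (b3 : u3 ≤ 6 + 1) (a4 : 6 ≤ u4) (b4 : u4 ≤ 6 + 1) (o1 : u1 ≤ u2) (o2 : u2 ≤ u3) (o3 : u3 ≤ u4) : Good u1 u2 u3 u4 ∨ Good2 u1 u2 u3 u4 :=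
  good_crude zk_1 zk_6 zk_6 zk_6 (hk_1 a1 b1) (hk_6 a2 b2) (hk_6 a3 b3) (hk_6 a4 b4) (spread_one a1 b1 a2 b2 a3 b3 a4 b4) (by linarith only [b1, a4])

theorem g_1_6_6_7 (u1 u2 u3 u4 : ℝ) (a1 : 1 ≤ u1) (b1 : u1 ≤ 1 + 1) (a2 : 6 ≤ u2) (b2 : u2 ≤ 6 + 1) (a3 : 6 ≤ u3) (b3 : u3 ≤ 6 + 1) (a4 : 7 ≤ u4) (b4 : u4 ≤ 7 + 1) (o1 : u1 ≤ u2) (o2 : u2 ≤ u3) (o3 : u3 ≤ u4) : Good u1 u2 u3 u4 ∨ Good2 u1 u2 u3 u4 :=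
  good_crude zk_1 zk_6 zk_6 zk_7 (hk_1 a1 b1) (hk_6 a2 b2) (hk_6 a3 b3) (hk_7 a4 b4) (spread_one a1 b1 a2 b2 a3 b3 a4 b4) (by linarith only [b1])

theorem g_1_6_7_7 (u1 u2 u3 u4 : ℝ) (a1 : 1 ≤ u1) (b1 : u1 ≤ 1 + 1) (a2 : 6 ≤ u2) (b2 : u2 ≤ 6 + 1) (a3 : 7 ≤ u3) (b3 : u3 ≤ 7 + 1) (a4 : 7 ≤ u4) (b4 : u4 ≤ 7 + 1) (o1 : u1 ≤ u2) (o2 : u2 ≤ u3) (o3 : u3 ≤ u4) : Good u1 u2 u3 u4 ∨ Good2 u1 u2 u3 u4 :=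
  good_crude zk_1 zk_6 zk_7 zk_7 (hk_1 a1 b1) (hk_6 a2 b2) (hk_7 a3 b3) (hk_7 a4 b4) (spread_one a1 b1 a2 b2 a3 b3 a4 b4) (by linarith only [b1, b3])

theorem g_1_7_7_7 (u1 u2 u3 u4 : ℝ) (a1 : 1 ≤ u1) (b1 : u1 ≤ 1 + 1) (a2 : 7 ≤ u2) (b2 : u2 ≤ 7 + 1) (a3 : 7 ≤ u3) (b3 : u3 ≤ 7 + 1) (a4 : 7 ≤ u4) (b4 : u4 ≤ 7 + 1) (o1 : u1 ≤ u2) (o2 : u2 ≤ u3) (o3 : u3 ≤ u4) : Good u1 u2 u3 u4 ∨ Good2 u1 u2 u3 u4 :=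
  good_crude zk_1 zk_7 zk_7 zk_7 (hk_1 a1 b1) (hk_7 a2 b2) (hk_7 a3 b3) (hk_7 a4 b4) (spread_one a1 b1 a2 b2 a3 b3 a4 b4) (by linarith only [b1, b2, b3])

theorem g_2_2_2_5 (u1 u2 u3 u4 : ℝ) (a1 : 2 ≤ u1) (b1 : u1 ≤ 2 + 1) (a2 : 2 ≤ u2) (b2 : u2 ≤ 2 + 1) (a3 : 2 ≤ u3) (b3 : u3 ≤ 2 + 1) (a4 : 5 ≤ u4) (b4 : u4 ≤ 5 + 1) (o1 : u1 ≤ u2) (o2 : u2 ≤ u3) (o3 : u3 ≤ u4) : Good u1 u2 u3 u4 ∨ Good2 u1 u2 u3 u4 :=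
  good_crude zk_2 zk_2 zk_2 zk_5 (hk_2 a1 b1) (hk_2 a2 b2) (hk_2 a3 b3) (hk_5 a4 b4) (spread_one a1 b1 a2 b2 a3 b3 a4 b4) (by linarith only [b1, a4])

theorem g_2_2_2_6 (u1 u2 u3 u4 : ℝ) (a1 : 2 ≤ u1) (b1 : u1 ≤ 2 + 1) (a2 : 2 ≤ u2) (b2 : u2 ≤ 2 + 1) (a3 : 2 ≤ u3) (b3 : u3 ≤ 2 + 1) (a4 : 6 ≤ u4) (b4 : u4 ≤ 6 + 1) (o1 : u1 ≤ u2) (o2 : u2 ≤ u3) (o3 : u3 ≤ u4) : Good u1 u2 u3 u4 ∨ Good2 u1 u2 u3 u4 :=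
  good_crude zk_2 zk_2 zk_2 zk_6 (hk_2 a1 b1) (hk_2 a2 b2) (hk_2 a3 b3) (hk_6 a4 b4) (spread_one a1 b1 a2 b2 a3 b3 a4 b4) (by linarith only [b1, a4])

theorem g_2_2_2_7 (u1 u2 u3 u4 : ℝ) (a1 : 2 ≤ u1) (b1 : u1 ≤ 2 + 1) (a2 : 2 ≤ u2) (b2 : u2 ≤ 2 + 1) (a3 : 2 ≤ u3) (b3 : u3 ≤ 2 + 1) (a4 : 7 ≤ u4) (b4 : u4 ≤ 7 + 1) (o1 : u1 ≤ u2) (o2 : u2 ≤ u3) (o3 : u3 ≤ u4) : Good u1 u2 u3 u4 ∨ Good2 u1 u2 u3 u4 :=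
  good_crude zk_2 zk_2 zk_2 zk_7 (hk_2 a1 b1) (hk_2 a2 b2) (hk_2 a3 b3) (hk_7 a4 b4) (spread_one a1 b1 a2 b2 a3 b3 a4 b4) (by linarith only [b1])

theorem g_2_2_2_8 (u1 u2 u3 u4 : ℝ) (a1 : 2 ≤ u1) (b1 : u1 ≤ 2 + 1) (a2 : 2 ≤ u2) (b2 : u2 ≤ 2 + 1) (a3 : 2 ≤ u3) (b3 : u3 ≤ 2 + 1) (a4 : 8 ≤ u4) (b4 : u4 ≤ 8 + 1) (o1 : u1 ≤ u2) (o2 : u2 ≤ u3) (o3 : u3 ≤ u4) : Good u1 u2 u3 u4 ∨ Good2 u1 u2 u3 u4 :=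
  good_crude zk_2 zk_2 zk_2 zk_8 (hk_2 a1 b1) (hk_2 a2 b2) (hk_2 a3 b3) (hk_8 a4 b4) (spread_one a1 b1 a2 b2 a3 b3 a4 b4) (by linarith only [b1, a4])

theorem g_2_2_3_6 (u1 u2 u3 u4 : ℝ) (a1 : 2 ≤ u1) (b1 : u1 ≤ 2 + 1) (a2 : 2 ≤ u2) (b2 : u2 ≤ 2 + 1) (a3 : 3 ≤ u3) (b3 : u3 ≤ 3 + 1) (a4 : 6 ≤ u4) (b4 : u4 ≤ 6 + 1) (o1 : u1 ≤ u2) (o2 : u2 ≤ u3) (o3 : u3 ≤ u4) : Good u1 u2 u3 u4 ∨ Good2 u1 u2 u3 u4 :=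
  good_crude zk_2 zk_2 zk_3 zk_6 (hk_2 a1 b1) (hk_2 a2 b2) (hk_3 a3 b3) (hk_6 a4 b4) (spread_one a1 b1 a2 b2 a3 b3 a4 b4) (by linarith only [b1, b3, a4])

theorem g_2_2_3_7 (u1 u2 u3 u4 : ℝ) (a1 : 2 ≤ u1) (b1 : u1 ≤ 2 + 1) (a2 : 2 ≤ u2) (b2 : u2 ≤ 2 + 1) (a3 : 3 ≤ u3) (b3 : u3 ≤ 3 + 1) (a4 : 7 ≤ u4) (b4 : u4 ≤ 7 + 1) (o1 : u1 ≤ u2) (o2 : u2 ≤ u3) (o3 : u3 ≤ u4) : Good u1 u2 u3 u4 ∨ Good2 u1 u2 u3 u4 :=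
  good_crude zk_2 zk_2 zk_3 zk_7 (hk_2 a1 b1) (hk_2 a2 b2) (hk_3 a3 b3) (hk_7 a4 b4) (spread_one a1 b1 a2 b2 a3 b3 a4 b4) (by linarith only [b1, b3])

theorem g_2_2_3_8 (u1 u2 u3 u4 : ℝ) (a1 : 2 ≤ u1) (b1 : u1 ≤ 2 + 1) (a2 : 2 ≤ u2) (b2 : u2 ≤ 2 + 1) (a3 : 3 ≤ u3) (b3 : u3 ≤ 3 + 1) (a4 : 8 ≤ u4) (b4 : u4 ≤ 8 + 1) (o1 : u1 ≤ u2) (o2 : u2 ≤ u3) (o3 : u3 ≤ u4) : Good u1 u2 u3 u4 ∨ Good2 u1 u2 u3 u4 :=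
  good_crude zk_2 zk_2 zk_3 zk_8 (hk_2 a1 b1) (hk_2 a2 b2) (hk_3 a3 b3) (hk_8 a4 b4) (spread_one a1 b1 a2 b2 a3 b3 a4 b4) (by linarith only [b1, b3, a4])

theorem g_2_2_4_6 (u1 u2 u3 u4 : ℝ) (a1 : 2 ≤ u1) (b1 : u1 ≤ 2 + 1) (a2 : 2 ≤ u2) (b2 : u2 ≤ 2 + 1) (a3 : 4 ≤ u3) (b3 : u3 ≤ 4 + 1) (a4 : 6 ≤ u4) (b4 : u4 ≤ 6 + 1) (o1 : u1 ≤ u2) (o2 : u2 ≤ u3) (o3 : u3 ≤ u4) : Good u1 u2 u3 u4 ∨ Good2 u1 u2 u3 u4 :=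
  good_crude zk_2 zk_2 zk_4 zk_6 (hk_2 a1 b1) (hk_2 a2 b2) (hk_4 a3 b3) (hk_6 a4 b4) (spread_one a1 b1 a2 b2 a3 b3 a4 b4) (by linarith only [b1, a3, a4])

theorem g_2_2_4_7 (u1 u2 u3 u4 : ℝ) (a1 : 2 ≤ u1) (b1 : u1 ≤ 2 + 1) (a2 : 2 ≤ u2) (b2 : u2 ≤ 2 + 1) (a3 : 4 ≤ u3) (b3 : u3 ≤ 4 + 1) (a4 : 7 ≤ u4) (b4 : u4 ≤ 7 + 1) (o1 : u1 ≤ u2) (o2 : u2 ≤ u3) (o3 : u3 ≤ u4) : Good u1 u2 u3 u4 ∨ Good2 u1 u2 u3 u4 :=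
  good_crude zk_2 zk_2 zk_4 zk_7 (hk_2 a1 b1) (hk_2 a2 b2) (hk_4 a3 b3) (hk_7 a4 b4) (spread_one a1 b1 a2 b2 a3 b3 a4 b4) (by linarith only [b1, a3])

theorem g_2_2_4_8 (u1 u2 u3 u4 : ℝ) (a1 : 2 ≤ u1) (b1 : u1 ≤ 2 + 1) (a2 : 2 ≤ u2) (b2 : u2 ≤ 2 + 1) (a3 : 4 ≤ u3) (b3 : u3 ≤ 4 + 1) (a4 : 8 ≤ u4) (b4 : u4 ≤ 8 + 1) (o1 : u1 ≤ u2) (o2 : u2 ≤ u3) (o3 : u3 ≤ u4) : Good u1 u2 u3 u4 ∨ Good2 u1 u2 u3 u4 :=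
  good_crude zk_2 zk_2 zk_4 zk_8 (hk_2 a1 b1) (hk_2 a2 b2) (hk_4 a3 b3) (hk_8 a4 b4) (spread_one a1 b1 a2 b2 a3 b3 a4 b4) (by linarith only [b1, a3, a4])

theorem g_2_2_5_5 (u1 u2 u3 u4 : ℝ) (a1 : 2 ≤ u1) (b1 : u1 ≤ 2 + 1) (a2 : 2 ≤ u2) (b2 : u2 ≤ 2 + 1) (a3 : 5 ≤ u3) (b3 : u3 ≤ 5 + 1) (a4 : 5 ≤ u4) (b4 : u4 ≤ 5 + 1) (o1 : u1 ≤ u2) (o2 : u2 ≤ u3) (o3 : u3 ≤ u4) : Good u1 u2 u3 u4 ∨ Good2 u1 u2 u3 u4 :=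
  good_crude zk_2 zk_2 zk_5 zk_5 (hk_2 a1 b1) (hk_2 a2 b2) (hk_5 a3 b3) (hk_5 a4 b4) (spread_one a1 b1 a2 b2 a3 b3 a4 b4) (by linarith only [b1, a4])

theorem g_2_2_5_6 (u1 u2 u3 u4 : ℝ) (a1 : 2 ≤ u1) (b1 : u1 ≤ 2 + 1) (a2 : 2 ≤ u2) (b2 : u2 ≤ 2 + 1) (a3 : 5 ≤ u3) (b3 : u3 ≤ 5 + 1) (a4 : 6 ≤ u4) (b4 : u4 ≤ 6 + 1) (o1 : u1 ≤ u2) (o2 : u2 ≤ u3) (o3 : u3 ≤ u4) : Good u1 u2 u3 u4 ∨ Good2 u1 u2 u3 u4 :=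
  good_crude zk_2 zk_2 zk_5 zk_6 (hk_2 a1 b1) (hk_2 a2 b2) (hk_5 a3 b3) (hk_6 a4 b4) (spread_one a1 b1 a2 b2 a3 b3 a4 b4) (by linarith only [b1, a4])

theorem g_2_2_5_7 (u1 u2 u3 u4 : ℝ) (a1 : 2 ≤ u1) (b1 : u1 ≤ 2 + 1) (a2 : 2 ≤ u2) (b2 : u2 ≤ 2 + 1) (a3 : 5 ≤ u3) (b3 : u3 ≤ 5 + 1) (a4 : 7 ≤ u4) (b4 : u4 ≤ 7 + 1) (o1 : u1 ≤ u2) (o2 : u2 ≤ u3) (o3 : u3 ≤ u4) : Good u1 u2 u3 u4 ∨ Good2 u1 u2 u3 u4 :=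
  good_crude zk_2 zk_2 zk_5 zk_7 (hk_2 a1 b1) (hk_2 a2 b2) (hk_5 a3 b3) (hk_7 a4 b4) (spread_one a1 b1 a2 b2 a3 b3 a4 b4) (by linarith only [b1])

theorem g_2_2_5_8 (u1 u2 u3 u4 : ℝ) (a1 : 2 ≤ u1) (b1 : u1 ≤ 2 + 1) (a2 : 2 ≤ u2) (b2 : u2 ≤ 2 + 1) (a3 : 5 ≤ u3) (b3 : u3 ≤ 5 + 1) (a4 : 8 ≤ u4) (b4 : u4 ≤ 8 + 1) (o1 : u1 ≤ u2) (o2 : u2 ≤ u3) (o3 : u3 ≤ u4) : Good u1 u2 u3 u4 ∨ Good2 u1 u2 u3 u4 :=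
  good_crude zk_2 zk_2 zk_5 zk_8 (hk_2 a1 b1) (hk_2 a2 b2) (hk_5 a3 b3) (hk_8 a4 b4) (spread_one a1 b1 a2 b2 a3 b3 a4 b4) (by linarith only [b1, a4])

theorem g_2_2_6_6 (u1 u2 u3 u4 : ℝ) (a1 : 2 ≤ u1) (b1 : u1 ≤ 2 + 1) (a2 : 2 ≤ u2) (b2 : u2 ≤ 2 + 1) (a3 : 6 ≤ u3) (b3 : u3 ≤ 6 + 1) (a4 : 6 ≤ u4) (b4 : u4 ≤ 6 + 1) (o1 : u1 ≤ u2) (o2 : u2 ≤ u3) (o3 : u3 ≤ u4) : Good u1 u2 u3 u4 ∨ Good2 u1 u2 u3 u4 :=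
  good_crude zk_2 zk_2 zk_6 zk_6 (hk_2 a1 b1) (hk_2 a2 b2) (hk_6 a3 b3) (hk_6 a4 b4) (spread_one a1 b1 a2 b2 a3 b3 a4 b4) (by linarith only [b1, a4])

theorem g_2_2_6_7 (u1 u2 u3 u4 : ℝ) (a1 : 2 ≤ u1) (b1 : u1 ≤ 2 + 1) (a2 : 2 ≤ u2) (b2 : u2 ≤ 2 + 1) (a3 : 6 ≤ u3) (b3 : u3 ≤ 6 + 1) (a4 : 7 ≤ u4) (b4 : u4 ≤ 7 + 1) (o1 : u1 ≤ u2) (o2 : u2 ≤ u3) (o3 : u3 ≤ u4) : Good u1 u2 u3 u4 ∨ Good2 u1 u2 u3 u4 :=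
  good_crude zk_2 zk_2 zk_6 zk_7 (hk_2 a1 b1) (hk_2 a2 b2) (hk_6 a3 b3) (hk_7 a4 b4) (spread_one a1 b1 a2 b2 a3 b3 a4 b4) (by linarith only [b1])

theorem g_2_2_6_8 (u1 u2 u3 u4 : ℝ) (a1 : 2 ≤ u1) (b1 : u1 ≤ 2 + 1) (a2 : 2 ≤ u2) (b2 : u2 ≤ 2 + 1) (a3 : 6 ≤ u3) (b3 : u3 ≤ 6 + 1) (a4 : 8 ≤ u4) (b4 : u4 ≤ 8 + 1) (o1 : u1 ≤ u2) (o2 : u2 ≤ u3) (o3 : u3 ≤ u4) : Good u1 u2 u3 u4 ∨ Good2 u1 u2 u3 u4 :=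
  good_crude zk_2 zk_2 zk_6 zk_8 (hk_2 a1 b1) (hk_2 a2 b2) (hk_6 a3 b3) (hk_8 a4 b4) (spread_one a1 b1 a2 b2 a3 b3 a4 b4) (by linarith only [b1, a4])

theorem g_2_2_7_7 (u1 u2 u3 u4 : ℝ) (a1 : 2 ≤ u1) (b1 : u1 ≤ 2 + 1) (a2 : 2 ≤ u2) (b2 : u2 ≤ 2 + 1) (a3 : 7 ≤ u3) (b3 : u3 ≤ 7 + 1) (a4 : 7 ≤ u4) (b4 : u4 ≤ 7 + 1) (o1 : u1 ≤ u2) (o2 : u2 ≤ u3) (o3 : u3 ≤ u4) : Good u1 u2 u3 u4 ∨ Good2 u1 u2 u3 u4 :=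
  good_crude zk_2 zk_2 zk_7 zk_7 (hk_2 a1 b1) (hk_2 a2 b2) (hk_7 a3 b3) (hk_7 a4 b4) (spread_one a1 b1 a2 b2 a3 b3 a4 b4) (by linarith only [b1, b3])

theorem g_2_2_7_8 (u1 u2 u3 u4 : ℝ) (a1 : 2 ≤ u1) (b1 : u1 ≤ 2 + 1) (a2 : 2 ≤ u2) (b2 : u2 ≤ 2 + 1) (a3 : 7 ≤ u3) (b3 : u3 ≤ 7 + 1) (a4 : 8 ≤ u4) (b4 : u4 ≤ 8 + 1) (o1 : u1 ≤ u2) (o2 : u2 ≤ u3) (o3 : u3 ≤ u4) : Good u1 u2 u3 u4 ∨ Good2 u1 u2 u3 u4 :=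
  good_crude zk_2 zk_2 zk_7 zk_8 (hk_2 a1 b1) (hk_2 a2 b2) (hk_7 a3 b3) (hk_8 a4 b4) (spread_one a1 b1 a2 b2 a3 b3 a4 b4) (by linarith only [b1, b3, a4])

theorem g_2_2_8_8 (u1 u2 u3 u4 : ℝ) (a1 : 2 ≤ u1) (b1 : u1 ≤ 2 + 1) (a2 : 2 ≤ u2) (b2 : u2 ≤ 2 + 1) (a3 : 8 ≤ u3) (b3 : u3 ≤ 8 + 1) (a4 : 8 ≤ u4) (b4 : u4 ≤ 8 + 1) (o1 : u1 ≤ u2) (o2 : u2 ≤ u3) (o3 : u3 ≤ u4) : Good u1 u2 u3 u4 ∨ Good2 u1 u2 u3 u4 :=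
  good_crude zk_2 zk_2 zk_8 zk_8 (hk_2 a1 b1) (hk_2 a2 b2) (hk_8 a3 b3) (hk_8 a4 b4) (spread_one a1 b1 a2 b2 a3 b3 a4 b4) (by linarith only [b1, a3, a4])

theorem g_2_3_3_7 (u1 u2 u3 u4 : ℝ) (a1 : 2 ≤ u1) (b1 : u1 ≤ 2 + 1) (a2 : 3 ≤ u2) (b2 : u2 ≤ 3 + 1) (a3 : 3 ≤ u3) (b3 : u3 ≤ 3 + 1) (a4 : 7 ≤ u4) (b4 : u4 ≤ 7 + 1) (o1 : u1 ≤ u2) (o2 : u2 ≤ u3) (o3 : u3 ≤ u4) : Good u1 u2 u3 u4 ∨ Good2 u1 u2 u3 u4 :=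
  good_crude zk_2 zk_3 zk_3 zk_7 (hk_2 a1 b1) (hk_3 a2 b2) (hk_3 a3 b3) (hk_7 a4 b4) (spread_one a1 b1 a2 b2 a3 b3 a4 b4) (by linarith only [b1, b2, b3])

theorem g_2_3_3_8 (u1 u2 u3 u4 : ℝ) (a1 : 2 ≤ u1) (b1 : u1 ≤ 2 + 1) (a2 : 3 ≤ u2) (b2 : u2 ≤ 3 + 1) (a3 : 3 ≤ u3) (b3 : u3 ≤ 3 + 1) (a4 : 8 ≤ u4) (b4 : u4 ≤ 8 + 1) (o1 : u1 ≤ u2) (o2 : u2 ≤ u3) (o3 : u3 ≤ u4) : Good u1 u2 u3 u4 ∨ Good2 u1 u2 u3 u4 :=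
  good_crude zk_2 zk_3 zk_3 zk_8 (hk_2 a1 b1) (hk_3 a2 b2) (hk_3 a3 b3) (hk_8 a4 b4) (spread_one a1 b1 a2 b2 a3 b3 a4 b4) (by linarith only [b1, b2, b3, a4])

theorem g_2_3_4_7 (u1 u2 u3 u4 : ℝ) (a1 : 2 ≤ u1) (b1 : u1 ≤ 2 + 1) (a2 : 3 ≤ u2) (b2 : u2 ≤ 3 + 1) (a3 : 4 ≤ u3) (b3 : u3 ≤ 4 + 1) (a4 : 7 ≤ u4) (b4 : u4 ≤ 7 + 1) (o1 : u1 ≤ u2) (o2 : u2 ≤ u3) (o3 : u3 ≤ u4) : Good u1 u2 u3 u4 ∨ Good2 u1 u2 u3 u4 :=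
  good_crude zk_2 zk_3 zk_4 zk_7 (hk_2 a1 b1) (hk_3 a2 b2) (hk_4 a3 b3) (hk_7 a4 b4) (spread_one a1 b1 a2 b2 a3 b3 a4 b4) (by linarith only [b1, o2])

theorem g_2_3_4_8 (u1 u2 u3 u4 : ℝ) (a1 : 2 ≤ u1) (b1 : u1 ≤ 2 + 1) (a2 : 3 ≤ u2) (b2 : u2 ≤ 3 + 1) (a3 : 4 ≤ u3) (b3 : u3 ≤ 4 + 1) (a4 : 8 ≤ u4) (b4 : u4 ≤ 8 + 1) (o1 : u1 ≤ u2) (o2 : u2 ≤ u3) (o3 : u3 ≤ u4) : Good u1 u2 u3 u4 ∨ Good2 u1 u2 u3 u4 :=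
  good_crude zk_2 zk_3 zk_4 zk_8 (hk_2 a1 b1) (hk_3 a2 b2) (hk_4 a3 b3) (hk_8 a4 b4) (spread_one a1 b1 a2 b2 a3 b3 a4 b4) (by linarith only [b1, a4, o2])

theorem g_2_3_5_6 (u1 u2 u3 u4 : ℝ) (a1 : 2 ≤ u1) (b1 : u1 ≤ 2 + 1) (a2 : 3 ≤ u2) (b2 : u2 ≤ 3 + 1) (a3 : 5 ≤ u3) (b3 : u3 ≤ 5 + 1) (a4 : 6 ≤ u4) (b4 : u4 ≤ 6 + 1) (o1 : u1 ≤ u2) (o2 : u2 ≤ u3) (o3 : u3 ≤ u4) : Good u1 u2 u3 u4 ∨ Good2 u1 u2 u3 u4 :=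
  good_crude zk_2 zk_3 zk_5 zk_6 (hk_2 a1 b1) (hk_3 a2 b2) (hk_5 a3 b3) (hk_6 a4 b4) (spread_one a1 b1 a2 b2 a3 b3 a4 b4) (by linarith only [b1, b2, a4])

theorem g_2_3_5_7 (u1 u2 u3 u4 : ℝ) (a1 : 2 ≤ u1) (b1 : u1 ≤ 2 + 1) (a2 : 3 ≤ u2) (b2 : u2 ≤ 3 + 1) (a3 : 5 ≤ u3) (b3 : u3 ≤ 5 + 1) (a4 : 7 ≤ u4) (b4 : u4 ≤ 7 + 1) (o1 : u1 ≤ u2) (o2 : u2 ≤ u3) (o3 : u3 ≤ u4) : Good u1 u2 u3 u4 ∨ Good2 u1 u2 u3 u4 :=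
  good_crude zk_2 zk_3 zk_5 zk_7 (hk_2 a1 b1) (hk_3 a2 b2) (hk_5 a3 b3) (hk_7 a4 b4) (spread_one a1 b1 a2 b2 a3 b3 a4 b4) (by linarith only [b1, b2])

theorem g_2_3_5_8 (u1 u2 u3 u4 : ℝ) (a1 : 2 ≤ u1) (b1 : u1 ≤ 2 + 1) (a2 : 3 ≤ u2) (b2 : u2 ≤ 3 + 1) (a3 : 5 ≤ u3) (b3 : u3 ≤ 5 + 1) (a4 : 8 ≤ u4) (b4 : u4 ≤ 8 + 1) (o1 : u1 ≤ u2) (o2 : u2 ≤ u3) (o3 : u3 ≤ u4) : Good u1 u2 u3 u4 ∨ Good2 u1 u2 u3 u4 :=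
  good_crude zk_2 zk_3 zk_5 zk_8 (hk_2 a1 b1) (hk_3 a2 b2) (hk_5 a3 b3) (hk_8 a4 b4) (spread_one a1 b1 a2 b2 a3 b3 a4 b4) (by linarith only [b1, b2, a4])

theorem g_2_3_6_6 (u1 u2 u3 u4 : ℝ) (a1 : 2 ≤ u1) (b1 : u1 ≤ 2 + 1) (a2 : 3 ≤ u2) (b2 : u2 ≤ 3 + 1) (a3 : 6 ≤ u3) (b3 : u3 ≤ 6 + 1) (a4 : 6 ≤ u4) (b4 : u4 ≤ 6 + 1) (o1 : u1 ≤ u2) (o2 : u2 ≤ u3) (o3 : u3 ≤ u4) : Good u1 u2 u3 u4 ∨ Good2 u1 u2 u3 u4 :=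
  good_crude zk_2 zk_3 zk_6 zk_6 (hk_2 a1 b1) (hk_3 a2 b2) (hk_6 a3 b3) (hk_6 a4 b4) (spread_one a1 b1 a2 b2 a3 b3 a4 b4) (by linarith only [b1, b2, a4])

theorem g_2_3_6_7 (u1 u2 u3 u4 : ℝ) (a1 : 2 ≤ u1) (b1 : u1 ≤ 2 + 1) (a2 : 3 ≤ u2) (b2 : u2 ≤ 3 + 1) (a3 : 6 ≤ u3) (b3 : u3 ≤ 6 + 1) (a4 : 7 ≤ u4) (b4 : u4 ≤ 7 + 1) (o1 : u1 ≤ u2) (o2 : u2 ≤ u3) (o3 : u3 ≤ u4) : Good u1 u2 u3 u4 ∨ Good2 u1 u2 u3 u4 :=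
  good_crude zk_2 zk_3 zk_6 zk_7 (hk_2 a1 b1) (hk_3 a2 b2) (hk_6 a3 b3) (hk_7 a4 b4) (spread_one a1 b1 a2 b2 a3 b3 a4 b4) (by linarith only [b1, b2])

theorem g_2_3_6_8 (u1 u2 u3 u4 : ℝ) (a1 : 2 ≤ u1) (b1 : u1 ≤ 2 + 1) (a2 : 3 ≤ u2) (b2 : u2 ≤ 3 + 1) (a3 : 6 ≤ u3) (b3 : u3 ≤ 6 + 1) (a4 : 8 ≤ u4) (b4 : u4 ≤ 8 + 1) (o1 : u1 ≤ u2) (o2 : u2 ≤ u3) (o3 : u3 ≤ u4) : Good u1 u2 u3 u4 ∨ Good2 u1 u2 u3 u4 :=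
  good_crude zk_2 zk_3 zk_6 zk_8 (hk_2 a1 b1) (hk_3 a2 b2) (hk_6 a3 b3) (hk_8 a4 b4) (spread_one a1 b1 a2 b2 a3 b3 a4 b4) (by linarith only [b1, b2, a4])

theorem g_2_3_7_7 (u1 u2 u3 u4 : ℝ) (a1 : 2 ≤ u1) (b1 : u1 ≤ 2 + 1) (a2 : 3 ≤ u2) (b2 : u2 ≤ 3 + 1) (a3 : 7 ≤ u3) (b3 : u3 ≤ 7 + 1) (a4 : 7 ≤ u4) (b4 : u4 ≤ 7 + 1) (o1 : u1 ≤ u2) (o2 : u2 ≤ u3) (o3 : u3 ≤ u4) : Good u1 u2 u3 u4 ∨ Good2 u1 u2 u3 u4 :=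
  good_crude zk_2 zk_3 zk_7 zk_7 (hk_2 a1 b1) (hk_3 a2 b2) (hk_7 a3 b3) (hk_7 a4 b4) (spread_one a1 b1 a2 b2 a3 b3 a4 b4) (by linarith only [b1, b2, b3])

theorem g_2_3_7_8 (u1 u2 u3 u4 : ℝ) (a1 : 2 ≤ u1) (b1 : u1 ≤ 2 + 1) (a2 : 3 ≤ u2) (b2 : u2 ≤ 3 + 1) (a3 : 7 ≤ u3) (b3 : u3 ≤ 7 + 1) (a4 : 8 ≤ u4) (b4 : u4 ≤ 8 + 1) (o1 : u1 ≤ u2) (o2 : u2 ≤ u3) (o3 : u3 ≤ u4) : Good u1 u2 u3 u4 ∨ Good2 u1 u2 u3 u4 :=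
  good_crude zk_2 zk_3 zk_7 zk_8 (hk_2 a1 b1) (hk_3 a2 b2) (hk_7 a3 b3) (hk_8 a4 b4) (spread_one a1 b1 a2 b2 a3 b3 a4 b4) (by linarith only [b1, b2, b3, a4])

theorem g_2_3_8_8 (u1 u2 u3 u4 : ℝ) (a1 : 2 ≤ u1) (b1 : u1 ≤ 2 + 1) (a2 : 3 ≤ u2) (b2 : u2 ≤ 3 + 1) (a3 : 8 ≤ u3) (b3 : u3 ≤ 8 + 1) (a4 : 8 ≤ u4) (b4 : u4 ≤ 8 + 1) (o1 : u1 ≤ u2) (o2 : u2 ≤ u3) (o3 : u3 ≤ u4) : Good u1 u2 u3 u4 ∨ Good2 u1 u2 u3 u4 :=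
  good_crude zk_2 zk_3 zk_8 zk_8 (hk_2 a1 b1) (hk_3 a2 b2) (hk_8 a3 b3) (hk_8 a4 b4) (spread_one a1 b1 a2 b2 a3 b3 a4 b4) (by linarith only [b1, b2, a3, a4])

theorem g_2_4_4_7 (u1 u2 u3 u4 : ℝ) (a1 : 2 ≤ u1) (b1 : u1 ≤ 2 + 1) (a2 : 4 ≤ u2) (b2 : u2 ≤ 4 + 1) (a3 : 4 ≤ u3) (b3 : u3 ≤ 4 + 1) (a4 : 7 ≤ u4) (b4 : u4 ≤ 7 + 1) (o1 : u1 ≤ u2) (o2 : u2 ≤ u3) (o3 : u3 ≤ u4) : Good u1 u2 u3 u4 ∨ Good2 u1 u2 u3 u4 :=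
  good_crude zk_2 zk_4 zk_4 zk_7 (hk_2 a1 b1) (hk_4 a2 b2) (hk_4 a3 b3) (hk_7 a4 b4) (spread_one a1 b1 a2 b2 a3 b3 a4 b4) (by linarith only [b1, a2, a3])

theorem g_2_4_4_8 (u1 u2 u3 u4 : ℝ) (a1 : 2 ≤ u1) (b1 : u1 ≤ 2 + 1) (a2 : 4 ≤ u2) (b2 : u2 ≤ 4 + 1) (a3 : 4 ≤ u3) (b3 : u3 ≤ 4 + 1) (a4 : 8 ≤ u4) (b4 : u4 ≤ 8 + 1) (o1 : u1 ≤ u2) (o2 : u2 ≤ u3) (o3 : u3 ≤ u4) : Good u1 u2 u3 u4 ∨ Good2 u1 u2 u3 u4 :=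
  good_crude zk_2 zk_4 zk_4 zk_8 (hk_2 a1 b1) (hk_4 a2 b2) (hk_4 a3 b3) (hk_8 a4 b4) (spread_one a1 b1 a2 b2 a3 b3 a4 b4) (by linarith only [b1, a2, a3, a4])

theorem g_2_4_5_6 (u1 u2 u3 u4 : ℝ) (a1 : 2 ≤ u1) (b1 : u1 ≤ 2 + 1) (a2 : 4 ≤ u2) (b2 : u2 ≤ 4 + 1) (a3 : 5 ≤ u3) (b3 : u3 ≤ 5 + 1) (a4 : 6 ≤ u4) (b4 : u4 ≤ 6 + 1) (o1 : u1 ≤ u2) (o2 : u2 ≤ u3) (o3 : u3 ≤ u4) : Good u1 u2 u3 u4 ∨ Good2 u1 u2 u3 u4 :=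
  good_crude zk_2 zk_4 zk_5 zk_6 (hk_2 a1 b1) (hk_4 a2 b2) (hk_5 a3 b3) (hk_6 a4 b4) (spread_one a1 b1 a2 b2 a3 b3 a4 b4) (by linarith only [b1, a2, a4])

theorem g_2_4_5_7 (u1 u2 u3 u4 : ℝ) (a1 : 2 ≤ u1) (b1 : u1 ≤ 2 + 1) (a2 : 4 ≤ u2) (b2 : u2 ≤ 4 + 1) (a3 : 5 ≤ u3) (b3 : u3 ≤ 5 + 1) (a4 : 7 ≤ u4) (b4 : u4 ≤ 7 + 1) (o1 : u1 ≤ u2) (o2 : u2 ≤ u3) (o3 : u3 ≤ u4) : Good u1 u2 u3 u4 ∨ Good2 u1 u2 u3 u4 :=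
  good_crude zk_2 zk_4 zk_5 zk_7 (hk_2 a1 b1) (hk_4 a2 b2) (hk_5 a3 b3) (hk_7 a4 b4) (spread_one a1 b1 a2 b2 a3 b3 a4 b4) (by linarith only [b1, a2])

theorem g_2_4_5_8 (u1 u2 u3 u4 : ℝ) (a1 : 2 ≤ u1) (b1 : u1 ≤ 2 + 1) (a2 : 4 ≤ u2) (b2 : u2 ≤ 4 + 1) (a3 : 5 ≤ u3) (b3 : u3 ≤ 5 + 1) (a4 : 8 ≤ u4) (b4 : u4 ≤ 8 + 1) (o1 : u1 ≤ u2) (o2 : u2 ≤ u3) (o3 : u3 ≤ u4) : Good u1 u2 u3 u4 ∨ Good2 u1 u2 u3 u4 :=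
  good_crude zk_2 zk_4 zk_5 zk_8 (hk_2 a1 b1) (hk_4 a2 b2) (hk_5 a3 b3) (hk_8 a4 b4) (spread_one a1 b1 a2 b2 a3 b3 a4 b4) (by linarith only [b1, a2, a4])

theorem g_2_4_6_6 (u1 u2 u3 u4 : ℝ) (a1 : 2 ≤ u1) (b1 : u1 ≤ 2 + 1) (a2 : 4 ≤ u2) (b2 : u2 ≤ 4 + 1) (a3 : 6 ≤ u3) (b3 : u3 ≤ 6 + 1) (a4 : 6 ≤ u4) (b4 : u4 ≤ 6 + 1) (o1 : u1 ≤ u2) (o2 : u2 ≤ u3) (o3 : u3 ≤ u4) : Good u1 u2 u3 u4 ∨ Good2 u1 u2 u3 u4 :=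
  good_crude zk_2 zk_4 zk_6 zk_6 (hk_2 a1 b1) (hk_4 a2 b2) (hk_6 a3 b3) (hk_6 a4 b4) (spread_one a1 b1 a2 b2 a3 b3 a4 b4) (by linarith only [b1, a2, a4])

theorem g_2_4_6_7 (u1 u2 u3 u4 : ℝ) (a1 : 2 ≤ u1) (b1 : u1 ≤ 2 + 1) (a2 : 4 ≤ u2) (b2 : u2 ≤ 4 + 1) (a3 : 6 ≤ u3) (b3 : u3 ≤ 6 + 1) (a4 : 7 ≤ u4) (b4 : u4 ≤ 7 + 1) (o1 : u1 ≤ u2) (o2 : u2 ≤ u3) (o3 : u3 ≤ u4) : Good u1 u2 u3 u4 ∨ Good2 u1 u2 u3 u4 :=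
  good_crude zk_2 zk_4 zk_6 zk_7 (hk_2 a1 b1) (hk_4 a2 b2) (hk_6 a3 b3) (hk_7 a4 b4) (spread_one a1 b1 a2 b2 a3 b3 a4 b4) (by linarith only [b1, a2])

theorem g_2_4_6_8 (u1 u2 u3 u4 : ℝ) (a1 : 2 ≤ u1) (b1 : u1 ≤ 2 + 1) (a2 : 4 ≤ u2) (b2 : u2 ≤ 4 + 1) (a3 : 6 ≤ u3) (b3 : u3 ≤ 6 + 1) (a4 : 8 ≤ u4) (b4 : u4 ≤ 8 + 1) (o1 : u1 ≤ u2) (o2 : u2 ≤ u3) (o3 : u3 ≤ u4) : Good u1 u2 u3 u4 ∨ Good2 u1 u2 u3 u4 :=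
  good_crude zk_2 zk_4 zk_6 zk_8 (hk_2 a1 b1) (hk_4 a2 b2) (hk_6 a3 b3) (hk_8 a4 b4) (spread_one a1 b1 a2 b2 a3 b3 a4 b4) (by linarith only [b1, a2, a4])

theorem g_2_4_7_7 (u1 u2 u3 u4 : ℝ) (a1 : 2 ≤ u1) (b1 : u1 ≤ 2 + 1) (a2 : 4 ≤ u2) (b2 : u2 ≤ 4 + 1) (a3 : 7 ≤ u3) (b3 : u3 ≤ 7 + 1) (a4 : 7 ≤ u4) (b4 : u4 ≤ 7 + 1) (o1 : u1 ≤ u2) (o2 : u2 ≤ u3) (o3 : u3 ≤ u4) : Good u1 u2 u3 u4 ∨ Good2 u1 u2 u3 u4 :=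
  good_crude zk_2 zk_4 zk_7 zk_7 (hk_2 a1 b1) (hk_4 a2 b2) (hk_7 a3 b3) (hk_7 a4 b4) (spread_one a1 b1 a2 b2 a3 b3 a4 b4) (by linarith only [b1, a2, b3])

theorem g_2_4_7_8 (u1 u2 u3 u4 : ℝ) (a1 : 2 ≤ u1) (b1 : u1 ≤ 2 + 1) (a2 : 4 ≤ u2) (b2 : u2 ≤ 4 + 1) (a3 : 7 ≤ u3) (b3 : u3 ≤ 7 + 1) (a4 : 8 ≤ u4) (b4 : u4 ≤ 8 + 1) (o1 : u1 ≤ u2) (o2 : u2 ≤ u3) (o3 : u3 ≤ u4) : Good u1 u2 u3 u4 ∨ Good2 u1 u2 u3 u4 :=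
  good_crude zk_2 zk_4 zk_7 zk_8 (hk_2 a1 b1) (hk_4 a2 b2) (hk_7 a3 b3) (hk_8 a4 b4) (spread_one a1 b1 a2 b2 a3 b3 a4 b4) (by linarith only [b1, a2, b3, a4])

theorem g_2_4_8_8 (u1 u2 u3 u4 : ℝ) (a1 : 2 ≤ u1) (b1 : u1 ≤ 2 + 1) (a2 : 4 ≤ u2) (b2 : u2 ≤ 4 + 1) (a3 : 8 ≤ u3) (b3 : u3 ≤ 8 + 1) (a4 : 8 ≤ u4) (b4 : u4 ≤ 8 + 1) (o1 : u1 ≤ u2) (o2 : u2 ≤ u3) (o3 : u3 ≤ u4) : Good u1 u2 u3 u4 ∨ Good2 u1 u2 u3 u4 :=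
  good_crude zk_2 zk_4 zk_8 zk_8 (hk_2 a1 b1) (hk_4 a2 b2) (hk_8 a3 b3) (hk_8 a4 b4) (spread_one a1 b1 a2 b2 a3 b3 a4 b4) (by linarith only [b1, a2, a3, a4])

theorem g_2_5_5_5 (u1 u2 u3 u4 : ℝ) (a1 : 2 ≤ u1) (b1 : u1 ≤ 2 + 1) (a2 : 5 ≤ u2) (b2 : u2 ≤ 5 + 1) (a3 : 5 ≤ u3) (b3 : u3 ≤ 5 + 1) (a4 : 5 ≤ u4) (b4 : u4 ≤ 5 + 1) (o1 : u1 ≤ u2) (o2 : u2 ≤ u3) (o3 : u3 ≤ u4) : Good u1 u2 u3 u4 ∨ Good2 u1 u2 u3 u4 :=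
  good_crude zk_2 zk_5 zk_5 zk_5 (hk_2 a1 b1) (hk_5 a2 b2) (hk_5 a3 b3) (hk_5 a4 b4) (spread_one a1 b1 a2 b2 a3 b3 a4 b4) (by linarith only [b1, a4])

theorem g_2_5_5_6 (u1 u2 u3 u4 : ℝ) (a1 : 2 ≤ u1) (b1 : u1 ≤ 2 + 1) (a2 : 5 ≤ u2) (b2 : u2 ≤ 5 + 1) (a3 : 5 ≤ u3) (b3 : u3 ≤ 5 + 1) (a4 : 6 ≤ u4) (b4 : u4 ≤ 6 + 1) (o1 : u1 ≤ u2) (o2 : u2 ≤ u3) (o3 : u3 ≤ u4) : Good u1 u2 u3 u4 ∨ Good2 u1 u2 u3 u4 :=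
  good_crude zk_2 zk_5 zk_5 zk_6 (hk_2 a1 b1) (hk_5 a2 b2) (hk_5 a3 b3) (hk_6 a4 b4) (spread_one a1 b1 a2 b2 a3 b3 a4 b4) (by linarith only [b1, a4])

theorem g_2_5_5_7 (u1 u2 u3 u4 : ℝ) (a1 : 2 ≤ u1) (b1 : u1 ≤ 2 + 1) (a2 : 5 ≤ u2) (b2 : u2 ≤ 5 + 1) (a3 : 5 ≤ u3) (b3 : u3 ≤ 5 + 1) (a4 : 7 ≤ u4) (b4 : u4 ≤ 7 + 1) (o1 : u1 ≤ u2) (o2 : u2 ≤ u3) (o3 : u3 ≤ u4) : Good u1 u2 u3 u4 ∨ Good2 u1 u2 u3 u4 :=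
  good_crude zk_2 zk_5 zk_5 zk_7 (hk_2 a1 b1) (hk_5 a2 b2) (hk_5 a3 b3) (hk_7 a4 b4) (spread_one a1 b1 a2 b2 a3 b3 a4 b4) (by linarith only [b1])

theorem g_2_5_5_8 (u1 u2 u3 u4 : ℝ) (a1 : 2 ≤ u1) (b1 : u1 ≤ 2 + 1) (a2 : 5 ≤ u2) (b2 : u2 ≤ 5 + 1) (a3 : 5 ≤ u3) (b3 : u3 ≤ 5 + 1) (a4 : 8 ≤ u4) (b4 : u4 ≤ 8 + 1) (o1 : u1 ≤ u2) (o2 : u2 ≤ u3) (o3 : u3 ≤ u4) : Good u1 u2 u3 u4 ∨ Good2 u1 u2 u3 u4 :=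
  good_crude zk_2 zk_5 zk_5 zk_8 (hk_2 a1 b1) (hk_5 a2 b2) (hk_5 a3 b3) (hk_8 a4 b4) (spread_one a1 b1 a2 b2 a3 b3 a4 b4) (by linarith only [b1, a4])

theorem g_2_5_6_6 (u1 u2 u3 u4 : ℝ) (a1 : 2 ≤ u1) (b1 : u1 ≤ 2 + 1) (a2 : 5 ≤ u2) (b2 : u2 ≤ 5 + 1) (a3 : 6 ≤ u3) (b3 : u3 ≤ 6 + 1) (a4 : 6 ≤ u4) (b4 : u4 ≤ 6 + 1) (o1 : u1 ≤ u2) (o2 : u2 ≤ u3) (o3 : u3 ≤ u4) : Good u1 u2 u3 u4 ∨ Good2 u1 u2 u3 u4 :=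
  good_crude zk_2 zk_5 zk_6 zk_6 (hk_2 a1 b1) (hk_5 a2 b2) (hk_6 a3 b3) (hk_6 a4 b4) (spread_one a1 b1 a2 b2 a3 b3 a4 b4) (by linarith only [b1, a4])

theorem g_2_5_6_7 (u1 u2 u3 u4 : ℝ) (a1 : 2 ≤ u1) (b1 : u1 ≤ 2 + 1) (a2 : 5 ≤ u2) (b2 : u2 ≤ 5 + 1) (a3 : 6 ≤ u3) (b3 : u3 ≤ 6 + 1) (a4 : 7 ≤ u4) (b4 : u4 ≤ 7 + 1) (o1 : u1 ≤ u2) (o2 : u2 ≤ u3) (o3 : u3 ≤ u4) : Good u1 u2 u3 u4 ∨ Good2 u1 u2 u3 u4 :=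
  good_crude zk_2 zk_5 zk_6 zk_7 (hk_2 a1 b1) (hk_5 a2 b2) (hk_6 a3 b3) (hk_7 a4 b4) (spread_one a1 b1 a2 b2 a3 b3 a4 b4) (by linarith only [b1])

theorem g_2_5_6_8 (u1 u2 u3 u4 : ℝ) (a1 : 2 ≤ u1) (b1 : u1 ≤ 2 + 1) (a2 : 5 ≤ u2) (b2 : u2 ≤ 5 + 1) (a3 : 6 ≤ u3) (b3 : u3 ≤ 6 + 1) (a4 : 8 ≤ u4) (b4 : u4 ≤ 8 + 1) (o1 : u1 ≤ u2) (o2 : u2 ≤ u3) (o3 : u3 ≤ u4) : Good u1 u2 u3 u4 ∨ Good2 u1 u2 u3 u4 :=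
  good_crude zk_2 zk_5 zk_6 zk_8 (hk_2 a1 b1) (hk_5 a2 b2) (hk_6 a3 b3) (hk_8 a4 b4) (spread_one a1 b1 a2 b2 a3 b3 a4 b4) (by linarith only [b1, a4])

theorem g_2_5_7_7 (u1 u2 u3 u4 : ℝ) (a1 : 2 ≤ u1) (b1 : u1 ≤ 2 + 1) (a2 : 5 ≤ u2) (b2 : u2 ≤ 5 + 1) (a3 : 7 ≤ u3) (b3 : u3 ≤ 7 + 1) (a4 : 7 ≤ u4) (b4 : u4 ≤ 7 + 1) (o1 : u1 ≤ u2) (o2 : u2 ≤ u3) (o3 : u3 ≤ u4) : Good u1 u2 u3 u4 ∨ Good2 u1 u2 u3 u4 :=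
  good_crude zk_2 zk_5 zk_7 zk_7 (hk_2 a1 b1) (hk_5 a2 b2) (hk_7 a3 b3) (hk_7 a4 b4) (spread_one a1 b1 a2 b2 a3 b3 a4 b4) (by linarith only [b1, b3])

theorem g_2_5_7_8 (u1 u2 u3 u4 : ℝ) (a1 : 2 ≤ u1) (b1 : u1 ≤ 2 + 1) (a2 : 5 ≤ u2) (b2 : u2 ≤ 5 + 1) (a3 : 7 ≤ u3) (b3 : u3 ≤ 7 + 1) (a4 : 8 ≤ u4) (b4 : u4 ≤ 8 + 1) (o1 : u1 ≤ u2) (o2 : u2 ≤ u3) (o3 : u3 ≤ u4) : Good u1 u2 u3 u4 ∨ Good2 u1 u2 u3 u4 :=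
  good_crude zk_2 zk_5 zk_7 zk_8 (hk_2 a1 b1) (hk_5 a2 b2) (hk_7 a3 b3) (hk_8 a4 b4) (spread_one a1 b1 a2 b2 a3 b3 a4 b4) (by linarith only [b1, b3, a4])

theorem g_2_5_8_8 (u1 u2 u3 u4 : ℝ) (a1 : 2 ≤ u1) (b1 : u1 ≤ 2 + 1) (a2 : 5 ≤ u2) (b2 : u2 ≤ 5 + 1) (a3 : 8 ≤ u3) (b3 : u3 ≤ 8 + 1) (a4 : 8 ≤ u4) (b4 : u4 ≤ 8 + 1) (o1 : u1 ≤ u2) (o2 : u2 ≤ u3) (o3 : u3 ≤ u4) : Good u1 u2 u3 u4 ∨ Good2 u1 u2 u3 u4 :=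
  good_crude zk_2 zk_5 zk_8 zk_8 (hk_2 a1 b1) (hk_5 a2 b2) (hk_8 a3 b3) (hk_8 a4 b4) (spread_one a1 b1 a2 b2 a3 b3 a4 b4) (by linarith only [b1, a3, a4])

theorem g_2_6_6_6 (u1 u2 u3 u4 : ℝ) (a1 : 2 ≤ u1) (b1 : u1 ≤ 2 + 1) (a2 : 6 ≤ u2) (b2 : u2 ≤ 6 + 1) (a3 : 6 ≤ u3) (b3 : u3 ≤ 6 + 1) (a4 : 6 ≤ u4) (b4 : u4 ≤ 6 + 1) (o1 : u1 ≤ u2) (o2 : u2 ≤ u3) (o3 : u3 ≤ u4) : Good u1 u2 u3 u4 ∨ Good2 u1 u2 u3 u4 :=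
  good_crude zk_2 zk_6 zk_6 zk_6 (hk_2 a1 b1) (hk_6 a2 b2) (hk_6 a3 b3) (hk_6 a4 b4) (spread_one a1 b1 a2 b2 a3 b3 a4 b4) (by linarith only [b1, a4])

theorem g_2_6_6_7 (u1 u2 u3 u4 : ℝ) (a1 : 2 ≤ u1) (b1 : u1 ≤ 2 + 1) (a2 : 6 ≤ u2) (b2 : u2 ≤ 6 + 1) (a3 : 6 ≤ u3) (b3 : u3 ≤ 6 + 1) (a4 : 7 ≤ u4) (b4 : u4 ≤ 7 + 1) (o1 : u1 ≤ u2) (o2 : u2 ≤ u3) (o3 : u3 ≤ u4) : Good u1 u2 u3 u4 ∨ Good2 u1 u2 u3 u4 :=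
  good_crude zk_2 zk_6 zk_6 zk_7 (hk_2 a1 b1) (hk_6 a2 b2) (hk_6 a3 b3) (hk_7 a4 b4) (spread_one a1 b1 a2 b2 a3 b3 a4 b4) (by linarith only [b1])

theorem g_2_6_6_8 (u1 u2 u3 u4 : ℝ) (a1 : 2 ≤ u1) (b1 : u1 ≤ 2 + 1) (a2 : 6 ≤ u2) (b2 : u2 ≤ 6 + 1) (a3 : 6 ≤ u3) (b3 : u3 ≤ 6 + 1) (a4 : 8 ≤ u4) (b4 : u4 ≤ 8 + 1) (o1 : u1 ≤ u2) (o2 : u2 ≤ u3) (o3 : u3 ≤ u4) : Good u1 u2 u3 u4 ∨ Good2 u1 u2 u3 u4 :=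
  good_crude zk_2 zk_6 zk_6 zk_8 (hk_2 a1 b1) (hk_6 a2 b2) (hk_6 a3 b3) (hk_8 a4 b4) (spread_one a1 b1 a2 b2 a3 b3 a4 b4) (by linarith only [b1, a4])

theorem g_2_6_7_7 (u1 u2 u3 u4 : ℝ) (a1 : 2 ≤ u1) (b1 : u1 ≤ 2 + 1) (a2 : 6 ≤ u2) (b2 : u2 ≤ 6 + 1) (a3 : 7 ≤ u3) (b3 : u3 ≤ 7 + 1) (a4 : 7 ≤ u4) (b4 : u4 ≤ 7 + 1) (o1 : u1 ≤ u2) (o2 : u2 ≤ u3) (o3 : u3 ≤ u4) : Good u1 u2 u3 u4 ∨ Good2 u1 u2 u3 u4 :=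
  good_crude zk_2 zk_6 zk_7 zk_7 (hk_2 a1 b1) (hk_6 a2 b2) (hk_7 a3 b3) (hk_7 a4 b4) (spread_one a1 b1 a2 b2 a3 b3 a4 b4) (by linarith only [b1, b3])

theorem g_2_6_7_8 (u1 u2 u3 u4 : ℝ) (a1 : 2 ≤ u1) (b1 : u1 ≤ 2 + 1) (a2 : 6 ≤ u2) (b2 : u2 ≤ 6 + 1) (a3 : 7 ≤ u3) (b3 : u3 ≤ 7 + 1) (a4 : 8 ≤ u4) (b4 : u4 ≤ 8 + 1) (o1 : u1 ≤ u2) (o2 : u2 ≤ u3) (o3 : u3 ≤ u4) : Good u1 u2 u3 u4 ∨ Good2 u1 u2 u3 u4 :=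
  good_crude zk_2 zk_6 zk_7 zk_8 (hk_2 a1 b1) (hk_6 a2 b2) (hk_7 a3 b3) (hk_8 a4 b4) (spread_one a1 b1 a2 b2 a3 b3 a4 b4) (by linarith only [b1, b3, a4])

theorem g_2_6_8_8 (u1 u2 u3 u4 : ℝ) (a1 : 2 ≤ u1) (b1 : u1 ≤ 2 + 1) (a2 : 6 ≤ u2) (b2 : u2 ≤ 6 + 1) (a3 : 8 ≤ u3) (b3 : u3 ≤ 8 + 1) (a4 : 8 ≤ u4) (b4 : u4 ≤ 8 + 1) (o1 : u1 ≤ u2) (o2 : u2 ≤ u3) (o3 : u3 ≤ u4) : Good u1 u2 u3 u4 ∨ Good2 u1 u2 u3 u4 :=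
  good_crude zk_2 zk_6 zk_8 zk_8 (hk_2 a1 b1) (hk_6 a2 b2) (hk_8 a3 b3) (hk_8 a4 b4) (spread_one a1 b1 a2 b2 a3 b3 a4 b4) (by linarith only [b1, a3, a4])

theorem g_2_7_7_7 (u1 u2 u3 u4 : ℝ) (a1 : 2 ≤ u1) (b1 : u1 ≤ 2 + 1) (a2 : 7 ≤ u2) (b2 : u2 ≤ 7 + 1) (a3 : 7 ≤ u3) (b3 : u3 ≤ 7 + 1) (a4 : 7 ≤ u4) (b4 : u4 ≤ 7 + 1) (o1 : u1 ≤ u2) (o2 : u2 ≤ u3) (o3 : u3 ≤ u4) : Good u1 u2 u3 u4 ∨ Good2 u1 u2 u3 u4 :=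
  good_crude zk_2 zk_7 zk_7 zk_7 (hk_2 a1 b1) (hk_7 a2 b2) (hk_7 a3 b3) (hk_7 a4 b4) (spread_one a1 b1 a2 b2 a3 b3 a4 b4) (by linarith only [b1, b2, b3])

theorem g_2_7_7_8 (u1 u2 u3 u4 : ℝ) (a1 : 2 ≤ u1) (b1 : u1 ≤ 2 + 1) (a2 : 7 ≤ u2) (b2 : u2 ≤ 7 + 1) (a3 : 7 ≤ u3) (b3 : u3 ≤ 7 + 1) (a4 : 8 ≤ u4) (b4 : u4 ≤ 8 + 1) (o1 : u1 ≤ u2) (o2 : u2 ≤ u3) (o3 : u3 ≤ u4) : Good u1 u2 u3 u4 ∨ Good2 u1 u2 u3 u4 :=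
  good_crude zk_2 zk_7 zk_7 zk_8 (hk_2 a1 b1) (hk_7 a2 b2) (hk_7 a3 b3) (hk_8 a4 b4) (spread_one a1 b1 a2 b2 a3 b3 a4 b4) (by linarith only [b1, o2, o3])

theorem g_2_7_8_8 (u1 u2 u3 u4 : ℝ) (a1 : 2 ≤ u1) (b1 : u1 ≤ 2 + 1) (a2 : 7 ≤ u2) (b2 : u2 ≤ 7 + 1) (a3 : 8 ≤ u3) (b3 : u3 ≤ 8 + 1) (a4 : 8 ≤ u4) (b4 : u4 ≤ 8 + 1) (o1 : u1 ≤ u2) (o2 : u2 ≤ u3) (o3 : u3 ≤ u4) : Good u1 u2 u3 u4 ∨ Good2 u1 u2 u3 u4 :=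
  good_crude zk_2 zk_7 zk_8 zk_8 (hk_2 a1 b1) (hk_7 a2 b2) (hk_8 a3 b3) (hk_8 a4 b4) (spread_one a1 b1 a2 b2 a3 b3 a4 b4) (by linarith only [b1, a4, o2])

theorem g_2_8_8_8 (u1 u2 u3 u4 : ℝ) (a1 : 2 ≤ u1) (b1 : u1 ≤ 2 + 1) (a2 : 8 ≤ u2) (b2 : u2 ≤ 8 + 1) (a3 : 8 ≤ u3) (b3 : u3 ≤ 8 + 1) (a4 : 8 ≤ u4) (b4 : u4 ≤ 8 + 1) (o1 : u1 ≤ u2) (o2 : u2 ≤ u3) (o3 : u3 ≤ u4) : Good u1 u2 u3 u4 ∨ Good2 u1 u2 u3 u4 :=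
  good_crude zk_2 zk_8 zk_8 zk_8 (hk_2 a1 b1) (hk_8 a2 b2) (hk_8 a3 b3) (hk_8 a4 b4) (spread_one a1 b1 a2 b2 a3 b3 a4 b4) (by linarith only [b1, a2, a3, a4])

theorem g_3_3_3_9 (u1 u2 u3 u4 : ℝ) (a1 : 3 ≤ u1) (b1 : u1 ≤ 3 + 1) (a2 : 3 ≤ u2) (b2 : u2 ≤ 3 + 1) (a3 : 3 ≤ u3) (b3 : u3 ≤ 3 + 1) (a4 : 9 ≤ u4) (b4 : u4 ≤ 9 + 1) (o1 : u1 ≤ u2) (o2 : u2 ≤ u3) (o3 : u3 ≤ u4) : Good u1 u2 u3 u4 ∨ Good2 u1 u2 u3 u4 :=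
  good_crude zk_3 zk_3 zk_3 zk_9 (hk_3 a1 b1) (hk_3 a2 b2) (hk_3 a3 b3) (hk_9 a4 b4) (spread_one a1 b1 a2 b2 a3 b3 a4 b4) (by linarith only [b1, b2, b3, a4])

theorem g_3_3_4_9 (u1 u2 u3 u4 : ℝ) (a1 : 3 ≤ u1) (b1 : u1 ≤ 3 + 1) (a2 : 3 ≤ u2) (b2 : u2 ≤ 3 + 1) (a3 : 4 ≤ u3) (b3 : u3 ≤ 4 + 1) (a4 : 9 ≤ u4) (b4 : u4 ≤ 9 + 1) (o1 : u1 ≤ u2) (o2 : u2 ≤ u3) (o3 : u3 ≤ u4) : Good u1 u2 u3 u4 ∨ Good2 u1 u2 u3 u4 :=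
  good_crude zk_3 zk_3 zk_4 zk_9 (hk_3 a1 b1) (hk_3 a2 b2) (hk_4 a3 b3) (hk_9 a4 b4) (spread_one a1 b1 a2 b2 a3 b3 a4 b4) (by linarith only [b1, a4, o2])

theorem g_3_3_5_9 (u1 u2 u3 u4 : ℝ) (a1 : 3 ≤ u1) (b1 : u1 ≤ 3 + 1) (a2 : 3 ≤ u2) (b2 : u2 ≤ 3 + 1) (a3 : 5 ≤ u3) (b3 : u3 ≤ 5 + 1) (a4 : 9 ≤ u4) (b4 : u4 ≤ 9 + 1) (o1 : u1 ≤ u2) (o2 : u2 ≤ u3) (o3 : u3 ≤ u4) : Good u1 u2 u3 u4 ∨ Good2 u1 u2 u3 u4 :=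
  good_crude zk_3 zk_3 zk_5 zk_9 (hk_3 a1 b1) (hk_3 a2 b2) (hk_5 a3 b3) (hk_9 a4 b4) (spread_one a1 b1 a2 b2 a3 b3 a4 b4) (by linarith only [b1, b2, a4])

theorem g_3_3_6_9 (u1 u2 u3 u4 : ℝ) (a1 : 3 ≤ u1) (b1 : u1 ≤ 3 + 1) (a2 : 3 ≤ u2) (b2 : u2 ≤ 3 + 1) (a3 : 6 ≤ u3) (b3 : u3 ≤ 6 + 1) (a4 : 9 ≤ u4) (b4 : u4 ≤ 9 + 1) (o1 : u1 ≤ u2) (o2 : u2 ≤ u3) (o3 : u3 ≤ u4) : Good u1 u2 u3 u4 ∨ Good2 u1 u2 u3 u4 :=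
  good_crude zk_3 zk_3 zk_6 zk_9 (hk_3 a1 b1) (hk_3 a2 b2) (hk_6 a3 b3) (hk_9 a4 b4) (spread_one a1 b1 a2 b2 a3 b3 a4 b4) (by linarith only [b1, b2, a4])

theorem g_3_3_7_9 (u1 u2 u3 u4 : ℝ) (a1 : 3 ≤ u1) (b1 : u1 ≤ 3 + 1) (a2 : 3 ≤ u2) (b2 : u2 ≤ 3 + 1) (a3 : 7 ≤ u3) (b3 : u3 ≤ 7 + 1) (a4 : 9 ≤ u4) (b4 : u4 ≤ 9 + 1) (o1 : u1 ≤ u2) (o2 : u2 ≤ u3) (o3 : u3 ≤ u4) : Good u1 u2 u3 u4 ∨ Good2 u1 u2 u3 u4 :=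
  good_crude zk_3 zk_3 zk_7 zk_9 (hk_3 a1 b1) (hk_3 a2 b2) (hk_7 a3 b3) (hk_9 a4 b4) (spread_one a1 b1 a2 b2 a3 b3 a4 b4) (by linarith only [b1, b2, b3, a4])

theorem g_3_3_8_9 (u1 u2 u3 u4 : ℝ) (a1 : 3 ≤ u1) (b1 : u1 ≤ 3 + 1) (a2 : 3 ≤ u2) (b2 : u2 ≤ 3 + 1) (a3 : 8 ≤ u3) (b3 : u3 ≤ 8 + 1) (a4 : 9 ≤ u4) (b4 : u4 ≤ 9 + 1) (o1 : u1 ≤ u2) (o2 : u2 ≤ u3) (o3 : u3 ≤ u4) : Good u1 u2 u3 u4 ∨ Good2 u1 u2 u3 u4 :=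
  good_crude zk_3 zk_3 zk_8 zk_9 (hk_3 a1 b1) (hk_3 a2 b2) (hk_8 a3 b3) (hk_9 a4 b4) (spread_one a1 b1 a2 b2 a3 b3 a4 b4) (by linarith only [b1, b2, a3, a4])

theorem g_3_3_9_9 (u1 u2 u3 u4 : ℝ) (a1 : 3 ≤ u1) (b1 : u1 ≤ 3 + 1) (a2 : 3 ≤ u2) (b2 : u2 ≤ 3 + 1) (a3 : 9 ≤ u3) (b3 : u3 ≤ 9 + 1) (a4 : 9 ≤ u4) (b4 : u4 ≤ 9 + 1) (o1 : u1 ≤ u2) (o2 : u2 ≤ u3) (o3 : u3 ≤ u4) : Good u1 u2 u3 u4 ∨ Good2 u1 u2 u3 u4 :=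
  good_crude zk_3 zk_3 zk_9 zk_9 (hk_3 a1 b1) (hk_3 a2 b2) (hk_9 a3 b3) (hk_9 a4 b4) (spread_one a1 b1 a2 b2 a3 b3 a4 b4) (by linarith only [b1, b2, a4])

theorem g_3_4_4_9 (u1 u2 u3 u4 : ℝ) (a1 : 3 ≤ u1) (b1 : u1 ≤ 3 + 1) (a2 : 4 ≤ u2) (b2 : u2 ≤ 4 + 1) (a3 : 4 ≤ u3) (b3 : u3 ≤ 4 + 1) (a4 : 9 ≤ u4) (b4 : u4 ≤ 9 + 1) (o1 : u1 ≤ u2) (o2 : u2 ≤ u3) (o3 : u3 ≤ u4) : Good u1 u2 u3 u4 ∨ Good2 u1 u2 u3 u4 :=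
  good_crude zk_3 zk_4 zk_4 zk_9 (hk_3 a1 b1) (hk_4 a2 b2) (hk_4 a3 b3) (hk_9 a4 b4) (spread_one a1 b1 a2 b2 a3 b3 a4 b4) (by linarith only [a4, o1, o2])

theorem g_3_4_5_9 (u1 u2 u3 u4 : ℝ) (a1 : 3 ≤ u1) (b1 : u1 ≤ 3 + 1) (a2 : 4 ≤ u2) (b2 : u2 ≤ 4 + 1) (a3 : 5 ≤ u3) (b3 : u3 ≤ 5 + 1) (a4 : 9 ≤ u4) (b4 : u4 ≤ 9 + 1) (o1 : u1 ≤ u2) (o2 : u2 ≤ u3) (o3 : u3 ≤ u4) : Good u1 u2 u3 u4 ∨ Good2 u1 u2 u3 u4 :=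
  good_crude zk_3 zk_4 zk_5 zk_9 (hk_3 a1 b1) (hk_4 a2 b2) (hk_5 a3 b3) (hk_9 a4 b4) (spread_one a1 b1 a2 b2 a3 b3 a4 b4) (by linarith only [b1, a2, a4])

theorem g_3_4_6_9 (u1 u2 u3 u4 : ℝ) (a1 : 3 ≤ u1) (b1 : u1 ≤ 3 + 1) (a2 : 4 ≤ u2) (b2 : u2 ≤ 4 + 1) (a3 : 6 ≤ u3) (b3 : u3 ≤ 6 + 1) (a4 : 9 ≤ u4) (b4 : u4 ≤ 9 + 1) (o1 : u1 ≤ u2) (o2 : u2 ≤ u3) (o3 : u3 ≤ u4) : Good u1 u2 u3 u4 ∨ Good2 u1 u2 u3 u4 :=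
  good_crude zk_3 zk_4 zk_6 zk_9 (hk_3 a1 b1) (hk_4 a2 b2) (hk_6 a3 b3) (hk_9 a4 b4) (spread_one a1 b1 a2 b2 a3 b3 a4 b4) (by linarith only [b1, a2, a4])

theorem g_3_4_7_9 (u1 u2 u3 u4 : ℝ) (a1 : 3 ≤ u1) (b1 : u1 ≤ 3 + 1) (a2 : 4 ≤ u2) (b2 : u2 ≤ 4 + 1) (a3 : 7 ≤ u3) (b3 : u3 ≤ 7 + 1) (a4 : 9 ≤ u4) (b4 : u4 ≤ 9 + 1) (o1 : u1 ≤ u2) (o2 : u2 ≤ u3) (o3 : u3 ≤ u4) : Good u1 u2 u3 u4 ∨ Good2 u1 u2 u3 u4 :=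
  good_crude zk_3 zk_4 zk_7 zk_9 (hk_3 a1 b1) (hk_4 a2 b2) (hk_7 a3 b3) (hk_9 a4 b4) (spread_one a1 b1 a2 b2 a3 b3 a4 b4) (by linarith only [b1, a2, b3, a4])

theorem g_3_4_8_9 (u1 u2 u3 u4 : ℝ) (a1 : 3 ≤ u1) (b1 : u1 ≤ 3 + 1) (a2 : 4 ≤ u2) (b2 : u2 ≤ 4 + 1) (a3 : 8 ≤ u3) (b3 : u3 ≤ 8 + 1) (a4 : 9 ≤ u4) (b4 : u4 ≤ 9 + 1) (o1 : u1 ≤ u2) (o2 : u2 ≤ u3) (o3 : u3 ≤ u4) : Good u1 u2 u3 u4 ∨ Good2 u1 u2 u3 u4 :=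
  good_crude zk_3 zk_4 zk_8 zk_9 (hk_3 a1 b1) (hk_4 a2 b2) (hk_8 a3 b3) (hk_9 a4 b4) (spread_one a1 b1 a2 b2 a3 b3 a4 b4) (by linarith only [b1, a2, a3, a4])

theorem g_3_4_9_9 (u1 u2 u3 u4 : ℝ) (a1 : 3 ≤ u1) (b1 : u1 ≤ 3 + 1) (a2 : 4 ≤ u2) (b2 : u2 ≤ 4 + 1) (a3 : 9 ≤ u3) (b3 : u3 ≤ 9 + 1) (a4 : 9 ≤ u4) (b4 : u4 ≤ 9 + 1) (o1 : u1 ≤ u2) (o2 : u2 ≤ u3) (o3 : u3 ≤ u4) : Good u1 u2 u3 u4 ∨ Good2 u1 u2 u3 u4 :=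
  good_crude zk_3 zk_4 zk_9 zk_9 (hk_3 a1 b1) (hk_4 a2 b2) (hk_9 a3 b3) (hk_9 a4 b4) (spread_one a1 b1 a2 b2 a3 b3 a4 b4) (by linarith only [b1, a2, a4])

theorem g_3_5_5_7 (u1 u2 u3 u4 : ℝ) (a1 : 3 ≤ u1) (b1 : u1 ≤ 3 + 1) (a2 : 5 ≤ u2) (b2 : u2 ≤ 5 + 1) (a3 : 5 ≤ u3) (b3 : u3 ≤ 5 + 1) (a4 : 7 ≤ u4) (b4 : u4 ≤ 7 + 1) (o1 : u1 ≤ u2) (o2 : u2 ≤ u3) (o3 : u3 ≤ u4) : Good u1 u2 u3 u4 ∨ Good2 u1 u2 u3 u4 :=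
  good_crude zk_3 zk_5 zk_5 zk_7 (hk_3 a1 b1) (hk_5 a2 b2) (hk_5 a3 b3) (hk_7 a4 b4) (spread_one a1 b1 a2 b2 a3 b3 a4 b4) (by linarith only [b1])

theorem g_3_5_5_8 (u1 u2 u3 u4 : ℝ) (a1 : 3 ≤ u1) (b1 : u1 ≤ 3 + 1) (a2 : 5 ≤ u2) (b2 : u2 ≤ 5 + 1) (a3 : 5 ≤ u3) (b3 : u3 ≤ 5 + 1) (a4 : 8 ≤ u4) (b4 : u4 ≤ 8 + 1) (o1 : u1 ≤ u2) (o2 : u2 ≤ u3) (o3 : u3 ≤ u4) : Good u1 u2 u3 u4 ∨ Good2 u1 u2 u3 u4 :=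
  good_crude zk_3 zk_5 zk_5 zk_8 (hk_3 a1 b1) (hk_5 a2 b2) (hk_5 a3 b3) (hk_8 a4 b4) (spread_one a1 b1 a2 b2 a3 b3 a4 b4) (by linarith only [b1, a4])

theorem g_3_5_5_9 (u1 u2 u3 u4 : ℝ) (a1 : 3 ≤ u1) (b1 : u1 ≤ 3 + 1) (a2 : 5 ≤ u2) (b2 : u2 ≤ 5 + 1) (a3 : 5 ≤ u3) (b3 : u3 ≤ 5 + 1) (a4 : 9 ≤ u4) (b4 : u4 ≤ 9 + 1) (o1 : u1 ≤ u2) (o2 : u2 ≤ u3) (o3 : u3 ≤ u4) : Good u1 u2 u3 u4 ∨ Good2 u1 u2 u3 u4 :=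
  good_crude zk_3 zk_5 zk_5 zk_9 (hk_3 a1 b1) (hk_5 a2 b2) (hk_5 a3 b3) (hk_9 a4 b4) (spread_one a1 b1 a2 b2 a3 b3 a4 b4) (by linarith only [b1, a4])

theorem g_3_5_6_7 (u1 u2 u3 u4 : ℝ) (a1 : 3 ≤ u1) (b1 : u1 ≤ 3 + 1) (a2 : 5 ≤ u2) (b2 : u2 ≤ 5 + 1) (a3 : 6 ≤ u3) (b3 : u3 ≤ 6 + 1) (a4 : 7 ≤ u4) (b4 : u4 ≤ 7 + 1) (o1 : u1 ≤ u2) (o2 : u2 ≤ u3) (o3 : u3 ≤ u4) : Good u1 u2 u3 u4 ∨ Good2 u1 u2 u3 u4 :=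
  good_crude zk_3 zk_5 zk_6 zk_7 (hk_3 a1 b1) (hk_5 a2 b2) (hk_6 a3 b3) (hk_7 a4 b4) (spread_one a1 b1 a2 b2 a3 b3 a4 b4) (by linarith only [b1])

theorem g_3_5_6_8 (u1 u2 u3 u4 : ℝ) (a1 : 3 ≤ u1) (b1 : u1 ≤ 3 + 1) (a2 : 5 ≤ u2) (b2 : u2 ≤ 5 + 1) (a3 : 6 ≤ u3) (b3 : u3 ≤ 6 + 1) (a4 : 8 ≤ u4) (b4 : u4 ≤ 8 + 1) (o1 : u1 ≤ u2) (o2 : u2 ≤ u3) (o3 : u3 ≤ u4) : Good u1 u2 u3 u4 ∨ Good2 u1 u2 u3 u4 :=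
  good_crude zk_3 zk_5 zk_6 zk_8 (hk_3 a1 b1) (hk_5 a2 b2) (hk_6 a3 b3) (hk_8 a4 b4) (spread_one a1 b1 a2 b2 a3 b3 a4 b4) (by linarith only [b1, a4])

theorem g_3_5_6_9 (u1 u2 u3 u4 : ℝ) (a1 : 3 ≤ u1) (b1 : u1 ≤ 3 + 1) (a2 : 5 ≤ u2) (b2 : u2 ≤ 5 + 1) (a3 : 6 ≤ u3) (b3 : u3 ≤ 6 + 1) (a4 : 9 ≤ u4) (b4 : u4 ≤ 9 + 1) (o1 : u1 ≤ u2) (o2 : u2 ≤ u3) (o3 : u3 ≤ u4) : Good u1 u2 u3 u4 ∨ Good2 u1 u2 u3 u4 :=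
  good_crude zk_3 zk_5 zk_6 zk_9 (hk_3 a1 b1) (hk_5 a2 b2) (hk_6 a3 b3) (hk_9 a4 b4) (spread_one a1 b1 a2 b2 a3 b3 a4 b4) (by linarith only [b1, a4])

theorem g_3_5_7_9 (u1 u2 u3 u4 : ℝ) (a1 : 3 ≤ u1) (b1 : u1 ≤ 3 + 1) (a2 : 5 ≤ u2) (b2 : u2 ≤ 5 + 1) (a3 : 7 ≤ u3) (b3 : u3 ≤ 7 + 1) (a4 : 9 ≤ u4) (b4 : u4 ≤ 9 + 1) (o1 : u1 ≤ u2) (o2 : u2 ≤ u3) (o3 : u3 ≤ u4) : Good u1 u2 u3 u4 ∨ Good2 u1 u2 u3 u4 :=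
  good_crude zk_3 zk_5 zk_7 zk_9 (hk_3 a1 b1) (hk_5 a2 b2) (hk_7 a3 b3) (hk_9 a4 b4) (spread_one a1 b1 a2 b2 a3 b3 a4 b4) (by linarith only [b1, b3, a4])

theorem g_3_5_8_9 (u1 u2 u3 u4 : ℝ) (a1 : 3 ≤ u1) (b1 : u1 ≤ 3 + 1) (a2 : 5 ≤ u2) (b2 : u2 ≤ 5 + 1) (a3 : 8 ≤ u3) (b3 : u3 ≤ 8 + 1) (a4 : 9 ≤ u4) (b4 : u4 ≤ 9 + 1) (o1 : u1 ≤ u2) (o2 : u2 ≤ u3) (o3 : u3 ≤ u4) : Good u1 u2 u3 u4 ∨ Good2 u1 u2 u3 u4 :=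
  good_crude zk_3 zk_5 zk_8 zk_9 (hk_3 a1 b1) (hk_5 a2 b2) (hk_8 a3 b3) (hk_9 a4 b4) (spread_one a1 b1 a2 b2 a3 b3 a4 b4) (by linarith only [b1, a3, a4])

theorem g_3_5_9_9 (u1 u2 u3 u4 : ℝ) (a1 : 3 ≤ u1) (b1 : u1 ≤ 3 + 1) (a2 : 5 ≤ u2) (b2 : u2 ≤ 5 + 1) (a3 : 9 ≤ u3) (b3 : u3 ≤ 9 + 1) (a4 : 9 ≤ u4) (b4 : u4 ≤ 9 + 1) (o1 : u1 ≤ u2) (o2 : u2 ≤ u3) (o3 : u3 ≤ u4) : Good u1 u2 u3 u4 ∨ Good2 u1 u2 u3 u4 :=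
  good_crude zk_3 zk_5 zk_9 zk_9 (hk_3 a1 b1) (hk_5 a2 b2) (hk_9 a3 b3) (hk_9 a4 b4) (spread_one a1 b1 a2 b2 a3 b3 a4 b4) (by linarith only [b1, a4])

theorem g_3_6_6_7 (u1 u2 u3 u4 : ℝ) (a1 : 3 ≤ u1) (b1 : u1 ≤ 3 + 1) (a2 : 6 ≤ u2) (b2 : u2 ≤ 6 + 1) (a3 : 6 ≤ u3) (b3 : u3 ≤ 6 + 1) (a4 : 7 ≤ u4) (b4 : u4 ≤ 7 + 1) (o1 : u1 ≤ u2) (o2 : u2 ≤ u3) (o3 : u3 ≤ u4) : Good u1 u2 u3 u4 ∨ Good2 u1 u2 u3 u4 :=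
  good_crude zk_3 zk_6 zk_6 zk_7 (hk_3 a1 b1) (hk_6 a2 b2) (hk_6 a3 b3) (hk_7 a4 b4) (spread_one a1 b1 a2 b2 a3 b3 a4 b4) (by linarith only [b1])

theorem g_3_6_6_8 (u1 u2 u3 u4 : ℝ) (a1 : 3 ≤ u1) (b1 : u1 ≤ 3 + 1) (a2 : 6 ≤ u2) (b2 : u2 ≤ 6 + 1) (a3 : 6 ≤ u3) (b3 : u3 ≤ 6 + 1) (a4 : 8 ≤ u4) (b4 : u4 ≤ 8 + 1) (o1 : u1 ≤ u2) (o2 : u2 ≤ u3) (o3 : u3 ≤ u4) : Good u1 u2 u3 u4 ∨ Good2 u1 u2 u3 u4 :=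
  good_crude zk_3 zk_6 zk_6 zk_8 (hk_3 a1 b1) (hk_6 a2 b2) (hk_6 a3 b3) (hk_8 a4 b4) (spread_one a1 b1 a2 b2 a3 b3 a4 b4) (by linarith only [b1, a4])

theorem g_3_6_6_9 (u1 u2 u3 u4 : ℝ) (a1 : 3 ≤ u1) (b1 : u1 ≤ 3 + 1) (a2 : 6 ≤ u2) (b2 : u2 ≤ 6 + 1) (a3 : 6 ≤ u3) (b3 : u3 ≤ 6 + 1) (a4 : 9 ≤ u4) (b4 : u4 ≤ 9 + 1) (o1 : u1 ≤ u2) (o2 : u2 ≤ u3) (o3 : u3 ≤ u4) : Good u1 u2 u3 u4 ∨ Good2 u1 u2 u3 u4 :=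
  good_crude zk_3 zk_6 zk_6 zk_9 (hk_3 a1 b1) (hk_6 a2 b2) (hk_6 a3 b3) (hk_9 a4 b4) (spread_one a1 b1 a2 b2 a3 b3 a4 b4) (by linarith only [b1, a4])

theorem g_3_6_7_9 (u1 u2 u3 u4 : ℝ) (a1 : 3 ≤ u1) (b1 : u1 ≤ 3 + 1) (a2 : 6 ≤ u2) (b2 : u2 ≤ 6 + 1) (a3 : 7 ≤ u3) (b3 : u3 ≤ 7 + 1) (a4 : 9 ≤ u4) (b4 : u4 ≤ 9 + 1) (o1 : u1 ≤ u2) (o2 : u2 ≤ u3) (o3 : u3 ≤ u4) : Good u1 u2 u3 u4 ∨ Good2 u1 u2 u3 u4 :=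
  good_crude zk_3 zk_6 zk_7 zk_9 (hk_3 a1 b1) (hk_6 a2 b2) (hk_7 a3 b3) (hk_9 a4 b4) (spread_one a1 b1 a2 b2 a3 b3 a4 b4) (by linarith only [b1, b3, a4])

theorem g_3_6_8_9 (u1 u2 u3 u4 : ℝ) (a1 : 3 ≤ u1) (b1 : u1 ≤ 3 + 1) (a2 : 6 ≤ u2) (b2 : u2 ≤ 6 + 1) (a3 : 8 ≤ u3) (b3 : u3 ≤ 8 + 1) (a4 : 9 ≤ u4) (b4 : u4 ≤ 9 + 1) (o1 : u1 ≤ u2) (o2 : u2 ≤ u3) (o3 : u3 ≤ u4) : Good u1 u2 u3 u4 ∨ Good2 u1 u2 u3 u4 :=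
  good_crude zk_3 zk_6 zk_8 zk_9 (hk_3 a1 b1) (hk_6 a2 b2) (hk_8 a3 b3) (hk_9 a4 b4) (spread_one a1 b1 a2 b2 a3 b3 a4 b4) (by linarith only [b1, a3, a4])

theorem g_3_6_9_9 (u1 u2 u3 u4 : ℝ) (a1 : 3 ≤ u1) (b1 : u1 ≤ 3 + 1) (a2 : 6 ≤ u2) (b2 : u2 ≤ 6 + 1) (a3 : 9 ≤ u3) (b3 : u3 ≤ 9 + 1) (a4 : 9 ≤ u4) (b4 : u4 ≤ 9 + 1) (o1 : u1 ≤ u2) (o2 : u2 ≤ u3) (o3 : u3 ≤ u4) : Good u1 u2 u3 u4 ∨ Good2 u1 u2 u3 u4 :=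
  good_crude zk_3 zk_6 zk_9 zk_9 (hk_3 a1 b1) (hk_6 a2 b2) (hk_9 a3 b3) (hk_9 a4 b4) (spread_one a1 b1 a2 b2 a3 b3 a4 b4) (by linarith only [b1, a4])

theorem g_3_7_7_9 (u1 u2 u3 u4 : ℝ) (a1 : 3 ≤ u1) (b1 : u1 ≤ 3 + 1) (a2 : 7 ≤ u2) (b2 : u2 ≤ 7 + 1) (a3 : 7 ≤ u3) (b3 : u3 ≤ 7 + 1) (a4 : 9 ≤ u4) (b4 : u4 ≤ 9 + 1) (o1 : u1 ≤ u2) (o2 : u2 ≤ u3) (o3 : u3 ≤ u4) : Good u1 u2 u3 u4 ∨ Good2 u1 u2 u3 u4 :=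
  good_crude zk_3 zk_7 zk_7 zk_9 (hk_3 a1 b1) (hk_7 a2 b2) (hk_7 a3 b3) (hk_9 a4 b4) (spread_one a1 b1 a2 b2 a3 b3 a4 b4) (by linarith only [b1, b2, b3, a4])

theorem g_3_7_8_9 (u1 u2 u3 u4 : ℝ) (a1 : 3 ≤ u1) (b1 : u1 ≤ 3 + 1) (a2 : 7 ≤ u2) (b2 : u2 ≤ 7 + 1) (a3 : 8 ≤ u3) (b3 : u3 ≤ 8 + 1) (a4 : 9 ≤ u4) (b4 : u4 ≤ 9 + 1) (o1 : u1 ≤ u2) (o2 : u2 ≤ u3) (o3 : u3 ≤ u4) : Good u1 u2 u3 u4 ∨ Good2 u1 u2 u3 u4 :=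
  good_crude zk_3 zk_7 zk_8 zk_9 (hk_3 a1 b1) (hk_7 a2 b2) (hk_8 a3 b3) (hk_9 a4 b4) (spread_one a1 b1 a2 b2 a3 b3 a4 b4) (by linarith only [b1, a4, o2])

theorem g_3_7_9_9 (u1 u2 u3 u4 : ℝ) (a1 : 3 ≤ u1) (b1 : u1 ≤ 3 + 1) (a2 : 7 ≤ u2) (b2 : u2 ≤ 7 + 1) (a3 : 9 ≤ u3) (b3 : u3 ≤ 9 + 1) (a4 : 9 ≤ u4) (b4 : u4 ≤ 9 + 1) (o1 : u1 ≤ u2) (o2 : u2 ≤ u3) (o3 : u3 ≤ u4) : Good u1 u2 u3 u4 ∨ Good2 u1 u2 u3 u4 :=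
  good_crude zk_3 zk_7 zk_9 zk_9 (hk_3 a1 b1) (hk_7 a2 b2) (hk_9 a3 b3) (hk_9 a4 b4) (spread_one a1 b1 a2 b2 a3 b3 a4 b4) (by linarith only [b1, b2, a4])

theorem g_3_8_8_9 (u1 u2 u3 u4 : ℝ) (a1 : 3 ≤ u1) (b1 : u1 ≤ 3 + 1) (a2 : 8 ≤ u2) (b2 : u2 ≤ 8 + 1) (a3 : 8 ≤ u3) (b3 : u3 ≤ 8 + 1) (a4 : 9 ≤ u4) (b4 : u4 ≤ 9 + 1) (o1 : u1 ≤ u2) (o2 : u2 ≤ u3) (o3 : u3 ≤ u4) : Good u1 u2 u3 u4 ∨ Good2 u1 u2 u3 u4 :=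
  good_crude zk_3 zk_8 zk_8 zk_9 (hk_3 a1 b1) (hk_8 a2 b2) (hk_8 a3 b3) (hk_9 a4 b4) (spread_one a1 b1 a2 b2 a3 b3 a4 b4) (by linarith only [b1, a2, a3, a4])

theorem g_3_8_9_9 (u1 u2 u3 u4 : ℝ) (a1 : 3 ≤ u1) (b1 : u1 ≤ 3 + 1) (a2 : 8 ≤ u2) (b2 : u2 ≤ 8 + 1) (a3 : 9 ≤ u3) (b3 : u3 ≤ 9 + 1) (a4 : 9 ≤ u4) (b4 : u4 ≤ 9 + 1) (o1 : u1 ≤ u2) (o2 : u2 ≤ u3) (o3 : u3 ≤ u4) : Good u1 u2 u3 u4 ∨ Good2 u1 u2 u3 u4 :=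
  good_crude zk_3 zk_8 zk_9 zk_9 (hk_3 a1 b1) (hk_8 a2 b2) (hk_9 a3 b3) (hk_9 a4 b4) (spread_one a1 b1 a2 b2 a3 b3 a4 b4) (by linarith only [b1, a2, a4])

theorem g_3_9_9_9 (u1 u2 u3 u4 : ℝ) (a1 : 3 ≤ u1) (b1 : u1 ≤ 3 + 1) (a2 : 9 ≤ u2) (b2 : u2 ≤ 9 + 1) (a3 : 9 ≤ u3) (b3 : u3 ≤ 9 + 1) (a4 : 9 ≤ u4) (b4 : u4 ≤ 9 + 1) (o1 : u1 ≤ u2) (o2 : u2 ≤ u3) (o3 : u3 ≤ u4) : Good u1 u2 u3 u4 ∨ Good2 u1 u2 u3 u4 :=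
  good_crude zk_3 zk_9 zk_9 zk_9 (hk_3 a1 b1) (hk_9 a2 b2) (hk_9 a3 b3) (hk_9 a4 b4) (spread_one a1 b1 a2 b2 a3 b3 a4 b4) (by linarith only [b1, a4])

end Pool.Agent.W401.WC
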