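import Pool.Agent.W401.WC.GS
import Pool.Agent.W401.WC.G0
import Pool.Agent.W401.WC.G1
import Pool.Agent.W401.WC.G2
import Pool.Agent.W401.WC.G3
import Pool.Agent.W401.WC.G4
set_option autoImplicit false
set_option linter.all false
namespace Pool.Agent.W401.WC

theorem d3_0_0_0 (u1 u2 u3 u4 : ℝ) (a1 : 0 ≤ u1) (b1 : u1 ≤ 0 + 1) (a2 : 0 ≤ u2) (b2 : u2 ≤ 0 + 1) (a3 : 0 ≤ u3) (b3 : u3 ≤ 0 + 1) (b4 : u4 ≤ 7) (o1 : u1 ≤ u2) (o2 : u2 ≤ u3) (o3 : u3 ≤ u4) : Good u1 u2 u3 u4 ∨ Good2 u1 u2 u3 u4 := by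
  rcases le_total u4 1 with h0 | h0
  · exact g_0_0_0_0 u1 u2 u3 u4 a1 b1 a2 b2 a3 b3 (by linarith) (by linarith) o1 o2 o3
  rcases le_total u4 2 with h1 | h1
  · exact g_0_0_0_1 u1 u2 u3 u4 a1 b1 a2 b2 a3 b3 (by linarith) (by linarith) o1 o2 o3
  rcases le_total u4 3 with h2 | h2
  · exact g_0_0_0_2 u1 u2 u3 u4 a1 b1 a2 b2 a3 b3 (by linarith) (by linarith) o1 o2 o3
  rcases le_total u4 4 with h3 | h3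
  · exact g_0_0_0_3 u1 u2 u3 u4 a1 b1 a2 b2 a3 b3 (by linarith) (by linarith) o1 o2 o3
  rcases le_total u4 5 with h4 | h4
  · exact g_0_0_0_4 u1 u2 u3 u4 a1 b1 a2 b2 a3 b3 (by linarith) (by linarith) o1 o2 o3
  rcases le_total u4 6 with h5 | h5
  · exact g_0_0_0_5 u1 u2 u3 u4 a1 b1 a2 b2 a3 b3 (by linarith) (by linarith) o1 o2 o3
  exact g_0_0_0_6 u1 u2 u3 u4 a1 b1 a2 b2 a3 b3 (by linarith) (by linarith) o1 o2 o3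

theorem d3_0_0_1 (u1 u2 u3 u4 : ℝ) (a1 : 0 ≤ u1) (b1 : u1 ≤ 0 + 1) (a2 : 0 ≤ u2) (b2 : u2 ≤ 0 + 1) (a3 : 1 ≤ u3) (b3 : u3 ≤ 1 + 1) (b4 : u4 ≤ 7) (o1 : u1 ≤ u2) (o2 : u2 ≤ u3) (o3 : u3 ≤ u4) : Good u1 u2 u3 u4 ∨ Good2 u1 u2 u3 u4 := by
  rcases le_total u4 2 with h1 | h1
  · exact g_0_0_1_1 u1 u2 u3 u4 a1 b1 a2 b2 a3 b3 (by linarith) (by linarith) o1 o2 o3
  rcases le_total u4 3 with h2 | h2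
  · exact g_0_0_1_2 u1 u2 u3 u4 a1 b1 a2 b2 a3 b3 (by linarith) (by linarith) o1 o2 o3
  rcases le_total u4 4 with h3 | h3
  · exact g_0_0_1_3 u1 u2 u3 u4 a1 b1 a2 b2 a3 b3 (by linarith) (by linarith) o1 o2 o3
  rcases le_total u4 5 with h4 | h4
  · exact g_0_0_1_4 u1 u2 u3 u4 a1 b1 a2 b2 a3 b3 (by linarith) (by linarith) o1 o2 o3
  rcases le_total u4 6 with h5 | h5
  · exact g_0_0_1_5 u1 u2 u3 u4 a1 b1 a2 b2 a3 b3 (by linarith) (by linarith) o1 o2 o3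
  exact g_0_0_1_6 u1 u2 u3 u4 a1 b1 a2 b2 a3 b3 (by linarith) (by linarith) o1 o2 o3

theorem d3_0_0_2 (u1 u2 u3 u4 : ℝ) (a1 : 0 ≤ u1) (b1 : u1 ≤ 0 + 1) (a2 : 0 ≤ u2) (b2 : u2 ≤ 0 + 1) (a3 : 2 ≤ u3) (b3 : u3 ≤ 2 + 1) (b4 : u4 ≤ 7) (o1 : u1 ≤ u2) (o2 : u2 ≤ u3) (o3 : u3 ≤ u4) : Good u1 u2 u3 u4 ∨ Good2 u1 u2 u3 u4 := by
  rcases le_total u4 3 with h2 | h2
  · exact g_0_0_2_2 u1 u2 u3 u4 a1 b1 a2 b2 a3 b3 (by linarith) (by linarith) o1 o2 o3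
  rcases le_total u4 4 with h3 | h3
  · exact g_0_0_2_3 u1 u2 u3 u4 a1 b1 a2 b2 a3 b3 (by linarith) (by linarith) o1 o2 o3
  rcases le_total u4 5 with h4 | h4
  · exact g_0_0_2_4 u1 u2 u3 u4 a1 b1 a2 b2 a3 b3 (by linarith) (by linarith) o1 o2 o3
  rcases le_total u4 6 with h5 | h5
  · exact g_0_0_2_5 u1 u2 u3 u4 a1 b1 a2 b2 a3 b3 (by linarith) (by linarith) o1 o2 o3
  exact g_0_0_2_6 u1 u2 u3 u4 a1 b1 a2 b2 a3 b3 (by linarith) (by linarith) o1 o2 o3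

theorem d3_0_0_3 (u1 u2 u3 u4 : ℝ) (a1 : 0 ≤ u1) (b1 : u1 ≤ 0 + 1) (a2 : 0 ≤ u2) (b2 : u2 ≤ 0 + 1) (a3 : 3 ≤ u3) (b3 : u3 ≤ 3 + 1) (b4 : u4 ≤ 7) (o1 : u1 ≤ u2) (o2 : u2 ≤ u3) (o3 : u3 ≤ u4) : Good u1 u2 u3 u4 ∨ Good2 u1 u2 u3 u4 := by
  rcases le_total u4 4 with h3 | h3
  · exact g_0_0_3_3 u1 u2 u3 u4 a1 b1 a2 b2 a3 b3 (by linarith) (by linarith) o1 o2 o3
  rcases le_total u4 5 with h4 | h4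
  · exact g_0_0_3_4 u1 u2 u3 u4 a1 b1 a2 b2 a3 b3 (by linarith) (by linarith) o1 o2 o3
  rcases le_total u4 6 with h5 | h5
  · exact g_0_0_3_5 u1 u2 u3 u4 a1 b1 a2 b2 a3 b3 (by linarith) (by linarith) o1 o2 o3
  exact g_0_0_3_6 u1 u2 u3 u4 a1 b1 a2 b2 a3 b3 (by linarith) (by linarith) o1 o2 o3

theorem d3_0_0_4 (u1 u2 u3 u4 : ℝ) (a1 : 0 ≤ u1) (b1 : u1 ≤ 0 + 1) (a2 : 0 ≤ u2) (b2 : u2 ≤ 0 + 1) (a3 : 4 ≤ u3) (b3 : u3 ≤ 4 + 1) (b4 : u4 ≤ 7) (o1 : u1 ≤ u2) (o2 : u2 ≤ u3) (o3 : u3 ≤ u4) : Good u1 u2 u3 u4 ∨ Good2 u1 u2 u3 u4 := by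
  rcases le_total u4 5 with h4 | h4
  · exact g_0_0_4_4 u1 u2 u3 u4 a1 b1 a2 b2 a3 b3 (by linarith) (by linarith) o1 o2 o3
  rcases le_total u4 6 with h5 | h5
  · exact g_0_0_4_5 u1 u2 u3 u4 a1 b1 a2 b2 a3 b3 (by linarith) (by linarith) o1 o2 o3
  exact g_0_0_4_6 u1 u2 u3 u4 a1 b1 a2 b2 a3 b3 (by linarith) (by linarith) o1 o2 o3

theorem d3_0_0_5 (u1 u2 u3 u4 : ℝ) (a1 : 0 ≤ u1) (b1 : u1 ≤ 0 + 1) (a2 : 0 ≤ u2) (b2 : u2 ≤ 0 + 1) (a3 : 5 ≤ u3) (b3 : u3 ≤ 5 + 1) (b4 : u4 ≤ 7) (o1 : u1 ≤ u2) (o2 : u2 ≤ u3) (o3 : u3 ≤ u4) : Good u1 u2 u3 u4 ∨ Good2 u1 u2 u3 u4 := by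
  rcases le_total u4 6 with h5 | h5
  · exact g_0_0_5_5 u1 u2 u3 u4 a1 b1 a2 b2 a3 b3 (by linarith) (by linarith) o1 o2 o3
  exact g_0_0_5_6 u1 u2 u3 u4 a1 b1 a2 b2 a3 b3 (by linarith) (by linarith) o1 o2 o3

theorem d3_0_0_6 (u1 u2 u3 u4 : ℝ) (a1 : 0 ≤ u1) (b1 : u1 ≤ 0 + 1) (a2 : 0 ≤ u2) (b2 : u2 ≤ 0 + 1) (a3 : 6 ≤ u3) (b3 : u3 ≤ 6 + 1) (b4 : u4 ≤ 7) (o1 : u1 ≤ u2) (o2 : u2 ≤ u3) (o3 : u3 ≤ u4) : Good u1 u2 u3 u4 ∨ Good2 u1 u2 u3 u4 := by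
  exact g_0_0_6_6 u1 u2 u3 u4 a1 b1 a2 b2 a3 b3 (by linarith) (by linarith) o1 o2 o3

theorem d2_0_0 (u1 u2 u3 u4 : ℝ) (a1 : 0 ≤ u1) (b1 : u1 ≤ 0 + 1) (a2 : 0 ≤ u2) (b2 : u2 ≤ 0 + 1) (b4 : u4 ≤ 7) (o1 : u1 ≤ u2) (o2 : u2 ≤ u3) (o3 : u3 ≤ u4) : Good u1 u2 u3 u4 ∨ Good2 u1 u2 u3 u4 := by
  rcases le_total u3 1 with h0 | h0
  · exact d3_0_0_0 u1 u2 u3 u4 a1 b1 a2 b2 (by linarith) (by linarith) b4 o1 o2 o3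
  rcases le_total u3 2 with h1 | h1
  · exact d3_0_0_1 u1 u2 u3 u4 a1 b1 a2 b2 (by linarith) (by linarith) b4 o1 o2 o3
  rcases le_total u3 3 with h2 | h2
  · exact d3_0_0_2 u1 u2 u3 u4 a1 b1 a2 b2 (by linarith) (by linarith) b4 o1 o2 o3
  rcases le_total u3 4 with h3 | h3
  · exact d3_0_0_3 u1 u2 u3 u4 a1 b1 a2 b2 (by linarith) (by linarith) b4 o1 o2 o3
  rcases le_total u3 5 with h4 | h4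
  · exact d3_0_0_4 u1 u2 u3 u4 a1 b1 a2 b2 (by linarith) (by linarith) b4 o1 o2 o3
  rcases le_total u3 6 with h5 | h5
  · exact d3_0_0_5 u1 u2 u3 u4 a1 b1 a2 b2 (by linarith) (by linarith) b4 o1 o2 o3
  exact d3_0_0_6 u1 u2 u3 u4 a1 b1 a2 b2 (by linarith) (by linarith) b4 o1 o2 o3

theorem d3_0_1_1 (u1 u2 u3 u4 : ℝ) (a1 : 0 ≤ u1) (b1 : u1 ≤ 0 + 1) (a2 : 1 ≤ u2) (b2 : u2 ≤ 1 + 1) (a3 : 1 ≤ u3) (b3 : u3 ≤ 1 + 1) (b4 : u4 ≤ 7) (o1 : u1 ≤ u2) (o2 : u2 ≤ u3) (o3 : u3 ≤ u4) : Good u1 u2 u3 u4 ∨ Good2 u1 u2 u3 u4 := by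
  rcases le_total u4 2 with h1 | h1
  · exact g_0_1_1_1 u1 u2 u3 u4 a1 b1 a2 b2 a3 b3 (by linarith) (by linarith) o1 o2 o3
  rcases le_total u4 3 with h2 | h2
  · exact g_0_1_1_2 u1 u2 u3 u4 a1 b1 a2 b2 a3 b3 (by linarith) (by linarith) o1 o2 o3
  rcases le_total u4 4 with h3 | h3
  · exact g_0_1_1_3 u1 u2 u3 u4 a1 b1 a2 b2 a3 b3 (by linarith) (by linarith) o1 o2 o3
  rcases le_total u4 5 with h4 | h4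
  · exact g_0_1_1_4 u1 u2 u3 u4 a1 b1 a2 b2 a3 b3 (by linarith) (by linarith) o1 o2 o3
  rcases le_total u4 6 with h5 | h5
  · exact g_0_1_1_5 u1 u2 u3 u4 a1 b1 a2 b2 a3 b3 (by linarith) (by linarith) o1 o2 o3
  exact g_0_1_1_6 u1 u2 u3 u4 a1 b1 a2 b2 a3 b3 (by linarith) (by linarith) o1 o2 o3

theorem d3_0_1_2 (u1 u2 u3 u4 : ℝ) (a1 : 0 ≤ u1) (b1 : u1 ≤ 0 + 1) (a2 : 1 ≤ u2) (b2 : u2 ≤ 1 + 1) (a3 : 2 ≤ u3) (b3 : u3 ≤ 2 + 1) (b4 : u4 ≤ 7) (o1 : u1 ≤ u2) (o2 : u2 ≤ u3) (o3 : u3 ≤ u4) : Good u1 u2 u3 u4 ∨ Good2 u1 u2 u3 u4 := by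
  rcases le_total u4 3 with h2 | h2
  · exact g_0_1_2_2 u1 u2 u3 u4 a1 b1 a2 b2 a3 b3 (by linarith) (by linarith) o1 o2 o3
  rcases le_total u4 4 with h3 | h3
  · exact g_0_1_2_3 u1 u2 u3 u4 a1 b1 a2 b2 a3 b3 (by linarith) (by linarith) o1 o2 o3
  rcases le_total u4 5 with h4 | h4
  · exact g_0_1_2_4 u1 u2 u3 u4 a1 b1 a2 b2 a3 b3 (by linarith) (by linarith) o1 o2 o3
  rcases le_total u4 6 with h5 | h5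
  · exact g_0_1_2_5 u1 u2 u3 u4 a1 b1 a2 b2 a3 b3 (by linarith) (by linarith) o1 o2 o3
  exact g_0_1_2_6 u1 u2 u3 u4 a1 b1 a2 b2 a3 b3 (by linarith) (by linarith) o1 o2 o3

theorem d3_0_1_3 (u1 u2 u3 u4 : ℝ) (a1 : 0 ≤ u1) (b1 : u1 ≤ 0 + 1) (a2 : 1 ≤ u2) (b2 : u2 ≤ 1 + 1) (a3 : 3 ≤ u3) (b3 : u3 ≤ 3 + 1) (b4 : u4 ≤ 7) (o1 : u1 ≤ u2) (o2 : u2 ≤ u3) (o3 : u3 ≤ u4) : Good u1 u2 u3 u4 ∨ Good2 u1 u2 u3 u4 := by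
  rcases le_total u4 4 with h3 | h3
  · exact g_0_1_3_3 u1 u2 u3 u4 a1 b1 a2 b2 a3 b3 (by linarith) (by linarith) o1 o2 o3
  rcases le_total u4 5 with h4 | h4
  · exact g_0_1_3_4 u1 u2 u3 u4 a1 b1 a2 b2 a3 b3 (by linarith) (by linarith) o1 o2 o3
  rcases le_total u4 6 with h5 | h5
  · exact g_0_1_3_5 u1 u2 u3 u4 a1 b1 a2 b2 a3 b3 (by linarith) (by linarith) o1 o2 o3
  exact g_0_1_3_6 u1 u2 u3 u4 a1 b1 a2 b2 a3 b3 (by linarith) (by linarith) o1 o2 o3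

theorem d3_0_1_4 (u1 u2 u3 u4 : ℝ) (a1 : 0 ≤ u1) (b1 : u1 ≤ 0 + 1) (a2 : 1 ≤ u2) (b2 : u2 ≤ 1 + 1) (a3 : 4 ≤ u3) (b3 : u3 ≤ 4 + 1) (b4 : u4 ≤ 7) (o1 : u1 ≤ u2) (o2 : u2 ≤ u3) (o3 : u3 ≤ u4) : Good u1 u2 u3 u4 ∨ Good2 u1 u2 u3 u4 := by
  rcases le_total u4 5 with h4 | h4
  · exact g_0_1_4_4 u1 u2 u3 u4 a1 b1 a2 b2 a3 b3 (by linarith) (by linarith) o1 o2 o3
  rcases le_total u4 6 with h5 | h5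
  · exact g_0_1_4_5 u1 u2 u3 u4 a1 b1 a2 b2 a3 b3 (by linarith) (by linarith) o1 o2 o3
  exact g_0_1_4_6 u1 u2 u3 u4 a1 b1 a2 b2 a3 b3 (by linarith) (by linarith) o1 o2 o3

theorem d3_0_1_5 (u1 u2 u3 u4 : ℝ) (a1 : 0 ≤ u1) (b1 : u1 ≤ 0 + 1) (a2 : 1 ≤ u2) (b2 : u2 ≤ 1 + 1) (a3 : 5 ≤ u3) (b3 : u3 ≤ 5 + 1) (b4 : u4 ≤ 7) (o1 : u1 ≤ u2) (o2 : u2 ≤ u3) (o3 : u3 ≤ u4) : Good u1 u2 u3 u4 ∨ Good2 u1 u2 u3 u4 := by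
  rcases le_total u4 6 with h5 | h5
  · exact g_0_1_5_5 u1 u2 u3 u4 a1 b1 a2 b2 a3 b3 (by linarith) (by linarith) o1 o2 o3
  exact g_0_1_5_6 u1 u2 u3 u4 a1 b1 a2 b2 a3 b3 (by linarith) (by linarith) o1 o2 o3

theorem d3_0_1_6 (u1 u2 u3 u4 : ℝ) (a1 : 0 ≤ u1) (b1 : u1 ≤ 0 + 1) (a2 : 1 ≤ u2) (b2 : u2 ≤ 1 + 1) (a3 : 6 ≤ u3) (b3 : u3 ≤ 6 + 1) (b4 : u4 ≤ 7) (o1 : u1 ≤ u2) (o2 : u2 ≤ u3) (o3 : u3 ≤ u4) : Good u1 u2 u3 u4 ∨ Good2 u1 u2 u3 u4 := by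
  exact g_0_1_6_6 u1 u2 u3 u4 a1 b1 a2 b2 a3 b3 (by linarith) (by linarith) o1 o2 o3

theorem d2_0_1 (u1 u2 u3 u4 : ℝ) (a1 : 0 ≤ u1) (b1 : u1 ≤ 0 + 1) (a2 : 1 ≤ u2) (b2 : u2 ≤ 1 + 1) (b4 : u4 ≤ 7) (o1 : u1 ≤ u2) (o2 : u2 ≤ u3) (o3 : u3 ≤ u4) : Good u1 u2 u3 u4 ∨ Good2 u1 u2 u3 u4 := by
  rcases le_total u3 2 with h1 | h1
  · exact d3_0_1_1 u1 u2 u3 u4 a1 b1 a2 b2 (by linarith) (by linarith) b4 o1 o2 o3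
  rcases le_total u3 3 with h2 | h2
  · exact d3_0_1_2 u1 u2 u3 u4 a1 b1 a2 b2 (by linarith) (by linarith) b4 o1 o2 o3
  rcases le_total u3 4 with h3 | h3
  · exact d3_0_1_3 u1 u2 u3 u4 a1 b1 a2 b2 (by linarith) (by linarith) b4 o1 o2 o3
  rcases le_total u3 5 with h4 | h4
  · exact d3_0_1_4 u1 u2 u3 u4 a1 b1 a2 b2 (by linarith) (by linarith) b4 o1 o2 o3
  rcases le_total u3 6 with h5 | h5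
  · exact d3_0_1_5 u1 u2 u3 u4 a1 b1 a2 b2 (by linarith) (by linarith) b4 o1 o2 o3
  exact d3_0_1_6 u1 u2 u3 u4 a1 b1 a2 b2 (by linarith) (by linarith) b4 o1 o2 o3

theorem d3_0_2_2 (u1 u2 u3 u4 : ℝ) (a1 : 0 ≤ u1) (b1 : u1 ≤ 0 + 1) (a2 : 2 ≤ u2) (b2 : u2 ≤ 2 + 1) (a3 : 2 ≤ u3) (b3 : u3 ≤ 2 + 1) (b4 : u4 ≤ 7) (o1 : u1 ≤ u2) (o2 : u2 ≤ u3) (o3 : u3 ≤ u4) : Good u1 u2 u3 u4 ∨ Good2 u1 u2 u3 u4 := by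
  rcases le_total u4 3 with h2 | h2
  · exact g_0_2_2_2 u1 u2 u3 u4 a1 b1 a2 b2 a3 b3 (by linarith) (by linarith) o1 o2 o3
  rcases le_total u4 4 with h3 | h3
  · exact g_0_2_2_3 u1 u2 u3 u4 a1 b1 a2 b2 a3 b3 (by linarith) (by linarith) o1 o2 o3
  rcases le_total u4 5 with h4 | h4
  · exact g_0_2_2_4 u1 u2 u3 u4 a1 b1 a2 b2 a3 b3 (by linarith) (by linarith) o1 o2 o3
  rcases le_total u4 6 with h5 | h5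
  · exact g_0_2_2_5 u1 u2 u3 u4 a1 b1 a2 b2 a3 b3 (by linarith) (by linarith) o1 o2 o3
  exact g_0_2_2_6 u1 u2 u3 u4 a1 b1 a2 b2 a3 b3 (by linarith) (by linarith) o1 o2 o3

theorem d3_0_2_3 (u1 u2 u3 u4 : ℝ) (a1 : 0 ≤ u1) (b1 : u1 ≤ 0 + 1) (a2 : 2 ≤ u2) (b2 : u2 ≤ 2 + 1) (a3 : 3 ≤ u3) (b3 : u3 ≤ 3 + 1) (b4 : u4 ≤ 7) (o1 : u1 ≤ u2) (o2 : u2 ≤ u3) (o3 : u3 ≤ u4) : Good u1 u2 u3 u4 ∨ Good2 u1 u2 u3 u4 := by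
  rcases le_total u4 4 with h3 | h3
  · exact g_0_2_3_3 u1 u2 u3 u4 a1 b1 a2 b2 a3 b3 (by linarith) (by linarith) o1 o2 o3
  rcases le_total u4 5 with h4 | h4
  · exact g_0_2_3_4 u1 u2 u3 u4 a1 b1 a2 b2 a3 b3 (by linarith) (by linarith) o1 o2 o3
  rcases le_total u4 6 with h5 | h5
  · exact g_0_2_3_5 u1 u2 u3 u4 a1 b1 a2 b2 a3 b3 (by linarith) (by linarith) o1 o2 o3
  exact g_0_2_3_6 u1 u2 u3 u4 a1 b1 a2 b2 a3 b3 (by linarith) (by linarith) o1 o2 o3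

theorem d3_0_2_4 (u1 u2 u3 u4 : ℝ) (a1 : 0 ≤ u1) (b1 : u1 ≤ 0 + 1) (a2 : 2 ≤ u2) (b2 : u2 ≤ 2 + 1) (a3 : 4 ≤ u3) (b3 : u3 ≤ 4 + 1) (b4 : u4 ≤ 7) (o1 : u1 ≤ u2) (o2 : u2 ≤ u3) (o3 : u3 ≤ u4) : Good u1 u2 u3 u4 ∨ Good2 u1 u2 u3 u4 := by
  rcases le_total u4 5 with h4 | h4
  · exact g_0_2_4_4 u1 u2 u3 u4 a1 b1 a2 b2 a3 b3 (by linarith) (by linarith) o1 o2 o3
  rcases le_total u4 6 with h5 | h5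
  · exact g_0_2_4_5 u1 u2 u3 u4 a1 b1 a2 b2 a3 b3 (by linarith) (by linarith) o1 o2 o3
  exact g_0_2_4_6 u1 u2 u3 u4 a1 b1 a2 b2 a3 b3 (by linarith) (by linarith) o1 o2 o3

theorem d3_0_2_5 (u1 u2 u3 u4 : ℝ) (a1 : 0 ≤ u1) (b1 : u1 ≤ 0 + 1) (a2 : 2 ≤ u2) (b2 : u2 ≤ 2 + 1) (a3 : 5 ≤ u3) (b3 : u3 ≤ 5 + 1) (b4 : u4 ≤ 7) (o1 : u1 ≤ u2) (o2 : u2 ≤ u3) (o3 : u3 ≤ u4) : Good u1 u2 u3 u4 ∨ Good2 u1 u2 u3 u4 := by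
  rcases le_total u4 6 with h5 | h5
  · exact g_0_2_5_5 u1 u2 u3 u4 a1 b1 a2 b2 a3 b3 (by linarith) (by linarith) o1 o2 o3
  exact g_0_2_5_6 u1 u2 u3 u4 a1 b1 a2 b2 a3 b3 (by linarith) (by linarith) o1 o2 o3

theorem d3_0_2_6 (u1 u2 u3 u4 : ℝ) (a1 : 0 ≤ u1) (b1 : u1 ≤ 0 + 1) (a2 : 2 ≤ u2) (b2 : u2 ≤ 2 + 1) (a3 : 6 ≤ u3) (b3 : u3 ≤ 6 + 1) (b4 : u4 ≤ 7) (o1 : u1 ≤ u2) (o2 : u2 ≤ u3) (o3 : u3 ≤ u4) : Good u1 u2 u3 u4 ∨ Good2 u1 u2 u3 u4 := by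
  exact g_0_2_6_6 u1 u2 u3 u4 a1 b1 a2 b2 a3 b3 (by linarith) (by linarith) o1 o2 o3

theorem d2_0_2 (u1 u2 u3 u4 : ℝ) (a1 : 0 ≤ u1) (b1 : u1 ≤ 0 + 1) (a2 : 2 ≤ u2) (b2 : u2 ≤ 2 + 1) (b4 : u4 ≤ 7) (o1 : u1 ≤ u2) (o2 : u2 ≤ u3) (o3 : u3 ≤ u4) : Good u1 u2 u3 u4 ∨ Good2 u1 u2 u3 u4 := by
  rcases le_total u3 3 with h2 | h2
  · exact d3_0_2_2 u1 u2 u3 u4 a1 b1 a2 b2 (by linarith) (by linarith) b4 o1 o2 o3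
  rcases le_total u3 4 with h3 | h3
  · exact d3_0_2_3 u1 u2 u3 u4 a1 b1 a2 b2 (by linarith) (by linarith) b4 o1 o2 o3
  rcases le_total u3 5 with h4 | h4
  · exact d3_0_2_4 u1 u2 u3 u4 a1 b1 a2 b2 (by linarith) (by linarith) b4 o1 o2 o3
  rcases le_total u3 6 with h5 | h5
  · exact d3_0_2_5 u1 u2 u3 u4 a1 b1 a2 b2 (by linarith) (by linarith) b4 o1 o2 o3
  exact d3_0_2_6 u1 u2 u3 u4 a1 b1 a2 b2 (by linarith) (by linarith) b4 o1 o2 o3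

theorem d3_0_3_3 (u1 u2 u3 u4 : ℝ) (a1 : 0 ≤ u1) (b1 : u1 ≤ 0 + 1) (a2 : 3 ≤ u2) (b2 : u2 ≤ 3 + 1) (a3 : 3 ≤ u3) (b3 : u3 ≤ 3 + 1) (b4 : u4 ≤ 7) (o1 : u1 ≤ u2) (o2 : u2 ≤ u3) (o3 : u3 ≤ u4) : Good u1 u2 u3 u4 ∨ Good2 u1 u2 u3 u4 := by
  rcases le_total u4 4 with h3 | h3
  · exact g_0_3_3_3 u1 u2 u3 u4 a1 b1 a2 b2 a3 b3 (by linarith) (by linarith) o1 o2 o3
  rcases le_total u4 5 with h4 | h4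
  · exact g_0_3_3_4 u1 u2 u3 u4 a1 b1 a2 b2 a3 b3 (by linarith) (by linarith) o1 o2 o3
  rcases le_total u4 6 with h5 | h5
  · exact g_0_3_3_5 u1 u2 u3 u4 a1 b1 a2 b2 a3 b3 (by linarith) (by linarith) o1 o2 o3
  exact g_0_3_3_6 u1 u2 u3 u4 a1 b1 a2 b2 a3 b3 (by linarith) (by linarith) o1 o2 o3

theorem d3_0_3_4 (u1 u2 u3 u4 : ℝ) (a1 : 0 ≤ u1) (b1 : u1 ≤ 0 + 1) (a2 : 3 ≤ u2) (b2 : u2 ≤ 3 + 1) (a3 : 4 ≤ u3) (b3 : u3 ≤ 4 + 1) (b4 : u4 ≤ 7) (o1 : u1 ≤ u2) (o2 : u2 ≤ u3) (o3 : u3 ≤ u4) : Good u1 u2 u3 u4 ∨ Good2 u1 u2 u3 u4 := by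
  rcases le_total u4 5 with h4 | h4
  · exact g_0_3_4_4 u1 u2 u3 u4 a1 b1 a2 b2 a3 b3 (by linarith) (by linarith) o1 o2 o3
  rcases le_total u4 6 with h5 | h5
  · exact g_0_3_4_5 u1 u2 u3 u4 a1 b1 a2 b2 a3 b3 (by linarith) (by linarith) o1 o2 o3
  exact g_0_3_4_6 u1 u2 u3 u4 a1 b1 a2 b2 a3 b3 (by linarith) (by linarith) o1 o2 o3

theorem d3_0_3_5 (u1 u2 u3 u4 : ℝ) (a1 : 0 ≤ u1) (b1 : u1 ≤ 0 + 1) (a2 : 3 ≤ u2) (b2 : u2 ≤ 3 + 1) (a3 : 5 ≤ u3) (b3 : u3 ≤ 5 + 1) (b4 : u4 ≤ 7) (o1 : u1 ≤ u2) (o2 : u2 ≤ u3) (o3 : u3 ≤ u4) : Good u1 u2 u3 u4 ∨ Good2 u1 u2 u3 u4 := by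
  rcases le_total u4 6 with h5 | h5
  · exact g_0_3_5_5 u1 u2 u3 u4 a1 b1 a2 b2 a3 b3 (by linarith) (by linarith) o1 o2 o3
  exact g_0_3_5_6 u1 u2 u3 u4 a1 b1 a2 b2 a3 b3 (by linarith) (by linarith) o1 o2 o3

theorem d3_0_3_6 (u1 u2 u3 u4 : ℝ) (a1 : 0 ≤ u1) (b1 : u1 ≤ 0 + 1) (a2 : 3 ≤ u2) (b2 : u2 ≤ 3 + 1) (a3 : 6 ≤ u3) (b3 : u3 ≤ 6 + 1) (b4 : u4 ≤ 7) (o1 : u1 ≤ u2) (o2 : u2 ≤ u3) (o3 : u3 ≤ u4) : Good u1 u2 u3 u4 ∨ Good2 u1 u2 u3 u4 := by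
  exact g_0_3_6_6 u1 u2 u3 u4 a1 b1 a2 b2 a3 b3 (by linarith) (by linarith) o1 o2 o3

theorem d2_0_3 (u1 u2 u3 u4 : ℝ) (a1 : 0 ≤ u1) (b1 : u1 ≤ 0 + 1) (a2 : 3 ≤ u2) (b2 : u2 ≤ 3 + 1) (b4 : u4 ≤ 7) (o1 : u1 ≤ u2) (o2 : u2 ≤ u3) (o3 : u3 ≤ u4) : Good u1 u2 u3 u4 ∨ Good2 u1 u2 u3 u4 := by
  rcases le_total u3 4 with h3 | h3
  · exact d3_0_3_3 u1 u2 u3 u4 a1 b1 a2 b2 (by linarith) (by linarith) b4 o1 o2 o3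
  rcases le_total u3 5 with h4 | h4
  · exact d3_0_3_4 u1 u2 u3 u4 a1 b1 a2 b2 (by linarith) (by linarith) b4 o1 o2 o3
  rcases le_total u3 6 with h5 | h5
  · exact d3_0_3_5 u1 u2 u3 u4 a1 b1 a2 b2 (by linarith) (by linarith) b4 o1 o2 o3
  exact d3_0_3_6 u1 u2 u3 u4 a1 b1 a2 b2 (by linarith) (by linarith) b4 o1 o2 o3

theorem d3_0_4_4 (u1 u2 u3 u4 : ℝ) (a1 : 0 ≤ u1) (b1 : u1 ≤ 0 + 1) (a2 : 4 ≤ u2) (b2 : u2 ≤ 4 + 1) (a3 : 4 ≤ u3) (b3 : u3 ≤ 4 + 1) (b4 : u4 ≤ 7) (o1 : u1 ≤ u2) (o2 : u2 ≤ u3) (o3 : u3 ≤ u4) : Good u1 u2 u3 u4 ∨ Good2 u1 u2 u3 u4 := by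
  rcases le_total u4 5 with h4 | h4
  · exact g_0_4_4_4 u1 u2 u3 u4 a1 b1 a2 b2 a3 b3 (by linarith) (by linarith) o1 o2 o3
  rcases le_total u4 6 with h5 | h5
  · exact g_0_4_4_5 u1 u2 u3 u4 a1 b1 a2 b2 a3 b3 (by linarith) (by linarith) o1 o2 o3
  exact g_0_4_4_6 u1 u2 u3 u4 a1 b1 a2 b2 a3 b3 (by linarith) (by linarith) o1 o2 o3

theorem d3_0_4_5 (u1 u2 u3 u4 : ℝ) (a1 : 0 ≤ u1) (b1 : u1 ≤ 0 + 1) (a2 : 4 ≤ u2) (b2 : u2 ≤ 4 + 1) (a3 : 5 ≤ u3) (b3 : u3 ≤ 5 + 1) (b4 : u4 ≤ 7) (o1 : u1 ≤ u2) (o2 : u2 ≤ u3) (o3 : u3 ≤ u4) : Good u1 u2 u3 u4 ∨ Good2 u1 u2 u3 u4 := by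
  rcases le_total u4 6 with h5 | h5
  · exact g_0_4_5_5 u1 u2 u3 u4 a1 b1 a2 b2 a3 b3 (by linarith) (by linarith) o1 o2 o3
  exact g_0_4_5_6 u1 u2 u3 u4 a1 b1 a2 b2 a3 b3 (by linarith) (by linarith) o1 o2 o3

theorem d3_0_4_6 (u1 u2 u3 u4 : ℝ) (a1 : 0 ≤ u1) (b1 : u1 ≤ 0 + 1) (a2 : 4 ≤ u2) (b2 : u2 ≤ 4 + 1) (a3 : 6 ≤ u3) (b3 : u3 ≤ 6 + 1) (b4 : u4 ≤ 7) (o1 : u1 ≤ u2) (o2 : u2 ≤ u3) (o3 : u3 ≤ u4) : Good u1 u2 u3 u4 ∨ Good2 u1 u2 u3 u4 := by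
  exact g_0_4_6_6 u1 u2 u3 u4 a1 b1 a2 b2 a3 b3 (by linarith) (by linarith) o1 o2 o3

theorem d2_0_4 (u1 u2 u3 u4 : ℝ) (a1 : 0 ≤ u1) (b1 : u1 ≤ 0 + 1) (a2 : 4 ≤ u2) (b2 : u2 ≤ 4 + 1) (b4 : u4 ≤ 7) (o1 : u1 ≤ u2) (o2 : u2 ≤ u3) (o3 : u3 ≤ u4) : Good u1 u2 u3 u4 ∨ Good2 u1 u2 u3 u4 := by
  rcases le_total u3 5 with h4 | h4
  · exact d3_0_4_4 u1 u2 u3 u4 a1 b1 a2 b2 (by linarith) (by linarith) b4 o1 o2 o3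
  rcases le_total u3 6 with h5 | h5
  · exact d3_0_4_5 u1 u2 u3 u4 a1 b1 a2 b2 (by linarith) (by linarith) b4 o1 o2 o3
  exact d3_0_4_6 u1 u2 u3 u4 a1 b1 a2 b2 (by linarith) (by linarith) b4 o1 o2 o3

theorem d3_0_5_5 (u1 u2 u3 u4 : ℝ) (a1 : 0 ≤ u1) (b1 : u1 ≤ 0 + 1) (a2 : 5 ≤ u2) (b2 : u2 ≤ 5 + 1) (a3 : 5 ≤ u3) (b3 : u3 ≤ 5 + 1) (b4 : u4 ≤ 7) (o1 : u1 ≤ u2) (o2 : u2 ≤ u3) (o3 : u3 ≤ u4) : Good u1 u2 u3 u4 ∨ Good2 u1 u2 u3 u4 := by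
  rcases le_total u4 6 with h5 | h5
  · exact g_0_5_5_5 u1 u2 u3 u4 a1 b1 a2 b2 a3 b3 (by linarith) (by linarith) o1 o2 o3
  exact g_0_5_5_6 u1 u2 u3 u4 a1 b1 a2 b2 a3 b3 (by linarith) (by linarith) o1 o2 o3

theorem d3_0_5_6 (u1 u2 u3 u4 : ℝ) (a1 : 0 ≤ u1) (b1 : u1 ≤ 0 + 1) (a2 : 5 ≤ u2) (b2 : u2 ≤ 5 + 1) (a3 : 6 ≤ u3) (b3 : u3 ≤ 6 + 1) (b4 : u4 ≤ 7) (o1 : u1 ≤ u2) (o2 : u2 ≤ u3) (o3 : u3 ≤ u4) : Good u1 u2 u3 u4 ∨ Good2 u1 u2 u3 u4 := by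
  exact g_0_5_6_6 u1 u2 u3 u4 a1 b1 a2 b2 a3 b3 (by linarith) (by linarith) o1 o2 o3

theorem d2_0_5 (u1 u2 u3 u4 : ℝ) (a1 : 0 ≤ u1) (b1 : u1 ≤ 0 + 1) (a2 : 5 ≤ u2) (b2 : u2 ≤ 5 + 1) (b4 : u4 ≤ 7) (o1 : u1 ≤ u2) (o2 : u2 ≤ u3) (o3 : u3 ≤ u4) : Good u1 u2 u3 u4 ∨ Good2 u1 u2 u3 u4 := by
  rcases le_total u3 6 with h5 | h5
  · exact d3_0_5_5 u1 u2 u3 u4 a1 b1 a2 b2 (by linarith) (by linarith) b4 o1 o2 o3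
  exact d3_0_5_6 u1 u2 u3 u4 a1 b1 a2 b2 (by linarith) (by linarith) b4 o1 o2 o3

theorem d3_0_6_6 (u1 u2 u3 u4 : ℝ) (a1 : 0 ≤ u1) (b1 : u1 ≤ 0 + 1) (a2 : 6 ≤ u2) (b2 : u2 ≤ 6 + 1) (a3 : 6 ≤ u3) (b3 : u3 ≤ 6 + 1) (b4 : u4 ≤ 7) (o1 : u1 ≤ u2) (o2 : u2 ≤ u3) (o3 : u3 ≤ u4) : Good u1 u2 u3 u4 ∨ Good2 u1 u2 u3 u4 := by
  exact g_0_6_6_6 u1 u2 u3 u4 a1 b1 a2 b2 a3 b3 (by linarith) (by linarith) o1 o2 o3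

theorem d2_0_6 (u1 u2 u3 u4 : ℝ) (a1 : 0 ≤ u1) (b1 : u1 ≤ 0 + 1) (a2 : 6 ≤ u2) (b2 : u2 ≤ 6 + 1) (b4 : u4 ≤ 7) (o1 : u1 ≤ u2) (o2 : u2 ≤ u3) (o3 : u3 ≤ u4) : Good u1 u2 u3 u4 ∨ Good2 u1 u2 u3 u4 := by
  exact d3_0_6_6 u1 u2 u3 u4 a1 b1 a2 b2 (by linarith) (by linarith) b4 o1 o2 o3

theorem d1_0 (u1 u2 u3 u4 : ℝ) (a1 : 0 ≤ u1) (b1 : u1 ≤ 0 + 1) (b4 : u4 ≤ 7) (o1 : u1 ≤ u2) (o2 : u2 ≤ u3) (o3 : u3 ≤ u4) : Good u1 u2 u3 u4 ∨ Good2 u1 u2 u3 u4 := by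
  rcases le_total u2 1 with h0 | h0
  · exact d2_0_0 u1 u2 u3 u4 a1 b1 (by linarith) (by linarith) b4 o1 o2 o3
  rcases le_total u2 2 with h1 | h1
  · exact d2_0_1 u1 u2 u3 u4 a1 b1 (by linarith) (by linarith) b4 o1 o2 o3
  rcases le_total u2 3 with h2 | h2
  · exact d2_0_2 u1 u2 u3 u4 a1 b1 (by linarith) (by linarith) b4 o1 o2 o3
  rcases le_total u2 4 with h3 | h3
  · exact d2_0_3 u1 u2 u3 u4 a1 b1 (by linarith) (by linarith) b4 o1 o2 o3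
  rcases le_total u2 5 with h4 | h4
  · exact d2_0_4 u1 u2 u3 u4 a1 b1 (by linarith) (by linarith) b4 o1 o2 o3
  rcases le_total u2 6 with h5 | h5
  · exact d2_0_5 u1 u2 u3 u4 a1 b1 (by linarith) (by linarith) b4 o1 o2 o3
  exact d2_0_6 u1 u2 u3 u4 a1 b1 (by linarith) (by linarith) b4 o1 o2 o3

theorem d3_1_1_1 (u1 u2 u3 u4 : ℝ) (a1 : 1 ≤ u1) (b1 : u1 ≤ 1 + 1) (a2 : 1 ≤ u2) (b2 : u2 ≤ 1 + 1) (a3 : 1 ≤ u3) (b3 : u3 ≤ 1 + 1) (b4 : u4 ≤ 8) (o1 : u1 ≤ u2) (o2 : u2 ≤ u3) (o3 : u3 ≤ u4) : Good u1 u2 u3 u4 ∨ Good2 u1 u2 u3 u4 := by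
  rcases le_total u4 2 with h1 | h1
  · exact g_1_1_1_1 u1 u2 u3 u4 a1 b1 a2 b2 a3 b3 (by linarith) (by linarith) o1 o2 o3
  rcases le_total u4 3 with h2 | h2
  · exact g_1_1_1_2 u1 u2 u3 u4 a1 b1 a2 b2 a3 b3 (by linarith) (by linarith) o1 o2 o3
  rcases le_total u4 4 with h3 | h3
  · exact g_1_1_1_3 u1 u2 u3 u4 a1 b1 a2 b2 a3 b3 (by linarith) (by linarith) o1 o2 o3
  rcases le_total u4 5 with h4 | h4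
  · exact g_1_1_1_4 u1 u2 u3 u4 a1 b1 a2 b2 a3 b3 (by linarith) (by linarith) o1 o2 o3
  rcases le_total u4 6 with h5 | h5
  · exact g_1_1_1_5 u1 u2 u3 u4 a1 b1 a2 b2 a3 b3 (by linarith) (by linarith) o1 o2 o3
  rcases le_total u4 7 with h6 | h6
  · exact g_1_1_1_6 u1 u2 u3 u4 a1 b1 a2 b2 a3 b3 (by linarith) (by linarith) o1 o2 o3
  exact g_1_1_1_7 u1 u2 u3 u4 a1 b1 a2 b2 a3 b3 (by linarith) (by linarith) o1 o2 o3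

theorem d3_1_1_2 (u1 u2 u3 u4 : ℝ) (a1 : 1 ≤ u1) (b1 : u1 ≤ 1 + 1) (a2 : 1 ≤ u2) (b2 : u2 ≤ 1 + 1) (a3 : 2 ≤ u3) (b3 : u3 ≤ 2 + 1) (b4 : u4 ≤ 8) (o1 : u1 ≤ u2) (o2 : u2 ≤ u3) (o3 : u3 ≤ u4) : Good u1 u2 u3 u4 ∨ Good2 u1 u2 u3 u4 := by
  rcases le_total u4 3 with h2 | h2
  · exact g_1_1_2_2 u1 u2 u3 u4 a1 b1 a2 b2 a3 b3 (by linarith) (by linarith) o1 o2 o3
  rcases le_total u4 4 with h3 | h3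
  · exact g_1_1_2_3 u1 u2 u3 u4 a1 b1 a2 b2 a3 b3 (by linarith) (by linarith) o1 o2 o3
  rcases le_total u4 5 with h4 | h4
  · exact g_1_1_2_4 u1 u2 u3 u4 a1 b1 a2 b2 a3 b3 (by linarith) (by linarith) o1 o2 o3
  rcases le_total u4 6 with h5 | h5
  · exact g_1_1_2_5 u1 u2 u3 u4 a1 b1 a2 b2 a3 b3 (by linarith) (by linarith) o1 o2 o3
  rcases le_total u4 7 with h6 | h6
  · exact g_1_1_2_6 u1 u2 u3 u4 a1 b1 a2 b2 a3 b3 (by linarith) (by linarith) o1 o2 o3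
  exact g_1_1_2_7 u1 u2 u3 u4 a1 b1 a2 b2 a3 b3 (by linarith) (by linarith) o1 o2 o3

theorem d3_1_1_3 (u1 u2 u3 u4 : ℝ) (a1 : 1 ≤ u1) (b1 : u1 ≤ 1 + 1) (a2 : 1 ≤ u2) (b2 : u2 ≤ 1 + 1) (a3 : 3 ≤ u3) (b3 : u3 ≤ 3 + 1) (b4 : u4 ≤ 8) (o1 : u1 ≤ u2) (o2 : u2 ≤ u3) (o3 : u3 ≤ u4) : Good u1 u2 u3 u4 ∨ Good2 u1 u2 u3 u4 := by
  rcases le_total u4 4 with h3 | h3
  · exact g_1_1_3_3 u1 u2 u3 u4 a1 b1 a2 b2 a3 b3 (by linarith) (by linarith) o1 o2 o3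
  rcases le_total u4 5 with h4 | h4
  · exact g_1_1_3_4 u1 u2 u3 u4 a1 b1 a2 b2 a3 b3 (by linarith) (by linarith) o1 o2 o3
  rcases le_total u4 6 with h5 | h5
  · exact g_1_1_3_5 u1 u2 u3 u4 a1 b1 a2 b2 a3 b3 (by linarith) (by linarith) o1 o2 o3
  rcases le_total u4 7 with h6 | h6
  · exact g_1_1_3_6 u1 u2 u3 u4 a1 b1 a2 b2 a3 b3 (by linarith) (by linarith) o1 o2 o3
  exact g_1_1_3_7 u1 u2 u3 u4 a1 b1 a2 b2 a3 b3 (by linarith) (by linarith) o1 o2 o3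

theorem d3_1_1_4 (u1 u2 u3 u4 : ℝ) (a1 : 1 ≤ u1) (b1 : u1 ≤ 1 + 1) (a2 : 1 ≤ u2) (b2 : u2 ≤ 1 + 1) (a3 : 4 ≤ u3) (b3 : u3 ≤ 4 + 1) (b4 : u4 ≤ 8) (o1 : u1 ≤ u2) (o2 : u2 ≤ u3) (o3 : u3 ≤ u4) : Good u1 u2 u3 u4 ∨ Good2 u1 u2 u3 u4 := by
  rcases le_total u4 5 with h4 | h4
  · exact g_1_1_4_4 u1 u2 u3 u4 a1 b1 a2 b2 a3 b3 (by linarith) (by linarith) o1 o2 o3
  rcases le_total u4 6 with h5 | h5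
  · exact g_1_1_4_5 u1 u2 u3 u4 a1 b1 a2 b2 a3 b3 (by linarith) (by linarith) o1 o2 o3
  rcases le_total u4 7 with h6 | h6
  · exact g_1_1_4_6 u1 u2 u3 u4 a1 b1 a2 b2 a3 b3 (by linarith) (by linarith) o1 o2 o3
  exact g_1_1_4_7 u1 u2 u3 u4 a1 b1 a2 b2 a3 b3 (by linarith) (by linarith) o1 o2 o3

theorem d3_1_1_5 (u1 u2 u3 u4 : ℝ) (a1 : 1 ≤ u1) (b1 : u1 ≤ 1 + 1) (a2 : 1 ≤ u2) (b2 : u2 ≤ 1 + 1) (a3 : 5 ≤ u3) (b3 : u3 ≤ 5 + 1) (b4 : u4 ≤ 8) (o1 : u1 ≤ u2) (o2 : u2 ≤ u3) (o3 : u3 ≤ u4) : Good u1 u2 u3 u4 ∨ Good2 u1 u2 u3 u4 := by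
  rcases le_total u4 6 with h5 | h5
  · exact g_1_1_5_5 u1 u2 u3 u4 a1 b1 a2 b2 a3 b3 (by linarith) (by linarith) o1 o2 o3
  rcases le_total u4 7 with h6 | h6
  · exact g_1_1_5_6 u1 u2 u3 u4 a1 b1 a2 b2 a3 b3 (by linarith) (by linarith) o1 o2 o3
  exact g_1_1_5_7 u1 u2 u3 u4 a1 b1 a2 b2 a3 b3 (by linarith) (by linarith) o1 o2 o3

theorem d3_1_1_6 (u1 u2 u3 u4 : ℝ) (a1 : 1 ≤ u1) (b1 : u1 ≤ 1 + 1) (a2 : 1 ≤ u2) (b2 : u2 ≤ 1 + 1) (a3 : 6 ≤ u3) (b3 : u3 ≤ 6 + 1) (b4 : u4 ≤ 8) (o1 : u1 ≤ u2) (o2 : u2 ≤ u3) (o3 : u3 ≤ u4) : Good u1 u2 u3 u4 ∨ Good2 u1 u2 u3 u4 := by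
  rcases le_total u4 7 with h6 | h6
  · exact g_1_1_6_6 u1 u2 u3 u4 a1 b1 a2 b2 a3 b3 (by linarith) (by linarith) o1 o2 o3
  exact g_1_1_6_7 u1 u2 u3 u4 a1 b1 a2 b2 a3 b3 (by linarith) (by linarith) o1 o2 o3

theorem d3_1_1_7 (u1 u2 u3 u4 : ℝ) (a1 : 1 ≤ u1) (b1 : u1 ≤ 1 + 1) (a2 : 1 ≤ u2) (b2 : u2 ≤ 1 + 1) (a3 : 7 ≤ u3) (b3 : u3 ≤ 7 + 1) (b4 : u4 ≤ 8) (o1 : u1 ≤ u2) (o2 : u2 ≤ u3) (o3 : u3 ≤ u4) : Good u1 u2 u3 u4 ∨ Good2 u1 u2 u3 u4 := by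
  exact g_1_1_7_7 u1 u2 u3 u4 a1 b1 a2 b2 a3 b3 (by linarith) (by linarith) o1 o2 o3

theorem d2_1_1 (u1 u2 u3 u4 : ℝ) (a1 : 1 ≤ u1) (b1 : u1 ≤ 1 + 1) (a2 : 1 ≤ u2) (b2 : u2 ≤ 1 + 1) (b4 : u4 ≤ 8) (o1 : u1 ≤ u2) (o2 : u2 ≤ u3) (o3 : u3 ≤ u4) : Good u1 u2 u3 u4 ∨ Good2 u1 u2 u3 u4 := by
  rcases le_total u3 2 with h1 | h1
  · exact d3_1_1_1 u1 u2 u3 u4 a1 b1 a2 b2 (by linarith) (by linarith) b4 o1 o2 o3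
  rcases le_total u3 3 with h2 | h2
  · exact d3_1_1_2 u1 u2 u3 u4 a1 b1 a2 b2 (by linarith) (by linarith) b4 o1 o2 o3
  rcases le_total u3 4 with h3 | h3
  · exact d3_1_1_3 u1 u2 u3 u4 a1 b1 a2 b2 (by linarith) (by linarith) b4 o1 o2 o3
  rcases le_total u3 5 with h4 | h4
  · exact d3_1_1_4 u1 u2 u3 u4 a1 b1 a2 b2 (by linarith) (by linarith) b4 o1 o2 o3
  rcases le_total u3 6 with h5 | h5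
  · exact d3_1_1_5 u1 u2 u3 u4 a1 b1 a2 b2 (by linarith) (by linarith) b4 o1 o2 o3
  rcases le_total u3 7 with h6 | h6
  · exact d3_1_1_6 u1 u2 u3 u4 a1 b1 a2 b2 (by linarith) (by linarith) b4 o1 o2 o3
  exact d3_1_1_7 u1 u2 u3 u4 a1 b1 a2 b2 (by linarith) (by linarith) b4 o1 o2 o3

theorem d3_1_2_2 (u1 u2 u3 u4 : ℝ) (a1 : 1 ≤ u1) (b1 : u1 ≤ 1 + 1) (a2 : 2 ≤ u2) (b2 : u2 ≤ 2 + 1) (a3 : 2 ≤ u3) (b3 : u3 ≤ 2 + 1) (b4 : u4 ≤ 8) (o1 : u1 ≤ u2) (o2 : u2 ≤ u3) (o3 : u3 ≤ u4) : Good u1 u2 u3 u4 ∨ Good2 u1 u2 u3 u4 := by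
  rcases le_total u4 3 with h2 | h2
  · exact g_1_2_2_2 u1 u2 u3 u4 a1 b1 a2 b2 a3 b3 (by linarith) (by linarith) o1 o2 o3
  rcases le_total u4 4 with h3 | h3
  · exact g_1_2_2_3 u1 u2 u3 u4 a1 b1 a2 b2 a3 b3 (by linarith) (by linarith) o1 o2 o3
  rcases le_total u4 5 with h4 | h4
  · exact g_1_2_2_4 u1 u2 u3 u4 a1 b1 a2 b2 a3 b3 (by linarith) (by linarith) o1 o2 o3
  rcases le_total u4 6 with h5 | h5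
  · exact g_1_2_2_5 u1 u2 u3 u4 a1 b1 a2 b2 a3 b3 (by linarith) (by linarith) o1 o2 o3
  rcases le_total u4 7 with h6 | h6
  · exact g_1_2_2_6 u1 u2 u3 u4 a1 b1 a2 b2 a3 b3 (by linarith) (by linarith) o1 o2 o3
  exact g_1_2_2_7 u1 u2 u3 u4 a1 b1 a2 b2 a3 b3 (by linarith) (by linarith) o1 o2 o3

theorem d3_1_2_3 (u1 u2 u3 u4 : ℝ) (a1 : 1 ≤ u1) (b1 : u1 ≤ 1 + 1) (a2 : 2 ≤ u2) (b2 : u2 ≤ 2 + 1) (a3 : 3 ≤ u3) (b3 : u3 ≤ 3 + 1) (b4 : u4 ≤ 8) (o1 : u1 ≤ u2) (o2 : u2 ≤ u3) (o3 : u3 ≤ u4) : Good u1 u2 u3 u4 ∨ Good2 u1 u2 u3 u4 := by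
  rcases le_total u4 4 with h3 | h3
  · exact g_1_2_3_3 u1 u2 u3 u4 a1 b1 a2 b2 a3 b3 (by linarith) (by linarith) o1 o2 o3
  rcases le_total u4 5 with h4 | h4
  · exact g_1_2_3_4 u1 u2 u3 u4 a1 b1 a2 b2 a3 b3 (by linarith) (by linarith) o1 o2 o3
  rcases le_total u4 6 with h5 | h5
  · exact g_1_2_3_5 u1 u2 u3 u4 a1 b1 a2 b2 a3 b3 (by linarith) (by linarith) o1 o2 o3
  rcases le_total u4 7 with h6 | h6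
  · exact g_1_2_3_6 u1 u2 u3 u4 a1 b1 a2 b2 a3 b3 (by linarith) (by linarith) o1 o2 o3
  exact g_1_2_3_7 u1 u2 u3 u4 a1 b1 a2 b2 a3 b3 (by linarith) (by linarith) o1 o2 o3

theorem d3_1_2_4 (u1 u2 u3 u4 : ℝ) (a1 : 1 ≤ u1) (b1 : u1 ≤ 1 + 1) (a2 : 2 ≤ u2) (b2 : u2 ≤ 2 + 1) (a3 : 4 ≤ u3) (b3 : u3 ≤ 4 + 1) (b4 : u4 ≤ 8) (o1 : u1 ≤ u2) (o2 : u2 ≤ u3) (o3 : u3 ≤ u4) : Good u1 u2 u3 u4 ∨ Good2 u1 u2 u3 u4 := by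
  rcases le_total u4 5 with h4 | h4
  · exact g_1_2_4_4 u1 u2 u3 u4 a1 b1 a2 b2 a3 b3 (by linarith) (by linarith) o1 o2 o3
  rcases le_total u4 6 with h5 | h5
  · exact g_1_2_4_5 u1 u2 u3 u4 a1 b1 a2 b2 a3 b3 (by linarith) (by linarith) o1 o2 o3
  rcases le_total u4 7 with h6 | h6
  · exact g_1_2_4_6 u1 u2 u3 u4 a1 b1 a2 b2 a3 b3 (by linarith) (by linarith) o1 o2 o3
  exact g_1_2_4_7 u1 u2 u3 u4 a1 b1 a2 b2 a3 b3 (by linarith) (by linarith) o1 o2 o3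

theorem d3_1_2_5 (u1 u2 u3 u4 : ℝ) (a1 : 1 ≤ u1) (b1 : u1 ≤ 1 + 1) (a2 : 2 ≤ u2) (b2 : u2 ≤ 2 + 1) (a3 : 5 ≤ u3) (b3 : u3 ≤ 5 + 1) (b4 : u4 ≤ 8) (o1 : u1 ≤ u2) (o2 : u2 ≤ u3) (o3 : u3 ≤ u4) : Good u1 u2 u3 u4 ∨ Good2 u1 u2 u3 u4 := by
  rcases le_total u4 6 with h5 | h5
  · exact g_1_2_5_5 u1 u2 u3 u4 a1 b1 a2 b2 a3 b3 (by linarith) (by linarith) o1 o2 o3
  rcases le_total u4 7 with h6 | h6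
  · exact g_1_2_5_6 u1 u2 u3 u4 a1 b1 a2 b2 a3 b3 (by linarith) (by linarith) o1 o2 o3
  exact g_1_2_5_7 u1 u2 u3 u4 a1 b1 a2 b2 a3 b3 (by linarith) (by linarith) o1 o2 o3

theorem d3_1_2_6 (u1 u2 u3 u4 : ℝ) (a1 : 1 ≤ u1) (b1 : u1 ≤ 1 + 1) (a2 : 2 ≤ u2) (b2 : u2 ≤ 2 + 1) (a3 : 6 ≤ u3) (b3 : u3 ≤ 6 + 1) (b4 : u4 ≤ 8) (o1 : u1 ≤ u2) (o2 : u2 ≤ u3) (o3 : u3 ≤ u4) : Good u1 u2 u3 u4 ∨ Good2 u1 u2 u3 u4 := by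
  rcases le_total u4 7 with h6 | h6
  · exact g_1_2_6_6 u1 u2 u3 u4 a1 b1 a2 b2 a3 b3 (by linarith) (by linarith) o1 o2 o3
  exact g_1_2_6_7 u1 u2 u3 u4 a1 b1 a2 b2 a3 b3 (by linarith) (by linarith) o1 o2 o3

theorem d3_1_2_7 (u1 u2 u3 u4 : ℝ) (a1 : 1 ≤ u1) (b1 : u1 ≤ 1 + 1) (a2 : 2 ≤ u2) (b2 : u2 ≤ 2 + 1) (a3 : 7 ≤ u3) (b3 : u3 ≤ 7 + 1) (b4 : u4 ≤ 8) (o1 : u1 ≤ u2) (o2 : u2 ≤ u3) (o3 : u3 ≤ u4) : Good u1 u2 u3 u4 ∨ Good2 u1 u2 u3 u4 := by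
  exact g_1_2_7_7 u1 u2 u3 u4 a1 b1 a2 b2 a3 b3 (by linarith) (by linarith) o1 o2 o3

theorem d2_1_2 (u1 u2 u3 u4 : ℝ) (a1 : 1 ≤ u1) (b1 : u1 ≤ 1 + 1) (a2 : 2 ≤ u2) (b2 : u2 ≤ 2 + 1) (b4 : u4 ≤ 8) (o1 : u1 ≤ u2) (o2 : u2 ≤ u3) (o3 : u3 ≤ u4) : Good u1 u2 u3 u4 ∨ Good2 u1 u2 u3 u4 := by
  rcases le_total u3 3 with h2 | h2
  · exact d3_1_2_2 u1 u2 u3 u4 a1 b1 a2 b2 (by linarith) (by linarith) b4 o1 o2 o3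
  rcases le_total u3 4 with h3 | h3
  · exact d3_1_2_3 u1 u2 u3 u4 a1 b1 a2 b2 (by linarith) (by linarith) b4 o1 o2 o3
  rcases le_total u3 5 with h4 | h4
  · exact d3_1_2_4 u1 u2 u3 u4 a1 b1 a2 b2 (by linarith) (by linarith) b4 o1 o2 o3
  rcases le_total u3 6 with h5 | h5
  · exact d3_1_2_5 u1 u2 u3 u4 a1 b1 a2 b2 (by linarith) (by linarith) b4 o1 o2 o3
  rcases le_total u3 7 with h6 | h6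
  · exact d3_1_2_6 u1 u2 u3 u4 a1 b1 a2 b2 (by linarith) (by linarith) b4 o1 o2 o3
  exact d3_1_2_7 u1 u2 u3 u4 a1 b1 a2 b2 (by linarith) (by linarith) b4 o1 o2 o3

theorem d3_1_3_3 (u1 u2 u3 u4 : ℝ) (a1 : 1 ≤ u1) (b1 : u1 ≤ 1 + 1) (a2 : 3 ≤ u2) (b2 : u2 ≤ 3 + 1) (a3 : 3 ≤ u3) (b3 : u3 ≤ 3 + 1) (b4 : u4 ≤ 8) (o1 : u1 ≤ u2) (o2 : u2 ≤ u3) (o3 : u3 ≤ u4) : Good u1 u2 u3 u4 ∨ Good2 u1 u2 u3 u4 := by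
  rcases le_total u4 4 with h3 | h3
  · exact g_1_3_3_3 u1 u2 u3 u4 a1 b1 a2 b2 a3 b3 (by linarith) (by linarith) o1 o2 o3
  rcases le_total u4 5 with h4 | h4
  · exact g_1_3_3_4 u1 u2 u3 u4 a1 b1 a2 b2 a3 b3 (by linarith) (by linarith) o1 o2 o3
  rcases le_total u4 6 with h5 | h5
  · exact g_1_3_3_5 u1 u2 u3 u4 a1 b1 a2 b2 a3 b3 (by linarith) (by linarith) o1 o2 o3
  rcases le_total u4 7 with h6 | h6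
  · exact g_1_3_3_6 u1 u2 u3 u4 a1 b1 a2 b2 a3 b3 (by linarith) (by linarith) o1 o2 o3
  exact g_1_3_3_7 u1 u2 u3 u4 a1 b1 a2 b2 a3 b3 (by linarith) (by linarith) o1 o2 o3

theorem d3_1_3_4 (u1 u2 u3 u4 : ℝ) (a1 : 1 ≤ u1) (b1 : u1 ≤ 1 + 1) (a2 : 3 ≤ u2) (b2 : u2 ≤ 3 + 1) (a3 : 4 ≤ u3) (b3 : u3 ≤ 4 + 1) (b4 : u4 ≤ 8) (o1 : u1 ≤ u2) (o2 : u2 ≤ u3) (o3 : u3 ≤ u4) : Good u1 u2 u3 u4 ∨ Good2 u1 u2 u3 u4 := by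
  rcases le_total u4 5 with h4 | h4
  · exact g_1_3_4_4 u1 u2 u3 u4 a1 b1 a2 b2 a3 b3 (by linarith) (by linarith) o1 o2 o3
  rcases le_total u4 6 with h5 | h5
  · exact g_1_3_4_5 u1 u2 u3 u4 a1 b1 a2 b2 a3 b3 (by linarith) (by linarith) o1 o2 o3
  rcases le_total u4 7 with h6 | h6
  · exact g_1_3_4_6 u1 u2 u3 u4 a1 b1 a2 b2 a3 b3 (by linarith) (by linarith) o1 o2 o3
  exact g_1_3_4_7 u1 u2 u3 u4 a1 b1 a2 b2 a3 b3 (by linarith) (by linarith) o1 o2 o3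

theorem d3_1_3_5 (u1 u2 u3 u4 : ℝ) (a1 : 1 ≤ u1) (b1 : u1 ≤ 1 + 1) (a2 : 3 ≤ u2) (b2 : u2 ≤ 3 + 1) (a3 : 5 ≤ u3) (b3 : u3 ≤ 5 + 1) (b4 : u4 ≤ 8) (o1 : u1 ≤ u2) (o2 : u2 ≤ u3) (o3 : u3 ≤ u4) : Good u1 u2 u3 u4 ∨ Good2 u1 u2 u3 u4 := by
  rcases le_total u4 6 with h5 | h5
  · exact g_1_3_5_5 u1 u2 u3 u4 a1 b1 a2 b2 a3 b3 (by linarith) (by linarith) o1 o2 o3
  rcases le_total u4 7 with h6 | h6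
  · exact g_1_3_5_6 u1 u2 u3 u4 a1 b1 a2 b2 a3 b3 (by linarith) (by linarith) o1 o2 o3
  exact g_1_3_5_7 u1 u2 u3 u4 a1 b1 a2 b2 a3 b3 (by linarith) (by linarith) o1 o2 o3

theorem d3_1_3_6 (u1 u2 u3 u4 : ℝ) (a1 : 1 ≤ u1) (b1 : u1 ≤ 1 + 1) (a2 : 3 ≤ u2) (b2 : u2 ≤ 3 + 1) (a3 : 6 ≤ u3) (b3 : u3 ≤ 6 + 1) (b4 : u4 ≤ 8) (o1 : u1 ≤ u2) (o2 : u2 ≤ u3) (o3 : u3 ≤ u4) : Good u1 u2 u3 u4 ∨ Good2 u1 u2 u3 u4 := by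
  rcases le_total u4 7 with h6 | h6
  · exact g_1_3_6_6 u1 u2 u3 u4 a1 b1 a2 b2 a3 b3 (by linarith) (by linarith) o1 o2 o3
  exact g_1_3_6_7 u1 u2 u3 u4 a1 b1 a2 b2 a3 b3 (by linarith) (by linarith) o1 o2 o3

theorem d3_1_3_7 (u1 u2 u3 u4 : ℝ) (a1 : 1 ≤ u1) (b1 : u1 ≤ 1 + 1) (a2 : 3 ≤ u2) (b2 : u2 ≤ 3 + 1) (a3 : 7 ≤ u3) (b3 : u3 ≤ 7 + 1) (b4 : u4 ≤ 8) (o1 : u1 ≤ u2) (o2 : u2 ≤ u3) (o3 : u3 ≤ u4) : Good u1 u2 u3 u4 ∨ Good2 u1 u2 u3 u4 := by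
  exact g_1_3_7_7 u1 u2 u3 u4 a1 b1 a2 b2 a3 b3 (by linarith) (by linarith) o1 o2 o3

theorem d2_1_3 (u1 u2 u3 u4 : ℝ) (a1 : 1 ≤ u1) (b1 : u1 ≤ 1 + 1) (a2 : 3 ≤ u2) (b2 : u2 ≤ 3 + 1) (b4 : u4 ≤ 8) (o1 : u1 ≤ u2) (o2 : u2 ≤ u3) (o3 : u3 ≤ u4) : Good u1 u2 u3 u4 ∨ Good2 u1 u2 u3 u4 := by
  rcases le_total u3 4 with h3 | h3
  · exact d3_1_3_3 u1 u2 u3 u4 a1 b1 a2 b2 (by linarith) (by linarith) b4 o1 o2 o3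
  rcases le_total u3 5 with h4 | h4
  · exact d3_1_3_4 u1 u2 u3 u4 a1 b1 a2 b2 (by linarith) (by linarith) b4 o1 o2 o3
  rcases le_total u3 6 with h5 | h5
  · exact d3_1_3_5 u1 u2 u3 u4 a1 b1 a2 b2 (by linarith) (by linarith) b4 o1 o2 o3
  rcases le_total u3 7 with h6 | h6
  · exact d3_1_3_6 u1 u2 u3 u4 a1 b1 a2 b2 (by linarith) (by linarith) b4 o1 o2 o3
  exact d3_1_3_7 u1 u2 u3 u4 a1 b1 a2 b2 (by linarith) (by linarith) b4 o1 o2 o3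

theorem d3_1_4_4 (u1 u2 u3 u4 : ℝ) (a1 : 1 ≤ u1) (b1 : u1 ≤ 1 + 1) (a2 : 4 ≤ u2) (b2 : u2 ≤ 4 + 1) (a3 : 4 ≤ u3) (b3 : u3 ≤ 4 + 1) (b4 : u4 ≤ 8) (o1 : u1 ≤ u2) (o2 : u2 ≤ u3) (o3 : u3 ≤ u4) : Good u1 u2 u3 u4 ∨ Good2 u1 u2 u3 u4 := by
  rcases le_total u4 5 with h4 | h4
  · exact g_1_4_4_4 u1 u2 u3 u4 a1 b1 a2 b2 a3 b3 (by linarith) (by linarith) o1 o2 o3
  rcases le_total u4 6 with h5 | h5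
  · exact g_1_4_4_5 u1 u2 u3 u4 a1 b1 a2 b2 a3 b3 (by linarith) (by linarith) o1 o2 o3
  rcases le_total u4 7 with h6 | h6
  · exact g_1_4_4_6 u1 u2 u3 u4 a1 b1 a2 b2 a3 b3 (by linarith) (by linarith) o1 o2 o3
  exact g_1_4_4_7 u1 u2 u3 u4 a1 b1 a2 b2 a3 b3 (by linarith) (by linarith) o1 o2 o3

theorem d3_1_4_5 (u1 u2 u3 u4 : ℝ) (a1 : 1 ≤ u1) (b1 : u1 ≤ 1 + 1) (a2 : 4 ≤ u2) (b2 : u2 ≤ 4 + 1) (a3 : 5 ≤ u3) (b3 : u3 ≤ 5 + 1) (b4 : u4 ≤ 8) (o1 : u1 ≤ u2) (o2 : u2 ≤ u3) (o3 : u3 ≤ u4) : Good u1 u2 u3 u4 ∨ Good2 u1 u2 u3 u4 := by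
  rcases le_total u4 6 with h5 | h5
  · exact g_1_4_5_5 u1 u2 u3 u4 a1 b1 a2 b2 a3 b3 (by linarith) (by linarith) o1 o2 o3
  rcases le_total u4 7 with h6 | h6
  · exact g_1_4_5_6 u1 u2 u3 u4 a1 b1 a2 b2 a3 b3 (by linarith) (by linarith) o1 o2 o3
  exact g_1_4_5_7 u1 u2 u3 u4 a1 b1 a2 b2 a3 b3 (by linarith) (by linarith) o1 o2 o3

theorem d3_1_4_6 (u1 u2 u3 u4 : ℝ) (a1 : 1 ≤ u1) (b1 : u1 ≤ 1 + 1) (a2 : 4 ≤ u2) (b2 : u2 ≤ 4 + 1) (a3 : 6 ≤ u3) (b3 : u3 ≤ 6 + 1) (b4 : u4 ≤ 8) (o1 : u1 ≤ u2) (o2 : u2 ≤ u3) (o3 : u3 ≤ u4) : Good u1 u2 u3 u4 ∨ Good2 u1 u2 u3 u4 := by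
  rcases le_total u4 7 with h6 | h6
  · exact g_1_4_6_6 u1 u2 u3 u4 a1 b1 a2 b2 a3 b3 (by linarith) (by linarith) o1 o2 o3
  exact g_1_4_6_7 u1 u2 u3 u4 a1 b1 a2 b2 a3 b3 (by linarith) (by linarith) o1 o2 o3

theorem d3_1_4_7 (u1 u2 u3 u4 : ℝ) (a1 : 1 ≤ u1) (b1 : u1 ≤ 1 + 1) (a2 : 4 ≤ u2) (b2 : u2 ≤ 4 + 1) (a3 : 7 ≤ u3) (b3 : u3 ≤ 7 + 1) (b4 : u4 ≤ 8) (o1 : u1 ≤ u2) (o2 : u2 ≤ u3) (o3 : u3 ≤ u4) : Good u1 u2 u3 u4 ∨ Good2 u1 u2 u3 u4 := by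
  exact g_1_4_7_7 u1 u2 u3 u4 a1 b1 a2 b2 a3 b3 (by linarith) (by linarith) o1 o2 o3

theorem d2_1_4 (u1 u2 u3 u4 : ℝ) (a1 : 1 ≤ u1) (b1 : u1 ≤ 1 + 1) (a2 : 4 ≤ u2) (b2 : u2 ≤ 4 + 1) (b4 : u4 ≤ 8) (o1 : u1 ≤ u2) (o2 : u2 ≤ u3) (o3 : u3 ≤ u4) : Good u1 u2 u3 u4 ∨ Good2 u1 u2 u3 u4 := by
  rcases le_total u3 5 with h4 | h4
  · exact d3_1_4_4 u1 u2 u3 u4 a1 b1 a2 b2 (by linarith) (by linarith) b4 o1 o2 o3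
  rcases le_total u3 6 with h5 | h5
  · exact d3_1_4_5 u1 u2 u3 u4 a1 b1 a2 b2 (by linarith) (by linarith) b4 o1 o2 o3
  rcases le_total u3 7 with h6 | h6
  · exact d3_1_4_6 u1 u2 u3 u4 a1 b1 a2 b2 (by linarith) (by linarith) b4 o1 o2 o3
  exact d3_1_4_7 u1 u2 u3 u4 a1 b1 a2 b2 (by linarith) (by linarith) b4 o1 o2 o3

theorem d3_1_5_5 (u1 u2 u3 u4 : ℝ) (a1 : 1 ≤ u1) (b1 : u1 ≤ 1 + 1) (a2 : 5 ≤ u2) (b2 : u2 ≤ 5 + 1) (a3 : 5 ≤ u3) (b3 : u3 ≤ 5 + 1) (b4 : u4 ≤ 8) (o1 : u1 ≤ u2) (o2 : u2 ≤ u3) (o3 : u3 ≤ u4) : Good u1 u2 u3 u4 ∨ Good2 u1 u2 u3 u4 := by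
  rcases le_total u4 6 with h5 | h5
  · exact g_1_5_5_5 u1 u2 u3 u4 a1 b1 a2 b2 a3 b3 (by linarith) (by linarith) o1 o2 o3
  rcases le_total u4 7 with h6 | h6
  · exact g_1_5_5_6 u1 u2 u3 u4 a1 b1 a2 b2 a3 b3 (by linarith) (by linarith) o1 o2 o3
  exact g_1_5_5_7 u1 u2 u3 u4 a1 b1 a2 b2 a3 b3 (by linarith) (by linarith) o1 o2 o3

theorem d3_1_5_6 (u1 u2 u3 u4 : ℝ) (a1 : 1 ≤ u1) (b1 : u1 ≤ 1 + 1) (a2 : 5 ≤ u2) (b2 : u2 ≤ 5 + 1) (a3 : 6 ≤ u3) (b3 : u3 ≤ 6 + 1) (b4 : u4 ≤ 8) (o1 : u1 ≤ u2) (o2 : u2 ≤ u3) (o3 : u3 ≤ u4) : Good u1 u2 u3 u4 ∨ Good2 u1 u2 u3 u4 := by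
  rcases le_total u4 7 with h6 | h6
  · exact g_1_5_6_6 u1 u2 u3 u4 a1 b1 a2 b2 a3 b3 (by linarith) (by linarith) o1 o2 o3
  exact g_1_5_6_7 u1 u2 u3 u4 a1 b1 a2 b2 a3 b3 (by linarith) (by linarith) o1 o2 o3

theorem d3_1_5_7 (u1 u2 u3 u4 : ℝ) (a1 : 1 ≤ u1) (b1 : u1 ≤ 1 + 1) (a2 : 5 ≤ u2) (b2 : u2 ≤ 5 + 1) (a3 : 7 ≤ u3) (b3 : u3 ≤ 7 + 1) (b4 : u4 ≤ 8) (o1 : u1 ≤ u2) (o2 : u2 ≤ u3) (o3 : u3 ≤ u4) : Good u1 u2 u3 u4 ∨ Good2 u1 u2 u3 u4 := by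
  exact g_1_5_7_7 u1 u2 u3 u4 a1 b1 a2 b2 a3 b3 (by linarith) (by linarith) o1 o2 o3

theorem d2_1_5 (u1 u2 u3 u4 : ℝ) (a1 : 1 ≤ u1) (b1 : u1 ≤ 1 + 1) (a2 : 5 ≤ u2) (b2 : u2 ≤ 5 + 1) (b4 : u4 ≤ 8) (o1 : u1 ≤ u2) (o2 : u2 ≤ u3) (o3 : u3 ≤ u4) : Good u1 u2 u3 u4 ∨ Good2 u1 u2 u3 u4 := by
  rcases le_total u3 6 with h5 | h5
  · exact d3_1_5_5 u1 u2 u3 u4 a1 b1 a2 b2 (by linarith) (by linarith) b4 o1 o2 o3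
  rcases le_total u3 7 with h6 | h6
  · exact d3_1_5_6 u1 u2 u3 u4 a1 b1 a2 b2 (by linarith) (by linarith) b4 o1 o2 o3
  exact d3_1_5_7 u1 u2 u3 u4 a1 b1 a2 b2 (by linarith) (by linarith) b4 o1 o2 o3

theorem d3_1_6_6 (u1 u2 u3 u4 : ℝ) (a1 : 1 ≤ u1) (b1 : u1 ≤ 1 + 1) (a2 : 6 ≤ u2) (b2 : u2 ≤ 6 + 1) (a3 : 6 ≤ u3) (b3 : u3 ≤ 6 + 1) (b4 : u4 ≤ 8) (o1 : u1 ≤ u2) (o2 : u2 ≤ u3) (o3 : u3 ≤ u4) : Good u1 u2 u3 u4 ∨ Good2 u1 u2 u3 u4 := by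
  rcases le_total u4 7 with h6 | h6
  · exact g_1_6_6_6 u1 u2 u3 u4 a1 b1 a2 b2 a3 b3 (by linarith) (by linarith) o1 o2 o3
  exact g_1_6_6_7 u1 u2 u3 u4 a1 b1 a2 b2 a3 b3 (by linarith) (by linarith) o1 o2 o3

theorem d3_1_6_7 (u1 u2 u3 u4 : ℝ) (a1 : 1 ≤ u1) (b1 : u1 ≤ 1 + 1) (a2 : 6 ≤ u2) (b2 : u2 ≤ 6 + 1) (a3 : 7 ≤ u3) (b3 : u3 ≤ 7 + 1) (b4 : u4 ≤ 8) (o1 : u1 ≤ u2) (o2 : u2 ≤ u3) (o3 : u3 ≤ u4) : Good u1 u2 u3 u4 ∨ Good2 u1 u2 u3 u4 := by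
  exact g_1_6_7_7 u1 u2 u3 u4 a1 b1 a2 b2 a3 b3 (by linarith) (by linarith) o1 o2 o3

theorem d2_1_6 (u1 u2 u3 u4 : ℝ) (a1 : 1 ≤ u1) (b1 : u1 ≤ 1 + 1) (a2 : 6 ≤ u2) (b2 : u2 ≤ 6 + 1) (b4 : u4 ≤ 8) (o1 : u1 ≤ u2) (o2 : u2 ≤ u3) (o3 : u3 ≤ u4) : Good u1 u2 u3 u4 ∨ Good2 u1 u2 u3 u4 := by
  rcases le_total u3 7 with h6 | h6
  · exact d3_1_6_6 u1 u2 u3 u4 a1 b1 a2 b2 (by linarith) (by linarith) b4 o1 o2 o3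
  exact d3_1_6_7 u1 u2 u3 u4 a1 b1 a2 b2 (by linarith) (by linarith) b4 o1 o2 o3

theorem d3_1_7_7 (u1 u2 u3 u4 : ℝ) (a1 : 1 ≤ u1) (b1 : u1 ≤ 1 + 1) (a2 : 7 ≤ u2) (b2 : u2 ≤ 7 + 1) (a3 : 7 ≤ u3) (b3 : u3 ≤ 7 + 1) (b4 : u4 ≤ 8) (o1 : u1 ≤ u2) (o2 : u2 ≤ u3) (o3 : u3 ≤ u4) : Good u1 u2 u3 u4 ∨ Good2 u1 u2 u3 u4 := by
  exact g_1_7_7_7 u1 u2 u3 u4 a1 b1 a2 b2 a3 b3 (by linarith) (by linarith) o1 o2 o3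

theorem d2_1_7 (u1 u2 u3 u4 : ℝ) (a1 : 1 ≤ u1) (b1 : u1 ≤ 1 + 1) (a2 : 7 ≤ u2) (b2 : u2 ≤ 7 + 1) (b4 : u4 ≤ 8) (o1 : u1 ≤ u2) (o2 : u2 ≤ u3) (o3 : u3 ≤ u4) : Good u1 u2 u3 u4 ∨ Good2 u1 u2 u3 u4 := by
  exact d3_1_7_7 u1 u2 u3 u4 a1 b1 a2 b2 (by linarith) (by linarith) b4 o1 o2 o3

theorem d1_1 (u1 u2 u3 u4 : ℝ) (a1 : 1 ≤ u1) (b1 : u1 ≤ 1 + 1) (b4 : u4 ≤ 8) (o1 : u1 ≤ u2) (o2 : u2 ≤ u3) (o3 : u3 ≤ u4) : Good u1 u2 u3 u4 ∨ Good2 u1 u2 u3 u4 := by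
  rcases le_total u2 2 with h1 | h1
  · exact d2_1_1 u1 u2 u3 u4 a1 b1 (by linarith) (by linarith) b4 o1 o2 o3
  rcases le_total u2 3 with h2 | h2
  · exact d2_1_2 u1 u2 u3 u4 a1 b1 (by linarith) (by linarith) b4 o1 o2 o3
  rcases le_total u2 4 with h3 | h3
  · exact d2_1_3 u1 u2 u3 u4 a1 b1 (by linarith) (by linarith) b4 o1 o2 o3
  rcases le_total u2 5 with h4 | h4
  · exact d2_1_4 u1 u2 u3 u4 a1 b1 (by linarith) (by linarith) b4 o1 o2 o3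
  rcases le_total u2 6 with h5 | h5
  · exact d2_1_5 u1 u2 u3 u4 a1 b1 (by linarith) (by linarith) b4 o1 o2 o3
  rcases le_total u2 7 with h6 | h6
  · exact d2_1_6 u1 u2 u3 u4 a1 b1 (by linarith) (by linarith) b4 o1 o2 o3
  exact d2_1_7 u1 u2 u3 u4 a1 b1 (by linarith) (by linarith) b4 o1 o2 o3

theorem d3_2_2_2 (u1 u2 u3 u4 : ℝ) (a1 : 2 ≤ u1) (b1 : u1 ≤ 2 + 1) (a2 : 2 ≤ u2) (b2 : u2 ≤ 2 + 1) (a3 : 2 ≤ u3) (b3 : u3 ≤ 2 + 1) (b4 : u4 ≤ 9) (o1 : u1 ≤ u2) (o2 : u2 ≤ u3) (o3 : u3 ≤ u4) : Good u1 u2 u3 u4 ∨ Good2 u1 u2 u3 u4 := by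
  rcases le_total u4 3 with h2 | h2
  · exact g_2_2_2_2 u1 u2 u3 u4 a1 b1 a2 b2 a3 b3 (by linarith) (by linarith) o1 o2 o3
  rcases le_total u4 4 with h3 | h3
  · exact g_2_2_2_3 u1 u2 u3 u4 a1 b1 a2 b2 a3 b3 (by linarith) (by linarith) o1 o2 o3
  rcases le_total u4 5 with h4 | h4
  · exact g_2_2_2_4 u1 u2 u3 u4 a1 b1 a2 b2 a3 b3 (by linarith) (by linarith) o1 o2 o3
  rcases le_total u4 6 with h5 | h5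
  · exact g_2_2_2_5 u1 u2 u3 u4 a1 b1 a2 b2 a3 b3 (by linarith) (by linarith) o1 o2 o3
  rcases le_total u4 7 with h6 | h6
  · exact g_2_2_2_6 u1 u2 u3 u4 a1 b1 a2 b2 a3 b3 (by linarith) (by linarith) o1 o2 o3
  rcases le_total u4 8 with h7 | h7
  · exact g_2_2_2_7 u1 u2 u3 u4 a1 b1 a2 b2 a3 b3 (by linarith) (by linarith) o1 o2 o3
  exact g_2_2_2_8 u1 u2 u3 u4 a1 b1 a2 b2 a3 b3 (by linarith) (by linarith) o1 o2 o3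

theorem d3_2_2_3 (u1 u2 u3 u4 : ℝ) (a1 : 2 ≤ u1) (b1 : u1 ≤ 2 + 1) (a2 : 2 ≤ u2) (b2 : u2 ≤ 2 + 1) (a3 : 3 ≤ u3) (b3 : u3 ≤ 3 + 1) (b4 : u4 ≤ 9) (o1 : u1 ≤ u2) (o2 : u2 ≤ u3) (o3 : u3 ≤ u4) : Good u1 u2 u3 u4 ∨ Good2 u1 u2 u3 u4 := by
  rcases le_total u4 4 with h3 | h3
  · exact g_2_2_3_3 u1 u2 u3 u4 a1 b1 a2 b2 a3 b3 (by linarith) (by linarith) o1 o2 o3
  rcases le_total u4 5 with h4 | h4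
  · exact g_2_2_3_4 u1 u2 u3 u4 a1 b1 a2 b2 a3 b3 (by linarith) (by linarith) o1 o2 o3
  rcases le_total u4 6 with h5 | h5
  · exact g_2_2_3_5 u1 u2 u3 u4 a1 b1 a2 b2 a3 b3 (by linarith) (by linarith) o1 o2 o3
  rcases le_total u4 7 with h6 | h6
  · exact g_2_2_3_6 u1 u2 u3 u4 a1 b1 a2 b2 a3 b3 (by linarith) (by linarith) o1 o2 o3
  rcases le_total u4 8 with h7 | h7
  · exact g_2_2_3_7 u1 u2 u3 u4 a1 b1 a2 b2 a3 b3 (by linarith) (by linarith) o1 o2 o3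
  exact g_2_2_3_8 u1 u2 u3 u4 a1 b1 a2 b2 a3 b3 (by linarith) (by linarith) o1 o2 o3

theorem d3_2_2_4 (u1 u2 u3 u4 : ℝ) (a1 : 2 ≤ u1) (b1 : u1 ≤ 2 + 1) (a2 : 2 ≤ u2) (b2 : u2 ≤ 2 + 1) (a3 : 4 ≤ u3) (b3 : u3 ≤ 4 + 1) (b4 : u4 ≤ 9) (o1 : u1 ≤ u2) (o2 : u2 ≤ u3) (o3 : u3 ≤ u4) : Good u1 u2 u3 u4 ∨ Good2 u1 u2 u3 u4 := by
  rcases le_total u4 5 with h4 | h4
  · exact g_2_2_4_4 u1 u2 u3 u4 a1 b1 a2 b2 a3 b3 (by linarith) (by linarith) o1 o2 o3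
  rcases le_total u4 6 with h5 | h5
  · exact g_2_2_4_5 u1 u2 u3 u4 a1 b1 a2 b2 a3 b3 (by linarith) (by linarith) o1 o2 o3
  rcases le_total u4 7 with h6 | h6
  · exact g_2_2_4_6 u1 u2 u3 u4 a1 b1 a2 b2 a3 b3 (by linarith) (by linarith) o1 o2 o3
  rcases le_total u4 8 with h7 | h7
  · exact g_2_2_4_7 u1 u2 u3 u4 a1 b1 a2 b2 a3 b3 (by linarith) (by linarith) o1 o2 o3
  exact g_2_2_4_8 u1 u2 u3 u4 a1 b1 a2 b2 a3 b3 (by linarith) (by linarith) o1 o2 o3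

theorem d3_2_2_5 (u1 u2 u3 u4 : ℝ) (a1 : 2 ≤ u1) (b1 : u1 ≤ 2 + 1) (a2 : 2 ≤ u2) (b2 : u2 ≤ 2 + 1) (a3 : 5 ≤ u3) (b3 : u3 ≤ 5 + 1) (b4 : u4 ≤ 9) (o1 : u1 ≤ u2) (o2 : u2 ≤ u3) (o3 : u3 ≤ u4) : Good u1 u2 u3 u4 ∨ Good2 u1 u2 u3 u4 := by
  rcases le_total u4 6 with h5 | h5
  · exact g_2_2_5_5 u1 u2 u3 u4 a1 b1 a2 b2 a3 b3 (by linarith) (by linarith) o1 o2 o3
  rcases le_total u4 7 with h6 | h6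
  · exact g_2_2_5_6 u1 u2 u3 u4 a1 b1 a2 b2 a3 b3 (by linarith) (by linarith) o1 o2 o3
  rcases le_total u4 8 with h7 | h7
  · exact g_2_2_5_7 u1 u2 u3 u4 a1 b1 a2 b2 a3 b3 (by linarith) (by linarith) o1 o2 o3
  exact g_2_2_5_8 u1 u2 u3 u4 a1 b1 a2 b2 a3 b3 (by linarith) (by linarith) o1 o2 o3

theorem d3_2_2_6 (u1 u2 u3 u4 : ℝ) (a1 : 2 ≤ u1) (b1 : u1 ≤ 2 + 1) (a2 : 2 ≤ u2) (b2 : u2 ≤ 2 + 1) (a3 : 6 ≤ u3) (b3 : u3 ≤ 6 + 1) (b4 : u4 ≤ 9) (o1 : u1 ≤ u2) (o2 : u2 ≤ u3) (o3 : u3 ≤ u4) : Good u1 u2 u3 u4 ∨ Good2 u1 u2 u3 u4 := by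
  rcases le_total u4 7 with h6 | h6
  · exact g_2_2_6_6 u1 u2 u3 u4 a1 b1 a2 b2 a3 b3 (by linarith) (by linarith) o1 o2 o3
  rcases le_total u4 8 with h7 | h7
  · exact g_2_2_6_7 u1 u2 u3 u4 a1 b1 a2 b2 a3 b3 (by linarith) (by linarith) o1 o2 o3
  exact g_2_2_6_8 u1 u2 u3 u4 a1 b1 a2 b2 a3 b3 (by linarith) (by linarith) o1 o2 o3

theorem d3_2_2_7 (u1 u2 u3 u4 : ℝ) (a1 : 2 ≤ u1) (b1 : u1 ≤ 2 + 1) (a2 : 2 ≤ u2) (b2 : u2 ≤ 2 + 1) (a3 : 7 ≤ u3) (b3 : u3 ≤ 7 + 1) (b4 : u4 ≤ 9) (o1 : u1 ≤ u2) (o2 : u2 ≤ u3) (o3 : u3 ≤ u4) : Good u1 u2 u3 u4 ∨ Good2 u1 u2 u3 u4 := by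
  rcases le_total u4 8 with h7 | h7
  · exact g_2_2_7_7 u1 u2 u3 u4 a1 b1 a2 b2 a3 b3 (by linarith) (by linarith) o1 o2 o3
  exact g_2_2_7_8 u1 u2 u3 u4 a1 b1 a2 b2 a3 b3 (by linarith) (by linarith) o1 o2 o3

theorem d3_2_2_8 (u1 u2 u3 u4 : ℝ) (a1 : 2 ≤ u1) (b1 : u1 ≤ 2 + 1) (a2 : 2 ≤ u2) (b2 : u2 ≤ 2 + 1) (a3 : 8 ≤ u3) (b3 : u3 ≤ 8 + 1) (b4 : u4 ≤ 9) (o1 : u1 ≤ u2) (o2 : u2 ≤ u3) (o3 : u3 ≤ u4) : Good u1 u2 u3 u4 ∨ Good2 u1 u2 u3 u4 := by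
  exact g_2_2_8_8 u1 u2 u3 u4 a1 b1 a2 b2 a3 b3 (by linarith) (by linarith) o1 o2 o3

theorem d2_2_2 (u1 u2 u3 u4 : ℝ) (a1 : 2 ≤ u1) (b1 : u1 ≤ 2 + 1) (a2 : 2 ≤ u2) (b2 : u2 ≤ 2 + 1) (b4 : u4 ≤ 9) (o1 : u1 ≤ u2) (o2 : u2 ≤ u3) (o3 : u3 ≤ u4) : Good u1 u2 u3 u4 ∨ Good2 u1 u2 u3 u4 := by
  rcases le_total u3 3 with h2 | h2
  · exact d3_2_2_2 u1 u2 u3 u4 a1 b1 a2 b2 (by linarith) (by linarith) b4 o1 o2 o3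
  rcases le_total u3 4 with h3 | h3
  · exact d3_2_2_3 u1 u2 u3 u4 a1 b1 a2 b2 (by linarith) (by linarith) b4 o1 o2 o3
  rcases le_total u3 5 with h4 | h4
  · exact d3_2_2_4 u1 u2 u3 u4 a1 b1 a2 b2 (by linarith) (by linarith) b4 o1 o2 o3
  rcases le_total u3 6 with h5 | h5
  · exact d3_2_2_5 u1 u2 u3 u4 a1 b1 a2 b2 (by linarith) (by linarith) b4 o1 o2 o3
  rcases le_total u3 7 with h6 | h6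
  · exact d3_2_2_6 u1 u2 u3 u4 a1 b1 a2 b2 (by linarith) (by linarith) b4 o1 o2 o3
  rcases le_total u3 8 with h7 | h7
  · exact d3_2_2_7 u1 u2 u3 u4 a1 b1 a2 b2 (by linarith) (by linarith) b4 o1 o2 o3
  exact d3_2_2_8 u1 u2 u3 u4 a1 b1 a2 b2 (by linarith) (by linarith) b4 o1 o2 o3

theorem d3_2_3_3 (u1 u2 u3 u4 : ℝ) (a1 : 2 ≤ u1) (b1 : u1 ≤ 2 + 1) (a2 : 3 ≤ u2) (b2 : u2 ≤ 3 + 1) (a3 : 3 ≤ u3) (b3 : u3 ≤ 3 + 1) (b4 : u4 ≤ 9) (o1 : u1 ≤ u2) (o2 : u2 ≤ u3) (o3 : u3 ≤ u4) : Good u1 u2 u3 u4 ∨ Good2 u1 u2 u3 u4 := by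
  rcases le_total u4 4 with h3 | h3
  · exact g_2_3_3_3 u1 u2 u3 u4 a1 b1 a2 b2 a3 b3 (by linarith) (by linarith) o1 o2 o3
  rcases le_total u4 5 with h4 | h4
  · exact g_2_3_3_4 u1 u2 u3 u4 a1 b1 a2 b2 a3 b3 (by linarith) (by linarith) o1 o2 o3
  rcases le_total u4 6 with h5 | h5
  · exact g_2_3_3_5 u1 u2 u3 u4 a1 b1 a2 b2 a3 b3 (by linarith) (by linarith) o1 o2 o3
  rcases le_total u4 7 with h6 | h6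
  · exact g_2_3_3_6 u1 u2 u3 u4 a1 b1 a2 b2 a3 b3 (by linarith) (by linarith) o1 o2 o3
  rcases le_total u4 8 with h7 | h7
  · exact g_2_3_3_7 u1 u2 u3 u4 a1 b1 a2 b2 a3 b3 (by linarith) (by linarith) o1 o2 o3
  exact g_2_3_3_8 u1 u2 u3 u4 a1 b1 a2 b2 a3 b3 (by linarith) (by linarith) o1 o2 o3

theorem d3_2_3_4 (u1 u2 u3 u4 : ℝ) (a1 : 2 ≤ u1) (b1 : u1 ≤ 2 + 1) (a2 : 3 ≤ u2) (b2 : u2 ≤ 3 + 1) (a3 : 4 ≤ u3) (b3 : u3 ≤ 4 + 1) (b4 : u4 ≤ 9) (o1 : u1 ≤ u2) (o2 : u2 ≤ u3) (o3 : u3 ≤ u4) : Good u1 u2 u3 u4 ∨ Good2 u1 u2 u3 u4 := by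
  rcases le_total u4 5 with h4 | h4
  · exact g_2_3_4_4 u1 u2 u3 u4 a1 b1 a2 b2 a3 b3 (by linarith) (by linarith) o1 o2 o3
  rcases le_total u4 6 with h5 | h5
  · exact g_2_3_4_5 u1 u2 u3 u4 a1 b1 a2 b2 a3 b3 (by linarith) (by linarith) o1 o2 o3
  rcases le_total u4 7 with h6 | h6
  · exact g_2_3_4_6 u1 u2 u3 u4 a1 b1 a2 b2 a3 b3 (by linarith) (by linarith) o1 o2 o3
  rcases le_total u4 8 with h7 | h7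
  · exact g_2_3_4_7 u1 u2 u3 u4 a1 b1 a2 b2 a3 b3 (by linarith) (by linarith) o1 o2 o3
  exact g_2_3_4_8 u1 u2 u3 u4 a1 b1 a2 b2 a3 b3 (by linarith) (by linarith) o1 o2 o3

theorem d3_2_3_5 (u1 u2 u3 u4 : ℝ) (a1 : 2 ≤ u1) (b1 : u1 ≤ 2 + 1) (a2 : 3 ≤ u2) (b2 : u2 ≤ 3 + 1) (a3 : 5 ≤ u3) (b3 : u3 ≤ 5 + 1) (b4 : u4 ≤ 9) (o1 : u1 ≤ u2) (o2 : u2 ≤ u3) (o3 : u3 ≤ u4) : Good u1 u2 u3 u4 ∨ Good2 u1 u2 u3 u4 := by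
  rcases le_total u4 6 with h5 | h5
  · exact g_2_3_5_5 u1 u2 u3 u4 a1 b1 a2 b2 a3 b3 (by linarith) (by linarith) o1 o2 o3
  rcases le_total u4 7 with h6 | h6
  · exact g_2_3_5_6 u1 u2 u3 u4 a1 b1 a2 b2 a3 b3 (by linarith) (by linarith) o1 o2 o3
  rcases le_total u4 8 with h7 | h7
  · exact g_2_3_5_7 u1 u2 u3 u4 a1 b1 a2 b2 a3 b3 (by linarith) (by linarith) o1 o2 o3
  exact g_2_3_5_8 u1 u2 u3 u4 a1 b1 a2 b2 a3 b3 (by linarith) (by linarith) o1 o2 o3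

theorem d3_2_3_6 (u1 u2 u3 u4 : ℝ) (a1 : 2 ≤ u1) (b1 : u1 ≤ 2 + 1) (a2 : 3 ≤ u2) (b2 : u2 ≤ 3 + 1) (a3 : 6 ≤ u3) (b3 : u3 ≤ 6 + 1) (b4 : u4 ≤ 9) (o1 : u1 ≤ u2) (o2 : u2 ≤ u3) (o3 : u3 ≤ u4) : Good u1 u2 u3 u4 ∨ Good2 u1 u2 u3 u4 := by
  rcases le_total u4 7 with h6 | h6
  · exact g_2_3_6_6 u1 u2 u3 u4 a1 b1 a2 b2 a3 b3 (by linarith) (by linarith) o1 o2 o3
  rcases le_total u4 8 with h7 | h7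
  · exact g_2_3_6_7 u1 u2 u3 u4 a1 b1 a2 b2 a3 b3 (by linarith) (by linarith) o1 o2 o3
  exact g_2_3_6_8 u1 u2 u3 u4 a1 b1 a2 b2 a3 b3 (by linarith) (by linarith) o1 o2 o3

theorem d3_2_3_7 (u1 u2 u3 u4 : ℝ) (a1 : 2 ≤ u1) (b1 : u1 ≤ 2 + 1) (a2 : 3 ≤ u2) (b2 : u2 ≤ 3 + 1) (a3 : 7 ≤ u3) (b3 : u3 ≤ 7 + 1) (b4 : u4 ≤ 9) (o1 : u1 ≤ u2) (o2 : u2 ≤ u3) (o3 : u3 ≤ u4) : Good u1 u2 u3 u4 ∨ Good2 u1 u2 u3 u4 := by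
  rcases le_total u4 8 with h7 | h7
  · exact g_2_3_7_7 u1 u2 u3 u4 a1 b1 a2 b2 a3 b3 (by linarith) (by linarith) o1 o2 o3
  exact g_2_3_7_8 u1 u2 u3 u4 a1 b1 a2 b2 a3 b3 (by linarith) (by linarith) o1 o2 o3

theorem d3_2_3_8 (u1 u2 u3 u4 : ℝ) (a1 : 2 ≤ u1) (b1 : u1 ≤ 2 + 1) (a2 : 3 ≤ u2) (b2 : u2 ≤ 3 + 1) (a3 : 8 ≤ u3) (b3 : u3 ≤ 8 + 1) (b4 : u4 ≤ 9) (o1 : u1 ≤ u2) (o2 : u2 ≤ u3) (o3 : u3 ≤ u4) : Good u1 u2 u3 u4 ∨ Good2 u1 u2 u3 u4 := by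
  exact g_2_3_8_8 u1 u2 u3 u4 a1 b1 a2 b2 a3 b3 (by linarith) (by linarith) o1 o2 o3

theorem d2_2_3 (u1 u2 u3 u4 : ℝ) (a1 : 2 ≤ u1) (b1 : u1 ≤ 2 + 1) (a2 : 3 ≤ u2) (b2 : u2 ≤ 3 + 1) (b4 : u4 ≤ 9) (o1 : u1 ≤ u2) (o2 : u2 ≤ u3) (o3 : u3 ≤ u4) : Good u1 u2 u3 u4 ∨ Good2 u1 u2 u3 u4 := by
  rcases le_total u3 4 with h3 | h3
  · exact d3_2_3_3 u1 u2 u3 u4 a1 b1 a2 b2 (by linarith) (by linarith) b4 o1 o2 o3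
  rcases le_total u3 5 with h4 | h4
  · exact d3_2_3_4 u1 u2 u3 u4 a1 b1 a2 b2 (by linarith) (by linarith) b4 o1 o2 o3
  rcases le_total u3 6 with h5 | h5
  · exact d3_2_3_5 u1 u2 u3 u4 a1 b1 a2 b2 (by linarith) (by linarith) b4 o1 o2 o3
  rcases le_total u3 7 with h6 | h6
  · exact d3_2_3_6 u1 u2 u3 u4 a1 b1 a2 b2 (by linarith) (by linarith) b4 o1 o2 o3
  rcases le_total u3 8 with h7 | h7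
  · exact d3_2_3_7 u1 u2 u3 u4 a1 b1 a2 b2 (by linarith) (by linarith) b4 o1 o2 o3
  exact d3_2_3_8 u1 u2 u3 u4 a1 b1 a2 b2 (by linarith) (by linarith) b4 o1 o2 o3

theorem d3_2_4_4 (u1 u2 u3 u4 : ℝ) (a1 : 2 ≤ u1) (b1 : u1 ≤ 2 + 1) (a2 : 4 ≤ u2) (b2 : u2 ≤ 4 + 1) (a3 : 4 ≤ u3) (b3 : u3 ≤ 4 + 1) (b4 : u4 ≤ 9) (o1 : u1 ≤ u2) (o2 : u2 ≤ u3) (o3 : u3 ≤ u4) : Good u1 u2 u3 u4 ∨ Good2 u1 u2 u3 u4 := by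
  rcases le_total u4 5 with h4 | h4
  · exact g_2_4_4_4 u1 u2 u3 u4 a1 b1 a2 b2 a3 b3 (by linarith) (by linarith) o1 o2 o3
  rcases le_total u4 6 with h5 | h5
  · exact g_2_4_4_5 u1 u2 u3 u4 a1 b1 a2 b2 a3 b3 (by linarith) (by linarith) o1 o2 o3
  rcases le_total u4 7 with h6 | h6
  · exact g_2_4_4_6 u1 u2 u3 u4 a1 b1 a2 b2 a3 b3 (by linarith) (by linarith) o1 o2 o3
  rcases le_total u4 8 with h7 | h7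
  · exact g_2_4_4_7 u1 u2 u3 u4 a1 b1 a2 b2 a3 b3 (by linarith) (by linarith) o1 o2 o3
  exact g_2_4_4_8 u1 u2 u3 u4 a1 b1 a2 b2 a3 b3 (by linarith) (by linarith) o1 o2 o3

theorem d3_2_4_5 (u1 u2 u3 u4 : ℝ) (a1 : 2 ≤ u1) (b1 : u1 ≤ 2 + 1) (a2 : 4 ≤ u2) (b2 : u2 ≤ 4 + 1) (a3 : 5 ≤ u3) (b3 : u3 ≤ 5 + 1) (b4 : u4 ≤ 9) (o1 : u1 ≤ u2) (o2 : u2 ≤ u3) (o3 : u3 ≤ u4) : Good u1 u2 u3 u4 ∨ Good2 u1 u2 u3 u4 := by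
  rcases le_total u4 6 with h5 | h5
  · exact g_2_4_5_5 u1 u2 u3 u4 a1 b1 a2 b2 a3 b3 (by linarith) (by linarith) o1 o2 o3
  rcases le_total u4 7 with h6 | h6
  · exact g_2_4_5_6 u1 u2 u3 u4 a1 b1 a2 b2 a3 b3 (by linarith) (by linarith) o1 o2 o3
  rcases le_total u4 8 with h7 | h7
  · exact g_2_4_5_7 u1 u2 u3 u4 a1 b1 a2 b2 a3 b3 (by linarith) (by linarith) o1 o2 o3
  exact g_2_4_5_8 u1 u2 u3 u4 a1 b1 a2 b2 a3 b3 (by linarith) (by linarith) o1 o2 o3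

theorem d3_2_4_6 (u1 u2 u3 u4 : ℝ) (a1 : 2 ≤ u1) (b1 : u1 ≤ 2 + 1) (a2 : 4 ≤ u2) (b2 : u2 ≤ 4 + 1) (a3 : 6 ≤ u3) (b3 : u3 ≤ 6 + 1) (b4 : u4 ≤ 9) (o1 : u1 ≤ u2) (o2 : u2 ≤ u3) (o3 : u3 ≤ u4) : Good u1 u2 u3 u4 ∨ Good2 u1 u2 u3 u4 := by
  rcases le_total u4 7 with h6 | h6
  · exact g_2_4_6_6 u1 u2 u3 u4 a1 b1 a2 b2 a3 b3 (by linarith) (by linarith) o1 o2 o3
  rcases le_total u4 8 with h7 | h7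
  · exact g_2_4_6_7 u1 u2 u3 u4 a1 b1 a2 b2 a3 b3 (by linarith) (by linarith) o1 o2 o3
  exact g_2_4_6_8 u1 u2 u3 u4 a1 b1 a2 b2 a3 b3 (by linarith) (by linarith) o1 o2 o3

theorem d3_2_4_7 (u1 u2 u3 u4 : ℝ) (a1 : 2 ≤ u1) (b1 : u1 ≤ 2 + 1) (a2 : 4 ≤ u2) (b2 : u2 ≤ 4 + 1) (a3 : 7 ≤ u3) (b3 : u3 ≤ 7 + 1) (b4 : u4 ≤ 9) (o1 : u1 ≤ u2) (o2 : u2 ≤ u3) (o3 : u3 ≤ u4) : Good u1 u2 u3 u4 ∨ Good2 u1 u2 u3 u4 := by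
  rcases le_total u4 8 with h7 | h7
  · exact g_2_4_7_7 u1 u2 u3 u4 a1 b1 a2 b2 a3 b3 (by linarith) (by linarith) o1 o2 o3
  exact g_2_4_7_8 u1 u2 u3 u4 a1 b1 a2 b2 a3 b3 (by linarith) (by linarith) o1 o2 o3

theorem d3_2_4_8 (u1 u2 u3 u4 : ℝ) (a1 : 2 ≤ u1) (b1 : u1 ≤ 2 + 1) (a2 : 4 ≤ u2) (b2 : u2 ≤ 4 + 1) (a3 : 8 ≤ u3) (b3 : u3 ≤ 8 + 1) (b4 : u4 ≤ 9) (o1 : u1 ≤ u2) (o2 : u2 ≤ u3) (o3 : u3 ≤ u4) : Good u1 u2 u3 u4 ∨ Good2 u1 u2 u3 u4 := by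
  exact g_2_4_8_8 u1 u2 u3 u4 a1 b1 a2 b2 a3 b3 (by linarith) (by linarith) o1 o2 o3

theorem d2_2_4 (u1 u2 u3 u4 : ℝ) (a1 : 2 ≤ u1) (b1 : u1 ≤ 2 + 1) (a2 : 4 ≤ u2) (b2 : u2 ≤ 4 + 1) (b4 : u4 ≤ 9) (o1 : u1 ≤ u2) (o2 : u2 ≤ u3) (o3 : u3 ≤ u4) : Good u1 u2 u3 u4 ∨ Good2 u1 u2 u3 u4 := by
  rcases le_total u3 5 with h4 | h4
  · exact d3_2_4_4 u1 u2 u3 u4 a1 b1 a2 b2 (by linarith) (by linarith) b4 o1 o2 o3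
  rcases le_total u3 6 with h5 | h5
  · exact d3_2_4_5 u1 u2 u3 u4 a1 b1 a2 b2 (by linarith) (by linarith) b4 o1 o2 o3
  rcases le_total u3 7 with h6 | h6
  · exact d3_2_4_6 u1 u2 u3 u4 a1 b1 a2 b2 (by linarith) (by linarith) b4 o1 o2 o3
  rcases le_total u3 8 with h7 | h7
  · exact d3_2_4_7 u1 u2 u3 u4 a1 b1 a2 b2 (by linarith) (by linarith) b4 o1 o2 o3
  exact d3_2_4_8 u1 u2 u3 u4 a1 b1 a2 b2 (by linarith) (by linarith) b4 o1 o2 o3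

theorem d3_2_5_5 (u1 u2 u3 u4 : ℝ) (a1 : 2 ≤ u1) (b1 : u1 ≤ 2 + 1) (a2 : 5 ≤ u2) (b2 : u2 ≤ 5 + 1) (a3 : 5 ≤ u3) (b3 : u3 ≤ 5 + 1) (b4 : u4 ≤ 9) (o1 : u1 ≤ u2) (o2 : u2 ≤ u3) (o3 : u3 ≤ u4) : Good u1 u2 u3 u4 ∨ Good2 u1 u2 u3 u4 := by
  rcases le_total u4 6 with h5 | h5
  · exact g_2_5_5_5 u1 u2 u3 u4 a1 b1 a2 b2 a3 b3 (by linarith) (by linarith) o1 o2 o3
  rcases le_total u4 7 with h6 | h6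
  · exact g_2_5_5_6 u1 u2 u3 u4 a1 b1 a2 b2 a3 b3 (by linarith) (by linarith) o1 o2 o3
  rcases le_total u4 8 with h7 | h7
  · exact g_2_5_5_7 u1 u2 u3 u4 a1 b1 a2 b2 a3 b3 (by linarith) (by linarith) o1 o2 o3
  exact g_2_5_5_8 u1 u2 u3 u4 a1 b1 a2 b2 a3 b3 (by linarith) (by linarith) o1 o2 o3

theorem d3_2_5_6 (u1 u2 u3 u4 : ℝ) (a1 : 2 ≤ u1) (b1 : u1 ≤ 2 + 1) (a2 : 5 ≤ u2) (b2 : u2 ≤ 5 + 1) (a3 : 6 ≤ u3) (b3 : u3 ≤ 6 + 1) (b4 : u4 ≤ 9) (o1 : u1 ≤ u2) (o2 : u2 ≤ u3) (o3 : u3 ≤ u4) : Good u1 u2 u3 u4 ∨ Good2 u1 u2 u3 u4 := by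
  rcases le_total u4 7 with h6 | h6
  · exact g_2_5_6_6 u1 u2 u3 u4 a1 b1 a2 b2 a3 b3 (by linarith) (by linarith) o1 o2 o3
  rcases le_total u4 8 with h7 | h7
  · exact g_2_5_6_7 u1 u2 u3 u4 a1 b1 a2 b2 a3 b3 (by linarith) (by linarith) o1 o2 o3
  exact g_2_5_6_8 u1 u2 u3 u4 a1 b1 a2 b2 a3 b3 (by linarith) (by linarith) o1 o2 o3

theorem d3_2_5_7 (u1 u2 u3 u4 : ℝ) (a1 : 2 ≤ u1) (b1 : u1 ≤ 2 + 1) (a2 : 5 ≤ u2) (b2 : u2 ≤ 5 + 1) (a3 : 7 ≤ u3) (b3 : u3 ≤ 7 + 1) (b4 : u4 ≤ 9) (o1 : u1 ≤ u2) (o2 : u2 ≤ u3) (o3 : u3 ≤ u4) : Good u1 u2 u3 u4 ∨ Good2 u1 u2 u3 u4 := by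
  rcases le_total u4 8 with h7 | h7
  · exact g_2_5_7_7 u1 u2 u3 u4 a1 b1 a2 b2 a3 b3 (by linarith) (by linarith) o1 o2 o3
  exact g_2_5_7_8 u1 u2 u3 u4 a1 b1 a2 b2 a3 b3 (by linarith) (by linarith) o1 o2 o3

theorem d3_2_5_8 (u1 u2 u3 u4 : ℝ) (a1 : 2 ≤ u1) (b1 : u1 ≤ 2 + 1) (a2 : 5 ≤ u2) (b2 : u2 ≤ 5 + 1) (a3 : 8 ≤ u3) (b3 : u3 ≤ 8 + 1) (b4 : u4 ≤ 9) (o1 : u1 ≤ u2) (o2 : u2 ≤ u3) (o3 : u3 ≤ u4) : Good u1 u2 u3 u4 ∨ Good2 u1 u2 u3 u4 := by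
  exact g_2_5_8_8 u1 u2 u3 u4 a1 b1 a2 b2 a3 b3 (by linarith) (by linarith) o1 o2 o3

theorem d2_2_5 (u1 u2 u3 u4 : ℝ) (a1 : 2 ≤ u1) (b1 : u1 ≤ 2 + 1) (a2 : 5 ≤ u2) (b2 : u2 ≤ 5 + 1) (b4 : u4 ≤ 9) (o1 : u1 ≤ u2) (o2 : u2 ≤ u3) (o3 : u3 ≤ u4) : Good u1 u2 u3 u4 ∨ Good2 u1 u2 u3 u4 := by
  rcases le_total u3 6 with h5 | h5
  · exact d3_2_5_5 u1 u2 u3 u4 a1 b1 a2 b2 (by linarith) (by linarith) b4 o1 o2 o3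
  rcases le_total u3 7 with h6 | h6
  · exact d3_2_5_6 u1 u2 u3 u4 a1 b1 a2 b2 (by linarith) (by linarith) b4 o1 o2 o3
  rcases le_total u3 8 with h7 | h7
  · exact d3_2_5_7 u1 u2 u3 u4 a1 b1 a2 b2 (by linarith) (by linarith) b4 o1 o2 o3
  exact d3_2_5_8 u1 u2 u3 u4 a1 b1 a2 b2 (by linarith) (by linarith) b4 o1 o2 o3

theorem d3_2_6_6 (u1 u2 u3 u4 : ℝ) (a1 : 2 ≤ u1) (b1 : u1 ≤ 2 + 1) (a2 : 6 ≤ u2) (b2 : u2 ≤ 6 + 1) (a3 : 6 ≤ u3) (b3 : u3 ≤ 6 + 1) (b4 : u4 ≤ 9) (o1 : u1 ≤ u2) (o2 : u2 ≤ u3) (o3 : u3 ≤ u4) : Good u1 u2 u3 u4 ∨ Good2 u1 u2 u3 u4 := by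
  rcases le_total u4 7 with h6 | h6
  · exact g_2_6_6_6 u1 u2 u3 u4 a1 b1 a2 b2 a3 b3 (by linarith) (by linarith) o1 o2 o3
  rcases le_total u4 8 with h7 | h7
  · exact g_2_6_6_7 u1 u2 u3 u4 a1 b1 a2 b2 a3 b3 (by linarith) (by linarith) o1 o2 o3
  exact g_2_6_6_8 u1 u2 u3 u4 a1 b1 a2 b2 a3 b3 (by linarith) (by linarith) o1 o2 o3

theorem d3_2_6_7 (u1 u2 u3 u4 : ℝ) (a1 : 2 ≤ u1) (b1 : u1 ≤ 2 + 1) (a2 : 6 ≤ u2) (b2 : u2 ≤ 6 + 1) (a3 : 7 ≤ u3) (b3 : u3 ≤ 7 + 1) (b4 : u4 ≤ 9) (o1 : u1 ≤ u2) (o2 : u2 ≤ u3) (o3 : u3 ≤ u4) : Good u1 u2 u3 u4 ∨ Good2 u1 u2 u3 u4 := by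
  rcases le_total u4 8 with h7 | h7
  · exact g_2_6_7_7 u1 u2 u3 u4 a1 b1 a2 b2 a3 b3 (by linarith) (by linarith) o1 o2 o3
  exact g_2_6_7_8 u1 u2 u3 u4 a1 b1 a2 b2 a3 b3 (by linarith) (by linarith) o1 o2 o3

theorem d3_2_6_8 (u1 u2 u3 u4 : ℝ) (a1 : 2 ≤ u1) (b1 : u1 ≤ 2 + 1) (a2 : 6 ≤ u2) (b2 : u2 ≤ 6 + 1) (a3 : 8 ≤ u3) (b3 : u3 ≤ 8 + 1) (b4 : u4 ≤ 9) (o1 : u1 ≤ u2) (o2 : u2 ≤ u3) (o3 : u3 ≤ u4) : Good u1 u2 u3 u4 ∨ Good2 u1 u2 u3 u4 := by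
  exact g_2_6_8_8 u1 u2 u3 u4 a1 b1 a2 b2 a3 b3 (by linarith) (by linarith) o1 o2 o3

theorem d2_2_6 (u1 u2 u3 u4 : ℝ) (a1 : 2 ≤ u1) (b1 : u1 ≤ 2 + 1) (a2 : 6 ≤ u2) (b2 : u2 ≤ 6 + 1) (b4 : u4 ≤ 9) (o1 : u1 ≤ u2) (o2 : u2 ≤ u3) (o3 : u3 ≤ u4) : Good u1 u2 u3 u4 ∨ Good2 u1 u2 u3 u4 := by
  rcases le_total u3 7 with h6 | h6
  · exact d3_2_6_6 u1 u2 u3 u4 a1 b1 a2 b2 (by linarith) (by linarith) b4 o1 o2 o3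
  rcases le_total u3 8 with h7 | h7
  · exact d3_2_6_7 u1 u2 u3 u4 a1 b1 a2 b2 (by linarith) (by linarith) b4 o1 o2 o3
  exact d3_2_6_8 u1 u2 u3 u4 a1 b1 a2 b2 (by linarith) (by linarith) b4 o1 o2 o3

theorem d3_2_7_7 (u1 u2 u3 u4 : ℝ) (a1 : 2 ≤ u1) (b1 : u1 ≤ 2 + 1) (a2 : 7 ≤ u2) (b2 : u2 ≤ 7 + 1) (a3 : 7 ≤ u3) (b3 : u3 ≤ 7 + 1) (b4 : u4 ≤ 9) (o1 : u1 ≤ u2) (o2 : u2 ≤ u3) (o3 : u3 ≤ u4) : Good u1 u2 u3 u4 ∨ Good2 u1 u2 u3 u4 := by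
  rcases le_total u4 8 with h7 | h7
  · exact g_2_7_7_7 u1 u2 u3 u4 a1 b1 a2 b2 a3 b3 (by linarith) (by linarith) o1 o2 o3
  exact g_2_7_7_8 u1 u2 u3 u4 a1 b1 a2 b2 a3 b3 (by linarith) (by linarith) o1 o2 o3

theorem d3_2_7_8 (u1 u2 u3 u4 : ℝ) (a1 : 2 ≤ u1) (b1 : u1 ≤ 2 + 1) (a2 : 7 ≤ u2) (b2 : u2 ≤ 7 + 1) (a3 : 8 ≤ u3) (b3 : u3 ≤ 8 + 1) (b4 : u4 ≤ 9) (o1 : u1 ≤ u2) (o2 : u2 ≤ u3) (o3 : u3 ≤ u4) : Good u1 u2 u3 u4 ∨ Good2 u1 u2 u3 u4 := by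
  exact g_2_7_8_8 u1 u2 u3 u4 a1 b1 a2 b2 a3 b3 (by linarith) (by linarith) o1 o2 o3

theorem d2_2_7 (u1 u2 u3 u4 : ℝ) (a1 : 2 ≤ u1) (b1 : u1 ≤ 2 + 1) (a2 : 7 ≤ u2) (b2 : u2 ≤ 7 + 1) (b4 : u4 ≤ 9) (o1 : u1 ≤ u2) (o2 : u2 ≤ u3) (o3 : u3 ≤ u4) : Good u1 u2 u3 u4 ∨ Good2 u1 u2 u3 u4 := by
  rcases le_total u3 8 with h7 | h7
  · exact d3_2_7_7 u1 u2 u3 u4 a1 b1 a2 b2 (by linarith) (by linarith) b4 o1 o2 o3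
  exact d3_2_7_8 u1 u2 u3 u4 a1 b1 a2 b2 (by linarith) (by linarith) b4 o1 o2 o3

theorem d3_2_8_8 (u1 u2 u3 u4 : ℝ) (a1 : 2 ≤ u1) (b1 : u1 ≤ 2 + 1) (a2 : 8 ≤ u2) (b2 : u2 ≤ 8 + 1) (a3 : 8 ≤ u3) (b3 : u3 ≤ 8 + 1) (b4 : u4 ≤ 9) (o1 : u1 ≤ u2) (o2 : u2 ≤ u3) (o3 : u3 ≤ u4) : Good u1 u2 u3 u4 ∨ Good2 u1 u2 u3 u4 := by
  exact g_2_8_8_8 u1 u2 u3 u4 a1 b1 a2 b2 a3 b3 (by linarith) (by linarith) o1 o2 o3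

theorem d2_2_8 (u1 u2 u3 u4 : ℝ) (a1 : 2 ≤ u1) (b1 : u1 ≤ 2 + 1) (a2 : 8 ≤ u2) (b2 : u2 ≤ 8 + 1) (b4 : u4 ≤ 9) (o1 : u1 ≤ u2) (o2 : u2 ≤ u3) (o3 : u3 ≤ u4) : Good u1 u2 u3 u4 ∨ Good2 u1 u2 u3 u4 := by
  exact d3_2_8_8 u1 u2 u3 u4 a1 b1 a2 b2 (by linarith) (by linarith) b4 o1 o2 o3

theorem d1_2 (u1 u2 u3 u4 : ℝ) (a1 : 2 ≤ u1) (b1 : u1 ≤ 2 + 1) (b4 : u4 ≤ 9) (o1 : u1 ≤ u2) (o2 : u2 ≤ u3) (o3 : u3 ≤ u4) : Good u1 u2 u3 u4 ∨ Good2 u1 u2 u3 u4 := by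
  rcases le_total u2 3 with h2 | h2
  · exact d2_2_2 u1 u2 u3 u4 a1 b1 (by linarith) (by linarith) b4 o1 o2 o3
  rcases le_total u2 4 with h3 | h3
  · exact d2_2_3 u1 u2 u3 u4 a1 b1 (by linarith) (by linarith) b4 o1 o2 o3
  rcases le_total u2 5 with h4 | h4
  · exact d2_2_4 u1 u2 u3 u4 a1 b1 (by linarith) (by linarith) b4 o1 o2 o3
  rcases le_total u2 6 with h5 | h5
  · exact d2_2_5 u1 u2 u3 u4 a1 b1 (by linarith) (by linarith) b4 o1 o2 o3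
  rcases le_total u2 7 with h6 | h6
  · exact d2_2_6 u1 u2 u3 u4 a1 b1 (by linarith) (by linarith) b4 o1 o2 o3
  rcases le_total u2 8 with h7 | h7
  · exact d2_2_7 u1 u2 u3 u4 a1 b1 (by linarith) (by linarith) b4 o1 o2 o3
  exact d2_2_8 u1 u2 u3 u4 a1 b1 (by linarith) (by linarith) b4 o1 o2 o3

theorem d3_3_3_3 (u1 u2 u3 u4 : ℝ) (a1 : 3 ≤ u1) (b1 : u1 ≤ 3 + 1) (a2 : 3 ≤ u2) (b2 : u2 ≤ 3 + 1) (a3 : 3 ≤ u3) (b3 : u3 ≤ 3 + 1) (b4 : u4 ≤ 10) (o1 : u1 ≤ u2) (o2 : u2 ≤ u3) (o3 : u3 ≤ u4) : Good u1 u2 u3 u4 ∨ Good2 u1 u2 u3 u4 := by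
  rcases le_total u4 4 with h3 | h3
  · exact g_3_3_3_3 u1 u2 u3 u4 a1 b1 a2 b2 a3 b3 (by linarith) (by linarith) o1 o2 o3
  rcases le_total u4 5 with h4 | h4
  · exact g_3_3_3_4 u1 u2 u3 u4 a1 b1 a2 b2 a3 b3 (by linarith) (by linarith) o1 o2 o3
  rcases le_total u4 6 with h5 | h5
  · exact g_3_3_3_5 u1 u2 u3 u4 a1 b1 a2 b2 a3 b3 (by linarith) (by linarith) o1 o2 o3
  rcases le_total u4 7 with h6 | h6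
  · exact g_3_3_3_6 u1 u2 u3 u4 a1 b1 a2 b2 a3 b3 (by linarith) (by linarith) o1 o2 o3
  rcases le_total u4 8 with h7 | h7
  · exact g_3_3_3_7 u1 u2 u3 u4 a1 b1 a2 b2 a3 b3 (by linarith) (by linarith) o1 o2 o3
  rcases le_total u4 9 with h8 | h8
  · exact g_3_3_3_8 u1 u2 u3 u4 a1 b1 a2 b2 a3 b3 (by linarith) (by linarith) o1 o2 o3
  exact g_3_3_3_9 u1 u2 u3 u4 a1 b1 a2 b2 a3 b3 (by linarith) (by linarith) o1 o2 o3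

theorem d3_3_3_4 (u1 u2 u3 u4 : ℝ) (a1 : 3 ≤ u1) (b1 : u1 ≤ 3 + 1) (a2 : 3 ≤ u2) (b2 : u2 ≤ 3 + 1) (a3 : 4 ≤ u3) (b3 : u3 ≤ 4 + 1) (b4 : u4 ≤ 10) (o1 : u1 ≤ u2) (o2 : u2 ≤ u3) (o3 : u3 ≤ u4) : Good u1 u2 u3 u4 ∨ Good2 u1 u2 u3 u4 := by
  rcases le_total u4 5 with h4 | h4
  · exact g_3_3_4_4 u1 u2 u3 u4 a1 b1 a2 b2 a3 b3 (by linarith) (by linarith) o1 o2 o3
  rcases le_total u4 6 with h5 | h5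
  · exact g_3_3_4_5 u1 u2 u3 u4 a1 b1 a2 b2 a3 b3 (by linarith) (by linarith) o1 o2 o3
  rcases le_total u4 7 with h6 | h6
  · exact g_3_3_4_6 u1 u2 u3 u4 a1 b1 a2 b2 a3 b3 (by linarith) (by linarith) o1 o2 o3
  rcases le_total u4 8 with h7 | h7
  · exact g_3_3_4_7 u1 u2 u3 u4 a1 b1 a2 b2 a3 b3 (by linarith) (by linarith) o1 o2 o3
  rcases le_total u4 9 with h8 | h8
  · exact g_3_3_4_8 u1 u2 u3 u4 a1 b1 a2 b2 a3 b3 (by linarith) (by linarith) o1 o2 o3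
  exact g_3_3_4_9 u1 u2 u3 u4 a1 b1 a2 b2 a3 b3 (by linarith) (by linarith) o1 o2 o3

theorem d3_3_3_5 (u1 u2 u3 u4 : ℝ) (a1 : 3 ≤ u1) (b1 : u1 ≤ 3 + 1) (a2 : 3 ≤ u2) (b2 : u2 ≤ 3 + 1) (a3 : 5 ≤ u3) (b3 : u3 ≤ 5 + 1) (b4 : u4 ≤ 10) (o1 : u1 ≤ u2) (o2 : u2 ≤ u3) (o3 : u3 ≤ u4) : Good u1 u2 u3 u4 ∨ Good2 u1 u2 u3 u4 := by
  rcases le_total u4 6 with h5 | h5
  · exact g_3_3_5_5 u1 u2 u3 u4 a1 b1 a2 b2 a3 b3 (by linarith) (by linarith) o1 o2 o3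
  rcases le_total u4 7 with h6 | h6
  · exact g_3_3_5_6 u1 u2 u3 u4 a1 b1 a2 b2 a3 b3 (by linarith) (by linarith) o1 o2 o3
  rcases le_total u4 8 with h7 | h7
  · exact g_3_3_5_7 u1 u2 u3 u4 a1 b1 a2 b2 a3 b3 (by linarith) (by linarith) o1 o2 o3
  rcases le_total u4 9 with h8 | h8
  · exact g_3_3_5_8 u1 u2 u3 u4 a1 b1 a2 b2 a3 b3 (by linarith) (by linarith) o1 o2 o3
  exact g_3_3_5_9 u1 u2 u3 u4 a1 b1 a2 b2 a3 b3 (by linarith) (by linarith) o1 o2 o3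

theorem d3_3_3_6 (u1 u2 u3 u4 : ℝ) (a1 : 3 ≤ u1) (b1 : u1 ≤ 3 + 1) (a2 : 3 ≤ u2) (b2 : u2 ≤ 3 + 1) (a3 : 6 ≤ u3) (b3 : u3 ≤ 6 + 1) (b4 : u4 ≤ 10) (o1 : u1 ≤ u2) (o2 : u2 ≤ u3) (o3 : u3 ≤ u4) : Good u1 u2 u3 u4 ∨ Good2 u1 u2 u3 u4 := by
  rcases le_total u4 7 with h6 | h6
  · exact g_3_3_6_6 u1 u2 u3 u4 a1 b1 a2 b2 a3 b3 (by linarith) (by linarith) o1 o2 o3
  rcases le_total u4 8 with h7 | h7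
  · exact g_3_3_6_7 u1 u2 u3 u4 a1 b1 a2 b2 a3 b3 (by linarith) (by linarith) o1 o2 o3
  rcases le_total u4 9 with h8 | h8
  · exact g_3_3_6_8 u1 u2 u3 u4 a1 b1 a2 b2 a3 b3 (by linarith) (by linarith) o1 o2 o3
  exact g_3_3_6_9 u1 u2 u3 u4 a1 b1 a2 b2 a3 b3 (by linarith) (by linarith) o1 o2 o3

theorem d3_3_3_7 (u1 u2 u3 u4 : ℝ) (a1 : 3 ≤ u1) (b1 : u1 ≤ 3 + 1) (a2 : 3 ≤ u2) (b2 : u2 ≤ 3 + 1) (a3 : 7 ≤ u3) (b3 : u3 ≤ 7 + 1) (b4 : u4 ≤ 10) (o1 : u1 ≤ u2) (o2 : u2 ≤ u3) (o3 : u3 ≤ u4) : Good u1 u2 u3 u4 ∨ Good2 u1 u2 u3 u4 := by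
  rcases le_total u4 8 with h7 | h7
  · exact g_3_3_7_7 u1 u2 u3 u4 a1 b1 a2 b2 a3 b3 (by linarith) (by linarith) o1 o2 o3
  rcases le_total u4 9 with h8 | h8
  · exact g_3_3_7_8 u1 u2 u3 u4 a1 b1 a2 b2 a3 b3 (by linarith) (by linarith) o1 o2 o3
  exact g_3_3_7_9 u1 u2 u3 u4 a1 b1 a2 b2 a3 b3 (by linarith) (by linarith) o1 o2 o3

theorem d3_3_3_8 (u1 u2 u3 u4 : ℝ) (a1 : 3 ≤ u1) (b1 : u1 ≤ 3 + 1) (a2 : 3 ≤ u2) (b2 : u2 ≤ 3 + 1) (a3 : 8 ≤ u3) (b3 : u3 ≤ 8 + 1) (b4 : u4 ≤ 10) (o1 : u1 ≤ u2) (o2 : u2 ≤ u3) (o3 : u3 ≤ u4) : Good u1 u2 u3 u4 ∨ Good2 u1 u2 u3 u4 := by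
  rcases le_total u4 9 with h8 | h8
  · exact g_3_3_8_8 u1 u2 u3 u4 a1 b1 a2 b2 a3 b3 (by linarith) (by linarith) o1 o2 o3
  exact g_3_3_8_9 u1 u2 u3 u4 a1 b1 a2 b2 a3 b3 (by linarith) (by linarith) o1 o2 o3

theorem d3_3_3_9 (u1 u2 u3 u4 : ℝ) (a1 : 3 ≤ u1) (b1 : u1 ≤ 3 + 1) (a2 : 3 ≤ u2) (b2 : u2 ≤ 3 + 1) (a3 : 9 ≤ u3) (b3 : u3 ≤ 9 + 1) (b4 : u4 ≤ 10) (o1 : u1 ≤ u2) (o2 : u2 ≤ u3) (o3 : u3 ≤ u4) : Good u1 u2 u3 u4 ∨ Good2 u1 u2 u3 u4 := by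
  exact g_3_3_9_9 u1 u2 u3 u4 a1 b1 a2 b2 a3 b3 (by linarith) (by linarith) o1 o2 o3

theorem d2_3_3 (u1 u2 u3 u4 : ℝ) (a1 : 3 ≤ u1) (b1 : u1 ≤ 3 + 1) (a2 : 3 ≤ u2) (b2 : u2 ≤ 3 + 1) (b4 : u4 ≤ 10) (o1 : u1 ≤ u2) (o2 : u2 ≤ u3) (o3 : u3 ≤ u4) : Good u1 u2 u3 u4 ∨ Good2 u1 u2 u3 u4 := by
  rcases le_total u3 4 with h3 | h3
  · exact d3_3_3_3 u1 u2 u3 u4 a1 b1 a2 b2 (by linarith) (by linarith) b4 o1 o2 o3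
  rcases le_total u3 5 with h4 | h4
  · exact d3_3_3_4 u1 u2 u3 u4 a1 b1 a2 b2 (by linarith) (by linarith) b4 o1 o2 o3
  rcases le_total u3 6 with h5 | h5
  · exact d3_3_3_5 u1 u2 u3 u4 a1 b1 a2 b2 (by linarith) (by linarith) b4 o1 o2 o3
  rcases le_total u3 7 with h6 | h6
  · exact d3_3_3_6 u1 u2 u3 u4 a1 b1 a2 b2 (by linarith) (by linarith) b4 o1 o2 o3
  rcases le_total u3 8 with h7 | h7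
  · exact d3_3_3_7 u1 u2 u3 u4 a1 b1 a2 b2 (by linarith) (by linarith) b4 o1 o2 o3
  rcases le_total u3 9 with h8 | h8
  · exact d3_3_3_8 u1 u2 u3 u4 a1 b1 a2 b2 (by linarith) (by linarith) b4 o1 o2 o3
  exact d3_3_3_9 u1 u2 u3 u4 a1 b1 a2 b2 (by linarith) (by linarith) b4 o1 o2 o3

theorem d3_3_4_4 (u1 u2 u3 u4 : ℝ) (a1 : 3 ≤ u1) (b1 : u1 ≤ 3 + 1) (a2 : 4 ≤ u2) (b2 : u2 ≤ 4 + 1) (a3 : 4 ≤ u3) (b3 : u3 ≤ 4 + 1) (b4 : u4 ≤ 10) (o1 : u1 ≤ u2) (o2 : u2 ≤ u3) (o3 : u3 ≤ u4) : Good u1 u2 u3 u4 ∨ Good2 u1 u2 u3 u4 := by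
  rcases le_total u4 5 with h4 | h4
  · exact g_3_4_4_4 u1 u2 u3 u4 a1 b1 a2 b2 a3 b3 (by linarith) (by linarith) o1 o2 o3
  rcases le_total u4 6 with h5 | h5
  · exact g_3_4_4_5 u1 u2 u3 u4 a1 b1 a2 b2 a3 b3 (by linarith) (by linarith) o1 o2 o3
  rcases le_total u4 7 with h6 | h6
  · exact g_3_4_4_6 u1 u2 u3 u4 a1 b1 a2 b2 a3 b3 (by linarith) (by linarith) o1 o2 o3
  rcases le_total u4 8 with h7 | h7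
  · exact g_3_4_4_7 u1 u2 u3 u4 a1 b1 a2 b2 a3 b3 (by linarith) (by linarith) o1 o2 o3
  rcases le_total u4 9 with h8 | h8
  · exact g_3_4_4_8 u1 u2 u3 u4 a1 b1 a2 b2 a3 b3 (by linarith) (by linarith) o1 o2 o3
  exact g_3_4_4_9 u1 u2 u3 u4 a1 b1 a2 b2 a3 b3 (by linarith) (by linarith) o1 o2 o3

theorem d3_3_4_5 (u1 u2 u3 u4 : ℝ) (a1 : 3 ≤ u1) (b1 : u1 ≤ 3 + 1) (a2 : 4 ≤ u2) (b2 : u2 ≤ 4 + 1) (a3 : 5 ≤ u3) (b3 : u3 ≤ 5 + 1) (b4 : u4 ≤ 10) (o1 : u1 ≤ u2) (o2 : u2 ≤ u3) (o3 : u3 ≤ u4) : Good u1 u2 u3 u4 ∨ Good2 u1 u2 u3 u4 := by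
  rcases le_total u4 6 with h5 | h5
  · exact g_3_4_5_5 u1 u2 u3 u4 a1 b1 a2 b2 a3 b3 (by linarith) (by linarith) o1 o2 o3
  rcases le_total u4 7 with h6 | h6
  · exact g_3_4_5_6 u1 u2 u3 u4 a1 b1 a2 b2 a3 b3 (by linarith) (by linarith) o1 o2 o3
  rcases le_total u4 8 with h7 | h7
  · exact g_3_4_5_7 u1 u2 u3 u4 a1 b1 a2 b2 a3 b3 (by linarith) (by linarith) o1 o2 o3
  rcases le_total u4 9 with h8 | h8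
  · exact g_3_4_5_8 u1 u2 u3 u4 a1 b1 a2 b2 a3 b3 (by linarith) (by linarith) o1 o2 o3
  exact g_3_4_5_9 u1 u2 u3 u4 a1 b1 a2 b2 a3 b3 (by linarith) (by linarith) o1 o2 o3

theorem d3_3_4_6 (u1 u2 u3 u4 : ℝ) (a1 : 3 ≤ u1) (b1 : u1 ≤ 3 + 1) (a2 : 4 ≤ u2) (b2 : u2 ≤ 4 + 1) (a3 : 6 ≤ u3) (b3 : u3 ≤ 6 + 1) (b4 : u4 ≤ 10) (o1 : u1 ≤ u2) (o2 : u2 ≤ u3) (o3 : u3 ≤ u4) : Good u1 u2 u3 u4 ∨ Good2 u1 u2 u3 u4 := by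
  rcases le_total u4 7 with h6 | h6
  · exact g_3_4_6_6 u1 u2 u3 u4 a1 b1 a2 b2 a3 b3 (by linarith) (by linarith) o1 o2 o3
  rcases le_total u4 8 with h7 | h7
  · exact g_3_4_6_7 u1 u2 u3 u4 a1 b1 a2 b2 a3 b3 (by linarith) (by linarith) o1 o2 o3
  rcases le_total u4 9 with h8 | h8
  · exact g_3_4_6_8 u1 u2 u3 u4 a1 b1 a2 b2 a3 b3 (by linarith) (by linarith) o1 o2 o3
  exact g_3_4_6_9 u1 u2 u3 u4 a1 b1 a2 b2 a3 b3 (by linarith) (by linarith) o1 o2 o3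

theorem d3_3_4_7 (u1 u2 u3 u4 : ℝ) (a1 : 3 ≤ u1) (b1 : u1 ≤ 3 + 1) (a2 : 4 ≤ u2) (b2 : u2 ≤ 4 + 1) (a3 : 7 ≤ u3) (b3 : u3 ≤ 7 + 1) (b4 : u4 ≤ 10) (o1 : u1 ≤ u2) (o2 : u2 ≤ u3) (o3 : u3 ≤ u4) : Good u1 u2 u3 u4 ∨ Good2 u1 u2 u3 u4 := by
  rcases le_total u4 8 with h7 | h7
  · exact g_3_4_7_7 u1 u2 u3 u4 a1 b1 a2 b2 a3 b3 (by linarith) (by linarith) o1 o2 o3
  rcases le_total u4 9 with h8 | h8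
  · exact g_3_4_7_8 u1 u2 u3 u4 a1 b1 a2 b2 a3 b3 (by linarith) (by linarith) o1 o2 o3
  exact g_3_4_7_9 u1 u2 u3 u4 a1 b1 a2 b2 a3 b3 (by linarith) (by linarith) o1 o2 o3

theorem d3_3_4_8 (u1 u2 u3 u4 : ℝ) (a1 : 3 ≤ u1) (b1 : u1 ≤ 3 + 1) (a2 : 4 ≤ u2) (b2 : u2 ≤ 4 + 1) (a3 : 8 ≤ u3) (b3 : u3 ≤ 8 + 1) (b4 : u4 ≤ 10) (o1 : u1 ≤ u2) (o2 : u2 ≤ u3) (o3 : u3 ≤ u4) : Good u1 u2 u3 u4 ∨ Good2 u1 u2 u3 u4 := by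
  rcases le_total u4 9 with h8 | h8
  · exact g_3_4_8_8 u1 u2 u3 u4 a1 b1 a2 b2 a3 b3 (by linarith) (by linarith) o1 o2 o3
  exact g_3_4_8_9 u1 u2 u3 u4 a1 b1 a2 b2 a3 b3 (by linarith) (by linarith) o1 o2 o3

theorem d3_3_4_9 (u1 u2 u3 u4 : ℝ) (a1 : 3 ≤ u1) (b1 : u1 ≤ 3 + 1) (a2 : 4 ≤ u2) (b2 : u2 ≤ 4 + 1) (a3 : 9 ≤ u3) (b3 : u3 ≤ 9 + 1) (b4 : u4 ≤ 10) (o1 : u1 ≤ u2) (o2 : u2 ≤ u3) (o3 : u3 ≤ u4) : Good u1 u2 u3 u4 ∨ Good2 u1 u2 u3 u4 := by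
  exact g_3_4_9_9 u1 u2 u3 u4 a1 b1 a2 b2 a3 b3 (by linarith) (by linarith) o1 o2 o3

theorem d2_3_4 (u1 u2 u3 u4 : ℝ) (a1 : 3 ≤ u1) (b1 : u1 ≤ 3 + 1) (a2 : 4 ≤ u2) (b2 : u2 ≤ 4 + 1) (b4 : u4 ≤ 10) (o1 : u1 ≤ u2) (o2 : u2 ≤ u3) (o3 : u3 ≤ u4) : Good u1 u2 u3 u4 ∨ Good2 u1 u2 u3 u4 := by
  rcases le_total u3 5 with h4 | h4
  · exact d3_3_4_4 u1 u2 u3 u4 a1 b1 a2 b2 (by linarith) (by linarith) b4 o1 o2 o3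
  rcases le_total u3 6 with h5 | h5
  · exact d3_3_4_5 u1 u2 u3 u4 a1 b1 a2 b2 (by linarith) (by linarith) b4 o1 o2 o3
  rcases le_total u3 7 with h6 | h6
  · exact d3_3_4_6 u1 u2 u3 u4 a1 b1 a2 b2 (by linarith) (by linarith) b4 o1 o2 o3
  rcases le_total u3 8 with h7 | h7
  · exact d3_3_4_7 u1 u2 u3 u4 a1 b1 a2 b2 (by linarith) (by linarith) b4 o1 o2 o3
  rcases le_total u3 9 with h8 | h8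
  · exact d3_3_4_8 u1 u2 u3 u4 a1 b1 a2 b2 (by linarith) (by linarith) b4 o1 o2 o3
  exact d3_3_4_9 u1 u2 u3 u4 a1 b1 a2 b2 (by linarith) (by linarith) b4 o1 o2 o3

theorem d3_3_5_5 (u1 u2 u3 u4 : ℝ) (a1 : 3 ≤ u1) (b1 : u1 ≤ 3 + 1) (a2 : 5 ≤ u2) (b2 : u2 ≤ 5 + 1) (a3 : 5 ≤ u3) (b3 : u3 ≤ 5 + 1) (b4 : u4 ≤ 10) (o1 : u1 ≤ u2) (o2 : u2 ≤ u3) (o3 : u3 ≤ u4) : Good u1 u2 u3 u4 ∨ Good2 u1 u2 u3 u4 := by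
  rcases le_total u4 6 with h5 | h5
  · exact g_3_5_5_5 u1 u2 u3 u4 a1 b1 a2 b2 a3 b3 (by linarith) (by linarith) o1 o2 o3
  rcases le_total u4 7 with h6 | h6
  · exact g_3_5_5_6 u1 u2 u3 u4 a1 b1 a2 b2 a3 b3 (by linarith) (by linarith) o1 o2 o3
  rcases le_total u4 8 with h7 | h7
  · exact g_3_5_5_7 u1 u2 u3 u4 a1 b1 a2 b2 a3 b3 (by linarith) (by linarith) o1 o2 o3
  rcases le_total u4 9 with h8 | h8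
  · exact g_3_5_5_8 u1 u2 u3 u4 a1 b1 a2 b2 a3 b3 (by linarith) (by linarith) o1 o2 o3
  exact g_3_5_5_9 u1 u2 u3 u4 a1 b1 a2 b2 a3 b3 (by linarith) (by linarith) o1 o2 o3

theorem d3_3_5_6 (u1 u2 u3 u4 : ℝ) (a1 : 3 ≤ u1) (b1 : u1 ≤ 3 + 1) (a2 : 5 ≤ u2) (b2 : u2 ≤ 5 + 1) (a3 : 6 ≤ u3) (b3 : u3 ≤ 6 + 1) (b4 : u4 ≤ 10) (o1 : u1 ≤ u2) (o2 : u2 ≤ u3) (o3 : u3 ≤ u4) : Good u1 u2 u3 u4 ∨ Good2 u1 u2 u3 u4 := by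
  rcases le_total u4 7 with h6 | h6
  · exact g_3_5_6_6 u1 u2 u3 u4 a1 b1 a2 b2 a3 b3 (by linarith) (by linarith) o1 o2 o3
  rcases le_total u4 8 with h7 | h7
  · exact g_3_5_6_7 u1 u2 u3 u4 a1 b1 a2 b2 a3 b3 (by linarith) (by linarith) o1 o2 o3
  rcases le_total u4 9 with h8 | h8
  · exact g_3_5_6_8 u1 u2 u3 u4 a1 b1 a2 b2 a3 b3 (by linarith) (by linarith) o1 o2 o3
  exact g_3_5_6_9 u1 u2 u3 u4 a1 b1 a2 b2 a3 b3 (by linarith) (by linarith) o1 o2 o3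

theorem d3_3_5_7 (u1 u2 u3 u4 : ℝ) (a1 : 3 ≤ u1) (b1 : u1 ≤ 3 + 1) (a2 : 5 ≤ u2) (b2 : u2 ≤ 5 + 1) (a3 : 7 ≤ u3) (b3 : u3 ≤ 7 + 1) (b4 : u4 ≤ 10) (o1 : u1 ≤ u2) (o2 : u2 ≤ u3) (o3 : u3 ≤ u4) : Good u1 u2 u3 u4 ∨ Good2 u1 u2 u3 u4 := by
  rcases le_total u4 8 with h7 | h7
  · exact g_3_5_7_7 u1 u2 u3 u4 a1 b1 a2 b2 a3 b3 (by linarith) (by linarith) o1 o2 o3
  rcases le_total u4 9 with h8 | h8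
  · exact g_3_5_7_8 u1 u2 u3 u4 a1 b1 a2 b2 a3 b3 (by linarith) (by linarith) o1 o2 o3
  exact g_3_5_7_9 u1 u2 u3 u4 a1 b1 a2 b2 a3 b3 (by linarith) (by linarith) o1 o2 o3

theorem d3_3_5_8 (u1 u2 u3 u4 : ℝ) (a1 : 3 ≤ u1) (b1 : u1 ≤ 3 + 1) (a2 : 5 ≤ u2) (b2 : u2 ≤ 5 + 1) (a3 : 8 ≤ u3) (b3 : u3 ≤ 8 + 1) (b4 : u4 ≤ 10) (o1 : u1 ≤ u2) (o2 : u2 ≤ u3) (o3 : u3 ≤ u4) : Good u1 u2 u3 u4 ∨ Good2 u1 u2 u3 u4 := by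
  rcases le_total u4 9 with h8 | h8
  · exact g_3_5_8_8 u1 u2 u3 u4 a1 b1 a2 b2 a3 b3 (by linarith) (by linarith) o1 o2 o3
  exact g_3_5_8_9 u1 u2 u3 u4 a1 b1 a2 b2 a3 b3 (by linarith) (by linarith) o1 o2 o3

theorem d3_3_5_9 (u1 u2 u3 u4 : ℝ) (a1 : 3 ≤ u1) (b1 : u1 ≤ 3 + 1) (a2 : 5 ≤ u2) (b2 : u2 ≤ 5 + 1) (a3 : 9 ≤ u3) (b3 : u3 ≤ 9 + 1) (b4 : u4 ≤ 10) (o1 : u1 ≤ u2) (o2 : u2 ≤ u3) (o3 : u3 ≤ u4) : Good u1 u2 u3 u4 ∨ Good2 u1 u2 u3 u4 := by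
  exact g_3_5_9_9 u1 u2 u3 u4 a1 b1 a2 b2 a3 b3 (by linarith) (by linarith) o1 o2 o3

theorem d2_3_5 (u1 u2 u3 u4 : ℝ) (a1 : 3 ≤ u1) (b1 : u1 ≤ 3 + 1) (a2 : 5 ≤ u2) (b2 : u2 ≤ 5 + 1) (b4 : u4 ≤ 10) (o1 : u1 ≤ u2) (o2 : u2 ≤ u3) (o3 : u3 ≤ u4) : Good u1 u2 u3 u4 ∨ Good2 u1 u2 u3 u4 := by
  rcases le_total u3 6 with h5 | h5
  · exact d3_3_5_5 u1 u2 u3 u4 a1 b1 a2 b2 (by linarith) (by linarith) b4 o1 o2 o3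
  rcases le_total u3 7 with h6 | h6
  · exact d3_3_5_6 u1 u2 u3 u4 a1 b1 a2 b2 (by linarith) (by linarith) b4 o1 o2 o3
  rcases le_total u3 8 with h7 | h7
  · exact d3_3_5_7 u1 u2 u3 u4 a1 b1 a2 b2 (by linarith) (by linarith) b4 o1 o2 o3
  rcases le_total u3 9 with h8 | h8
  · exact d3_3_5_8 u1 u2 u3 u4 a1 b1 a2 b2 (by linarith) (by linarith) b4 o1 o2 o3
  exact d3_3_5_9 u1 u2 u3 u4 a1 b1 a2 b2 (by linarith) (by linarith) b4 o1 o2 o3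

theorem d3_3_6_6 (u1 u2 u3 u4 : ℝ) (a1 : 3 ≤ u1) (b1 : u1 ≤ 3 + 1) (a2 : 6 ≤ u2) (b2 : u2 ≤ 6 + 1) (a3 : 6 ≤ u3) (b3 : u3 ≤ 6 + 1) (b4 : u4 ≤ 10) (o1 : u1 ≤ u2) (o2 : u2 ≤ u3) (o3 : u3 ≤ u4) : Good u1 u2 u3 u4 ∨ Good2 u1 u2 u3 u4 := by
  rcases le_total u4 7 with h6 | h6
  · exact g_3_6_6_6 u1 u2 u3 u4 a1 b1 a2 b2 a3 b3 (by linarith) (by linarith) o1 o2 o3
  rcases le_total u4 8 with h7 | h7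
  · exact g_3_6_6_7 u1 u2 u3 u4 a1 b1 a2 b2 a3 b3 (by linarith) (by linarith) o1 o2 o3
  rcases le_total u4 9 with h8 | h8
  · exact g_3_6_6_8 u1 u2 u3 u4 a1 b1 a2 b2 a3 b3 (by linarith) (by linarith) o1 o2 o3
  exact g_3_6_6_9 u1 u2 u3 u4 a1 b1 a2 b2 a3 b3 (by linarith) (by linarith) o1 o2 o3

theorem d3_3_6_7 (u1 u2 u3 u4 : ℝ) (a1 : 3 ≤ u1) (b1 : u1 ≤ 3 + 1) (a2 : 6 ≤ u2) (b2 : u2 ≤ 6 + 1) (a3 : 7 ≤ u3) (b3 : u3 ≤ 7 + 1) (b4 : u4 ≤ 10) (o1 : u1 ≤ u2) (o2 : u2 ≤ u3) (o3 : u3 ≤ u4) : Good u1 u2 u3 u4 ∨ Good2 u1 u2 u3 u4 := by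
  rcases le_total u4 8 with h7 | h7
  · exact g_3_6_7_7 u1 u2 u3 u4 a1 b1 a2 b2 a3 b3 (by linarith) (by linarith) o1 o2 o3
  rcases le_total u4 9 with h8 | h8
  · exact g_3_6_7_8 u1 u2 u3 u4 a1 b1 a2 b2 a3 b3 (by linarith) (by linarith) o1 o2 o3
  exact g_3_6_7_9 u1 u2 u3 u4 a1 b1 a2 b2 a3 b3 (by linarith) (by linarith) o1 o2 o3

theorem d3_3_6_8 (u1 u2 u3 u4 : ℝ) (a1 : 3 ≤ u1) (b1 : u1 ≤ 3 + 1) (a2 : 6 ≤ u2) (b2 : u2 ≤ 6 + 1) (a3 : 8 ≤ u3) (b3 : u3 ≤ 8 + 1) (b4 : u4 ≤ 10) (o1 : u1 ≤ u2) (o2 : u2 ≤ u3) (o3 : u3 ≤ u4) : Good u1 u2 u3 u4 ∨ Good2 u1 u2 u3 u4 := by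
  rcases le_total u4 9 with h8 | h8
  · exact g_3_6_8_8 u1 u2 u3 u4 a1 b1 a2 b2 a3 b3 (by linarith) (by linarith) o1 o2 o3
  exact g_3_6_8_9 u1 u2 u3 u4 a1 b1 a2 b2 a3 b3 (by linarith) (by linarith) o1 o2 o3

theorem d3_3_6_9 (u1 u2 u3 u4 : ℝ) (a1 : 3 ≤ u1) (b1 : u1 ≤ 3 + 1) (a2 : 6 ≤ u2) (b2 : u2 ≤ 6 + 1) (a3 : 9 ≤ u3) (b3 : u3 ≤ 9 + 1) (b4 : u4 ≤ 10) (o1 : u1 ≤ u2) (o2 : u2 ≤ u3) (o3 : u3 ≤ u4) : Good u1 u2 u3 u4 ∨ Good2 u1 u2 u3 u4 := by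
  exact g_3_6_9_9 u1 u2 u3 u4 a1 b1 a2 b2 a3 b3 (by linarith) (by linarith) o1 o2 o3

theorem d2_3_6 (u1 u2 u3 u4 : ℝ) (a1 : 3 ≤ u1) (b1 : u1 ≤ 3 + 1) (a2 : 6 ≤ u2) (b2 : u2 ≤ 6 + 1) (b4 : u4 ≤ 10) (o1 : u1 ≤ u2) (o2 : u2 ≤ u3) (o3 : u3 ≤ u4) : Good u1 u2 u3 u4 ∨ Good2 u1 u2 u3 u4 := by
  rcases le_total u3 7 with h6 | h6
  · exact d3_3_6_6 u1 u2 u3 u4 a1 b1 a2 b2 (by linarith) (by linarith) b4 o1 o2 o3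
  rcases le_total u3 8 with h7 | h7
  · exact d3_3_6_7 u1 u2 u3 u4 a1 b1 a2 b2 (by linarith) (by linarith) b4 o1 o2 o3
  rcases le_total u3 9 with h8 | h8
  · exact d3_3_6_8 u1 u2 u3 u4 a1 b1 a2 b2 (by linarith) (by linarith) b4 o1 o2 o3
  exact d3_3_6_9 u1 u2 u3 u4 a1 b1 a2 b2 (by linarith) (by linarith) b4 o1 o2 o3

theorem d3_3_7_7 (u1 u2 u3 u4 : ℝ) (a1 : 3 ≤ u1) (b1 : u1 ≤ 3 + 1) (a2 : 7 ≤ u2) (b2 : u2 ≤ 7 + 1) (a3 : 7 ≤ u3) (b3 : u3 ≤ 7 + 1) (b4 : u4 ≤ 10) (o1 : u1 ≤ u2) (o2 : u2 ≤ u3) (o3 : u3 ≤ u4) : Good u1 u2 u3 u4 ∨ Good2 u1 u2 u3 u4 := by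
  rcases le_total u4 8 with h7 | h7
  · exact g_3_7_7_7 u1 u2 u3 u4 a1 b1 a2 b2 a3 b3 (by linarith) (by linarith) o1 o2 o3
  rcases le_total u4 9 with h8 | h8
  · exact g_3_7_7_8 u1 u2 u3 u4 a1 b1 a2 b2 a3 b3 (by linarith) (by linarith) o1 o2 o3
  exact g_3_7_7_9 u1 u2 u3 u4 a1 b1 a2 b2 a3 b3 (by linarith) (by linarith) o1 o2 o3

theorem d3_3_7_8 (u1 u2 u3 u4 : ℝ) (a1 : 3 ≤ u1) (b1 : u1 ≤ 3 + 1) (a2 : 7 ≤ u2) (b2 : u2 ≤ 7 + 1) (a3 : 8 ≤ u3) (b3 : u3 ≤ 8 + 1) (b4 : u4 ≤ 10) (o1 : u1 ≤ u2) (o2 : u2 ≤ u3) (o3 : u3 ≤ u4) : Good u1 u2 u3 u4 ∨ Good2 u1 u2 u3 u4 := by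
  rcases le_total u4 9 with h8 | h8
  · exact g_3_7_8_8 u1 u2 u3 u4 a1 b1 a2 b2 a3 b3 (by linarith) (by linarith) o1 o2 o3
  exact g_3_7_8_9 u1 u2 u3 u4 a1 b1 a2 b2 a3 b3 (by linarith) (by linarith) o1 o2 o3

theorem d3_3_7_9 (u1 u2 u3 u4 : ℝ) (a1 : 3 ≤ u1) (b1 : u1 ≤ 3 + 1) (a2 : 7 ≤ u2) (b2 : u2 ≤ 7 + 1) (a3 : 9 ≤ u3) (b3 : u3 ≤ 9 + 1) (b4 : u4 ≤ 10) (o1 : u1 ≤ u2) (o2 : u2 ≤ u3) (o3 : u3 ≤ u4) : Good u1 u2 u3 u4 ∨ Good2 u1 u2 u3 u4 := by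
  exact g_3_7_9_9 u1 u2 u3 u4 a1 b1 a2 b2 a3 b3 (by linarith) (by linarith) o1 o2 o3

theorem d2_3_7 (u1 u2 u3 u4 : ℝ) (a1 : 3 ≤ u1) (b1 : u1 ≤ 3 + 1) (a2 : 7 ≤ u2) (b2 : u2 ≤ 7 + 1) (b4 : u4 ≤ 10) (o1 : u1 ≤ u2) (o2 : u2 ≤ u3) (o3 : u3 ≤ u4) : Good u1 u2 u3 u4 ∨ Good2 u1 u2 u3 u4 := by
  rcases le_total u3 8 with h7 | h7
  · exact d3_3_7_7 u1 u2 u3 u4 a1 b1 a2 b2 (by linarith) (by linarith) b4 o1 o2 o3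
  rcases le_total u3 9 with h8 | h8
  · exact d3_3_7_8 u1 u2 u3 u4 a1 b1 a2 b2 (by linarith) (by linarith) b4 o1 o2 o3
  exact d3_3_7_9 u1 u2 u3 u4 a1 b1 a2 b2 (by linarith) (by linarith) b4 o1 o2 o3

theorem d3_3_8_8 (u1 u2 u3 u4 : ℝ) (a1 : 3 ≤ u1) (b1 : u1 ≤ 3 + 1) (a2 : 8 ≤ u2) (b2 : u2 ≤ 8 + 1) (a3 : 8 ≤ u3) (b3 : u3 ≤ 8 + 1) (b4 : u4 ≤ 10) (o1 : u1 ≤ u2) (o2 : u2 ≤ u3) (o3 : u3 ≤ u4) : Good u1 u2 u3 u4 ∨ Good2 u1 u2 u3 u4 := by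
  rcases le_total u4 9 with h8 | h8
  · exact g_3_8_8_8 u1 u2 u3 u4 a1 b1 a2 b2 a3 b3 (by linarith) (by linarith) o1 o2 o3
  exact g_3_8_8_9 u1 u2 u3 u4 a1 b1 a2 b2 a3 b3 (by linarith) (by linarith) o1 o2 o3

theorem d3_3_8_9 (u1 u2 u3 u4 : ℝ) (a1 : 3 ≤ u1) (b1 : u1 ≤ 3 + 1) (a2 : 8 ≤ u2) (b2 : u2 ≤ 8 + 1) (a3 : 9 ≤ u3) (b3 : u3 ≤ 9 + 1) (b4 : u4 ≤ 10) (o1 : u1 ≤ u2) (o2 : u2 ≤ u3) (o3 : u3 ≤ u4) : Good u1 u2 u3 u4 ∨ Good2 u1 u2 u3 u4 := by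
  exact g_3_8_9_9 u1 u2 u3 u4 a1 b1 a2 b2 a3 b3 (by linarith) (by linarith) o1 o2 o3

theorem d2_3_8 (u1 u2 u3 u4 : ℝ) (a1 : 3 ≤ u1) (b1 : u1 ≤ 3 + 1) (a2 : 8 ≤ u2) (b2 : u2 ≤ 8 + 1) (b4 : u4 ≤ 10) (o1 : u1 ≤ u2) (o2 : u2 ≤ u3) (o3 : u3 ≤ u4) : Good u1 u2 u3 u4 ∨ Good2 u1 u2 u3 u4 := by
  rcases le_total u3 9 with h8 | h8
  · exact d3_3_8_8 u1 u2 u3 u4 a1 b1 a2 b2 (by linarith) (by linarith) b4 o1 o2 o3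
  exact d3_3_8_9 u1 u2 u3 u4 a1 b1 a2 b2 (by linarith) (by linarith) b4 o1 o2 o3

theorem d3_3_9_9 (u1 u2 u3 u4 : ℝ) (a1 : 3 ≤ u1) (b1 : u1 ≤ 3 + 1) (a2 : 9 ≤ u2) (b2 : u2 ≤ 9 + 1) (a3 : 9 ≤ u3) (b3 : u3 ≤ 9 + 1) (b4 : u4 ≤ 10) (o1 : u1 ≤ u2) (o2 : u2 ≤ u3) (o3 : u3 ≤ u4) : Good u1 u2 u3 u4 ∨ Good2 u1 u2 u3 u4 := by
  exact g_3_9_9_9 u1 u2 u3 u4 a1 b1 a2 b2 a3 b3 (by linarith) (by linarith) o1 o2 o3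

theorem d2_3_9 (u1 u2 u3 u4 : ℝ) (a1 : 3 ≤ u1) (b1 : u1 ≤ 3 + 1) (a2 : 9 ≤ u2) (b2 : u2 ≤ 9 + 1) (b4 : u4 ≤ 10) (o1 : u1 ≤ u2) (o2 : u2 ≤ u3) (o3 : u3 ≤ u4) : Good u1 u2 u3 u4 ∨ Good2 u1 u2 u3 u4 := by
  exact d3_3_9_9 u1 u2 u3 u4 a1 b1 a2 b2 (by linarith) (by linarith) b4 o1 o2 o3

theorem d1_3 (u1 u2 u3 u4 : ℝ) (a1 : 3 ≤ u1) (b1 : u1 ≤ 3 + 1) (b4 : u4 ≤ 10) (o1 : u1 ≤ u2) (o2 : u2 ≤ u3) (o3 : u3 ≤ u4) : Good u1 u2 u3 u4 ∨ Good2 u1 u2 u3 u4 := by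
  rcases le_total u2 4 with h3 | h3
  · exact d2_3_3 u1 u2 u3 u4 a1 b1 (by linarith) (by linarith) b4 o1 o2 o3
  rcases le_total u2 5 with h4 | h4
  · exact d2_3_4 u1 u2 u3 u4 a1 b1 (by linarith) (by linarith) b4 o1 o2 o3
  rcases le_total u2 6 with h5 | h5
  · exact d2_3_5 u1 u2 u3 u4 a1 b1 (by linarith) (by linarith) b4 o1 o2 o3
  rcases le_total u2 7 with h6 | h6
  · exact d2_3_6 u1 u2 u3 u4 a1 b1 (by linarith) (by linarith) b4 o1 o2 o3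
  rcases le_total u2 8 with h7 | h7
  · exact d2_3_7 u1 u2 u3 u4 a1 b1 (by linarith) (by linarith) b4 o1 o2 o3
  rcases le_total u2 9 with h8 | h8
  · exact d2_3_8 u1 u2 u3 u4 a1 b1 (by linarith) (by linarith) b4 o1 o2 o3
  exact d2_3_9 u1 u2 u3 u4 a1 b1 (by linarith) (by linarith) b4 o1 o2 o3

theorem allGood : AllGood := by
  intro u1 u2 u3 u4 a1 b1 o1 o2 o3 b4
  rcases le_total u1 1 with h0 | h0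
  · exact d1_0 u1 u2 u3 u4 (by linarith) (by linarith) (by linarith) o1 o2 o3
  rcases le_total u1 2 with h1 | h1
  · exact d1_1 u1 u2 u3 u4 (by linarith) (by linarith) (by linarith) o1 o2 o3
  rcases le_total u1 3 with h2 | h2
  · exact d1_2 u1 u2 u3 u4 (by linarith) (by linarith) (by linarith) o1 o2 o3
  exact d1_3 u1 u2 u3 u4 (by linarith) (by linarith) (by linarith) o1 o2 o3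

/-- the four point inequality for the function ph -/
theorem PP_final : PP 0 := PP_zero allGood

end Pool.Agent.W401.WC
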