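import Pool.Agent.W401.WC.SpR
set_option autoImplicit false
set_option linter.all false
namespace Pool.Agent.W401.WC

theorem g_0_0_0_1 (u1 u2 u3 u4 : ℝ) (a1 : 0 ≤ u1) (b1 : u1 ≤ 0 + 1) (a2 : 0 ≤ u2) (b2 : u2 ≤ 0 + 1) (a3 : 0 ≤ u3) (b3 : u3 ≤ 0 + 1) (a4 : 1 ≤ u4) (b4 : u4 ≤ 1 + 1) (o1 : u1 ≤ u2) (o2 : u2 ≤ u3) (o3 : u3 ≤ u4) : Good u1 u2 u3 u4 ∨ Good2 u1 u2 u3 u4 := by
  obtain ⟨T, hT⟩ : ∃ T, T = u1 + u2 + u3 + u4 := ⟨_, rfl⟩
  have e1 : H u1 = u1 - 0 := hk_0 a1 b1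
  have e2 : H u2 = u2 - 0 := hk_0 a2 b2
  have e3 : H u3 = u3 - 0 := hk_0 a3 b3
  have e4 : H u4 = 1 := hk_1 a4 b4
  have kN : (0 : ℝ) + 0 + 0 + 1 = 1 := by norm_num
  have t0 : 1 ≤ T := by linarith only [hT, a1, a2, a3, a4]
  have t4 : T ≤ 5 := by linarith only [hT, b1, b2, b3, b4]
  rcases le_total T 2 with x1 | x1
  · skip
    have hX : H (T / 4) = (T / 4) - 0 := hk_0 (by linarith only [t0]) (by linarith only [x1])
    have hS : H T = 1 := hk_1 t0 (by linarith only [x1])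
    have hN : H (T - 1) = (T - 1) - 0 := hk_0 (by linarith only [t0]) (by linarith only [x1])
    exact good_T hT zk_0 zk_0 zk_0 zk_1 kN e1 e2 e3 e4 hX hS hN (R := (u2 + u3 + u4 + (-1))) ⟨(by linarith only [hT, a1, a3, a4, o1]), (by linarith only [hT, a3, a4, o1]), (by linarith only [hT, a3, a4, o1]), (by linarith only [hT, a1, a3, a4]), (by linarith only [hT, a3, a4]), (by linarith only [hT, a3, a4]), (by linarith only [hT, a1, a2, a4]), (by linarith only [hT, a2, a4]), (by linarith only [hT, a2, a4]), (by linarith only [hT, a1, a2, a3]), (by linarith only [hT, a2, a3]), (by linarith only [hT, a2, a3])⟩ (by linarith only [hT])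
  rcases le_total T 3 with x2 | x2
  · skip
    exact sp_0_0_0_1_2 u1 u2 u3 u4 T hT a1 b1 a2 b2 a3 b3 a4 b4 o1 o2 o3 x1 x2
  rcases le_total T 4 with x3 | x3
  · skip
    exact sp_0_0_0_1_3 u1 u2 u3 u4 T hT a1 b1 a2 b2 a3 b3 a4 b4 o1 o2 o3 x2 x3
  have hX : H (T / 4) = 1 := hk_1 (by linarith only [x3]) (by linarith only [t4])
  have hS : H T = T - 4 := hk_4 x3 (by linarith only [t4])
  have hN : H (T - 1) = 4 - (T - 1) := hk_3 (by linarith only [x3]) (by linarith only [t4])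
  exact good_T hT zk_0 zk_0 zk_0 zk_1 kN e1 e2 e3 e4 hX hS hN (R := ((-2) * u1 - u2 - u3 - u4 + 6)) ⟨(by linarith only [hT, b1, b3, b4]), (by linarith only [hT, b1, b2, b4]), (by linarith only [hT, b1, b2, b3]), (by linarith only [hT, b2, t4]), (by linarith only [hT, b1, b2, b4]), (by linarith only [hT, b1, b2, b3]), (by linarith only [hT, b3, t4]), (by linarith only [hT, b1, b3, b4]), (by linarith only [hT, b1, b2, b3]), (by linarith only [hT, b4, t4]), (by linarith only [hT, b1, b3, b4]), (by linarith only [hT, b1, b2, b4])⟩ (by linarith only [hT])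

theorem g_0_0_1_2 (u1 u2 u3 u4 : ℝ) (a1 : 0 ≤ u1) (b1 : u1 ≤ 0 + 1) (a2 : 0 ≤ u2) (b2 : u2 ≤ 0 + 1) (a3 : 1 ≤ u3) (b3 : u3 ≤ 1 + 1) (a4 : 2 ≤ u4) (b4 : u4 ≤ 2 + 1) (o1 : u1 ≤ u2) (o2 : u2 ≤ u3) (o3 : u3 ≤ u4) : Good u1 u2 u3 u4 ∨ Good2 u1 u2 u3 u4 := by
  obtain ⟨T, hT⟩ : ∃ T, T = u1 + u2 + u3 + u4 := ⟨_, rfl⟩
  have e1 : H u1 = u1 - 0 := hk_0 a1 b1
  have e2 : H u2 = u2 - 0 := hk_0 a2 b2
  have e3 : H u3 = 1 := hk_1 a3 b3
  have e4 : H u4 = 1 := hk_2 a4 b4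
  have kN : (0 : ℝ) + 0 + 1 + 2 = 3 := by norm_num
  have t0 : 3 ≤ T := by linarith only [hT, a1, a2, a3, a4]
  have t4 : T ≤ 7 := by linarith only [hT, b1, b2, b3, b4]
  rcases le_total T 4 with x1 | x1
  · skip
    have hX : H (T / 4) = (T / 4) - 0 := hk_0 (by linarith only [t0]) (by linarith only [x1])
    have hS : H T = 4 - T := hk_3 t0 (by linarith only [x1])
    have hN : H (T - 3) = (T - 3) - 0 := hk_0 (by linarith only [t0]) (by linarith only [x1])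
    exact good_T hT zk_0 zk_0 zk_1 zk_2 kN e1 e2 e3 e4 hX hS hN (R := (u1 + 2 * u2 + u3 + 2 * u4 + (-5))) ⟨(by linarith only [hT, a2, a3, a4]), (by linarith only [hT, a2, a3, a4]), (by linarith only [hT, a2, a3, a4]), (by linarith only [hT, a1, a4, t0]), (by linarith only [hT, a3, a4, t0]), (by linarith only [hT, a4, t0]), (by linarith only [hT, a1, a2, a4]), (by linarith only [hT, a1, a2, a4]), (by linarith only [hT, a1, a2, a4]), (by linarith only [hT, a1, a2, t0]), (by linarith only [hT, a2, t0]), (by linarith only [hT, a2, a3, t0])⟩ (by linarith only [hT])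
  rcases le_total T 5 with x2 | x2
  · skip
    exact sp_0_0_1_2_4 u1 u2 u3 u4 T hT a1 b1 a2 b2 a3 b3 a4 b4 o1 o2 o3 x1 x2
  rcases le_total T 6 with x3 | x3
  · skip
    exact sp_0_0_1_2_5 u1 u2 u3 u4 T hT a1 b1 a2 b2 a3 b3 a4 b4 o1 o2 o3 x2 x3
  have hX : H (T / 4) = 1 := hk_1 (by linarith only [x3]) (by linarith only [t4])
  have hS : H T = 1 := hk_6 x3 (by linarith only [t4])
  have hN : H (T - 3) = 4 - (T - 3) := hk_3 (by linarith only [x3]) (by linarith only [t4])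
  exact good_T hT zk_0 zk_0 zk_1 zk_2 kN e1 e2 e3 e4 hX hS hN (R := 1) (spread_one a1 b1 a2 b2 a3 b3 a4 b4) (by linarith only [hT, b1, b3])

theorem g_0_1_1_1 (u1 u2 u3 u4 : ℝ) (a1 : 0 ≤ u1) (b1 : u1 ≤ 0 + 1) (a2 : 1 ≤ u2) (b2 : u2 ≤ 1 + 1) (a3 : 1 ≤ u3) (b3 : u3 ≤ 1 + 1) (a4 : 1 ≤ u4) (b4 : u4 ≤ 1 + 1) (o1 : u1 ≤ u2) (o2 : u2 ≤ u3) (o3 : u3 ≤ u4) : Good u1 u2 u3 u4 ∨ Good2 u1 u2 u3 u4 := by
  obtain ⟨T, hT⟩ : ∃ T, T = u1 + u2 + u3 + u4 := ⟨_, rfl⟩
  have e1 : H u1 = u1 - 0 := hk_0 a1 b1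
  have e2 : H u2 = 1 := hk_1 a2 b2
  have e3 : H u3 = 1 := hk_1 a3 b3
  have e4 : H u4 = 1 := hk_1 a4 b4
  have kN : (0 : ℝ) + 1 + 1 + 1 = 3 := by norm_num
  have t0 : 3 ≤ T := by linarith only [hT, a1, a2, a3, a4]
  have t4 : T ≤ 7 := by linarith only [hT, b1, b2, b3, b4]
  rcases le_total T 4 with x1 | x1
  · skip
    have hX : H (T / 4) = (T / 4) - 0 := hk_0 (by linarith only [t0]) (by linarith only [x1])
    have hS : H T = 4 - T := hk_3 t0 (by linarith only [x1])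
    have hN : H (T - 3) = (T - 3) - 0 := hk_0 (by linarith only [t0]) (by linarith only [x1])
    exact good_T hT zk_0 zk_1 zk_1 zk_1 kN e1 e2 e3 e4 hX hS hN (R := (u1 + u2 + u3 + 2 * u4 + (-4))) ⟨(by linarith only [hT, a2, a3, a4]), (by linarith only [hT, a2, a3, a4]), (by linarith only [hT, a2, a3, a4]), (by linarith only [hT, a1, a3, a4]), (by linarith only [hT, a1, a3, a4]), (by linarith only [hT, a1, a3, a4]), (by linarith only [hT, a1, a2, a4]), (by linarith only [hT, a1, a2, a4]), (by linarith only [hT, a1, a2, a4]), (by linarith only [hT, a1, t0]), (by linarith only [hT, a2, t0]), (by linarith only [hT, a3, t0])⟩ (by linarith only [hT])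
  rcases le_total T 5 with x2 | x2
  · skip
    exact sp_0_1_1_1_4 u1 u2 u3 u4 T hT a1 b1 a2 b2 a3 b3 a4 b4 o1 o2 o3 x1 x2
  rcases le_total T 6 with x3 | x3
  · skip
    exact sp_0_1_1_1_5 u1 u2 u3 u4 T hT a1 b1 a2 b2 a3 b3 a4 b4 o1 o2 o3 x2 x3
  have hX : H (T / 4) = 1 := hk_1 (by linarith only [x3]) (by linarith only [t4])
  have hS : H T = 1 := hk_6 x3 (by linarith only [t4])
  have hN : H (T - 3) = 4 - (T - 3) := hk_3 (by linarith only [x3]) (by linarith only [t4])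
  exact good_T hT zk_0 zk_1 zk_1 zk_1 kN e1 e2 e3 e4 hX hS hN (R := (- u1 - u2 - u3 + 5)) ⟨(by linarith only [hT, b1, b3]), (by linarith only [hT, b1, b2]), (by linarith only [hT, b1, b2, o3]), (by linarith only [hT, b2, b3]), (by linarith only [hT, b1, b2]), (by linarith only [hT, b1, b2, o3]), (by linarith only [hT, b2, b3]), (by linarith only [hT, b1, b3]), (by linarith only [hT, b1, b2, b3, o3]), (by linarith only [hT, b2, b3, b4]), (by linarith only [hT, b1, b3, b4]), (by linarith only [hT, b1, b2, b4])⟩ (by linarith only [hT])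

theorem g_2_3_3_3 (u1 u2 u3 u4 : ℝ) (a1 : 2 ≤ u1) (b1 : u1 ≤ 2 + 1) (a2 : 3 ≤ u2) (b2 : u2 ≤ 3 + 1) (a3 : 3 ≤ u3) (b3 : u3 ≤ 3 + 1) (a4 : 3 ≤ u4) (b4 : u4 ≤ 3 + 1) (o1 : u1 ≤ u2) (o2 : u2 ≤ u3) (o3 : u3 ≤ u4) : Good u1 u2 u3 u4 ∨ Good2 u1 u2 u3 u4 := by
  obtain ⟨T, hT⟩ : ∃ T, T = u1 + u2 + u3 + u4 := ⟨_, rfl⟩
  have e1 : H u1 = 1 := hk_2 a1 b1
  have e2 : H u2 = 4 - u2 := hk_3 a2 b2
  have e3 : H u3 = 4 - u3 := hk_3 a3 b3
  have e4 : H u4 = 4 - u4 := hk_3 a4 b4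
  have kN : (2 : ℝ) + 3 + 3 + 3 = 11 := by norm_num
  have t0 : 11 ≤ T := by linarith only [hT, a1, a2, a3, a4]
  have t4 : T ≤ 15 := by linarith only [hT, b1, b2, b3, b4]
  rcases le_total T 12 with x1 | x1
  · skip
    have hX : H (T / 4) = 1 := hk_2 (by linarith only [t0]) (by linarith only [x1])
    have hS : H T = 12 - T := hk_11 t0 (by linarith only [x1])
    have hN : H (T - 11) = (T - 11) - 0 := hk_0 (by linarith only [t0]) (by linarith only [x1])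
    exact good_T hT zk_2 zk_3 zk_3 zk_3 kN e1 e2 e3 e4 hX hS hN (R := (u1 + u2 + u3 + 2 * u4 + (-14))) ⟨(by linarith only [hT, a2, a3, a4]), (by linarith only [hT, a2, a3, a4]), (by linarith only [hT, a2, a3, a4]), (by linarith only [hT, a1, a3, a4]), (by linarith only [hT, a1, a3, a4]), (by linarith only [hT, a1, a3, a4]), (by linarith only [hT, a1, a2, a4]), (by linarith only [hT, a1, a2, a4]), (by linarith only [hT, a1, a2, a4]), (by linarith only [hT, a1, t0]), (by linarith only [hT, a2, t0]), (by linarith only [hT, a3, t0])⟩ (by linarith only [hT])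
  rcases le_total T 13 with x2 | x2
  · skip
    exact sp_2_3_3_3_12 u1 u2 u3 u4 T hT a1 b1 a2 b2 a3 b3 a4 b4 o1 o2 o3 x1 x2
  rcases le_total T 14 with x3 | x3
  · skip
    exact sp_2_3_3_3_13 u1 u2 u3 u4 T hT a1 b1 a2 b2 a3 b3 a4 b4 o1 o2 o3 x2 x3
  have hX : H (T / 4) = 4 - (T / 4) := hk_3 (by linarith only [x3]) (by linarith only [t4])
  have hS : H T = 1 := hk_14 x3 (by linarith only [t4])
  have hN : H (T - 11) = 4 - (T - 11) := hk_3 (by linarith only [x3]) (by linarith only [t4])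
  exact good_T hT zk_2 zk_3 zk_3 zk_3 kN e1 e2 e3 e4 hX hS hN (R := (- u1 - u2 - u3 + 11)) ⟨(by linarith only [hT, b1, b3]), (by linarith only [hT, b1, b2]), (by linarith only [hT, b1, b2, o3]), (by linarith only [hT, b2, b3]), (by linarith only [hT, b1, b2]), (by linarith only [hT, b1, b2, o3]), (by linarith only [hT, b2, b3]), (by linarith only [hT, b1, b3]), (by linarith only [hT, b1, b2, b3, o3]), (by linarith only [hT, b2, b3, b4]), (by linarith only [hT, b1, b3, b4]), (by linarith only [hT, b1, b2, b4])⟩ (by linarith only [hT])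

theorem g_1_2_3_3 (u1 u2 u3 u4 : ℝ) (a1 : 1 ≤ u1) (b1 : u1 ≤ 1 + 1) (a2 : 2 ≤ u2) (b2 : u2 ≤ 2 + 1) (a3 : 3 ≤ u3) (b3 : u3 ≤ 3 + 1) (a4 : 3 ≤ u4) (b4 : u4 ≤ 3 + 1) (o1 : u1 ≤ u2) (o2 : u2 ≤ u3) (o3 : u3 ≤ u4) : Good u1 u2 u3 u4 ∨ Good2 u1 u2 u3 u4 := by
  obtain ⟨T, hT⟩ : ∃ T, T = u1 + u2 + u3 + u4 := ⟨_, rfl⟩
  have e1 : H u1 = 1 := hk_1 a1 b1
  have e2 : H u2 = 1 := hk_2 a2 b2
  have e3 : H u3 = 4 - u3 := hk_3 a3 b3
  have e4 : H u4 = 4 - u4 := hk_3 a4 b4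
  have kN : (1 : ℝ) + 2 + 3 + 3 = 9 := by norm_num
  have t0 : 9 ≤ T := by linarith only [hT, a1, a2, a3, a4]
  have t4 : T ≤ 13 := by linarith only [hT, b1, b2, b3, b4]
  rcases le_total T 10 with x1 | x1
  · skip
    have hX : H (T / 4) = 1 := hk_2 (by linarith only [t0]) (by linarith only [x1])
    have hS : H T = 1 := hk_9 t0 (by linarith only [x1])
    have hN : H (T - 9) = (T - 9) - 0 := hk_0 (by linarith only [t0]) (by linarith only [x1])
    exact good_T hT zk_1 zk_2 zk_3 zk_3 kN e1 e2 e3 e4 hX hS hN (R := 1) (spread_one a1 b1 a2 b2 a3 b3 a4 b4) (by linarith only [hT, a2, a4])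
  rcases le_total T 11 with x2 | x2
  · skip
    exact sp_1_2_3_3_10 u1 u2 u3 u4 T hT a1 b1 a2 b2 a3 b3 a4 b4 o1 o2 o3 x1 x2
  rcases le_total T 12 with x3 | x3
  · skip
    exact sp_1_2_3_3_11 u1 u2 u3 u4 T hT a1 b1 a2 b2 a3 b3 a4 b4 o1 o2 o3 x2 x3
  have hX : H (T / 4) = 4 - (T / 4) := hk_3 (by linarith only [x3]) (by linarith only [t4])
  have hS : H T = T - 12 := hk_12 x3 (by linarith only [t4])
  have hN : H (T - 9) = 4 - (T - 9) := hk_3 (by linarith only [x3]) (by linarith only [t4])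
  exact good_T hT zk_1 zk_2 zk_3 zk_3 kN e1 e2 e3 e4 hX hS hN (R := ((-2) * u1 - u2 + (-2) * u3 - u4 + 19)) ⟨(by linarith only [hT, b1, b3, b4]), (by linarith only [hT, b1, t4]), (by linarith only [hT, b1, b2, b3]), (by linarith only [hT, b2, b3, t4]), (by linarith only [hT, b1, b2, t4]), (by linarith only [hT, b1, b2, b3]), (by linarith only [hT, b3, t4]), (by linarith only [hT, b1, b3, b4]), (by linarith only [hT, b1, b2, b3]), (by linarith only [hT, b3, b4, t4]), (by linarith only [hT, b1, b3, b4]), (by linarith only [hT, b1, b4, t4])⟩ (by linarith only [hT])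

theorem g_2_2_2_3 (u1 u2 u3 u4 : ℝ) (a1 : 2 ≤ u1) (b1 : u1 ≤ 2 + 1) (a2 : 2 ≤ u2) (b2 : u2 ≤ 2 + 1) (a3 : 2 ≤ u3) (b3 : u3 ≤ 2 + 1) (a4 : 3 ≤ u4) (b4 : u4 ≤ 3 + 1) (o1 : u1 ≤ u2) (o2 : u2 ≤ u3) (o3 : u3 ≤ u4) : Good u1 u2 u3 u4 ∨ Good2 u1 u2 u3 u4 := by
  obtain ⟨T, hT⟩ : ∃ T, T = u1 + u2 + u3 + u4 := ⟨_, rfl⟩
  have e1 : H u1 = 1 := hk_2 a1 b1
  have e2 : H u2 = 1 := hk_2 a2 b2
  have e3 : H u3 = 1 := hk_2 a3 b3
  have e4 : H u4 = 4 - u4 := hk_3 a4 b4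
  have kN : (2 : ℝ) + 2 + 2 + 3 = 9 := by norm_num
  have t0 : 9 ≤ T := by linarith only [hT, a1, a2, a3, a4]
  have t4 : T ≤ 13 := by linarith only [hT, b1, b2, b3, b4]
  rcases le_total T 10 with x1 | x1
  · skip
    have hX : H (T / 4) = 1 := hk_2 (by linarith only [t0]) (by linarith only [x1])
    have hS : H T = 1 := hk_9 t0 (by linarith only [x1])
    have hN : H (T - 9) = (T - 9) - 0 := hk_0 (by linarith only [t0]) (by linarith only [x1])
    exact good_T hT zk_2 zk_2 zk_2 zk_3 kN e1 e2 e3 e4 hX hS hN (R := (u2 + u3 + u4 + (-7))) ⟨(by linarith only [hT, a1, a3, a4, o1]), (by linarith only [hT, a3, a4, o1]), (by linarith only [hT, a3, a4, o1]), (by linarith only [hT, a1, a3, a4]), (by linarith only [hT, a3, a4]), (by linarith only [hT, a3, a4]), (by linarith only [hT, a1, a2, a4]), (by linarith only [hT, a2, a4]), (by linarith only [hT, a2, a4]), (by linarith only [hT, a1, a2, a3]), (by linarith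 only [hT, a2, a3]), (by linarith only [hT, a2, a3])⟩ (by linarith only [hT])
  rcases le_total T 11 with x2 | x2
  · skip
    exact sp_2_2_2_3_10 u1 u2 u3 u4 T hT a1 b1 a2 b2 a3 b3 a4 b4 o1 o2 o3 x1 x2
  rcases le_total T 12 with x3 | x3
  · skip
    exact sp_2_2_2_3_11 u1 u2 u3 u4 T hT a1 b1 a2 b2 a3 b3 a4 b4 o1 o2 o3 x2 x3
  have hX : H (T / 4) = 4 - (T / 4) := hk_3 (by linarith only [x3]) (by linarith only [t4])
  have hS : H T = T - 12 := hk_12 x3 (by linarith only [t4])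
  have hN : H (T - 9) = 4 - (T - 9) := hk_3 (by linarith only [x3]) (by linarith only [t4])
  exact good_T hT zk_2 zk_2 zk_2 zk_3 kN e1 e2 e3 e4 hX hS hN (R := ((-2) * u1 - u2 - u3 - u4 + 16)) ⟨(by linarith only [hT, b1, b3, b4]), (by linarith only [hT, b1, b2, b4]), (by linarith only [hT, b1, b2, b3]), (by linarith only [hT, b2, t4]), (by linarith only [hT, b1, b2, b4]), (by linarith only [hT, b1, b2, b3]), (by linarith only [hT, b3, t4]), (by linarith only [hT, b1, b3, b4]), (by linarith only [hT, b1, b2, b3]), (by linarith only [hT, b4, t4]), (by linarith only [hT, b1, b3, b4]), (by linarith only [hT, b1, b2, b4])⟩ (by linarith only [hT])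

end Pool.Agent.W401.WC
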