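import Pool.Agent.W401.WC.Mk2
set_option autoImplicit false
namespace Pool.Agent.W401.WC

theorem hk_m12 {u : ℝ} (h1 : (-12) ≤ u) (h2 : u ≤ (-12) + 1) : H u = u - (-12) := Hv0 (-3) (by norm_num) h1 h2
theorem hk_m11 {u : ℝ} (h1 : (-11) ≤ u) (h2 : u ≤ (-11) + 1) : H u = 1 := Hv1 (-3) (b := -12) (by norm_num) (by linarith only [h1]) (by linarith only [h2])
theorem hk_m10 {u : ℝ} (h1 : (-10) ≤ u) (h2 : u ≤ (-10) + 1) : H u = 1 := Hv1 (-3) (b := -12) (by norm_num) (by linarith only [h1]) (by linarith only [h2])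
theorem hk_m9 {u : ℝ} (h1 : (-9) ≤ u) (h2 : u ≤ (-9) + 1) : H u = -8 - u := (Hv3 (-3) (b := -12) (by norm_num) (by linarith only [h1]) (by linarith only [h2])).trans (by ring)
theorem hk_m8 {u : ℝ} (h1 : (-8) ≤ u) (h2 : u ≤ (-8) + 1) : H u = u - (-8) := Hv0 (-2) (by norm_num) h1 h2
theorem hk_m7 {u : ℝ} (h1 : (-7) ≤ u) (h2 : u ≤ (-7) + 1) : H u = 1 := Hv1 (-2) (b := -8) (by norm_num) (by linarith only [h1]) (by linarith only [h2])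
theorem hk_m6 {u : ℝ} (h1 : (-6) ≤ u) (h2 : u ≤ (-6) + 1) : H u = 1 := Hv1 (-2) (b := -8) (by norm_num) (by linarith only [h1]) (by linarith only [h2])
theorem hk_m5 {u : ℝ} (h1 : (-5) ≤ u) (h2 : u ≤ (-5) + 1) : H u = -4 - u := (Hv3 (-2) (b := -8) (by norm_num) (by linarith only [h1]) (by linarith only [h2])).trans (by ring)
theorem hk_m4 {u : ℝ} (h1 : (-4) ≤ u) (h2 : u ≤ (-4) + 1) : H u = u - (-4) := Hv0 (-1) (by norm_num) h1 h2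
theorem hk_m3 {u : ℝ} (h1 : (-3) ≤ u) (h2 : u ≤ (-3) + 1) : H u = 1 := Hv1 (-1) (b := -4) (by norm_num) (by linarith only [h1]) (by linarith only [h2])
theorem hk_m2 {u : ℝ} (h1 : (-2) ≤ u) (h2 : u ≤ (-2) + 1) : H u = 1 := Hv1 (-1) (b := -4) (by norm_num) (by linarith only [h1]) (by linarith only [h2])
theorem hk_m1 {u : ℝ} (h1 : (-1) ≤ u) (h2 : u ≤ (-1) + 1) : H u = 0 - u := (Hv3 (-1) (b := -4) (by norm_num) (by linarith only [h1]) (by linarith only [h2])).trans (by ring)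
theorem hk_0 {u : ℝ} (h1 : 0 ≤ u) (h2 : u ≤ 0 + 1) : H u = u - 0 := Hv0 (0) (by norm_num) h1 h2
theorem hk_1 {u : ℝ} (h1 : 1 ≤ u) (h2 : u ≤ 1 + 1) : H u = 1 := Hv1 (0) (b := 0) (by norm_num) (by linarith only [h1]) (by linarith only [h2])
theorem hk_2 {u : ℝ} (h1 : 2 ≤ u) (h2 : u ≤ 2 + 1) : H u = 1 := Hv1 (0) (b := 0) (by norm_num) (by linarith only [h1]) (by linarith only [h2])
theorem hk_3 {u : ℝ} (h1 : 3 ≤ u) (h2 : u ≤ 3 + 1) : H u = 4 - u := (Hv3 (0) (b := 0) (by norm_num) (by linarith only [h1]) (by linarith only [h2])).trans (by ring)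
theorem hk_4 {u : ℝ} (h1 : 4 ≤ u) (h2 : u ≤ 4 + 1) : H u = u - 4 := Hv0 (1) (by norm_num) h1 h2
theorem hk_5 {u : ℝ} (h1 : 5 ≤ u) (h2 : u ≤ 5 + 1) : H u = 1 := Hv1 (1) (b := 4) (by norm_num) (by linarith only [h1]) (by linarith only [h2])
theorem hk_6 {u : ℝ} (h1 : 6 ≤ u) (h2 : u ≤ 6 + 1) : H u = 1 := Hv1 (1) (b := 4) (by norm_num) (by linarith only [h1]) (by linarith only [h2])
theorem hk_7 {u : ℝ} (h1 : 7 ≤ u) (h2 : u ≤ 7 + 1) : H u = 8 - u := (Hv3 (1) (b := 4) (by norm_num) (by linarith only [h1]) (by linarith only [h2])).trans (by ring)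
theorem hk_8 {u : ℝ} (h1 : 8 ≤ u) (h2 : u ≤ 8 + 1) : H u = u - 8 := Hv0 (2) (by norm_num) h1 h2
theorem hk_9 {u : ℝ} (h1 : 9 ≤ u) (h2 : u ≤ 9 + 1) : H u = 1 := Hv1 (2) (b := 8) (by norm_num) (by linarith only [h1]) (by linarith only [h2])
theorem hk_10 {u : ℝ} (h1 : 10 ≤ u) (h2 : u ≤ 10 + 1) : H u = 1 := Hv1 (2) (b := 8) (by norm_num) (by linarith only [h1]) (by linarith only [h2])
theorem hk_11 {u : ℝ} (h1 : 11 ≤ u) (h2 : u ≤ 11 + 1) : H u = 12 - u := (Hv3 (2) (b := 8) (by norm_num) (by linarith only [h1]) (by linarith only [h2])).trans (by ring)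
theorem hk_12 {u : ℝ} (h1 : 12 ≤ u) (h2 : u ≤ 12 + 1) : H u = u - 12 := Hv0 (3) (by norm_num) h1 h2
theorem hk_13 {u : ℝ} (h1 : 13 ≤ u) (h2 : u ≤ 13 + 1) : H u = 1 := Hv1 (3) (b := 12) (by norm_num) (by linarith only [h1]) (by linarith only [h2])
theorem hk_14 {u : ℝ} (h1 : 14 ≤ u) (h2 : u ≤ 14 + 1) : H u = 1 := Hv1 (3) (b := 12) (by norm_num) (by linarith only [h1]) (by linarith only [h2])
theorem hk_15 {u : ℝ} (h1 : 15 ≤ u) (h2 : u ≤ 15 + 1) : H u = 16 - u := (Hv3 (3) (b := 12) (by norm_num) (by linarith only [h1]) (by linarith only [h2])).trans (by ring)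
theorem hk_16 {u : ℝ} (h1 : 16 ≤ u) (h2 : u ≤ 16 + 1) : H u = u - 16 := Hv0 (4) (by norm_num) h1 h2
theorem hk_17 {u : ℝ} (h1 : 17 ≤ u) (h2 : u ≤ 17 + 1) : H u = 1 := Hv1 (4) (b := 16) (by norm_num) (by linarith only [h1]) (by linarith only [h2])
theorem hk_18 {u : ℝ} (h1 : 18 ≤ u) (h2 : u ≤ 18 + 1) : H u = 1 := Hv1 (4) (b := 16) (by norm_num) (by linarith only [h1]) (by linarith only [h2])
theorem hk_19 {u : ℝ} (h1 : 19 ≤ u) (h2 : u ≤ 19 + 1) : H u = 20 - u := (Hv3 (4) (b := 16) (by norm_num) (by linarith only [h1]) (by linarith only [h2])).trans (by ring)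
theorem hk_20 {u : ℝ} (h1 : 20 ≤ u) (h2 : u ≤ 20 + 1) : H u = u - 20 := Hv0 (5) (by norm_num) h1 h2
theorem hk_21 {u : ℝ} (h1 : 21 ≤ u) (h2 : u ≤ 21 + 1) : H u = 1 := Hv1 (5) (b := 20) (by norm_num) (by linarith only [h1]) (by linarith only [h2])
theorem hk_22 {u : ℝ} (h1 : 22 ≤ u) (h2 : u ≤ 22 + 1) : H u = 1 := Hv1 (5) (b := 20) (by norm_num) (by linarith only [h1]) (by linarith only [h2])
theorem hk_23 {u : ℝ} (h1 : 23 ≤ u) (h2 : u ≤ 23 + 1) : H u = 24 - u := (Hv3 (5) (b := 20) (by norm_num) (by linarith only [h1]) (by linarith only [h2])).trans (by ring)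
theorem hk_24 {u : ℝ} (h1 : 24 ≤ u) (h2 : u ≤ 24 + 1) : H u = u - 24 := Hv0 (6) (by norm_num) h1 h2
theorem hk_25 {u : ℝ} (h1 : 25 ≤ u) (h2 : u ≤ 25 + 1) : H u = 1 := Hv1 (6) (b := 24) (by norm_num) (by linarith only [h1]) (by linarith only [h2])
theorem hk_26 {u : ℝ} (h1 : 26 ≤ u) (h2 : u ≤ 26 + 1) : H u = 1 := Hv1 (6) (b := 24) (by norm_num) (by linarith only [h1]) (by linarith only [h2])
theorem hk_27 {u : ℝ} (h1 : 27 ≤ u) (h2 : u ≤ 27 + 1) : H u = 28 - u := (Hv3 (6) (b := 24) (by norm_num) (by linarith only [h1]) (by linarith only [h2])).trans (by ring)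
theorem hk_28 {u : ℝ} (h1 : 28 ≤ u) (h2 : u ≤ 28 + 1) : H u = u - 28 := Hv0 (7) (by norm_num) h1 h2
theorem hk_29 {u : ℝ} (h1 : 29 ≤ u) (h2 : u ≤ 29 + 1) : H u = 1 := Hv1 (7) (b := 28) (by norm_num) (by linarith only [h1]) (by linarith only [h2])
theorem hk_30 {u : ℝ} (h1 : 30 ≤ u) (h2 : u ≤ 30 + 1) : H u = 1 := Hv1 (7) (b := 28) (by norm_num) (by linarith only [h1]) (by linarith only [h2])
theorem hk_31 {u : ℝ} (h1 : 31 ≤ u) (h2 : u ≤ 31 + 1) : H u = 32 - u := (Hv3 (7) (b := 28) (by norm_num) (by linarith only [h1]) (by linarith only [h2])).trans (by ring)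
theorem hk_32 {u : ℝ} (h1 : 32 ≤ u) (h2 : u ≤ 32 + 1) : H u = u - 32 := Hv0 (8) (by norm_num) h1 h2
theorem hk_33 {u : ℝ} (h1 : 33 ≤ u) (h2 : u ≤ 33 + 1) : H u = 1 := Hv1 (8) (b := 32) (by norm_num) (by linarith only [h1]) (by linarith only [h2])
theorem hk_34 {u : ℝ} (h1 : 34 ≤ u) (h2 : u ≤ 34 + 1) : H u = 1 := Hv1 (8) (b := 32) (by norm_num) (by linarith only [h1]) (by linarith only [h2])
theorem hk_35 {u : ℝ} (h1 : 35 ≤ u) (h2 : u ≤ 35 + 1) : H u = 36 - u := (Hv3 (8) (b := 32) (by norm_num) (by linarith only [h1]) (by linarith only [h2])).trans (by ring)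
theorem hk_36 {u : ℝ} (h1 : 36 ≤ u) (h2 : u ≤ 36 + 1) : H u = u - 36 := Hv0 (9) (by norm_num) h1 h2
theorem hk_37 {u : ℝ} (h1 : 37 ≤ u) (h2 : u ≤ 37 + 1) : H u = 1 := Hv1 (9) (b := 36) (by norm_num) (by linarith only [h1]) (by linarith only [h2])
theorem hk_38 {u : ℝ} (h1 : 38 ≤ u) (h2 : u ≤ 38 + 1) : H u = 1 := Hv1 (9) (b := 36) (by norm_num) (by linarith only [h1]) (by linarith only [h2])
theorem hk_39 {u : ℝ} (h1 : 39 ≤ u) (h2 : u ≤ 39 + 1) : H u = 40 - u := (Hv3 (9) (b := 36) (by norm_num) (by linarith only [h1]) (by linarith only [h2])).trans (by ring)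
theorem hk_40 {u : ℝ} (h1 : 40 ≤ u) (h2 : u ≤ 40 + 1) : H u = u - 40 := Hv0 (10) (by norm_num) h1 h2
theorem hk_41 {u : ℝ} (h1 : 41 ≤ u) (h2 : u ≤ 41 + 1) : H u = 1 := Hv1 (10) (b := 40) (by norm_num) (by linarith only [h1]) (by linarith only [h2])
theorem hk_42 {u : ℝ} (h1 : 42 ≤ u) (h2 : u ≤ 42 + 1) : H u = 1 := Hv1 (10) (b := 40) (by norm_num) (by linarith only [h1]) (by linarith only [h2])
theorem hk_43 {u : ℝ} (h1 : 43 ≤ u) (h2 : u ≤ 43 + 1) : H u = 44 - u := (Hv3 (10) (b := 40) (by norm_num) (by linarith only [h1]) (by linarith only [h2])).trans (by ring)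
theorem hk_44 {u : ℝ} (h1 : 44 ≤ u) (h2 : u ≤ 44 + 1) : H u = u - 44 := Hv0 (11) (by norm_num) h1 h2
theorem hk_45 {u : ℝ} (h1 : 45 ≤ u) (h2 : u ≤ 45 + 1) : H u = 1 := Hv1 (11) (b := 44) (by norm_num) (by linarith only [h1]) (by linarith only [h2])
theorem hk_46 {u : ℝ} (h1 : 46 ≤ u) (h2 : u ≤ 46 + 1) : H u = 1 := Hv1 (11) (b := 44) (by norm_num) (by linarith only [h1]) (by linarith only [h2])
theorem hk_47 {u : ℝ} (h1 : 47 ≤ u) (h2 : u ≤ 47 + 1) : H u = 48 - u := (Hv3 (11) (b := 44) (by norm_num) (by linarith only [h1]) (by linarith only [h2])).trans (by ring)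
theorem zk_m12 : (((-12) : ℤ) : ℝ) = (-12) := by norm_num
theorem zk_m11 : (((-11) : ℤ) : ℝ) = (-11) := by norm_num
theorem zk_m10 : (((-10) : ℤ) : ℝ) = (-10) := by norm_num
theorem zk_m9 : (((-9) : ℤ) : ℝ) = (-9) := by norm_num
theorem zk_m8 : (((-8) : ℤ) : ℝ) = (-8) := by norm_num
theorem zk_m7 : (((-7) : ℤ) : ℝ) = (-7) := by norm_num
theorem zk_m6 : (((-6) : ℤ) : ℝ) = (-6) := by norm_num
theorem zk_m5 : (((-5) : ℤ) : ℝ) = (-5) := by norm_num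
theorem zk_m4 : (((-4) : ℤ) : ℝ) = (-4) := by norm_num
theorem zk_m3 : (((-3) : ℤ) : ℝ) = (-3) := by norm_num
theorem zk_m2 : (((-2) : ℤ) : ℝ) = (-2) := by norm_num
theorem zk_m1 : (((-1) : ℤ) : ℝ) = (-1) := by norm_num
theorem zk_0 : ((0 : ℤ) : ℝ) = 0 := by norm_num
theorem zk_1 : ((1 : ℤ) : ℝ) = 1 := by norm_num
theorem zk_2 : ((2 : ℤ) : ℝ) = 2 := by norm_num
theorem zk_3 : ((3 : ℤ) : ℝ) = 3 := by norm_num
theorem zk_4 : ((4 : ℤ) : ℝ) = 4 := by norm_num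
theorem zk_5 : ((5 : ℤ) : ℝ) = 5 := by norm_num
theorem zk_6 : ((6 : ℤ) : ℝ) = 6 := by norm_num
theorem zk_7 : ((7 : ℤ) : ℝ) = 7 := by norm_num
theorem zk_8 : ((8 : ℤ) : ℝ) = 8 := by norm_num
theorem zk_9 : ((9 : ℤ) : ℝ) = 9 := by norm_num
theorem zk_10 : ((10 : ℤ) : ℝ) = 10 := by norm_num
theorem zk_11 : ((11 : ℤ) : ℝ) = 11 := by norm_num
theorem zk_12 : ((12 : ℤ) : ℝ) = 12 := by norm_num
theorem zk_13 : ((13 : ℤ) : ℝ) = 13 := by norm_num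
theorem zk_14 : ((14 : ℤ) : ℝ) = 14 := by norm_num
theorem zk_15 : ((15 : ℤ) : ℝ) = 15 := by norm_num
theorem zk_16 : ((16 : ℤ) : ℝ) = 16 := by norm_num
theorem zk_17 : ((17 : ℤ) : ℝ) = 17 := by norm_num
theorem zk_18 : ((18 : ℤ) : ℝ) = 18 := by norm_num
theorem zk_19 : ((19 : ℤ) : ℝ) = 19 := by norm_num
theorem zk_20 : ((20 : ℤ) : ℝ) = 20 := by norm_num
theorem zk_21 : ((21 : ℤ) : ℝ) = 21 := by norm_num
theorem zk_22 : ((22 : ℤ) : ℝ) = 22 := by norm_num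
theorem zk_23 : ((23 : ℤ) : ℝ) = 23 := by norm_num
theorem zk_24 : ((24 : ℤ) : ℝ) = 24 := by norm_num
theorem zk_25 : ((25 : ℤ) : ℝ) = 25 := by norm_num
theorem zk_26 : ((26 : ℤ) : ℝ) = 26 := by norm_num
theorem zk_27 : ((27 : ℤ) : ℝ) = 27 := by norm_num
theorem zk_28 : ((28 : ℤ) : ℝ) = 28 := by norm_num
theorem zk_29 : ((29 : ℤ) : ℝ) = 29 := by norm_num
theorem zk_30 : ((30 : ℤ) : ℝ) = 30 := by norm_num
theorem zk_31 : ((31 : ℤ) : ℝ) = 31 := by norm_num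
theorem zk_32 : ((32 : ℤ) : ℝ) = 32 := by norm_num
theorem zk_33 : ((33 : ℤ) : ℝ) = 33 := by norm_num
theorem zk_34 : ((34 : ℤ) : ℝ) = 34 := by norm_num
theorem zk_35 : ((35 : ℤ) : ℝ) = 35 := by norm_num
theorem zk_36 : ((36 : ℤ) : ℝ) = 36 := by norm_num
theorem zk_37 : ((37 : ℤ) : ℝ) = 37 := by norm_num
theorem zk_38 : ((38 : ℤ) : ℝ) = 38 := by norm_num
theorem zk_39 : ((39 : ℤ) : ℝ) = 39 := by norm_num
theorem zk_40 : ((40 : ℤ) : ℝ) = 40 := by norm_num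
theorem zk_41 : ((41 : ℤ) : ℝ) = 41 := by norm_num
theorem zk_42 : ((42 : ℤ) : ℝ) = 42 := by norm_num
theorem zk_43 : ((43 : ℤ) : ℝ) = 43 := by norm_num
theorem zk_44 : ((44 : ℤ) : ℝ) = 44 := by norm_num
theorem zk_45 : ((45 : ℤ) : ℝ) = 45 := by norm_num
theorem zk_46 : ((46 : ℤ) : ℝ) = 46 := by norm_num
theorem zk_47 : ((47 : ℤ) : ℝ) = 47 := by norm_num

theorem good_T {u1 u2 u3 u4 T h1 h2 h3 h4 hx hs hn N m1 m2 m3 m4 R : ℝ} {n1 n2 n3 n4 : ℤ}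
    (hT : T = u1 + u2 + u3 + u4)
    (k1 : (n1 : ℝ) = m1) (k2 : (n2 : ℝ) = m2) (k3 : (n3 : ℝ) = m3) (k4 : (n4 : ℝ) = m4)
    (kN : m1 + m2 + m3 + m4 = N)
    (e1 : H u1 = h1) (e2 : H u2 = h2) (e3 : H u3 = h3) (e4 : H u4 = h4)
    (ex : H (T / 4) = hx) (es : H T = hs) (en : H (T - N) = hn)
    (sp : Spread (u1 - m1) (u2 - m2) (u3 - m3) (u4 - m4) R)
    (hR : R ≤ h1 + h2 + h3 + h4 - 4 * hx + (u4 - u1) - hs + hn) :
    Good u1 u2 u3 u4 ∨ Good2 u1 u2 u3 u4 := by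
  subst hT
  exact Or.inl (good_mk n1 n2 n3 n4 e1 e2 e3 e4 ex es en k1 k2 k3 k4 kN sp hR)

theorem good2_T {u1 u2 u3 u4 T h1 h2 h3 h4 g1 g2 g3 g4 hx hs hn hw N m1 m2 m3 m4 R : ℝ}
    {n1 n2 n3 n4 : ℤ} (hT : T = u1 + u2 + u3 + u4)
    (k1 : (n1 : ℝ) = m1) (k2 : (n2 : ℝ) = m2) (k3 : (n3 : ℝ) = m3) (k4 : (n4 : ℝ) = m4)
    (kN : m1 + m2 + m3 + m4 = N)
    (e1 : H u1 = h1) (e2 : H u2 = h2) (e3 : H u3 = h3) (e4 : H u4 = h4)
    (f1 : H (4 * u1) = g1) (f2 : H (4 * u2) = g2) (f3 : H (4 * u3) = g3) (f4 : H (4 * u4) = g4)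
    (ex : H (T / 4) = hx) (es : H T = hs)
    (ew : H (4 * T) = hw) (en : H (4 * T - N) = hn)
    (sp : Spread (4 * u1 - m1) (4 * u2 - m2) (4 * u3 - m3) (4 * u4 - m4) R)
    (hR : R ≤ 4 * (h1 + h2 + h3 + h4 - 4 * hx + (u4 - u1) - hs) + (g1 + g2 + g3 + g4)
      - hw + hn) : Good u1 u2 u3 u4 ∨ Good2 u1 u2 u3 u4 := by
  subst hT
  exact Or.inr (good2_mk n1 n2 n3 n4 e1 e2 e3 e4 f1 f2 f3 f4 ex es ew en k1 k2 k3 k4 kN sp hR)

/-- cells where the crude bound is enough -/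
theorem good_crude {u1 u2 u3 u4 h1 h2 h3 h4 m1 m2 m3 m4 : ℝ} {n1 n2 n3 n4 : ℤ}
    (k1 : (n1 : ℝ) = m1) (k2 : (n2 : ℝ) = m2) (k3 : (n3 : ℝ) = m3) (k4 : (n4 : ℝ) = m4)
    (e1 : H u1 = h1) (e2 : H u2 = h2) (e3 : H u3 = h3) (e4 : H u4 = h4)
    (sp : Spread (u1 - m1) (u2 - m2) (u3 - m3) (u4 - m4) 1)
    (hR : 6 ≤ h1 + h2 + h3 + h4 + (u4 - u1)) :
    Good u1 u2 u3 u4 ∨ Good2 u1 u2 u3 u4 := by
  refine good_T rfl k1 k2 k3 k4 rfl e1 e2 e3 e4 rfl rfl rfl sp ?_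
  have g1 := H_le_one ((u1 + u2 + u3 + u4) / 4)
  have g2 := H_le_one (u1 + u2 + u3 + u4)
  have g3 := H_nonneg (u1 + u2 + u3 + u4 - (m1 + m2 + m3 + m4))
  linarith

end Pool.Agent.W401.WC
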