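import Pool.Agent.W401.WC.Base
set_option autoImplicit false
namespace Pool.Agent.W401.WC

/-- all twelve differences are at most R -/
def Spread (y1 y2 y3 y4 R : ℝ) : Prop :=
  y1 - y2 ≤ R ∧ y1 - y3 ≤ R ∧ y1 - y4 ≤ R ∧ y2 - y1 ≤ R ∧ y2 - y3 ≤ R ∧ y2 - y4 ≤ R ∧
  y3 - y1 ≤ R ∧ y3 - y2 ≤ R ∧ y3 - y4 ≤ R ∧ y4 - y1 ≤ R ∧ y4 - y2 ≤ R ∧ y4 - y3 ≤ R

/-- one step certificate -/
def Good (u1 u2 u3 u4 : ℝ) : Prop := ∃ n1 n2 n3 n4 : ℤ, ∃ R : ℝ,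
  Spread (u1 - n1) (u2 - n2) (u3 - n3) (u4 - n4) R ∧
  R ≤ H u1 + H u2 + H u3 + H u4 - 4 * H ((u1 + u2 + u3 + u4) / 4) + (u4 - u1)
    - H (u1 + u2 + u3 + u4) + H (u1 + u2 + u3 + u4 - ((n1 + n2 + n3 + n4 : ℤ) : ℝ))

/-- two step certificate -/
def Good2 (u1 u2 u3 u4 : ℝ) : Prop := ∃ n1 n2 n3 n4 : ℤ, ∃ R : ℝ,
  Spread (4 * u1 - n1) (4 * u2 - n2) (4 * u3 - n3) (4 * u4 - n4) R ∧
  R ≤ 4 * (H u1 + H u2 + H u3 + H u4 - 4 * H ((u1 + u2 + u3 + u4) / 4) + (u4 - u1)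
    - H (u1 + u2 + u3 + u4)) + (H (4 * u1) + H (4 * u2) + H (4 * u3) + H (4 * u4))
    - H (4 * (u1 + u2 + u3 + u4)) + H (4 * (u1 + u2 + u3 + u4) - ((n1 + n2 + n3 + n4 : ℤ) : ℝ))

/-- the four point inequality up to an error -/
def PP (ε : ℝ) : Prop := ∀ y1 y2 y3 y4 : ℝ, y1 ≤ y2 → y2 ≤ y3 → y3 ≤ y4 →
  4 * ph ((y1 + y2 + y3 + y4) / 4) ≤ ph y1 + ph y2 + ph y3 + ph y4 + 4 * (y4 - y1) + ε

theorem PP_spread {ε : ℝ} (h : PP ε) {y1 y2 y3 y4 R : ℝ} (hs : Spread y1 y2 y3 y4 R) :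
    4 * ph ((y1 + y2 + y3 + y4) / 4) ≤ ph y1 + ph y2 + ph y3 + ph y4 + 4 * R + ε := by
  obtain ⟨h12, h13, h14, h21, h23, h24, h31, h32, h34, h41, h42, h43⟩ := hs
  have hR : 0 ≤ R := by linarith
  set f : Fin 4 → ℝ := ![y1, y2, y3, y4] with hf
  have hall : ∀ i j : Fin 4, f i - f j ≤ R := by
    intro i j
    fin_cases i <;> fin_cases j <;> simp [hf] <;> linarith
  set σ := Tuple.sort f with hσ
  have hmono : Monotone (f ∘ σ) := Tuple.monotone_sort f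
  have h01 := hmono (show (0 : Fin 4) ≤ 1 by decide)
  have h12' := hmono (show (1 : Fin 4) ≤ 2 by decide)
  have h23' := hmono (show (2 : Fin 4) ≤ 3 by decide)
  have key := h _ _ _ _ h01 h12' h23'
  have hsum : (f ∘ σ) 0 + (f ∘ σ) 1 + (f ∘ σ) 2 + (f ∘ σ) 3 = y1 + y2 + y3 + y4 := by
    have := Equiv.sum_comp σ f
    rw [Fin.sum_univ_four, Fin.sum_univ_four] at this
    simpa [hf] using this
  have hsum2 : ph ((f ∘ σ) 0) + ph ((f ∘ σ) 1) + ph ((f ∘ σ) 2) + ph ((f ∘ σ) 3) =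
      ph y1 + ph y2 + ph y3 + ph y4 := by
    have := Equiv.sum_comp σ (fun i => ph (f i))
    rw [Fin.sum_univ_four, Fin.sum_univ_four] at this
    simpa [hf] using this
  have hr : (f ∘ σ) 3 - (f ∘ σ) 0 ≤ R := hall _ _
  rw [hsum, hsum2] at key
  linarith

theorem H_sub4 (x : ℝ) (n : ℤ) : H (4 * (x - n / 4)) = H (4 * x - n) := by
  congr 1; ring

theorem step1 {ε : ℝ} (h : PP ε) {u1 u2 u3 u4 : ℝ} (hg : Good u1 u2 u3 u4) :
    4 * ph ((u1 / 4 + u2 / 4 + u3 / 4 + u4 / 4) / 4) ≤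
      ph (u1 / 4) + ph (u2 / 4) + ph (u3 / 4) + ph (u4 / 4) + 4 * (u4 / 4 - u1 / 4) + ε / 4 := by
  obtain ⟨n1, n2, n3, n4, R, hs, hR⟩ := hg
  have key := PP_spread h hs
  set T := u1 + u2 + u3 + u4 with hT
  have e0 : (u1 / 4 + u2 / 4 + u3 / 4 + u4 / 4) / 4 = (T / 4) / 4 := by rw [hT]; ring
  have e1 : (u1 - n1 + (u2 - n2) + (u3 - n3) + (u4 - n4)) / 4
      = (T - ((n1 + n2 + n3 + n4 : ℤ) : ℝ)) / 4 := by rw [hT]; push_cast; ring
  rw [e1] at key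
  rw [ph_sub_int, ph_sub_int, ph_sub_int, ph_sub_int] at key
  rw [e0]
  have r0 := ph_rec (T / 4)
  have r1 := ph_rec T
  have r2 := ph_rec (T - ((n1 + n2 + n3 + n4 : ℤ) : ℝ))
  rw [ph_sub_int] at r2
  have s1 := ph_rec u1
  have s2 := ph_rec u2
  have s3 := ph_rec u3
  have s4 := ph_rec u4
  rw [r2] at key
  rw [r0, r1, s1, s2, s3, s4]
  linarith

theorem step2 {ε : ℝ} (h : PP ε) {u1 u2 u3 u4 : ℝ} (hg : Good2 u1 u2 u3 u4) :
    4 * ph ((u1 / 4 + u2 / 4 + u3 / 4 + u4 / 4) / 4) ≤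
      ph (u1 / 4) + ph (u2 / 4) + ph (u3 / 4) + ph (u4 / 4) + 4 * (u4 / 4 - u1 / 4) + ε / 16 := by
  obtain ⟨n1, n2, n3, n4, R, hs, hR⟩ := hg
  have key := PP_spread h hs
  set T := u1 + u2 + u3 + u4 with hT
  have e0 : (u1 / 4 + u2 / 4 + u3 / 4 + u4 / 4) / 4 = (T / 4) / 4 := by rw [hT]; ring
  have e1 : (4 * u1 - n1 + (4 * u2 - n2) + (4 * u3 - n3) + (4 * u4 - n4)) / 4
      = (4 * T - ((n1 + n2 + n3 + n4 : ℤ) : ℝ)) / 4 := by rw [hT]; push_cast; ring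
  rw [e1] at key
  rw [ph_sub_int, ph_sub_int, ph_sub_int, ph_sub_int] at key
  rw [e0]
  have r0 := ph_rec (T / 4)
  have r1 := ph_rec T
  have r2 := ph_rec (4 * T)
  have r3 := ph_rec (4 * T - ((n1 + n2 + n3 + n4 : ℤ) : ℝ))
  rw [ph_sub_int] at r3
  have q : ∀ u : ℝ, ph u = H (4 * u) + ph (4 * u) / 4 := by
    intro u
    have := ph_rec (4 * u)
    rwa [mul_div_cancel_left₀ u (by norm_num : (4 : ℝ) ≠ 0)] at this
  have s1 := ph_rec u1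
  have s2 := ph_rec u2
  have s3 := ph_rec u3
  have s4 := ph_rec u4
  have t1 := q u1
  have t2 := q u2
  have t3 := q u3
  have t4 := q u4
  have t5 := q T
  rw [r3] at key
  rw [r0, r1, s1, s2, s3, s4, t1, t2, t3, t4, t5]
  linarith

/-- every admissible quadruple has a certificate -/
def AllGood : Prop := ∀ u1 u2 u3 u4 : ℝ, 0 ≤ u1 → u1 < 4 → u1 ≤ u2 → u2 ≤ u3 → u3 ≤ u4 →
  u4 < u1 + 6 → Good u1 u2 u3 u4 ∨ Good2 u1 u2 u3 u4

theorem PP_step (hA : AllGood) {ε : ℝ} (hε : 0 ≤ ε) (h : PP ε) : PP (ε / 4) := by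
  -- reduced case
  have red : ∀ y1 y2 y3 y4 : ℝ, 0 ≤ y1 → y1 < 1 → y1 ≤ y2 → y2 ≤ y3 → y3 ≤ y4 →
      4 * ph ((y1 + y2 + y3 + y4) / 4) ≤ ph y1 + ph y2 + ph y3 + ph y4 + 4 * (y4 - y1) + ε / 4 := by
    intro y1 y2 y3 y4 a0 a1 h12 h23 h34
    by_cases hr : y4 < y1 + 6 / 4
    · have hg := hA (4 * y1) (4 * y2) (4 * y3) (4 * y4) (by linarith) (by linarith) (by linarith)
        (by linarith) (by linarith) (by linarith)
      have e : ∀ y : ℝ, 4 * y / 4 = y := fun y => by ring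
      rcases hg with hg | hg
      · have := step1 h hg
        rw [e, e, e, e] at this
        exact this
      · have := step2 h hg
        rw [e, e, e, e] at this
        linarith
    · have h1 := ph_le ((y1 + y2 + y3 + y4) / 4)
      have b1 := ph_nonneg y1
      have b2 := ph_nonneg y2
      have b3 := ph_nonneg y3
      have b4 := ph_nonneg y4
      push Not at hr
      linarith
  intro y1 y2 y3 y4 h12 h23 h34
  have hk := red (y1 - ⌊y1⌋) (y2 - ⌊y1⌋) (y3 - ⌊y1⌋) (y4 - ⌊y1⌋)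
    (by linarith [Int.floor_le y1]) (by linarith [Int.lt_floor_add_one y1])
    (by linarith) (by linarith) (by linarith)
  rw [ph_sub_int, ph_sub_int, ph_sub_int, ph_sub_int] at hk
  have e : (y1 - ⌊y1⌋ + (y2 - ⌊y1⌋) + (y3 - ⌊y1⌋) + (y4 - ⌊y1⌋)) / 4
      = (y1 + y2 + y3 + y4) / 4 - (⌊y1⌋ : ℤ) := by ring
  rw [e, ph_sub_int] at hk
  linarith

theorem PP_zero (hA : AllGood) : PP 0 := by
  have hn : ∀ j : ℕ, PP (6 / 4 ^ j) := by
    intro j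
    induction j with
    | zero =>
      intro y1 y2 y3 y4 h12 h23 h34
      have h1 := ph_le ((y1 + y2 + y3 + y4) / 4)
      have b1 := ph_nonneg y1
      have b2 := ph_nonneg y2
      have b3 := ph_nonneg y3
      have b4 := ph_nonneg y4
      norm_num
      linarith
    | succ j ih =>
      have := PP_step hA (by positivity) ih
      rw [pow_succ, ← div_div]
      exact this
  intro y1 y2 y3 y4 h12 h23 h34
  have hlim : Filter.Tendsto (fun j : ℕ => (6 : ℝ) / 4 ^ j) Filter.atTop (nhds 0) := by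
    have h1 : Filter.Tendsto (fun j : ℕ => (6 : ℝ) * (1 / 4) ^ j) Filter.atTop (nhds (6 * 0)) :=
      (tendsto_pow_atTop_nhds_zero_of_lt_one (by norm_num) (by norm_num)).const_mul 6
    rw [mul_zero] at h1
    refine h1.congr fun j => ?_
    rw [one_div, inv_pow]; ring
  have h2 : Filter.Tendsto (fun j : ℕ => ph y1 + ph y2 + ph y3 + ph y4 + 4 * (y4 - y1)
      + (6 : ℝ) / 4 ^ j) Filter.atTop (nhds (ph y1 + ph y2 + ph y3 + ph y4 + 4 * (y4 - y1) + 0)) :=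
    hlim.const_add _
  exact ge_of_tendsto' h2 fun j => hn j y1 y2 y3 y4 h12 h23 h34

end Pool.Agent.W401.WC
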