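import Pool.Agent.W401.WC.Ind
set_option autoImplicit false
namespace Pool.Agent.W401.WC

theorem good_mk {u1 u2 u3 u4 h1 h2 h3 h4 hx hs hn N m1 m2 m3 m4 R : ℝ} (n1 n2 n3 n4 : ℤ)
    (e1 : H u1 = h1) (e2 : H u2 = h2) (e3 : H u3 = h3) (e4 : H u4 = h4)
    (ex : H ((u1 + u2 + u3 + u4) / 4) = hx) (es : H (u1 + u2 + u3 + u4) = hs)
    (en : H (u1 + u2 + u3 + u4 - N) = hn)
    (k1 : (n1 : ℝ) = m1) (k2 : (n2 : ℝ) = m2) (k3 : (n3 : ℝ) = m3) (k4 : (n4 : ℝ) = m4)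
    (kN : m1 + m2 + m3 + m4 = N)
    (sp : Spread (u1 - m1) (u2 - m2) (u3 - m3) (u4 - m4) R)
    (hR : R ≤ h1 + h2 + h3 + h4 - 4 * hx + (u4 - u1) - hs + hn) : Good u1 u2 u3 u4 := by
  refine ⟨n1, n2, n3, n4, R, ?_, ?_⟩
  · rw [k1, k2, k3, k4]; exact sp
  · have : ((n1 + n2 + n3 + n4 : ℤ) : ℝ) = N := by push_cast; rw [k1, k2, k3, k4, kN]
    rw [this, e1, e2, e3, e4, ex, es, en]
    exact hR

theorem good2_mk {u1 u2 u3 u4 h1 h2 h3 h4 g1 g2 g3 g4 hx hs hn hw N m1 m2 m3 m4 R : ℝ}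
    (n1 n2 n3 n4 : ℤ)
    (e1 : H u1 = h1) (e2 : H u2 = h2) (e3 : H u3 = h3) (e4 : H u4 = h4)
    (f1 : H (4 * u1) = g1) (f2 : H (4 * u2) = g2) (f3 : H (4 * u3) = g3) (f4 : H (4 * u4) = g4)
    (ex : H ((u1 + u2 + u3 + u4) / 4) = hx) (es : H (u1 + u2 + u3 + u4) = hs)
    (ew : H (4 * (u1 + u2 + u3 + u4)) = hw) (en : H (4 * (u1 + u2 + u3 + u4) - N) = hn)
    (k1 : (n1 : ℝ) = m1) (k2 : (n2 : ℝ) = m2) (k3 : (n3 : ℝ) = m3) (k4 : (n4 : ℝ) = m4)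
    (kN : m1 + m2 + m3 + m4 = N)
    (sp : Spread (4 * u1 - m1) (4 * u2 - m2) (4 * u3 - m3) (4 * u4 - m4) R)
    (hR : R ≤ 4 * (h1 + h2 + h3 + h4 - 4 * hx + (u4 - u1) - hs) + (g1 + g2 + g3 + g4)
      - hw + hn) : Good2 u1 u2 u3 u4 := by
  refine ⟨n1, n2, n3, n4, R, ?_, ?_⟩
  · rw [k1, k2, k3, k4]; exact sp
  · have : ((n1 + n2 + n3 + n4 : ℤ) : ℝ) = N := by push_cast; rw [k1, k2, k3, k4, kN]
    rw [this, e1, e2, e3, e4, f1, f2, f3, f4, ex, es, ew, en]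
    exact hR

/-- the certificate is invariant under reflection -/
theorem good_refl {u1 u2 u3 u4 : ℝ} (h : Good (4 - u4) (4 - u3) (4 - u2) (4 - u1)) :
    Good u1 u2 u3 u4 := by
  obtain ⟨n4, n3, n2, n1, R, hs, hR⟩ := h
  have hH : ∀ u : ℝ, H (4 - u) = H u := by
    intro u
    have := H_add (-u) 1
    rw [H_neg] at this
    rw [← this]; congr 1; push_cast; ring
  refine ⟨4 - n1, 4 - n2, 4 - n3, 4 - n4, R, ?_, ?_⟩
  · unfold Spread at hs ⊢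
    push_cast
    obtain ⟨a, b, c, d, e, f, g, h, i, j, k, l⟩ := hs
    refine ⟨?_, ?_, ?_, ?_, ?_, ?_, ?_, ?_, ?_, ?_, ?_, ?_⟩ <;> linarith
  · set T := u1 + u2 + u3 + u4 with hT
    have t1 : 4 - u4 + (4 - u3) + (4 - u2) + (4 - u1) = -T + 4 * (4 : ℤ) := by
      rw [hT]; push_cast; ring
    rw [t1] at hR
    have q1 : H ((-T + 4 * ((4 : ℤ) : ℝ)) / 4) = H (T / 4) := by
      rw [← hH (T / 4)]; congr 1; push_cast; ring
    have q2 : H (-T + 4 * ((4 : ℤ) : ℝ)) = H T := by rw [H_add, H_neg]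
    have q3 : H (-T + 4 * ((4 : ℤ) : ℝ) - ((n4 + n3 + n2 + n1 : ℤ) : ℝ)) =
        H (T - ((4 - n1 + (4 - n2) + (4 - n3) + (4 - n4) : ℤ) : ℝ)) := by
      rw [← H_neg]; congr 1; push_cast; ring
    rw [q1, q2, q3, hH, hH, hH, hH] at hR
    linarith

theorem good2_refl {u1 u2 u3 u4 : ℝ} (h : Good2 (4 - u4) (4 - u3) (4 - u2) (4 - u1)) :
    Good2 u1 u2 u3 u4 := by
  obtain ⟨n4, n3, n2, n1, R, hs, hR⟩ := h
  have hH : ∀ u : ℝ, H (4 - u) = H u := by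
    intro u
    have := H_add (-u) 1
    rw [H_neg] at this
    rw [← this]; congr 1; push_cast; ring
  have hH4 : ∀ u : ℝ, H (4 * (4 - u)) = H (4 * u) := by
    intro u
    have := H_add (-(4 * u)) 4
    rw [H_neg] at this
    rw [← this]; congr 1; push_cast; ring
  refine ⟨16 - n1, 16 - n2, 16 - n3, 16 - n4, R, ?_, ?_⟩
  · unfold Spread at hs ⊢
    push_cast
    obtain ⟨a, b, c, d, e, f, g, h, i, j, k, l⟩ := hs
    refine ⟨?_, ?_, ?_, ?_, ?_, ?_, ?_, ?_, ?_, ?_, ?_, ?_⟩ <;> linarith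
  · set T := u1 + u2 + u3 + u4 with hT
    have t1 : 4 - u4 + (4 - u3) + (4 - u2) + (4 - u1) = -T + 4 * (4 : ℤ) := by
      rw [hT]; push_cast; ring
    rw [t1] at hR
    have q1 : H ((-T + 4 * ((4 : ℤ) : ℝ)) / 4) = H (T / 4) := by
      rw [← hH (T / 4)]; congr 1; push_cast; ring
    have q2 : H (-T + 4 * ((4 : ℤ) : ℝ)) = H T := by rw [H_add, H_neg]
    have q4 : H (4 * (-T + 4 * ((4 : ℤ) : ℝ))) = H (4 * T) := by
      have := H_add (-(4 * T)) 16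
      rw [H_neg] at this
      rw [← this]; congr 1; push_cast; ring
    have q3 : H (4 * (-T + 4 * ((4 : ℤ) : ℝ)) - ((n4 + n3 + n2 + n1 : ℤ) : ℝ)) =
        H (4 * T - ((16 - n1 + (16 - n2) + (16 - n3) + (16 - n4) : ℤ) : ℝ)) := by
      rw [← H_neg]; congr 1; push_cast; ring
    rw [q1, q2, q3, q4, hH, hH, hH, hH, hH4, hH4, hH4, hH4] at hR
    linarith

end Pool.Agent.W401.WC
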