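import Pool.Agent.W401.WC.Mk
set_option autoImplicit false
namespace Pool.Agent.W401.WC

theorem spread_one {u1 u2 u3 u4 m1 m2 m3 m4 : ℝ} (a1 : m1 ≤ u1) (b1 : u1 ≤ m1 + 1)
    (a2 : m2 ≤ u2) (b2 : u2 ≤ m2 + 1) (a3 : m3 ≤ u3) (b3 : u3 ≤ m3 + 1)
    (a4 : m4 ≤ u4) (b4 : u4 ≤ m4 + 1) :
    Spread (u1 - m1) (u2 - m2) (u3 - m3) (u4 - m4) 1 := by
  refine ⟨?_, ?_, ?_, ?_, ?_, ?_, ?_, ?_, ?_, ?_, ?_, ?_⟩ <;> linarith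

end Pool.Agent.W401.WC
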