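import Pool.Agent.W401.WC.Hk
set_option autoImplicit false
set_option linter.all false
namespace Pool.Agent.W401.WC

theorem lf_0_0_0_3_4_8 (u1 u2 u3 u4 T : ℝ) (hT : T = u1 + u2 + u3 + u4) (a1 : 0 ≤ u1) (b1 : u1 ≤ (1 / 4)) (a2 : 0 ≤ u2) (b2 : u2 ≤ (1 / 4)) (a3 : (3 / 4) ≤ u3) (b3 : u3 ≤ 1) (a4 : 1 ≤ u4) (b4 : u4 ≤ (5 / 4)) (lo : 2 ≤ T) (hi : T ≤ (9 / 4)) (o1 : u1 ≤ u2) (o2 : u2 ≤ u3) (o3 : u3 ≤ u4) : Good u1 u2 u3 u4 ∨ Good2 u1 u2 u3 u4 := by
  have e1 : H u1 = u1 - 0 := hk_0 (by linarith only [a1]) (by linarith only [b1])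
  have f1 : H (4 * u1) = (4 * u1) - 0 := hk_0 (by linarith only [a1]) (by linarith only [b1])
  have e2 : H u2 = u2 - 0 := hk_0 (by linarith only [a2]) (by linarith only [b2])
  have f2 : H (4 * u2) = (4 * u2) - 0 := hk_0 (by linarith only [a2]) (by linarith only [b2])
  have e3 : H u3 = u3 - 0 := hk_0 (by linarith only [a3]) (by linarith only [b3])
  have f3 : H (4 * u3) = 4 - (4 * u3) := hk_3 (by linarith only [a3]) (by linarith only [b3])
  have e4 : H u4 = 1 := hk_1 (by linarith only [a4]) (by linarith only [b4])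
  have f4 : H (4 * u4) = (4 * u4) - 4 := hk_4 (by linarith only [a4]) (by linarith only [b4])
  have hX : H (T / 4) = (T / 4) - 0 := hk_0 (by linarith only [lo]) (by linarith only [hi])
  have hS : H T = 1 := hk_2 (by linarith only [lo]) (by linarith only [hi])
  have hW : H (4 * T) = (4 * T) - 8 := hk_8 (by linarith only [lo]) (by linarith only [hi])
  have hN : H (4 * T - 8) = (4 * T - 8) - 0 := hk_0 (by linarith only [lo]) (by linarith only [hi])
  exact good2_T hT zk_0 zk_0 zk_4 zk_4 (by norm_num) e1 e2 e3 e4 f1 f2 f3 f4 hX hS hW hN (R := (4 * u2 + (-4) * u3 + 4 * u4)) ⟨(by linarith only [hT, a1, o1, o3]), (by linarith only [hT, a4, o1]), (by linarith only [hT, b3, a4, o1]), (by linarith only [hT, a1, o3]), (by linarith only [hT, a4]), (by linarith only [hT, b3, a4]), (by linarith only [hT, b3, lo]), (by linarith only [hT, a2, b3, a4]), (by linarith only [hT, a2, o3]), (by linarith only [hT, a1, a2, b3]), (by linarith only [hT, a2, b3]), (by linarith only [hT, a2])⟩ (by linarith only [hT])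

theorem lf_0_0_0_3_4_9 (u1 u2 u3 u4 T : ℝ) (hT : T = u1 + u2 + u3 + u4) (a1 : 0 ≤ u1) (b1 : u1 ≤ (1 / 4)) (a2 : 0 ≤ u2) (b2 : u2 ≤ (1 / 4)) (a3 : (3 / 4) ≤ u3) (b3 : u3 ≤ 1) (a4 : 1 ≤ u4) (b4 : u4 ≤ (5 / 4)) (lo : (9 / 4) ≤ T) (hi : T ≤ (5 / 2)) (o1 : u1 ≤ u2) (o2 : u2 ≤ u3) (o3 : u3 ≤ u4) : Good u1 u2 u3 u4 ∨ Good2 u1 u2 u3 u4 := by
  have e1 : H u1 = u1 - 0 := hk_0 (by linarith only [a1]) (by linarith only [b1])
  have f1 : H (4 * u1) = (4 * u1) - 0 := hk_0 (by linarith only [a1]) (by linarith only [b1])
  have e2 : H u2 = u2 - 0 := hk_0 (by linarith only [a2]) (by linarith only [b2])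
  have f2 : H (4 * u2) = (4 * u2) - 0 := hk_0 (by linarith only [a2]) (by linarith only [b2])
  have e3 : H u3 = u3 - 0 := hk_0 (by linarith only [a3]) (by linarith only [b3])
  have f3 : H (4 * u3) = 4 - (4 * u3) := hk_3 (by linarith only [a3]) (by linarith only [b3])
  have e4 : H u4 = 1 := hk_1 (by linarith only [a4]) (by linarith only [b4])
  have f4 : H (4 * u4) = (4 * u4) - 4 := hk_4 (by linarith only [a4]) (by linarith only [b4])
  have hX : H (T / 4) = (T / 4) - 0 := hk_0 (by linarith only [lo]) (by linarith only [hi])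
  have hS : H T = 1 := hk_2 (by linarith only [lo]) (by linarith only [hi])
  have hW : H (4 * T) = 1 := hk_9 (by linarith only [lo]) (by linarith only [hi])
  have hN : H (4 * T - 8) = 1 := hk_1 (by linarith only [lo]) (by linarith only [hi])
  exact good2_T hT zk_0 zk_0 zk_4 zk_4 (by norm_num) e1 e2 e3 e4 f1 f2 f3 f4 hX hS hW hN (R := (4 * u2 + (-4) * u3 + 4 * u4)) ⟨(by linarith only [hT, b3, a4, o1, lo]), (by linarith only [hT, a4, o1]), (by linarith only [hT, b3, a4, o1]), (by linarith only [hT, a1, o3]), (by linarith only [hT, a4]), (by linarith only [hT, b3, a4]), (by linarith only [hT, b3, lo]), (by linarith only [hT, b3, o1, lo]), (by linarith only [hT, b3, a4, o1, lo]), (by linarith only [hT, a1, a2, b3]), (by linarith only [hT, a2, b3]), (by linarith only [hT, a2])⟩ (by linarith only [hT])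

theorem lf_0_0_0_3_4_10 (u1 u2 u3 u4 T : ℝ) (hT : T = u1 + u2 + u3 + u4) (a1 : 0 ≤ u1) (b1 : u1 ≤ (1 / 4)) (a2 : 0 ≤ u2) (b2 : u2 ≤ (1 / 4)) (a3 : (3 / 4) ≤ u3) (b3 : u3 ≤ 1) (a4 : 1 ≤ u4) (b4 : u4 ≤ (5 / 4)) (lo : (5 / 2) ≤ T) (hi : T ≤ (11 / 4)) (o1 : u1 ≤ u2) (o2 : u2 ≤ u3) (o3 : u3 ≤ u4) : Good u1 u2 u3 u4 ∨ Good2 u1 u2 u3 u4 := by
  have e1 : H u1 = u1 - 0 := hk_0 (by linarith only [a1]) (by linarith only [b1])
  have f1 : H (4 * u1) = (4 * u1) - 0 := hk_0 (by linarith only [a1]) (by linarith only [b1])
  have e2 : H u2 = u2 - 0 := hk_0 (by linarith only [a2]) (by linarith only [b2])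
  have f2 : H (4 * u2) = (4 * u2) - 0 := hk_0 (by linarith only [a2]) (by linarith only [b2])
  have e3 : H u3 = u3 - 0 := hk_0 (by linarith only [a3]) (by linarith only [b3])
  have f3 : H (4 * u3) = 4 - (4 * u3) := hk_3 (by linarith only [a3]) (by linarith only [b3])
  have e4 : H u4 = 1 := hk_1 (by linarith only [a4]) (by linarith only [b4])
  have f4 : H (4 * u4) = (4 * u4) - 4 := hk_4 (by linarith only [a4]) (by linarith only [b4])
  have hX : H (T / 4) = (T / 4) - 0 := hk_0 (by linarith only [lo]) (by linarith only [hi])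
  have hS : H T = 1 := hk_2 (by linarith only [lo]) (by linarith only [hi])
  have hW : H (4 * T) = 1 := hk_10 (by linarith only [lo]) (by linarith only [hi])
  have hN : H (4 * T - 4) = 1 := hk_6 (by linarith only [lo]) (by linarith only [hi])
  exact good2_T hT zk_0 zk_m1 zk_2 zk_3 (by norm_num) e1 e2 e3 e4 f1 f2 f3 f4 hX hS hW hN (R := (4 * u2 + (-4) * u3 + 4 * u4)) ⟨(by linarith only [hT, b1, b3, o1, lo]), (by linarith only [hT, a4, o1]), (by linarith only [hT, b3, a4, o1]), (by linarith only [hT, b2, b3, lo]), (by linarith only [hT, a4]), (by linarith only [hT, b3, a4]), (by linarith only [hT, b3, lo]), (by linarith only [hT, b3, o1, lo]), (by linarith only [hT, b1, b2, b3, lo]), (by linarith only [hT, b3, b4, lo]), (by linarith only [hT, b3, b4, o1, lo]), (by linarith only [hT, b3, b4, o1, lo])⟩ (by linarith only [hT])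

theorem lf_0_0_1_3_4_9 (u1 u2 u3 u4 T : ℝ) (hT : T = u1 + u2 + u3 + u4) (a1 : 0 ≤ u1) (b1 : u1 ≤ (1 / 4)) (a2 : (1 / 4) ≤ u2) (b2 : u2 ≤ (1 / 2)) (a3 : (3 / 4) ≤ u3) (b3 : u3 ≤ 1) (a4 : 1 ≤ u4) (b4 : u4 ≤ (5 / 4)) (lo : (9 / 4) ≤ T) (hi : T ≤ (5 / 2)) (o1 : u1 ≤ u2) (o2 : u2 ≤ u3) (o3 : u3 ≤ u4) : Good u1 u2 u3 u4 ∨ Good2 u1 u2 u3 u4 := by
  have e1 : H u1 = u1 - 0 := hk_0 (by linarith only [a1]) (by linarith only [b1])
  have f1 : H (4 * u1) = (4 * u1) - 0 := hk_0 (by linarith only [a1]) (by linarith only [b1])
  have e2 : H u2 = u2 - 0 := hk_0 (by linarith only [a2]) (by linarith only [b2])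
  have f2 : H (4 * u2) = 1 := hk_1 (by linarith only [a2]) (by linarith only [b2])
  have e3 : H u3 = u3 - 0 := hk_0 (by linarith only [a3]) (by linarith only [b3])
  have f3 : H (4 * u3) = 4 - (4 * u3) := hk_3 (by linarith only [a3]) (by linarith only [b3])
  have e4 : H u4 = 1 := hk_1 (by linarith only [a4]) (by linarith only [b4])
  have f4 : H (4 * u4) = (4 * u4) - 4 := hk_4 (by linarith only [a4]) (by linarith only [b4])
  have hX : H (T / 4) = (T / 4) - 0 := hk_0 (by linarith only [lo]) (by linarith only [hi])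
  have hS : H T = 1 := hk_2 (by linarith only [lo]) (by linarith only [hi])
  have hW : H (4 * T) = 1 := hk_9 (by linarith only [lo]) (by linarith only [hi])
  have hN : H (4 * T - 7) = 1 := hk_2 (by linarith only [lo]) (by linarith only [hi])
  exact good2_T hT zk_0 zk_1 zk_3 zk_3 (by norm_num) e1 e2 e3 e4 f1 f2 f3 f4 hX hS hW hN (R := ((-4) * u3 + 4 * u4 + 1)) ⟨(by linarith only [hT, o1, o3]), (by linarith only [hT, b1, a4]), (by linarith only [hT, b1, b3, a4]), (by linarith only [hT, a1, b2, o3]), (by linarith only [hT, b2, a4]), (by linarith only [hT, b2, b3, a4]), (by linarith only [hT, a1, b3, a4]), (by linarith only [hT, a2, b3, a4]), (by linarith only [hT, o3]), (by linarith only [hT, a1, b3]), (by linarith only [hT, a2, b3]), (by linarith only [hT])⟩ (by linarith only [hT])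

theorem lf_0_0_1_3_4_10 (u1 u2 u3 u4 T : ℝ) (hT : T = u1 + u2 + u3 + u4) (a1 : 0 ≤ u1) (b1 : u1 ≤ (1 / 4)) (a2 : (1 / 4) ≤ u2) (b2 : u2 ≤ (1 / 2)) (a3 : (3 / 4) ≤ u3) (b3 : u3 ≤ 1) (a4 : 1 ≤ u4) (b4 : u4 ≤ (5 / 4)) (lo : (5 / 2) ≤ T) (hi : T ≤ (11 / 4)) (o1 : u1 ≤ u2) (o2 : u2 ≤ u3) (o3 : u3 ≤ u4) : Good u1 u2 u3 u4 ∨ Good2 u1 u2 u3 u4 := by
  have e1 : H u1 = u1 - 0 := hk_0 (by linarith only [a1]) (by linarith only [b1])
  have f1 : H (4 * u1) = (4 * u1) - 0 := hk_0 (by linarith only [a1]) (by linarith only [b1])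
  have e2 : H u2 = u2 - 0 := hk_0 (by linarith only [a2]) (by linarith only [b2])
  have f2 : H (4 * u2) = 1 := hk_1 (by linarith only [a2]) (by linarith only [b2])
  have e3 : H u3 = u3 - 0 := hk_0 (by linarith only [a3]) (by linarith only [b3])
  have f3 : H (4 * u3) = 4 - (4 * u3) := hk_3 (by linarith only [a3]) (by linarith only [b3])
  have e4 : H u4 = 1 := hk_1 (by linarith only [a4]) (by linarith only [b4])
  have f4 : H (4 * u4) = (4 * u4) - 4 := hk_4 (by linarith only [a4]) (by linarith only [b4])
  have hX : H (T / 4) = (T / 4) - 0 := hk_0 (by linarith only [lo]) (by linarith only [hi])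
  have hS : H T = 1 := hk_2 (by linarith only [lo]) (by linarith only [hi])
  have hW : H (4 * T) = 1 := hk_10 (by linarith only [lo]) (by linarith only [hi])
  have hN : H (4 * T - 8) = 1 := hk_2 (by linarith only [lo]) (by linarith only [hi])
  exact good2_T hT zk_0 zk_1 zk_3 zk_4 (by norm_num) e1 e2 e3 e4 f1 f2 f3 f4 hX hS hW hN (R := ((-4) * u3 + 4 * u4 + 1)) ⟨(by linarith only [hT, o1, o3]), (by linarith only [hT, b1, a4]), (by linarith only [hT, b1, b3, a4]), (by linarith only [hT, a1, b2, o3]), (by linarith only [hT, b2, a4]), (by linarith only [hT, b2, b3, a4]), (by linarith only [hT, a1, b3, a4]), (by linarith only [hT, a2, b3, a4]), (by linarith only [hT, o3]), (by linarith only [hT, a1, b3]), (by linarith only [hT, a2, b3]), (by linarith only [hT])⟩ (by linarith only [hT])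

theorem lf_0_0_1_3_4_11 (u1 u2 u3 u4 T : ℝ) (hT : T = u1 + u2 + u3 + u4) (a1 : 0 ≤ u1) (b1 : u1 ≤ (1 / 4)) (a2 : (1 / 4) ≤ u2) (b2 : u2 ≤ (1 / 2)) (a3 : (3 / 4) ≤ u3) (b3 : u3 ≤ 1) (a4 : 1 ≤ u4) (b4 : u4 ≤ (5 / 4)) (lo : (11 / 4) ≤ T) (hi : T ≤ 3) (o1 : u1 ≤ u2) (o2 : u2 ≤ u3) (o3 : u3 ≤ u4) : Good u1 u2 u3 u4 ∨ Good2 u1 u2 u3 u4 := by
  have e1 : H u1 = u1 - 0 := hk_0 (by linarith only [a1]) (by linarith only [b1])
  have f1 : H (4 * u1) = (4 * u1) - 0 := hk_0 (by linarith only [a1]) (by linarith only [b1])
  have e2 : H u2 = u2 - 0 := hk_0 (by linarith only [a2]) (by linarith only [b2])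
  have f2 : H (4 * u2) = 1 := hk_1 (by linarith only [a2]) (by linarith only [b2])
  have e3 : H u3 = u3 - 0 := hk_0 (by linarith only [a3]) (by linarith only [b3])
  have f3 : H (4 * u3) = 4 - (4 * u3) := hk_3 (by linarith only [a3]) (by linarith only [b3])
  have e4 : H u4 = 1 := hk_1 (by linarith only [a4]) (by linarith only [b4])
  have f4 : H (4 * u4) = (4 * u4) - 4 := hk_4 (by linarith only [a4]) (by linarith only [b4])
  have hX : H (T / 4) = (T / 4) - 0 := hk_0 (by linarith only [lo]) (by linarith only [hi])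
  have hS : H T = 1 := hk_2 (by linarith only [lo]) (by linarith only [hi])
  have hW : H (4 * T) = 12 - (4 * T) := hk_11 (by linarith only [lo]) (by linarith only [hi])
  have hN : H (4 * T - 5) = 1 := hk_6 (by linarith only [lo]) (by linarith only [hi])
  exact good2_T hT zk_0 zk_0 zk_2 zk_3 (by norm_num) e1 e2 e3 e4 f1 f2 f3 f4 hX hS hW hN (R := (4 * u1 + 4 * u2 + 8 * u4 + (-10))) ⟨(by linarith only [hT, b1, b3, lo]), (by linarith only [hT, b1, a4, lo]), (by linarith only [hT, b1, b2, b3, lo]), (by linarith only [hT, b2, b3, lo]), (by linarith only [hT, b2, a4, lo]), (by linarith only [hT, b1, b2, b3, lo]), (by linarith only [hT, b2, b3, lo]), (by linarith only [hT, b1, b3, lo]), (by linarith only [hT, o3, lo]), (by linarith only [hT, a1, b3, lo]), (by linarith only [hT, a2, b3, lo]), (by linarith only [hT, lo])⟩ (by linarith only [hT])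

theorem lf_0_0_2_3_4_10 (u1 u2 u3 u4 T : ℝ) (hT : T = u1 + u2 + u3 + u4) (a1 : 0 ≤ u1) (b1 : u1 ≤ (1 / 4)) (a2 : (1 / 2) ≤ u2) (b2 : u2 ≤ (3 / 4)) (a3 : (3 / 4) ≤ u3) (b3 : u3 ≤ 1) (a4 : 1 ≤ u4) (b4 : u4 ≤ (5 / 4)) (lo : (5 / 2) ≤ T) (hi : T ≤ (11 / 4)) (o1 : u1 ≤ u2) (o2 : u2 ≤ u3) (o3 : u3 ≤ u4) : Good u1 u2 u3 u4 ∨ Good2 u1 u2 u3 u4 := by
  have e1 : H u1 = u1 - 0 := hk_0 (by linarith only [a1]) (by linarith only [b1])
  have f1 : H (4 * u1) = (4 * u1) - 0 := hk_0 (by linarith only [a1]) (by linarith only [b1])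
  have e2 : H u2 = u2 - 0 := hk_0 (by linarith only [a2]) (by linarith only [b2])
  have f2 : H (4 * u2) = 1 := hk_2 (by linarith only [a2]) (by linarith only [b2])
  have e3 : H u3 = u3 - 0 := hk_0 (by linarith only [a3]) (by linarith only [b3])
  have f3 : H (4 * u3) = 4 - (4 * u3) := hk_3 (by linarith only [a3]) (by linarith only [b3])
  have e4 : H u4 = 1 := hk_1 (by linarith only [a4]) (by linarith only [b4])
  have f4 : H (4 * u4) = (4 * u4) - 4 := hk_4 (by linarith only [a4]) (by linarith only [b4])
  have hX : H (T / 4) = (T / 4) - 0 := hk_0 (by linarith only [lo]) (by linarith only [hi])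
  have hS : H T = 1 := hk_2 (by linarith only [lo]) (by linarith only [hi])
  have hW : H (4 * T) = 1 := hk_10 (by linarith only [lo]) (by linarith only [hi])
  have hN : H (4 * T - 8) = 1 := hk_2 (by linarith only [lo]) (by linarith only [hi])
  exact good2_T hT zk_0 zk_2 zk_3 zk_3 (by norm_num) e1 e2 e3 e4 f1 f2 f3 f4 hX hS hW hN (R := ((-4) * u3 + 4 * u4 + 1)) ⟨(by linarith only [hT, b1, a2, o3]), (by linarith only [hT, b1, a4]), (by linarith only [hT, b1, b3, a4]), (by linarith only [hT, a1, b2, o3]), (by linarith only [hT, b2, a4]), (by linarith only [hT, b2, b3, a4]), (by linarith only [hT, a1, b3, a4]), (by linarith only [hT, a2, b3, a4]), (by linarith only [hT, o3]), (by linarith only [hT, a1, b3]), (by linarith only [hT, a2, b3]), (by linarith only [hT])⟩ (by linarith only [hT])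

theorem lf_0_0_2_3_4_11 (u1 u2 u3 u4 T : ℝ) (hT : T = u1 + u2 + u3 + u4) (a1 : 0 ≤ u1) (b1 : u1 ≤ (1 / 4)) (a2 : (1 / 2) ≤ u2) (b2 : u2 ≤ (3 / 4)) (a3 : (3 / 4) ≤ u3) (b3 : u3 ≤ 1) (a4 : 1 ≤ u4) (b4 : u4 ≤ (5 / 4)) (lo : (11 / 4) ≤ T) (hi : T ≤ 3) (o1 : u1 ≤ u2) (o2 : u2 ≤ u3) (o3 : u3 ≤ u4) : Good u1 u2 u3 u4 ∨ Good2 u1 u2 u3 u4 := by
  have e1 : H u1 = u1 - 0 := hk_0 (by linarith only [a1]) (by linarith only [b1])
  have f1 : H (4 * u1) = (4 * u1) - 0 := hk_0 (by linarith only [a1]) (by linarith only [b1])
  have e2 : H u2 = u2 - 0 := hk_0 (by linarith only [a2]) (by linarith only [b2])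
  have f2 : H (4 * u2) = 1 := hk_2 (by linarith only [a2]) (by linarith only [b2])
  have e3 : H u3 = u3 - 0 := hk_0 (by linarith only [a3]) (by linarith only [b3])
  have f3 : H (4 * u3) = 4 - (4 * u3) := hk_3 (by linarith only [a3]) (by linarith only [b3])
  have e4 : H u4 = 1 := hk_1 (by linarith only [a4]) (by linarith only [b4])
  have f4 : H (4 * u4) = (4 * u4) - 4 := hk_4 (by linarith only [a4]) (by linarith only [b4])
  have hX : H (T / 4) = (T / 4) - 0 := hk_0 (by linarith only [lo]) (by linarith only [hi])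
  have hS : H T = 1 := hk_2 (by linarith only [lo]) (by linarith only [hi])
  have hW : H (4 * T) = 12 - (4 * T) := hk_11 (by linarith only [lo]) (by linarith only [hi])
  have hN : H (4 * T - 8) = 4 - (4 * T - 8) := hk_3 (by linarith only [lo]) (by linarith only [hi])
  exact good2_T hT zk_0 zk_2 zk_3 zk_3 (by norm_num) e1 e2 e3 e4 f1 f2 f3 f4 hX hS hW hN (R := ((-4) * u3 + 4 * u4 + 1)) ⟨(by linarith only [hT, b1, a2, o3]), (by linarith only [hT, b1, a4]), (by linarith only [hT, b1, b3, a4]), (by linarith only [hT, a1, b2, o3]), (by linarith only [hT, b2, a4]), (by linarith only [hT, b2, b3, a4]), (by linarith only [hT, a1, b3, a4]), (by linarith only [hT, a2, b3, a4]), (by linarith only [hT, o3]), (by linarith only [hT, a1, b3]), (by linarith only [hT, a2, b3]), (by linarith only [hT])⟩ (by linarith only [hT])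

theorem lf_0_0_3_3_4_11 (u1 u2 u3 u4 T : ℝ) (hT : T = u1 + u2 + u3 + u4) (a1 : 0 ≤ u1) (b1 : u1 ≤ (1 / 4)) (a2 : (3 / 4) ≤ u2) (b2 : u2 ≤ 1) (a3 : (3 / 4) ≤ u3) (b3 : u3 ≤ 1) (a4 : 1 ≤ u4) (b4 : u4 ≤ (5 / 4)) (lo : (11 / 4) ≤ T) (hi : T ≤ 3) (o1 : u1 ≤ u2) (o2 : u2 ≤ u3) (o3 : u3 ≤ u4) : Good u1 u2 u3 u4 ∨ Good2 u1 u2 u3 u4 := by
  have e1 : H u1 = u1 - 0 := hk_0 (by linarith only [a1]) (by linarith only [b1])
  have f1 : H (4 * u1) = (4 * u1) - 0 := hk_0 (by linarith only [a1]) (by linarith only [b1])
  have e2 : H u2 = u2 - 0 := hk_0 (by linarith only [a2]) (by linarith only [b2])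
  have f2 : H (4 * u2) = 4 - (4 * u2) := hk_3 (by linarith only [a2]) (by linarith only [b2])
  have e3 : H u3 = u3 - 0 := hk_0 (by linarith only [a3]) (by linarith only [b3])
  have f3 : H (4 * u3) = 4 - (4 * u3) := hk_3 (by linarith only [a3]) (by linarith only [b3])
  have e4 : H u4 = 1 := hk_1 (by linarith only [a4]) (by linarith only [b4])
  have f4 : H (4 * u4) = (4 * u4) - 4 := hk_4 (by linarith only [a4]) (by linarith only [b4])
  have hX : H (T / 4) = (T / 4) - 0 := hk_0 (by linarith only [lo]) (by linarith only [hi])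
  have hS : H T = 1 := hk_2 (by linarith only [lo]) (by linarith only [hi])
  have hW : H (4 * T) = 12 - (4 * T) := hk_11 (by linarith only [lo]) (by linarith only [hi])
  have hN : H (4 * T - 9) = 1 := hk_2 (by linarith only [lo]) (by linarith only [hi])
  exact good2_T hT zk_0 zk_3 zk_3 zk_3 (by norm_num) e1 e2 e3 e4 f1 f2 f3 f4 hX hS hW hN (R := (4 * u1 + 8 * u4 + (-7))) ⟨(by linarith only [hT, a2, a4]), (by linarith only [hT, a3, a4]), (by linarith only [hT, a4]), (by linarith only [hT, a1, b2, a4]), (by linarith only [hT, a1, a4, o2]), (by linarith only [hT, a1, b2, a4]), (by linarith only [hT, a1, b3, a4]), (by linarith only [hT, b3, a4, lo]), (by linarith only [hT, a1, b3, a4]), (by linarith only [hT, a1, a4]), (by linarith only [hT, b3, lo]), (by linarith only [hT, a1, a4, o2, lo])⟩ (by linarith only [hT])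

theorem lf_0_1_1_2_4_9 (u1 u2 u3 u4 T : ℝ) (hT : T = u1 + u2 + u3 + u4) (a1 : (1 / 4) ≤ u1) (b1 : u1 ≤ (1 / 2)) (a2 : (1 / 4) ≤ u2) (b2 : u2 ≤ (1 / 2)) (a3 : (1 / 2) ≤ u3) (b3 : u3 ≤ (3 / 4)) (a4 : 1 ≤ u4) (b4 : u4 ≤ (5 / 4)) (lo : (9 / 4) ≤ T) (hi : T ≤ (5 / 2)) (o1 : u1 ≤ u2) (o2 : u2 ≤ u3) (o3 : u3 ≤ u4) : Good u1 u2 u3 u4 ∨ Good2 u1 u2 u3 u4 := by
  have e1 : H u1 = u1 - 0 := hk_0 (by linarith only [a1]) (by linarith only [b1])
  have f1 : H (4 * u1) = 1 := hk_1 (by linarith only [a1]) (by linarith only [b1])
  have e2 : H u2 = u2 - 0 := hk_0 (by linarith only [a2]) (by linarith only [b2])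
  have f2 : H (4 * u2) = 1 := hk_1 (by linarith only [a2]) (by linarith only [b2])
  have e3 : H u3 = u3 - 0 := hk_0 (by linarith only [a3]) (by linarith only [b3])
  have f3 : H (4 * u3) = 1 := hk_2 (by linarith only [a3]) (by linarith only [b3])
  have e4 : H u4 = 1 := hk_1 (by linarith only [a4]) (by linarith only [b4])
  have f4 : H (4 * u4) = (4 * u4) - 4 := hk_4 (by linarith only [a4]) (by linarith only [b4])
  have hX : H (T / 4) = (T / 4) - 0 := hk_0 (by linarith only [lo]) (by linarith only [hi])
  have hS : H T = 1 := hk_2 (by linarith only [lo]) (by linarith only [hi])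
  have hW : H (4 * T) = 1 := hk_9 (by linarith only [lo]) (by linarith only [hi])
  have hN : H (4 * T - 4) = 1 := hk_5 (by linarith only [lo]) (by linarith only [hi])
  exact good2_T hT zk_1 zk_0 zk_1 zk_2 (by norm_num) e1 e2 e3 e4 f1 f2 f3 f4 hX hS hW hN (R := ((-4) * u1 + 4 * u4 + (-1))) ⟨(by linarith only [hT, b1, a4, o1]), (by linarith only [hT, b1, a3, a4]), (by linarith only [hT, b1, a4]), (by linarith only [hT, b2, a4]), (by linarith only [hT, b1, a4, o2]), (by linarith only [hT, b1, b2, a4]), (by linarith only [hT, b3, a4]), (by linarith only [hT, b3, a4, o1]), (by linarith only [hT, b3, a4, o1, hi]), (by linarith only [hT]), (by linarith only [hT, o1]), (by linarith only [hT, b1, a3])⟩ (by linarith only [hT])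

theorem lf_0_1_1_2_4_10 (u1 u2 u3 u4 T : ℝ) (hT : T = u1 + u2 + u3 + u4) (a1 : (1 / 4) ≤ u1) (b1 : u1 ≤ (1 / 2)) (a2 : (1 / 4) ≤ u2) (b2 : u2 ≤ (1 / 2)) (a3 : (1 / 2) ≤ u3) (b3 : u3 ≤ (3 / 4)) (a4 : 1 ≤ u4) (b4 : u4 ≤ (5 / 4)) (lo : (5 / 2) ≤ T) (hi : T ≤ (11 / 4)) (o1 : u1 ≤ u2) (o2 : u2 ≤ u3) (o3 : u3 ≤ u4) : Good u1 u2 u3 u4 ∨ Good2 u1 u2 u3 u4 := by
  have e1 : H u1 = u1 - 0 := hk_0 (by linarith only [a1]) (by linarith only [b1])
  have f1 : H (4 * u1) = 1 := hk_1 (by linarith only [a1]) (by linarith only [b1])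
  have e2 : H u2 = u2 - 0 := hk_0 (by linarith only [a2]) (by linarith only [b2])
  have f2 : H (4 * u2) = 1 := hk_1 (by linarith only [a2]) (by linarith only [b2])
  have e3 : H u3 = u3 - 0 := hk_0 (by linarith only [a3]) (by linarith only [b3])
  have f3 : H (4 * u3) = 1 := hk_2 (by linarith only [a3]) (by linarith only [b3])
  have e4 : H u4 = 1 := hk_1 (by linarith only [a4]) (by linarith only [b4])
  have f4 : H (4 * u4) = (4 * u4) - 4 := hk_4 (by linarith only [a4]) (by linarith only [b4])
  have hX : H (T / 4) = (T / 4) - 0 := hk_0 (by linarith only [lo]) (by linarith only [hi])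
  have hS : H T = 1 := hk_2 (by linarith only [lo]) (by linarith only [hi])
  have hW : H (4 * T) = 1 := hk_10 (by linarith only [lo]) (by linarith only [hi])
  have hN : H (4 * T - 4) = 1 := hk_6 (by linarith only [lo]) (by linarith only [hi])
  exact good2_T hT zk_1 zk_0 zk_1 zk_2 (by norm_num) e1 e2 e3 e4 f1 f2 f3 f4 hX hS hW hN (R := ((-4) * u1 + 4 * u4 + (-1))) ⟨(by linarith only [hT, b1, a4, o1]), (by linarith only [hT, b1, a3, a4]), (by linarith only [hT, b1, a4]), (by linarith only [hT, b2, a4]), (by linarith only [hT, b1, b2, lo]), (by linarith only [hT, b1, b2, a4]), (by linarith only [hT, b3, a4]), (by linarith only [hT, b3, a4, o1]), (by linarith only [hT, b1, b3, a4]), (by linarith only [hT]), (by linarith only [hT, o1]), (by linarith only [hT, b1, a3])⟩ (by linarith only [hT])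

theorem lf_0_1_1_2_4_11 (u1 u2 u3 u4 T : ℝ) (hT : T = u1 + u2 + u3 + u4) (a1 : (1 / 4) ≤ u1) (b1 : u1 ≤ (1 / 2)) (a2 : (1 / 4) ≤ u2) (b2 : u2 ≤ (1 / 2)) (a3 : (1 / 2) ≤ u3) (b3 : u3 ≤ (3 / 4)) (a4 : 1 ≤ u4) (b4 : u4 ≤ (5 / 4)) (lo : (11 / 4) ≤ T) (hi : T ≤ 3) (o1 : u1 ≤ u2) (o2 : u2 ≤ u3) (o3 : u3 ≤ u4) : Good u1 u2 u3 u4 ∨ Good2 u1 u2 u3 u4 := by
  have e1 : H u1 = u1 - 0 := hk_0 (by linarith only [a1]) (by linarith only [b1])
  have f1 : H (4 * u1) = 1 := hk_1 (by linarith only [a1]) (by linarith only [b1])
  have e2 : H u2 = u2 - 0 := hk_0 (by linarith only [a2]) (by linarith only [b2])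
  have f2 : H (4 * u2) = 1 := hk_1 (by linarith only [a2]) (by linarith only [b2])
  have e3 : H u3 = u3 - 0 := hk_0 (by linarith only [a3]) (by linarith only [b3])
  have f3 : H (4 * u3) = 1 := hk_2 (by linarith only [a3]) (by linarith only [b3])
  have e4 : H u4 = 1 := hk_1 (by linarith only [a4]) (by linarith only [b4])
  have f4 : H (4 * u4) = (4 * u4) - 4 := hk_4 (by linarith only [a4]) (by linarith only [b4])
  have hX : H (T / 4) = (T / 4) - 0 := hk_0 (by linarith only [lo]) (by linarith only [hi])
  have hS : H T = 1 := hk_2 (by linarith only [lo]) (by linarith only [hi])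
  have hW : H (4 * T) = 12 - (4 * T) := hk_11 (by linarith only [lo]) (by linarith only [hi])
  have hN : H (4 * T - 4) = 8 - (4 * T - 4) := hk_7 (by linarith only [lo]) (by linarith only [hi])
  exact good2_T hT zk_1 zk_0 zk_1 zk_2 (by norm_num) e1 e2 e3 e4 f1 f2 f3 f4 hX hS hW hN (R := ((-4) * u1 + 4 * u4 + (-1))) ⟨(by linarith only [hT, b1, b3, lo]), (by linarith only [hT, b1, b2, lo]), (by linarith only [hT, b1, a4]), (by linarith only [hT, b2, a4]), (by linarith only [hT, b1, b2, lo]), (by linarith only [hT, b1, b2, a4]), (by linarith only [hT, b3, a4]), (by linarith only [hT, b1, b3, lo]), (by linarith only [hT, b1, b3, a4]), (by linarith only [hT]), (by linarith only [hT, o1]), (by linarith only [hT, b1, a3])⟩ (by linarith only [hT])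

theorem lf_0_1_1_3_4_9 (u1 u2 u3 u4 T : ℝ) (hT : T = u1 + u2 + u3 + u4) (a1 : (1 / 4) ≤ u1) (b1 : u1 ≤ (1 / 2)) (a2 : (1 / 4) ≤ u2) (b2 : u2 ≤ (1 / 2)) (a3 : (3 / 4) ≤ u3) (b3 : u3 ≤ 1) (a4 : 1 ≤ u4) (b4 : u4 ≤ (5 / 4)) (lo : (9 / 4) ≤ T) (hi : T ≤ (5 / 2)) (o1 : u1 ≤ u2) (o2 : u2 ≤ u3) (o3 : u3 ≤ u4) : Good u1 u2 u3 u4 ∨ Good2 u1 u2 u3 u4 := by
  have e1 : H u1 = u1 - 0 := hk_0 (by linarith only [a1]) (by linarith only [b1])
  have f1 : H (4 * u1) = 1 := hk_1 (by linarith only [a1]) (by linarith only [b1])
  have e2 : H u2 = u2 - 0 := hk_0 (by linarith only [a2]) (by linarith only [b2])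
  have f2 : H (4 * u2) = 1 := hk_1 (by linarith only [a2]) (by linarith only [b2])
  have e3 : H u3 = u3 - 0 := hk_0 (by linarith only [a3]) (by linarith only [b3])
  have f3 : H (4 * u3) = 4 - (4 * u3) := hk_3 (by linarith only [a3]) (by linarith only [b3])
  have e4 : H u4 = 1 := hk_1 (by linarith only [a4]) (by linarith only [b4])
  have f4 : H (4 * u4) = (4 * u4) - 4 := hk_4 (by linarith only [a4]) (by linarith only [b4])
  have hX : H (T / 4) = (T / 4) - 0 := hk_0 (by linarith only [lo]) (by linarith only [hi])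
  have hS : H T = 1 := hk_2 (by linarith only [lo]) (by linarith only [hi])
  have hW : H (4 * T) = 1 := hk_9 (by linarith only [lo]) (by linarith only [hi])
  have hN : H (4 * T - 7) = 1 := hk_2 (by linarith only [lo]) (by linarith only [hi])
  exact good2_T hT zk_1 zk_0 zk_3 zk_3 (by norm_num) e1 e2 e3 e4 f1 f2 f3 f4 hX hS hW hN (R := ((-4) * u1 + (-4) * u3 + 4 * u4 + 2)) ⟨(by linarith only [hT, a1, a4, o1, hi]), (by linarith only [hT, a3, a4, o1, hi]), (by linarith only [hT, a4, o1, hi]), (by linarith only [hT, a1, a4, hi]), (by linarith only [hT, a3, a4, hi]), (by linarith only [hT, a4, hi]), (by linarith only [hT, b3, a4]), (by linarith only [hT, b3, a4, o1]), (by linarith only [hT, a1, a2, a4, hi]), (by linarith only [hT, b3]), (by linarith only [hT, b3, o1]), (by linarith only [hT, a3, a4, o1, hi])⟩ (by linarith only [hT])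

theorem lf_0_1_1_3_4_10 (u1 u2 u3 u4 T : ℝ) (hT : T = u1 + u2 + u3 + u4) (a1 : (1 / 4) ≤ u1) (b1 : u1 ≤ (1 / 2)) (a2 : (1 / 4) ≤ u2) (b2 : u2 ≤ (1 / 2)) (a3 : (3 / 4) ≤ u3) (b3 : u3 ≤ 1) (a4 : 1 ≤ u4) (b4 : u4 ≤ (5 / 4)) (lo : (5 / 2) ≤ T) (hi : T ≤ (11 / 4)) (o1 : u1 ≤ u2) (o2 : u2 ≤ u3) (o3 : u3 ≤ u4) : Good u1 u2 u3 u4 ∨ Good2 u1 u2 u3 u4 := by
  have e1 : H u1 = u1 - 0 := hk_0 (by linarith only [a1]) (by linarith only [b1])
  have f1 : H (4 * u1) = 1 := hk_1 (by linarith only [a1]) (by linarith only [b1])
  have e2 : H u2 = u2 - 0 := hk_0 (by linarith only [a2]) (by linarith only [b2])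
  have f2 : H (4 * u2) = 1 := hk_1 (by linarith only [a2]) (by linarith only [b2])
  have e3 : H u3 = u3 - 0 := hk_0 (by linarith only [a3]) (by linarith only [b3])
  have f3 : H (4 * u3) = 4 - (4 * u3) := hk_3 (by linarith only [a3]) (by linarith only [b3])
  have e4 : H u4 = 1 := hk_1 (by linarith only [a4]) (by linarith only [b4])
  have f4 : H (4 * u4) = (4 * u4) - 4 := hk_4 (by linarith only [a4]) (by linarith only [b4])
  have hX : H (T / 4) = (T / 4) - 0 := hk_0 (by linarith only [lo]) (by linarith only [hi])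
  have hS : H T = 1 := hk_2 (by linarith only [lo]) (by linarith only [hi])
  have hW : H (4 * T) = 1 := hk_10 (by linarith only [lo]) (by linarith only [hi])
  have hN : H (4 * T - 8) = 1 := hk_2 (by linarith only [lo]) (by linarith only [hi])
  exact good2_T hT zk_1 zk_1 zk_3 zk_3 (by norm_num) e1 e2 e3 e4 f1 f2 f3 f4 hX hS hW hN (R := ((-4) * u1 + (-4) * u3 + 4 * u4 + 2)) ⟨(by linarith only [hT, b3, a4, o1, hi]), (by linarith only [hT, b1, a4]), (by linarith only [hT, a4, o1, hi]), (by linarith only [hT, b2, o3]), (by linarith only [hT, b1, b2, a4]), (by linarith only [hT, a4, hi]), (by linarith only [hT, b3, a4]), (by linarith only [hT, b3, a4, o1]), (by linarith only [hT, b3, a4, o1, hi]), (by linarith only [hT, b3]), (by linarith only [hT, b3, o1]), (by linarith only [hT, b1])⟩ (by linarith only [hT])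

theorem lf_0_1_1_3_4_11 (u1 u2 u3 u4 T : ℝ) (hT : T = u1 + u2 + u3 + u4) (a1 : (1 / 4) ≤ u1) (b1 : u1 ≤ (1 / 2)) (a2 : (1 / 4) ≤ u2) (b2 : u2 ≤ (1 / 2)) (a3 : (3 / 4) ≤ u3) (b3 : u3 ≤ 1) (a4 : 1 ≤ u4) (b4 : u4 ≤ (5 / 4)) (lo : (11 / 4) ≤ T) (hi : T ≤ 3) (o1 : u1 ≤ u2) (o2 : u2 ≤ u3) (o3 : u3 ≤ u4) : Good u1 u2 u3 u4 ∨ Good2 u1 u2 u3 u4 := by
  have e1 : H u1 = u1 - 0 := hk_0 (by linarith only [a1]) (by linarith only [b1])
  have f1 : H (4 * u1) = 1 := hk_1 (by linarith only [a1]) (by linarith only [b1])
  have e2 : H u2 = u2 - 0 := hk_0 (by linarith only [a2]) (by linarith only [b2])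
  have f2 : H (4 * u2) = 1 := hk_1 (by linarith only [a2]) (by linarith only [b2])
  have e3 : H u3 = u3 - 0 := hk_0 (by linarith only [a3]) (by linarith only [b3])
  have f3 : H (4 * u3) = 4 - (4 * u3) := hk_3 (by linarith only [a3]) (by linarith only [b3])
  have e4 : H u4 = 1 := hk_1 (by linarith only [a4]) (by linarith only [b4])
  have f4 : H (4 * u4) = (4 * u4) - 4 := hk_4 (by linarith only [a4]) (by linarith only [b4])
  have hX : H (T / 4) = (T / 4) - 0 := hk_0 (by linarith only [lo]) (by linarith only [hi])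
  have hS : H T = 1 := hk_2 (by linarith only [lo]) (by linarith only [hi])
  have hW : H (4 * T) = 12 - (4 * T) := hk_11 (by linarith only [lo]) (by linarith only [hi])
  have hN : H (4 * T - 8) = 4 - (4 * T - 8) := hk_3 (by linarith only [lo]) (by linarith only [hi])
  exact good2_T hT zk_1 zk_1 zk_3 zk_3 (by norm_num) e1 e2 e3 e4 f1 f2 f3 f4 hX hS hW hN (R := ((-4) * u1 + (-4) * u3 + 4 * u4 + 2)) ⟨(by linarith only [hT, b1, o1, o3]), (by linarith only [hT, b1, a4]), (by linarith only [hT, b1, b3, a4]), (by linarith only [hT, b2, o3]), (by linarith only [hT, b1, b2, a4]), (by linarith only [hT, a4, hi]), (by linarith only [hT, b3, a4]), (by linarith only [hT, b3, a4, o1]), (by linarith only [hT, b1, o3]), (by linarith only [hT, b3]), (by linarith only [hT, b3, o1]), (by linarith only [hT, b1])⟩ (by linarith only [hT])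

theorem lf_0_1_1_3_5_11 (u1 u2 u3 u4 T : ℝ) (hT : T = u1 + u2 + u3 + u4) (a1 : (1 / 4) ≤ u1) (b1 : u1 ≤ (1 / 2)) (a2 : (1 / 4) ≤ u2) (b2 : u2 ≤ (1 / 2)) (a3 : (3 / 4) ≤ u3) (b3 : u3 ≤ 1) (a4 : (5 / 4) ≤ u4) (b4 : u4 ≤ (3 / 2)) (lo : (11 / 4) ≤ T) (hi : T ≤ 3) (o1 : u1 ≤ u2) (o2 : u2 ≤ u3) (o3 : u3 ≤ u4) : Good u1 u2 u3 u4 ∨ Good2 u1 u2 u3 u4 := by
  have e1 : H u1 = u1 - 0 := hk_0 (by linarith only [a1]) (by linarith only [b1])
  have f1 : H (4 * u1) = 1 := hk_1 (by linarith only [a1]) (by linarith only [b1])
  have e2 : H u2 = u2 - 0 := hk_0 (by linarith only [a2]) (by linarith only [b2])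
  have f2 : H (4 * u2) = 1 := hk_1 (by linarith only [a2]) (by linarith only [b2])
  have e3 : H u3 = u3 - 0 := hk_0 (by linarith only [a3]) (by linarith only [b3])
  have f3 : H (4 * u3) = 4 - (4 * u3) := hk_3 (by linarith only [a3]) (by linarith only [b3])
  have e4 : H u4 = 1 := hk_1 (by linarith only [a4]) (by linarith only [b4])
  have f4 : H (4 * u4) = 1 := hk_5 (by linarith only [a4]) (by linarith only [b4])
  have hX : H (T / 4) = (T / 4) - 0 := hk_0 (by linarith only [lo]) (by linarith only [hi])
  have hS : H T = 1 := hk_2 (by linarith only [lo]) (by linarith only [hi])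
  have hW : H (4 * T) = 12 - (4 * T) := hk_11 (by linarith only [lo]) (by linarith only [hi])
  have hN : H (4 * T - 5) = 1 := hk_6 (by linarith only [lo]) (by linarith only [hi])
  exact good2_T hT zk_1 zk_m1 zk_2 zk_3 (by norm_num) e1 e2 e3 e4 f1 f2 f3 f4 hX hS hW hN (R := (4 * u2 + 4 * u4 + (-4))) ⟨(by linarith only [hT, a1, a4, o1]), (by linarith only [hT, a3, a4, o1]), (by linarith only [hT, a4, o1]), (by linarith only [hT, a1, a4]), (by linarith only [hT, a3, a4]), (by linarith only [hT, a4]), (by linarith only [hT, b3, lo]), (by linarith only [hT, a2, b3, a4]), (by linarith only [hT, a2, b3, a4]), (by linarith only [hT, a1, a2]), (by linarith only [hT, a2]), (by linarith only [hT, a2, a3])⟩ (by linarith only [hT])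

theorem lf_0_1_2_2_4_10 (u1 u2 u3 u4 T : ℝ) (hT : T = u1 + u2 + u3 + u4) (a1 : (1 / 4) ≤ u1) (b1 : u1 ≤ (1 / 2)) (a2 : (1 / 2) ≤ u2) (b2 : u2 ≤ (3 / 4)) (a3 : (1 / 2) ≤ u3) (b3 : u3 ≤ (3 / 4)) (a4 : 1 ≤ u4) (b4 : u4 ≤ (5 / 4)) (lo : (5 / 2) ≤ T) (hi : T ≤ (11 / 4)) (o1 : u1 ≤ u2) (o2 : u2 ≤ u3) (o3 : u3 ≤ u4) : Good u1 u2 u3 u4 ∨ Good2 u1 u2 u3 u4 := by
  have e1 : H u1 = u1 - 0 := hk_0 (by linarith only [a1]) (by linarith only [b1])
  have f1 : H (4 * u1) = 1 := hk_1 (by linarith only [a1]) (by linarith only [b1])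
  have e2 : H u2 = u2 - 0 := hk_0 (by linarith only [a2]) (by linarith only [b2])
  have f2 : H (4 * u2) = 1 := hk_2 (by linarith only [a2]) (by linarith only [b2])
  have e3 : H u3 = u3 - 0 := hk_0 (by linarith only [a3]) (by linarith only [b3])
  have f3 : H (4 * u3) = 1 := hk_2 (by linarith only [a3]) (by linarith only [b3])
  have e4 : H u4 = 1 := hk_1 (by linarith only [a4]) (by linarith only [b4])
  have f4 : H (4 * u4) = (4 * u4) - 4 := hk_4 (by linarith only [a4]) (by linarith only [b4])
  have hX : H (T / 4) = (T / 4) - 0 := hk_0 (by linarith only [lo]) (by linarith only [hi])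
  have hS : H T = 1 := hk_2 (by linarith only [lo]) (by linarith only [hi])
  have hW : H (4 * T) = 1 := hk_10 (by linarith only [lo]) (by linarith only [hi])
  have hN : H (4 * T - 5) = 1 := hk_5 (by linarith only [lo]) (by linarith only [hi])
  exact good2_T hT zk_1 zk_1 zk_1 zk_2 (by norm_num) e1 e2 e3 e4 f1 f2 f3 f4 hX hS hW hN (R := ((-4) * u1 + 4 * u4 + (-1))) ⟨(by linarith only [hT, b1, a2, a4]), (by linarith only [hT, b1, a3, a4]), (by linarith only [hT, b1, a4]), (by linarith only [hT, b2, a4]), (by linarith only [hT, b1, a4, o2]), (by linarith only [hT, b1, a4, o2, hi]), (by linarith only [hT, b3, a4]), (by linarith only [hT, a2, a4, hi]), (by linarith only [hT, b1, b3, a4]), (by linarith only [hT]), (by linarith only [hT, o1]), (by linarith only [hT, b1, a3])⟩ (by linarith only [hT])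

theorem lf_0_1_2_2_4_11 (u1 u2 u3 u4 T : ℝ) (hT : T = u1 + u2 + u3 + u4) (a1 : (1 / 4) ≤ u1) (b1 : u1 ≤ (1 / 2)) (a2 : (1 / 2) ≤ u2) (b2 : u2 ≤ (3 / 4)) (a3 : (1 / 2) ≤ u3) (b3 : u3 ≤ (3 / 4)) (a4 : 1 ≤ u4) (b4 : u4 ≤ (5 / 4)) (lo : (11 / 4) ≤ T) (hi : T ≤ 3) (o1 : u1 ≤ u2) (o2 : u2 ≤ u3) (o3 : u3 ≤ u4) : Good u1 u2 u3 u4 ∨ Good2 u1 u2 u3 u4 := by
  have e1 : H u1 = u1 - 0 := hk_0 (by linarith only [a1]) (by linarith only [b1])
  have f1 : H (4 * u1) = 1 := hk_1 (by linarith only [a1]) (by linarith only [b1])
  have e2 : H u2 = u2 - 0 := hk_0 (by linarith only [a2]) (by linarith only [b2])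
  have f2 : H (4 * u2) = 1 := hk_2 (by linarith only [a2]) (by linarith only [b2])
  have e3 : H u3 = u3 - 0 := hk_0 (by linarith only [a3]) (by linarith only [b3])
  have f3 : H (4 * u3) = 1 := hk_2 (by linarith only [a3]) (by linarith only [b3])
  have e4 : H u4 = 1 := hk_1 (by linarith only [a4]) (by linarith only [b4])
  have f4 : H (4 * u4) = (4 * u4) - 4 := hk_4 (by linarith only [a4]) (by linarith only [b4])
  have hX : H (T / 4) = (T / 4) - 0 := hk_0 (by linarith only [lo]) (by linarith only [hi])
  have hS : H T = 1 := hk_2 (by linarith only [lo]) (by linarith only [hi])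
  have hW : H (4 * T) = 12 - (4 * T) := hk_11 (by linarith only [lo]) (by linarith only [hi])
  have hN : H (4 * T - 5) = 1 := hk_6 (by linarith only [lo]) (by linarith only [hi])
  exact good2_T hT zk_1 zk_1 zk_1 zk_2 (by norm_num) e1 e2 e3 e4 f1 f2 f3 f4 hX hS hW hN (R := (4 * u2 + 4 * u3 + 8 * u4 + (-12))) ⟨(by linarith only [hT, b1, b3, lo]), (by linarith only [hT, b1, a4, o2, lo]), (by linarith only [hT, b1, a4, lo]), (by linarith only [hT, b2, a4, lo]), (by linarith only [hT, b1, a4, o2, lo]), (by linarith only [hT, b1, a4, o2, lo]), (by linarith only [hT, b3, a4, lo]), (by linarith only [hT, a2, a4]), (by linarith only [hT, a2, a4]), (by linarith only [hT, lo]), (by linarith only [hT, o1, lo]), (by linarith only [hT, b1, a3, lo])⟩ (by linarith only [hT])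

theorem lf_0_1_2_3_4_10 (u1 u2 u3 u4 T : ℝ) (hT : T = u1 + u2 + u3 + u4) (a1 : (1 / 4) ≤ u1) (b1 : u1 ≤ (1 / 2)) (a2 : (1 / 2) ≤ u2) (b2 : u2 ≤ (3 / 4)) (a3 : (3 / 4) ≤ u3) (b3 : u3 ≤ 1) (a4 : 1 ≤ u4) (b4 : u4 ≤ (5 / 4)) (lo : (5 / 2) ≤ T) (hi : T ≤ (11 / 4)) (o1 : u1 ≤ u2) (o2 : u2 ≤ u3) (o3 : u3 ≤ u4) : Good u1 u2 u3 u4 ∨ Good2 u1 u2 u3 u4 := by
  have e1 : H u1 = u1 - 0 := hk_0 (by linarith only [a1]) (by linarith only [b1])
  have f1 : H (4 * u1) = 1 := hk_1 (by linarith only [a1]) (by linarith only [b1])
  have e2 : H u2 = u2 - 0 := hk_0 (by linarith only [a2]) (by linarith only [b2])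
  have f2 : H (4 * u2) = 1 := hk_2 (by linarith only [a2]) (by linarith only [b2])
  have e3 : H u3 = u3 - 0 := hk_0 (by linarith only [a3]) (by linarith only [b3])
  have f3 : H (4 * u3) = 4 - (4 * u3) := hk_3 (by linarith only [a3]) (by linarith only [b3])
  have e4 : H u4 = 1 := hk_1 (by linarith only [a4]) (by linarith only [b4])
  have f4 : H (4 * u4) = (4 * u4) - 4 := hk_4 (by linarith only [a4]) (by linarith only [b4])
  have hX : H (T / 4) = (T / 4) - 0 := hk_0 (by linarith only [lo]) (by linarith only [hi])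
  have hS : H T = 1 := hk_2 (by linarith only [lo]) (by linarith only [hi])
  have hW : H (4 * T) = 1 := hk_10 (by linarith only [lo]) (by linarith only [hi])
  have hN : H (4 * T - 8) = 1 := hk_2 (by linarith only [lo]) (by linarith only [hi])
  exact good2_T hT zk_1 zk_1 zk_3 zk_3 (by norm_num) e1 e2 e3 e4 f1 f2 f3 f4 hX hS hW hN (R := ((-4) * u1 + (-4) * u3 + 4 * u4 + 2)) ⟨(by linarith only [hT, b1, a2, a4, hi]), (by linarith only [hT, b1, a4]), (by linarith only [hT, a4, o1, hi]), (by linarith only [hT, a1, a4, hi]), (by linarith only [hT, a3, a4, hi]), (by linarith only [hT, a4, hi]), (by linarith only [hT, b3, a4]), (by linarith only [hT, a1, a2, a4, hi]), (by linarith only [hT, a1, a2, a4, hi]), (by linarith only [hT, b3]), (by linarith only [hT, a2, a4, hi]), (by linarith only [hT, b1])⟩ (by linarith only [hT])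

theorem lf_0_1_2_3_4_11 (u1 u2 u3 u4 T : ℝ) (hT : T = u1 + u2 + u3 + u4) (a1 : (1 / 4) ≤ u1) (b1 : u1 ≤ (1 / 2)) (a2 : (1 / 2) ≤ u2) (b2 : u2 ≤ (3 / 4)) (a3 : (3 / 4) ≤ u3) (b3 : u3 ≤ 1) (a4 : 1 ≤ u4) (b4 : u4 ≤ (5 / 4)) (lo : (11 / 4) ≤ T) (hi : T ≤ 3) (o1 : u1 ≤ u2) (o2 : u2 ≤ u3) (o3 : u3 ≤ u4) : Good u1 u2 u3 u4 ∨ Good2 u1 u2 u3 u4 := by
  have e1 : H u1 = u1 - 0 := hk_0 (by linarith only [a1]) (by linarith only [b1])
  have f1 : H (4 * u1) = 1 := hk_1 (by linarith only [a1]) (by linarith only [b1])
  have e2 : H u2 = u2 - 0 := hk_0 (by linarith only [a2]) (by linarith only [b2])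
  have f2 : H (4 * u2) = 1 := hk_2 (by linarith only [a2]) (by linarith only [b2])
  have e3 : H u3 = u3 - 0 := hk_0 (by linarith only [a3]) (by linarith only [b3])
  have f3 : H (4 * u3) = 4 - (4 * u3) := hk_3 (by linarith only [a3]) (by linarith only [b3])
  have e4 : H u4 = 1 := hk_1 (by linarith only [a4]) (by linarith only [b4])
  have f4 : H (4 * u4) = (4 * u4) - 4 := hk_4 (by linarith only [a4]) (by linarith only [b4])
  have hX : H (T / 4) = (T / 4) - 0 := hk_0 (by linarith only [lo]) (by linarith only [hi])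
  have hS : H T = 1 := hk_2 (by linarith only [lo]) (by linarith only [hi])
  have hW : H (4 * T) = 12 - (4 * T) := hk_11 (by linarith only [lo]) (by linarith only [hi])
  have hN : H (4 * T - 9) = 1 := hk_2 (by linarith only [lo]) (by linarith only [hi])
  exact good2_T hT zk_1 zk_1 zk_3 zk_4 (by norm_num) e1 e2 e3 e4 f1 f2 f3 f4 hX hS hW hN (R := (4 * u2 + 8 * u4 + (-9))) ⟨(by linarith only [hT, b1, a2, a4]), (by linarith only [hT, b1, a4, lo]), (by linarith only [hT, a4, o1]), (by linarith only [hT, a1, a4]), (by linarith only [hT, a3, a4]), (by linarith only [hT, a4]), (by linarith only [hT, b3, a4, lo]), (by linarith only [hT, a2, b3, a4]), (by linarith only [hT, a2, b3, a4]), (by linarith only [hT, b3, lo]), (by linarith only [hT, a2, a4]), (by linarith only [hT, b1, lo])⟩ (by linarith only [hT])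

theorem lf_0_1_3_3_4_11 (u1 u2 u3 u4 T : ℝ) (hT : T = u1 + u2 + u3 + u4) (a1 : (1 / 4) ≤ u1) (b1 : u1 ≤ (1 / 2)) (a2 : (3 / 4) ≤ u2) (b2 : u2 ≤ 1) (a3 : (3 / 4) ≤ u3) (b3 : u3 ≤ 1) (a4 : 1 ≤ u4) (b4 : u4 ≤ (5 / 4)) (lo : (11 / 4) ≤ T) (hi : T ≤ 3) (o1 : u1 ≤ u2) (o2 : u2 ≤ u3) (o3 : u3 ≤ u4) : Good u1 u2 u3 u4 ∨ Good2 u1 u2 u3 u4 := by
  have e1 : H u1 = u1 - 0 := hk_0 (by linarith only [a1]) (by linarith only [b1])
  have f1 : H (4 * u1) = 1 := hk_1 (by linarith only [a1]) (by linarith only [b1])
  have e2 : H u2 = u2 - 0 := hk_0 (by linarith only [a2]) (by linarith only [b2])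
  have f2 : H (4 * u2) = 4 - (4 * u2) := hk_3 (by linarith only [a2]) (by linarith only [b2])
  have e3 : H u3 = u3 - 0 := hk_0 (by linarith only [a3]) (by linarith only [b3])
  have f3 : H (4 * u3) = 4 - (4 * u3) := hk_3 (by linarith only [a3]) (by linarith only [b3])
  have e4 : H u4 = 1 := hk_1 (by linarith only [a4]) (by linarith only [b4])
  have f4 : H (4 * u4) = (4 * u4) - 4 := hk_4 (by linarith only [a4]) (by linarith only [b4])
  have hX : H (T / 4) = (T / 4) - 0 := hk_0 (by linarith only [lo]) (by linarith only [hi])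
  have hS : H T = 1 := hk_2 (by linarith only [lo]) (by linarith only [hi])
  have hW : H (4 * T) = 12 - (4 * T) := hk_11 (by linarith only [lo]) (by linarith only [hi])
  have hN : H (4 * T - 9) = 1 := hk_2 (by linarith only [lo]) (by linarith only [hi])
  exact good2_T hT zk_1 zk_2 zk_2 zk_4 (by norm_num) e1 e2 e3 e4 f1 f2 f3 f4 hX hS hW hN (R := (8 * u4 + (-6))) ⟨(by linarith only [hT, b1, a2, a4]), (by linarith only [hT, b1, a3, a4]), (by linarith only [hT, b1, a4]), (by linarith only [hT, a1, a4, o2, hi]), (by linarith only [hT, a4, o2]), (by linarith only [hT, a1, a4, o2, hi]), (by linarith only [hT, a1, b3, a4]), (by linarith only [hT, a2, b3, a4]), (by linarith only [hT, b3, a4]), (by linarith only [hT, a1, a4]), (by linarith only [hT, a2, a4]), (by linarith only [hT, a3, a4])⟩ (by linarith only [hT])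

theorem lf_0_2_2_2_4_10 (u1 u2 u3 u4 T : ℝ) (hT : T = u1 + u2 + u3 + u4) (a1 : (1 / 2) ≤ u1) (b1 : u1 ≤ (3 / 4)) (a2 : (1 / 2) ≤ u2) (b2 : u2 ≤ (3 / 4)) (a3 : (1 / 2) ≤ u3) (b3 : u3 ≤ (3 / 4)) (a4 : 1 ≤ u4) (b4 : u4 ≤ (5 / 4)) (lo : (5 / 2) ≤ T) (hi : T ≤ (11 / 4)) (o1 : u1 ≤ u2) (o2 : u2 ≤ u3) (o3 : u3 ≤ u4) : Good u1 u2 u3 u4 ∨ Good2 u1 u2 u3 u4 := by
  have e1 : H u1 = u1 - 0 := hk_0 (by linarith only [a1]) (by linarith only [b1])
  have f1 : H (4 * u1) = 1 := hk_2 (by linarith only [a1]) (by linarith only [b1])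
  have e2 : H u2 = u2 - 0 := hk_0 (by linarith only [a2]) (by linarith only [b2])
  have f2 : H (4 * u2) = 1 := hk_2 (by linarith only [a2]) (by linarith only [b2])
  have e3 : H u3 = u3 - 0 := hk_0 (by linarith only [a3]) (by linarith only [b3])
  have f3 : H (4 * u3) = 1 := hk_2 (by linarith only [a3]) (by linarith only [b3])
  have e4 : H u4 = 1 := hk_1 (by linarith only [a4]) (by linarith only [b4])
  have f4 : H (4 * u4) = (4 * u4) - 4 := hk_4 (by linarith only [a4]) (by linarith only [b4])
  have hX : H (T / 4) = (T / 4) - 0 := hk_0 (by linarith only [lo]) (by linarith only [hi])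
  have hS : H T = 1 := hk_2 (by linarith only [lo]) (by linarith only [hi])
  have hW : H (4 * T) = 1 := hk_10 (by linarith only [lo]) (by linarith only [hi])
  have hN : H (4 * T - 9) = 1 := hk_1 (by linarith only [lo]) (by linarith only [hi])
  exact good2_T hT zk_2 zk_2 zk_2 zk_3 (by norm_num) e1 e2 e3 e4 f1 f2 f3 f4 hX hS hW hN (R := ((-4) * u1 + 4 * u4 + (-1))) ⟨(by linarith only [hT, a4, o1, o2, hi]), (by linarith only [hT, a4, o1, o2, hi]), (by linarith only [hT, a4, o1, o2, hi]), (by linarith only [hT, a1, a4, o2, hi]), (by linarith only [hT, a4, o1, o2, hi]), (by linarith only [hT, a4, o1, o2, hi]), (by linarith only [hT, b3, a4]), (by linarith only [hT, a2, a4, hi]), (by linarith only [hT, a2, a4, hi]), (by linarith only [hT]), (by linarith only [hT, o1]), (by linarith only [hT, o1, o2])⟩ (by linarith only [hT])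

theorem lf_0_2_2_2_4_11 (u1 u2 u3 u4 T : ℝ) (hT : T = u1 + u2 + u3 + u4) (a1 : (1 / 2) ≤ u1) (b1 : u1 ≤ (3 / 4)) (a2 : (1 / 2) ≤ u2) (b2 : u2 ≤ (3 / 4)) (a3 : (1 / 2) ≤ u3) (b3 : u3 ≤ (3 / 4)) (a4 : 1 ≤ u4) (b4 : u4 ≤ (5 / 4)) (lo : (11 / 4) ≤ T) (hi : T ≤ 3) (o1 : u1 ≤ u2) (o2 : u2 ≤ u3) (o3 : u3 ≤ u4) : Good u1 u2 u3 u4 ∨ Good2 u1 u2 u3 u4 := by
  have e1 : H u1 = u1 - 0 := hk_0 (by linarith only [a1]) (by linarith only [b1])
  have f1 : H (4 * u1) = 1 := hk_2 (by linarith only [a1]) (by linarith only [b1])
  have e2 : H u2 = u2 - 0 := hk_0 (by linarith only [a2]) (by linarith only [b2])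
  have f2 : H (4 * u2) = 1 := hk_2 (by linarith only [a2]) (by linarith only [b2])
  have e3 : H u3 = u3 - 0 := hk_0 (by linarith only [a3]) (by linarith only [b3])
  have f3 : H (4 * u3) = 1 := hk_2 (by linarith only [a3]) (by linarith only [b3])
  have e4 : H u4 = 1 := hk_1 (by linarith only [a4]) (by linarith only [b4])
  have f4 : H (4 * u4) = (4 * u4) - 4 := hk_4 (by linarith only [a4]) (by linarith only [b4])
  have hX : H (T / 4) = (T / 4) - 0 := hk_0 (by linarith only [lo]) (by linarith only [hi])
  have hS : H T = 1 := hk_2 (by linarith only [lo]) (by linarith only [hi])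
  have hW : H (4 * T) = 12 - (4 * T) := hk_11 (by linarith only [lo]) (by linarith only [hi])
  have hN : H (4 * T - 9) = 1 := hk_2 (by linarith only [lo]) (by linarith only [hi])
  exact good2_T hT zk_2 zk_2 zk_2 zk_3 (by norm_num) e1 e2 e3 e4 f1 f2 f3 f4 hX hS hW hN (R := (4 * u2 + 4 * u3 + 8 * u4 + (-12))) ⟨(by linarith only [hT, a4, o1, o2, lo]), (by linarith only [hT, a4, o1, o2, lo]), (by linarith only [hT, a4, o1, o2, lo]), (by linarith only [hT, a1, a4, o2, lo]), (by linarith only [hT, a4, o1, o2, lo]), (by linarith only [hT, a4, o1, o2, lo]), (by linarith only [hT, a1, a2, a4]), (by linarith only [hT, a2, a4]), (by linarith only [hT, a2, a4]), (by linarith only [hT, lo]), (by linarith only [hT, o1, lo]), (by linarith only [hT, o1, o2, lo])⟩ (by linarith only [hT])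

theorem lf_0_2_2_3_4_11 (u1 u2 u3 u4 T : ℝ) (hT : T = u1 + u2 + u3 + u4) (a1 : (1 / 2) ≤ u1) (b1 : u1 ≤ (3 / 4)) (a2 : (1 / 2) ≤ u2) (b2 : u2 ≤ (3 / 4)) (a3 : (3 / 4) ≤ u3) (b3 : u3 ≤ 1) (a4 : 1 ≤ u4) (b4 : u4 ≤ (5 / 4)) (lo : (11 / 4) ≤ T) (hi : T ≤ 3) (o1 : u1 ≤ u2) (o2 : u2 ≤ u3) (o3 : u3 ≤ u4) : Good u1 u2 u3 u4 ∨ Good2 u1 u2 u3 u4 := by
  have e1 : H u1 = u1 - 0 := hk_0 (by linarith only [a1]) (by linarith only [b1])
  have f1 : H (4 * u1) = 1 := hk_2 (by linarith only [a1]) (by linarith only [b1])
  have e2 : H u2 = u2 - 0 := hk_0 (by linarith only [a2]) (by linarith only [b2])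
  have f2 : H (4 * u2) = 1 := hk_2 (by linarith only [a2]) (by linarith only [b2])
  have e3 : H u3 = u3 - 0 := hk_0 (by linarith only [a3]) (by linarith only [b3])
  have f3 : H (4 * u3) = 4 - (4 * u3) := hk_3 (by linarith only [a3]) (by linarith only [b3])
  have e4 : H u4 = 1 := hk_1 (by linarith only [a4]) (by linarith only [b4])
  have f4 : H (4 * u4) = (4 * u4) - 4 := hk_4 (by linarith only [a4]) (by linarith only [b4])
  have hX : H (T / 4) = (T / 4) - 0 := hk_0 (by linarith only [lo]) (by linarith only [hi])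
  have hS : H T = 1 := hk_2 (by linarith only [lo]) (by linarith only [hi])
  have hW : H (4 * T) = 12 - (4 * T) := hk_11 (by linarith only [lo]) (by linarith only [hi])
  have hN : H (4 * T - 9) = 1 := hk_2 (by linarith only [lo]) (by linarith only [hi])
  exact good2_T hT zk_2 zk_1 zk_3 zk_3 (by norm_num) e1 e2 e3 e4 f1 f2 f3 f4 hX hS hW hN (R := (4 * u2 + 8 * u4 + (-9))) ⟨(by linarith only [hT, a1, a4, o1]), (by linarith only [hT, a3, a4, o1]), (by linarith only [hT, a4, o1]), (by linarith only [hT, a1, a4]), (by linarith only [hT, a3, a4]), (by linarith only [hT, a4]), (by linarith only [hT, a1, a2, b3, a4]), (by linarith only [hT, a2, b3, a4]), (by linarith only [hT, a2, b3, a4]), (by linarith only [hT, a1, a2, a4]), (by linarith only [hT, a2, a4]), (by linarith only [hT, a2, a3, a4])⟩ (by linarith only [hT])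

theorem lf_0_2_3_3_4_12 (u1 u2 u3 u4 T : ℝ) (hT : T = u1 + u2 + u3 + u4) (a1 : (1 / 2) ≤ u1) (b1 : u1 ≤ (3 / 4)) (a2 : (3 / 4) ≤ u2) (b2 : u2 ≤ 1) (a3 : (3 / 4) ≤ u3) (b3 : u3 ≤ 1) (a4 : 1 ≤ u4) (b4 : u4 ≤ (5 / 4)) (lo : 3 ≤ T) (hi : T ≤ (13 / 4)) (o1 : u1 ≤ u2) (o2 : u2 ≤ u3) (o3 : u3 ≤ u4) : Good u1 u2 u3 u4 ∨ Good2 u1 u2 u3 u4 := by
  have e1 : H u1 = u1 - 0 := hk_0 (by linarith only [a1]) (by linarith only [b1])
  have f1 : H (4 * u1) = 1 := hk_2 (by linarith only [a1]) (by linarith only [b1])
  have e2 : H u2 = u2 - 0 := hk_0 (by linarith only [a2]) (by linarith only [b2])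
  have f2 : H (4 * u2) = 4 - (4 * u2) := hk_3 (by linarith only [a2]) (by linarith only [b2])
  have e3 : H u3 = u3 - 0 := hk_0 (by linarith only [a3]) (by linarith only [b3])
  have f3 : H (4 * u3) = 4 - (4 * u3) := hk_3 (by linarith only [a3]) (by linarith only [b3])
  have e4 : H u4 = 1 := hk_1 (by linarith only [a4]) (by linarith only [b4])
  have f4 : H (4 * u4) = (4 * u4) - 4 := hk_4 (by linarith only [a4]) (by linarith only [b4])
  have hX : H (T / 4) = (T / 4) - 0 := hk_0 (by linarith only [lo]) (by linarith only [hi])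
  have hS : H T = 4 - T := hk_3 (by linarith only [lo]) (by linarith only [hi])
  have hW : H (4 * T) = (4 * T) - 12 := hk_12 (by linarith only [lo]) (by linarith only [hi])
  have hN : H (4 * T - 11) = 1 := hk_1 (by linarith only [lo]) (by linarith only [hi])
  exact good2_T hT zk_2 zk_3 zk_3 zk_3 (by norm_num) e1 e2 e3 e4 f1 f2 f3 f4 hX hS hW hN (R := ((-4) * u1 + (-4) * u2 + (-4) * u3 + 4 * u4 + 6)) ⟨(by linarith only [hT, a4, o1, hi]), (by linarith only [hT, b1, a3, a4, hi]), (by linarith only [hT, b1, a4, hi]), (by linarith only [hT, a1, a4, o2, hi]), (by linarith only [hT, a4, o2, hi]), (by linarith only [hT, a1, a4, o2, hi]), (by linarith only [hT, a1, a2, a4, hi]), (by linarith only [hT, a1, a2, a4, hi]), (by linarith only [hT, b3, a4, hi]), (by linarith only [hT, a1, a4, hi]), (by linarith only [hT, a2, a4, hi]), (by linarith only [hT, a3, a4, hi])⟩ (by linarith only [hT])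

theorem sp_0_0_0_1_2 (u1 u2 u3 u4 T : ℝ) (hT : T = u1 + u2 + u3 + u4) (a1 : 0 ≤ u1) (b1 : u1 ≤ 0 + 1) (a2 : 0 ≤ u2) (b2 : u2 ≤ 0 + 1) (a3 : 0 ≤ u3) (b3 : u3 ≤ 0 + 1) (a4 : 1 ≤ u4) (b4 : u4 ≤ 1 + 1) (o1 : u1 ≤ u2) (o2 : u2 ≤ u3) (o3 : u3 ≤ u4) (s1 : 2 ≤ T) (s2 : T ≤ 3) : Good u1 u2 u3 u4 ∨ Good2 u1 u2 u3 u4 := by
  have e1 : H u1 = u1 - 0 := hk_0 a1 b1
  have e2 : H u2 = u2 - 0 := hk_0 a2 b2
  have e3 : H u3 = u3 - 0 := hk_0 a3 b3
  have e4 : H u4 = 1 := hk_1 a4 b4
  have hX : H (T / 4) = (T / 4) - 0 := hk_0 (by linarith only [s1]) (by linarith only [s2])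
  have hS : H T = 1 := hk_2 s1 (by linarith only [s2])
  by_cases hc : u1 + u3 ≤ u4
  · skip
    have hN : H (T - 1) = 1 := hk_1 (by linarith only [s1]) (by linarith only [s2])
    exact good_T hT zk_0 zk_0 zk_0 zk_1 (by norm_num) e1 e2 e3 e4 hX hS hN (R := (- u1 + 1)) ⟨(by linarith only [hT, o1, o2, s2, hc]), (by linarith only [hT, o1, o2, s2, hc]), (by linarith only [hT, o1, o2, hc]), (by linarith only [hT, b2]), (by linarith only [hT, o1, o2, s2, hc]), (by linarith only [hT, o2, hc]), (by linarith only [hT, b3]), (by linarith only [hT, b3, o1]), (by linarith only [hT, hc]), (by linarith only [hT, b4]), (by linarith only [hT, b4, o1]), (by linarith only [hT, b4, o1, o2])⟩ (by linarith only [hT])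
  push Not at hc
  have B1 : u1 ≤ 1 := by linarith only [b1]
  have B2 : u2 ≤ 1 := by linarith only [b2]
  have B3 : u3 ≤ 1 := by linarith only [b3]
  have B4 : u4 ≤ 2 := by linarith only [b4]
  rcases le_total u1 (1 / 2) with z1 | z1
  · skip
    rcases le_total u1 (1 / 4) with z2 | z2
    · skip
      rcases le_total u2 (1 / 2) with z3 | z3
      · skip
        rcases le_total u2 (1 / 4) with z4 | z4
        · skip
          rcases le_total u3 (1 / 2) with z5 | z5
          · skip
            exfalso; linarith only [hT, hc, z2, z5, a4]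
          · skip
            rcases le_total u3 (3 / 4) with z6 | z6
            · skip
              exfalso; linarith only [hT, hc, z2, z6, a4]
            · skip
              rcases le_total u4 (3 / 2) with z7 | z7
              · skip
                rcases le_total u4 (5 / 4) with z8 | z8
                · skip
                  rcases le_total T (5 / 2) with z9 | z9
                  · skip
                    rcases le_total T (9 / 4) with z10 | z10
                    · skip
                      exact lf_0_0_0_3_4_8 u1 u2 u3 u4 T hT a1 z2 a2 z4 z6 B3 a4 z8 s1 z10 o1 o2 o3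
                    · skip
                      exact lf_0_0_0_3_4_9 u1 u2 u3 u4 T hT a1 z2 a2 z4 z6 B3 a4 z8 z10 z9 o1 o2 o3
                  · skip
                    rcases le_total T (11 / 4) with z11 | z11
                    · skip
                      exact lf_0_0_0_3_4_10 u1 u2 u3 u4 T hT a1 z2 a2 z4 z6 B3 a4 z8 z9 z11 o1 o2 o3
                    · skip
                      exfalso; linarith only [hT, hc, z2, z4, B3, z11]
                · skip
                  exfalso; linarith only [hT, hc, z2, B3, z8]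
              · skip
                exfalso; linarith only [hT, hc, z2, B3, z7]
        · skip
          rcases le_total u3 (1 / 2) with z12 | z12
          · skip
            exfalso; linarith only [hT, hc, z2, z12, a4]
          · skip
            rcases le_total u3 (3 / 4) with z13 | z13
            · skip
              exfalso; linarith only [hT, hc, z2, z13, a4]
            · skip
              rcases le_total u4 (3 / 2) with z14 | z14
              · skip
                rcases le_total u4 (5 / 4) with z15 | z15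
                · skip
                  rcases le_total T (5 / 2) with z16 | z16
                  · skip
                    rcases le_total T (9 / 4) with z17 | z17
                    · skip
                      exfalso; linarith only [hT, hc, z4, a4, z17]
                    · skip
                      exact lf_0_0_1_3_4_9 u1 u2 u3 u4 T hT a1 z2 z4 z3 z13 B3 a4 z15 z17 z16 o1 o2 o3
                  · skip
                    rcases le_total T (11 / 4) with z18 | z18
                    · skip
                      exact lf_0_0_1_3_4_10 u1 u2 u3 u4 T hT a1 z2 z4 z3 z13 B3 a4 z15 z16 z18 o1 o2 o3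
                    · skip
                      exact lf_0_0_1_3_4_11 u1 u2 u3 u4 T hT a1 z2 z4 z3 z13 B3 a4 z15 z18 s2 o1 o2 o3
                · skip
                  exfalso; linarith only [hT, hc, z2, B3, z15]
              · skip
                exfalso; linarith only [hT, hc, z2, B3, z14]
      · skip
        rcases le_total u2 (3 / 4) with z19 | z19
        · skip
          rcases le_total u3 (1 / 2) with z20 | z20
          · skip
            exfalso; linarith only [hT, hc, z2, z20, a4]
          · skip
            rcases le_total u3 (3 / 4) with z21 | z21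
            · skip
              exfalso; linarith only [hT, hc, z2, z21, a4]
            · skip
              rcases le_total u4 (3 / 2) with z22 | z22
              · skip
                rcases le_total u4 (5 / 4) with z23 | z23
                · skip
                  rcases le_total T (5 / 2) with z24 | z24
                  · skip
                    exfalso; linarith only [hT, hc, z3, a4, z24]
                  · skip
                    rcases le_total T (11 / 4) with z25 | z25
                    · skip
                      exact lf_0_0_2_3_4_10 u1 u2 u3 u4 T hT a1 z2 z3 z19 z21 B3 a4 z23 z24 z25 o1 o2 o3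
                    · skip
                      exact lf_0_0_2_3_4_11 u1 u2 u3 u4 T hT a1 z2 z3 z19 z21 B3 a4 z23 z25 s2 o1 o2 o3
                · skip
                  exfalso; linarith only [hT, hc, z2, B3, z23]
              · skip
                exfalso; linarith only [hT, hc, z3, z22, s2]
        · skip
          rcases le_total u3 (1 / 2) with z26 | z26
          · skip
            exfalso; linarith only [hT, o2, z19, z26]
          · skip
            rcases le_total u3 (3 / 4) with z27 | z27
            · skip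
              exfalso; linarith only [hT, hc, z2, z27, a4]
            · skip
              rcases le_total u4 (3 / 2) with z28 | z28
              · skip
                rcases le_total u4 (5 / 4) with z29 | z29
                · skip
                  rcases le_total T (5 / 2) with z30 | z30
                  · skip
                    exfalso; linarith only [hT, hc, z19, a4, z30]
                  · skip
                    rcases le_total T (11 / 4) with z31 | z31
                    · skip
                      exfalso; linarith only [hT, hc, z19, a4, z31]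
                    · skip
                      exact lf_0_0_3_3_4_11 u1 u2 u3 u4 T hT a1 z2 z19 B2 z27 B3 a4 z29 z31 s2 o1 o2 o3
                · skip
                  exfalso; linarith only [hT, hc, z19, z29, s2]
              · skip
                exfalso; linarith only [hT, hc, z19, z28, s2]
    · skip
      rcases le_total u2 (1 / 2) with z32 | z32
      · skip
        rcases le_total u2 (1 / 4) with z33 | z33
        · skip
          rcases le_total u3 (1 / 2) with z34 | z34
          · skip
            exfalso; linarith only [hT, hc, z33, z34, a4, o1]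
          · skip
            rcases le_total u3 (3 / 4) with z35 | z35
            · skip
              exfalso; linarith only [hT, hc, z33, z35, a4, o1]
            · skip
              rcases le_total u4 (3 / 2) with z36 | z36
              · skip
                rcases le_total u4 (5 / 4) with z37 | z37
                · skip
                  rcases le_total T (5 / 2) with z38 | z38
                  · skip
                    rcases le_total T (9 / 4) with z39 | z39
                    · skip
                      exfalso; linarith only [hT, hc, z2, a4, o1, z39]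
                    · skip
                      exact lf_0_1_1_3_4_9 u1 u2 u3 u4 T hT z2 z1 (by linarith only [hT, z2, o1]) (by linarith only [hT, z33]) z35 B3 a4 z37 z39 z38 o1 o2 o3
                  · skip
                    rcases le_total T (11 / 4) with z40 | z40
                    · skip
                      exact lf_0_1_1_3_4_10 u1 u2 u3 u4 T hT z2 z1 (by linarith only [hT, z2, o1]) (by linarith only [hT, z33]) z35 B3 a4 z37 z38 z40 o1 o2 o3
                    · skip
                      exfalso; linarith only [hT, hc, z33, B3, o1, z40]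
                · skip
                  exfalso; linarith only [hT, hc, z33, B3, z37, o1]
              · skip
                exfalso; linarith only [hT, hc, z2, z36, o1, s2]
        · skip
          rcases le_total u3 (1 / 2) with z41 | z41
          · skip
            exfalso; linarith only [hT, hc, z1, z41, a4]
          · skip
            rcases le_total u3 (3 / 4) with z42 | z42
            · skip
              rcases le_total u4 (3 / 2) with z43 | z43
              · skip
                rcases le_total u4 (5 / 4) with z44 | z44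
                · skip
                  rcases le_total T (5 / 2) with z45 | z45
                  · skip
                    rcases le_total T (9 / 4) with z46 | z46
                    · skip
                      exfalso; linarith only [hT, hc, z33, a4, z46]
                    · skip
                      exact lf_0_1_1_2_4_9 u1 u2 u3 u4 T hT z2 z1 z33 z32 z41 z42 a4 z44 z46 z45 o1 o2 o3
                  · skip
                    rcases le_total T (11 / 4) with z47 | z47
                    · skip
                      exact lf_0_1_1_2_4_10 u1 u2 u3 u4 T hT z2 z1 z33 z32 z41 z42 a4 z44 z45 z47 o1 o2 o3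
                    · skip
                      exact lf_0_1_1_2_4_11 u1 u2 u3 u4 T hT z2 z1 z33 z32 z41 z42 a4 z44 z47 s2 o1 o2 o3
                · skip
                  exfalso; linarith only [hT, hc, z1, z42, z44]
              · skip
                exfalso; linarith only [hT, hc, z42, z43, o1, s2]
            · skip
              rcases le_total u4 (3 / 2) with z48 | z48
              · skip
                rcases le_total u4 (5 / 4) with z49 | z49
                · skip
                  rcases le_total T (5 / 2) with z50 | z50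
                  · skip
                    rcases le_total T (9 / 4) with z51 | z51
                    · skip
                      exfalso; linarith only [hT, hc, z33, a4, z51]
                    · skip
                      exact lf_0_1_1_3_4_9 u1 u2 u3 u4 T hT z2 z1 z33 z32 z42 B3 a4 z49 z51 z50 o1 o2 o3
                  · skip
                    rcases le_total T (11 / 4) with z52 | z52
                    · skip
                      exact lf_0_1_1_3_4_10 u1 u2 u3 u4 T hT z2 z1 z33 z32 z42 B3 a4 z49 z50 z52 o1 o2 o3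
                    · skip
                      exact lf_0_1_1_3_4_11 u1 u2 u3 u4 T hT z2 z1 z33 z32 z42 B3 a4 z49 z52 s2 o1 o2 o3
                · skip
                  rcases le_total T (5 / 2) with z53 | z53
                  · skip
                    exfalso; linarith only [hT, hc, z33, z49, z53]
                  · skip
                    rcases le_total T (11 / 4) with z54 | z54
                    · skip
                      exfalso; linarith only [hT, hc, z33, z49, z54]
                    · skip
                      exact lf_0_1_1_3_5_11 u1 u2 u3 u4 T hT z2 z1 z33 z32 z42 B3 z49 z48 z54 s2 o1 o2 o3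
              · skip
                exfalso; linarith only [hT, hc, z33, z48, s2]
      · skip
        rcases le_total u2 (3 / 4) with z55 | z55
        · skip
          rcases le_total u3 (1 / 2) with z56 | z56
          · skip
            exfalso; linarith only [hT, hc, z1, z56, a4]
          · skip
            rcases le_total u3 (3 / 4) with z57 | z57
            · skip
              rcases le_total u4 (3 / 2) with z58 | z58
              · skip
                rcases le_total u4 (5 / 4) with z59 | z59
                · skip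
                  rcases le_total T (5 / 2) with z60 | z60
                  · skip
                    exfalso; linarith only [hT, hc, z32, a4, z60]
                  · skip
                    rcases le_total T (11 / 4) with z61 | z61
                    · skip
                      exact lf_0_1_2_2_4_10 u1 u2 u3 u4 T hT z2 z1 z32 z55 z56 z57 a4 z59 z60 z61 o1 o2 o3
                    · skip
                      exact lf_0_1_2_2_4_11 u1 u2 u3 u4 T hT z2 z1 z32 z55 z56 z57 a4 z59 z61 s2 o1 o2 o3
                · skip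
                  exfalso; linarith only [hT, hc, z1, z57, z59]
              · skip
                exfalso; linarith only [hT, hc, z32, z58, s2]
            · skip
              rcases le_total u4 (3 / 2) with z62 | z62
              · skip
                rcases le_total u4 (5 / 4) with z63 | z63
                · skip
                  rcases le_total T (5 / 2) with z64 | z64
                  · skip
                    exfalso; linarith only [hT, hc, z32, a4, z64]
                  · skip
                    rcases le_total T (11 / 4) with z65 | z65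
                    · skip
                      exact lf_0_1_2_3_4_10 u1 u2 u3 u4 T hT z2 z1 z32 z55 z57 B3 a4 z63 z64 z65 o1 o2 o3
                    · skip
                      exact lf_0_1_2_3_4_11 u1 u2 u3 u4 T hT z2 z1 z32 z55 z57 B3 a4 z63 z65 s2 o1 o2 o3
                · skip
                  exfalso; linarith only [hT, hc, z32, z63, s2]
              · skip
                exfalso; linarith only [hT, hc, z32, z62, s2]
        · skip
          rcases le_total u3 (1 / 2) with z66 | z66
          · skip
            exfalso; linarith only [hT, o2, z55, z66]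
          · skip
            rcases le_total u3 (3 / 4) with z67 | z67
            · skip
              rcases le_total u4 (3 / 2) with z68 | z68
              · skip
                rcases le_total u4 (5 / 4) with z69 | z69
                · skip
                  rcases le_total T (5 / 2) with z70 | z70
                  · skip
                    exfalso; linarith only [hT, z70, z2, z55, a4, o2]
                  · skip
                    rcases le_total T (11 / 4) with z71 | z71
                    · skip
                      exfalso; linarith only [hT, hc, z55, a4, z71]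
                    · skip
                      exact lf_0_1_3_3_4_11 u1 u2 u3 u4 T hT z2 z1 z55 B2 (by linarith only [hT, z55, o2]) (by linarith only [hT, z67]) a4 z69 z71 s2 o1 o2 o3
                · skip
                  exfalso; linarith only [hT, hc, z55, z69, s2]
              · skip
                exfalso; linarith only [hT, s2, z2, z55, z68, o2]
            · skip
              rcases le_total u4 (3 / 2) with z72 | z72
              · skip
                rcases le_total u4 (5 / 4) with z73 | z73
                · skip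
                  rcases le_total T (5 / 2) with z74 | z74
                  · skip
                    exfalso; linarith only [hT, z74, z2, z55, z67, a4]
                  · skip
                    rcases le_total T (11 / 4) with z75 | z75
                    · skip
                      exfalso; linarith only [hT, hc, z55, a4, z75]
                    · skip
                      exact lf_0_1_3_3_4_11 u1 u2 u3 u4 T hT z2 z1 z55 B2 z67 B3 a4 z73 z75 s2 o1 o2 o3
                · skip
                  exfalso; linarith only [hT, hc, z55, z73, s2]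
              · skip
                exfalso; linarith only [hT, s2, z2, z55, z67, z72]
  · skip
    rcases le_total u1 (3 / 4) with z76 | z76
    · skip
      rcases le_total u2 (1 / 2) with z77 | z77
      · skip
        rcases le_total u2 (1 / 4) with z78 | z78
        · skip
          exfalso; linarith only [hT, o1, z1, z78]
        · skip
          rcases le_total u3 (1 / 2) with z79 | z79
          · skip
            exfalso; linarith only [hT, hc, z77, z79, a4, o1]
          · skip
            rcases le_total u3 (3 / 4) with z80 | z80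
            · skip
              rcases le_total u4 (3 / 2) with z81 | z81
              · skip
                rcases le_total u4 (5 / 4) with z82 | z82
                · skip
                  rcases le_total T (5 / 2) with z83 | z83
                  · skip
                    exfalso; linarith only [hT, hc, z1, a4, o1, z83]
                  · skip
                    rcases le_total T (11 / 4) with z84 | z84
                    · skip
                      exact lf_0_2_2_2_4_10 u1 u2 u3 u4 T hT z1 z76 (by linarith only [hT, z1, o1]) (by linarith only [hT, z77]) z79 z80 a4 z82 z83 z84 o1 o2 o3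
                    · skip
                      exact lf_0_2_2_2_4_11 u1 u2 u3 u4 T hT z1 z76 (by linarith only [hT, z1, o1]) (by linarith only [hT, z77]) z79 z80 a4 z82 z84 s2 o1 o2 o3
                · skip
                  exfalso; linarith only [hT, hc, z1, z82, o1, s2]
              · skip
                exfalso; linarith only [hT, hc, z1, z81, o1, s2]
            · skip
              rcases le_total u4 (3 / 2) with z85 | z85
              · skip
                rcases le_total u4 (5 / 4) with z86 | z86
                · skip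
                  rcases le_total T (5 / 2) with z87 | z87
                  · skip
                    exfalso; linarith only [hT, z87, z1, z80, a4, o1]
                  · skip
                    rcases le_total T (11 / 4) with z88 | z88
                    · skip
                      exact lf_0_2_2_3_4_11 u1 u2 u3 u4 T hT z1 z76 (by linarith only [hT, z1, o1]) (by linarith only [hT, z77]) z80 B3 a4 z86 (by linarith only [hT, z1, z80, a4, o1]) (by linarith only [hT, z88]) o1 o2 o3
                    · skip
                      exact lf_0_2_2_3_4_11 u1 u2 u3 u4 T hT z1 z76 (by linarith only [hT, z1, o1]) (by linarith only [hT, z77]) z80 B3 a4 z86 z88 s2 o1 o2 o3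
                · skip
                  exfalso; linarith only [hT, hc, z1, z86, o1, s2]
              · skip
                exfalso; linarith only [hT, s2, z1, z80, z85, o1]
      · skip
        rcases le_total u2 (3 / 4) with z89 | z89
        · skip
          rcases le_total u3 (1 / 2) with z90 | z90
          · skip
            exfalso; linarith only [hT, hc, z90, a4, o1, o2]
          · skip
            rcases le_total u3 (3 / 4) with z91 | z91
            · skip
              rcases le_total u4 (3 / 2) with z92 | z92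
              · skip
                rcases le_total u4 (5 / 4) with z93 | z93
                · skip
                  rcases le_total T (5 / 2) with z94 | z94
                  · skip
                    exfalso; linarith only [hT, hc, z77, a4, z94]
                  · skip
                    rcases le_total T (11 / 4) with z95 | z95
                    · skip
                      exact lf_0_2_2_2_4_10 u1 u2 u3 u4 T hT z1 z76 z77 z89 z90 z91 a4 z93 z94 z95 o1 o2 o3
                    · skip
                      exact lf_0_2_2_2_4_11 u1 u2 u3 u4 T hT z1 z76 z77 z89 z90 z91 a4 z93 z95 s2 o1 o2 o3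
                · skip
                  exfalso; linarith only [hT, hc, z77, z93, s2]
              · skip
                exfalso; linarith only [hT, hc, z77, z92, s2]
            · skip
              rcases le_total u4 (3 / 2) with z96 | z96
              · skip
                rcases le_total u4 (5 / 4) with z97 | z97
                · skip
                  rcases le_total T (5 / 2) with z98 | z98
                  · skip
                    exfalso; linarith only [hT, z98, z1, z77, z91, a4]
                  · skip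
                    rcases le_total T (11 / 4) with z99 | z99
                    · skip
                      exact lf_0_2_2_3_4_11 u1 u2 u3 u4 T hT z1 z76 z77 z89 z91 B3 a4 z97 (by linarith only [hT, z1, z77, z91, a4]) (by linarith only [hT, z99]) o1 o2 o3
                    · skip
                      exact lf_0_2_2_3_4_11 u1 u2 u3 u4 T hT z1 z76 z77 z89 z91 B3 a4 z97 z99 s2 o1 o2 o3
                · skip
                  exfalso; linarith only [hT, hc, z77, z97, s2]
              · skip
                exfalso; linarith only [hT, s2, z1, z77, z91, z96]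
        · skip
          rcases le_total u3 (1 / 2) with z100 | z100
          · skip
            exfalso; linarith only [hT, o2, z89, z100]
          · skip
            rcases le_total u3 (3 / 4) with z101 | z101
            · skip
              rcases le_total u4 (3 / 2) with z102 | z102
              · skip
                rcases le_total u4 (5 / 4) with z103 | z103
                · skip
                  rcases le_total T (5 / 2) with z104 | z104
                  · skip
                    exfalso; linarith only [hT, z104, z1, z89, a4, o2]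
                  · skip
                    rcases le_total T (11 / 4) with z105 | z105
                    · skip
                      exfalso; linarith only [hT, z105, z1, z89, a4, o2]
                    · skip
                      exact lf_0_2_3_3_4_12 u1 u2 u3 u4 T hT z1 z76 z89 B2 (by linarith only [hT, z89, o2]) (by linarith only [hT, z101]) a4 z103 (by linarith only [hT, z1, z89, a4, o2]) (by linarith only [hT, s2]) o1 o2 o3
                · skip
                  exfalso; linarith only [hT, s2, z1, z89, z103, o2]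
              · skip
                exfalso; linarith only [hT, s2, z1, z89, z102, o2]
            · skip
              rcases le_total u4 (3 / 2) with z106 | z106
              · skip
                rcases le_total u4 (5 / 4) with z107 | z107
                · skip
                  rcases le_total T (5 / 2) with z108 | z108
                  · skip
                    exfalso; linarith only [hT, z108, z1, z89, z101, a4]
                  · skip
                    rcases le_total T (11 / 4) with z109 | z109
                    · skip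
                      exfalso; linarith only [hT, z109, z1, z89, z101, a4]
                    · skip
                      exact lf_0_2_3_3_4_12 u1 u2 u3 u4 T hT z1 z76 z89 B2 z101 B3 a4 z107 (by linarith only [hT, z1, z89, z101, a4]) (by linarith only [hT, s2]) o1 o2 o3
                · skip
                  exfalso; linarith only [hT, s2, z1, z89, z101, z107]
              · skip
                exfalso; linarith only [hT, s2, z1, z89, z101, z106]
    · skip
      exfalso; linarith only [hT, s2, z76, a4, o1, o2]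

end Pool.Agent.W401.WC
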