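import Pool.Agent.W401.WC.Hk
set_option autoImplicit false
set_option linter.all false
namespace Pool.Agent.W401.WC

theorem lf_1_0_2_3_4_12 (u1 u2 u3 u4 T : ℝ) (hT : T = u1 + u2 + u3 + u4) (a1 : 0 ≤ u1) (b1 : u1 ≤ (1 / 4)) (a2 : (1 / 2) ≤ u2) (b2 : u2 ≤ (3 / 4)) (a3 : (3 / 4) ≤ u3) (b3 : u3 ≤ 1) (a4 : 1 ≤ u4) (b4 : u4 ≤ (5 / 4)) (lo : 3 ≤ T) (hi : T ≤ (13 / 4)) (o1 : u1 ≤ u2) (o2 : u2 ≤ u3) (o3 : u3 ≤ u4) : Good u1 u2 u3 u4 ∨ Good2 u1 u2 u3 u4 := by
  have e1 : H u1 = u1 - 0 := hk_0 (by linarith only [a1]) (by linarith only [b1])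
  have f1 : H (4 * u1) = (4 * u1) - 0 := hk_0 (by linarith only [a1]) (by linarith only [b1])
  have e2 : H u2 = u2 - 0 := hk_0 (by linarith only [a2]) (by linarith only [b2])
  have f2 : H (4 * u2) = 1 := hk_2 (by linarith only [a2]) (by linarith only [b2])
  have e3 : H u3 = u3 - 0 := hk_0 (by linarith only [a3]) (by linarith only [b3])
  have f3 : H (4 * u3) = 4 - (4 * u3) := hk_3 (by linarith only [a3]) (by linarith only [b3])
  have e4 : H u4 = 1 := hk_1 (by linarith only [a4]) (by linarith only [b4])
  have f4 : H (4 * u4) = (4 * u4) - 4 := hk_4 (by linarith only [a4]) (by linarith only [b4])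
  have hX : H (T / 4) = (T / 4) - 0 := hk_0 (by linarith only [lo]) (by linarith only [hi])
  have hS : H T = 4 - T := hk_3 (by linarith only [lo]) (by linarith only [hi])
  have hW : H (4 * T) = (4 * T) - 12 := hk_12 (by linarith only [lo]) (by linarith only [hi])
  have hN : H (4 * T - 3) = 1 := hk_9 (by linarith only [lo]) (by linarith only [hi])
  exact good2_T hT zk_0 zk_0 zk_1 zk_2 (by norm_num) e1 e2 e3 e4 f1 f2 f3 f4 hX hS hW hN (R := ((-4) * u3 + 4 * u4 + 2)) ⟨(by linarith only [hT, b1, b3, lo]), (by linarith only [hT, b1, a4]), (by linarith only [hT, b1, b3, a4]), (by linarith only [hT, b2, b3, lo]), (by linarith only [hT, b2, a4]), (by linarith only [hT, b2, b3, a4]), (by linarith only [hT, b2, b3, lo]), (by linarith only [hT, b1, b3, lo]), (by linarith only [hT, o3]), (by linarith only [hT, a1, b3]), (by linarith only [hT, a2, b3]), (by linarith only [hT])⟩ (by linarith only [hT])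

theorem lf_1_0_3_3_4_12 (u1 u2 u3 u4 T : ℝ) (hT : T = u1 + u2 + u3 + u4) (a1 : 0 ≤ u1) (b1 : u1 ≤ (1 / 4)) (a2 : (3 / 4) ≤ u2) (b2 : u2 ≤ 1) (a3 : (3 / 4) ≤ u3) (b3 : u3 ≤ 1) (a4 : 1 ≤ u4) (b4 : u4 ≤ (5 / 4)) (lo : 3 ≤ T) (hi : T ≤ (13 / 4)) (o1 : u1 ≤ u2) (o2 : u2 ≤ u3) (o3 : u3 ≤ u4) : Good u1 u2 u3 u4 ∨ Good2 u1 u2 u3 u4 := by
  have e1 : H u1 = u1 - 0 := hk_0 (by linarith only [a1]) (by linarith only [b1])
  have f1 : H (4 * u1) = (4 * u1) - 0 := hk_0 (by linarith only [a1]) (by linarith only [b1])
  have e2 : H u2 = u2 - 0 := hk_0 (by linarith only [a2]) (by linarith only [b2])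
  have f2 : H (4 * u2) = 4 - (4 * u2) := hk_3 (by linarith only [a2]) (by linarith only [b2])
  have e3 : H u3 = u3 - 0 := hk_0 (by linarith only [a3]) (by linarith only [b3])
  have f3 : H (4 * u3) = 4 - (4 * u3) := hk_3 (by linarith only [a3]) (by linarith only [b3])
  have e4 : H u4 = 1 := hk_1 (by linarith only [a4]) (by linarith only [b4])
  have f4 : H (4 * u4) = (4 * u4) - 4 := hk_4 (by linarith only [a4]) (by linarith only [b4])
  have hX : H (T / 4) = (T / 4) - 0 := hk_0 (by linarith only [lo]) (by linarith only [hi])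
  have hS : H T = 4 - T := hk_3 (by linarith only [lo]) (by linarith only [hi])
  have hW : H (4 * T) = (4 * T) - 12 := hk_12 (by linarith only [lo]) (by linarith only [hi])
  have hN : H (4 * T - 10) = 1 := hk_2 (by linarith only [lo]) (by linarith only [hi])
  exact good2_T hT zk_0 zk_3 zk_3 zk_4 (by norm_num) e1 e2 e3 e4 f1 f2 f3 f4 hX hS hW hN (R := ((-4) * u2 + (-4) * u3 + 4 * u4 + 5)) ⟨(by linarith only [hT, b1, o3]), (by linarith only [hT, b1, b2, a4]), (by linarith only [hT, a4, hi]), (by linarith only [hT, a1, b2, o3]), (by linarith only [hT, b2, a4]), (by linarith only [hT, b2, b3, a4]), (by linarith only [hT, b2, b3, lo]), (by linarith only [hT, b3, a4]), (by linarith only [hT, b2, o3]), (by linarith only [hT, a1, b2, b3]), (by linarith only [hT, b3]), (by linarith only [hT, b2])⟩ (by linarith only [hT])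

theorem lf_1_1_1_3_4_12 (u1 u2 u3 u4 T : ℝ) (hT : T = u1 + u2 + u3 + u4) (a1 : (1 / 4) ≤ u1) (b1 : u1 ≤ (1 / 2)) (a2 : (1 / 4) ≤ u2) (b2 : u2 ≤ (1 / 2)) (a3 : (3 / 4) ≤ u3) (b3 : u3 ≤ 1) (a4 : 1 ≤ u4) (b4 : u4 ≤ (5 / 4)) (lo : 3 ≤ T) (hi : T ≤ (13 / 4)) (o1 : u1 ≤ u2) (o2 : u2 ≤ u3) (o3 : u3 ≤ u4) : Good u1 u2 u3 u4 ∨ Good2 u1 u2 u3 u4 := by
  have e1 : H u1 = u1 - 0 := hk_0 (by linarith only [a1]) (by linarith only [b1])
  have f1 : H (4 * u1) = 1 := hk_1 (by linarith only [a1]) (by linarith only [b1])
  have e2 : H u2 = u2 - 0 := hk_0 (by linarith only [a2]) (by linarith only [b2])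
  have f2 : H (4 * u2) = 1 := hk_1 (by linarith only [a2]) (by linarith only [b2])
  have e3 : H u3 = u3 - 0 := hk_0 (by linarith only [a3]) (by linarith only [b3])
  have f3 : H (4 * u3) = 4 - (4 * u3) := hk_3 (by linarith only [a3]) (by linarith only [b3])
  have e4 : H u4 = 1 := hk_1 (by linarith only [a4]) (by linarith only [b4])
  have f4 : H (4 * u4) = (4 * u4) - 4 := hk_4 (by linarith only [a4]) (by linarith only [b4])
  have hX : H (T / 4) = (T / 4) - 0 := hk_0 (by linarith only [lo]) (by linarith only [hi])
  have hS : H T = 4 - T := hk_3 (by linarith only [lo]) (by linarith only [hi])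
  have hW : H (4 * T) = (4 * T) - 12 := hk_12 (by linarith only [lo]) (by linarith only [hi])
  have hN : H (4 * T - 6) = 1 := hk_6 (by linarith only [lo]) (by linarith only [hi])
  exact good2_T hT zk_1 zk_0 zk_2 zk_3 (by norm_num) e1 e2 e3 e4 f1 f2 f3 f4 hX hS hW hN (R := ((-4) * u1 + (-4) * u3 + 4 * u4 + 3)) ⟨(by linarith only [hT, b1, b3, lo]), (by linarith only [hT, b1, a4]), (by linarith only [hT, b1, b3, a4]), (by linarith only [hT, b2, o3]), (by linarith only [hT, b1, b2, a4]), (by linarith only [hT, b1, b2, b3, a4]), (by linarith only [hT, b3, a4]), (by linarith only [hT, b1, b3, lo]), (by linarith only [hT, b1, o3]), (by linarith only [hT, b3]), (by linarith only [hT, b3, o1]), (by linarith only [hT, b1])⟩ (by linarith only [hT])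

theorem lf_1_1_1_3_5_12 (u1 u2 u3 u4 T : ℝ) (hT : T = u1 + u2 + u3 + u4) (a1 : (1 / 4) ≤ u1) (b1 : u1 ≤ (1 / 2)) (a2 : (1 / 4) ≤ u2) (b2 : u2 ≤ (1 / 2)) (a3 : (3 / 4) ≤ u3) (b3 : u3 ≤ 1) (a4 : (5 / 4) ≤ u4) (b4 : u4 ≤ (3 / 2)) (lo : 3 ≤ T) (hi : T ≤ (13 / 4)) (o1 : u1 ≤ u2) (o2 : u2 ≤ u3) (o3 : u3 ≤ u4) : Good u1 u2 u3 u4 ∨ Good2 u1 u2 u3 u4 := by
  have e1 : H u1 = u1 - 0 := hk_0 (by linarith only [a1]) (by linarith only [b1])
  have f1 : H (4 * u1) = 1 := hk_1 (by linarith only [a1]) (by linarith only [b1])
  have e2 : H u2 = u2 - 0 := hk_0 (by linarith only [a2]) (by linarith only [b2])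
  have f2 : H (4 * u2) = 1 := hk_1 (by linarith only [a2]) (by linarith only [b2])
  have e3 : H u3 = u3 - 0 := hk_0 (by linarith only [a3]) (by linarith only [b3])
  have f3 : H (4 * u3) = 4 - (4 * u3) := hk_3 (by linarith only [a3]) (by linarith only [b3])
  have e4 : H u4 = 1 := hk_1 (by linarith only [a4]) (by linarith only [b4])
  have f4 : H (4 * u4) = 1 := hk_5 (by linarith only [a4]) (by linarith only [b4])
  have hX : H (T / 4) = (T / 4) - 0 := hk_0 (by linarith only [lo]) (by linarith only [hi])
  have hS : H T = 4 - T := hk_3 (by linarith only [lo]) (by linarith only [hi])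
  have hW : H (4 * T) = (4 * T) - 12 := hk_12 (by linarith only [lo]) (by linarith only [hi])
  have hN : H (4 * T - 6) = 1 := hk_6 (by linarith only [lo]) (by linarith only [hi])
  exact good2_T hT zk_1 zk_m1 zk_2 zk_4 (by norm_num) e1 e2 e3 e4 f1 f2 f3 f4 hX hS hW hN (R := ((-4) * u1 + (-4) * u3 + 8)) ⟨(by linarith only [hT, b1, b3, o1]), (by linarith only [hT, b1]), (by linarith only [hT, b1, b3, a4]), (by linarith only [hT, b2, b3]), (by linarith only [hT, b1, b2]), (by linarith only [hT, a4, hi]), (by linarith only [hT, b3]), (by linarith only [hT, b3, o1]), (by linarith only [hT, b1, b3, a4]), (by linarith only [hT, b3, b4]), (by linarith only [hT, b3, b4, o1]), (by linarith only [hT, b1, b4])⟩ (by linarith only [hT])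

theorem lf_1_1_2_2_4_12 (u1 u2 u3 u4 T : ℝ) (hT : T = u1 + u2 + u3 + u4) (a1 : (1 / 4) ≤ u1) (b1 : u1 ≤ (1 / 2)) (a2 : (1 / 2) ≤ u2) (b2 : u2 ≤ (3 / 4)) (a3 : (1 / 2) ≤ u3) (b3 : u3 ≤ (3 / 4)) (a4 : 1 ≤ u4) (b4 : u4 ≤ (5 / 4)) (lo : 3 ≤ T) (hi : T ≤ (13 / 4)) (o1 : u1 ≤ u2) (o2 : u2 ≤ u3) (o3 : u3 ≤ u4) : Good u1 u2 u3 u4 ∨ Good2 u1 u2 u3 u4 := by
  have e1 : H u1 = u1 - 0 := hk_0 (by linarith only [a1]) (by linarith only [b1])
  have f1 : H (4 * u1) = 1 := hk_1 (by linarith only [a1]) (by linarith only [b1])
  have e2 : H u2 = u2 - 0 := hk_0 (by linarith only [a2]) (by linarith only [b2])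
  have f2 : H (4 * u2) = 1 := hk_2 (by linarith only [a2]) (by linarith only [b2])
  have e3 : H u3 = u3 - 0 := hk_0 (by linarith only [a3]) (by linarith only [b3])
  have f3 : H (4 * u3) = 1 := hk_2 (by linarith only [a3]) (by linarith only [b3])
  have e4 : H u4 = 1 := hk_1 (by linarith only [a4]) (by linarith only [b4])
  have f4 : H (4 * u4) = (4 * u4) - 4 := hk_4 (by linarith only [a4]) (by linarith only [b4])
  have hX : H (T / 4) = (T / 4) - 0 := hk_0 (by linarith only [lo]) (by linarith only [hi])
  have hS : H T = 4 - T := hk_3 (by linarith only [lo]) (by linarith only [hi])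
  have hW : H (4 * T) = (4 * T) - 12 := hk_12 (by linarith only [lo]) (by linarith only [hi])
  have hN : H (4 * T - 2) = 1 := hk_10 (by linarith only [lo]) (by linarith only [hi])
  exact good2_T hT zk_1 zk_0 zk_0 zk_1 (by norm_num) e1 e2 e3 e4 f1 f2 f3 f4 hX hS hW hN (R := ((-4) * u1 + 4 * u4)) ⟨(by linarith only [hT, b1, b3, lo]), (by linarith only [hT, b1, b2, lo]), (by linarith only [hT, b1, a4]), (by linarith only [hT, b2, a4]), (by linarith only [hT, b1, b2, lo]), (by linarith only [hT, b1, b2, a4]), (by linarith only [hT, b3, a4]), (by linarith only [hT, b1, b3, lo]), (by linarith only [hT, b1, b3, a4]), (by linarith only [hT]), (by linarith only [hT, o1]), (by linarith only [hT, b1, b4, o2, lo])⟩ (by linarith only [hT])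

theorem lf_1_1_2_3_4_12 (u1 u2 u3 u4 T : ℝ) (hT : T = u1 + u2 + u3 + u4) (a1 : (1 / 4) ≤ u1) (b1 : u1 ≤ (1 / 2)) (a2 : (1 / 2) ≤ u2) (b2 : u2 ≤ (3 / 4)) (a3 : (3 / 4) ≤ u3) (b3 : u3 ≤ 1) (a4 : 1 ≤ u4) (b4 : u4 ≤ (5 / 4)) (lo : 3 ≤ T) (hi : T ≤ (13 / 4)) (o1 : u1 ≤ u2) (o2 : u2 ≤ u3) (o3 : u3 ≤ u4) : Good u1 u2 u3 u4 ∨ Good2 u1 u2 u3 u4 := by
  have e1 : H u1 = u1 - 0 := hk_0 (by linarith only [a1]) (by linarith only [b1])
  have f1 : H (4 * u1) = 1 := hk_1 (by linarith only [a1]) (by linarith only [b1])
  have e2 : H u2 = u2 - 0 := hk_0 (by linarith only [a2]) (by linarith only [b2])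
  have f2 : H (4 * u2) = 1 := hk_2 (by linarith only [a2]) (by linarith only [b2])
  have e3 : H u3 = u3 - 0 := hk_0 (by linarith only [a3]) (by linarith only [b3])
  have f3 : H (4 * u3) = 4 - (4 * u3) := hk_3 (by linarith only [a3]) (by linarith only [b3])
  have e4 : H u4 = 1 := hk_1 (by linarith only [a4]) (by linarith only [b4])
  have f4 : H (4 * u4) = (4 * u4) - 4 := hk_4 (by linarith only [a4]) (by linarith only [b4])
  have hX : H (T / 4) = (T / 4) - 0 := hk_0 (by linarith only [lo]) (by linarith only [hi])
  have hS : H T = 4 - T := hk_3 (by linarith only [lo]) (by linarith only [hi])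
  have hW : H (4 * T) = (4 * T) - 12 := hk_12 (by linarith only [lo]) (by linarith only [hi])
  have hN : H (4 * T - 6) = 1 := hk_6 (by linarith only [lo]) (by linarith only [hi])
  exact good2_T hT zk_1 zk_1 zk_2 zk_2 (by norm_num) e1 e2 e3 e4 f1 f2 f3 f4 hX hS hW hN (R := ((-4) * u1 + (-4) * u3 + 4 * u4 + 3)) ⟨(by linarith only [hT, b1, a2, o3]), (by linarith only [hT, b1, a4]), (by linarith only [hT, b1, b3, a4]), (by linarith only [hT, b2, o3]), (by linarith only [hT, b1, b2, a4]), (by linarith only [hT, a4, hi]), (by linarith only [hT, b3, a4]), (by linarith only [hT, b1, b3, lo]), (by linarith only [hT, b1, o3]), (by linarith only [hT, b3]), (by linarith only [hT, b3, o1]), (by linarith only [hT, b1])⟩ (by linarith only [hT])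

theorem lf_1_1_2_3_4_13 (u1 u2 u3 u4 T : ℝ) (hT : T = u1 + u2 + u3 + u4) (a1 : (1 / 4) ≤ u1) (b1 : u1 ≤ (1 / 2)) (a2 : (1 / 2) ≤ u2) (b2 : u2 ≤ (3 / 4)) (a3 : (3 / 4) ≤ u3) (b3 : u3 ≤ 1) (a4 : 1 ≤ u4) (b4 : u4 ≤ (5 / 4)) (lo : (13 / 4) ≤ T) (hi : T ≤ (7 / 2)) (o1 : u1 ≤ u2) (o2 : u2 ≤ u3) (o3 : u3 ≤ u4) : Good u1 u2 u3 u4 ∨ Good2 u1 u2 u3 u4 := by
  have e1 : H u1 = u1 - 0 := hk_0 (by linarith only [a1]) (by linarith only [b1])
  have f1 : H (4 * u1) = 1 := hk_1 (by linarith only [a1]) (by linarith only [b1])
  have e2 : H u2 = u2 - 0 := hk_0 (by linarith only [a2]) (by linarith only [b2])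
  have f2 : H (4 * u2) = 1 := hk_2 (by linarith only [a2]) (by linarith only [b2])
  have e3 : H u3 = u3 - 0 := hk_0 (by linarith only [a3]) (by linarith only [b3])
  have f3 : H (4 * u3) = 4 - (4 * u3) := hk_3 (by linarith only [a3]) (by linarith only [b3])
  have e4 : H u4 = 1 := hk_1 (by linarith only [a4]) (by linarith only [b4])
  have f4 : H (4 * u4) = (4 * u4) - 4 := hk_4 (by linarith only [a4]) (by linarith only [b4])
  have hX : H (T / 4) = (T / 4) - 0 := hk_0 (by linarith only [lo]) (by linarith only [hi])
  have hS : H T = 4 - T := hk_3 (by linarith only [lo]) (by linarith only [hi])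
  have hW : H (4 * T) = 1 := hk_13 (by linarith only [lo]) (by linarith only [hi])
  have hN : H (4 * T - 6) = 8 - (4 * T - 6) := hk_7 (by linarith only [lo]) (by linarith only [hi])
  exact good2_T hT zk_1 zk_1 zk_2 zk_2 (by norm_num) e1 e2 e3 e4 f1 f2 f3 f4 hX hS hW hN (R := ((-4) * u1 + (-4) * u3 + 4 * u4 + 3)) ⟨(by linarith only [hT, b1, b3, lo]), (by linarith only [hT, b1, a4]), (by linarith only [hT, b1, b3, a4]), (by linarith only [hT, b2, o3]), (by linarith only [hT, b1, b2, a4]), (by linarith only [hT, b1, b2, b3, a4]), (by linarith only [hT, b3, a4]), (by linarith only [hT, b1, b3, lo]), (by linarith only [hT, b1, o3]), (by linarith only [hT, b3]), (by linarith only [hT, b3, o1]), (by linarith only [hT, b1])⟩ (by linarith only [hT])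

theorem lf_1_1_3_3_4_12 (u1 u2 u3 u4 T : ℝ) (hT : T = u1 + u2 + u3 + u4) (a1 : (1 / 4) ≤ u1) (b1 : u1 ≤ (1 / 2)) (a2 : (3 / 4) ≤ u2) (b2 : u2 ≤ 1) (a3 : (3 / 4) ≤ u3) (b3 : u3 ≤ 1) (a4 : 1 ≤ u4) (b4 : u4 ≤ (5 / 4)) (lo : 3 ≤ T) (hi : T ≤ (13 / 4)) (o1 : u1 ≤ u2) (o2 : u2 ≤ u3) (o3 : u3 ≤ u4) : Good u1 u2 u3 u4 ∨ Good2 u1 u2 u3 u4 := by
  have e1 : H u1 = u1 - 0 := hk_0 (by linarith only [a1]) (by linarith only [b1])
  have f1 : H (4 * u1) = 1 := hk_1 (by linarith only [a1]) (by linarith only [b1])
  have e2 : H u2 = u2 - 0 := hk_0 (by linarith only [a2]) (by linarith only [b2])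
  have f2 : H (4 * u2) = 4 - (4 * u2) := hk_3 (by linarith only [a2]) (by linarith only [b2])
  have e3 : H u3 = u3 - 0 := hk_0 (by linarith only [a3]) (by linarith only [b3])
  have f3 : H (4 * u3) = 4 - (4 * u3) := hk_3 (by linarith only [a3]) (by linarith only [b3])
  have e4 : H u4 = 1 := hk_1 (by linarith only [a4]) (by linarith only [b4])
  have f4 : H (4 * u4) = (4 * u4) - 4 := hk_4 (by linarith only [a4]) (by linarith only [b4])
  have hX : H (T / 4) = (T / 4) - 0 := hk_0 (by linarith only [lo]) (by linarith only [hi])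
  have hS : H T = 4 - T := hk_3 (by linarith only [lo]) (by linarith only [hi])
  have hW : H (4 * T) = (4 * T) - 12 := hk_12 (by linarith only [lo]) (by linarith only [hi])
  have hN : H (4 * T - 10) = 1 := hk_2 (by linarith only [lo]) (by linarith only [hi])
  exact good2_T hT zk_1 zk_3 zk_3 zk_3 (by norm_num) e1 e2 e3 e4 f1 f2 f3 f4 hX hS hW hN (R := ((-4) * u1 + (-4) * u2 + (-4) * u3 + 4 * u4 + 6)) ⟨(by linarith only [hT, b1, o3]), (by linarith only [hT, b1, a4, o2, hi]), (by linarith only [hT, b1, a4, hi]), (by linarith only [hT, b2, o3]), (by linarith only [hT, a4, o2, hi]), (by linarith only [hT, b2, a4, hi]), (by linarith only [hT, b2, b3, a4]), (by linarith only [hT, b1, b3, a4]), (by linarith only [hT, b3, a4, hi]), (by linarith only [hT, b2, b3]), (by linarith only [hT, b1, b3]), (by linarith only [hT, b1, a4, o2, hi])⟩ (by linarith only [hT])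

theorem lf_1_1_3_3_4_13 (u1 u2 u3 u4 T : ℝ) (hT : T = u1 + u2 + u3 + u4) (a1 : (1 / 4) ≤ u1) (b1 : u1 ≤ (1 / 2)) (a2 : (3 / 4) ≤ u2) (b2 : u2 ≤ 1) (a3 : (3 / 4) ≤ u3) (b3 : u3 ≤ 1) (a4 : 1 ≤ u4) (b4 : u4 ≤ (5 / 4)) (lo : (13 / 4) ≤ T) (hi : T ≤ (7 / 2)) (o1 : u1 ≤ u2) (o2 : u2 ≤ u3) (o3 : u3 ≤ u4) : Good u1 u2 u3 u4 ∨ Good2 u1 u2 u3 u4 := by
  have e1 : H u1 = u1 - 0 := hk_0 (by linarith only [a1]) (by linarith only [b1])
  have f1 : H (4 * u1) = 1 := hk_1 (by linarith only [a1]) (by linarith only [b1])
  have e2 : H u2 = u2 - 0 := hk_0 (by linarith only [a2]) (by linarith only [b2])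
  have f2 : H (4 * u2) = 4 - (4 * u2) := hk_3 (by linarith only [a2]) (by linarith only [b2])
  have e3 : H u3 = u3 - 0 := hk_0 (by linarith only [a3]) (by linarith only [b3])
  have f3 : H (4 * u3) = 4 - (4 * u3) := hk_3 (by linarith only [a3]) (by linarith only [b3])
  have e4 : H u4 = 1 := hk_1 (by linarith only [a4]) (by linarith only [b4])
  have f4 : H (4 * u4) = (4 * u4) - 4 := hk_4 (by linarith only [a4]) (by linarith only [b4])
  have hX : H (T / 4) = (T / 4) - 0 := hk_0 (by linarith only [lo]) (by linarith only [hi])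
  have hS : H T = 4 - T := hk_3 (by linarith only [lo]) (by linarith only [hi])
  have hW : H (4 * T) = 1 := hk_13 (by linarith only [lo]) (by linarith only [hi])
  have hN : H (4 * T - 10) = 4 - (4 * T - 10) := hk_3 (by linarith only [lo]) (by linarith only [hi])
  exact good2_T hT zk_1 zk_3 zk_3 zk_3 (by norm_num) e1 e2 e3 e4 f1 f2 f3 f4 hX hS hW hN (R := ((-4) * u1 + (-4) * u2 + (-4) * u3 + 4 * u4 + 6)) ⟨(by linarith only [hT, b1, o3]), (by linarith only [hT, b1, b2, a4]), (by linarith only [hT, b1, a4, hi]), (by linarith only [hT, b2, o3]), (by linarith only [hT, b1, b2, a4]), (by linarith only [hT, b2, a4, hi]), (by linarith only [hT, b2, b3, a4]), (by linarith only [hT, b1, b3, a4]), (by linarith only [hT, b1, b2, o3]), (by linarith only [hT, b2, b3]), (by linarith only [hT, b1, b3]), (by linarith only [hT, b1, b2])⟩ (by linarith only [hT])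

theorem lf_1_2_2_2_4_12 (u1 u2 u3 u4 T : ℝ) (hT : T = u1 + u2 + u3 + u4) (a1 : (1 / 2) ≤ u1) (b1 : u1 ≤ (3 / 4)) (a2 : (1 / 2) ≤ u2) (b2 : u2 ≤ (3 / 4)) (a3 : (1 / 2) ≤ u3) (b3 : u3 ≤ (3 / 4)) (a4 : 1 ≤ u4) (b4 : u4 ≤ (5 / 4)) (lo : 3 ≤ T) (hi : T ≤ (13 / 4)) (o1 : u1 ≤ u2) (o2 : u2 ≤ u3) (o3 : u3 ≤ u4) : Good u1 u2 u3 u4 ∨ Good2 u1 u2 u3 u4 := by
  have e1 : H u1 = u1 - 0 := hk_0 (by linarith only [a1]) (by linarith only [b1])
  have f1 : H (4 * u1) = 1 := hk_2 (by linarith only [a1]) (by linarith only [b1])
  have e2 : H u2 = u2 - 0 := hk_0 (by linarith only [a2]) (by linarith only [b2])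
  have f2 : H (4 * u2) = 1 := hk_2 (by linarith only [a2]) (by linarith only [b2])
  have e3 : H u3 = u3 - 0 := hk_0 (by linarith only [a3]) (by linarith only [b3])
  have f3 : H (4 * u3) = 1 := hk_2 (by linarith only [a3]) (by linarith only [b3])
  have e4 : H u4 = 1 := hk_1 (by linarith only [a4]) (by linarith only [b4])
  have f4 : H (4 * u4) = (4 * u4) - 4 := hk_4 (by linarith only [a4]) (by linarith only [b4])
  have hX : H (T / 4) = (T / 4) - 0 := hk_0 (by linarith only [lo]) (by linarith only [hi])
  have hS : H T = 4 - T := hk_3 (by linarith only [lo]) (by linarith only [hi])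
  have hW : H (4 * T) = (4 * T) - 12 := hk_12 (by linarith only [lo]) (by linarith only [hi])
  have hN : H (4 * T - 6) = 1 := hk_6 (by linarith only [lo]) (by linarith only [hi])
  exact good2_T hT zk_2 zk_1 zk_1 zk_2 (by norm_num) e1 e2 e3 e4 f1 f2 f3 f4 hX hS hW hN (R := ((-4) * u1 + 4 * u4)) ⟨(by linarith only [hT, b1, a4, o1]), (by linarith only [hT, b1, a4, o1, o2]), (by linarith only [hT, b1, a4]), (by linarith only [hT, b2, a4]), (by linarith only [hT, b1, a4, o2]), (by linarith only [hT, b1, b2, a4]), (by linarith only [hT, b3, a4]), (by linarith only [hT, b3, a4, o1]), (by linarith only [hT, b1, b3, a4]), (by linarith only [hT]), (by linarith only [hT, o1]), (by linarith only [hT, o1, o2])⟩ (by linarith only [hT])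

theorem lf_1_2_2_2_4_13 (u1 u2 u3 u4 T : ℝ) (hT : T = u1 + u2 + u3 + u4) (a1 : (1 / 2) ≤ u1) (b1 : u1 ≤ (3 / 4)) (a2 : (1 / 2) ≤ u2) (b2 : u2 ≤ (3 / 4)) (a3 : (1 / 2) ≤ u3) (b3 : u3 ≤ (3 / 4)) (a4 : 1 ≤ u4) (b4 : u4 ≤ (5 / 4)) (lo : (13 / 4) ≤ T) (hi : T ≤ (7 / 2)) (o1 : u1 ≤ u2) (o2 : u2 ≤ u3) (o3 : u3 ≤ u4) : Good u1 u2 u3 u4 ∨ Good2 u1 u2 u3 u4 := by
  have e1 : H u1 = u1 - 0 := hk_0 (by linarith only [a1]) (by linarith only [b1])
  have f1 : H (4 * u1) = 1 := hk_2 (by linarith only [a1]) (by linarith only [b1])
  have e2 : H u2 = u2 - 0 := hk_0 (by linarith only [a2]) (by linarith only [b2])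
  have f2 : H (4 * u2) = 1 := hk_2 (by linarith only [a2]) (by linarith only [b2])
  have e3 : H u3 = u3 - 0 := hk_0 (by linarith only [a3]) (by linarith only [b3])
  have f3 : H (4 * u3) = 1 := hk_2 (by linarith only [a3]) (by linarith only [b3])
  have e4 : H u4 = 1 := hk_1 (by linarith only [a4]) (by linarith only [b4])
  have f4 : H (4 * u4) = (4 * u4) - 4 := hk_4 (by linarith only [a4]) (by linarith only [b4])
  have hX : H (T / 4) = (T / 4) - 0 := hk_0 (by linarith only [lo]) (by linarith only [hi])
  have hS : H T = 4 - T := hk_3 (by linarith only [lo]) (by linarith only [hi])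
  have hW : H (4 * T) = 1 := hk_13 (by linarith only [lo]) (by linarith only [hi])
  have hN : H (4 * T - 6) = 8 - (4 * T - 6) := hk_7 (by linarith only [lo]) (by linarith only [hi])
  exact good2_T hT zk_2 zk_1 zk_1 zk_2 (by norm_num) e1 e2 e3 e4 f1 f2 f3 f4 hX hS hW hN (R := ((-4) * u1 + 4 * u4)) ⟨(by linarith only [hT, b1, b3, lo]), (by linarith only [hT, b1, b2, lo]), (by linarith only [hT, b1, a4]), (by linarith only [hT, b2, a4]), (by linarith only [hT, b1, b2, lo]), (by linarith only [hT, b1, b2, a4]), (by linarith only [hT, b3, a4]), (by linarith only [hT, b1, b3, lo]), (by linarith only [hT, b1, b3, a4]), (by linarith only [hT]), (by linarith only [hT, o1]), (by linarith only [hT, o1, o2])⟩ (by linarith only [hT])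

theorem lf_1_2_2_3_4_12 (u1 u2 u3 u4 T : ℝ) (hT : T = u1 + u2 + u3 + u4) (a1 : (1 / 2) ≤ u1) (b1 : u1 ≤ (3 / 4)) (a2 : (1 / 2) ≤ u2) (b2 : u2 ≤ (3 / 4)) (a3 : (3 / 4) ≤ u3) (b3 : u3 ≤ 1) (a4 : 1 ≤ u4) (b4 : u4 ≤ (5 / 4)) (lo : 3 ≤ T) (hi : T ≤ (13 / 4)) (o1 : u1 ≤ u2) (o2 : u2 ≤ u3) (o3 : u3 ≤ u4) : Good u1 u2 u3 u4 ∨ Good2 u1 u2 u3 u4 := by
  have e1 : H u1 = u1 - 0 := hk_0 (by linarith only [a1]) (by linarith only [b1])
  have f1 : H (4 * u1) = 1 := hk_2 (by linarith only [a1]) (by linarith only [b1])
  have e2 : H u2 = u2 - 0 := hk_0 (by linarith only [a2]) (by linarith only [b2])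
  have f2 : H (4 * u2) = 1 := hk_2 (by linarith only [a2]) (by linarith only [b2])
  have e3 : H u3 = u3 - 0 := hk_0 (by linarith only [a3]) (by linarith only [b3])
  have f3 : H (4 * u3) = 4 - (4 * u3) := hk_3 (by linarith only [a3]) (by linarith only [b3])
  have e4 : H u4 = 1 := hk_1 (by linarith only [a4]) (by linarith only [b4])
  have f4 : H (4 * u4) = (4 * u4) - 4 := hk_4 (by linarith only [a4]) (by linarith only [b4])
  have hX : H (T / 4) = (T / 4) - 0 := hk_0 (by linarith only [lo]) (by linarith only [hi])
  have hS : H T = 4 - T := hk_3 (by linarith only [lo]) (by linarith only [hi])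
  have hW : H (4 * T) = (4 * T) - 12 := hk_12 (by linarith only [lo]) (by linarith only [hi])
  have hN : H (4 * T - 10) = 1 := hk_2 (by linarith only [lo]) (by linarith only [hi])
  exact good2_T hT zk_2 zk_2 zk_3 zk_3 (by norm_num) e1 e2 e3 e4 f1 f2 f3 f4 hX hS hW hN (R := ((-4) * u1 + (-4) * u3 + 4 * u4 + 3)) ⟨(by linarith only [hT, b3, a4, o1, hi]), (by linarith only [hT, b1, a4]), (by linarith only [hT, a4, o1, hi]), (by linarith only [hT, b2, o3]), (by linarith only [hT, b1, b2, a4]), (by linarith only [hT, a4, hi]), (by linarith only [hT, b3, a4]), (by linarith only [hT, b3, a4, o1]), (by linarith only [hT, b3, a4, o1, hi]), (by linarith only [hT, b3]), (by linarith only [hT, b3, o1]), (by linarith only [hT, b1])⟩ (by linarith only [hT])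

theorem lf_1_2_2_3_4_13 (u1 u2 u3 u4 T : ℝ) (hT : T = u1 + u2 + u3 + u4) (a1 : (1 / 2) ≤ u1) (b1 : u1 ≤ (3 / 4)) (a2 : (1 / 2) ≤ u2) (b2 : u2 ≤ (3 / 4)) (a3 : (3 / 4) ≤ u3) (b3 : u3 ≤ 1) (a4 : 1 ≤ u4) (b4 : u4 ≤ (5 / 4)) (lo : (13 / 4) ≤ T) (hi : T ≤ (7 / 2)) (o1 : u1 ≤ u2) (o2 : u2 ≤ u3) (o3 : u3 ≤ u4) : Good u1 u2 u3 u4 ∨ Good2 u1 u2 u3 u4 := by
  have e1 : H u1 = u1 - 0 := hk_0 (by linarith only [a1]) (by linarith only [b1])
  have f1 : H (4 * u1) = 1 := hk_2 (by linarith only [a1]) (by linarith only [b1])
  have e2 : H u2 = u2 - 0 := hk_0 (by linarith only [a2]) (by linarith only [b2])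
  have f2 : H (4 * u2) = 1 := hk_2 (by linarith only [a2]) (by linarith only [b2])
  have e3 : H u3 = u3 - 0 := hk_0 (by linarith only [a3]) (by linarith only [b3])
  have f3 : H (4 * u3) = 4 - (4 * u3) := hk_3 (by linarith only [a3]) (by linarith only [b3])
  have e4 : H u4 = 1 := hk_1 (by linarith only [a4]) (by linarith only [b4])
  have f4 : H (4 * u4) = (4 * u4) - 4 := hk_4 (by linarith only [a4]) (by linarith only [b4])
  have hX : H (T / 4) = (T / 4) - 0 := hk_0 (by linarith only [lo]) (by linarith only [hi])
  have hS : H T = 4 - T := hk_3 (by linarith only [lo]) (by linarith only [hi])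
  have hW : H (4 * T) = 1 := hk_13 (by linarith only [lo]) (by linarith only [hi])
  have hN : H (4 * T - 10) = 4 - (4 * T - 10) := hk_3 (by linarith only [lo]) (by linarith only [hi])
  exact good2_T hT zk_2 zk_2 zk_3 zk_3 (by norm_num) e1 e2 e3 e4 f1 f2 f3 f4 hX hS hW hN (R := ((-4) * u1 + (-4) * u3 + 4 * u4 + 3)) ⟨(by linarith only [hT, b1, o1, o3]), (by linarith only [hT, b1, a4]), (by linarith only [hT, b1, b3, a4]), (by linarith only [hT, b2, o3]), (by linarith only [hT, b1, b2, a4]), (by linarith only [hT, a4, hi]), (by linarith only [hT, b3, a4]), (by linarith only [hT, b3, a4, o1]), (by linarith only [hT, b1, o3]), (by linarith only [hT, b3]), (by linarith only [hT, b3, o1]), (by linarith only [hT, b1])⟩ (by linarith only [hT])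

theorem lf_1_2_2_3_4_14 (u1 u2 u3 u4 T : ℝ) (hT : T = u1 + u2 + u3 + u4) (a1 : (1 / 2) ≤ u1) (b1 : u1 ≤ (3 / 4)) (a2 : (1 / 2) ≤ u2) (b2 : u2 ≤ (3 / 4)) (a3 : (3 / 4) ≤ u3) (b3 : u3 ≤ 1) (a4 : 1 ≤ u4) (b4 : u4 ≤ (5 / 4)) (lo : (7 / 2) ≤ T) (hi : T ≤ (15 / 4)) (o1 : u1 ≤ u2) (o2 : u2 ≤ u3) (o3 : u3 ≤ u4) : Good u1 u2 u3 u4 ∨ Good2 u1 u2 u3 u4 := by
  have e1 : H u1 = u1 - 0 := hk_0 (by linarith only [a1]) (by linarith only [b1])
  have f1 : H (4 * u1) = 1 := hk_2 (by linarith only [a1]) (by linarith only [b1])
  have e2 : H u2 = u2 - 0 := hk_0 (by linarith only [a2]) (by linarith only [b2])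
  have f2 : H (4 * u2) = 1 := hk_2 (by linarith only [a2]) (by linarith only [b2])
  have e3 : H u3 = u3 - 0 := hk_0 (by linarith only [a3]) (by linarith only [b3])
  have f3 : H (4 * u3) = 4 - (4 * u3) := hk_3 (by linarith only [a3]) (by linarith only [b3])
  have e4 : H u4 = 1 := hk_1 (by linarith only [a4]) (by linarith only [b4])
  have f4 : H (4 * u4) = (4 * u4) - 4 := hk_4 (by linarith only [a4]) (by linarith only [b4])
  have hX : H (T / 4) = (T / 4) - 0 := hk_0 (by linarith only [lo]) (by linarith only [hi])
  have hS : H T = 4 - T := hk_3 (by linarith only [lo]) (by linarith only [hi])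
  have hW : H (4 * T) = 1 := hk_14 (by linarith only [lo]) (by linarith only [hi])
  have hN : H (4 * T - 7) = 8 - (4 * T - 7) := hk_7 (by linarith only [lo]) (by linarith only [hi])
  exact good2_T hT zk_2 zk_1 zk_2 zk_2 (by norm_num) e1 e2 e3 e4 f1 f2 f3 f4 hX hS hW hN (R := ((-4) * u1 + (-4) * u3 + 4 * u4 + 4)) ⟨(by linarith only [hT, b1, b3, lo]), (by linarith only [hT, b1, a4]), (by linarith only [hT, b1, b3, a4]), (by linarith only [hT, b2, o3]), (by linarith only [hT, b1, b2, a4]), (by linarith only [hT, b1, b2, b3, a4]), (by linarith only [hT, b3, a4]), (by linarith only [hT, b1, b3, lo]), (by linarith only [hT, b1, o3]), (by linarith only [hT, b3]), (by linarith only [hT, b3, o1]), (by linarith only [hT, b1])⟩ (by linarith only [hT])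

theorem lf_1_2_3_3_4_12 (u1 u2 u3 u4 T : ℝ) (hT : T = u1 + u2 + u3 + u4) (a1 : (1 / 2) ≤ u1) (b1 : u1 ≤ (3 / 4)) (a2 : (3 / 4) ≤ u2) (b2 : u2 ≤ 1) (a3 : (3 / 4) ≤ u3) (b3 : u3 ≤ 1) (a4 : 1 ≤ u4) (b4 : u4 ≤ (5 / 4)) (lo : 3 ≤ T) (hi : T ≤ (13 / 4)) (o1 : u1 ≤ u2) (o2 : u2 ≤ u3) (o3 : u3 ≤ u4) : Good u1 u2 u3 u4 ∨ Good2 u1 u2 u3 u4 := by
  have e1 : H u1 = u1 - 0 := hk_0 (by linarith only [a1]) (by linarith only [b1])
  have f1 : H (4 * u1) = 1 := hk_2 (by linarith only [a1]) (by linarith only [b1])
  have e2 : H u2 = u2 - 0 := hk_0 (by linarith only [a2]) (by linarith only [b2])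
  have f2 : H (4 * u2) = 4 - (4 * u2) := hk_3 (by linarith only [a2]) (by linarith only [b2])
  have e3 : H u3 = u3 - 0 := hk_0 (by linarith only [a3]) (by linarith only [b3])
  have f3 : H (4 * u3) = 4 - (4 * u3) := hk_3 (by linarith only [a3]) (by linarith only [b3])
  have e4 : H u4 = 1 := hk_1 (by linarith only [a4]) (by linarith only [b4])
  have f4 : H (4 * u4) = (4 * u4) - 4 := hk_4 (by linarith only [a4]) (by linarith only [b4])
  have hX : H (T / 4) = (T / 4) - 0 := hk_0 (by linarith only [lo]) (by linarith only [hi])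
  have hS : H T = 4 - T := hk_3 (by linarith only [lo]) (by linarith only [hi])
  have hW : H (4 * T) = (4 * T) - 12 := hk_12 (by linarith only [lo]) (by linarith only [hi])
  have hN : H (4 * T - 11) = 1 := hk_1 (by linarith only [lo]) (by linarith only [hi])
  exact good2_T hT zk_2 zk_3 zk_3 zk_3 (by norm_num) e1 e2 e3 e4 f1 f2 f3 f4 hX hS hW hN (R := ((-4) * u1 + (-4) * u2 + (-4) * u3 + 4 * u4 + 6)) ⟨(by linarith only [hT, a4, o1, hi]), (by linarith only [hT, b1, a3, a4, hi]), (by linarith only [hT, b1, a4, hi]), (by linarith only [hT, a1, a4, o2, hi]), (by linarith only [hT, a4, o2, hi]), (by linarith only [hT, a1, a4, o2, hi]), (by linarith only [hT, a1, a2, a4, hi]), (by linarith only [hT, a1, a2, a4, hi]), (by linarith only [hT, b3, a4, hi]), (by linarith only [hT, a1, a4, hi]), (by linarith only [hT, a2, a4, hi]), (by linarith only [hT, a3, a4, hi])⟩ (by linarith only [hT])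

theorem lf_1_2_3_3_4_13 (u1 u2 u3 u4 T : ℝ) (hT : T = u1 + u2 + u3 + u4) (a1 : (1 / 2) ≤ u1) (b1 : u1 ≤ (3 / 4)) (a2 : (3 / 4) ≤ u2) (b2 : u2 ≤ 1) (a3 : (3 / 4) ≤ u3) (b3 : u3 ≤ 1) (a4 : 1 ≤ u4) (b4 : u4 ≤ (5 / 4)) (lo : (13 / 4) ≤ T) (hi : T ≤ (7 / 2)) (o1 : u1 ≤ u2) (o2 : u2 ≤ u3) (o3 : u3 ≤ u4) : Good u1 u2 u3 u4 ∨ Good2 u1 u2 u3 u4 := by
  have e1 : H u1 = u1 - 0 := hk_0 (by linarith only [a1]) (by linarith only [b1])
  have f1 : H (4 * u1) = 1 := hk_2 (by linarith only [a1]) (by linarith only [b1])
  have e2 : H u2 = u2 - 0 := hk_0 (by linarith only [a2]) (by linarith only [b2])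
  have f2 : H (4 * u2) = 4 - (4 * u2) := hk_3 (by linarith only [a2]) (by linarith only [b2])
  have e3 : H u3 = u3 - 0 := hk_0 (by linarith only [a3]) (by linarith only [b3])
  have f3 : H (4 * u3) = 4 - (4 * u3) := hk_3 (by linarith only [a3]) (by linarith only [b3])
  have e4 : H u4 = 1 := hk_1 (by linarith only [a4]) (by linarith only [b4])
  have f4 : H (4 * u4) = (4 * u4) - 4 := hk_4 (by linarith only [a4]) (by linarith only [b4])
  have hX : H (T / 4) = (T / 4) - 0 := hk_0 (by linarith only [lo]) (by linarith only [hi])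
  have hS : H T = 4 - T := hk_3 (by linarith only [lo]) (by linarith only [hi])
  have hW : H (4 * T) = 1 := hk_13 (by linarith only [lo]) (by linarith only [hi])
  have hN : H (4 * T - 11) = 1 := hk_2 (by linarith only [lo]) (by linarith only [hi])
  exact good2_T hT zk_2 zk_3 zk_3 zk_3 (by norm_num) e1 e2 e3 e4 f1 f2 f3 f4 hX hS hW hN (R := (8 * u4 + (-7))) ⟨(by linarith only [hT, a4, o1]), (by linarith only [hT, b1, a3, a4]), (by linarith only [hT, b1, a4]), (by linarith only [hT, a1, b2, a4]), (by linarith only [hT, a4, o2]), (by linarith only [hT, b2, a4]), (by linarith only [hT, a1, b3, a4]), (by linarith only [hT, a2, b3, a4]), (by linarith only [hT, b3, a4]), (by linarith only [hT, a1, a4]), (by linarith only [hT, a2, a4]), (by linarith only [hT, a3, a4])⟩ (by linarith only [hT])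

theorem lf_1_2_3_3_4_14 (u1 u2 u3 u4 T : ℝ) (hT : T = u1 + u2 + u3 + u4) (a1 : (1 / 2) ≤ u1) (b1 : u1 ≤ (3 / 4)) (a2 : (3 / 4) ≤ u2) (b2 : u2 ≤ 1) (a3 : (3 / 4) ≤ u3) (b3 : u3 ≤ 1) (a4 : 1 ≤ u4) (b4 : u4 ≤ (5 / 4)) (lo : (7 / 2) ≤ T) (hi : T ≤ (15 / 4)) (o1 : u1 ≤ u2) (o2 : u2 ≤ u3) (o3 : u3 ≤ u4) : Good u1 u2 u3 u4 ∨ Good2 u1 u2 u3 u4 := by
  have e1 : H u1 = u1 - 0 := hk_0 (by linarith only [a1]) (by linarith only [b1])
  have f1 : H (4 * u1) = 1 := hk_2 (by linarith only [a1]) (by linarith only [b1])
  have e2 : H u2 = u2 - 0 := hk_0 (by linarith only [a2]) (by linarith only [b2])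
  have f2 : H (4 * u2) = 4 - (4 * u2) := hk_3 (by linarith only [a2]) (by linarith only [b2])
  have e3 : H u3 = u3 - 0 := hk_0 (by linarith only [a3]) (by linarith only [b3])
  have f3 : H (4 * u3) = 4 - (4 * u3) := hk_3 (by linarith only [a3]) (by linarith only [b3])
  have e4 : H u4 = 1 := hk_1 (by linarith only [a4]) (by linarith only [b4])
  have f4 : H (4 * u4) = (4 * u4) - 4 := hk_4 (by linarith only [a4]) (by linarith only [b4])
  have hX : H (T / 4) = (T / 4) - 0 := hk_0 (by linarith only [lo]) (by linarith only [hi])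
  have hS : H T = 4 - T := hk_3 (by linarith only [lo]) (by linarith only [hi])
  have hW : H (4 * T) = 1 := hk_14 (by linarith only [lo]) (by linarith only [hi])
  have hN : H (4 * T - 11) = 4 - (4 * T - 11) := hk_3 (by linarith only [lo]) (by linarith only [hi])
  exact good2_T hT zk_2 zk_3 zk_3 zk_3 (by norm_num) e1 e2 e3 e4 f1 f2 f3 f4 hX hS hW hN (R := ((-4) * u1 + (-4) * u2 + (-4) * u3 + 4 * u4 + 7)) ⟨(by linarith only [hT, b1, o3]), (by linarith only [hT, b1, b2, a4]), (by linarith only [hT, b1, a4, hi]), (by linarith only [hT, b2, o3]), (by linarith only [hT, b1, b2, a4]), (by linarith only [hT, b2, a4, hi]), (by linarith only [hT, b2, b3, a4]), (by linarith only [hT, b1, b3, a4]), (by linarith only [hT, b1, b2, o3]), (by linarith only [hT, b2, b3]), (by linarith only [hT, b1, b3]), (by linarith only [hT, b1, b2])⟩ (by linarith only [hT])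

theorem lf_1_3_3_3_4_13 (u1 u2 u3 u4 T : ℝ) (hT : T = u1 + u2 + u3 + u4) (a1 : (3 / 4) ≤ u1) (b1 : u1 ≤ 1) (a2 : (3 / 4) ≤ u2) (b2 : u2 ≤ 1) (a3 : (3 / 4) ≤ u3) (b3 : u3 ≤ 1) (a4 : 1 ≤ u4) (b4 : u4 ≤ (5 / 4)) (lo : (13 / 4) ≤ T) (hi : T ≤ (7 / 2)) (o1 : u1 ≤ u2) (o2 : u2 ≤ u3) (o3 : u3 ≤ u4) : Good u1 u2 u3 u4 ∨ Good2 u1 u2 u3 u4 := by
  have e1 : H u1 = u1 - 0 := hk_0 (by linarith only [a1]) (by linarith only [b1])
  have f1 : H (4 * u1) = 4 - (4 * u1) := hk_3 (by linarith only [a1]) (by linarith only [b1])
  have e2 : H u2 = u2 - 0 := hk_0 (by linarith only [a2]) (by linarith only [b2])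
  have f2 : H (4 * u2) = 4 - (4 * u2) := hk_3 (by linarith only [a2]) (by linarith only [b2])
  have e3 : H u3 = u3 - 0 := hk_0 (by linarith only [a3]) (by linarith only [b3])
  have f3 : H (4 * u3) = 4 - (4 * u3) := hk_3 (by linarith only [a3]) (by linarith only [b3])
  have e4 : H u4 = 1 := hk_1 (by linarith only [a4]) (by linarith only [b4])
  have f4 : H (4 * u4) = (4 * u4) - 4 := hk_4 (by linarith only [a4]) (by linarith only [b4])
  have hX : H (T / 4) = (T / 4) - 0 := hk_0 (by linarith only [lo]) (by linarith only [hi])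
  have hS : H T = 4 - T := hk_3 (by linarith only [lo]) (by linarith only [hi])
  have hW : H (4 * T) = 1 := hk_13 (by linarith only [lo]) (by linarith only [hi])
  have hN : H (4 * T - 12) = 1 := hk_1 (by linarith only [lo]) (by linarith only [hi])
  exact good2_T hT zk_3 zk_3 zk_3 zk_3 (by norm_num) e1 e2 e3 e4 f1 f2 f3 f4 hX hS hW hN (R := ((-4) * u1 + 8 * u4 + (-4))) ⟨(by linarith only [hT, a4, o1, o2, hi]), (by linarith only [hT, a4, o1, o2, hi]), (by linarith only [hT, a4, o1, o2, hi]), (by linarith only [hT, a1, a4, o2, hi]), (by linarith only [hT, a4, o1, o2, hi]), (by linarith only [hT, a4, o1, o2, hi]), (by linarith only [hT, b3, a4]), (by linarith only [hT, a2, a4, hi]), (by linarith only [hT, a2, a4, hi]), (by linarith only [hT, a4]), (by linarith only [hT, a4, o1]), (by linarith only [hT, a4, o1, o2])⟩ (by linarith only [hT])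

theorem lf_1_3_3_3_4_14 (u1 u2 u3 u4 T : ℝ) (hT : T = u1 + u2 + u3 + u4) (a1 : (3 / 4) ≤ u1) (b1 : u1 ≤ 1) (a2 : (3 / 4) ≤ u2) (b2 : u2 ≤ 1) (a3 : (3 / 4) ≤ u3) (b3 : u3 ≤ 1) (a4 : 1 ≤ u4) (b4 : u4 ≤ (5 / 4)) (lo : (7 / 2) ≤ T) (hi : T ≤ (15 / 4)) (o1 : u1 ≤ u2) (o2 : u2 ≤ u3) (o3 : u3 ≤ u4) : Good u1 u2 u3 u4 ∨ Good2 u1 u2 u3 u4 := by
  have e1 : H u1 = u1 - 0 := hk_0 (by linarith only [a1]) (by linarith only [b1])
  have f1 : H (4 * u1) = 4 - (4 * u1) := hk_3 (by linarith only [a1]) (by linarith only [b1])
  have e2 : H u2 = u2 - 0 := hk_0 (by linarith only [a2]) (by linarith only [b2])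
  have f2 : H (4 * u2) = 4 - (4 * u2) := hk_3 (by linarith only [a2]) (by linarith only [b2])
  have e3 : H u3 = u3 - 0 := hk_0 (by linarith only [a3]) (by linarith only [b3])
  have f3 : H (4 * u3) = 4 - (4 * u3) := hk_3 (by linarith only [a3]) (by linarith only [b3])
  have e4 : H u4 = 1 := hk_1 (by linarith only [a4]) (by linarith only [b4])
  have f4 : H (4 * u4) = (4 * u4) - 4 := hk_4 (by linarith only [a4]) (by linarith only [b4])
  have hX : H (T / 4) = (T / 4) - 0 := hk_0 (by linarith only [lo]) (by linarith only [hi])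
  have hS : H T = 4 - T := hk_3 (by linarith only [lo]) (by linarith only [hi])
  have hW : H (4 * T) = 1 := hk_14 (by linarith only [lo]) (by linarith only [hi])
  have hN : H (4 * T - 12) = 1 := hk_2 (by linarith only [lo]) (by linarith only [hi])
  exact good2_T hT zk_3 zk_3 zk_3 zk_3 (by norm_num) e1 e2 e3 e4 f1 f2 f3 f4 hX hS hW hN (R := ((-4) * u1 + 8 * u4 + (-4))) ⟨(by linarith only [hT, a4, o1, o2, hi]), (by linarith only [hT, a4, o1, o2, hi]), (by linarith only [hT, a4, o1, o2, hi]), (by linarith only [hT, b2, a4]), (by linarith only [hT, a4, o1, o2, hi]), (by linarith only [hT, a4, o1, o2, hi]), (by linarith only [hT, b3, a4]), (by linarith only [hT, b3, a4, o1]), (by linarith only [hT, b3, a4, o1, hi]), (by linarith only [hT, a4]), (by linarith only [hT, a4, o1]), (by linarith only [hT, a4, o1, o2])⟩ (by linarith only [hT])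

theorem lf_1_3_3_3_4_15 (u1 u2 u3 u4 T : ℝ) (hT : T = u1 + u2 + u3 + u4) (a1 : (3 / 4) ≤ u1) (b1 : u1 ≤ 1) (a2 : (3 / 4) ≤ u2) (b2 : u2 ≤ 1) (a3 : (3 / 4) ≤ u3) (b3 : u3 ≤ 1) (a4 : 1 ≤ u4) (b4 : u4 ≤ (5 / 4)) (lo : (15 / 4) ≤ T) (hi : T ≤ 4) (o1 : u1 ≤ u2) (o2 : u2 ≤ u3) (o3 : u3 ≤ u4) : Good u1 u2 u3 u4 ∨ Good2 u1 u2 u3 u4 := by
  have e1 : H u1 = u1 - 0 := hk_0 (by linarith only [a1]) (by linarith only [b1])
  have f1 : H (4 * u1) = 4 - (4 * u1) := hk_3 (by linarith only [a1]) (by linarith only [b1])
  have e2 : H u2 = u2 - 0 := hk_0 (by linarith only [a2]) (by linarith only [b2])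
  have f2 : H (4 * u2) = 4 - (4 * u2) := hk_3 (by linarith only [a2]) (by linarith only [b2])
  have e3 : H u3 = u3 - 0 := hk_0 (by linarith only [a3]) (by linarith only [b3])
  have f3 : H (4 * u3) = 4 - (4 * u3) := hk_3 (by linarith only [a3]) (by linarith only [b3])
  have e4 : H u4 = 1 := hk_1 (by linarith only [a4]) (by linarith only [b4])
  have f4 : H (4 * u4) = (4 * u4) - 4 := hk_4 (by linarith only [a4]) (by linarith only [b4])
  have hX : H (T / 4) = (T / 4) - 0 := hk_0 (by linarith only [lo]) (by linarith only [hi])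
  have hS : H T = 4 - T := hk_3 (by linarith only [lo]) (by linarith only [hi])
  have hW : H (4 * T) = 16 - (4 * T) := hk_15 (by linarith only [lo]) (by linarith only [hi])
  have hN : H (4 * T - 12) = 4 - (4 * T - 12) := hk_3 (by linarith only [lo]) (by linarith only [hi])
  exact good2_T hT zk_3 zk_3 zk_3 zk_3 (by norm_num) e1 e2 e3 e4 f1 f2 f3 f4 hX hS hW hN (R := ((-4) * u1 + 8 * u4 + (-4))) ⟨(by linarith only [hT, b1, a4, o1]), (by linarith only [hT, b1, a4, o1, o2]), (by linarith only [hT, b1, a4]), (by linarith only [hT, b2, a4]), (by linarith only [hT, b1, a4, o2]), (by linarith only [hT, b1, b2, a4]), (by linarith only [hT, b3, a4]), (by linarith only [hT, b3, a4, o1]), (by linarith only [hT, b1, b3, a4]), (by linarith only [hT, a4]), (by linarith only [hT, a4, o1]), (by linarith only [hT, a4, o1, o2])⟩ (by linarith only [hT])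

theorem sp_0_0_0_1_3 (u1 u2 u3 u4 T : ℝ) (hT : T = u1 + u2 + u3 + u4) (a1 : 0 ≤ u1) (b1 : u1 ≤ 0 + 1) (a2 : 0 ≤ u2) (b2 : u2 ≤ 0 + 1) (a3 : 0 ≤ u3) (b3 : u3 ≤ 0 + 1) (a4 : 1 ≤ u4) (b4 : u4 ≤ 1 + 1) (o1 : u1 ≤ u2) (o2 : u2 ≤ u3) (o3 : u3 ≤ u4) (s1 : 3 ≤ T) (s2 : T ≤ 4) : Good u1 u2 u3 u4 ∨ Good2 u1 u2 u3 u4 := by
  have e1 : H u1 = u1 - 0 := hk_0 a1 b1
  have e2 : H u2 = u2 - 0 := hk_0 a2 b2
  have e3 : H u3 = u3 - 0 := hk_0 a3 b3
  have e4 : H u4 = 1 := hk_1 a4 b4
  have hX : H (T / 4) = (T / 4) - 0 := hk_0 (by linarith only [s1]) (by linarith only [s2])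
  have hS : H T = 4 - T := hk_3 s1 (by linarith only [s2])
  by_cases hc : 3 ≤ u2 + 2 * u4
  · skip
    have hN : H (T - 1) = 1 := hk_2 (by linarith only [s1]) (by linarith only [s2])
    exact good_T hT zk_0 zk_0 zk_0 zk_1 (by norm_num) e1 e2 e3 e4 hX hS hN (R := (u2 + u3 + u4 + (-2))) ⟨(by linarith only [hT, o1, o2, s1, hc]), (by linarith only [hT, o1, o2, s1, hc]), (by linarith only [hT, o1, o2, hc]), (by linarith only [hT, b2, s1]), (by linarith only [hT, o1, o2, s1, hc]), (by linarith only [hT, o2, hc]), (by linarith only [hT, b3, s1]), (by linarith only [hT, b3, o1, s1]), (by linarith only [hT, hc]), (by linarith only [hT, b4, s1]), (by linarith only [hT, b4, o1, s1]), (by linarith only [hT, b4, o1, o2, s1])⟩ (by linarith only [hT])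
  push Not at hc
  have B1 : u1 ≤ 1 := by linarith only [b1]
  have B2 : u2 ≤ 1 := by linarith only [b2]
  have B3 : u3 ≤ 1 := by linarith only [b3]
  have B4 : u4 ≤ 2 := by linarith only [b4]
  rcases le_total u1 (1 / 2) with z1 | z1
  · skip
    rcases le_total u1 (1 / 4) with z2 | z2
    · skip
      rcases le_total u2 (1 / 2) with z3 | z3
      · skip
        exfalso; linarith only [hT, hc, z2, z3, B3, s1]
      · skip
        rcases le_total u2 (3 / 4) with z4 | z4
        · skip
          rcases le_total u3 (1 / 2) with z5 | z5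
          · skip
            exfalso; linarith only [hT, hc, z2, z5, o2, s1]
          · skip
            rcases le_total u3 (3 / 4) with z6 | z6
            · skip
              exfalso; linarith only [hT, hc, z2, z4, z6, s1]
            · skip
              rcases le_total u4 (3 / 2) with z7 | z7
              · skip
                rcases le_total u4 (5 / 4) with z8 | z8
                · skip
                  rcases le_total T (7 / 2) with z9 | z9
                  · skip
                    rcases le_total T (13 / 4) with z10 | z10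
                    · skip
                      exact lf_1_0_2_3_4_12 u1 u2 u3 u4 T hT a1 z2 z3 z4 z6 B3 a4 z8 s1 z10 o1 o2 o3
                    · skip
                      exfalso; linarith only [hT, hc, z2, z4, B3, z10]
                  · skip
                    exfalso; linarith only [hT, z9, z2, z4, B3, z8]
                · skip
                  exfalso; linarith only [hT, hc, z3, z8]
              · skip
                exfalso; linarith only [hT, hc, z3, z7]
        · skip
          rcases le_total u3 (1 / 2) with z11 | z11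
          · skip
            exfalso; linarith only [hT, o2, z4, z11]
          · skip
            rcases le_total u3 (3 / 4) with z12 | z12
            · skip
              exfalso; linarith only [hT, hc, z2, z12, o2, s1]
            · skip
              rcases le_total u4 (3 / 2) with z13 | z13
              · skip
                rcases le_total u4 (5 / 4) with z14 | z14
                · skip
                  rcases le_total T (7 / 2) with z15 | z15
                  · skip
                    rcases le_total T (13 / 4) with z16 | z16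
                    · skip
                      exact lf_1_0_3_3_4_12 u1 u2 u3 u4 T hT a1 z2 z4 B2 z12 B3 a4 z14 s1 z16 o1 o2 o3
                    · skip
                      exfalso; linarith only [hT, hc, z2, o3, z16]
                  · skip
                    exfalso; linarith only [hT, hc, z2, B2, B3, z15]
                · skip
                  exfalso; linarith only [hT, hc, z4, z14]
              · skip
                exfalso; linarith only [hT, hc, z4, z13]
    · skip
      rcases le_total u2 (1 / 2) with z17 | z17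
      · skip
        rcases le_total u2 (1 / 4) with z18 | z18
        · skip
          exfalso; linarith only [hT, hc, z18, B3, o1, s1]
        · skip
          rcases le_total u3 (1 / 2) with z19 | z19
          · skip
            exfalso; linarith only [hT, hc, z1, z17, z19, s1]
          · skip
            rcases le_total u3 (3 / 4) with z20 | z20
            · skip
              exfalso; linarith only [hT, hc, z1, z17, z20, s1]
            · skip
              rcases le_total u4 (3 / 2) with z21 | z21
              · skip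
                rcases le_total u4 (5 / 4) with z22 | z22
                · skip
                  rcases le_total T (7 / 2) with z23 | z23
                  · skip
                    rcases le_total T (13 / 4) with z24 | z24
                    · skip
                      exact lf_1_1_1_3_4_12 u1 u2 u3 u4 T hT z2 z1 z18 z17 z20 B3 a4 z22 s1 z24 o1 o2 o3
                    · skip
                      exfalso; linarith only [hT, hc, z1, z17, B3, z24]
                  · skip
                    exfalso; linarith only [hT, z23, z1, z17, B3, z22]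
                · skip
                  rcases le_total T (7 / 2) with z25 | z25
                  · skip
                    rcases le_total T (13 / 4) with z26 | z26
                    · skip
                      exact lf_1_1_1_3_5_12 u1 u2 u3 u4 T hT z2 z1 z18 z17 z20 B3 z22 z21 s1 z26 o1 o2 o3
                    · skip
                      exfalso; linarith only [hT, hc, z1, z17, B3, z26]
                  · skip
                    exfalso; linarith only [hT, hc, z1, z17, B3, z25]
              · skip
                exfalso; linarith only [hT, hc, z18, z21]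
      · skip
        rcases le_total u2 (3 / 4) with z27 | z27
        · skip
          rcases le_total u3 (1 / 2) with z28 | z28
          · skip
            exfalso; linarith only [hT, hc, z1, z28, o2, s1]
          · skip
            rcases le_total u3 (3 / 4) with z29 | z29
            · skip
              rcases le_total u4 (3 / 2) with z30 | z30
              · skip
                rcases le_total u4 (5 / 4) with z31 | z31
                · skip
                  rcases le_total T (7 / 2) with z32 | z32
                  · skip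
                    rcases le_total T (13 / 4) with z33 | z33
                    · skip
                      exact lf_1_1_2_2_4_12 u1 u2 u3 u4 T hT z2 z1 z17 z27 z28 z29 a4 z31 s1 z33 o1 o2 o3
                    · skip
                      exfalso; linarith only [hT, hc, z1, z27, z29, z33]
                  · skip
                    exfalso; linarith only [hT, z32, z1, z27, z29, z31]
                · skip
                  exfalso; linarith only [hT, hc, z17, z31]
              · skip
                exfalso; linarith only [hT, hc, z17, z30]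
            · skip
              rcases le_total u4 (3 / 2) with z34 | z34
              · skip
                rcases le_total u4 (5 / 4) with z35 | z35
                · skip
                  rcases le_total T (7 / 2) with z36 | z36
                  · skip
                    rcases le_total T (13 / 4) with z37 | z37
                    · skip
                      exact lf_1_1_2_3_4_12 u1 u2 u3 u4 T hT z2 z1 z17 z27 z29 B3 a4 z35 s1 z37 o1 o2 o3
                    · skip
                      exact lf_1_1_2_3_4_13 u1 u2 u3 u4 T hT z2 z1 z17 z27 z29 B3 a4 z35 z37 z36 o1 o2 o3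
                  · skip
                    exfalso; linarith only [hT, hc, z1, z27, B3, z36]
                · skip
                  exfalso; linarith only [hT, hc, z17, z35]
              · skip
                exfalso; linarith only [hT, hc, z17, z34]
        · skip
          rcases le_total u3 (1 / 2) with z38 | z38
          · skip
            exfalso; linarith only [hT, o2, z27, z38]
          · skip
            rcases le_total u3 (3 / 4) with z39 | z39
            · skip
              rcases le_total u4 (3 / 2) with z40 | z40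
              · skip
                rcases le_total u4 (5 / 4) with z41 | z41
                · skip
                  rcases le_total T (7 / 2) with z42 | z42
                  · skip
                    rcases le_total T (13 / 4) with z43 | z43
                    · skip
                      exact lf_1_1_3_3_4_12 u1 u2 u3 u4 T hT z2 z1 z27 B2 (by linarith only [hT, z27, o2]) (by linarith only [hT, z39]) a4 z41 s1 z43 o1 o2 o3
                    · skip
                      exfalso; linarith only [hT, hc, z1, z39, o2, z43]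
                  · skip
                    exfalso; linarith only [hT, z42, z1, z39, z41, o2]
                · skip
                  exfalso; linarith only [hT, hc, z27, z41]
              · skip
                exfalso; linarith only [hT, hc, z27, z40]
            · skip
              rcases le_total u4 (3 / 2) with z44 | z44
              · skip
                rcases le_total u4 (5 / 4) with z45 | z45
                · skip
                  rcases le_total T (7 / 2) with z46 | z46
                  · skip
                    rcases le_total T (13 / 4) with z47 | z47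
                    · skip
                      exact lf_1_1_3_3_4_12 u1 u2 u3 u4 T hT z2 z1 z27 B2 z39 B3 a4 z45 s1 z47 o1 o2 o3
                    · skip
                      exact lf_1_1_3_3_4_13 u1 u2 u3 u4 T hT z2 z1 z27 B2 z39 B3 a4 z45 z47 z46 o1 o2 o3
                  · skip
                    exfalso; linarith only [hT, hc, z1, o3, z46]
                · skip
                  exfalso; linarith only [hT, hc, z27, z45]
              · skip
                exfalso; linarith only [hT, hc, z27, z44]
  · skip
    rcases le_total u1 (3 / 4) with z48 | z48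
    · skip
      rcases le_total u2 (1 / 2) with z49 | z49
      · skip
        rcases le_total u2 (1 / 4) with z50 | z50
        · skip
          exfalso; linarith only [hT, o1, z1, z50]
        · skip
          rcases le_total u3 (1 / 2) with z51 | z51
          · skip
            exfalso; linarith only [hT, hc, z49, z51, o1, s1]
          · skip
            rcases le_total u3 (3 / 4) with z52 | z52
            · skip
              exfalso; linarith only [hT, hc, z49, z52, o1, s1]
            · skip
              rcases le_total u4 (3 / 2) with z53 | z53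
              · skip
                rcases le_total u4 (5 / 4) with z54 | z54
                · skip
                  rcases le_total T (7 / 2) with z55 | z55
                  · skip
                    rcases le_total T (13 / 4) with z56 | z56
                    · skip
                      exact lf_1_2_2_3_4_12 u1 u2 u3 u4 T hT z1 z48 (by linarith only [hT, z1, o1]) (by linarith only [hT, z49]) z52 B3 a4 z54 s1 z56 o1 o2 o3
                    · skip
                      exfalso; linarith only [hT, hc, z49, B3, o1, z56]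
                  · skip
                    exfalso; linarith only [hT, z55, z49, B3, z54, o1]
                · skip
                  exfalso; linarith only [hT, hc, z1, z54, o1]
              · skip
                exfalso; linarith only [hT, hc, z1, z53, o1]
      · skip
        rcases le_total u2 (3 / 4) with z57 | z57
        · skip
          rcases le_total u3 (1 / 2) with z58 | z58
          · skip
            exfalso; linarith only [hT, hc, z58, o1, o2, s1]
          · skip
            rcases le_total u3 (3 / 4) with z59 | z59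
            · skip
              rcases le_total u4 (3 / 2) with z60 | z60
              · skip
                rcases le_total u4 (5 / 4) with z61 | z61
                · skip
                  rcases le_total T (7 / 2) with z62 | z62
                  · skip
                    rcases le_total T (13 / 4) with z63 | z63
                    · skip
                      exact lf_1_2_2_2_4_12 u1 u2 u3 u4 T hT z1 z48 z49 z57 z58 z59 a4 z61 s1 z63 o1 o2 o3
                    · skip
                      exact lf_1_2_2_2_4_13 u1 u2 u3 u4 T hT z1 z48 z49 z57 z58 z59 a4 z61 z63 z62 o1 o2 o3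
                  · skip
                    exfalso; linarith only [hT, hc, z48, z57, z59, z62]
                · skip
                  exfalso; linarith only [hT, hc, z49, z61]
              · skip
                exfalso; linarith only [hT, hc, z49, z60]
            · skip
              rcases le_total u4 (3 / 2) with z64 | z64
              · skip
                rcases le_total u4 (5 / 4) with z65 | z65
                · skip
                  rcases le_total T (7 / 2) with z66 | z66
                  · skip
                    rcases le_total T (13 / 4) with z67 | z67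
                    · skip
                      exact lf_1_2_2_3_4_12 u1 u2 u3 u4 T hT z1 z48 z49 z57 z59 B3 a4 z65 s1 z67 o1 o2 o3
                    · skip
                      exact lf_1_2_2_3_4_13 u1 u2 u3 u4 T hT z1 z48 z49 z57 z59 B3 a4 z65 z67 z66 o1 o2 o3
                  · skip
                    rcases le_total T (15 / 4) with z68 | z68
                    · skip
                      exact lf_1_2_2_3_4_14 u1 u2 u3 u4 T hT z1 z48 z49 z57 z59 B3 a4 z65 z66 z68 o1 o2 o3
                    · skip
                      exfalso; linarith only [hT, hc, z48, z57, B3, z68]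
                · skip
                  exfalso; linarith only [hT, hc, z49, z65]
              · skip
                exfalso; linarith only [hT, hc, z49, z64]
        · skip
          rcases le_total u3 (1 / 2) with z69 | z69
          · skip
            exfalso; linarith only [hT, o2, z57, z69]
          · skip
            rcases le_total u3 (3 / 4) with z70 | z70
            · skip
              rcases le_total u4 (3 / 2) with z71 | z71
              · skip
                rcases le_total u4 (5 / 4) with z72 | z72
                · skip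
                  rcases le_total T (7 / 2) with z73 | z73
                  · skip
                    rcases le_total T (13 / 4) with z74 | z74
                    · skip
                      exact lf_1_2_3_3_4_12 u1 u2 u3 u4 T hT z1 z48 z57 B2 (by linarith only [hT, z57, o2]) (by linarith only [hT, z70]) a4 z72 s1 z74 o1 o2 o3
                    · skip
                      exact lf_1_2_3_3_4_13 u1 u2 u3 u4 T hT z1 z48 z57 B2 (by linarith only [hT, z57, o2]) (by linarith only [hT, z70]) a4 z72 z74 z73 o1 o2 o3
                  · skip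
                    exfalso; linarith only [hT, hc, z48, z70, o2, z73]
                · skip
                  exfalso; linarith only [hT, hc, z57, z72]
              · skip
                exfalso; linarith only [hT, hc, z57, z71]
            · skip
              rcases le_total u4 (3 / 2) with z75 | z75
              · skip
                rcases le_total u4 (5 / 4) with z76 | z76
                · skip
                  rcases le_total T (7 / 2) with z77 | z77
                  · skip
                    rcases le_total T (13 / 4) with z78 | z78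
                    · skip
                      exact lf_1_2_3_3_4_12 u1 u2 u3 u4 T hT z1 z48 z57 B2 z70 B3 a4 z76 s1 z78 o1 o2 o3
                    · skip
                      exact lf_1_2_3_3_4_13 u1 u2 u3 u4 T hT z1 z48 z57 B2 z70 B3 a4 z76 z78 z77 o1 o2 o3
                  · skip
                    rcases le_total T (15 / 4) with z79 | z79
                    · skip
                      exact lf_1_2_3_3_4_14 u1 u2 u3 u4 T hT z1 z48 z57 B2 z70 B3 a4 z76 z77 z79 o1 o2 o3
                    · skip
                      exfalso; linarith only [hT, hc, z48, o3, z79]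
                · skip
                  exfalso; linarith only [hT, hc, z57, z76]
              · skip
                exfalso; linarith only [hT, hc, z57, z75]
    · skip
      rcases le_total u2 (1 / 2) with z80 | z80
      · skip
        exfalso; linarith only [hT, o1, z48, z80]
      · skip
        rcases le_total u2 (3 / 4) with z81 | z81
        · skip
          rcases le_total u3 (1 / 2) with z82 | z82
          · skip
            exfalso; linarith only [hT, o2, z48, z82, o1]
          · skip
            rcases le_total u3 (3 / 4) with z83 | z83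
            · skip
              rcases le_total u4 (3 / 2) with z84 | z84
              · skip
                rcases le_total u4 (5 / 4) with z85 | z85
                · skip
                  rcases le_total T (7 / 2) with z86 | z86
                  · skip
                    rcases le_total T (13 / 4) with z87 | z87
                    · skip
                      exact lf_1_3_3_3_4_13 u1 u2 u3 u4 T hT z48 B1 (by linarith only [hT, z48, o1]) (by linarith only [hT, z81]) (by linarith only [hT, z48, o1, o2]) (by linarith only [hT, z83]) a4 z85 (by linarith only [hT, z48, a4, o1, o2]) (by linarith only [hT, z87]) o1 o2 o3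
                    · skip
                      exact lf_1_3_3_3_4_13 u1 u2 u3 u4 T hT z48 B1 (by linarith only [hT, z48, o1]) (by linarith only [hT, z81]) (by linarith only [hT, z48, o1, o2]) (by linarith only [hT, z83]) a4 z85 z87 z86 o1 o2 o3
                  · skip
                    exfalso; linarith only [hT, hc, z81, z83, o1, z86]
                · skip
                  exfalso; linarith only [hT, hc, z48, z85, o1]
              · skip
                exfalso; linarith only [hT, hc, z48, z84, o1]
            · skip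
              rcases le_total u4 (3 / 2) with z88 | z88
              · skip
                rcases le_total u4 (5 / 4) with z89 | z89
                · skip
                  rcases le_total T (7 / 2) with z90 | z90
                  · skip
                    rcases le_total T (13 / 4) with z91 | z91
                    · skip
                      exact lf_1_3_3_3_4_13 u1 u2 u3 u4 T hT z48 B1 (by linarith only [hT, z48, o1]) (by linarith only [hT, z81]) z83 B3 a4 z89 (by linarith only [hT, z48, z83, a4, o1]) (by linarith only [hT, z91]) o1 o2 o3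
                    · skip
                      exact lf_1_3_3_3_4_13 u1 u2 u3 u4 T hT z48 B1 (by linarith only [hT, z48, o1]) (by linarith only [hT, z81]) z83 B3 a4 z89 z91 z90 o1 o2 o3
                  · skip
                    rcases le_total T (15 / 4) with z92 | z92
                    · skip
                      exact lf_1_3_3_3_4_14 u1 u2 u3 u4 T hT z48 B1 (by linarith only [hT, z48, o1]) (by linarith only [hT, z81]) z83 B3 a4 z89 z90 z92 o1 o2 o3
                    · skip
                      exfalso; linarith only [hT, hc, z81, B3, o1, z92]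
                · skip
                  exfalso; linarith only [hT, hc, z48, z89, o1]
              · skip
                exfalso; linarith only [hT, hc, z48, z88, o1]
        · skip
          rcases le_total u3 (1 / 2) with z93 | z93
          · skip
            exfalso; linarith only [hT, o2, z81, z93]
          · skip
            rcases le_total u3 (3 / 4) with z94 | z94
            · skip
              rcases le_total u4 (3 / 2) with z95 | z95
              · skip
                rcases le_total u4 (5 / 4) with z96 | z96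
                · skip
                  rcases le_total T (7 / 2) with z97 | z97
                  · skip
                    rcases le_total T (13 / 4) with z98 | z98
                    · skip
                      exact lf_1_3_3_3_4_13 u1 u2 u3 u4 T hT z48 B1 z81 B2 (by linarith only [hT, z81, o2]) (by linarith only [hT, z94]) a4 z96 (by linarith only [hT, z48, z81, a4, o2]) (by linarith only [hT, z98]) o1 o2 o3
                    · skip
                      exact lf_1_3_3_3_4_13 u1 u2 u3 u4 T hT z48 B1 z81 B2 (by linarith only [hT, z81, o2]) (by linarith only [hT, z94]) a4 z96 z98 z97 o1 o2 o3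
                  · skip
                    exfalso; linarith only [hT, hc, z94, o1, o2, z97]
                · skip
                  exfalso; linarith only [hT, hc, z81, z96]
              · skip
                exfalso; linarith only [hT, hc, z81, z95]
            · skip
              rcases le_total u4 (3 / 2) with z99 | z99
              · skip
                rcases le_total u4 (5 / 4) with z100 | z100
                · skip
                  rcases le_total T (7 / 2) with z101 | z101
                  · skip
                    rcases le_total T (13 / 4) with z102 | z102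
                    · skip
                      exact lf_1_3_3_3_4_13 u1 u2 u3 u4 T hT z48 B1 z81 B2 z94 B3 a4 z100 (by linarith only [hT, z48, z81, z94, a4]) (by linarith only [hT, z102]) o1 o2 o3
                    · skip
                      exact lf_1_3_3_3_4_13 u1 u2 u3 u4 T hT z48 B1 z81 B2 z94 B3 a4 z100 z102 z101 o1 o2 o3
                  · skip
                    rcases le_total T (15 / 4) with z103 | z103
                    · skip
                      exact lf_1_3_3_3_4_14 u1 u2 u3 u4 T hT z48 B1 z81 B2 z94 B3 a4 z100 z101 z103 o1 o2 o3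
                    · skip
                      exact lf_1_3_3_3_4_15 u1 u2 u3 u4 T hT z48 B1 z81 B2 z94 B3 a4 z100 z103 s2 o1 o2 o3
                · skip
                  exfalso; linarith only [hT, hc, z81, z100]
              · skip
                exfalso; linarith only [hT, hc, z81, z99]

end Pool.Agent.W401.WC
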