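import Pool.Agent.W401.WC.Hk
set_option autoImplicit false
set_option linter.all false
namespace Pool.Agent.W401.WC

theorem lf_2_2_4_6_6_19 (u1 u2 u3 u4 T : ℝ) (hT : T = u1 + u2 + u3 + u4) (a1 : (1 / 2) ≤ u1) (b1 : u1 ≤ (3 / 4)) (a2 : 1 ≤ u2) (b2 : u2 ≤ (5 / 4)) (a3 : (3 / 2) ≤ u3) (b3 : u3 ≤ (7 / 4)) (a4 : (3 / 2) ≤ u4) (b4 : u4 ≤ (7 / 4)) (lo : (19 / 4) ≤ T) (hi : T ≤ 5) (o1 : u1 ≤ u2) (o2 : u2 ≤ u3) (o3 : u3 ≤ u4) : Good u1 u2 u3 u4 ∨ Good2 u1 u2 u3 u4 := by
  have e1 : H u1 = u1 - 0 := hk_0 (by linarith only [a1]) (by linarith only [b1])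
  have f1 : H (4 * u1) = 1 := hk_2 (by linarith only [a1]) (by linarith only [b1])
  have e2 : H u2 = 1 := hk_1 (by linarith only [a2]) (by linarith only [b2])
  have f2 : H (4 * u2) = (4 * u2) - 4 := hk_4 (by linarith only [a2]) (by linarith only [b2])
  have e3 : H u3 = 1 := hk_1 (by linarith only [a3]) (by linarith only [b3])
  have f3 : H (4 * u3) = 1 := hk_6 (by linarith only [a3]) (by linarith only [b3])
  have e4 : H u4 = 1 := hk_1 (by linarith only [a4]) (by linarith only [b4])
  have f4 : H (4 * u4) = 1 := hk_6 (by linarith only [a4]) (by linarith only [b4])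
  have hX : H (T / 4) = 1 := hk_1 (by linarith only [lo]) (by linarith only [hi])
  have hS : H T = T - 4 := hk_4 (by linarith only [lo]) (by linarith only [hi])
  have hW : H (4 * T) = 20 - (4 * T) := hk_19 (by linarith only [lo]) (by linarith only [hi])
  have hN : H (4 * T - 13) = 1 := hk_6 (by linarith only [lo]) (by linarith only [hi])
  exact good2_T hT zk_2 zk_2 zk_4 zk_5 (by norm_num) e1 e2 e3 e4 f1 f2 f3 f4 hX hS hW hN (R := (4 * u2 + 4 * u4 + (-8))) ⟨(by linarith only [hT, b1, a2, a4]), (by linarith only [hT, b1, lo]), (by linarith only [hT, b1, a2, a4]), (by linarith only [hT, a1, a4]), (by linarith only [hT, a3, a4]), (by linarith only [hT, a4]), (by linarith only [hT, a1, a2, o3]), (by linarith only [hT, a2, o3]), (by linarith only [hT, a2, a3, o3]), (by linarith only [hT, a1, a2]), (by linarith only [hT, a2]), (by linarith only [hT, a2, a3])⟩ (by linarith only [hT])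

theorem lf_2_3_4_4_4_16 (u1 u2 u3 u4 T : ℝ) (hT : T = u1 + u2 + u3 + u4) (a1 : (3 / 4) ≤ u1) (b1 : u1 ≤ 1) (a2 : 1 ≤ u2) (b2 : u2 ≤ (5 / 4)) (a3 : 1 ≤ u3) (b3 : u3 ≤ (5 / 4)) (a4 : 1 ≤ u4) (b4 : u4 ≤ (5 / 4)) (lo : 4 ≤ T) (hi : T ≤ (17 / 4)) (o1 : u1 ≤ u2) (o2 : u2 ≤ u3) (o3 : u3 ≤ u4) : Good u1 u2 u3 u4 ∨ Good2 u1 u2 u3 u4 := by
  have e1 : H u1 = u1 - 0 := hk_0 (by linarith only [a1]) (by linarith only [b1])
  have f1 : H (4 * u1) = 4 - (4 * u1) := hk_3 (by linarith only [a1]) (by linarith only [b1])
  have e2 : H u2 = 1 := hk_1 (by linarith only [a2]) (by linarith only [b2])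
  have f2 : H (4 * u2) = (4 * u2) - 4 := hk_4 (by linarith only [a2]) (by linarith only [b2])
  have e3 : H u3 = 1 := hk_1 (by linarith only [a3]) (by linarith only [b3])
  have f3 : H (4 * u3) = (4 * u3) - 4 := hk_4 (by linarith only [a3]) (by linarith only [b3])
  have e4 : H u4 = 1 := hk_1 (by linarith only [a4]) (by linarith only [b4])
  have f4 : H (4 * u4) = (4 * u4) - 4 := hk_4 (by linarith only [a4]) (by linarith only [b4])
  have hX : H (T / 4) = 1 := hk_1 (by linarith only [lo]) (by linarith only [hi])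
  have hS : H T = T - 4 := hk_4 (by linarith only [lo]) (by linarith only [hi])
  have hW : H (4 * T) = (4 * T) - 16 := hk_16 (by linarith only [lo]) (by linarith only [hi])
  have hN : H (4 * T - 12) = (4 * T - 12) - 4 := hk_4 (by linarith only [lo]) (by linarith only [hi])
  exact good2_T hT zk_3 zk_3 zk_3 zk_3 (by norm_num) e1 e2 e3 e4 f1 f2 f3 f4 hX hS hW hN (R := ((-8) * u1 + 4 * u4 + 4)) ⟨(by linarith only [hT, b1, a2, a4]), (by linarith only [hT, b1, a3, a4]), (by linarith only [hT, b1, a4]), (by linarith only [hT, b1, o2, o3]), (by linarith only [hT, b1, a4, o2]), (by linarith only [hT, b1, a2, o2, o3]), (by linarith only [hT, b1, o3]), (by linarith only [hT, b1, a2, o3]), (by linarith only [hT, b1, a3, o3]), (by linarith only [hT, b1]), (by linarith only [hT, b1, a2]), (by linarith only [hT, b1, a3])⟩ (by linarith only [hT])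

theorem lf_2_3_4_4_4_17 (u1 u2 u3 u4 T : ℝ) (hT : T = u1 + u2 + u3 + u4) (a1 : (3 / 4) ≤ u1) (b1 : u1 ≤ 1) (a2 : 1 ≤ u2) (b2 : u2 ≤ (5 / 4)) (a3 : 1 ≤ u3) (b3 : u3 ≤ (5 / 4)) (a4 : 1 ≤ u4) (b4 : u4 ≤ (5 / 4)) (lo : (17 / 4) ≤ T) (hi : T ≤ (9 / 2)) (o1 : u1 ≤ u2) (o2 : u2 ≤ u3) (o3 : u3 ≤ u4) : Good u1 u2 u3 u4 ∨ Good2 u1 u2 u3 u4 := by
  have e1 : H u1 = u1 - 0 := hk_0 (by linarith only [a1]) (by linarith only [b1])
  have f1 : H (4 * u1) = 4 - (4 * u1) := hk_3 (by linarith only [a1]) (by linarith only [b1])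
  have e2 : H u2 = 1 := hk_1 (by linarith only [a2]) (by linarith only [b2])
  have f2 : H (4 * u2) = (4 * u2) - 4 := hk_4 (by linarith only [a2]) (by linarith only [b2])
  have e3 : H u3 = 1 := hk_1 (by linarith only [a3]) (by linarith only [b3])
  have f3 : H (4 * u3) = (4 * u3) - 4 := hk_4 (by linarith only [a3]) (by linarith only [b3])
  have e4 : H u4 = 1 := hk_1 (by linarith only [a4]) (by linarith only [b4])
  have f4 : H (4 * u4) = (4 * u4) - 4 := hk_4 (by linarith only [a4]) (by linarith only [b4])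
  have hX : H (T / 4) = 1 := hk_1 (by linarith only [lo]) (by linarith only [hi])
  have hS : H T = T - 4 := hk_4 (by linarith only [lo]) (by linarith only [hi])
  have hW : H (4 * T) = 1 := hk_17 (by linarith only [lo]) (by linarith only [hi])
  have hN : H (4 * T - 12) = 1 := hk_5 (by linarith only [lo]) (by linarith only [hi])
  exact good2_T hT zk_3 zk_3 zk_3 zk_3 (by norm_num) e1 e2 e3 e4 f1 f2 f3 f4 hX hS hW hN (R := ((-8) * u1 + 4 * u4 + 4)) ⟨(by linarith only [hT, b1, a2, o3, lo]), (by linarith only [hT, b1, o2, o3, lo]), (by linarith only [hT, b1, o2, o3, lo]), (by linarith only [hT, b1, o2, o3]), (by linarith only [hT, b1, o2, o3, lo]), (by linarith only [hT, b1, o2, o3, lo]), (by linarith only [hT, b1, o3]), (by linarith only [hT, b1, a2, o3]), (by linarith only [hT, b1, o2, o3, lo]), (by linarith only [hT, b1]), (by linarith only [hT, b1, a2]), (by linarith only [hT, b1, a3])⟩ (by linarith only [hT])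

theorem lf_2_3_4_4_4_18 (u1 u2 u3 u4 T : ℝ) (hT : T = u1 + u2 + u3 + u4) (a1 : (3 / 4) ≤ u1) (b1 : u1 ≤ 1) (a2 : 1 ≤ u2) (b2 : u2 ≤ (5 / 4)) (a3 : 1 ≤ u3) (b3 : u3 ≤ (5 / 4)) (a4 : 1 ≤ u4) (b4 : u4 ≤ (5 / 4)) (lo : (9 / 2) ≤ T) (hi : T ≤ (19 / 4)) (o1 : u1 ≤ u2) (o2 : u2 ≤ u3) (o3 : u3 ≤ u4) : Good u1 u2 u3 u4 ∨ Good2 u1 u2 u3 u4 := by
  have e1 : H u1 = u1 - 0 := hk_0 (by linarith only [a1]) (by linarith only [b1])
  have f1 : H (4 * u1) = 4 - (4 * u1) := hk_3 (by linarith only [a1]) (by linarith only [b1])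
  have e2 : H u2 = 1 := hk_1 (by linarith only [a2]) (by linarith only [b2])
  have f2 : H (4 * u2) = (4 * u2) - 4 := hk_4 (by linarith only [a2]) (by linarith only [b2])
  have e3 : H u3 = 1 := hk_1 (by linarith only [a3]) (by linarith only [b3])
  have f3 : H (4 * u3) = (4 * u3) - 4 := hk_4 (by linarith only [a3]) (by linarith only [b3])
  have e4 : H u4 = 1 := hk_1 (by linarith only [a4]) (by linarith only [b4])
  have f4 : H (4 * u4) = (4 * u4) - 4 := hk_4 (by linarith only [a4]) (by linarith only [b4])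
  have hX : H (T / 4) = 1 := hk_1 (by linarith only [lo]) (by linarith only [hi])
  have hS : H T = T - 4 := hk_4 (by linarith only [lo]) (by linarith only [hi])
  have hW : H (4 * T) = 1 := hk_18 (by linarith only [lo]) (by linarith only [hi])
  have hN : H (4 * T - 12) = 1 := hk_6 (by linarith only [lo]) (by linarith only [hi])
  exact good2_T hT zk_3 zk_3 zk_3 zk_3 (by norm_num) e1 e2 e3 e4 f1 f2 f3 f4 hX hS hW hN (R := ((-8) * u1 + 4 * u4 + 4)) ⟨(by linarith only [hT, b1, b3, lo]), (by linarith only [hT, b1, o2, o3, lo]), (by linarith only [hT, b1, o2, o3, lo]), (by linarith only [hT, b1, o2, o3]), (by linarith only [hT, b1, o2, o3, lo]), (by linarith only [hT, b1, o2, o3, lo]), (by linarith only [hT, b1, o3]), (by linarith only [hT, b1, a2, o3]), (by linarith only [hT, b1, o2, o3, lo]), (by linarith only [hT, b1]), (by linarith only [hT, b1, a2]), (by linarith only [hT, b1, b4, o2, lo])⟩ (by linarith only [hT])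

theorem lf_2_3_4_4_4_19 (u1 u2 u3 u4 T : ℝ) (hT : T = u1 + u2 + u3 + u4) (a1 : (3 / 4) ≤ u1) (b1 : u1 ≤ 1) (a2 : 1 ≤ u2) (b2 : u2 ≤ (5 / 4)) (a3 : 1 ≤ u3) (b3 : u3 ≤ (5 / 4)) (a4 : 1 ≤ u4) (b4 : u4 ≤ (5 / 4)) (lo : (19 / 4) ≤ T) (hi : T ≤ 5) (o1 : u1 ≤ u2) (o2 : u2 ≤ u3) (o3 : u3 ≤ u4) : Good u1 u2 u3 u4 ∨ Good2 u1 u2 u3 u4 := by
  have e1 : H u1 = u1 - 0 := hk_0 (by linarith only [a1]) (by linarith only [b1])
  have f1 : H (4 * u1) = 4 - (4 * u1) := hk_3 (by linarith only [a1]) (by linarith only [b1])
  have e2 : H u2 = 1 := hk_1 (by linarith only [a2]) (by linarith only [b2])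
  have f2 : H (4 * u2) = (4 * u2) - 4 := hk_4 (by linarith only [a2]) (by linarith only [b2])
  have e3 : H u3 = 1 := hk_1 (by linarith only [a3]) (by linarith only [b3])
  have f3 : H (4 * u3) = (4 * u3) - 4 := hk_4 (by linarith only [a3]) (by linarith only [b3])
  have e4 : H u4 = 1 := hk_1 (by linarith only [a4]) (by linarith only [b4])
  have f4 : H (4 * u4) = (4 * u4) - 4 := hk_4 (by linarith only [a4]) (by linarith only [b4])
  have hX : H (T / 4) = 1 := hk_1 (by linarith only [lo]) (by linarith only [hi])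
  have hS : H T = T - 4 := hk_4 (by linarith only [lo]) (by linarith only [hi])
  have hW : H (4 * T) = 20 - (4 * T) := hk_19 (by linarith only [lo]) (by linarith only [hi])
  have hN : H (4 * T - 12) = 8 - (4 * T - 12) := hk_7 (by linarith only [lo]) (by linarith only [hi])
  exact good2_T hT zk_3 zk_3 zk_3 zk_3 (by norm_num) e1 e2 e3 e4 f1 f2 f3 f4 hX hS hW hN (R := ((-8) * u1 + 4 * u4 + 4)) ⟨(by linarith only [hT, b1, b3, lo]), (by linarith only [hT, b1, b2, lo]), (by linarith only [hT, b1, b2, b3, lo]), (by linarith only [hT, b1, o2, o3]), (by linarith only [hT, b1, b2, lo]), (by linarith only [hT, b1, b2, b3, lo]), (by linarith only [hT, b1, o3]), (by linarith only [hT, b1, b3, lo]), (by linarith only [hT, b1, b2, b3, lo]), (by linarith only [hT, b1]), (by linarith only [hT, b1, b3, b4, lo]), (by linarith only [hT, b1, b2, b4, lo])⟩ (by linarith only [hT])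

theorem lf_2_3_4_4_5_17 (u1 u2 u3 u4 T : ℝ) (hT : T = u1 + u2 + u3 + u4) (a1 : (3 / 4) ≤ u1) (b1 : u1 ≤ 1) (a2 : 1 ≤ u2) (b2 : u2 ≤ (5 / 4)) (a3 : 1 ≤ u3) (b3 : u3 ≤ (5 / 4)) (a4 : (5 / 4) ≤ u4) (b4 : u4 ≤ (3 / 2)) (lo : (17 / 4) ≤ T) (hi : T ≤ (9 / 2)) (o1 : u1 ≤ u2) (o2 : u2 ≤ u3) (o3 : u3 ≤ u4) : Good u1 u2 u3 u4 ∨ Good2 u1 u2 u3 u4 := by
  have e1 : H u1 = u1 - 0 := hk_0 (by linarith only [a1]) (by linarith only [b1])
  have f1 : H (4 * u1) = 4 - (4 * u1) := hk_3 (by linarith only [a1]) (by linarith only [b1])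
  have e2 : H u2 = 1 := hk_1 (by linarith only [a2]) (by linarith only [b2])
  have f2 : H (4 * u2) = (4 * u2) - 4 := hk_4 (by linarith only [a2]) (by linarith only [b2])
  have e3 : H u3 = 1 := hk_1 (by linarith only [a3]) (by linarith only [b3])
  have f3 : H (4 * u3) = (4 * u3) - 4 := hk_4 (by linarith only [a3]) (by linarith only [b3])
  have e4 : H u4 = 1 := hk_1 (by linarith only [a4]) (by linarith only [b4])
  have f4 : H (4 * u4) = 1 := hk_5 (by linarith only [a4]) (by linarith only [b4])
  have hX : H (T / 4) = 1 := hk_1 (by linarith only [lo]) (by linarith only [hi])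
  have hS : H T = T - 4 := hk_4 (by linarith only [lo]) (by linarith only [hi])
  have hW : H (4 * T) = 1 := hk_17 (by linarith only [lo]) (by linarith only [hi])
  have hN : H (4 * T - 13) = (4 * T - 13) - 4 := hk_4 (by linarith only [lo]) (by linarith only [hi])
  exact good2_T hT zk_3 zk_3 zk_3 zk_4 (by norm_num) e1 e2 e3 e4 f1 f2 f3 f4 hX hS hW hN (R := ((-4) * u1 + 4 * u2 + 4 * u3 + 4 * u4 + (-9))) ⟨(by linarith only [hT, b1, a2, lo]), (by linarith only [hT, b1, a3, lo]), (by linarith only [hT, b1, a4, lo]), (by linarith only [hT, a3, a4]), (by linarith only [hT, b1, a3, a4]), (by linarith only [hT, b1, a3, a4]), (by linarith only [hT, a2, a4]), (by linarith only [hT, b1, a2, a4]), (by linarith only [hT, a4, o1]), (by linarith only [hT, a2, a3]), (by linarith only [hT, b1, a2, a3]), (by linarith only [hT, a3, o1])⟩ (by linarith only [hT])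

theorem lf_2_3_4_4_5_18 (u1 u2 u3 u4 T : ℝ) (hT : T = u1 + u2 + u3 + u4) (a1 : (3 / 4) ≤ u1) (b1 : u1 ≤ 1) (a2 : 1 ≤ u2) (b2 : u2 ≤ (5 / 4)) (a3 : 1 ≤ u3) (b3 : u3 ≤ (5 / 4)) (a4 : (5 / 4) ≤ u4) (b4 : u4 ≤ (3 / 2)) (lo : (9 / 2) ≤ T) (hi : T ≤ (19 / 4)) (o1 : u1 ≤ u2) (o2 : u2 ≤ u3) (o3 : u3 ≤ u4) : Good u1 u2 u3 u4 ∨ Good2 u1 u2 u3 u4 := by
  have e1 : H u1 = u1 - 0 := hk_0 (by linarith only [a1]) (by linarith only [b1])
  have f1 : H (4 * u1) = 4 - (4 * u1) := hk_3 (by linarith only [a1]) (by linarith only [b1])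
  have e2 : H u2 = 1 := hk_1 (by linarith only [a2]) (by linarith only [b2])
  have f2 : H (4 * u2) = (4 * u2) - 4 := hk_4 (by linarith only [a2]) (by linarith only [b2])
  have e3 : H u3 = 1 := hk_1 (by linarith only [a3]) (by linarith only [b3])
  have f3 : H (4 * u3) = (4 * u3) - 4 := hk_4 (by linarith only [a3]) (by linarith only [b3])
  have e4 : H u4 = 1 := hk_1 (by linarith only [a4]) (by linarith only [b4])
  have f4 : H (4 * u4) = 1 := hk_5 (by linarith only [a4]) (by linarith only [b4])
  have hX : H (T / 4) = 1 := hk_1 (by linarith only [lo]) (by linarith only [hi])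
  have hS : H T = T - 4 := hk_4 (by linarith only [lo]) (by linarith only [hi])
  have hW : H (4 * T) = 1 := hk_18 (by linarith only [lo]) (by linarith only [hi])
  have hN : H (4 * T - 13) = 1 := hk_5 (by linarith only [lo]) (by linarith only [hi])
  exact good2_T hT zk_3 zk_3 zk_3 zk_4 (by norm_num) e1 e2 e3 e4 f1 f2 f3 f4 hX hS hW hN (R := ((-8) * u1 + 9)) ⟨(by linarith only [hT, b1, a2]), (by linarith only [hT, b1, a3]), (by linarith only [hT, b1, a4]), (by linarith only [hT, b1, b2]), (by linarith only [hT, b1, o2]), (by linarith only [hT, b1, b2, a4]), (by linarith only [hT, b1, b3]), (by linarith only [hT, b1, a2, b3]), (by linarith only [hT, b1, o3]), (by linarith only [hT, b1, b4]), (by linarith only [hT, b1, a2, b4]), (by linarith only [hT, b1, a3, b4])⟩ (by linarith only [hT])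

theorem lf_2_3_4_4_5_19 (u1 u2 u3 u4 T : ℝ) (hT : T = u1 + u2 + u3 + u4) (a1 : (3 / 4) ≤ u1) (b1 : u1 ≤ 1) (a2 : 1 ≤ u2) (b2 : u2 ≤ (5 / 4)) (a3 : 1 ≤ u3) (b3 : u3 ≤ (5 / 4)) (a4 : (5 / 4) ≤ u4) (b4 : u4 ≤ (3 / 2)) (lo : (19 / 4) ≤ T) (hi : T ≤ 5) (o1 : u1 ≤ u2) (o2 : u2 ≤ u3) (o3 : u3 ≤ u4) : Good u1 u2 u3 u4 ∨ Good2 u1 u2 u3 u4 := by
  have e1 : H u1 = u1 - 0 := hk_0 (by linarith only [a1]) (by linarith only [b1])
  have f1 : H (4 * u1) = 4 - (4 * u1) := hk_3 (by linarith only [a1]) (by linarith only [b1])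
  have e2 : H u2 = 1 := hk_1 (by linarith only [a2]) (by linarith only [b2])
  have f2 : H (4 * u2) = (4 * u2) - 4 := hk_4 (by linarith only [a2]) (by linarith only [b2])
  have e3 : H u3 = 1 := hk_1 (by linarith only [a3]) (by linarith only [b3])
  have f3 : H (4 * u3) = (4 * u3) - 4 := hk_4 (by linarith only [a3]) (by linarith only [b3])
  have e4 : H u4 = 1 := hk_1 (by linarith only [a4]) (by linarith only [b4])
  have f4 : H (4 * u4) = 1 := hk_5 (by linarith only [a4]) (by linarith only [b4])
  have hX : H (T / 4) = 1 := hk_1 (by linarith only [lo]) (by linarith only [hi])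
  have hS : H T = T - 4 := hk_4 (by linarith only [lo]) (by linarith only [hi])
  have hW : H (4 * T) = 20 - (4 * T) := hk_19 (by linarith only [lo]) (by linarith only [hi])
  have hN : H (4 * T - 13) = 1 := hk_6 (by linarith only [lo]) (by linarith only [hi])
  exact good2_T hT zk_3 zk_3 zk_3 zk_4 (by norm_num) e1 e2 e3 e4 f1 f2 f3 f4 hX hS hW hN (R := ((-4) * u1 + 4 * u2 + 4 * u3 + 4 * u4 + (-10))) ⟨(by linarith only [hT, b1, a2, lo]), (by linarith only [hT, b1, b4, o2, lo]), (by linarith only [hT, b1, a4, lo]), (by linarith only [hT, b1, b2, lo]), (by linarith only [hT, b1, o2, lo]), (by linarith only [hT, b1, b2, b3, lo]), (by linarith only [hT, b1, b3, lo]), (by linarith only [hT, b1, a2, b3, lo]), (by linarith only [hT, b1, o3, lo]), (by linarith only [hT, b1, b4, lo]), (by linarith only [hT, b1, a2, b4, lo]), (by linarith only [hT, b1, b4, o2, lo])⟩ (by linarith only [hT])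

theorem lf_2_3_4_4_6_18 (u1 u2 u3 u4 T : ℝ) (hT : T = u1 + u2 + u3 + u4) (a1 : (3 / 4) ≤ u1) (b1 : u1 ≤ 1) (a2 : 1 ≤ u2) (b2 : u2 ≤ (5 / 4)) (a3 : 1 ≤ u3) (b3 : u3 ≤ (5 / 4)) (a4 : (3 / 2) ≤ u4) (b4 : u4 ≤ (7 / 4)) (lo : (9 / 2) ≤ T) (hi : T ≤ (19 / 4)) (o1 : u1 ≤ u2) (o2 : u2 ≤ u3) (o3 : u3 ≤ u4) : Good u1 u2 u3 u4 ∨ Good2 u1 u2 u3 u4 := by
  have e1 : H u1 = u1 - 0 := hk_0 (by linarith only [a1]) (by linarith only [b1])
  have f1 : H (4 * u1) = 4 - (4 * u1) := hk_3 (by linarith only [a1]) (by linarith only [b1])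
  have e2 : H u2 = 1 := hk_1 (by linarith only [a2]) (by linarith only [b2])
  have f2 : H (4 * u2) = (4 * u2) - 4 := hk_4 (by linarith only [a2]) (by linarith only [b2])
  have e3 : H u3 = 1 := hk_1 (by linarith only [a3]) (by linarith only [b3])
  have f3 : H (4 * u3) = (4 * u3) - 4 := hk_4 (by linarith only [a3]) (by linarith only [b3])
  have e4 : H u4 = 1 := hk_1 (by linarith only [a4]) (by linarith only [b4])
  have f4 : H (4 * u4) = 1 := hk_6 (by linarith only [a4]) (by linarith only [b4])
  have hX : H (T / 4) = 1 := hk_1 (by linarith only [lo]) (by linarith only [hi])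
  have hS : H T = T - 4 := hk_4 (by linarith only [lo]) (by linarith only [hi])
  have hW : H (4 * T) = 1 := hk_18 (by linarith only [lo]) (by linarith only [hi])
  have hN : H (4 * T - 14) = (4 * T - 14) - 4 := hk_4 (by linarith only [lo]) (by linarith only [hi])
  exact good2_T hT zk_3 zk_3 zk_3 zk_5 (by norm_num) e1 e2 e3 e4 f1 f2 f3 f4 hX hS hW hN (R := ((-4) * u1 + 4 * u2 + 4 * u3 + 4 * u4 + (-10))) ⟨(by linarith only [hT, b1, a2, lo]), (by linarith only [hT, b1, a3, lo]), (by linarith only [hT, b1, a4, lo]), (by linarith only [hT, a3, a4]), (by linarith only [hT, b1, a3, a4]), (by linarith only [hT, b1, a3, a4]), (by linarith only [hT, a2, a4]), (by linarith only [hT, b1, a2, a4]), (by linarith only [hT, a4, o1]), (by linarith only [hT, a2, a3]), (by linarith only [hT, b1, a2, a3]), (by linarith only [hT, a3, o1])⟩ (by linarith only [hT])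

theorem lf_2_3_4_4_6_19 (u1 u2 u3 u4 T : ℝ) (hT : T = u1 + u2 + u3 + u4) (a1 : (3 / 4) ≤ u1) (b1 : u1 ≤ 1) (a2 : 1 ≤ u2) (b2 : u2 ≤ (5 / 4)) (a3 : 1 ≤ u3) (b3 : u3 ≤ (5 / 4)) (a4 : (3 / 2) ≤ u4) (b4 : u4 ≤ (7 / 4)) (lo : (19 / 4) ≤ T) (hi : T ≤ 5) (o1 : u1 ≤ u2) (o2 : u2 ≤ u3) (o3 : u3 ≤ u4) : Good u1 u2 u3 u4 ∨ Good2 u1 u2 u3 u4 := by
  have e1 : H u1 = u1 - 0 := hk_0 (by linarith only [a1]) (by linarith only [b1])
  have f1 : H (4 * u1) = 4 - (4 * u1) := hk_3 (by linarith only [a1]) (by linarith only [b1])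
  have e2 : H u2 = 1 := hk_1 (by linarith only [a2]) (by linarith only [b2])
  have f2 : H (4 * u2) = (4 * u2) - 4 := hk_4 (by linarith only [a2]) (by linarith only [b2])
  have e3 : H u3 = 1 := hk_1 (by linarith only [a3]) (by linarith only [b3])
  have f3 : H (4 * u3) = (4 * u3) - 4 := hk_4 (by linarith only [a3]) (by linarith only [b3])
  have e4 : H u4 = 1 := hk_1 (by linarith only [a4]) (by linarith only [b4])
  have f4 : H (4 * u4) = 1 := hk_6 (by linarith only [a4]) (by linarith only [b4])
  have hX : H (T / 4) = 1 := hk_1 (by linarith only [lo]) (by linarith only [hi])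
  have hS : H T = T - 4 := hk_4 (by linarith only [lo]) (by linarith only [hi])
  have hW : H (4 * T) = 20 - (4 * T) := hk_19 (by linarith only [lo]) (by linarith only [hi])
  have hN : H (4 * T - 14) = 1 := hk_5 (by linarith only [lo]) (by linarith only [hi])
  exact good2_T hT zk_3 zk_3 zk_3 zk_5 (by norm_num) e1 e2 e3 e4 f1 f2 f3 f4 hX hS hW hN (R := ((-4) * u1 + 4 * u2 + 4 * u3 + 4 * u4 + (-10))) ⟨(by linarith only [hT, b1, a2, lo]), (by linarith only [hT, b1, a3, lo]), (by linarith only [hT, b1, a4, lo]), (by linarith only [hT, b1, a4, o2, lo]), (by linarith only [hT, b1, o2, lo]), (by linarith only [hT, b1, a4, o2, lo]), (by linarith only [hT, a2, a4]), (by linarith only [hT, b1, a2, a4]), (by linarith only [hT, a4, o1]), (by linarith only [hT, a2, a3]), (by linarith only [hT, b1, a2, a3]), (by linarith only [hT, a3, o1])⟩ (by linarith only [hT])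

theorem lf_2_3_4_4_7_19 (u1 u2 u3 u4 T : ℝ) (hT : T = u1 + u2 + u3 + u4) (a1 : (3 / 4) ≤ u1) (b1 : u1 ≤ 1) (a2 : 1 ≤ u2) (b2 : u2 ≤ (5 / 4)) (a3 : 1 ≤ u3) (b3 : u3 ≤ (5 / 4)) (a4 : (7 / 4) ≤ u4) (b4 : u4 ≤ 2) (lo : (19 / 4) ≤ T) (hi : T ≤ 5) (o1 : u1 ≤ u2) (o2 : u2 ≤ u3) (o3 : u3 ≤ u4) : Good u1 u2 u3 u4 ∨ Good2 u1 u2 u3 u4 := by
  have e1 : H u1 = u1 - 0 := hk_0 (by linarith only [a1]) (by linarith only [b1])
  have f1 : H (4 * u1) = 4 - (4 * u1) := hk_3 (by linarith only [a1]) (by linarith only [b1])
  have e2 : H u2 = 1 := hk_1 (by linarith only [a2]) (by linarith only [b2])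
  have f2 : H (4 * u2) = (4 * u2) - 4 := hk_4 (by linarith only [a2]) (by linarith only [b2])
  have e3 : H u3 = 1 := hk_1 (by linarith only [a3]) (by linarith only [b3])
  have f3 : H (4 * u3) = (4 * u3) - 4 := hk_4 (by linarith only [a3]) (by linarith only [b3])
  have e4 : H u4 = 1 := hk_1 (by linarith only [a4]) (by linarith only [b4])
  have f4 : H (4 * u4) = 8 - (4 * u4) := hk_7 (by linarith only [a4]) (by linarith only [b4])
  have hX : H (T / 4) = 1 := hk_1 (by linarith only [lo]) (by linarith only [hi])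
  have hS : H T = T - 4 := hk_4 (by linarith only [lo]) (by linarith only [hi])
  have hW : H (4 * T) = 20 - (4 * T) := hk_19 (by linarith only [lo]) (by linarith only [hi])
  have hN : H (4 * T - 13) = 1 := hk_6 (by linarith only [lo]) (by linarith only [hi])
  exact good2_T hT zk_3 zk_2 zk_2 zk_6 (by norm_num) e1 e2 e3 e4 f1 f2 f3 f4 hX hS hW hN (R := ((-4) * u1 + 4 * u2 + 4 * u3 + (-3))) ⟨(by linarith only [hT, a3, o1]), (by linarith only [hT, b1, a2, a3]), (by linarith only [hT, b1, lo]), (by linarith only [hT, a3]), (by linarith only [hT, b1, a3]), (by linarith only [hT, b1, a3, a4]), (by linarith only [hT, a2]), (by linarith only [hT, b1, a2]), (by linarith only [hT, a4, o1]), (by linarith only [hT, a2, a3, b4]), (by linarith only [hT, a2, a3, hi]), (by linarith only [hT, a2, a3, hi])⟩ (by linarith only [hT])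

theorem lf_2_3_4_5_5_17 (u1 u2 u3 u4 T : ℝ) (hT : T = u1 + u2 + u3 + u4) (a1 : (3 / 4) ≤ u1) (b1 : u1 ≤ 1) (a2 : 1 ≤ u2) (b2 : u2 ≤ (5 / 4)) (a3 : (5 / 4) ≤ u3) (b3 : u3 ≤ (3 / 2)) (a4 : (5 / 4) ≤ u4) (b4 : u4 ≤ (3 / 2)) (lo : (17 / 4) ≤ T) (hi : T ≤ (9 / 2)) (o1 : u1 ≤ u2) (o2 : u2 ≤ u3) (o3 : u3 ≤ u4) : Good u1 u2 u3 u4 ∨ Good2 u1 u2 u3 u4 := by
  have e1 : H u1 = u1 - 0 := hk_0 (by linarith only [a1]) (by linarith only [b1])
  have f1 : H (4 * u1) = 4 - (4 * u1) := hk_3 (by linarith only [a1]) (by linarith only [b1])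
  have e2 : H u2 = 1 := hk_1 (by linarith only [a2]) (by linarith only [b2])
  have f2 : H (4 * u2) = (4 * u2) - 4 := hk_4 (by linarith only [a2]) (by linarith only [b2])
  have e3 : H u3 = 1 := hk_1 (by linarith only [a3]) (by linarith only [b3])
  have f3 : H (4 * u3) = 1 := hk_5 (by linarith only [a3]) (by linarith only [b3])
  have e4 : H u4 = 1 := hk_1 (by linarith only [a4]) (by linarith only [b4])
  have f4 : H (4 * u4) = 1 := hk_5 (by linarith only [a4]) (by linarith only [b4])
  have hX : H (T / 4) = 1 := hk_1 (by linarith only [lo]) (by linarith only [hi])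
  have hS : H T = T - 4 := hk_4 (by linarith only [lo]) (by linarith only [hi])
  have hW : H (4 * T) = 1 := hk_17 (by linarith only [lo]) (by linarith only [hi])
  have hN : H (4 * T - 11) = 1 := hk_6 (by linarith only [lo]) (by linarith only [hi])
  exact good2_T hT zk_3 zk_2 zk_3 zk_3 (by norm_num) e1 e2 e3 e4 f1 f2 f3 f4 hX hS hW hN (R := ((-8) * u1 + (-4) * u3 + 14)) ⟨(by linarith only [hT, a4, o1, hi]), (by linarith only [hT, b1]), (by linarith only [hT, b1, o3]), (by linarith only [hT, a4, hi]), (by linarith only [hT, b1, a3, a4, hi]), (by linarith only [hT, b1, a4, hi]), (by linarith only [hT, a2, o3, hi]), (by linarith only [hT, a2, a4, hi]), (by linarith only [hT, a2, a4, hi]), (by linarith only [hT, a2, hi]), (by linarith only [hT, b1, a2, hi]), (by linarith only [hT, a3, o1, hi])⟩ (by linarith only [hT])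

theorem lf_2_3_4_5_5_18 (u1 u2 u3 u4 T : ℝ) (hT : T = u1 + u2 + u3 + u4) (a1 : (3 / 4) ≤ u1) (b1 : u1 ≤ 1) (a2 : 1 ≤ u2) (b2 : u2 ≤ (5 / 4)) (a3 : (5 / 4) ≤ u3) (b3 : u3 ≤ (3 / 2)) (a4 : (5 / 4) ≤ u4) (b4 : u4 ≤ (3 / 2)) (lo : (9 / 2) ≤ T) (hi : T ≤ (19 / 4)) (o1 : u1 ≤ u2) (o2 : u2 ≤ u3) (o3 : u3 ≤ u4) : Good u1 u2 u3 u4 ∨ Good2 u1 u2 u3 u4 := by
  have e1 : H u1 = u1 - 0 := hk_0 (by linarith only [a1]) (by linarith only [b1])
  have f1 : H (4 * u1) = 4 - (4 * u1) := hk_3 (by linarith only [a1]) (by linarith only [b1])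
  have e2 : H u2 = 1 := hk_1 (by linarith only [a2]) (by linarith only [b2])
  have f2 : H (4 * u2) = (4 * u2) - 4 := hk_4 (by linarith only [a2]) (by linarith only [b2])
  have e3 : H u3 = 1 := hk_1 (by linarith only [a3]) (by linarith only [b3])
  have f3 : H (4 * u3) = 1 := hk_5 (by linarith only [a3]) (by linarith only [b3])
  have e4 : H u4 = 1 := hk_1 (by linarith only [a4]) (by linarith only [b4])
  have f4 : H (4 * u4) = 1 := hk_5 (by linarith only [a4]) (by linarith only [b4])
  have hX : H (T / 4) = 1 := hk_1 (by linarith only [lo]) (by linarith only [hi])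
  have hS : H T = T - 4 := hk_4 (by linarith only [lo]) (by linarith only [hi])
  have hW : H (4 * T) = 1 := hk_18 (by linarith only [lo]) (by linarith only [hi])
  have hN : H (4 * T - 14) = (4 * T - 14) - 4 := hk_4 (by linarith only [lo]) (by linarith only [hi])
  exact good2_T hT zk_3 zk_3 zk_4 zk_4 (by norm_num) e1 e2 e3 e4 f1 f2 f3 f4 hX hS hW hN (R := ((-4) * u1 + 4 * u2 + 4 * u4 + (-5))) ⟨(by linarith only [hT, a4, o1]), (by linarith only [hT, b1, lo]), (by linarith only [hT, b1, a2, a4]), (by linarith only [hT, a4]), (by linarith only [hT, b1, a3, a4]), (by linarith only [hT, b1, a4]), (by linarith only [hT, a2, o3]), (by linarith only [hT, b1, a2, o3]), (by linarith only [hT, a3, o1, o3]), (by linarith only [hT, a2]), (by linarith only [hT, b1, a2]), (by linarith only [hT, a3, o1])⟩ (by linarith only [hT])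

theorem lf_2_3_4_5_5_19 (u1 u2 u3 u4 T : ℝ) (hT : T = u1 + u2 + u3 + u4) (a1 : (3 / 4) ≤ u1) (b1 : u1 ≤ 1) (a2 : 1 ≤ u2) (b2 : u2 ≤ (5 / 4)) (a3 : (5 / 4) ≤ u3) (b3 : u3 ≤ (3 / 2)) (a4 : (5 / 4) ≤ u4) (b4 : u4 ≤ (3 / 2)) (lo : (19 / 4) ≤ T) (hi : T ≤ 5) (o1 : u1 ≤ u2) (o2 : u2 ≤ u3) (o3 : u3 ≤ u4) : Good u1 u2 u3 u4 ∨ Good2 u1 u2 u3 u4 := by
  have e1 : H u1 = u1 - 0 := hk_0 (by linarith only [a1]) (by linarith only [b1])
  have f1 : H (4 * u1) = 4 - (4 * u1) := hk_3 (by linarith only [a1]) (by linarith only [b1])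
  have e2 : H u2 = 1 := hk_1 (by linarith only [a2]) (by linarith only [b2])
  have f2 : H (4 * u2) = (4 * u2) - 4 := hk_4 (by linarith only [a2]) (by linarith only [b2])
  have e3 : H u3 = 1 := hk_1 (by linarith only [a3]) (by linarith only [b3])
  have f3 : H (4 * u3) = 1 := hk_5 (by linarith only [a3]) (by linarith only [b3])
  have e4 : H u4 = 1 := hk_1 (by linarith only [a4]) (by linarith only [b4])
  have f4 : H (4 * u4) = 1 := hk_5 (by linarith only [a4]) (by linarith only [b4])
  have hX : H (T / 4) = 1 := hk_1 (by linarith only [lo]) (by linarith only [hi])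
  have hS : H T = T - 4 := hk_4 (by linarith only [lo]) (by linarith only [hi])
  have hW : H (4 * T) = 20 - (4 * T) := hk_19 (by linarith only [lo]) (by linarith only [hi])
  have hN : H (4 * T - 14) = 1 := hk_5 (by linarith only [lo]) (by linarith only [hi])
  exact good2_T hT zk_3 zk_3 zk_4 zk_4 (by norm_num) e1 e2 e3 e4 f1 f2 f3 f4 hX hS hW hN (R := ((-4) * u1 + 4 * u2 + 4 * u4 + (-5))) ⟨(by linarith only [hT, b1, a2, o3, lo]), (by linarith only [hT, b1, lo]), (by linarith only [hT, b1, o3, lo]), (by linarith only [hT, a4]), (by linarith only [hT, b1, a3, a4]), (by linarith only [hT, b1, a4]), (by linarith only [hT, a2, o3]), (by linarith only [hT, b1, a2, o3]), (by linarith only [hT, b1, a2, o3, lo]), (by linarith only [hT, a2]), (by linarith only [hT, b1, a2]), (by linarith only [hT, a3, o1])⟩ (by linarith only [hT])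

theorem lf_2_3_4_5_6_18 (u1 u2 u3 u4 T : ℝ) (hT : T = u1 + u2 + u3 + u4) (a1 : (3 / 4) ≤ u1) (b1 : u1 ≤ 1) (a2 : 1 ≤ u2) (b2 : u2 ≤ (5 / 4)) (a3 : (5 / 4) ≤ u3) (b3 : u3 ≤ (3 / 2)) (a4 : (3 / 2) ≤ u4) (b4 : u4 ≤ (7 / 4)) (lo : (9 / 2) ≤ T) (hi : T ≤ (19 / 4)) (o1 : u1 ≤ u2) (o2 : u2 ≤ u3) (o3 : u3 ≤ u4) : Good u1 u2 u3 u4 ∨ Good2 u1 u2 u3 u4 := by
  have e1 : H u1 = u1 - 0 := hk_0 (by linarith only [a1]) (by linarith only [b1])
  have f1 : H (4 * u1) = 4 - (4 * u1) := hk_3 (by linarith only [a1]) (by linarith only [b1])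
  have e2 : H u2 = 1 := hk_1 (by linarith only [a2]) (by linarith only [b2])
  have f2 : H (4 * u2) = (4 * u2) - 4 := hk_4 (by linarith only [a2]) (by linarith only [b2])
  have e3 : H u3 = 1 := hk_1 (by linarith only [a3]) (by linarith only [b3])
  have f3 : H (4 * u3) = 1 := hk_5 (by linarith only [a3]) (by linarith only [b3])
  have e4 : H u4 = 1 := hk_1 (by linarith only [a4]) (by linarith only [b4])
  have f4 : H (4 * u4) = 1 := hk_6 (by linarith only [a4]) (by linarith only [b4])
  have hX : H (T / 4) = 1 := hk_1 (by linarith only [lo]) (by linarith only [hi])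
  have hS : H T = T - 4 := hk_4 (by linarith only [lo]) (by linarith only [hi])
  have hW : H (4 * T) = 1 := hk_18 (by linarith only [lo]) (by linarith only [hi])
  have hN : H (4 * T - 13) = 1 := hk_5 (by linarith only [lo]) (by linarith only [hi])
  exact good2_T hT zk_3 zk_2 zk_4 zk_4 (by norm_num) e1 e2 e3 e4 f1 f2 f3 f4 hX hS hW hN (R := ((-8) * u1 + (-4) * u3 + 14)) ⟨(by linarith only [hT, a4, o1, hi]), (by linarith only [hT, b1]), (by linarith only [hT, b1, a2, a4, hi]), (by linarith only [hT, a4, hi]), (by linarith only [hT, b1, a3, a4, hi]), (by linarith only [hT, b1, a4, hi]), (by linarith only [hT, a2, o3, hi]), (by linarith only [hT, a2, a4, hi]), (by linarith only [hT, a2, a4, hi]), (by linarith only [hT, a2, hi]), (by linarith only [hT, b1, a2, hi]), (by linarith only [hT, a3, o1, hi])⟩ (by linarith only [hT])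

theorem lf_2_3_4_5_6_19 (u1 u2 u3 u4 T : ℝ) (hT : T = u1 + u2 + u3 + u4) (a1 : (3 / 4) ≤ u1) (b1 : u1 ≤ 1) (a2 : 1 ≤ u2) (b2 : u2 ≤ (5 / 4)) (a3 : (5 / 4) ≤ u3) (b3 : u3 ≤ (3 / 2)) (a4 : (3 / 2) ≤ u4) (b4 : u4 ≤ (7 / 4)) (lo : (19 / 4) ≤ T) (hi : T ≤ 5) (o1 : u1 ≤ u2) (o2 : u2 ≤ u3) (o3 : u3 ≤ u4) : Good u1 u2 u3 u4 ∨ Good2 u1 u2 u3 u4 := by
  have e1 : H u1 = u1 - 0 := hk_0 (by linarith only [a1]) (by linarith only [b1])
  have f1 : H (4 * u1) = 4 - (4 * u1) := hk_3 (by linarith only [a1]) (by linarith only [b1])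
  have e2 : H u2 = 1 := hk_1 (by linarith only [a2]) (by linarith only [b2])
  have f2 : H (4 * u2) = (4 * u2) - 4 := hk_4 (by linarith only [a2]) (by linarith only [b2])
  have e3 : H u3 = 1 := hk_1 (by linarith only [a3]) (by linarith only [b3])
  have f3 : H (4 * u3) = 1 := hk_5 (by linarith only [a3]) (by linarith only [b3])
  have e4 : H u4 = 1 := hk_1 (by linarith only [a4]) (by linarith only [b4])
  have f4 : H (4 * u4) = 1 := hk_6 (by linarith only [a4]) (by linarith only [b4])
  have hX : H (T / 4) = 1 := hk_1 (by linarith only [lo]) (by linarith only [hi])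
  have hS : H T = T - 4 := hk_4 (by linarith only [lo]) (by linarith only [hi])
  have hW : H (4 * T) = 20 - (4 * T) := hk_19 (by linarith only [lo]) (by linarith only [hi])
  have hN : H (4 * T - 13) = 1 := hk_6 (by linarith only [lo]) (by linarith only [hi])
  exact good2_T hT zk_3 zk_2 zk_4 zk_4 (by norm_num) e1 e2 e3 e4 f1 f2 f3 f4 hX hS hW hN (R := ((-4) * u1 + 4 * u2 + 4 * u4 + (-5))) ⟨(by linarith only [hT, a4, o1]), (by linarith only [hT, b1, lo]), (by linarith only [hT, b1, a2, a4]), (by linarith only [hT, a4]), (by linarith only [hT, b1, a3, a4]), (by linarith only [hT, b1, a4]), (by linarith only [hT, a2, o3]), (by linarith only [hT, b1, a2, o3]), (by linarith only [hT, a2, a4, hi]), (by linarith only [hT, a2]), (by linarith only [hT, b1, a2]), (by linarith only [hT, a3, o1])⟩ (by linarith only [hT])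

theorem lf_2_3_4_5_7_19 (u1 u2 u3 u4 T : ℝ) (hT : T = u1 + u2 + u3 + u4) (a1 : (3 / 4) ≤ u1) (b1 : u1 ≤ 1) (a2 : 1 ≤ u2) (b2 : u2 ≤ (5 / 4)) (a3 : (5 / 4) ≤ u3) (b3 : u3 ≤ (3 / 2)) (a4 : (7 / 4) ≤ u4) (b4 : u4 ≤ 2) (lo : (19 / 4) ≤ T) (hi : T ≤ 5) (o1 : u1 ≤ u2) (o2 : u2 ≤ u3) (o3 : u3 ≤ u4) : Good u1 u2 u3 u4 ∨ Good2 u1 u2 u3 u4 := by
  have e1 : H u1 = u1 - 0 := hk_0 (by linarith only [a1]) (by linarith only [b1])
  have f1 : H (4 * u1) = 4 - (4 * u1) := hk_3 (by linarith only [a1]) (by linarith only [b1])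
  have e2 : H u2 = 1 := hk_1 (by linarith only [a2]) (by linarith only [b2])
  have f2 : H (4 * u2) = (4 * u2) - 4 := hk_4 (by linarith only [a2]) (by linarith only [b2])
  have e3 : H u3 = 1 := hk_1 (by linarith only [a3]) (by linarith only [b3])
  have f3 : H (4 * u3) = 1 := hk_5 (by linarith only [a3]) (by linarith only [b3])
  have e4 : H u4 = 1 := hk_1 (by linarith only [a4]) (by linarith only [b4])
  have f4 : H (4 * u4) = 8 - (4 * u4) := hk_7 (by linarith only [a4]) (by linarith only [b4])
  have hX : H (T / 4) = 1 := hk_1 (by linarith only [lo]) (by linarith only [hi])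
  have hS : H T = T - 4 := hk_4 (by linarith only [lo]) (by linarith only [hi])
  have hW : H (4 * T) = 20 - (4 * T) := hk_19 (by linarith only [lo]) (by linarith only [hi])
  have hN : H (4 * T - 13) = 1 := hk_6 (by linarith only [lo]) (by linarith only [hi])
  exact good2_T hT zk_3 zk_1 zk_3 zk_6 (by norm_num) e1 e2 e3 e4 f1 f2 f3 f4 hX hS hW hN (R := ((-4) * u1 + 4 * u2 + 2)) ⟨(by linarith only [hT, o1]), (by linarith only [hT, b1, a2, a3]), (by linarith only [hT, b1, a2, a4]), (by linarith only [hT]), (by linarith only [hT, b1, a3]), (by linarith only [hT, b1, a4]), (by linarith only [hT, a2, b3]), (by linarith only [hT, a2, a4, hi]), (by linarith only [hT, a2, a4, hi]), (by linarith only [hT, a2, b4]), (by linarith only [hT, a2, a3, hi]), (by linarith only [hT, a2, a3, hi])⟩ (by linarith only [hT])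

theorem lf_2_3_4_6_6_19 (u1 u2 u3 u4 T : ℝ) (hT : T = u1 + u2 + u3 + u4) (a1 : (3 / 4) ≤ u1) (b1 : u1 ≤ 1) (a2 : 1 ≤ u2) (b2 : u2 ≤ (5 / 4)) (a3 : (3 / 2) ≤ u3) (b3 : u3 ≤ (7 / 4)) (a4 : (3 / 2) ≤ u4) (b4 : u4 ≤ (7 / 4)) (lo : (19 / 4) ≤ T) (hi : T ≤ 5) (o1 : u1 ≤ u2) (o2 : u2 ≤ u3) (o3 : u3 ≤ u4) : Good u1 u2 u3 u4 ∨ Good2 u1 u2 u3 u4 := by
  have e1 : H u1 = u1 - 0 := hk_0 (by linarith only [a1]) (by linarith only [b1])
  have f1 : H (4 * u1) = 4 - (4 * u1) := hk_3 (by linarith only [a1]) (by linarith only [b1])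
  have e2 : H u2 = 1 := hk_1 (by linarith only [a2]) (by linarith only [b2])
  have f2 : H (4 * u2) = (4 * u2) - 4 := hk_4 (by linarith only [a2]) (by linarith only [b2])
  have e3 : H u3 = 1 := hk_1 (by linarith only [a3]) (by linarith only [b3])
  have f3 : H (4 * u3) = 1 := hk_6 (by linarith only [a3]) (by linarith only [b3])
  have e4 : H u4 = 1 := hk_1 (by linarith only [a4]) (by linarith only [b4])
  have f4 : H (4 * u4) = 1 := hk_6 (by linarith only [a4]) (by linarith only [b4])
  have hX : H (T / 4) = 1 := hk_1 (by linarith only [lo]) (by linarith only [hi])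
  have hS : H T = T - 4 := hk_4 (by linarith only [lo]) (by linarith only [hi])
  have hW : H (4 * T) = 20 - (4 * T) := hk_19 (by linarith only [lo]) (by linarith only [hi])
  have hN : H (4 * T - 13) = 1 := hk_6 (by linarith only [lo]) (by linarith only [hi])
  exact good2_T hT zk_3 zk_2 zk_4 zk_4 (by norm_num) e1 e2 e3 e4 f1 f2 f3 f4 hX hS hW hN (R := ((-4) * u1 + 4 * u2 + 4 * u4 + (-5))) ⟨(by linarith only [hT, a4, o1]), (by linarith only [hT, b1, a2, a3, a4]), (by linarith only [hT, b1, a2, a4]), (by linarith only [hT, a4]), (by linarith only [hT, b1, a3, a4]), (by linarith only [hT, b1, a4]), (by linarith only [hT, a2, o3]), (by linarith only [hT, b1, a2, o3]), (by linarith only [hT, a2, a4, hi]), (by linarith only [hT, a2]), (by linarith only [hT, b1, a2]), (by linarith only [hT, a3, o1])⟩ (by linarith only [hT])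

theorem lf_2_3_5_5_5_18 (u1 u2 u3 u4 T : ℝ) (hT : T = u1 + u2 + u3 + u4) (a1 : (3 / 4) ≤ u1) (b1 : u1 ≤ 1) (a2 : (5 / 4) ≤ u2) (b2 : u2 ≤ (3 / 2)) (a3 : (5 / 4) ≤ u3) (b3 : u3 ≤ (3 / 2)) (a4 : (5 / 4) ≤ u4) (b4 : u4 ≤ (3 / 2)) (lo : (9 / 2) ≤ T) (hi : T ≤ (19 / 4)) (o1 : u1 ≤ u2) (o2 : u2 ≤ u3) (o3 : u3 ≤ u4) : Good u1 u2 u3 u4 ∨ Good2 u1 u2 u3 u4 := by
  have e1 : H u1 = u1 - 0 := hk_0 (by linarith only [a1]) (by linarith only [b1])
  have f1 : H (4 * u1) = 4 - (4 * u1) := hk_3 (by linarith only [a1]) (by linarith only [b1])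
  have e2 : H u2 = 1 := hk_1 (by linarith only [a2]) (by linarith only [b2])
  have f2 : H (4 * u2) = 1 := hk_5 (by linarith only [a2]) (by linarith only [b2])
  have e3 : H u3 = 1 := hk_1 (by linarith only [a3]) (by linarith only [b3])
  have f3 : H (4 * u3) = 1 := hk_5 (by linarith only [a3]) (by linarith only [b3])
  have e4 : H u4 = 1 := hk_1 (by linarith only [a4]) (by linarith only [b4])
  have f4 : H (4 * u4) = 1 := hk_5 (by linarith only [a4]) (by linarith only [b4])
  have hX : H (T / 4) = 1 := hk_1 (by linarith only [lo]) (by linarith only [hi])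
  have hS : H T = T - 4 := hk_4 (by linarith only [lo]) (by linarith only [hi])
  have hW : H (4 * T) = 1 := hk_18 (by linarith only [lo]) (by linarith only [hi])
  have hN : H (4 * T - 12) = 1 := hk_6 (by linarith only [lo]) (by linarith only [hi])
  exact good2_T hT zk_3 zk_3 zk_3 zk_3 (by norm_num) e1 e2 e3 e4 f1 f2 f3 f4 hX hS hW hN (R := ((-8) * u1 + (-4) * u2 + (-4) * u3 + 19)) ⟨(by linarith only [hT, b1, a2, a4, hi]), (by linarith only [hT, b1, a3, a4, hi]), (by linarith only [hT, b1, a4, hi]), (by linarith only [hT, o2, o3, hi]), (by linarith only [hT, a3, a4, hi]), (by linarith only [hT, a3, a4, hi]), (by linarith only [hT, o3, hi]), (by linarith only [hT, a2, a4, hi]), (by linarith only [hT, a2, a4, hi]), (by linarith only [hT, hi]), (by linarith only [hT, b1, a2, hi]), (by linarith only [hT, b1, a3, hi])⟩ (by linarith only [hT])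

theorem lf_2_3_5_5_5_19 (u1 u2 u3 u4 T : ℝ) (hT : T = u1 + u2 + u3 + u4) (a1 : (3 / 4) ≤ u1) (b1 : u1 ≤ 1) (a2 : (5 / 4) ≤ u2) (b2 : u2 ≤ (3 / 2)) (a3 : (5 / 4) ≤ u3) (b3 : u3 ≤ (3 / 2)) (a4 : (5 / 4) ≤ u4) (b4 : u4 ≤ (3 / 2)) (lo : (19 / 4) ≤ T) (hi : T ≤ 5) (o1 : u1 ≤ u2) (o2 : u2 ≤ u3) (o3 : u3 ≤ u4) : Good u1 u2 u3 u4 ∨ Good2 u1 u2 u3 u4 := by
  have e1 : H u1 = u1 - 0 := hk_0 (by linarith only [a1]) (by linarith only [b1])
  have f1 : H (4 * u1) = 4 - (4 * u1) := hk_3 (by linarith only [a1]) (by linarith only [b1])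
  have e2 : H u2 = 1 := hk_1 (by linarith only [a2]) (by linarith only [b2])
  have f2 : H (4 * u2) = 1 := hk_5 (by linarith only [a2]) (by linarith only [b2])
  have e3 : H u3 = 1 := hk_1 (by linarith only [a3]) (by linarith only [b3])
  have f3 : H (4 * u3) = 1 := hk_5 (by linarith only [a3]) (by linarith only [b3])
  have e4 : H u4 = 1 := hk_1 (by linarith only [a4]) (by linarith only [b4])
  have f4 : H (4 * u4) = 1 := hk_5 (by linarith only [a4]) (by linarith only [b4])
  have hX : H (T / 4) = 1 := hk_1 (by linarith only [lo]) (by linarith only [hi])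
  have hS : H T = T - 4 := hk_4 (by linarith only [lo]) (by linarith only [hi])
  have hW : H (4 * T) = 20 - (4 * T) := hk_19 (by linarith only [lo]) (by linarith only [hi])
  have hN : H (4 * T - 13) = 1 := hk_6 (by linarith only [lo]) (by linarith only [hi])
  exact good2_T hT zk_3 zk_3 zk_3 zk_4 (by norm_num) e1 e2 e3 e4 f1 f2 f3 f4 hX hS hW hN (R := ((-4) * u1 + 4 * u4)) ⟨(by linarith only [hT, b1, a2, a4]), (by linarith only [hT, b1, a3, a4]), (by linarith only [hT, b1, a4]), (by linarith only [hT, o2, o3]), (by linarith only [hT, b1, a4, o2]), (by linarith only [hT, b1, a2, o2, o3]), (by linarith only [hT, o3]), (by linarith only [hT, b1, a2, o3]), (by linarith only [hT, b1, a3, o3]), (by linarith only [hT]), (by linarith only [hT, b1, a2]), (by linarith only [hT, b1, a3])⟩ (by linarith only [hT])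

theorem lf_2_3_5_5_6_19 (u1 u2 u3 u4 T : ℝ) (hT : T = u1 + u2 + u3 + u4) (a1 : (3 / 4) ≤ u1) (b1 : u1 ≤ 1) (a2 : (5 / 4) ≤ u2) (b2 : u2 ≤ (3 / 2)) (a3 : (5 / 4) ≤ u3) (b3 : u3 ≤ (3 / 2)) (a4 : (3 / 2) ≤ u4) (b4 : u4 ≤ (7 / 4)) (lo : (19 / 4) ≤ T) (hi : T ≤ 5) (o1 : u1 ≤ u2) (o2 : u2 ≤ u3) (o3 : u3 ≤ u4) : Good u1 u2 u3 u4 ∨ Good2 u1 u2 u3 u4 := by
  have e1 : H u1 = u1 - 0 := hk_0 (by linarith only [a1]) (by linarith only [b1])
  have f1 : H (4 * u1) = 4 - (4 * u1) := hk_3 (by linarith only [a1]) (by linarith only [b1])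
  have e2 : H u2 = 1 := hk_1 (by linarith only [a2]) (by linarith only [b2])
  have f2 : H (4 * u2) = 1 := hk_5 (by linarith only [a2]) (by linarith only [b2])
  have e3 : H u3 = 1 := hk_1 (by linarith only [a3]) (by linarith only [b3])
  have f3 : H (4 * u3) = 1 := hk_5 (by linarith only [a3]) (by linarith only [b3])
  have e4 : H u4 = 1 := hk_1 (by linarith only [a4]) (by linarith only [b4])
  have f4 : H (4 * u4) = 1 := hk_6 (by linarith only [a4]) (by linarith only [b4])
  have hX : H (T / 4) = 1 := hk_1 (by linarith only [lo]) (by linarith only [hi])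
  have hS : H T = T - 4 := hk_4 (by linarith only [lo]) (by linarith only [hi])
  have hW : H (4 * T) = 20 - (4 * T) := hk_19 (by linarith only [lo]) (by linarith only [hi])
  have hN : H (4 * T - 13) = 1 := hk_6 (by linarith only [lo]) (by linarith only [hi])
  exact good2_T hT zk_3 zk_3 zk_3 zk_4 (by norm_num) e1 e2 e3 e4 f1 f2 f3 f4 hX hS hW hN (R := ((-4) * u1 + 4 * u4)) ⟨(by linarith only [hT, b1, a2, a4]), (by linarith only [hT, b1, a3, a4]), (by linarith only [hT, b1, a4]), (by linarith only [hT, a1, a4, o2, hi]), (by linarith only [hT, b1, a4, o2]), (by linarith only [hT, a3, a4, hi]), (by linarith only [hT, o3]), (by linarith only [hT, a2, a4, hi]), (by linarith only [hT, a2, a4, hi]), (by linarith only [hT]), (by linarith only [hT, b1, a2]), (by linarith only [hT, b1, a3])⟩ (by linarith only [hT])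

theorem sp_0_1_1_1_4 (u1 u2 u3 u4 T : ℝ) (hT : T = u1 + u2 + u3 + u4) (a1 : 0 ≤ u1) (b1 : u1 ≤ 0 + 1) (a2 : 1 ≤ u2) (b2 : u2 ≤ 1 + 1) (a3 : 1 ≤ u3) (b3 : u3 ≤ 1 + 1) (a4 : 1 ≤ u4) (b4 : u4 ≤ 1 + 1) (o1 : u1 ≤ u2) (o2 : u2 ≤ u3) (o3 : u3 ≤ u4) (s1 : 4 ≤ T) (s2 : T ≤ 5) : Good u1 u2 u3 u4 ∨ Good2 u1 u2 u3 u4 := by
  have e1 : H u1 = u1 - 0 := hk_0 a1 b1
  have e2 : H u2 = 1 := hk_1 a2 b2
  have e3 : H u3 = 1 := hk_1 a3 b3
  have e4 : H u4 = 1 := hk_1 a4 b4
  have hX : H (T / 4) = 1 := hk_1 (by linarith only [s1]) (by linarith only [s2])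
  have hS : H T = T - 4 := hk_4 s1 (by linarith only [s2])
  by_cases hc : 2 * u1 + u3 ≤ 3
  · skip
    have hN : H (T - 3) = 1 := hk_1 (by linarith only [s1]) (by linarith only [s2])
    exact good_T hT zk_0 zk_1 zk_1 zk_1 (by norm_num) e1 e2 e3 e4 hX hS hN (R := (- u1 - u2 - u3 + 4)) ⟨(by linarith only [hT, hc]), (by linarith only [hT, o2, hc]), (by linarith only [hT, o2, o3, hc]), (by linarith only [hT, a1, o2, o3, s2]), (by linarith only [hT, o2, o3, s2, hc]), (by linarith only [hT, o2, o3, s2, hc]), (by linarith only [hT, a1, o3, s2]), (by linarith only [hT, a2, o3, s2]), (by linarith only [hT, o2, o3, s2, hc]), (by linarith only [hT, a1, s2]), (by linarith only [hT, a2, s2]), (by linarith only [hT, a3, s2])⟩ (by linarith only [hT])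
  push Not at hc
  have B1 : u1 ≤ 1 := by linarith only [b1]
  have B2 : u2 ≤ 2 := by linarith only [b2]
  have B3 : u3 ≤ 2 := by linarith only [b3]
  have B4 : u4 ≤ 2 := by linarith only [b4]
  rcases le_total u1 (1 / 2) with z1 | z1
  · skip
    exfalso; linarith only [hT, hc, z1, a2, o3, s2]
  · skip
    rcases le_total u1 (3 / 4) with z2 | z2
    · skip
      rcases le_total u2 (3 / 2) with z3 | z3
      · skip
        rcases le_total u2 (5 / 4) with z4 | z4
        · skip
          rcases le_total u3 (3 / 2) with z5 | z5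
          · skip
            exfalso; linarith only [hT, hc, z2, z5]
          · skip
            rcases le_total u3 (7 / 4) with z6 | z6
            · skip
              rcases le_total u4 (3 / 2) with z7 | z7
              · skip
                exfalso; linarith only [hT, hc, z2, z7, o3]
              · skip
                rcases le_total u4 (7 / 4) with z8 | z8
                · skip
                  rcases le_total T (9 / 2) with z9 | z9
                  · skip
                    exfalso; linarith only [hT, hc, a2, z5, z7, z9]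
                  · skip
                    rcases le_total T (19 / 4) with z10 | z10
                    · skip
                      exfalso; linarith only [hT, hc, z2, a2, z7, z10]
                    · skip
                      exact lf_2_2_4_6_6_19 u1 u2 u3 u4 T hT z1 z2 a2 z4 z5 z6 z7 z8 z10 s2 o1 o2 o3
                · skip
                  exfalso; linarith only [hT, hc, z2, a2, z8, s2]
            · skip
              exfalso; linarith only [hT, hc, a2, z6, o3, s2]
        · skip
          exfalso; linarith only [hT, hc, z2, z4, o3, s2]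
      · skip
        exfalso; linarith only [hT, hc, z3, o2, o3, s2]
    · skip
      rcases le_total u2 (3 / 2) with z11 | z11
      · skip
        rcases le_total u2 (5 / 4) with z12 | z12
        · skip
          rcases le_total u3 (3 / 2) with z13 | z13
          · skip
            rcases le_total u3 (5 / 4) with z14 | z14
            · skip
              rcases le_total u4 (3 / 2) with z15 | z15
              · skip
                rcases le_total u4 (5 / 4) with z16 | z16
                · skip
                  rcases le_total T (9 / 2) with z17 | z17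
                  · skip
                    rcases le_total T (17 / 4) with z18 | z18
                    · skip
                      exact lf_2_3_4_4_4_16 u1 u2 u3 u4 T hT z2 B1 a2 z12 a3 z14 a4 z16 s1 z18 o1 o2 o3
                    · skip
                      exact lf_2_3_4_4_4_17 u1 u2 u3 u4 T hT z2 B1 a2 z12 a3 z14 a4 z16 z18 z17 o1 o2 o3
                  · skip
                    rcases le_total T (19 / 4) with z19 | z19
                    · skip
                      exact lf_2_3_4_4_4_18 u1 u2 u3 u4 T hT z2 B1 a2 z12 a3 z14 a4 z16 z17 z19 o1 o2 o3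
                    · skip
                      exact lf_2_3_4_4_4_19 u1 u2 u3 u4 T hT z2 B1 a2 z12 a3 z14 a4 z16 z19 s2 o1 o2 o3
                · skip
                  rcases le_total T (9 / 2) with z20 | z20
                  · skip
                    rcases le_total T (17 / 4) with z21 | z21
                    · skip
                      exfalso; linarith only [hT, hc, z16, o1, z21]
                    · skip
                      exact lf_2_3_4_4_5_17 u1 u2 u3 u4 T hT z2 B1 a2 z12 a3 z14 z16 z15 z21 z20 o1 o2 o3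
                  · skip
                    rcases le_total T (19 / 4) with z22 | z22
                    · skip
                      exact lf_2_3_4_4_5_18 u1 u2 u3 u4 T hT z2 B1 a2 z12 a3 z14 z16 z15 z20 z22 o1 o2 o3
                    · skip
                      exact lf_2_3_4_4_5_19 u1 u2 u3 u4 T hT z2 B1 a2 z12 a3 z14 z16 z15 z22 s2 o1 o2 o3
              · skip
                rcases le_total u4 (7 / 4) with z23 | z23
                · skip
                  rcases le_total T (9 / 2) with z24 | z24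
                  · skip
                    exfalso; linarith only [hT, hc, z15, o1, z24]
                  · skip
                    rcases le_total T (19 / 4) with z25 | z25
                    · skip
                      exact lf_2_3_4_4_6_18 u1 u2 u3 u4 T hT z2 B1 a2 z12 a3 z14 z15 z23 z24 z25 o1 o2 o3
                    · skip
                      exact lf_2_3_4_4_6_19 u1 u2 u3 u4 T hT z2 B1 a2 z12 a3 z14 z15 z23 z25 s2 o1 o2 o3
                · skip
                  rcases le_total T (9 / 2) with z26 | z26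
                  · skip
                    exfalso; linarith only [hT, hc, a2, a3, z23, z26]
                  · skip
                    rcases le_total T (19 / 4) with z27 | z27
                    · skip
                      exfalso; linarith only [hT, hc, z23, o1, z27]
                    · skip
                      exact lf_2_3_4_4_7_19 u1 u2 u3 u4 T hT z2 B1 a2 z12 a3 z14 z23 B4 z27 s2 o1 o2 o3
            · skip
              rcases le_total u4 (3 / 2) with z28 | z28
              · skip
                rcases le_total u4 (5 / 4) with z29 | z29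
                · skip
                  rcases le_total T (9 / 2) with z30 | z30
                  · skip
                    rcases le_total T (17 / 4) with z31 | z31
                    · skip
                      exfalso; linarith only [hT, hc, a2, z14, o3, z31]
                    · skip
                      exact lf_2_3_4_5_5_17 u1 u2 u3 u4 T hT z2 B1 a2 z12 z14 z13 (by linarith only [hT, z14, o3]) (by linarith only [hT, z29]) z31 z30 o1 o2 o3
                  · skip
                    rcases le_total T (19 / 4) with z32 | z32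
                    · skip
                      exact lf_2_3_4_5_5_18 u1 u2 u3 u4 T hT z2 B1 a2 z12 z14 z13 (by linarith only [hT, z14, o3]) (by linarith only [hT, z29]) z30 z32 o1 o2 o3
                    · skip
                      exact lf_2_3_4_5_5_19 u1 u2 u3 u4 T hT z2 B1 a2 z12 z14 z13 (by linarith only [hT, z14, o3]) (by linarith only [hT, z29]) z32 s2 o1 o2 o3
                · skip
                  rcases le_total T (9 / 2) with z33 | z33
                  · skip
                    rcases le_total T (17 / 4) with z34 | z34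
                    · skip
                      exfalso; linarith only [hT, hc, a2, z14, z29, z34]
                    · skip
                      exact lf_2_3_4_5_5_17 u1 u2 u3 u4 T hT z2 B1 a2 z12 z14 z13 z29 z28 z34 z33 o1 o2 o3
                  · skip
                    rcases le_total T (19 / 4) with z35 | z35
                    · skip
                      exact lf_2_3_4_5_5_18 u1 u2 u3 u4 T hT z2 B1 a2 z12 z14 z13 z29 z28 z33 z35 o1 o2 o3
                    · skip
                      exact lf_2_3_4_5_5_19 u1 u2 u3 u4 T hT z2 B1 a2 z12 z14 z13 z29 z28 z35 s2 o1 o2 o3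
              · skip
                rcases le_total u4 (7 / 4) with z36 | z36
                · skip
                  rcases le_total T (9 / 2) with z37 | z37
                  · skip
                    exfalso; linarith only [hT, hc, a2, z14, z28, z37]
                  · skip
                    rcases le_total T (19 / 4) with z38 | z38
                    · skip
                      exact lf_2_3_4_5_6_18 u1 u2 u3 u4 T hT z2 B1 a2 z12 z14 z13 z28 z36 z37 z38 o1 o2 o3
                    · skip
                      exact lf_2_3_4_5_6_19 u1 u2 u3 u4 T hT z2 B1 a2 z12 z14 z13 z28 z36 z38 s2 o1 o2 o3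
                · skip
                  rcases le_total T (9 / 2) with z39 | z39
                  · skip
                    exfalso; linarith only [hT, z39, z2, a2, z14, z36]
                  · skip
                    rcases le_total T (19 / 4) with z40 | z40
                    · skip
                      exfalso; linarith only [hT, hc, a2, z14, z36, z40]
                    · skip
                      exact lf_2_3_4_5_7_19 u1 u2 u3 u4 T hT z2 B1 a2 z12 z14 z13 z36 B4 z40 s2 o1 o2 o3
          · skip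
            rcases le_total u3 (7 / 4) with z41 | z41
            · skip
              rcases le_total u4 (3 / 2) with z42 | z42
              · skip
                rcases le_total u4 (5 / 4) with z43 | z43
                · skip
                  exfalso; linarith only [hT, o3, z13, z43]
                · skip
                  rcases le_total T (9 / 2) with z44 | z44
                  · skip
                    exfalso; linarith only [hT, z44, z2, a2, z13, o3]
                  · skip
                    rcases le_total T (19 / 4) with z45 | z45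
                    · skip
                      exfalso; linarith only [hT, hc, a2, z13, o3, z45]
                    · skip
                      exact lf_2_3_4_6_6_19 u1 u2 u3 u4 T hT z2 B1 a2 z12 z13 z41 (by linarith only [hT, z13, o3]) (by linarith only [hT, z42]) z45 s2 o1 o2 o3
              · skip
                rcases le_total u4 (7 / 4) with z46 | z46
                · skip
                  rcases le_total T (9 / 2) with z47 | z47
                  · skip
                    exfalso; linarith only [hT, z47, z2, a2, z13, z42]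
                  · skip
                    rcases le_total T (19 / 4) with z48 | z48
                    · skip
                      exfalso; linarith only [hT, hc, a2, z13, z42, z48]
                    · skip
                      exact lf_2_3_4_6_6_19 u1 u2 u3 u4 T hT z2 B1 a2 z12 z13 z41 z42 z46 z48 s2 o1 o2 o3
                · skip
                  exfalso; linarith only [hT, hc, a2, z13, z46, s2]
            · skip
              exfalso; linarith only [hT, s2, z2, a2, z41, o3]
        · skip
          rcases le_total u3 (3 / 2) with z49 | z49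
          · skip
            rcases le_total u3 (5 / 4) with z50 | z50
            · skip
              rcases le_total u4 (3 / 2) with z51 | z51
              · skip
                rcases le_total u4 (5 / 4) with z52 | z52
                · skip
                  rcases le_total T (9 / 2) with z53 | z53
                  · skip
                    exfalso; linarith only [hT, hc, z12, o2, o3, z53]
                  · skip
                    rcases le_total T (19 / 4) with z54 | z54
                    · skip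
                      exact lf_2_3_5_5_5_18 u1 u2 u3 u4 T hT z2 B1 z12 z11 (by linarith only [hT, z12, o2]) (by linarith only [hT, z50]) (by linarith only [hT, z12, o2, o3]) (by linarith only [hT, z52]) z53 z54 o1 o2 o3
                    · skip
                      exact lf_2_3_5_5_5_19 u1 u2 u3 u4 T hT z2 B1 z12 z11 (by linarith only [hT, z12, o2]) (by linarith only [hT, z50]) (by linarith only [hT, z12, o2, o3]) (by linarith only [hT, z52]) z54 s2 o1 o2 o3
                · skip
                  rcases le_total T (9 / 2) with z55 | z55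
                  · skip
                    exfalso; linarith only [hT, hc, z12, z52, o2, z55]
                  · skip
                    rcases le_total T (19 / 4) with z56 | z56
                    · skip
                      exact lf_2_3_5_5_5_18 u1 u2 u3 u4 T hT z2 B1 z12 z11 (by linarith only [hT, z12, o2]) (by linarith only [hT, z50]) z52 z51 z55 z56 o1 o2 o3
                    · skip
                      exact lf_2_3_5_5_5_19 u1 u2 u3 u4 T hT z2 B1 z12 z11 (by linarith only [hT, z12, o2]) (by linarith only [hT, z50]) z52 z51 z56 s2 o1 o2 o3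
              · skip
                rcases le_total u4 (7 / 4) with z57 | z57
                · skip
                  rcases le_total T (9 / 2) with z58 | z58
                  · skip
                    exfalso; linarith only [hT, z58, z2, z12, z51, o2]
                  · skip
                    rcases le_total T (19 / 4) with z59 | z59
                    · skip
                      exfalso; linarith only [hT, hc, z12, z51, o2, z59]
                    · skip
                      exact lf_2_3_5_5_6_19 u1 u2 u3 u4 T hT z2 B1 z12 z11 (by linarith only [hT, z12, o2]) (by linarith only [hT, z50]) z51 z57 z59 s2 o1 o2 o3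
                · skip
                  exfalso; linarith only [hT, hc, z12, z57, o2, s2]
            · skip
              rcases le_total u4 (3 / 2) with z60 | z60
              · skip
                rcases le_total u4 (5 / 4) with z61 | z61
                · skip
                  rcases le_total T (9 / 2) with z62 | z62
                  · skip
                    exfalso; linarith only [hT, hc, z12, z50, o3, z62]
                  · skip
                    rcases le_total T (19 / 4) with z63 | z63
                    · skip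
                      exact lf_2_3_5_5_5_18 u1 u2 u3 u4 T hT z2 B1 z12 z11 z50 z49 (by linarith only [hT, z50, o3]) (by linarith only [hT, z61]) z62 z63 o1 o2 o3
                    · skip
                      exact lf_2_3_5_5_5_19 u1 u2 u3 u4 T hT z2 B1 z12 z11 z50 z49 (by linarith only [hT, z50, o3]) (by linarith only [hT, z61]) z63 s2 o1 o2 o3
                · skip
                  rcases le_total T (9 / 2) with z64 | z64
                  · skip
                    exfalso; linarith only [hT, hc, z12, z50, z61, z64]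
                  · skip
                    rcases le_total T (19 / 4) with z65 | z65
                    · skip
                      exact lf_2_3_5_5_5_18 u1 u2 u3 u4 T hT z2 B1 z12 z11 z50 z49 z61 z60 z64 z65 o1 o2 o3
                    · skip
                      exact lf_2_3_5_5_5_19 u1 u2 u3 u4 T hT z2 B1 z12 z11 z50 z49 z61 z60 z65 s2 o1 o2 o3
              · skip
                rcases le_total u4 (7 / 4) with z66 | z66
                · skip
                  rcases le_total T (9 / 2) with z67 | z67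
                  · skip
                    exfalso; linarith only [hT, z67, z2, z12, z50, z60]
                  · skip
                    rcases le_total T (19 / 4) with z68 | z68
                    · skip
                      exfalso; linarith only [hT, hc, z12, z50, z60, z68]
                    · skip
                      exact lf_2_3_5_5_6_19 u1 u2 u3 u4 T hT z2 B1 z12 z11 z50 z49 z60 z66 z68 s2 o1 o2 o3
                · skip
                  exfalso; linarith only [hT, hc, z12, z50, z66, s2]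
          · skip
            exfalso; linarith only [hT, hc, z12, z49, o3, s2]
      · skip
        exfalso; linarith only [hT, s2, z2, z11, o2, o3]

end Pool.Agent.W401.WC
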