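import Pool.Agent.W401.WC.Hk
set_option autoImplicit false
set_option linter.all false
namespace Pool.Agent.W401.WC

theorem lf_3_2_4_6_6_20 (u1 u2 u3 u4 T : ℝ) (hT : T = u1 + u2 + u3 + u4) (a1 : (1 / 2) ≤ u1) (b1 : u1 ≤ (3 / 4)) (a2 : 1 ≤ u2) (b2 : u2 ≤ (5 / 4)) (a3 : (3 / 2) ≤ u3) (b3 : u3 ≤ (7 / 4)) (a4 : (3 / 2) ≤ u4) (b4 : u4 ≤ (7 / 4)) (lo : 5 ≤ T) (hi : T ≤ (21 / 4)) (o1 : u1 ≤ u2) (o2 : u2 ≤ u3) (o3 : u3 ≤ u4) : Good u1 u2 u3 u4 ∨ Good2 u1 u2 u3 u4 := by
  have e1 : H u1 = u1 - 0 := hk_0 (by linarith only [a1]) (by linarith only [b1])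
  have f1 : H (4 * u1) = 1 := hk_2 (by linarith only [a1]) (by linarith only [b1])
  have e2 : H u2 = 1 := hk_1 (by linarith only [a2]) (by linarith only [b2])
  have f2 : H (4 * u2) = (4 * u2) - 4 := hk_4 (by linarith only [a2]) (by linarith only [b2])
  have e3 : H u3 = 1 := hk_1 (by linarith only [a3]) (by linarith only [b3])
  have f3 : H (4 * u3) = 1 := hk_6 (by linarith only [a3]) (by linarith only [b3])
  have e4 : H u4 = 1 := hk_1 (by linarith only [a4]) (by linarith only [b4])
  have f4 : H (4 * u4) = 1 := hk_6 (by linarith only [a4]) (by linarith only [b4])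
  have hX : H (T / 4) = 1 := hk_1 (by linarith only [lo]) (by linarith only [hi])
  have hS : H T = 1 := hk_5 (by linarith only [lo]) (by linarith only [hi])
  have hW : H (4 * T) = (4 * T) - 20 := hk_20 (by linarith only [lo]) (by linarith only [hi])
  have hN : H (4 * T - 14) = 1 := hk_6 (by linarith only [lo]) (by linarith only [hi])
  exact good2_T hT zk_2 zk_2 zk_4 zk_6 (by norm_num) e1 e2 e3 e4 f1 f2 f3 f4 hX hS hW hN (R := ((-4) * u1 + (-4) * u3 + 12)) ⟨(by linarith only [hT, b1, a2, b3]), (by linarith only [hT, b1]), (by linarith only [hT, b1, o3]), (by linarith only [hT, b2, b3]), (by linarith only [hT, b1, b2]), (by linarith only [hT, b1, b2, o3]), (by linarith only [hT, b3]), (by linarith only [hT, b1, a2, b3]), (by linarith only [hT, b1, b3, o3]), (by linarith only [hT, b3, b4]), (by linarith only [hT, a2, hi]), (by linarith only [hT, b1, b4])⟩ (by linarith only [hT])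

theorem lf_3_3_4_4_5_20 (u1 u2 u3 u4 T : ℝ) (hT : T = u1 + u2 + u3 + u4) (a1 : (3 / 4) ≤ u1) (b1 : u1 ≤ 1) (a2 : 1 ≤ u2) (b2 : u2 ≤ (5 / 4)) (a3 : 1 ≤ u3) (b3 : u3 ≤ (5 / 4)) (a4 : (5 / 4) ≤ u4) (b4 : u4 ≤ (3 / 2)) (lo : 5 ≤ T) (hi : T ≤ (21 / 4)) (o1 : u1 ≤ u2) (o2 : u2 ≤ u3) (o3 : u3 ≤ u4) : Good u1 u2 u3 u4 ∨ Good2 u1 u2 u3 u4 := by
  have e1 : H u1 = u1 - 0 := hk_0 (by linarith only [a1]) (by linarith only [b1])
  have f1 : H (4 * u1) = 4 - (4 * u1) := hk_3 (by linarith only [a1]) (by linarith only [b1])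
  have e2 : H u2 = 1 := hk_1 (by linarith only [a2]) (by linarith only [b2])
  have f2 : H (4 * u2) = (4 * u2) - 4 := hk_4 (by linarith only [a2]) (by linarith only [b2])
  have e3 : H u3 = 1 := hk_1 (by linarith only [a3]) (by linarith only [b3])
  have f3 : H (4 * u3) = (4 * u3) - 4 := hk_4 (by linarith only [a3]) (by linarith only [b3])
  have e4 : H u4 = 1 := hk_1 (by linarith only [a4]) (by linarith only [b4])
  have f4 : H (4 * u4) = 1 := hk_5 (by linarith only [a4]) (by linarith only [b4])
  have hX : H (T / 4) = 1 := hk_1 (by linarith only [lo]) (by linarith only [hi])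
  have hS : H T = 1 := hk_5 (by linarith only [lo]) (by linarith only [hi])
  have hW : H (4 * T) = (4 * T) - 20 := hk_20 (by linarith only [lo]) (by linarith only [hi])
  have hN : H (4 * T - 10) = 1 := hk_10 (by linarith only [lo]) (by linarith only [hi])
  exact good2_T hT zk_3 zk_2 zk_2 zk_3 (by norm_num) e1 e2 e3 e4 f1 f2 f3 f4 hX hS hW hN (R := ((-8) * u1 + 10)) ⟨(by linarith only [hT, b1, b3, b4, lo]), (by linarith only [hT, b1, b2, b4, lo]), (by linarith only [hT, b1, b2, b3, lo]), (by linarith only [hT, b1, b2]), (by linarith only [hT, b1, o2]), (by linarith only [hT, b1, b2, b3, lo]), (by linarith only [hT, b1, b3]), (by linarith only [hT, b1, b3, b4, lo]), (by linarith only [hT, b1, b2, b3, lo]), (by linarith only [hT, b1, b4]), (by linarith only [hT, b1, b3, b4, lo]), (by linarith only [hT, b1, b2, b4, lo])⟩ (by linarith only [hT])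

theorem lf_3_3_4_4_6_20 (u1 u2 u3 u4 T : ℝ) (hT : T = u1 + u2 + u3 + u4) (a1 : (3 / 4) ≤ u1) (b1 : u1 ≤ 1) (a2 : 1 ≤ u2) (b2 : u2 ≤ (5 / 4)) (a3 : 1 ≤ u3) (b3 : u3 ≤ (5 / 4)) (a4 : (3 / 2) ≤ u4) (b4 : u4 ≤ (7 / 4)) (lo : 5 ≤ T) (hi : T ≤ (21 / 4)) (o1 : u1 ≤ u2) (o2 : u2 ≤ u3) (o3 : u3 ≤ u4) : Good u1 u2 u3 u4 ∨ Good2 u1 u2 u3 u4 := by
  have e1 : H u1 = u1 - 0 := hk_0 (by linarith only [a1]) (by linarith only [b1])
  have f1 : H (4 * u1) = 4 - (4 * u1) := hk_3 (by linarith only [a1]) (by linarith only [b1])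
  have e2 : H u2 = 1 := hk_1 (by linarith only [a2]) (by linarith only [b2])
  have f2 : H (4 * u2) = (4 * u2) - 4 := hk_4 (by linarith only [a2]) (by linarith only [b2])
  have e3 : H u3 = 1 := hk_1 (by linarith only [a3]) (by linarith only [b3])
  have f3 : H (4 * u3) = (4 * u3) - 4 := hk_4 (by linarith only [a3]) (by linarith only [b3])
  have e4 : H u4 = 1 := hk_1 (by linarith only [a4]) (by linarith only [b4])
  have f4 : H (4 * u4) = 1 := hk_6 (by linarith only [a4]) (by linarith only [b4])
  have hX : H (T / 4) = 1 := hk_1 (by linarith only [lo]) (by linarith only [hi])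
  have hS : H T = 1 := hk_5 (by linarith only [lo]) (by linarith only [hi])
  have hW : H (4 * T) = (4 * T) - 20 := hk_20 (by linarith only [lo]) (by linarith only [hi])
  have hN : H (4 * T - 11) = 1 := hk_9 (by linarith only [lo]) (by linarith only [hi])
  exact good2_T hT zk_3 zk_2 zk_2 zk_4 (by norm_num) e1 e2 e3 e4 f1 f2 f3 f4 hX hS hW hN (R := ((-8) * u1 + 10)) ⟨(by linarith only [hT, b1, a2]), (by linarith only [hT, b1, b4, o2, lo]), (by linarith only [hT, b1, a4]), (by linarith only [hT, b1, b2]), (by linarith only [hT, b1, o2]), (by linarith only [hT, b1, b2, a4]), (by linarith only [hT, b1, b3]), (by linarith only [hT, b1, a2, b3]), (by linarith only [hT, b1, b3, a4]), (by linarith only [hT, b1, b4]), (by linarith only [hT, b1, a2, b4]), (by linarith only [hT, b1, b4, o2, lo])⟩ (by linarith only [hT])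

theorem lf_3_3_4_4_7_20 (u1 u2 u3 u4 T : ℝ) (hT : T = u1 + u2 + u3 + u4) (a1 : (3 / 4) ≤ u1) (b1 : u1 ≤ 1) (a2 : 1 ≤ u2) (b2 : u2 ≤ (5 / 4)) (a3 : 1 ≤ u3) (b3 : u3 ≤ (5 / 4)) (a4 : (7 / 4) ≤ u4) (b4 : u4 ≤ 2) (lo : 5 ≤ T) (hi : T ≤ (21 / 4)) (o1 : u1 ≤ u2) (o2 : u2 ≤ u3) (o3 : u3 ≤ u4) : Good u1 u2 u3 u4 ∨ Good2 u1 u2 u3 u4 := by
  have e1 : H u1 = u1 - 0 := hk_0 (by linarith only [a1]) (by linarith only [b1])
  have f1 : H (4 * u1) = 4 - (4 * u1) := hk_3 (by linarith only [a1]) (by linarith only [b1])
  have e2 : H u2 = 1 := hk_1 (by linarith only [a2]) (by linarith only [b2])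
  have f2 : H (4 * u2) = (4 * u2) - 4 := hk_4 (by linarith only [a2]) (by linarith only [b2])
  have e3 : H u3 = 1 := hk_1 (by linarith only [a3]) (by linarith only [b3])
  have f3 : H (4 * u3) = (4 * u3) - 4 := hk_4 (by linarith only [a3]) (by linarith only [b3])
  have e4 : H u4 = 1 := hk_1 (by linarith only [a4]) (by linarith only [b4])
  have f4 : H (4 * u4) = 8 - (4 * u4) := hk_7 (by linarith only [a4]) (by linarith only [b4])
  have hX : H (T / 4) = 1 := hk_1 (by linarith only [lo]) (by linarith only [hi])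
  have hS : H T = 1 := hk_5 (by linarith only [lo]) (by linarith only [hi])
  have hW : H (4 * T) = (4 * T) - 20 := hk_20 (by linarith only [lo]) (by linarith only [hi])
  have hN : H (4 * T - 15) = 1 := hk_5 (by linarith only [lo]) (by linarith only [hi])
  exact good2_T hT zk_3 zk_3 zk_3 zk_6 (by norm_num) e1 e2 e3 e4 f1 f2 f3 f4 hX hS hW hN (R := ((-8) * u1 + (-4) * u4 + 17)) ⟨(by linarith only [hT, b1, a2, b4]), (by linarith only [hT, b1, a3, b4]), (by linarith only [hT, b1]), (by linarith only [hT, b1, b4, o2, hi]), (by linarith only [hT, b1, b4, o2]), (by linarith only [hT, b1, b2]), (by linarith only [hT, a2, hi]), (by linarith only [hT, b1, a2, hi]), (by linarith only [hT, b1, b3]), (by linarith only [hT, b1, b4]), (by linarith only [hT, b1, a2, b4]), (by linarith only [hT, b1, a3, b4])⟩ (by linarith only [hT])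

theorem lf_3_3_4_5_5_20 (u1 u2 u3 u4 T : ℝ) (hT : T = u1 + u2 + u3 + u4) (a1 : (3 / 4) ≤ u1) (b1 : u1 ≤ 1) (a2 : 1 ≤ u2) (b2 : u2 ≤ (5 / 4)) (a3 : (5 / 4) ≤ u3) (b3 : u3 ≤ (3 / 2)) (a4 : (5 / 4) ≤ u4) (b4 : u4 ≤ (3 / 2)) (lo : 5 ≤ T) (hi : T ≤ (21 / 4)) (o1 : u1 ≤ u2) (o2 : u2 ≤ u3) (o3 : u3 ≤ u4) : Good u1 u2 u3 u4 ∨ Good2 u1 u2 u3 u4 := by
  have e1 : H u1 = u1 - 0 := hk_0 (by linarith only [a1]) (by linarith only [b1])
  have f1 : H (4 * u1) = 4 - (4 * u1) := hk_3 (by linarith only [a1]) (by linarith only [b1])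
  have e2 : H u2 = 1 := hk_1 (by linarith only [a2]) (by linarith only [b2])
  have f2 : H (4 * u2) = (4 * u2) - 4 := hk_4 (by linarith only [a2]) (by linarith only [b2])
  have e3 : H u3 = 1 := hk_1 (by linarith only [a3]) (by linarith only [b3])
  have f3 : H (4 * u3) = 1 := hk_5 (by linarith only [a3]) (by linarith only [b3])
  have e4 : H u4 = 1 := hk_1 (by linarith only [a4]) (by linarith only [b4])
  have f4 : H (4 * u4) = 1 := hk_5 (by linarith only [a4]) (by linarith only [b4])
  have hX : H (T / 4) = 1 := hk_1 (by linarith only [lo]) (by linarith only [hi])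
  have hS : H T = 1 := hk_5 (by linarith only [lo]) (by linarith only [hi])
  have hW : H (4 * T) = (4 * T) - 20 := hk_20 (by linarith only [lo]) (by linarith only [hi])
  have hN : H (4 * T - 14) = 1 := hk_6 (by linarith only [lo]) (by linarith only [hi])
  exact good2_T hT zk_3 zk_3 zk_4 zk_4 (by norm_num) e1 e2 e3 e4 f1 f2 f3 f4 hX hS hW hN (R := ((-8) * u1 + (-4) * u3 + 15)) ⟨(by linarith only [hT, b1, a2, b3]), (by linarith only [hT, b1]), (by linarith only [hT, b1, o3]), (by linarith only [hT, b1, b2, b3]), (by linarith only [hT, b1, b2]), (by linarith only [hT, b1, b2, o3]), (by linarith only [hT, b1, b3]), (by linarith only [hT, b1, a2, b3]), (by linarith only [hT, b1, b3, o3]), (by linarith only [hT, b1, b3, b4]), (by linarith only [hT, b1, a2, b3, b4]), (by linarith only [hT, b1, b4])⟩ (by linarith only [hT])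

theorem lf_3_3_4_5_5_21 (u1 u2 u3 u4 T : ℝ) (hT : T = u1 + u2 + u3 + u4) (a1 : (3 / 4) ≤ u1) (b1 : u1 ≤ 1) (a2 : 1 ≤ u2) (b2 : u2 ≤ (5 / 4)) (a3 : (5 / 4) ≤ u3) (b3 : u3 ≤ (3 / 2)) (a4 : (5 / 4) ≤ u4) (b4 : u4 ≤ (3 / 2)) (lo : (21 / 4) ≤ T) (hi : T ≤ (11 / 2)) (o1 : u1 ≤ u2) (o2 : u2 ≤ u3) (o3 : u3 ≤ u4) : Good u1 u2 u3 u4 ∨ Good2 u1 u2 u3 u4 := by
  have e1 : H u1 = u1 - 0 := hk_0 (by linarith only [a1]) (by linarith only [b1])
  have f1 : H (4 * u1) = 4 - (4 * u1) := hk_3 (by linarith only [a1]) (by linarith only [b1])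
  have e2 : H u2 = 1 := hk_1 (by linarith only [a2]) (by linarith only [b2])
  have f2 : H (4 * u2) = (4 * u2) - 4 := hk_4 (by linarith only [a2]) (by linarith only [b2])
  have e3 : H u3 = 1 := hk_1 (by linarith only [a3]) (by linarith only [b3])
  have f3 : H (4 * u3) = 1 := hk_5 (by linarith only [a3]) (by linarith only [b3])
  have e4 : H u4 = 1 := hk_1 (by linarith only [a4]) (by linarith only [b4])
  have f4 : H (4 * u4) = 1 := hk_5 (by linarith only [a4]) (by linarith only [b4])
  have hX : H (T / 4) = 1 := hk_1 (by linarith only [lo]) (by linarith only [hi])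
  have hS : H T = 1 := hk_5 (by linarith only [lo]) (by linarith only [hi])
  have hW : H (4 * T) = 1 := hk_21 (by linarith only [lo]) (by linarith only [hi])
  have hN : H (4 * T - 14) = 8 - (4 * T - 14) := hk_7 (by linarith only [lo]) (by linarith only [hi])
  exact good2_T hT zk_3 zk_3 zk_4 zk_4 (by norm_num) e1 e2 e3 e4 f1 f2 f3 f4 hX hS hW hN (R := ((-8) * u1 + (-4) * u3 + 15)) ⟨(by linarith only [hT, b1, b3, b4, lo]), (by linarith only [hT, b1]), (by linarith only [hT, b1, o3]), (by linarith only [hT, b1, b2, b3]), (by linarith only [hT, b1, b2]), (by linarith only [hT, b1, b2, o3]), (by linarith only [hT, b1, b3]), (by linarith only [hT, b1, b3, b4, lo]), (by linarith only [hT, b1, b3, o3]), (by linarith only [hT, b1, b3, b4]), (by linarith only [hT, b1, b3, b4, lo]), (by linarith only [hT, b1, b4])⟩ (by linarith only [hT])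

theorem lf_3_3_4_5_6_20 (u1 u2 u3 u4 T : ℝ) (hT : T = u1 + u2 + u3 + u4) (a1 : (3 / 4) ≤ u1) (b1 : u1 ≤ 1) (a2 : 1 ≤ u2) (b2 : u2 ≤ (5 / 4)) (a3 : (5 / 4) ≤ u3) (b3 : u3 ≤ (3 / 2)) (a4 : (3 / 2) ≤ u4) (b4 : u4 ≤ (7 / 4)) (lo : 5 ≤ T) (hi : T ≤ (21 / 4)) (o1 : u1 ≤ u2) (o2 : u2 ≤ u3) (o3 : u3 ≤ u4) : Good u1 u2 u3 u4 ∨ Good2 u1 u2 u3 u4 := by
  have e1 : H u1 = u1 - 0 := hk_0 (by linarith only [a1]) (by linarith only [b1])
  have f1 : H (4 * u1) = 4 - (4 * u1) := hk_3 (by linarith only [a1]) (by linarith only [b1])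
  have e2 : H u2 = 1 := hk_1 (by linarith only [a2]) (by linarith only [b2])
  have f2 : H (4 * u2) = (4 * u2) - 4 := hk_4 (by linarith only [a2]) (by linarith only [b2])
  have e3 : H u3 = 1 := hk_1 (by linarith only [a3]) (by linarith only [b3])
  have f3 : H (4 * u3) = 1 := hk_5 (by linarith only [a3]) (by linarith only [b3])
  have e4 : H u4 = 1 := hk_1 (by linarith only [a4]) (by linarith only [b4])
  have f4 : H (4 * u4) = 1 := hk_6 (by linarith only [a4]) (by linarith only [b4])
  have hX : H (T / 4) = 1 := hk_1 (by linarith only [lo]) (by linarith only [hi])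
  have hS : H T = 1 := hk_5 (by linarith only [lo]) (by linarith only [hi])
  have hW : H (4 * T) = (4 * T) - 20 := hk_20 (by linarith only [lo]) (by linarith only [hi])
  have hN : H (4 * T - 15) = 1 := hk_5 (by linarith only [lo]) (by linarith only [hi])
  exact good2_T hT zk_3 zk_3 zk_4 zk_5 (by norm_num) e1 e2 e3 e4 f1 f2 f3 f4 hX hS hW hN (R := ((-8) * u1 + (-4) * u3 + 15)) ⟨(by linarith only [hT, b1, a2, b3]), (by linarith only [hT, b1]), (by linarith only [hT, b1, o3]), (by linarith only [hT, a4, hi]), (by linarith only [hT, b1, b2]), (by linarith only [hT, b1, b2, o3]), (by linarith only [hT, b1, b3]), (by linarith only [hT, b1, a2, b3]), (by linarith only [hT, b1, b3, a4]), (by linarith only [hT, a2, hi]), (by linarith only [hT, b1, a2, hi]), (by linarith only [hT, b1, b4])⟩ (by linarith only [hT])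

theorem lf_3_3_4_5_6_21 (u1 u2 u3 u4 T : ℝ) (hT : T = u1 + u2 + u3 + u4) (a1 : (3 / 4) ≤ u1) (b1 : u1 ≤ 1) (a2 : 1 ≤ u2) (b2 : u2 ≤ (5 / 4)) (a3 : (5 / 4) ≤ u3) (b3 : u3 ≤ (3 / 2)) (a4 : (3 / 2) ≤ u4) (b4 : u4 ≤ (7 / 4)) (lo : (21 / 4) ≤ T) (hi : T ≤ (11 / 2)) (o1 : u1 ≤ u2) (o2 : u2 ≤ u3) (o3 : u3 ≤ u4) : Good u1 u2 u3 u4 ∨ Good2 u1 u2 u3 u4 := by
  have e1 : H u1 = u1 - 0 := hk_0 (by linarith only [a1]) (by linarith only [b1])
  have f1 : H (4 * u1) = 4 - (4 * u1) := hk_3 (by linarith only [a1]) (by linarith only [b1])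
  have e2 : H u2 = 1 := hk_1 (by linarith only [a2]) (by linarith only [b2])
  have f2 : H (4 * u2) = (4 * u2) - 4 := hk_4 (by linarith only [a2]) (by linarith only [b2])
  have e3 : H u3 = 1 := hk_1 (by linarith only [a3]) (by linarith only [b3])
  have f3 : H (4 * u3) = 1 := hk_5 (by linarith only [a3]) (by linarith only [b3])
  have e4 : H u4 = 1 := hk_1 (by linarith only [a4]) (by linarith only [b4])
  have f4 : H (4 * u4) = 1 := hk_6 (by linarith only [a4]) (by linarith only [b4])
  have hX : H (T / 4) = 1 := hk_1 (by linarith only [lo]) (by linarith only [hi])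
  have hS : H T = 1 := hk_5 (by linarith only [lo]) (by linarith only [hi])
  have hW : H (4 * T) = 1 := hk_21 (by linarith only [lo]) (by linarith only [hi])
  have hN : H (4 * T - 15) = 1 := hk_6 (by linarith only [lo]) (by linarith only [hi])
  exact good2_T hT zk_3 zk_3 zk_4 zk_5 (by norm_num) e1 e2 e3 e4 f1 f2 f3 f4 hX hS hW hN (R := ((-4) * u1 + 4 * u2 + 4 * u4 + (-6))) ⟨(by linarith only [hT, b1, a2, b3, lo]), (by linarith only [hT, b1, lo]), (by linarith only [hT, b1, o3, lo]), (by linarith only [hT, a4]), (by linarith only [hT, b1, b2, lo]), (by linarith only [hT, b1, a4]), (by linarith only [hT, b1, b3, lo]), (by linarith only [hT, b1, a2, b3, lo]), (by linarith only [hT, b1, b2, b3, lo]), (by linarith only [hT, a2]), (by linarith only [hT, b1, a2]), (by linarith only [hT, b1, b4, lo])⟩ (by linarith only [hT])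

theorem lf_3_3_4_5_7_20 (u1 u2 u3 u4 T : ℝ) (hT : T = u1 + u2 + u3 + u4) (a1 : (3 / 4) ≤ u1) (b1 : u1 ≤ 1) (a2 : 1 ≤ u2) (b2 : u2 ≤ (5 / 4)) (a3 : (5 / 4) ≤ u3) (b3 : u3 ≤ (3 / 2)) (a4 : (7 / 4) ≤ u4) (b4 : u4 ≤ 2) (lo : 5 ≤ T) (hi : T ≤ (21 / 4)) (o1 : u1 ≤ u2) (o2 : u2 ≤ u3) (o3 : u3 ≤ u4) : Good u1 u2 u3 u4 ∨ Good2 u1 u2 u3 u4 := by
  have e1 : H u1 = u1 - 0 := hk_0 (by linarith only [a1]) (by linarith only [b1])
  have f1 : H (4 * u1) = 4 - (4 * u1) := hk_3 (by linarith only [a1]) (by linarith only [b1])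
  have e2 : H u2 = 1 := hk_1 (by linarith only [a2]) (by linarith only [b2])
  have f2 : H (4 * u2) = (4 * u2) - 4 := hk_4 (by linarith only [a2]) (by linarith only [b2])
  have e3 : H u3 = 1 := hk_1 (by linarith only [a3]) (by linarith only [b3])
  have f3 : H (4 * u3) = 1 := hk_5 (by linarith only [a3]) (by linarith only [b3])
  have e4 : H u4 = 1 := hk_1 (by linarith only [a4]) (by linarith only [b4])
  have f4 : H (4 * u4) = 8 - (4 * u4) := hk_7 (by linarith only [a4]) (by linarith only [b4])
  have hX : H (T / 4) = 1 := hk_1 (by linarith only [lo]) (by linarith only [hi])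
  have hS : H T = 1 := hk_5 (by linarith only [lo]) (by linarith only [hi])
  have hW : H (4 * T) = (4 * T) - 20 := hk_20 (by linarith only [lo]) (by linarith only [hi])
  have hN : H (4 * T - 15) = 1 := hk_5 (by linarith only [lo]) (by linarith only [hi])
  exact good2_T hT zk_3 zk_2 zk_4 zk_6 (by norm_num) e1 e2 e3 e4 f1 f2 f3 f4 hX hS hW hN (R := ((-8) * u1 + (-4) * u3 + (-4) * u4 + 22)) ⟨(by linarith only [hT, o1, hi]), (by linarith only [hT, b1, b4]), (by linarith only [hT, b1, b3]), (by linarith only [hT, hi]), (by linarith only [hT, b1, a3, hi]), (by linarith only [hT, b1, a4, hi]), (by linarith only [hT, a2, b3, hi]), (by linarith only [hT, a2, a4, hi]), (by linarith only [hT, b1, b3]), (by linarith only [hT, a2, b4, hi]), (by linarith only [hT, a2, a3, hi]), (by linarith only [hT, b1, b4])⟩ (by linarith only [hT])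

theorem lf_3_3_4_5_7_21 (u1 u2 u3 u4 T : ℝ) (hT : T = u1 + u2 + u3 + u4) (a1 : (3 / 4) ≤ u1) (b1 : u1 ≤ 1) (a2 : 1 ≤ u2) (b2 : u2 ≤ (5 / 4)) (a3 : (5 / 4) ≤ u3) (b3 : u3 ≤ (3 / 2)) (a4 : (7 / 4) ≤ u4) (b4 : u4 ≤ 2) (lo : (21 / 4) ≤ T) (hi : T ≤ (11 / 2)) (o1 : u1 ≤ u2) (o2 : u2 ≤ u3) (o3 : u3 ≤ u4) : Good u1 u2 u3 u4 ∨ Good2 u1 u2 u3 u4 := by
  have e1 : H u1 = u1 - 0 := hk_0 (by linarith only [a1]) (by linarith only [b1])
  have f1 : H (4 * u1) = 4 - (4 * u1) := hk_3 (by linarith only [a1]) (by linarith only [b1])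
  have e2 : H u2 = 1 := hk_1 (by linarith only [a2]) (by linarith only [b2])
  have f2 : H (4 * u2) = (4 * u2) - 4 := hk_4 (by linarith only [a2]) (by linarith only [b2])
  have e3 : H u3 = 1 := hk_1 (by linarith only [a3]) (by linarith only [b3])
  have f3 : H (4 * u3) = 1 := hk_5 (by linarith only [a3]) (by linarith only [b3])
  have e4 : H u4 = 1 := hk_1 (by linarith only [a4]) (by linarith only [b4])
  have f4 : H (4 * u4) = 8 - (4 * u4) := hk_7 (by linarith only [a4]) (by linarith only [b4])
  have hX : H (T / 4) = 1 := hk_1 (by linarith only [lo]) (by linarith only [hi])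
  have hS : H T = 1 := hk_5 (by linarith only [lo]) (by linarith only [hi])
  have hW : H (4 * T) = 1 := hk_21 (by linarith only [lo]) (by linarith only [hi])
  have hN : H (4 * T - 15) = 1 := hk_6 (by linarith only [lo]) (by linarith only [hi])
  exact good2_T hT zk_3 zk_2 zk_4 zk_6 (by norm_num) e1 e2 e3 e4 f1 f2 f3 f4 hX hS hW hN (R := ((-4) * u1 + 4 * u2 + 1)) ⟨(by linarith only [hT, o1]), (by linarith only [hT, b1, a2, a3]), (by linarith only [hT, b1, a2, a4]), (by linarith only [hT]), (by linarith only [hT, b1, a3]), (by linarith only [hT, b1, a4]), (by linarith only [hT, a2, b3]), (by linarith only [hT, b1, a2, b3]), (by linarith only [hT, b1, b3, lo]), (by linarith only [hT, a2, b4]), (by linarith only [hT, b1, a2, b4]), (by linarith only [hT, b1, b4, lo])⟩ (by linarith only [hT])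

theorem lf_3_3_4_6_6_20 (u1 u2 u3 u4 T : ℝ) (hT : T = u1 + u2 + u3 + u4) (a1 : (3 / 4) ≤ u1) (b1 : u1 ≤ 1) (a2 : 1 ≤ u2) (b2 : u2 ≤ (5 / 4)) (a3 : (3 / 2) ≤ u3) (b3 : u3 ≤ (7 / 4)) (a4 : (3 / 2) ≤ u4) (b4 : u4 ≤ (7 / 4)) (lo : 5 ≤ T) (hi : T ≤ (21 / 4)) (o1 : u1 ≤ u2) (o2 : u2 ≤ u3) (o3 : u3 ≤ u4) : Good u1 u2 u3 u4 ∨ Good2 u1 u2 u3 u4 := by
  have e1 : H u1 = u1 - 0 := hk_0 (by linarith only [a1]) (by linarith only [b1])
  have f1 : H (4 * u1) = 4 - (4 * u1) := hk_3 (by linarith only [a1]) (by linarith only [b1])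
  have e2 : H u2 = 1 := hk_1 (by linarith only [a2]) (by linarith only [b2])
  have f2 : H (4 * u2) = (4 * u2) - 4 := hk_4 (by linarith only [a2]) (by linarith only [b2])
  have e3 : H u3 = 1 := hk_1 (by linarith only [a3]) (by linarith only [b3])
  have f3 : H (4 * u3) = 1 := hk_6 (by linarith only [a3]) (by linarith only [b3])
  have e4 : H u4 = 1 := hk_1 (by linarith only [a4]) (by linarith only [b4])
  have f4 : H (4 * u4) = 1 := hk_6 (by linarith only [a4]) (by linarith only [b4])
  have hX : H (T / 4) = 1 := hk_1 (by linarith only [lo]) (by linarith only [hi])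
  have hS : H T = 1 := hk_5 (by linarith only [lo]) (by linarith only [hi])
  have hW : H (4 * T) = (4 * T) - 20 := hk_20 (by linarith only [lo]) (by linarith only [hi])
  have hN : H (4 * T - 16) = (4 * T - 16) - 4 := hk_4 (by linarith only [lo]) (by linarith only [hi])
  exact good2_T hT zk_3 zk_3 zk_5 zk_5 (by norm_num) e1 e2 e3 e4 f1 f2 f3 f4 hX hS hW hN (R := ((-4) * u1 + 4 * u2 + 4 * u4 + (-6))) ⟨(by linarith only [hT, a4, o1]), (by linarith only [hT, b1, lo]), (by linarith only [hT, b1, a2, a4]), (by linarith only [hT, a4]), (by linarith only [hT, b1, a3, a4]), (by linarith only [hT, b1, a4]), (by linarith only [hT, a2, o3]), (by linarith only [hT, b1, a2, o3]), (by linarith only [hT, a3, o1, o3]), (by linarith only [hT, a2]), (by linarith only [hT, b1, a2]), (by linarith only [hT, a3, o1])⟩ (by linarith only [hT])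

theorem lf_3_3_4_6_6_21 (u1 u2 u3 u4 T : ℝ) (hT : T = u1 + u2 + u3 + u4) (a1 : (3 / 4) ≤ u1) (b1 : u1 ≤ 1) (a2 : 1 ≤ u2) (b2 : u2 ≤ (5 / 4)) (a3 : (3 / 2) ≤ u3) (b3 : u3 ≤ (7 / 4)) (a4 : (3 / 2) ≤ u4) (b4 : u4 ≤ (7 / 4)) (lo : (21 / 4) ≤ T) (hi : T ≤ (11 / 2)) (o1 : u1 ≤ u2) (o2 : u2 ≤ u3) (o3 : u3 ≤ u4) : Good u1 u2 u3 u4 ∨ Good2 u1 u2 u3 u4 := by
  have e1 : H u1 = u1 - 0 := hk_0 (by linarith only [a1]) (by linarith only [b1])
  have f1 : H (4 * u1) = 4 - (4 * u1) := hk_3 (by linarith only [a1]) (by linarith only [b1])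
  have e2 : H u2 = 1 := hk_1 (by linarith only [a2]) (by linarith only [b2])
  have f2 : H (4 * u2) = (4 * u2) - 4 := hk_4 (by linarith only [a2]) (by linarith only [b2])
  have e3 : H u3 = 1 := hk_1 (by linarith only [a3]) (by linarith only [b3])
  have f3 : H (4 * u3) = 1 := hk_6 (by linarith only [a3]) (by linarith only [b3])
  have e4 : H u4 = 1 := hk_1 (by linarith only [a4]) (by linarith only [b4])
  have f4 : H (4 * u4) = 1 := hk_6 (by linarith only [a4]) (by linarith only [b4])
  have hX : H (T / 4) = 1 := hk_1 (by linarith only [lo]) (by linarith only [hi])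
  have hS : H T = 1 := hk_5 (by linarith only [lo]) (by linarith only [hi])
  have hW : H (4 * T) = 1 := hk_21 (by linarith only [lo]) (by linarith only [hi])
  have hN : H (4 * T - 16) = 1 := hk_5 (by linarith only [lo]) (by linarith only [hi])
  exact good2_T hT zk_3 zk_3 zk_5 zk_5 (by norm_num) e1 e2 e3 e4 f1 f2 f3 f4 hX hS hW hN (R := ((-4) * u1 + 4 * u2 + 4 * u4 + (-6))) ⟨(by linarith only [hT, b1, a2, o3, lo]), (by linarith only [hT, b1, lo]), (by linarith only [hT, b1, o3, lo]), (by linarith only [hT, a4]), (by linarith only [hT, b1, a3, a4]), (by linarith only [hT, b1, a4]), (by linarith only [hT, a2, o3]), (by linarith only [hT, b1, a2, o3]), (by linarith only [hT, b1, a2, o3, lo]), (by linarith only [hT, a2]), (by linarith only [hT, b1, a2]), (by linarith only [hT, a3, o1])⟩ (by linarith only [hT])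

theorem lf_3_3_4_6_6_22 (u1 u2 u3 u4 T : ℝ) (hT : T = u1 + u2 + u3 + u4) (a1 : (3 / 4) ≤ u1) (b1 : u1 ≤ 1) (a2 : 1 ≤ u2) (b2 : u2 ≤ (5 / 4)) (a3 : (3 / 2) ≤ u3) (b3 : u3 ≤ (7 / 4)) (a4 : (3 / 2) ≤ u4) (b4 : u4 ≤ (7 / 4)) (lo : (11 / 2) ≤ T) (hi : T ≤ (23 / 4)) (o1 : u1 ≤ u2) (o2 : u2 ≤ u3) (o3 : u3 ≤ u4) : Good u1 u2 u3 u4 ∨ Good2 u1 u2 u3 u4 := by
  have e1 : H u1 = u1 - 0 := hk_0 (by linarith only [a1]) (by linarith only [b1])
  have f1 : H (4 * u1) = 4 - (4 * u1) := hk_3 (by linarith only [a1]) (by linarith only [b1])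
  have e2 : H u2 = 1 := hk_1 (by linarith only [a2]) (by linarith only [b2])
  have f2 : H (4 * u2) = (4 * u2) - 4 := hk_4 (by linarith only [a2]) (by linarith only [b2])
  have e3 : H u3 = 1 := hk_1 (by linarith only [a3]) (by linarith only [b3])
  have f3 : H (4 * u3) = 1 := hk_6 (by linarith only [a3]) (by linarith only [b3])
  have e4 : H u4 = 1 := hk_1 (by linarith only [a4]) (by linarith only [b4])
  have f4 : H (4 * u4) = 1 := hk_6 (by linarith only [a4]) (by linarith only [b4])
  have hX : H (T / 4) = 1 := hk_1 (by linarith only [lo]) (by linarith only [hi])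
  have hS : H T = 1 := hk_5 (by linarith only [lo]) (by linarith only [hi])
  have hW : H (4 * T) = 1 := hk_22 (by linarith only [lo]) (by linarith only [hi])
  have hN : H (4 * T - 16) = 1 := hk_6 (by linarith only [lo]) (by linarith only [hi])
  exact good2_T hT zk_3 zk_3 zk_5 zk_5 (by norm_num) e1 e2 e3 e4 f1 f2 f3 f4 hX hS hW hN (R := ((-4) * u1 + 4 * u2 + 4 * u4 + (-6))) ⟨(by linarith only [hT, b1, a2, b3, lo]), (by linarith only [hT, b1, lo]), (by linarith only [hT, b1, o3, lo]), (by linarith only [hT, b1, b2, o3, lo]), (by linarith only [hT, b1, b2, lo]), (by linarith only [hT, b1, b2, o3, lo]), (by linarith only [hT, a2, o3]), (by linarith only [hT, b1, a2, o3]), (by linarith only [hT, b1, a2, o3, lo]), (by linarith only [hT, a2]), (by linarith only [hT, b1, a2]), (by linarith only [hT, b1, b4, lo])⟩ (by linarith only [hT])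

theorem lf_3_3_4_6_7_20 (u1 u2 u3 u4 T : ℝ) (hT : T = u1 + u2 + u3 + u4) (a1 : (3 / 4) ≤ u1) (b1 : u1 ≤ 1) (a2 : 1 ≤ u2) (b2 : u2 ≤ (5 / 4)) (a3 : (3 / 2) ≤ u3) (b3 : u3 ≤ (7 / 4)) (a4 : (7 / 4) ≤ u4) (b4 : u4 ≤ 2) (lo : 5 ≤ T) (hi : T ≤ (21 / 4)) (o1 : u1 ≤ u2) (o2 : u2 ≤ u3) (o3 : u3 ≤ u4) : Good u1 u2 u3 u4 ∨ Good2 u1 u2 u3 u4 := by
  have e1 : H u1 = u1 - 0 := hk_0 (by linarith only [a1]) (by linarith only [b1])
  have f1 : H (4 * u1) = 4 - (4 * u1) := hk_3 (by linarith only [a1]) (by linarith only [b1])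
  have e2 : H u2 = 1 := hk_1 (by linarith only [a2]) (by linarith only [b2])
  have f2 : H (4 * u2) = (4 * u2) - 4 := hk_4 (by linarith only [a2]) (by linarith only [b2])
  have e3 : H u3 = 1 := hk_1 (by linarith only [a3]) (by linarith only [b3])
  have f3 : H (4 * u3) = 1 := hk_6 (by linarith only [a3]) (by linarith only [b3])
  have e4 : H u4 = 1 := hk_1 (by linarith only [a4]) (by linarith only [b4])
  have f4 : H (4 * u4) = 8 - (4 * u4) := hk_7 (by linarith only [a4]) (by linarith only [b4])
  have hX : H (T / 4) = 1 := hk_1 (by linarith only [lo]) (by linarith only [hi])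
  have hS : H T = 1 := hk_5 (by linarith only [lo]) (by linarith only [hi])
  have hW : H (4 * T) = (4 * T) - 20 := hk_20 (by linarith only [lo]) (by linarith only [hi])
  have hN : H (4 * T - 16) = (4 * T - 16) - 4 := hk_4 (by linarith only [lo]) (by linarith only [hi])
  exact good2_T hT zk_3 zk_2 zk_5 zk_6 (by norm_num) e1 e2 e3 e4 f1 f2 f3 f4 hX hS hW hN (R := ((-4) * u1 + 4 * u2 + 1)) ⟨(by linarith only [hT, o1]), (by linarith only [hT, b1, a2, a3]), (by linarith only [hT, b1, a2, a4]), (by linarith only [hT]), (by linarith only [hT, b1, a3]), (by linarith only [hT, b1, a4]), (by linarith only [hT, a2, b3]), (by linarith only [hT, a2, a4, hi]), (by linarith only [hT, a2, a4, hi]), (by linarith only [hT, a2, b4]), (by linarith only [hT, a2, a3, hi]), (by linarith only [hT, a2, a3, hi])⟩ (by linarith only [hT])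

theorem lf_3_3_4_6_7_21 (u1 u2 u3 u4 T : ℝ) (hT : T = u1 + u2 + u3 + u4) (a1 : (3 / 4) ≤ u1) (b1 : u1 ≤ 1) (a2 : 1 ≤ u2) (b2 : u2 ≤ (5 / 4)) (a3 : (3 / 2) ≤ u3) (b3 : u3 ≤ (7 / 4)) (a4 : (7 / 4) ≤ u4) (b4 : u4 ≤ 2) (lo : (21 / 4) ≤ T) (hi : T ≤ (11 / 2)) (o1 : u1 ≤ u2) (o2 : u2 ≤ u3) (o3 : u3 ≤ u4) : Good u1 u2 u3 u4 ∨ Good2 u1 u2 u3 u4 := by
  have e1 : H u1 = u1 - 0 := hk_0 (by linarith only [a1]) (by linarith only [b1])
  have f1 : H (4 * u1) = 4 - (4 * u1) := hk_3 (by linarith only [a1]) (by linarith only [b1])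
  have e2 : H u2 = 1 := hk_1 (by linarith only [a2]) (by linarith only [b2])
  have f2 : H (4 * u2) = (4 * u2) - 4 := hk_4 (by linarith only [a2]) (by linarith only [b2])
  have e3 : H u3 = 1 := hk_1 (by linarith only [a3]) (by linarith only [b3])
  have f3 : H (4 * u3) = 1 := hk_6 (by linarith only [a3]) (by linarith only [b3])
  have e4 : H u4 = 1 := hk_1 (by linarith only [a4]) (by linarith only [b4])
  have f4 : H (4 * u4) = 8 - (4 * u4) := hk_7 (by linarith only [a4]) (by linarith only [b4])
  have hX : H (T / 4) = 1 := hk_1 (by linarith only [lo]) (by linarith only [hi])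
  have hS : H T = 1 := hk_5 (by linarith only [lo]) (by linarith only [hi])
  have hW : H (4 * T) = 1 := hk_21 (by linarith only [lo]) (by linarith only [hi])
  have hN : H (4 * T - 16) = 1 := hk_5 (by linarith only [lo]) (by linarith only [hi])
  exact good2_T hT zk_3 zk_2 zk_5 zk_6 (by norm_num) e1 e2 e3 e4 f1 f2 f3 f4 hX hS hW hN (R := ((-4) * u1 + 4 * u2 + 1)) ⟨(by linarith only [hT, o1]), (by linarith only [hT, b1, a2, a3]), (by linarith only [hT, b1, a2, a4]), (by linarith only [hT]), (by linarith only [hT, b1, a3]), (by linarith only [hT, b1, a4]), (by linarith only [hT, a2, b3]), (by linarith only [hT, b1, a2, b3]), (by linarith only [hT, o1, o3]), (by linarith only [hT, a2, b4]), (by linarith only [hT, b1, a2, b4]), (by linarith only [hT, a2, a3, hi])⟩ (by linarith only [hT])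

theorem lf_3_3_4_6_7_22 (u1 u2 u3 u4 T : ℝ) (hT : T = u1 + u2 + u3 + u4) (a1 : (3 / 4) ≤ u1) (b1 : u1 ≤ 1) (a2 : 1 ≤ u2) (b2 : u2 ≤ (5 / 4)) (a3 : (3 / 2) ≤ u3) (b3 : u3 ≤ (7 / 4)) (a4 : (7 / 4) ≤ u4) (b4 : u4 ≤ 2) (lo : (11 / 2) ≤ T) (hi : T ≤ (23 / 4)) (o1 : u1 ≤ u2) (o2 : u2 ≤ u3) (o3 : u3 ≤ u4) : Good u1 u2 u3 u4 ∨ Good2 u1 u2 u3 u4 := by
  have e1 : H u1 = u1 - 0 := hk_0 (by linarith only [a1]) (by linarith only [b1])
  have f1 : H (4 * u1) = 4 - (4 * u1) := hk_3 (by linarith only [a1]) (by linarith only [b1])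
  have e2 : H u2 = 1 := hk_1 (by linarith only [a2]) (by linarith only [b2])
  have f2 : H (4 * u2) = (4 * u2) - 4 := hk_4 (by linarith only [a2]) (by linarith only [b2])
  have e3 : H u3 = 1 := hk_1 (by linarith only [a3]) (by linarith only [b3])
  have f3 : H (4 * u3) = 1 := hk_6 (by linarith only [a3]) (by linarith only [b3])
  have e4 : H u4 = 1 := hk_1 (by linarith only [a4]) (by linarith only [b4])
  have f4 : H (4 * u4) = 8 - (4 * u4) := hk_7 (by linarith only [a4]) (by linarith only [b4])
  have hX : H (T / 4) = 1 := hk_1 (by linarith only [lo]) (by linarith only [hi])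
  have hS : H T = 1 := hk_5 (by linarith only [lo]) (by linarith only [hi])
  have hW : H (4 * T) = 1 := hk_22 (by linarith only [lo]) (by linarith only [hi])
  have hN : H (4 * T - 16) = 1 := hk_6 (by linarith only [lo]) (by linarith only [hi])
  exact good2_T hT zk_3 zk_2 zk_5 zk_6 (by norm_num) e1 e2 e3 e4 f1 f2 f3 f4 hX hS hW hN (R := ((-4) * u1 + 4 * u2 + 1)) ⟨(by linarith only [hT, o1]), (by linarith only [hT, b1, a2, a3]), (by linarith only [hT, b1, a2, a4]), (by linarith only [hT]), (by linarith only [hT, b1, a3]), (by linarith only [hT, b1, a4]), (by linarith only [hT, a2, b3]), (by linarith only [hT, b1, a2, b3]), (by linarith only [hT, o1, o3]), (by linarith only [hT, a2, b4]), (by linarith only [hT, b1, a2, b4]), (by linarith only [hT, b1, b4, lo])⟩ (by linarith only [hT])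

theorem lf_3_3_4_7_7_21 (u1 u2 u3 u4 T : ℝ) (hT : T = u1 + u2 + u3 + u4) (a1 : (3 / 4) ≤ u1) (b1 : u1 ≤ 1) (a2 : 1 ≤ u2) (b2 : u2 ≤ (5 / 4)) (a3 : (7 / 4) ≤ u3) (b3 : u3 ≤ 2) (a4 : (7 / 4) ≤ u4) (b4 : u4 ≤ 2) (lo : (21 / 4) ≤ T) (hi : T ≤ (11 / 2)) (o1 : u1 ≤ u2) (o2 : u2 ≤ u3) (o3 : u3 ≤ u4) : Good u1 u2 u3 u4 ∨ Good2 u1 u2 u3 u4 := by
  have e1 : H u1 = u1 - 0 := hk_0 (by linarith only [a1]) (by linarith only [b1])
  have f1 : H (4 * u1) = 4 - (4 * u1) := hk_3 (by linarith only [a1]) (by linarith only [b1])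
  have e2 : H u2 = 1 := hk_1 (by linarith only [a2]) (by linarith only [b2])
  have f2 : H (4 * u2) = (4 * u2) - 4 := hk_4 (by linarith only [a2]) (by linarith only [b2])
  have e3 : H u3 = 1 := hk_1 (by linarith only [a3]) (by linarith only [b3])
  have f3 : H (4 * u3) = 8 - (4 * u3) := hk_7 (by linarith only [a3]) (by linarith only [b3])
  have e4 : H u4 = 1 := hk_1 (by linarith only [a4]) (by linarith only [b4])
  have f4 : H (4 * u4) = 8 - (4 * u4) := hk_7 (by linarith only [a4]) (by linarith only [b4])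
  have hX : H (T / 4) = 1 := hk_1 (by linarith only [lo]) (by linarith only [hi])
  have hS : H T = 1 := hk_5 (by linarith only [lo]) (by linarith only [hi])
  have hW : H (4 * T) = 1 := hk_21 (by linarith only [lo]) (by linarith only [hi])
  have hN : H (4 * T - 19) = 1 := hk_2 (by linarith only [lo]) (by linarith only [hi])
  exact good2_T hT zk_3 zk_3 zk_6 zk_7 (by norm_num) e1 e2 e3 e4 f1 f2 f3 f4 hX hS hW hN (R := ((-4) * u1 + 4 * u2 + (-4) * u3 + 8)) ⟨(by linarith only [hT, b1, a2, a4, hi]), (by linarith only [hT, b1, a2]), (by linarith only [hT, b1, a2, o3]), (by linarith only [hT, a1, a2, o3, hi]), (by linarith only [hT, b1]), (by linarith only [hT, b1, o3]), (by linarith only [hT, a1, a2, o3, hi]), (by linarith only [hT, a2, o3, hi]), (by linarith only [hT, b1, a2, o3, hi]), (by linarith only [hT, a1, a2, hi]), (by linarith only [hT, a2, hi]), (by linarith only [hT, a2, a3, hi])⟩ (by linarith only [hT])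

theorem lf_3_3_4_7_7_22 (u1 u2 u3 u4 T : ℝ) (hT : T = u1 + u2 + u3 + u4) (a1 : (3 / 4) ≤ u1) (b1 : u1 ≤ 1) (a2 : 1 ≤ u2) (b2 : u2 ≤ (5 / 4)) (a3 : (7 / 4) ≤ u3) (b3 : u3 ≤ 2) (a4 : (7 / 4) ≤ u4) (b4 : u4 ≤ 2) (lo : (11 / 2) ≤ T) (hi : T ≤ (23 / 4)) (o1 : u1 ≤ u2) (o2 : u2 ≤ u3) (o3 : u3 ≤ u4) : Good u1 u2 u3 u4 ∨ Good2 u1 u2 u3 u4 := by
  have e1 : H u1 = u1 - 0 := hk_0 (by linarith only [a1]) (by linarith only [b1])
  have f1 : H (4 * u1) = 4 - (4 * u1) := hk_3 (by linarith only [a1]) (by linarith only [b1])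
  have e2 : H u2 = 1 := hk_1 (by linarith only [a2]) (by linarith only [b2])
  have f2 : H (4 * u2) = (4 * u2) - 4 := hk_4 (by linarith only [a2]) (by linarith only [b2])
  have e3 : H u3 = 1 := hk_1 (by linarith only [a3]) (by linarith only [b3])
  have f3 : H (4 * u3) = 8 - (4 * u3) := hk_7 (by linarith only [a3]) (by linarith only [b3])
  have e4 : H u4 = 1 := hk_1 (by linarith only [a4]) (by linarith only [b4])
  have f4 : H (4 * u4) = 8 - (4 * u4) := hk_7 (by linarith only [a4]) (by linarith only [b4])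
  have hX : H (T / 4) = 1 := hk_1 (by linarith only [lo]) (by linarith only [hi])
  have hS : H T = 1 := hk_5 (by linarith only [lo]) (by linarith only [hi])
  have hW : H (4 * T) = 1 := hk_22 (by linarith only [lo]) (by linarith only [hi])
  have hN : H (4 * T - 20) = 1 := hk_2 (by linarith only [lo]) (by linarith only [hi])
  exact good2_T hT zk_3 zk_3 zk_7 zk_7 (by norm_num) e1 e2 e3 e4 f1 f2 f3 f4 hX hS hW hN (R := ((-4) * u1 + 4 * u2 + (-4) * u3 + 8)) ⟨(by linarith only [hT, b1, a2, o3, hi]), (by linarith only [hT, b1, a2]), (by linarith only [hT, b1, a2, o3]), (by linarith only [hT, b3]), (by linarith only [hT, b1]), (by linarith only [hT, b1, o3]), (by linarith only [hT, a2, b3]), (by linarith only [hT, a2, o3, hi]), (by linarith only [hT, b1, a2, o3, hi]), (by linarith only [hT, a2, b3, b4]), (by linarith only [hT, a2, hi]), (by linarith only [hT, b4, o1])⟩ (by linarith only [hT])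

theorem lf_3_3_4_7_7_23 (u1 u2 u3 u4 T : ℝ) (hT : T = u1 + u2 + u3 + u4) (a1 : (3 / 4) ≤ u1) (b1 : u1 ≤ 1) (a2 : 1 ≤ u2) (b2 : u2 ≤ (5 / 4)) (a3 : (7 / 4) ≤ u3) (b3 : u3 ≤ 2) (a4 : (7 / 4) ≤ u4) (b4 : u4 ≤ 2) (lo : (23 / 4) ≤ T) (hi : T ≤ 6) (o1 : u1 ≤ u2) (o2 : u2 ≤ u3) (o3 : u3 ≤ u4) : Good u1 u2 u3 u4 ∨ Good2 u1 u2 u3 u4 := by
  have e1 : H u1 = u1 - 0 := hk_0 (by linarith only [a1]) (by linarith only [b1])
  have f1 : H (4 * u1) = 4 - (4 * u1) := hk_3 (by linarith only [a1]) (by linarith only [b1])
  have e2 : H u2 = 1 := hk_1 (by linarith only [a2]) (by linarith only [b2])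
  have f2 : H (4 * u2) = (4 * u2) - 4 := hk_4 (by linarith only [a2]) (by linarith only [b2])
  have e3 : H u3 = 1 := hk_1 (by linarith only [a3]) (by linarith only [b3])
  have f3 : H (4 * u3) = 8 - (4 * u3) := hk_7 (by linarith only [a3]) (by linarith only [b3])
  have e4 : H u4 = 1 := hk_1 (by linarith only [a4]) (by linarith only [b4])
  have f4 : H (4 * u4) = 8 - (4 * u4) := hk_7 (by linarith only [a4]) (by linarith only [b4])
  have hX : H (T / 4) = 1 := hk_1 (by linarith only [lo]) (by linarith only [hi])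
  have hS : H T = 1 := hk_5 (by linarith only [lo]) (by linarith only [hi])
  have hW : H (4 * T) = 24 - (4 * T) := hk_23 (by linarith only [lo]) (by linarith only [hi])
  have hN : H (4 * T - 20) = 4 - (4 * T - 20) := hk_3 (by linarith only [lo]) (by linarith only [hi])
  exact good2_T hT zk_3 zk_3 zk_7 zk_7 (by norm_num) e1 e2 e3 e4 f1 f2 f3 f4 hX hS hW hN (R := ((-4) * u1 + 4 * u2 + (-4) * u3 + 8)) ⟨(by linarith only [hT, b3, o1]), (by linarith only [hT, b1, a2]), (by linarith only [hT, b1, a2, o3]), (by linarith only [hT, b3]), (by linarith only [hT, b1]), (by linarith only [hT, b1, o3]), (by linarith only [hT, a2, b3]), (by linarith only [hT, b1, a2, b3]), (by linarith only [hT, b3, o1, o3]), (by linarith only [hT, a2, b3, b4]), (by linarith only [hT, a2, hi]), (by linarith only [hT, b4, o1])⟩ (by linarith only [hT])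

theorem lf_3_3_5_5_5_20 (u1 u2 u3 u4 T : ℝ) (hT : T = u1 + u2 + u3 + u4) (a1 : (3 / 4) ≤ u1) (b1 : u1 ≤ 1) (a2 : (5 / 4) ≤ u2) (b2 : u2 ≤ (3 / 2)) (a3 : (5 / 4) ≤ u3) (b3 : u3 ≤ (3 / 2)) (a4 : (5 / 4) ≤ u4) (b4 : u4 ≤ (3 / 2)) (lo : 5 ≤ T) (hi : T ≤ (21 / 4)) (o1 : u1 ≤ u2) (o2 : u2 ≤ u3) (o3 : u3 ≤ u4) : Good u1 u2 u3 u4 ∨ Good2 u1 u2 u3 u4 := by
  have e1 : H u1 = u1 - 0 := hk_0 (by linarith only [a1]) (by linarith only [b1])
  have f1 : H (4 * u1) = 4 - (4 * u1) := hk_3 (by linarith only [a1]) (by linarith only [b1])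
  have e2 : H u2 = 1 := hk_1 (by linarith only [a2]) (by linarith only [b2])
  have f2 : H (4 * u2) = 1 := hk_5 (by linarith only [a2]) (by linarith only [b2])
  have e3 : H u3 = 1 := hk_1 (by linarith only [a3]) (by linarith only [b3])
  have f3 : H (4 * u3) = 1 := hk_5 (by linarith only [a3]) (by linarith only [b3])
  have e4 : H u4 = 1 := hk_1 (by linarith only [a4]) (by linarith only [b4])
  have f4 : H (4 * u4) = 1 := hk_5 (by linarith only [a4]) (by linarith only [b4])
  have hX : H (T / 4) = 1 := hk_1 (by linarith only [lo]) (by linarith only [hi])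
  have hS : H T = 1 := hk_5 (by linarith only [lo]) (by linarith only [hi])
  have hW : H (4 * T) = (4 * T) - 20 := hk_20 (by linarith only [lo]) (by linarith only [hi])
  have hN : H (4 * T - 15) = 1 := hk_5 (by linarith only [lo]) (by linarith only [hi])
  exact good2_T hT zk_3 zk_4 zk_4 zk_4 (by norm_num) e1 e2 e3 e4 f1 f2 f3 f4 hX hS hW hN (R := ((-8) * u1 + (-4) * u2 + (-4) * u3 + 20)) ⟨(by linarith only [hT, b1, b3]), (by linarith only [hT, b1, o2, o3, hi]), (by linarith only [hT, b1, o2, o3, hi]), (by linarith only [hT, o2, o3, hi]), (by linarith only [hT, b1, o2, o3, hi]), (by linarith only [hT, b1, o2, o3, hi]), (by linarith only [hT, o3, hi]), (by linarith only [hT, b1, b3]), (by linarith only [hT, b1, o2, o3, hi]), (by linarith only [hT, hi]), (by linarith only [hT, b1, b3, b4]), (by linarith only [hT, b1, b4, o2, hi])⟩ (by linarith only [hT])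

theorem lf_3_3_5_5_5_21 (u1 u2 u3 u4 T : ℝ) (hT : T = u1 + u2 + u3 + u4) (a1 : (3 / 4) ≤ u1) (b1 : u1 ≤ 1) (a2 : (5 / 4) ≤ u2) (b2 : u2 ≤ (3 / 2)) (a3 : (5 / 4) ≤ u3) (b3 : u3 ≤ (3 / 2)) (a4 : (5 / 4) ≤ u4) (b4 : u4 ≤ (3 / 2)) (lo : (21 / 4) ≤ T) (hi : T ≤ (11 / 2)) (o1 : u1 ≤ u2) (o2 : u2 ≤ u3) (o3 : u3 ≤ u4) : Good u1 u2 u3 u4 ∨ Good2 u1 u2 u3 u4 := by
  have e1 : H u1 = u1 - 0 := hk_0 (by linarith only [a1]) (by linarith only [b1])
  have f1 : H (4 * u1) = 4 - (4 * u1) := hk_3 (by linarith only [a1]) (by linarith only [b1])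
  have e2 : H u2 = 1 := hk_1 (by linarith only [a2]) (by linarith only [b2])
  have f2 : H (4 * u2) = 1 := hk_5 (by linarith only [a2]) (by linarith only [b2])
  have e3 : H u3 = 1 := hk_1 (by linarith only [a3]) (by linarith only [b3])
  have f3 : H (4 * u3) = 1 := hk_5 (by linarith only [a3]) (by linarith only [b3])
  have e4 : H u4 = 1 := hk_1 (by linarith only [a4]) (by linarith only [b4])
  have f4 : H (4 * u4) = 1 := hk_5 (by linarith only [a4]) (by linarith only [b4])
  have hX : H (T / 4) = 1 := hk_1 (by linarith only [lo]) (by linarith only [hi])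
  have hS : H T = 1 := hk_5 (by linarith only [lo]) (by linarith only [hi])
  have hW : H (4 * T) = 1 := hk_21 (by linarith only [lo]) (by linarith only [hi])
  have hN : H (4 * T - 15) = 1 := hk_6 (by linarith only [lo]) (by linarith only [hi])
  exact good2_T hT zk_3 zk_4 zk_4 zk_4 (by norm_num) e1 e2 e3 e4 f1 f2 f3 f4 hX hS hW hN (R := ((-4) * u1 + 4 * u4 + (-1))) ⟨(by linarith only [hT, b1, b3, lo]), (by linarith only [hT, b1, o2, o3, lo]), (by linarith only [hT, b1, o2, o3, lo]), (by linarith only [hT, o2, o3]), (by linarith only [hT, b1, o2, o3, lo]), (by linarith only [hT, b1, o2, o3, lo]), (by linarith only [hT, o3]), (by linarith only [hT, b1, a2, o3]), (by linarith only [hT, b1, o2, o3, lo]), (by linarith only [hT]), (by linarith only [hT, b1, a2]), (by linarith only [hT, b1, b4, o2, lo])⟩ (by linarith only [hT])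

theorem lf_3_3_5_5_6_20 (u1 u2 u3 u4 T : ℝ) (hT : T = u1 + u2 + u3 + u4) (a1 : (3 / 4) ≤ u1) (b1 : u1 ≤ 1) (a2 : (5 / 4) ≤ u2) (b2 : u2 ≤ (3 / 2)) (a3 : (5 / 4) ≤ u3) (b3 : u3 ≤ (3 / 2)) (a4 : (3 / 2) ≤ u4) (b4 : u4 ≤ (7 / 4)) (lo : 5 ≤ T) (hi : T ≤ (21 / 4)) (o1 : u1 ≤ u2) (o2 : u2 ≤ u3) (o3 : u3 ≤ u4) : Good u1 u2 u3 u4 ∨ Good2 u1 u2 u3 u4 := by
  have e1 : H u1 = u1 - 0 := hk_0 (by linarith only [a1]) (by linarith only [b1])
  have f1 : H (4 * u1) = 4 - (4 * u1) := hk_3 (by linarith only [a1]) (by linarith only [b1])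
  have e2 : H u2 = 1 := hk_1 (by linarith only [a2]) (by linarith only [b2])
  have f2 : H (4 * u2) = 1 := hk_5 (by linarith only [a2]) (by linarith only [b2])
  have e3 : H u3 = 1 := hk_1 (by linarith only [a3]) (by linarith only [b3])
  have f3 : H (4 * u3) = 1 := hk_5 (by linarith only [a3]) (by linarith only [b3])
  have e4 : H u4 = 1 := hk_1 (by linarith only [a4]) (by linarith only [b4])
  have f4 : H (4 * u4) = 1 := hk_6 (by linarith only [a4]) (by linarith only [b4])
  have hX : H (T / 4) = 1 := hk_1 (by linarith only [lo]) (by linarith only [hi])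
  have hS : H T = 1 := hk_5 (by linarith only [lo]) (by linarith only [hi])
  have hW : H (4 * T) = (4 * T) - 20 := hk_20 (by linarith only [lo]) (by linarith only [hi])
  have hN : H (4 * T - 15) = 1 := hk_5 (by linarith only [lo]) (by linarith only [hi])
  exact good2_T hT zk_3 zk_4 zk_4 zk_4 (by norm_num) e1 e2 e3 e4 f1 f2 f3 f4 hX hS hW hN (R := ((-8) * u1 + (-4) * u2 + (-4) * u3 + 20)) ⟨(by linarith only [hT, b1, b3]), (by linarith only [hT, b1, a4, o2, hi]), (by linarith only [hT, b1, a4, hi]), (by linarith only [hT, b2, a4, hi]), (by linarith only [hT, b1, a4, o2, hi]), (by linarith only [hT, b1, a4, o2, hi]), (by linarith only [hT, o3, hi]), (by linarith only [hT, b1, b3]), (by linarith only [hT, a2, a4, hi]), (by linarith only [hT, hi]), (by linarith only [hT, b1, a2, hi]), (by linarith only [hT, b1, a3, hi])⟩ (by linarith only [hT])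

theorem lf_3_3_5_5_6_21 (u1 u2 u3 u4 T : ℝ) (hT : T = u1 + u2 + u3 + u4) (a1 : (3 / 4) ≤ u1) (b1 : u1 ≤ 1) (a2 : (5 / 4) ≤ u2) (b2 : u2 ≤ (3 / 2)) (a3 : (5 / 4) ≤ u3) (b3 : u3 ≤ (3 / 2)) (a4 : (3 / 2) ≤ u4) (b4 : u4 ≤ (7 / 4)) (lo : (21 / 4) ≤ T) (hi : T ≤ (11 / 2)) (o1 : u1 ≤ u2) (o2 : u2 ≤ u3) (o3 : u3 ≤ u4) : Good u1 u2 u3 u4 ∨ Good2 u1 u2 u3 u4 := by
  have e1 : H u1 = u1 - 0 := hk_0 (by linarith only [a1]) (by linarith only [b1])
  have f1 : H (4 * u1) = 4 - (4 * u1) := hk_3 (by linarith only [a1]) (by linarith only [b1])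
  have e2 : H u2 = 1 := hk_1 (by linarith only [a2]) (by linarith only [b2])
  have f2 : H (4 * u2) = 1 := hk_5 (by linarith only [a2]) (by linarith only [b2])
  have e3 : H u3 = 1 := hk_1 (by linarith only [a3]) (by linarith only [b3])
  have f3 : H (4 * u3) = 1 := hk_5 (by linarith only [a3]) (by linarith only [b3])
  have e4 : H u4 = 1 := hk_1 (by linarith only [a4]) (by linarith only [b4])
  have f4 : H (4 * u4) = 1 := hk_6 (by linarith only [a4]) (by linarith only [b4])
  have hX : H (T / 4) = 1 := hk_1 (by linarith only [lo]) (by linarith only [hi])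
  have hS : H T = 1 := hk_5 (by linarith only [lo]) (by linarith only [hi])
  have hW : H (4 * T) = 1 := hk_21 (by linarith only [lo]) (by linarith only [hi])
  have hN : H (4 * T - 15) = 1 := hk_6 (by linarith only [lo]) (by linarith only [hi])
  exact good2_T hT zk_3 zk_4 zk_4 zk_4 (by norm_num) e1 e2 e3 e4 f1 f2 f3 f4 hX hS hW hN (R := ((-4) * u1 + 4 * u4 + (-1))) ⟨(by linarith only [hT, b1, a2, a4]), (by linarith only [hT, b1, a4, o2, lo]), (by linarith only [hT, b1, a4]), (by linarith only [hT, b2, a4]), (by linarith only [hT, b1, a4, o2]), (by linarith only [hT, b1, b2, a4]), (by linarith only [hT, o3]), (by linarith only [hT, b1, a2, o3]), (by linarith only [hT, b1, b3, a4]), (by linarith only [hT]), (by linarith only [hT, b1, a2]), (by linarith only [hT, b1, a3])⟩ (by linarith only [hT])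

theorem lf_3_3_5_6_6_20 (u1 u2 u3 u4 T : ℝ) (hT : T = u1 + u2 + u3 + u4) (a1 : (3 / 4) ≤ u1) (b1 : u1 ≤ 1) (a2 : (5 / 4) ≤ u2) (b2 : u2 ≤ (3 / 2)) (a3 : (3 / 2) ≤ u3) (b3 : u3 ≤ (7 / 4)) (a4 : (3 / 2) ≤ u4) (b4 : u4 ≤ (7 / 4)) (lo : 5 ≤ T) (hi : T ≤ (21 / 4)) (o1 : u1 ≤ u2) (o2 : u2 ≤ u3) (o3 : u3 ≤ u4) : Good u1 u2 u3 u4 ∨ Good2 u1 u2 u3 u4 := by
  have e1 : H u1 = u1 - 0 := hk_0 (by linarith only [a1]) (by linarith only [b1])
  have f1 : H (4 * u1) = 4 - (4 * u1) := hk_3 (by linarith only [a1]) (by linarith only [b1])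
  have e2 : H u2 = 1 := hk_1 (by linarith only [a2]) (by linarith only [b2])
  have f2 : H (4 * u2) = 1 := hk_5 (by linarith only [a2]) (by linarith only [b2])
  have e3 : H u3 = 1 := hk_1 (by linarith only [a3]) (by linarith only [b3])
  have f3 : H (4 * u3) = 1 := hk_6 (by linarith only [a3]) (by linarith only [b3])
  have e4 : H u4 = 1 := hk_1 (by linarith only [a4]) (by linarith only [b4])
  have f4 : H (4 * u4) = 1 := hk_6 (by linarith only [a4]) (by linarith only [b4])
  have hX : H (T / 4) = 1 := hk_1 (by linarith only [lo]) (by linarith only [hi])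
  have hS : H T = 1 := hk_5 (by linarith only [lo]) (by linarith only [hi])
  have hW : H (4 * T) = (4 * T) - 20 := hk_20 (by linarith only [lo]) (by linarith only [hi])
  have hN : H (4 * T - 15) = 1 := hk_5 (by linarith only [lo]) (by linarith only [hi])
  exact good2_T hT zk_3 zk_4 zk_4 zk_4 (by norm_num) e1 e2 e3 e4 f1 f2 f3 f4 hX hS hW hN (R := ((-8) * u1 + (-4) * u2 + (-4) * u3 + 20)) ⟨(by linarith only [hT, b1, a2, a4, hi]), (by linarith only [hT, b1, a3, a4, hi]), (by linarith only [hT, b1, a4, hi]), (by linarith only [hT, b2, a4, hi]), (by linarith only [hT, a3, a4, hi]), (by linarith only [hT, a3, a4, hi]), (by linarith only [hT, o3, hi]), (by linarith only [hT, a2, a4, hi]), (by linarith only [hT, a2, a4, hi]), (by linarith only [hT, hi]), (by linarith only [hT, b1, a2, hi]), (by linarith only [hT, b1, a3, hi])⟩ (by linarith only [hT])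

theorem lf_3_3_5_6_6_21 (u1 u2 u3 u4 T : ℝ) (hT : T = u1 + u2 + u3 + u4) (a1 : (3 / 4) ≤ u1) (b1 : u1 ≤ 1) (a2 : (5 / 4) ≤ u2) (b2 : u2 ≤ (3 / 2)) (a3 : (3 / 2) ≤ u3) (b3 : u3 ≤ (7 / 4)) (a4 : (3 / 2) ≤ u4) (b4 : u4 ≤ (7 / 4)) (lo : (21 / 4) ≤ T) (hi : T ≤ (11 / 2)) (o1 : u1 ≤ u2) (o2 : u2 ≤ u3) (o3 : u3 ≤ u4) : Good u1 u2 u3 u4 ∨ Good2 u1 u2 u3 u4 := by
  have e1 : H u1 = u1 - 0 := hk_0 (by linarith only [a1]) (by linarith only [b1])
  have f1 : H (4 * u1) = 4 - (4 * u1) := hk_3 (by linarith only [a1]) (by linarith only [b1])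
  have e2 : H u2 = 1 := hk_1 (by linarith only [a2]) (by linarith only [b2])
  have f2 : H (4 * u2) = 1 := hk_5 (by linarith only [a2]) (by linarith only [b2])
  have e3 : H u3 = 1 := hk_1 (by linarith only [a3]) (by linarith only [b3])
  have f3 : H (4 * u3) = 1 := hk_6 (by linarith only [a3]) (by linarith only [b3])
  have e4 : H u4 = 1 := hk_1 (by linarith only [a4]) (by linarith only [b4])
  have f4 : H (4 * u4) = 1 := hk_6 (by linarith only [a4]) (by linarith only [b4])
  have hX : H (T / 4) = 1 := hk_1 (by linarith only [lo]) (by linarith only [hi])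
  have hS : H T = 1 := hk_5 (by linarith only [lo]) (by linarith only [hi])
  have hW : H (4 * T) = 1 := hk_21 (by linarith only [lo]) (by linarith only [hi])
  have hN : H (4 * T - 15) = 1 := hk_6 (by linarith only [lo]) (by linarith only [hi])
  exact good2_T hT zk_3 zk_4 zk_4 zk_4 (by norm_num) e1 e2 e3 e4 f1 f2 f3 f4 hX hS hW hN (R := ((-4) * u1 + 4 * u4 + (-1))) ⟨(by linarith only [hT, b1, a2, a4]), (by linarith only [hT, b1, a3, a4]), (by linarith only [hT, b1, a4]), (by linarith only [hT, b2, a4]), (by linarith only [hT, b1, a4, o2]), (by linarith only [hT, b1, b2, a4]), (by linarith only [hT, o3]), (by linarith only [hT, b1, a2, o3]), (by linarith only [hT, b1, a3, o3]), (by linarith only [hT]), (by linarith only [hT, b1, a2]), (by linarith only [hT, b1, a3])⟩ (by linarith only [hT])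

theorem lf_3_3_5_6_6_22 (u1 u2 u3 u4 T : ℝ) (hT : T = u1 + u2 + u3 + u4) (a1 : (3 / 4) ≤ u1) (b1 : u1 ≤ 1) (a2 : (5 / 4) ≤ u2) (b2 : u2 ≤ (3 / 2)) (a3 : (3 / 2) ≤ u3) (b3 : u3 ≤ (7 / 4)) (a4 : (3 / 2) ≤ u4) (b4 : u4 ≤ (7 / 4)) (lo : (11 / 2) ≤ T) (hi : T ≤ (23 / 4)) (o1 : u1 ≤ u2) (o2 : u2 ≤ u3) (o3 : u3 ≤ u4) : Good u1 u2 u3 u4 ∨ Good2 u1 u2 u3 u4 := by
  have e1 : H u1 = u1 - 0 := hk_0 (by linarith only [a1]) (by linarith only [b1])
  have f1 : H (4 * u1) = 4 - (4 * u1) := hk_3 (by linarith only [a1]) (by linarith only [b1])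
  have e2 : H u2 = 1 := hk_1 (by linarith only [a2]) (by linarith only [b2])
  have f2 : H (4 * u2) = 1 := hk_5 (by linarith only [a2]) (by linarith only [b2])
  have e3 : H u3 = 1 := hk_1 (by linarith only [a3]) (by linarith only [b3])
  have f3 : H (4 * u3) = 1 := hk_6 (by linarith only [a3]) (by linarith only [b3])
  have e4 : H u4 = 1 := hk_1 (by linarith only [a4]) (by linarith only [b4])
  have f4 : H (4 * u4) = 1 := hk_6 (by linarith only [a4]) (by linarith only [b4])
  have hX : H (T / 4) = 1 := hk_1 (by linarith only [lo]) (by linarith only [hi])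
  have hS : H T = 1 := hk_5 (by linarith only [lo]) (by linarith only [hi])
  have hW : H (4 * T) = 1 := hk_22 (by linarith only [lo]) (by linarith only [hi])
  have hN : H (4 * T - 16) = 1 := hk_6 (by linarith only [lo]) (by linarith only [hi])
  exact good2_T hT zk_3 zk_4 zk_4 zk_5 (by norm_num) e1 e2 e3 e4 f1 f2 f3 f4 hX hS hW hN (R := ((-4) * u1 + 4 * u4 + (-1))) ⟨(by linarith only [hT, b1, a2, o3, lo]), (by linarith only [hT, b1, a3, a4]), (by linarith only [hT, b1, a4]), (by linarith only [hT, b2, a4]), (by linarith only [hT, b1, b2, lo]), (by linarith only [hT, b1, b2, a4]), (by linarith only [hT, o3]), (by linarith only [hT, b1, a2, o3]), (by linarith only [hT, b1, a3, o3]), (by linarith only [hT]), (by linarith only [hT, b1, a2]), (by linarith only [hT, b1, a3])⟩ (by linarith only [hT])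

theorem sp_0_1_1_1_5 (u1 u2 u3 u4 T : ℝ) (hT : T = u1 + u2 + u3 + u4) (a1 : 0 ≤ u1) (b1 : u1 ≤ 0 + 1) (a2 : 1 ≤ u2) (b2 : u2 ≤ 1 + 1) (a3 : 1 ≤ u3) (b3 : u3 ≤ 1 + 1) (a4 : 1 ≤ u4) (b4 : u4 ≤ 1 + 1) (o1 : u1 ≤ u2) (o2 : u2 ≤ u3) (o3 : u3 ≤ u4) (s1 : 5 ≤ T) (s2 : T ≤ 6) : Good u1 u2 u3 u4 ∨ Good2 u1 u2 u3 u4 := by
  have e1 : H u1 = u1 - 0 := hk_0 a1 b1
  have e2 : H u2 = 1 := hk_1 a2 b2
  have e3 : H u3 = 1 := hk_1 a3 b3
  have e4 : H u4 = 1 := hk_1 a4 b4
  have hX : H (T / 4) = 1 := hk_1 (by linarith only [s1]) (by linarith only [s2])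
  have hS : H T = 1 := hk_5 s1 (by linarith only [s2])
  by_cases hc : u1 + 2 ≤ u2 + u4
  · skip
    have hN : H (T - 3) = 1 := hk_2 (by linarith only [s1]) (by linarith only [s2])
    exact good_T hT zk_0 zk_1 zk_1 zk_1 (by norm_num) e1 e2 e3 e4 hX hS hN (R := (u4 + (-1))) ⟨(by linarith only [hT, hc]), (by linarith only [hT, o2, hc]), (by linarith only [hT, o2, o3, hc]), (by linarith only [hT, a1, o2, o3]), (by linarith only [hT, o2, o3, s1, hc]), (by linarith only [hT, o2, o3, s1, hc]), (by linarith only [hT, a1, o3]), (by linarith only [hT, a2, o3]), (by linarith only [hT, o2, o3, s1, hc]), (by linarith only [hT, a1]), (by linarith only [hT, a2]), (by linarith only [hT, a3])⟩ (by linarith only [hT])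
  push Not at hc
  have B1 : u1 ≤ 1 := by linarith only [b1]
  have B2 : u2 ≤ 2 := by linarith only [b2]
  have B3 : u3 ≤ 2 := by linarith only [b3]
  have B4 : u4 ≤ 2 := by linarith only [b4]
  rcases le_total u1 (1 / 2) with z1 | z1
  · skip
    exfalso; linarith only [hT, hc, z1, a2, o3, s1]
  · skip
    rcases le_total u1 (3 / 4) with z2 | z2
    · skip
      rcases le_total u2 (3 / 2) with z3 | z3
      · skip
        rcases le_total u2 (5 / 4) with z4 | z4
        · skip
          rcases le_total u3 (3 / 2) with z5 | z5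
          · skip
            exfalso; linarith only [hT, hc, z2, z5, s1]
          · skip
            rcases le_total u3 (7 / 4) with z6 | z6
            · skip
              rcases le_total u4 (3 / 2) with z7 | z7
              · skip
                exfalso; linarith only [hT, hc, z2, z7, o3, s1]
              · skip
                rcases le_total u4 (7 / 4) with z8 | z8
                · skip
                  rcases le_total T (11 / 2) with z9 | z9
                  · skip
                    rcases le_total T (21 / 4) with z10 | z10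
                    · skip
                      exact lf_3_2_4_6_6_20 u1 u2 u3 u4 T hT z1 z2 a2 z4 z5 z6 z7 z8 s1 z10 o1 o2 o3
                    · skip
                      exfalso; linarith only [hT, hc, z2, z6, z10]
                  · skip
                    exfalso; linarith only [hT, hc, z2, z6, z9]
                · skip
                  exfalso; linarith only [hT, hc, z2, a2, z8]
            · skip
              exfalso; linarith only [hT, hc, z2, a2, z6, o3]
        · skip
          exfalso; linarith only [hT, hc, z2, z4, o3, s1]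
      · skip
        exfalso; linarith only [hT, hc, z2, z3, o2, o3]
    · skip
      rcases le_total u2 (3 / 2) with z11 | z11
      · skip
        rcases le_total u2 (5 / 4) with z12 | z12
        · skip
          rcases le_total u3 (3 / 2) with z13 | z13
          · skip
            rcases le_total u3 (5 / 4) with z14 | z14
            · skip
              rcases le_total u4 (3 / 2) with z15 | z15
              · skip
                rcases le_total u4 (5 / 4) with z16 | z16
                · skip
                  exfalso; linarith only [hT, s1, B1, z12, z14, z16]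
                · skip
                  rcases le_total T (11 / 2) with z17 | z17
                  · skip
                    rcases le_total T (21 / 4) with z18 | z18
                    · skip
                      exact lf_3_3_4_4_5_20 u1 u2 u3 u4 T hT z2 B1 a2 z12 a3 z14 z16 z15 s1 z18 o1 o2 o3
                    · skip
                      exfalso; linarith only [hT, z18, B1, z12, z14, z15]
                  · skip
                    exfalso; linarith only [hT, z17, B1, z12, z14, z15]
              · skip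
                rcases le_total u4 (7 / 4) with z19 | z19
                · skip
                  rcases le_total T (11 / 2) with z20 | z20
                  · skip
                    rcases le_total T (21 / 4) with z21 | z21
                    · skip
                      exact lf_3_3_4_4_6_20 u1 u2 u3 u4 T hT z2 B1 a2 z12 a3 z14 z15 z19 s1 z21 o1 o2 o3
                    · skip
                      exfalso; linarith only [hT, hc, B1, z14, z21]
                  · skip
                    exfalso; linarith only [hT, z20, B1, z12, z14, z19]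
                · skip
                  rcases le_total T (11 / 2) with z22 | z22
                  · skip
                    rcases le_total T (21 / 4) with z23 | z23
                    · skip
                      exact lf_3_3_4_4_7_20 u1 u2 u3 u4 T hT z2 B1 a2 z12 a3 z14 z19 B4 s1 z23 o1 o2 o3
                    · skip
                      exfalso; linarith only [hT, hc, B1, z14, z23]
                  · skip
                    exfalso; linarith only [hT, hc, B1, z14, z22]
            · skip
              rcases le_total u4 (3 / 2) with z24 | z24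
              · skip
                rcases le_total u4 (5 / 4) with z25 | z25
                · skip
                  exfalso; linarith only [hT, s1, B1, z12, z25, o3]
                · skip
                  rcases le_total T (11 / 2) with z26 | z26
                  · skip
                    rcases le_total T (21 / 4) with z27 | z27
                    · skip
                      exact lf_3_3_4_5_5_20 u1 u2 u3 u4 T hT z2 B1 a2 z12 z14 z13 z25 z24 s1 z27 o1 o2 o3
                    · skip
                      exact lf_3_3_4_5_5_21 u1 u2 u3 u4 T hT z2 B1 a2 z12 z14 z13 z25 z24 z27 z26 o1 o2 o3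
                  · skip
                    exfalso; linarith only [hT, z26, B1, z12, z13, z24]
              · skip
                rcases le_total u4 (7 / 4) with z28 | z28
                · skip
                  rcases le_total T (11 / 2) with z29 | z29
                  · skip
                    rcases le_total T (21 / 4) with z30 | z30
                    · skip
                      exact lf_3_3_4_5_6_20 u1 u2 u3 u4 T hT z2 B1 a2 z12 z14 z13 z24 z28 s1 z30 o1 o2 o3
                    · skip
                      exact lf_3_3_4_5_6_21 u1 u2 u3 u4 T hT z2 B1 a2 z12 z14 z13 z24 z28 z30 z29 o1 o2 o3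
                  · skip
                    exfalso; linarith only [hT, hc, B1, z13, z29]
                · skip
                  rcases le_total T (11 / 2) with z31 | z31
                  · skip
                    rcases le_total T (21 / 4) with z32 | z32
                    · skip
                      exact lf_3_3_4_5_7_20 u1 u2 u3 u4 T hT z2 B1 a2 z12 z14 z13 z28 B4 s1 z32 o1 o2 o3
                    · skip
                      exact lf_3_3_4_5_7_21 u1 u2 u3 u4 T hT z2 B1 a2 z12 z14 z13 z28 B4 z32 z31 o1 o2 o3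
                  · skip
                    exfalso; linarith only [hT, hc, B1, z13, z31]
          · skip
            rcases le_total u3 (7 / 4) with z33 | z33
            · skip
              rcases le_total u4 (3 / 2) with z34 | z34
              · skip
                rcases le_total u4 (5 / 4) with z35 | z35
                · skip
                  exfalso; linarith only [hT, o3, z13, z35]
                · skip
                  rcases le_total T (11 / 2) with z36 | z36
                  · skip
                    rcases le_total T (21 / 4) with z37 | z37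
                    · skip
                      exact lf_3_3_4_6_6_20 u1 u2 u3 u4 T hT z2 B1 a2 z12 z13 z33 (by linarith only [hT, z13, o3]) (by linarith only [hT, z34]) s1 z37 o1 o2 o3
                    · skip
                      exact lf_3_3_4_6_6_21 u1 u2 u3 u4 T hT z2 B1 a2 z12 z13 z33 (by linarith only [hT, z13, o3]) (by linarith only [hT, z34]) z37 z36 o1 o2 o3
                  · skip
                    exfalso; linarith only [hT, z36, B1, z12, z34, o3]
              · skip
                rcases le_total u4 (7 / 4) with z38 | z38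
                · skip
                  rcases le_total T (11 / 2) with z39 | z39
                  · skip
                    rcases le_total T (21 / 4) with z40 | z40
                    · skip
                      exact lf_3_3_4_6_6_20 u1 u2 u3 u4 T hT z2 B1 a2 z12 z13 z33 z34 z38 s1 z40 o1 o2 o3
                    · skip
                      exact lf_3_3_4_6_6_21 u1 u2 u3 u4 T hT z2 B1 a2 z12 z13 z33 z34 z38 z40 z39 o1 o2 o3
                  · skip
                    rcases le_total T (23 / 4) with z41 | z41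
                    · skip
                      exact lf_3_3_4_6_6_22 u1 u2 u3 u4 T hT z2 B1 a2 z12 z13 z33 z34 z38 z39 z41 o1 o2 o3
                    · skip
                      exfalso; linarith only [hT, hc, B1, z33, z41]
                · skip
                  rcases le_total T (11 / 2) with z42 | z42
                  · skip
                    rcases le_total T (21 / 4) with z43 | z43
                    · skip
                      exact lf_3_3_4_6_7_20 u1 u2 u3 u4 T hT z2 B1 a2 z12 z13 z33 z38 B4 s1 z43 o1 o2 o3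
                    · skip
                      exact lf_3_3_4_6_7_21 u1 u2 u3 u4 T hT z2 B1 a2 z12 z13 z33 z38 B4 z43 z42 o1 o2 o3
                  · skip
                    rcases le_total T (23 / 4) with z44 | z44
                    · skip
                      exact lf_3_3_4_6_7_22 u1 u2 u3 u4 T hT z2 B1 a2 z12 z13 z33 z38 B4 z42 z44 o1 o2 o3
                    · skip
                      exfalso; linarith only [hT, hc, B1, z33, z44]
            · skip
              rcases le_total u4 (3 / 2) with z45 | z45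
              · skip
                exfalso; linarith only [hT, o3, z33, z45]
              · skip
                rcases le_total u4 (7 / 4) with z46 | z46
                · skip
                  rcases le_total T (11 / 2) with z47 | z47
                  · skip
                    rcases le_total T (21 / 4) with z48 | z48
                    · skip
                      exfalso; linarith only [hT, hc, a2, z33, o3, z48]
                    · skip
                      exact lf_3_3_4_7_7_21 u1 u2 u3 u4 T hT z2 B1 a2 z12 z33 B3 (by linarith only [hT, z33, o3]) (by linarith only [hT, z46]) z48 z47 o1 o2 o3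
                  · skip
                    rcases le_total T (23 / 4) with z49 | z49
                    · skip
                      exact lf_3_3_4_7_7_22 u1 u2 u3 u4 T hT z2 B1 a2 z12 z33 B3 (by linarith only [hT, z33, o3]) (by linarith only [hT, z46]) z47 z49 o1 o2 o3
                    · skip
                      exfalso; linarith only [hT, hc, B1, z46, o3, z49]
                · skip
                  rcases le_total T (11 / 2) with z50 | z50
                  · skip
                    rcases le_total T (21 / 4) with z51 | z51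
                    · skip
                      exfalso; linarith only [hT, hc, a2, z33, z46, z51]
                    · skip
                      exact lf_3_3_4_7_7_21 u1 u2 u3 u4 T hT z2 B1 a2 z12 z33 B3 z46 B4 z51 z50 o1 o2 o3
                  · skip
                    rcases le_total T (23 / 4) with z52 | z52
                    · skip
                      exact lf_3_3_4_7_7_22 u1 u2 u3 u4 T hT z2 B1 a2 z12 z33 B3 z46 B4 z50 z52 o1 o2 o3
                    · skip
                      exact lf_3_3_4_7_7_23 u1 u2 u3 u4 T hT z2 B1 a2 z12 z33 B3 z46 B4 z52 s2 o1 o2 o3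
        · skip
          rcases le_total u3 (3 / 2) with z53 | z53
          · skip
            rcases le_total u3 (5 / 4) with z54 | z54
            · skip
              rcases le_total u4 (3 / 2) with z55 | z55
              · skip
                rcases le_total u4 (5 / 4) with z56 | z56
                · skip
                  exfalso; linarith only [hT, s1, B1, z54, z56, o2]
                · skip
                  rcases le_total T (11 / 2) with z57 | z57
                  · skip
                    rcases le_total T (21 / 4) with z58 | z58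
                    · skip
                      exact lf_3_3_5_5_5_20 u1 u2 u3 u4 T hT z2 B1 z12 z11 (by linarith only [hT, z12, o2]) (by linarith only [hT, z54]) z56 z55 s1 z58 o1 o2 o3
                    · skip
                      exfalso; linarith only [hT, z58, B1, z54, z55, o2]
                  · skip
                    exfalso; linarith only [hT, z57, B1, z54, z55, o2]
              · skip
                rcases le_total u4 (7 / 4) with z59 | z59
                · skip
                  rcases le_total T (11 / 2) with z60 | z60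
                  · skip
                    rcases le_total T (21 / 4) with z61 | z61
                    · skip
                      exact lf_3_3_5_5_6_20 u1 u2 u3 u4 T hT z2 B1 z12 z11 (by linarith only [hT, z12, o2]) (by linarith only [hT, z54]) z55 z59 s1 z61 o1 o2 o3
                    · skip
                      exfalso; linarith only [hT, hc, B1, z54, z61]
                  · skip
                    exfalso; linarith only [hT, z60, B1, z54, z59, o2]
                · skip
                  exfalso; linarith only [hT, hc, B1, z12, z59]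
            · skip
              rcases le_total u4 (3 / 2) with z62 | z62
              · skip
                rcases le_total u4 (5 / 4) with z63 | z63
                · skip
                  exfalso; linarith only [hT, s1, B1, z63, o2, o3]
                · skip
                  rcases le_total T (11 / 2) with z64 | z64
                  · skip
                    rcases le_total T (21 / 4) with z65 | z65
                    · skip
                      exact lf_3_3_5_5_5_20 u1 u2 u3 u4 T hT z2 B1 z12 z11 z54 z53 z63 z62 s1 z65 o1 o2 o3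
                    · skip
                      exact lf_3_3_5_5_5_21 u1 u2 u3 u4 T hT z2 B1 z12 z11 z54 z53 z63 z62 z65 z64 o1 o2 o3
                  · skip
                    exfalso; linarith only [hT, hc, B1, z53, z64]
              · skip
                rcases le_total u4 (7 / 4) with z66 | z66
                · skip
                  rcases le_total T (11 / 2) with z67 | z67
                  · skip
                    rcases le_total T (21 / 4) with z68 | z68
                    · skip
                      exact lf_3_3_5_5_6_20 u1 u2 u3 u4 T hT z2 B1 z12 z11 z54 z53 z62 z66 s1 z68 o1 o2 o3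
                    · skip
                      exact lf_3_3_5_5_6_21 u1 u2 u3 u4 T hT z2 B1 z12 z11 z54 z53 z62 z66 z68 z67 o1 o2 o3
                  · skip
                    exfalso; linarith only [hT, hc, B1, z53, z67]
                · skip
                  exfalso; linarith only [hT, hc, B1, z12, z66]
          · skip
            rcases le_total u3 (7 / 4) with z69 | z69
            · skip
              rcases le_total u4 (3 / 2) with z70 | z70
              · skip
                rcases le_total u4 (5 / 4) with z71 | z71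
                · skip
                  exfalso; linarith only [hT, o3, z53, z71]
                · skip
                  rcases le_total T (11 / 2) with z72 | z72
                  · skip
                    rcases le_total T (21 / 4) with z73 | z73
                    · skip
                      exact lf_3_3_5_6_6_20 u1 u2 u3 u4 T hT z2 B1 z12 z11 z53 z69 (by linarith only [hT, z53, o3]) (by linarith only [hT, z70]) s1 z73 o1 o2 o3
                    · skip
                      exact lf_3_3_5_6_6_21 u1 u2 u3 u4 T hT z2 B1 z12 z11 z53 z69 (by linarith only [hT, z53, o3]) (by linarith only [hT, z70]) z73 z72 o1 o2 o3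
                  · skip
                    exfalso; linarith only [hT, hc, B1, z70, o3, z72]
              · skip
                rcases le_total u4 (7 / 4) with z74 | z74
                · skip
                  rcases le_total T (11 / 2) with z75 | z75
                  · skip
                    rcases le_total T (21 / 4) with z76 | z76
                    · skip
                      exact lf_3_3_5_6_6_20 u1 u2 u3 u4 T hT z2 B1 z12 z11 z53 z69 z70 z74 s1 z76 o1 o2 o3
                    · skip
                      exact lf_3_3_5_6_6_21 u1 u2 u3 u4 T hT z2 B1 z12 z11 z53 z69 z70 z74 z76 z75 o1 o2 o3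
                  · skip
                    rcases le_total T (23 / 4) with z77 | z77
                    · skip
                      exact lf_3_3_5_6_6_22 u1 u2 u3 u4 T hT z2 B1 z12 z11 z53 z69 z70 z74 z75 z77 o1 o2 o3
                    · skip
                      exfalso; linarith only [hT, hc, B1, z69, z77]
                · skip
                  exfalso; linarith only [hT, hc, B1, z12, z74]
            · skip
              exfalso; linarith only [hT, hc, B1, z12, z69, o3]
      · skip
        exfalso; linarith only [hT, hc, B1, z11, o2, o3]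

end Pool.Agent.W401.WC
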