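import Pool.Agent.W401.WC.Hk
set_option autoImplicit false
set_option linter.all false
namespace Pool.Agent.W401.WC

theorem sp_0_0_1_2_4 (u1 u2 u3 u4 T : ℝ) (hT : T = u1 + u2 + u3 + u4) (a1 : 0 ≤ u1) (b1 : u1 ≤ 0 + 1) (a2 : 0 ≤ u2) (b2 : u2 ≤ 0 + 1) (a3 : 1 ≤ u3) (b3 : u3 ≤ 1 + 1) (a4 : 2 ≤ u4) (b4 : u4 ≤ 2 + 1) (o1 : u1 ≤ u2) (o2 : u2 ≤ u3) (o3 : u3 ≤ u4) (s1 : 4 ≤ T) (s2 : T ≤ 5) : Good u1 u2 u3 u4 ∨ Good2 u1 u2 u3 u4 := by
  have e1 : H u1 = u1 - 0 := hk_0 a1 b1
  have e2 : H u2 = u2 - 0 := hk_0 a2 b2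
  have e3 : H u3 = 1 := hk_1 a3 b3
  have e4 : H u4 = 1 := hk_2 a4 b4
  have hX : H (T / 4) = 1 := hk_1 (by linarith only [s1]) (by linarith only [s2])
  have hS : H T = T - 4 := hk_4 s1 (by linarith only [s2])
  by_cases hc : u1 + 2 * u3 ≤ u4 + 2
  · skip
    have hN : H (T - 3) = 1 := hk_1 (by linarith only [s1]) (by linarith only [s2])
    exact good_T hT zk_0 zk_0 zk_1 zk_2 (by norm_num) e1 e2 e3 e4 hX hS hN (R := (- u1 - u3 + 3)) ⟨(by linarith only [hT, o1, s2, hc]), (by linarith only [hT, b1]), (by linarith only [hT, a4, o1, s2]), (by linarith only [hT, b2, b3]), (by linarith only [hT, b1, b2]), (by linarith only [hT, a4, s2]), (by linarith only [hT, b3]), (by linarith only [hT, b3, o1]), (by linarith only [hT, hc]), (by linarith only [hT, b3, b4]), (by linarith only [hT, a2, s2]), (by linarith only [hT, a3, b4, o1, s2])⟩ (by linarith only [hT])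
  push Not at hc
  rcases le_total (u3 + u4) 4 with hd | hd
  · skip
    have hN : H (T - 2) = 1 := hk_2 (by linarith only [s1]) (by linarith only [s2])
    exact good_T hT zk_0 zk_0 zk_1 zk_1 (by norm_num) e1 e2 e3 e4 hX hS hN (R := (- u1 - u3 + 3)) ⟨(by linarith only [hT, o1, o3, s2]), (by linarith only [hT, a4, o1, s2, hc]), (by linarith only [hT, a4, o1, s2]), (by linarith only [hT, b2, b3]), (by linarith only [hT, a4, o1, s2, hc]), (by linarith only [hT, a4, s2]), (by linarith only [hT, b3]), (by linarith only [hT, b3, o1]), (by linarith only [hT, o1, o3, s2]), (by linarith only [hT, hd]), (by linarith only [hT, o1, hd]), (by linarith only [hT, o1, s2, hc])⟩ (by linarith only [hT])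
  have hN : H (T - 4) = (T - 4) - 0 := hk_0 (by linarith only [s1]) (by linarith only [s2])
  exact good_T hT zk_0 zk_0 zk_2 zk_2 (by norm_num) e1 e2 e3 e4 hX hS hN (R := (u2 + u4 + (-2))) ⟨(by linarith only [hT, a1, a4, o1]), (by linarith only [hT, o1, hd]), (by linarith only [hT, a4, o1]), (by linarith only [hT, a1, a4]), (by linarith only [hT, hd]), (by linarith only [hT, a4]), (by linarith only [hT, b3, s1]), (by linarith only [hT, a2, o3]), (by linarith only [hT, a2, b3, a4]), (by linarith only [hT, a1, a2]), (by linarith only [hT, a2]), (by linarith only [hT, o1, o3, hc])⟩ (by linarith only [hT])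

theorem sp_0_0_1_2_5 (u1 u2 u3 u4 T : ℝ) (hT : T = u1 + u2 + u3 + u4) (a1 : 0 ≤ u1) (b1 : u1 ≤ 0 + 1) (a2 : 0 ≤ u2) (b2 : u2 ≤ 0 + 1) (a3 : 1 ≤ u3) (b3 : u3 ≤ 1 + 1) (a4 : 2 ≤ u4) (b4 : u4 ≤ 2 + 1) (o1 : u1 ≤ u2) (o2 : u2 ≤ u3) (o3 : u3 ≤ u4) (s1 : 5 ≤ T) (s2 : T ≤ 6) : Good u1 u2 u3 u4 ∨ Good2 u1 u2 u3 u4 := by
  have e1 : H u1 = u1 - 0 := hk_0 a1 b1
  have e2 : H u2 = u2 - 0 := hk_0 a2 b2
  have e3 : H u3 = 1 := hk_1 a3 b3
  have e4 : H u4 = 1 := hk_2 a4 b4
  have hX : H (T / 4) = 1 := hk_1 (by linarith only [s1]) (by linarith only [s2])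
  have hS : H T = 1 := hk_5 s1 (by linarith only [s2])
  by_cases hc : u3 + 3 ≤ u2 + 2 * u4
  · skip
    have hN : H (T - 3) = 1 := hk_2 (by linarith only [s1]) (by linarith only [s2])
    exact good_T hT zk_0 zk_0 zk_1 zk_2 (by norm_num) e1 e2 e3 e4 hX hS hN (R := (u2 + u4 + (-2))) ⟨(by linarith only [hT, o1, s1, hc]), (by linarith only [hT, b1, s1]), (by linarith only [hT, a4, o1]), (by linarith only [hT, a1, a4]), (by linarith only [hT, a3, a4]), (by linarith only [hT, a4]), (by linarith only [hT, b3, s1]), (by linarith only [hT, b3, o1, s1]), (by linarith only [hT, hc]), (by linarith only [hT, a1, a2]), (by linarith only [hT, a2]), (by linarith only [hT, a3, b4, o1, s1])⟩ (by linarith only [hT])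
  push Not at hc
  rcases le_total (u3 + u4) 4 with hd | hd
  · skip
    have hN : H (T - 2) = 4 - (T - 2) := hk_3 (by linarith only [s1]) (by linarith only [s2])
    exact good_T hT zk_0 zk_0 zk_1 zk_1 (by norm_num) e1 e2 e3 e4 hX hS hN (R := (- u1 - u3 + 3)) ⟨(by linarith only [hT, b1, b3, o1]), (by linarith only [hT, b1]), (by linarith only [hT, b1, o3]), (by linarith only [hT, b2, b3]), (by linarith only [hT, b1, b2]), (by linarith only [hT, a4, s2]), (by linarith only [hT, b3]), (by linarith only [hT, b3, o1]), (by linarith only [hT, b1, b3, a4]), (by linarith only [hT, hd]), (by linarith only [hT, o1, hd]), (by linarith only [hT, o1, o3, hc])⟩ (by linarith only [hT])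
  have hN : H (T - 4) = 1 := hk_1 (by linarith only [s1]) (by linarith only [s2])
  exact good_T hT zk_0 zk_0 zk_2 zk_2 (by norm_num) e1 e2 e3 e4 hX hS hN (R := (u2 + u4 + (-2))) ⟨(by linarith only [hT, o1, o3, s1]), (by linarith only [hT, o1, hd]), (by linarith only [hT, a4, o1]), (by linarith only [hT, a1, a4]), (by linarith only [hT, hd]), (by linarith only [hT, a4]), (by linarith only [hT, b3, s1]), (by linarith only [hT, b3, o1, s1]), (by linarith only [hT, o1, o3, s1]), (by linarith only [hT, b3, o1, s1, hc]), (by linarith only [hT, b3, o1, s1, hc]), (by linarith only [hT, o1, s1, hc])⟩ (by linarith only [hT])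

end Pool.Agent.W401.WC
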