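import Pool.Agent.W401.WC.Sp1
import Pool.Agent.W401.WC.Sp2
import Pool.Agent.W401.WC.Sp3
import Pool.Agent.W401.WC.Sp4
import Pool.Agent.W401.WC.Sp5
set_option autoImplicit false
set_option linter.all false
namespace Pool.Agent.W401.WC

theorem sp_2_3_3_3_13 (u1 u2 u3 u4 T : ℝ) (hT : T = u1 + u2 + u3 + u4) (a1 : 2 ≤ u1) (b1 : u1 ≤ 2 + 1) (a2 : 3 ≤ u2) (b2 : u2 ≤ 3 + 1) (a3 : 3 ≤ u3) (b3 : u3 ≤ 3 + 1) (a4 : 3 ≤ u4) (b4 : u4 ≤ 3 + 1) (o1 : u1 ≤ u2) (o2 : u2 ≤ u3) (o3 : u3 ≤ u4) (s1 : 13 ≤ T) (s2 : T ≤ 14) : Good u1 u2 u3 u4 ∨ Good2 u1 u2 u3 u4 := by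
  rcases sp_0_0_0_1_2 (4 - u4) (4 - u3) (4 - u2) (4 - u1) (16 - T) (by linarith only [hT]) (by linarith only [b4]) (by linarith only [a4]) (by linarith only [b3]) (by linarith only [a3]) (by linarith only [b2]) (by linarith only [a2]) (by linarith only [b1]) (by linarith only [a1]) (by linarith only [o3]) (by linarith only [o2]) (by linarith only [o1]) (by linarith only [s2]) (by linarith only [s1]) with h | h
  · exact Or.inl (good_refl h)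
  · exact Or.inr (good2_refl h)

theorem sp_2_3_3_3_12 (u1 u2 u3 u4 T : ℝ) (hT : T = u1 + u2 + u3 + u4) (a1 : 2 ≤ u1) (b1 : u1 ≤ 2 + 1) (a2 : 3 ≤ u2) (b2 : u2 ≤ 3 + 1) (a3 : 3 ≤ u3) (b3 : u3 ≤ 3 + 1) (a4 : 3 ≤ u4) (b4 : u4 ≤ 3 + 1) (o1 : u1 ≤ u2) (o2 : u2 ≤ u3) (o3 : u3 ≤ u4) (s1 : 12 ≤ T) (s2 : T ≤ 13) : Good u1 u2 u3 u4 ∨ Good2 u1 u2 u3 u4 := by
  rcases sp_0_0_0_1_3 (4 - u4) (4 - u3) (4 - u2) (4 - u1) (16 - T) (by linarith only [hT]) (by linarith only [b4]) (by linarith only [a4]) (by linarith only [b3]) (by linarith only [a3]) (by linarith only [b2]) (by linarith only [a2]) (by linarith only [b1]) (by linarith only [a1]) (by linarith only [o3]) (by linarith only [o2]) (by linarith only [o1]) (by linarith only [s2]) (by linarith only [s1]) with h | h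
  · exact Or.inl (good_refl h)
  · exact Or.inr (good2_refl h)

theorem sp_1_2_3_3_11 (u1 u2 u3 u4 T : ℝ) (hT : T = u1 + u2 + u3 + u4) (a1 : 1 ≤ u1) (b1 : u1 ≤ 1 + 1) (a2 : 2 ≤ u2) (b2 : u2 ≤ 2 + 1) (a3 : 3 ≤ u3) (b3 : u3 ≤ 3 + 1) (a4 : 3 ≤ u4) (b4 : u4 ≤ 3 + 1) (o1 : u1 ≤ u2) (o2 : u2 ≤ u3) (o3 : u3 ≤ u4) (s1 : 11 ≤ T) (s2 : T ≤ 12) : Good u1 u2 u3 u4 ∨ Good2 u1 u2 u3 u4 := by
  rcases sp_0_0_1_2_4 (4 - u4) (4 - u3) (4 - u2) (4 - u1) (16 - T) (by linarith only [hT]) (by linarith only [b4]) (by linarith only [a4]) (by linarith only [b3]) (by linarith only [a3]) (by linarith only [b2]) (by linarith only [a2]) (by linarith only [b1]) (by linarith only [a1]) (by linarith only [o3]) (by linarith only [o2]) (by linarith only [o1]) (by linarith only [s2]) (by linarith only [s1]) with h | h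
  · exact Or.inl (good_refl h)
  · exact Or.inr (good2_refl h)

theorem sp_1_2_3_3_10 (u1 u2 u3 u4 T : ℝ) (hT : T = u1 + u2 + u3 + u4) (a1 : 1 ≤ u1) (b1 : u1 ≤ 1 + 1) (a2 : 2 ≤ u2) (b2 : u2 ≤ 2 + 1) (a3 : 3 ≤ u3) (b3 : u3 ≤ 3 + 1) (a4 : 3 ≤ u4) (b4 : u4 ≤ 3 + 1) (o1 : u1 ≤ u2) (o2 : u2 ≤ u3) (o3 : u3 ≤ u4) (s1 : 10 ≤ T) (s2 : T ≤ 11) : Good u1 u2 u3 u4 ∨ Good2 u1 u2 u3 u4 := by
  rcases sp_0_0_1_2_5 (4 - u4) (4 - u3) (4 - u2) (4 - u1) (16 - T) (by linarith only [hT]) (by linarith only [b4]) (by linarith only [a4]) (by linarith only [b3]) (by linarith only [a3]) (by linarith only [b2]) (by linarith only [a2]) (by linarith only [b1]) (by linarith only [a1]) (by linarith only [o3]) (by linarith only [o2]) (by linarith only [o1]) (by linarith only [s2]) (by linarith only [s1]) with h | h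
  · exact Or.inl (good_refl h)
  · exact Or.inr (good2_refl h)

theorem sp_2_2_2_3_11 (u1 u2 u3 u4 T : ℝ) (hT : T = u1 + u2 + u3 + u4) (a1 : 2 ≤ u1) (b1 : u1 ≤ 2 + 1) (a2 : 2 ≤ u2) (b2 : u2 ≤ 2 + 1) (a3 : 2 ≤ u3) (b3 : u3 ≤ 2 + 1) (a4 : 3 ≤ u4) (b4 : u4 ≤ 3 + 1) (o1 : u1 ≤ u2) (o2 : u2 ≤ u3) (o3 : u3 ≤ u4) (s1 : 11 ≤ T) (s2 : T ≤ 12) : Good u1 u2 u3 u4 ∨ Good2 u1 u2 u3 u4 := by
  rcases sp_0_1_1_1_4 (4 - u4) (4 - u3) (4 - u2) (4 - u1) (16 - T) (by linarith only [hT]) (by linarith only [b4]) (by linarith only [a4]) (by linarith only [b3]) (by linarith only [a3]) (by linarith only [b2]) (by linarith only [a2]) (by linarith only [b1]) (by linarith only [a1]) (by linarith only [o3]) (by linarith only [o2]) (by linarith only [o1]) (by linarith only [s2]) (by linarith only [s1]) with h | h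
  · exact Or.inl (good_refl h)
  · exact Or.inr (good2_refl h)

theorem sp_2_2_2_3_10 (u1 u2 u3 u4 T : ℝ) (hT : T = u1 + u2 + u3 + u4) (a1 : 2 ≤ u1) (b1 : u1 ≤ 2 + 1) (a2 : 2 ≤ u2) (b2 : u2 ≤ 2 + 1) (a3 : 2 ≤ u3) (b3 : u3 ≤ 2 + 1) (a4 : 3 ≤ u4) (b4 : u4 ≤ 3 + 1) (o1 : u1 ≤ u2) (o2 : u2 ≤ u3) (o3 : u3 ≤ u4) (s1 : 10 ≤ T) (s2 : T ≤ 11) : Good u1 u2 u3 u4 ∨ Good2 u1 u2 u3 u4 := by
  rcases sp_0_1_1_1_5 (4 - u4) (4 - u3) (4 - u2) (4 - u1) (16 - T) (by linarith only [hT]) (by linarith only [b4]) (by linarith only [a4]) (by linarith only [b3]) (by linarith only [a3]) (by linarith only [b2]) (by linarith only [a2]) (by linarith only [b1]) (by linarith only [a1]) (by linarith only [o3]) (by linarith only [o2]) (by linarith only [o1]) (by linarith only [s2]) (by linarith only [s1]) with h | h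
  · exact Or.inl (good_refl h)
  · exact Or.inr (good2_refl h)

end Pool.Agent.W401.WC
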