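import Pool.Agent.W401.WC.Base
set_option autoImplicit false
namespace Pool.Agent.W401.WC
open Finset

/-- `x 0, …, x (m-1)` are points with `0 ≤ x 0 ≤ x 1 ≤ … ≤ x (m-1) ≤ 1`. -/
def Pts (m : ℕ) (x : ℕ → ℝ) : Prop :=
  0 ≤ x 0 ∧ (∀ i, i + 1 < m → x i ≤ x (i + 1)) ∧ x (m - 1) ≤ 1

/-- the class of the problem (only the values of `f` on `[0,1]` matter) -/
def Cls (m : ℕ) (f : ℝ → ℝ) : Prop :=
  f 0 ≤ 0 ∧ f 1 ≤ 0 ∧ ∀ x : ℕ → ℝ, Pts m x →
    f ((∑ i ∈ range m, x i) / m) ≤ (∑ i ∈ range m, f (x i)) / m + (x (m - 1) - x 0)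

/-- three valued points -/
def seq3 (a : ℕ) (p q r : ℝ) (i : ℕ) : ℝ := if i < a then p else if i = a then q else r

theorem sum_seq3 (g : ℝ → ℝ) (a b : ℕ) (p q r : ℝ) :
    ∑ i ∈ range (a + (1 + b)), g (seq3 a p q r i) = a * g p + g q + b * g r := by
  rw [sum_range_add, sum_range_add]
  have h1 : ∑ i ∈ range a, g (seq3 a p q r i) = a * g p := by
    rw [sum_congr rfl (g := fun _ => g p)]
    · simp
    · intro i hi
      simp [seq3, mem_range.1 hi]
  have h2 : ∑ i ∈ range 1, g (seq3 a p q r (a + i)) = g q := by simp [seq3]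
  have h3 : ∑ i ∈ range b, g (seq3 a p q r (a + (1 + i))) = b * g r := by
    rw [sum_congr rfl (g := fun _ => g r)]
    · simp
    · intro i hi
      have e1 : ¬ (a + (1 + i) < a) := by omega
      have e2 : ¬ (a + (1 + i) = a) := by omega
      simp only [seq3, e1, e2, if_false]
  rw [h1, h2, h3]; ring

theorem three {m : ℕ} {f : ℝ → ℝ} (hf : Cls m f) (a b : ℕ) (hm' : a + (1 + b) = m) {p q r : ℝ}
    (h0 : 0 ≤ p) (h1 : p ≤ q) (h2 : q ≤ r) (h3 : r ≤ 1) :
    f ((a * p + q + b * r) / m) ≤ (a * f p + f q + b * f r) / m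
      + ((if b = 0 then q else r) - (if a = 0 then q else p)) := by
  have key := hf.2.2 (seq3 a p q r) ⟨?_, ?_, ?_⟩
  · have e1 := sum_seq3 (fun y => y) a b p q r
    have e2 := sum_seq3 f a b p q r
    rw [hm'] at e1 e2
    rw [e1, e2] at key
    have e3 : seq3 a p q r (m - 1) = if b = 0 then q else r := by
      unfold seq3
      rw [if_neg (by omega)]
      by_cases hb : b = 0
      · rw [if_pos (by omega), if_pos hb]
      · rw [if_neg (by omega), if_neg hb]
    have e4 : seq3 a p q r 0 = if a = 0 then q else p := by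
      unfold seq3
      by_cases ha : a = 0
      · rw [if_neg (by omega), if_pos (by omega), if_pos ha]
      · rw [if_pos (by omega), if_neg ha]
    rw [e3, e4] at key
    exact key
  · unfold seq3
    split_ifs <;> linarith
  · intro i _
    unfold seq3
    split_ifs <;> first | omega | linarith
  · unfold seq3
    split_ifs <;> linarith

/-- one step of the upper bound -/
theorem upper_step {m : ℕ} (hm2 : 2 ≤ m) {f : ℝ → ℝ} (hf : Cls m f) {x : ℝ} (j : ℕ) (hj : j < m)
    (h0 : 0 ≤ m * x - j) (h1 : m * x - j ≤ 1) :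
    f x ≤ hm m x + f (m * x - j) / m := by
  have hm0 : (0 : ℝ) < m := by exact_mod_cast (by omega : 0 < m)
  obtain ⟨a, ha⟩ : ∃ a, a + (1 + j) = m := ⟨m - 1 - j, by omega⟩
  have key := three hf a j ha le_rfl h0 h1 le_rfl
  have e : ((a : ℝ) * 0 + (m * x - j) + j * 1) / m = x := by field_simp; ring
  rw [e] at key
  have f0 := hf.1
  have f1 := hf.2.1
  have b1 : ((a : ℝ) * f 0 + f (m * x - j) + j * f 1) / m ≤ f (m * x - j) / m := by
    have ha0 : (0 : ℝ) ≤ a := by positivity
    have hj0 : (0 : ℝ) ≤ j := by positivity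
    apply div_le_div_of_nonneg_right _ hm0.le
    nlinarith [mul_nonpos_of_nonneg_of_nonpos ha0 f0, mul_nonpos_of_nonneg_of_nonpos hj0 f1]
  have haR : (a : ℝ) + (1 + j) = m := by exact_mod_cast ha
  have ha0 : (0 : ℝ) ≤ a := by positivity
  have hj0 : (0 : ℝ) ≤ j := by positivity
  have hx0 : 0 ≤ x := by
    by_contra h
    push Not at h
    nlinarith
  have hx1 : x ≤ 1 := by
    by_contra h
    push Not at h
    nlinarith
  have hd : |x - round x| = min x (1 - x) := by
    have := dist_eq_fract x 0 (by push_cast; exact hx0) (by push_cast; linarith)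
    push_cast at this
    rw [this]; congr 1 <;> ring
  have b2 : ((if j = 0 then (m * x - j) else 1) - (if a = 0 then (m * x - j) else 0)) ≤ hm m x := by
    unfold hm
    rw [hd]
    refine le_min ?_ ?_
    · rw [mul_min_of_nonneg _ _ hm0.le]
      refine le_min ?_ ?_
      · by_cases hj1 : j = 0
        · rw [if_pos hj1]
          split_ifs <;> linarith
        · have : (1 : ℝ) ≤ j := by exact_mod_cast Nat.one_le_iff_ne_zero.2 hj1
          rw [if_neg hj1]
          split_ifs <;> linarith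
      · by_cases ha1 : a = 0
        · have : (a : ℝ) = 0 := by exact_mod_cast ha1
          rw [if_pos ha1]
          split_ifs <;> nlinarith
        · have : (1 : ℝ) ≤ a := by exact_mod_cast Nat.one_le_iff_ne_zero.2 ha1
          rw [if_neg ha1]
          split_ifs <;> nlinarith
    · split_ifs <;> linarith
  linarith

/-- iterating the upper bound on an invariant set -/
theorem upper_on {m : ℕ} (hm2 : 2 ≤ m) {f : ℝ → ℝ} (hf : Cls m f) (S : Set ℝ)
    (hS : S ⊆ Set.Icc 0 1) (hinv : ∀ y ∈ S, ∀ j : ℕ, (m : ℝ) * y - j ∈ Set.Icc (0 : ℝ) 1 → (m : ℝ) * y - j ∈ S)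
    (hb : BddAbove (f '' S)) : ∀ x ∈ S, f x ≤ phi m x := by
  obtain ⟨M, hM⟩ := hb
  have hm1 : (1 : ℝ) < m := by exact_mod_cast (by omega : 1 < m)
  have hm0 : (0 : ℝ) < m := by linarith
  have hk : ∀ k : ℕ, ∀ x ∈ S, f x ≤ phi m x + max M 0 / (m : ℝ) ^ k := by
    intro k
    induction k with
    | zero =>
      intro x hx
      have h1 := hM (Set.mem_image_of_mem f hx)
      have h2 := phi_nonneg m x
      have h3 := le_max_left M 0
      simp only [pow_zero, div_one]
      linarith
    | succ k ih =>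
      intro x hx
      have hx01 := hS hx
      -- choose j
      obtain ⟨j, hj, hj0, hj1⟩ : ∃ j : ℕ, j < m ∧ 0 ≤ (m : ℝ) * x - j ∧ (m : ℝ) * x - j ≤ 1 := by
        rcases lt_or_eq_of_le hx01.2 with h | h
        · refine ⟨⌊(m : ℝ) * x⌋₊, ?_, ?_, ?_⟩
          · rw [Nat.floor_lt (mul_nonneg hm0.le hx01.1)]
            nlinarith
          · have := Nat.floor_le (mul_nonneg hm0.le hx01.1)
            linarith
          · have := Nat.lt_floor_add_one ((m : ℝ) * x)
            linarith
        · refine ⟨m - 1, by omega, ?_, ?_⟩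
          · rw [h, Nat.cast_sub (by omega)]; push_cast; linarith
          · rw [h, Nat.cast_sub (by omega)]; push_cast; linarith
      have h1 := upper_step hm2 hf j hj hj0 hj1
      have h2 := ih _ (hinv x hx j ⟨hj0, hj1⟩)
      have h3 : phi m ((m : ℝ) * x - j) = phi m (m * x) := by
        have := phi_add_int m ((m : ℝ) * x - j) (j : ℤ)
        rw [← this]; congr 1; push_cast; ring
      rw [h3] at h2
      rw [phi_rec hm2 x]
      have h4 : f ((m : ℝ) * x - j) / m ≤ (phi m (m * x) + max M 0 / (m : ℝ) ^ k) / m :=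
        div_le_div_of_nonneg_right h2 hm0.le
      rw [add_div, div_div, ← pow_succ] at h4
      linarith
  intro x hx
  have hlim : Filter.Tendsto (fun k : ℕ => phi m x + max M 0 / (m : ℝ) ^ k) Filter.atTop
      (nhds (phi m x + 0)) := by
    refine Filter.Tendsto.const_add _ ?_
    have h1 : Filter.Tendsto (fun k : ℕ => max M 0 * ((m : ℝ)⁻¹) ^ k) Filter.atTop
        (nhds (max M 0 * 0)) :=
      (tendsto_pow_atTop_nhds_zero_of_lt_one (by positivity) (inv_lt_one_of_one_lt₀ hm1)).const_mul _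
    rw [mul_zero] at h1
    refine h1.congr fun k => ?_
    rw [inv_pow]; rfl
  rw [add_zero] at hlim
  exact ge_of_tendsto' hlim fun k => hk k x hx

theorem upper_bdd {m : ℕ} (hm2 : 2 ≤ m) {f : ℝ → ℝ} (hf : Cls m f)
    (hb : BddAbove (f '' Set.Icc 0 1)) : ∀ x ∈ Set.Icc (0 : ℝ) 1, f x ≤ phi m x :=
  upper_on hm2 hf _ le_rfl (fun _ _ _ h => h) hb

theorem upper_rat {m : ℕ} (hm2 : 2 ≤ m) {f : ℝ → ℝ} (hf : Cls m f) (q : ℚ)
    (hq : (q : ℝ) ∈ Set.Icc (0 : ℝ) 1) : f q ≤ phi m q := by
  have hd : (0 : ℝ) < q.den := by exact_mod_cast q.den_pos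
  let S : Set ℝ := {y | y ∈ Set.Icc (0 : ℝ) 1 ∧ ∃ k : ℤ, y * q.den = k}
  have hfin : S.Finite := by
    refine Set.Finite.subset ((Set.finite_Icc (0 : ℤ) q.den).image (fun k : ℤ => (k : ℝ) / q.den)) ?_
    rintro y ⟨hy, k, hk⟩
    refine ⟨k, ⟨?_, ?_⟩, ?_⟩
    · have : (0 : ℝ) ≤ k := by rw [← hk]; exact mul_nonneg hy.1 hd.le
      exact_mod_cast this
    · have : (k : ℝ) ≤ q.den := by rw [← hk]; nlinarith [hy.2]
      exact_mod_cast this
    · simp only
      rw [← hk]; field_simp
  refine upper_on hm2 hf S (fun y hy => hy.1) ?_ (hfin.image f).bddAbove _ ⟨hq, q.num, ?_⟩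
  · rintro y ⟨_, k, hk⟩ j hj
    refine ⟨hj, m * k - j * q.den, ?_⟩
    push_cast
    rw [← hk]; ring
  · exact_mod_cast Rat.mul_den_eq_num q

/-- dist to the nearest integer is 1-Lipschitz -/
theorem nd_lip : LipschitzWith 1 (fun x : ℝ => |x - round x|) := by
  refine LipschitzWith.of_le_add fun x y => ?_
  calc |x - round x| ≤ |x - round y| := round_le x (round y)
    _ = |(x - y) + (y - round y)| := by congr 1; ring
    _ ≤ |x - y| + |y - round y| := abs_add_le _ _
    _ = |y - round y| + dist x y := by rw [Real.dist_eq]; ring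

theorem hm_cont (m : ℕ) : Continuous (hm m) := by
  unfold hm
  exact (continuous_const.mul nd_lip.continuous).min continuous_const

theorem phi_cont {m : ℕ} (hm2 : 2 ≤ m) : Continuous (phi m) := by
  have h1 : (1 : ℝ) < m := by exact_mod_cast (by omega : 1 < m)
  unfold phi
  refine continuous_tsum (u := fun k : ℕ => ((m : ℝ)⁻¹) ^ k) ?_
    (summable_geometric_of_lt_one (by positivity) (inv_lt_one_of_one_lt₀ h1)) ?_
  · intro k
    exact ((hm_cont m).comp (continuous_const.mul continuous_id)).div_const _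
  · intro k x
    have h2 : 0 ≤ hm m ((m : ℝ) ^ k * x) / (m : ℝ) ^ k := div_nonneg (hm_nonneg _ _) (by positivity)
    rw [Real.norm_eq_abs, abs_of_nonneg h2, inv_pow, div_eq_mul_inv]
    exact mul_le_of_le_one_left (by positivity) (hm_le_one _ _)

theorem hm_zero (m : ℕ) : hm m 0 = 0 := by simp [hm]

theorem phi_zero (m : ℕ) : phi m 0 = 0 := by
  unfold phi
  simp [hm_zero]

theorem phi_int (m : ℕ) (n : ℤ) : phi m n = 0 := by
  have := phi_add_int m 0 n
  rwa [zero_add, phi_zero] at this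

end Pool.Agent.W401.WC
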